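import Pool.Agent.Lib_MP_2c424f_lin.G3a

/-!
# H30 G3b: adding a colour

* `extra`: `resum` with `φ _ x = 1 + 1/x`: `≤ WW b 1 ≤ ZZ (q+1)` (for `x = 0` the term `x (1 + 1/x)` is `0 ≤ x + 1`).
* `mean_dev`: Jensen and `typ_exp`.
* `ratio_w`: let `⟨·⟩` be the mean with the weights `∏ ((x_v + w)/q)` (total mass `WW b w > 0`).
  `WW b 1/WW b w = ⟨∏ (x_v+1)/(x_v+w)⟩ ≥ exp ⟨∑ log ((x_v+1)/(x_v+w))⟩` (Jensen; for `w = 0` a configuration with some
  `x_v = 0` has weight `0`: use `log` only on the support, or prove the case `w > 0` and let `w → 0`; or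
  `∏ a_v ≥ W exp (⟨∑ ..⟩)` by the weighted inequality `y ≥ e^m (1 + log y - m)`).  `log ((x+1)/(x+w)) ≥ (1-w)/(x+1)` and
  `1/(x+1) ≥ 4/q - 4(x+1)/q²`, so with `n = N/2`, `ξ = x/q`:
  `∑ log ≥ (1-w) (4n/q - (4/q) ∑ ξ_v - 4n/q²)`, `⟨∑ (ξ_v - 1/2)⟩ ≤ (1/2) (n ⟨∑ (1-2ξ_v)²⟩)^(1/2)` and by Jensen, `typ_expw`,
  `WW b w ≥ ZZ` and `pressure_ge`: `⟨∑ (1-2ξ_v)²⟩ ≤ N (q log 2/(4d) + 6w/q + 1/q²) ≤ 7 δ N = 14 δ n`.  So
  `⟨∑ log⟩ ≥ (1-w)(N/q)(1 - √(14δ) - 2/q)`.
* `ratio_ge`: `w = 0`.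
-/

set_option autoImplicit false

open Finset

namespace Pool.Agent.LIN

open Pool.Agent.LO

variable {d k q : ℕ}

/-- Jensen for `exp` with finitely many weights -/
private theorem G3b_jensen {ι : Type*} (s : Finset ι) (a T : ι → ℝ) (ha : ∀ i ∈ s, 0 ≤ a i) {W : ℝ}
    (hW : ∑ i ∈ s, a i = W) (hW0 : 0 < W) :
    W * Real.exp ((∑ i ∈ s, a i * T i) / W) ≤ ∑ i ∈ s, a i * Real.exp (T i) := by
  set m : ℝ := (∑ i ∈ s, a i * T i) / W with hm
  have hmW : ∑ i ∈ s, a i * T i = m * W := by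
    rw [hm]
    field_simp
  have h1 : ∑ i ∈ s, a i * (Real.exp m * (1 + T i - m)) = W * Real.exp m := by
    have h2 : ∀ i ∈ s, a i * (Real.exp m * (1 + T i - m)) =
        Real.exp m * (a i * T i) + Real.exp m * (1 - m) * a i := fun i _ => by ring
    rw [sum_congr rfl h2, sum_add_distrib, ← mul_sum, ← mul_sum, hmW, hW]
    ring
  rw [← h1]
  refine sum_le_sum fun i hi => mul_le_mul_of_nonneg_left ?_ (ha i hi)
  have h3 : Real.exp (T i) = Real.exp m * Real.exp (T i - m) := by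
    rw [← Real.exp_add]
    congr 1
    ring
  rw [h3]
  refine mul_le_mul_of_nonneg_left ?_ (Real.exp_pos m).le
  have h4 := Real.add_one_le_exp (T i - m)
  linarith

/-- one factor -/
private theorem G3b_fac {x w q : ℝ} (hx : 0 ≤ x) (hw : 0 ≤ w) (hw1 : w ≤ 1) (hq : 0 < q) :
    (x + w) / q * Real.exp ((1 - w) * (4 / q - 4 / q ^ 2 - 4 / q * (x / q))) ≤ (x + 1) / q := by
  have h1 : 4 / q - 4 / q ^ 2 - 4 / q * (x / q) ≤ 1 / (x + 1) := by
    have h2 : 1 / (x + 1) - (4 / q - 4 / q ^ 2 - 4 / q * (x / q)) =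
        (q - 2 * (x + 1)) ^ 2 / ((x + 1) * q ^ 2) := by
      have : x + 1 ≠ 0 := by positivity
      field_simp
      ring
    have h3 : 0 ≤ (q - 2 * (x + 1)) ^ 2 / ((x + 1) * q ^ 2) := by positivity
    linarith
  have h4 : (1 - w) * (4 / q - 4 / q ^ 2 - 4 / q * (x / q)) ≤ (1 - w) / (x + 1) := by
    calc (1 - w) * (4 / q - 4 / q ^ 2 - 4 / q * (x / q)) ≤ (1 - w) * (1 / (x + 1)) :=
          mul_le_mul_of_nonneg_left h1 (by linarith)
      _ = (1 - w) / (x + 1) := by ring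
  have h5 : (x + w) ≤ (x + 1) * Real.exp (-((1 - w) / (x + 1))) := by
    have h6 := Real.add_one_le_exp (-((1 - w) / (x + 1)))
    have h7 : (x + 1) * (-((1 - w) / (x + 1)) + 1) = x + w := by
      have : x + 1 ≠ 0 := by positivity
      field_simp
      ring
    rw [← h7]
    exact mul_le_mul_of_nonneg_left h6 (by positivity)
  calc (x + w) / q * Real.exp ((1 - w) * (4 / q - 4 / q ^ 2 - 4 / q * (x / q)))
      ≤ (x + w) / q * Real.exp ((1 - w) / (x + 1)) :=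
        mul_le_mul_of_nonneg_left (Real.exp_le_exp.2 h4) (by positivity)
    _ ≤ ((x + 1) * Real.exp (-((1 - w) / (x + 1)))) / q * Real.exp ((1 - w) / (x + 1)) := by
        gcongr
    _ = (x + 1) / q := by
        rw [Real.exp_neg]
        have := (Real.exp_pos ((1 - w) / (x + 1))).ne'
        field_simp

private theorem G3b_params {δ : ℝ} (hδ : 0 < δ) (hδ1 : δ ≤ 1 / 2) (h1 : 1 / δ ≤ q)
    (h2 : (q : ℝ) ≤ δ * d) : 1 ≤ d ∧ 2 ≤ q := by
  have hq : (2 : ℝ) ≤ q := by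
    refine le_trans ?_ h1
    rw [le_div_iff₀ hδ]
    linarith
  have hd : (0 : ℝ) < d := by
    have : 0 < δ * d := by linarith
    exact (pos_iff_pos_of_mul_pos this).1 hδ
  exact ⟨by exact_mod_cast hd, by exact_mod_cast hq⟩

private theorem G3b_num {δ w : ℝ} (hδ : 0 < δ) (hδ1 : δ ≤ 1 / 2) (h1 : 1 / δ ≤ q)
    (h2 : (q : ℝ) ≤ δ * d) (hd : 1 ≤ d) (hq : 2 ≤ q) (hw1 : w ≤ 1) :
    (q : ℝ) * Real.log 2 / (4 * d) + 6 * w / q + 1 / (q : ℝ) ^ 2 ≤ 7 * δ := by
  have hd0 : (0 : ℝ) < d := by exact_mod_cast hd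
  have hq0 : (0 : ℝ) < q := by
    have : (2 : ℝ) ≤ q := by exact_mod_cast hq
    linarith
  have hlog : Real.log 2 ≤ 1 := by
    have := Real.log_two_lt_d9
    linarith
  have hlog0 : 0 ≤ Real.log 2 := Real.log_nonneg (by norm_num)
  have e1 : (q : ℝ) * Real.log 2 / (4 * d) ≤ δ / 4 := by
    rw [div_le_div_iff₀ (by positivity) (by norm_num)]
    nlinarith [mul_le_mul_of_nonneg_left hlog hq0.le]
  have e2 : 1 / (q : ℝ) ≤ δ := by
    rw [div_le_iff₀ hq0]
    rw [div_le_iff₀ hδ] at h1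
    linarith
  have e20 : 0 ≤ 1 / (q : ℝ) := by positivity
  have e3 : 6 * w / q ≤ 6 * δ := by
    calc 6 * w / q = 6 * w * (1 / q) := by ring
      _ ≤ 6 * 1 * (1 / q) := by gcongr
      _ ≤ 6 * δ := by linarith
  have e4 : 1 / (q : ℝ) ^ 2 ≤ δ / 2 := by
    calc 1 / (q : ℝ) ^ 2 = (1 / q) * (1 / q) := by ring
      _ ≤ δ * δ := mul_le_mul e2 e2 e20 hδ.le
      _ ≤ δ / 2 := by nlinarith
  linarith

theorem ratio_w {δ : ℝ} (hδ : 0 < δ) (hδ1 : δ ≤ 1 / 2) (h1 : 1 / δ ≤ q) (h2 : (q : ℝ) ≤ δ * d) (hk : 2 ≤ k)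
    (b : Bool) (w : ℝ) (hw : 0 ≤ w) (hw1 : w ≤ 1) :
    Real.log (WW d k q b w) + NN d k / q * ((1 - w) * (1 - Real.sqrt (14 * δ) - 2 / q)) ≤
      Real.log (WW d k q b 1) := by
  obtain ⟨hd, hq⟩ := G3b_params hδ hδ1 h1 h2
  have hq0 : (0 : ℝ) < q := by
    have : (2 : ℝ) ≤ q := by exact_mod_cast hq
    linarith
  have hN0 : 0 < NN d k := by
    unfold NN
    positivity
  -- the total weight
  set W : ℝ := WW d k q b w with hWdef
  have hZW : ZZ d k q ≤ W := by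
    rw [← WW_zero (by omega) (by omega) b]
    exact WW_mono b le_rfl hw
  have hW0 : 0 < W := lt_of_lt_of_le (ZZ_pos (by omega) hq) hZW
  set a : (Site d k → Fin q) → ℝ := fun f => ∏ v ∈ cls b d k, (((av f v : ℝ) + w) / q) with hadef
  have ha : ∀ f, 0 ≤ a f := fun f => prod_nonneg fun v _ => by positivity
  have haW : ∑ f, a f = W := rfl
  -- mean of the square deviation
  set T : (Site d k → Fin q) → ℝ := fun f => ∑ v ∈ cls b d k, (1 - 2 * xi f v) ^ 2 with hTdef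
  have hT : (∑ f, a f * T f) / W ≤ 7 * δ * NN d k := by
    have j1 := G3b_jensen univ a T (fun f _ => ha f) haW hW0
    have j2 : ∑ f, a f * Real.exp (T f) ≤
        Real.exp (NN d k * (Real.log (q / 2) + q * Real.log 2 / (4 * d) + 6 * w / q)) := by
      refine le_trans (le_of_eq (sum_congr rfl fun f _ => ?_)) (typ_expw hd hk hq b w hw hw1)
      rw [hadef, hTdef]
      simp only
      rw [Real.exp_sum, ← prod_mul_distrib]
    have j3 : Real.exp (NN d k * (Real.log (q / 2) - 1 / (q : ℝ) ^ 2)) ≤ W := by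
      refine le_trans ?_ hZW
      rw [← Real.le_log_iff_exp_le (ZZ_pos (by omega) hq)]
      exact pressure_ge hd hk hq
    have j4 : Real.exp (NN d k * (Real.log (q / 2) - 1 / (q : ℝ) ^ 2) + (∑ f, a f * T f) / W) ≤
        Real.exp (NN d k * (Real.log (q / 2) + q * Real.log 2 / (4 * d) + 6 * w / q)) := by
      rw [Real.exp_add]
      exact le_trans (mul_le_mul_of_nonneg_right j3 (Real.exp_pos _).le) (j1.trans j2)
    rw [Real.exp_le_exp] at j4
    have j5 := mul_le_mul_of_nonneg_left (G3b_num (w := w) hδ hδ1 h1 h2 hd hq hw1) hN0.le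
    linarith
  -- the logarithm of the factor
  set L : (Site d k → Fin q) → ℝ := fun f => ∑ v ∈ cls b d k,
    ((1 - w) * (4 / q - 4 / (q : ℝ) ^ 2 - 4 / q * ((av f v : ℝ) / q))) with hLdef
  have hL1 : ∀ f, a f * Real.exp (L f) ≤ ∏ v ∈ cls b d k, (((av f v : ℝ) + 1) / q) := by
    intro f
    rw [hadef, hLdef]
    simp only
    rw [Real.exp_sum, ← prod_mul_distrib]
    exact prod_le_prod (fun v _ => by positivity) fun v _ => G3b_fac (by positivity) hw hw1 hq0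
  have hL2 : W * Real.exp ((∑ f, a f * L f) / W) ≤ WW d k q b 1 :=
    (G3b_jensen univ a L (fun f _ => ha f) haW hW0).trans (sum_le_sum fun f _ => hL1 f)
  -- lower bound for the mean of `L`
  set θ : ℝ := Real.sqrt (14 * δ) with hθdef
  have hθ0 : 0 < θ := Real.sqrt_pos.2 (by linarith)
  have hθ2 : θ ^ 2 = 14 * δ := Real.sq_sqrt (by linarith)
  have hcard := card_cls (d := d) (k := k) hd (by omega) b
  have hLT : ∀ f, NN d k / q * ((1 - w) * (1 - θ / 2 - 2 / q)) -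
      (1 - w) / (q * θ) * T f ≤ L f := by
    intro f
    have k1 : ∀ v ∈ cls b d k, (1 - w) * (2 / q * (1 - θ / 2 - 2 / q)) -
        (1 - w) / (q * θ) * (1 - 2 * xi f v) ^ 2 ≤
        (1 - w) * (4 / q - 4 / (q : ℝ) ^ 2 - 4 / q * ((av f v : ℝ) / q)) := by
      intro v _
      have k2 : (1 - w) * (4 / q - 4 / (q : ℝ) ^ 2 - 4 / q * ((av f v : ℝ) / q)) -
          ((1 - w) * (2 / q * (1 - θ / 2 - 2 / q)) -
            (1 - w) / (q * θ) * (1 - 2 * xi f v) ^ 2) =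
          (1 - w) / (q * θ) * (θ + (1 - 2 * xi f v)) ^ 2 := by
        unfold xi
        field_simp
        ring
      have k3 : 0 ≤ (1 - w) / (q * θ) * (θ + (1 - 2 * xi f v)) ^ 2 :=
        mul_nonneg (div_nonneg (by linarith) (by positivity)) (sq_nonneg _)
      linarith
    have k4 := sum_le_sum k1
    rw [sum_sub_distrib, sum_const, nsmul_eq_mul, hcard, ← mul_sum] at k4
    refine le_trans (le_of_eq ?_) k4
    rw [hTdef]
    simp only
    ring
  have hLm : NN d k / q * ((1 - w) * (1 - θ - 2 / q)) ≤ (∑ f, a f * L f) / W := by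
    have m1 : ∑ f, a f * (NN d k / q * ((1 - w) * (1 - θ / 2 - 2 / q)) -
        (1 - w) / (q * θ) * T f) ≤ ∑ f, a f * L f :=
      sum_le_sum fun f _ => mul_le_mul_of_nonneg_left (hLT f) (ha f)
    have m2 : ∑ f, a f * (NN d k / q * ((1 - w) * (1 - θ / 2 - 2 / q)) -
        (1 - w) / (q * θ) * T f) = NN d k / q * ((1 - w) * (1 - θ / 2 - 2 / q)) * W -
        (1 - w) / (q * θ) * ∑ f, a f * T f := by
      rw [← haW, mul_sum, mul_sum, ← sum_sub_distrib]
      exact sum_congr rfl fun f _ => by ring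
    rw [m2] at m1
    have m3 : ∑ f, a f * T f ≤ 7 * δ * NN d k * W := (div_le_iff₀ hW0).1 hT
    have m4 : (1 - w) / (q * θ) * ∑ f, a f * T f ≤ (1 - w) / (q * θ) * (7 * δ * NN d k * W) :=
      mul_le_mul_of_nonneg_left m3 (div_nonneg (by linarith) (by positivity))
    have m5 : (1 - w) / (q * θ) * (7 * δ * NN d k * W) =
        NN d k / q * ((1 - w) * (θ / 2)) * W := by
      have : 7 * δ = θ ^ 2 / 2 := by rw [hθ2]; ring
      rw [this]
      field_simp
    rw [le_div_iff₀ hW0]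
    have m6 : NN d k / q * ((1 - w) * (1 - θ - 2 / q)) * W =
        NN d k / q * ((1 - w) * (1 - θ / 2 - 2 / q)) * W - NN d k / q * ((1 - w) * (θ / 2)) * W := by
      ring
    rw [m6]
    linarith
  have hfin : W * Real.exp (NN d k / q * ((1 - w) * (1 - θ - 2 / q))) ≤ WW d k q b 1 :=
    (mul_le_mul_of_nonneg_left (Real.exp_le_exp.2 hLm) hW0.le).trans hL2
  have hlogf := Real.log_le_log (by positivity) hfin
  rwa [Real.log_mul hW0.ne' (Real.exp_pos _).ne', Real.log_exp] at hlogf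

theorem ratio_ge {δ : ℝ} (hδ : 0 < δ) (hδ1 : δ ≤ 1 / 2) (h1 : 1 / δ ≤ q) (h2 : (q : ℝ) ≤ δ * d) (hk : 2 ≤ k) :
    Real.log (ZZ d k q) + NN d k / q * (1 - Real.sqrt (14 * δ) - 2 / q) ≤ Real.log (ZZ d k (q + 1)) := by
  obtain ⟨hd, hq⟩ := G3b_params hδ hδ1 h1 h2
  have h3 := ratio_w hδ hδ1 h1 h2 hk true 0 le_rfl zero_le_one
  rw [WW_zero (by omega) (by omega) true, sub_zero, one_mul] at h3
  have h4 : 0 < WW d k q true 1 := by
    refine lt_of_lt_of_le (ZZ_pos (d := d) (k := k) (by omega) hq) ?_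
    rw [← WW_zero (by omega) (by omega) true]
    exact WW_mono true le_rfl zero_le_one
  exact h3.trans (Real.log_le_log h4 (WW_one (by omega) (by omega) true))

end Pool.Agent.LIN
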