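import Pool.Agent.Lib_MP_2c424f_lin.F2

/-!
# H30 F4: the hard-core bound

Independent sets `I` as `f : Site d k → Bool`.  Even part `f` on the class `true`; given it, the odd sites with no
neighbour in `I` are free:
`2^(N/2) ∑_I λ^|I| = ∑_{f : Site → Bool} ∏_{v odd} (1 + λ 1[no neighbour true]) ∏_{u even} λ^{f u}` and
`∏_{u even} λ^{f u} = ∏_{v odd} ∏_σ λ^{f(v+σ)/(2d)}`.  `finner_cls` with
`g c = λ^{#{σ : c σ}/(2d)} (1 + λ 1[c = false])`:
`∑_c g(c)^(2d) = (1+λ)^(2d) - 1 + (1+λ)^(2d) ≤ 2 (1+λ)^(2d)`, power `N/(4d)`, and `1+λ ≤ exp λ`.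
(For `λ = 0` use `0^0 = 1` or treat it separately.)
-/

set_option autoImplicit false

open Finset

namespace Pool.Agent.LIN

open Pool.Agent.LO

variable {d k : ℕ}

open scoped Classical in
/-- the odd sites without neighbours in `J` -/
private noncomputable def hcT (J : Finset (Site d k)) : Finset (Site d k) :=
  (cls false d k).filter fun v => ∀ σ : Stp d, v + sv σ ∉ J

/-- the weight at an odd site -/
private noncomputable def hcg (d : ℕ) (lam : ℝ) (c : Stp d → Bool) : ℝ :=
  lam ^ (((univ.filter fun σ : Stp d => c σ = true).card : ℝ) / (2 * d)) *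
    (if ∀ σ, c σ = false then 1 + lam else 1)

private theorem hcg_nonneg (lam : ℝ) (hl : 0 ≤ lam) (c : Stp d → Bool) : 0 ≤ hcg d lam c := by
  unfold hcg
  refine mul_nonneg (Real.rpow_nonneg hl _) ?_
  split_ifs <;> linarith

open scoped Classical in
/-- inner sum: independent sets with prescribed even part -/
private theorem hc_inner (lam : ℝ) (hl : 0 ≤ lam) (J : Finset (Site d k)) :
    ∑ I ∈ ((univ : Finset (Finset (Site d k))).filter Ind).filter (fun I => I ∩ cls true d k = J), lam ^ I.card ≤
      lam ^ J.card * (1 + lam) ^ (hcT J).card := by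
  classical
  have h1 : ∀ I ∈ ((univ : Finset (Finset (Site d k))).filter Ind).filter (fun I => I ∩ cls true d k = J),
      lam ^ I.card = lam ^ J.card * lam ^ (I ∩ cls false d k).card := by
    intro I hI
    rw [mem_filter] at hI
    rw [← pow_add, ← hI.2]
    congr 1
    rw [← Finset.card_union_of_disjoint]
    · congr 1
      ext x
      have := cls_not (d := d) (k := k) true x
      simp only [Bool.not_true] at this
      simp only [mem_union, mem_inter, this]
      tauto
    · rw [Finset.disjoint_left]
      intro x hx hx'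
      have := cls_not (d := d) (k := k) true x
      simp only [Bool.not_true] at this
      rw [mem_inter] at hx hx'
      exact (this.mp hx'.2) hx.2
  rw [sum_congr rfl h1, ← mul_sum]
  refine mul_le_mul_of_nonneg_left ?_ (pow_nonneg hl _)
  have h2 : (1 + lam) ^ (hcT J).card = ∑ L ∈ (hcT J).powerset, lam ^ L.card := by
    have := Finset.sum_pow_mul_eq_add_pow lam 1 (hcT J)
    rw [add_comm 1 lam, ← this]
    refine sum_congr rfl fun L _ => ?_
    rw [one_pow, mul_one]
  rw [h2]
  have hinj : Set.InjOn (fun I : Finset (Site d k) => I ∩ cls false d k)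
      (((univ : Finset (Finset (Site d k))).filter Ind).filter (fun I => I ∩ cls true d k = J) :
        Finset (Finset (Site d k))) := by
    intro I hI I' hI' h
    simp only [coe_filter, mem_filter, mem_univ, true_and, Set.mem_ofPred_eq] at hI hI' h
    ext x
    by_cases hx : x ∈ cls true d k
    · have e : x ∈ I ∩ cls true d k ↔ x ∈ I' ∩ cls true d k := by rw [hI.2, hI'.2]
      simpa [mem_inter, hx] using e
    · have hx' : x ∈ cls false d k := (cls_not (d := d) (k := k) true x).mpr hx
      have e : x ∈ I ∩ cls false d k ↔ x ∈ I' ∩ cls false d k := by rw [h]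
      simpa [mem_inter, hx'] using e
  rw [← Finset.sum_image (f := fun L : Finset (Site d k) => lam ^ L.card) hinj]
  refine Finset.sum_le_sum_of_subset_of_nonneg ?_ (fun L _ _ => pow_nonneg hl _)
  intro L hL
  rw [mem_image] at hL
  obtain ⟨I, hI, rfl⟩ := hL
  simp only [mem_filter, mem_univ, true_and] at hI
  rw [mem_powerset]
  intro x hx
  rw [mem_inter] at hx
  unfold hcT
  rw [mem_filter]
  refine ⟨hx.2, fun σ hσ => ?_⟩
  rw [← hI.2, mem_inter] at hσ
  exact hI.1 x hx.1 σ hσ.1

/-- the even part of a function -/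
private noncomputable def hcJ (f : Site d k → Bool) : Finset (Site d k) :=
  (cls true d k).filter fun x => f x = true

private theorem hc_prod (hd : 1 ≤ d) (hk : 1 ≤ k) (lam : ℝ) (hl : 0 < lam) (f : Site d k → Bool) :
    ∏ v ∈ cls false d k, hcg d lam (fun σ => f (v + sv σ)) =
      lam ^ (hcJ f).card * (1 + lam) ^ (hcT (hcJ f)).card := by
  classical
  unfold hcg
  rw [prod_mul_distrib]
  congr 1
  · rw [← Real.rpow_sum_of_pos hl]
    rw [← Real.rpow_natCast]
    congr 1
    rw [← Finset.sum_div]
    have hdpos : (0 : ℝ) < 2 * d := by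
      have : (1 : ℝ) ≤ d := by exact_mod_cast hd
      linarith
    rw [div_eq_iff hdpos.ne']
    have h := sum_nbr (d := d) (k := k) hk (fun u _ => if f u = true then (1 : ℝ) else 0)
    have hc0 : cls false d k = ods d k := by simp [cls]
    have hc1 : cls true d k = evs d k := by simp [cls]
    rw [hc0]
    have e1 : ∀ v : Site d k, (((univ.filter fun σ : Stp d => f (v + sv σ) = true).card : ℕ) : ℝ) =
        ∑ σ : Stp d, if f (v + sv σ) = true then (1 : ℝ) else 0 := by
      intro v
      rw [Finset.sum_boole]
    rw [sum_congr rfl fun v _ => e1 v, ← h]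
    simp only [sum_const, nsmul_eq_mul]
    rw [← mul_sum, Finset.sum_boole]
    unfold hcJ
    rw [hc1, card_univ, Fintype.card_prod, Fintype.card_fin, Fintype.card_bool]
    push_cast
    ring
  · unfold hcT
    rw [← Finset.prod_filter, Finset.prod_const]
    congr 2
    refine Finset.filter_congr fun v hv => ?_
    refine forall_congr' fun σ => ?_
    have : v + sv σ ∈ cls true d k := (mem_cls_step (d := d) (k := k) hk true v σ).mpr hv
    unfold hcJ
    rw [mem_filter]
    simp [this]

private theorem hc_lift (Φ : Finset (Site d k) → ℝ) (hΦ : ∀ J, 0 ≤ Φ J) :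
    (2 : ℝ) ^ (cls false d k).card * ∑ J ∈ (cls true d k).powerset, Φ J ≤
      ∑ f : Site d k → Bool, Φ (hcJ f) := by
  classical
  have h0 : (2 : ℝ) ^ (cls false d k).card * ∑ J ∈ (cls true d k).powerset, Φ J =
      ∑ p ∈ (cls true d k).powerset ×ˢ (cls false d k).powerset, Φ p.1 := by
    rw [Finset.sum_product]
    simp only [sum_const, nsmul_eq_mul, card_powerset, mul_sum]
    push_cast
    rfl
  rw [h0]
  set F : Finset (Site d k) × Finset (Site d k) → (Site d k → Bool) :=
    fun p x => decide (x ∈ p.1 ∪ p.2) with hF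
  have hdis : ∀ x, x ∈ cls false d k → x ∉ cls true d k := fun x hx =>
    (cls_not (d := d) (k := k) true x).mp hx
  have hJ : ∀ p ∈ (cls true d k).powerset ×ˢ (cls false d k).powerset, hcJ (F p) = p.1 := by
    intro p hp
    rw [mem_product, mem_powerset, mem_powerset] at hp
    ext x
    unfold hcJ
    simp only [hF, mem_filter, decide_eq_true_eq, mem_union]
    constructor
    · rintro ⟨h1, h2 | h2⟩
      · exact h2
      · exact absurd h1 (hdis x (hp.2 h2))
    · intro h
      exact ⟨hp.1 h, Or.inl h⟩
  rw [sum_congr rfl fun p hp => by rw [← hJ p hp]]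
  have hinj : Set.InjOn F ((cls true d k).powerset ×ˢ (cls false d k).powerset : Finset _) := by
    intro p hp p' hp' h
    have e1 : p.1 = p'.1 := by rw [← hJ p hp, ← hJ p' hp', h]
    refine Prod.ext e1 ?_
    rw [mem_coe, mem_product, mem_powerset, mem_powerset] at hp hp'
    ext x
    have hx := congrFun h x
    simp only [hF, decide_eq_decide, mem_union] at hx
    constructor
    · intro h2
      rcases hx.mp (Or.inr h2) with h3 | h3
      · exact absurd (hp'.1 h3) (hdis x (hp.2 h2))
      · exact h3
    · intro h2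
      rcases hx.mpr (Or.inr h2) with h3 | h3
      · exact absurd (hp.1 h3) (hdis x (hp'.2 h2))
      · exact h3
  rw [← Finset.sum_image (f := fun f : Site d k → Bool => Φ (hcJ f)) hinj]
  exact Finset.sum_le_sum_of_subset_of_nonneg (subset_univ _) (fun f _ _ => hΦ _)

private theorem hc_gsum (hd : 1 ≤ d) (lam : ℝ) (hl : 0 < lam) :
    ∑ c : Stp d → Bool, hcg d lam c ^ (2 * d) ≤ 2 * (1 + lam) ^ (2 * d) := by
  classical
  have hdpos : (0 : ℝ) < 2 * d := by
    have : (1 : ℝ) ≤ d := by exact_mod_cast hd
    linarith
  have h1 : ∀ c : Stp d → Bool, hcg d lam c ^ (2 * d) ≤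
      (∏ σ : Stp d, if c σ = true then lam else 1) + (if c = (fun _ => false) then (1 + lam) ^ (2 * d) else 0) := by
    intro c
    unfold hcg
    rw [mul_pow, ← Real.rpow_natCast, ← Real.rpow_mul hl.le]
    have e : ((univ.filter fun σ : Stp d => c σ = true).card : ℝ) / (2 * d) * ((2 * d : ℕ) : ℝ) =
        ((univ.filter fun σ : Stp d => c σ = true).card : ℕ) := by
      push_cast
      field_simp
    rw [e, Real.rpow_natCast]
    have e2 : (∏ σ : Stp d, if c σ = true then lam else 1) = lam ^ (univ.filter fun σ : Stp d => c σ = true).card := by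
      rw [← Finset.prod_filter, Finset.prod_const]
    rw [e2]
    by_cases hc : ∀ σ, c σ = false
    · have hc' : c = fun _ => false := funext hc
      rw [if_pos hc, if_pos hc']
      have : (univ.filter fun σ : Stp d => c σ = true).card = 0 := by
        rw [Finset.card_eq_zero, Finset.filter_eq_empty_iff]
        intro σ _
        rw [hc σ]
        simp
      rw [this, pow_zero, one_mul]
      linarith
    · have hc' : ¬ c = fun _ => false := fun h => hc fun σ => congrFun h σ
      rw [if_neg hc, if_neg hc', one_pow, mul_one, add_zero]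
  refine (sum_le_sum fun c _ => h1 c).trans ?_
  rw [sum_add_distrib, Finset.sum_ite_eq' univ (fun _ => false) (fun _ => (1 + lam) ^ (2 * d)), if_pos (mem_univ _)]
  have h2 : ∑ c : Stp d → Bool, (∏ σ : Stp d, if c σ = true then lam else 1) = (1 + lam) ^ (2 * d) := by
    have := Finset.prod_univ_sum (fun _ : Stp d => (univ : Finset Bool)) (fun _ b => if b = true then lam else 1)
    rw [Fintype.piFinset_univ] at this
    rw [← this]
    simp only [Fintype.sum_bool, if_true, Bool.false_eq_true, if_false]
    rw [prod_const, card_univ, Fintype.card_prod, Fintype.card_fin, Fintype.card_bool, add_comm, mul_comm 2 d]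
  rw [h2]
  linarith

open scoped Classical in
theorem hardcore (hd : 1 ≤ d) (hk : 2 ≤ k) (lam : ℝ) (hl : 0 ≤ lam) :
    ∑ I ∈ (univ : Finset (Finset (Site d k))).filter Ind, lam ^ I.card ≤
      Real.exp (NN d k * (Real.log 2 / (4 * d) + lam / 2)) := by
  have hN : 0 ≤ NN d k := by
    unfold NN
    positivity
  have hd1 : (1 : ℝ) ≤ d := by exact_mod_cast hd
  have hlog : 0 ≤ Real.log 2 := Real.log_nonneg (by norm_num)
  rcases hl.eq_or_lt with rfl | hpos
  · have h1 : ∑ I ∈ (univ : Finset (Finset (Site d k))).filter Ind, (0 : ℝ) ^ I.card ≤ 1 := by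
      have : ∀ I ∈ (univ : Finset (Finset (Site d k))).filter Ind,
          (0 : ℝ) ^ I.card = if I = ∅ then 1 else 0 := by
        intro I _
        by_cases hI : I = ∅
        · subst hI
          simp
        · rw [if_neg hI, zero_pow]
          exact Finset.card_ne_zero.mpr (Finset.nonempty_iff_ne_empty.mpr hI)
      rw [sum_congr rfl this, Finset.sum_ite_eq']
      split_ifs <;> norm_num
    refine h1.trans ?_
    rw [← Real.exp_zero]
    refine Real.exp_le_exp.mpr ?_
    positivity
  · have hk1 : 1 ≤ k := by omega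
    have hdpos : (0 : ℝ) < 4 * d := by linarith
    have hexp : 0 ≤ NN d k / (4 * d) := div_nonneg hN hdpos.le
    -- fiberwise
    have hS : ∑ I ∈ (univ : Finset (Finset (Site d k))).filter Ind, lam ^ I.card ≤
        ∑ J ∈ (cls true d k).powerset, lam ^ J.card * (1 + lam) ^ (hcT J).card := by
      rw [← Finset.sum_fiberwise_of_maps_to (t := (cls true d k).powerset) (g := fun I => I ∩ cls true d k)
        (fun I _ => mem_powerset.mpr inter_subset_right)]
      exact sum_le_sum fun J _ => hc_inner lam hl J
    have hL := hc_lift (d := d) (k := k) (fun J => lam ^ J.card * (1 + lam) ^ (hcT J).card)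
      (fun J => by positivity)
    have hF := finner_cls hd hk false (hcg d lam) (fun c => hcg_nonneg lam hl c)
    rw [sum_congr rfl fun f _ => hc_prod hd hk1 lam hpos f] at hF
    have h2 : ((2 : ℝ) ^ (cls false d k).card) = (2 : ℝ) ^ (NN d k / 2) := by
      rw [← card_cls hd hk1 false, Real.rpow_natCast]
    rw [h2] at hL
    have h3 : ((Fintype.card Bool : ℕ) : ℝ) = 2 := by simp
    rw [h3] at hF
    have h4 := hL.trans hF
    have h5 := le_of_mul_le_mul_left h4 (Real.rpow_pos_of_pos (by norm_num) _)
    refine hS.trans (h5.trans ?_)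
    have h6 : (∑ c : Stp d → Bool, hcg d lam c ^ (2 * d)) ≤ Real.exp (Real.log 2 + 2 * d * lam) := by
      refine (hc_gsum hd lam hpos).trans ?_
      rw [Real.exp_add, Real.exp_log (by norm_num)]
      have : (1 + lam) ^ (2 * d) ≤ Real.exp lam ^ (2 * d) :=
        pow_le_pow_left₀ (by linarith) (by have := Real.add_one_le_exp lam; linarith) _
      rw [← Real.exp_nat_mul] at this
      push_cast at this
      linarith
    refine (Real.rpow_le_rpow (sum_nonneg fun c _ => pow_nonneg (hcg_nonneg lam hl c) _) h6 hexp).trans ?_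
    rw [← Real.exp_mul]
    refine Real.exp_le_exp.mpr (le_of_eq ?_)
    field_simp
    ring

end Pool.Agent.LIN
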