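import Pool.Agent.Lib_MP_2c424f_lin.G3b

/-!
# H30 G3: adding a colour

* `extra`: `resum` with `φ _ x = 1 + 1/x`: `≤ WW b 1 ≤ ZZ (q+1)` (for `x = 0` the term `x (1 + 1/x)` is `0 ≤ x + 1`).
* `mean_dev`: Jensen and `typ_exp`.
* `ratio_w`: let `⟨·⟩` be the mean with the weights `∏ ((x_v + w)/q)` (total mass `WW b w > 0`).
  `WW b 1/WW b w = ⟨∏ (x_v+1)/(x_v+w)⟩ ≥ exp ⟨∑ log ((x_v+1)/(x_v+w))⟩` (Jensen; for `w = 0` a configuration with some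
  `x_v = 0` has weight `0`: use `log` only on the support, or prove the case `w > 0` and let `w → 0`; or
  `∏ a_v ≥ W exp (⟨∑ ..⟩)` by the weighted inequality `y ≥ e^m (1 + log y - m)`).  `log ((x+1)/(x+w)) ≥ (1-w)/(x+1)` and
  `1/(x+1) ≥ 4/q - 4(x+1)/q²`, so with `n = N/2`, `ξ = x/q`:
  `∑ log ≥ (1-w) (4n/q - (4/q) ∑ ξ_v - 4n/q²)`, `⟨∑ (ξ_v - 1/2)⟩ ≤ (1/2) (n ⟨∑ (1-2ξ_v)²⟩)^(1/2)` and by Jensen, `typ_expw`,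
  `WW b w ≥ ZZ` and `pressure_ge`: `⟨∑ (1-2ξ_v)²⟩ ≤ N (q log 2/(4d) + 6w/q + 1/q²) ≤ 7 δ N = 14 δ n`.  So
  `⟨∑ log⟩ ≥ (1-w)(N/q)(1 - √(14δ) - 2/q)`.
* `ratio_ge`: `w = 0`.
-/
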