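import Pool.Agent.Lib_MP_2c424f_lin.N1
import Pool.Agent.Lib_MP_2c424f_lin.F4
import Pool.Agent.Lib_MP_2c424f_lin.G3

/-!
# H30 N2a: generating function of the number of sites of colour `c`

`X = Xc c f = X' ∪ X''`, `X'' = Xs a c f`.  For fixed `I, Y` let `F(I,Y) = {f proper : X' = I, X'' = Y}`.
`recol`: `#F(I,Y) ((1/2-a)q - 1)^|I| ≤ #{g proper : Xc c g = Y}`: recolour the sites of `I` by available colours `≠ c`
(`av f v - 1 ≥ (1/2-a)q - 1` possibilities each, the sites of `I` are not adjacent and their neighbours are not in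
`X`); `(f, recolouring) ↦ g` is injective for given `I, Y` (`f = c` on `I`), and `F(I,Y)` is empty unless `I` is
independent.  Then (`0 ≤ w ≤ 2`, `J = 30aN/q`, `|Y| ≤ J`)
`∑ w^|X| ≤ [∑_{|Y| ≤ J} w^|Y| (5/q)^|Y|] ZZ(q-1) exp (εN/q) [∑_{I indep} (w/((1/2-a)q-1))^|I|]`;
first bracket `≤ a^(-J) (1 + 10a/q)^N ≤ exp ((N/q)(30 a log (1/a) + 10a))`; second (`hardcore`)
`≤ exp ((N/q)(q log 2/(4d) + w(1+3a)))`; `ZZ(q-1) ≤ ZZ(q) exp (-(N/q)(1 - √(14δ) - 3/q))` (`ratio_ge` for `q-1`).
The total exponent is `(N/q)(w - 1 + s)` with `s → 0` as `a → 0`, then the regime parameter `→ 0`.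
-/

set_option autoImplicit false

open Finset Filter

namespace Pool.Agent.LIN

open Pool.Agent.LO

open scoped Classical in
/-- recolourings of `I` -/
private noncomputable def N2a_R {d k q : ℕ} (c : Fin q) (I : Finset (Site d k))
    (f : Site d k → Fin q) : Finset (Site d k → Fin q) :=
  Fintype.piFinset fun v => if v ∈ I then ((SS f v)ᶜ).erase c else {f v}

private theorem N2a_mem {d k q : ℕ} {c : Fin q} {I : Finset (Site d k)}
    {f g : Site d k → Fin q} (hg : g ∈ N2a_R c I f) :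
    (∀ v ∈ I, g v ≠ c ∧ g v ∉ SS f v) ∧ ∀ v, v ∉ I → g v = f v := by
  classical
  unfold N2a_R at hg
  rw [Fintype.mem_piFinset] at hg
  refine ⟨fun v hv => ?_, fun v hv => ?_⟩
  · have h := hg v
    rw [if_pos hv] at h
    refine ⟨(Finset.mem_erase.1 h).1, ?_⟩
    exact Finset.mem_compl.1 (Finset.mem_erase.1 h).2
  · have h := hg v
    rw [if_neg hv] at h
    exact Finset.mem_singleton.1 h

private theorem N2a_SS {d k q : ℕ} (f : Site d k → Fin q) (v : Site d k) (σ : Stp d) :
    f (v + sv σ) ∈ SS f v :=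
  Finset.mem_image_of_mem _ (Finset.mem_univ σ)

private theorem N2a_prp {d k q : ℕ} {c : Fin q} {I : Finset (Site d k)}
    {f g : Site d k → Fin q} (hf : Prp f) (hI : ∀ v ∈ I, f v = c) (hg : g ∈ N2a_R c I f) :
    Prp g := by
  obtain ⟨h1, h2⟩ := N2a_mem hg
  intro x σ
  by_cases hx : x ∈ I
  · by_cases hy : x + sv σ ∈ I
    · exact absurd ((hI _ hy).trans (hI _ hx).symm) (hf x σ)
    · rw [h2 _ hy]
      intro h
      exact (h1 x hx).2 (h ▸ N2a_SS f x σ)
  · by_cases hy : x + sv σ ∈ I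
    · rw [h2 _ hx]
      intro h
      have h3 : x = (x + sv σ) + sv (σ.1, !σ.2) := by
        rw [add_assoc, sv_opp, add_zero]
      have h4 : f x ∈ SS f (x + sv σ) := by
        have h5 := N2a_SS f (x + sv σ) (σ.1, !σ.2)
        rwa [← h3] at h5
      exact (h1 _ hy).2 (h.symm ▸ h4)
    · rw [h2 _ hx, h2 _ hy]
      exact hf x σ

private theorem N2a_card {d k q : ℕ} (hq : 2 ≤ q) (a : ℝ) (hq2 : 1 ≤ (1 / 2 - a) * q) (c : Fin q)
    (I : Finset (Site d k)) (f : Site d k → Fin q) (hf : Prp f) (hI : ∀ v ∈ I, f v = c)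
    (hx : ∀ v ∈ I, ¬ xi f v < 1 / 2 - a) :
    ((1 / 2 - a) * q - 1) ^ I.card ≤ ((N2a_R c I f).card : ℝ) := by
  classical
  have hcard : (N2a_R c I f).card = ∏ v ∈ I, (((SS f v)ᶜ).erase c).card := by
    unfold N2a_R
    rw [Fintype.card_piFinset]
    have h1 : ∀ v : Site d k, (if v ∈ I then ((SS f v)ᶜ).erase c else {f v}).card =
        if v ∈ I then (((SS f v)ᶜ).erase c).card else 1 := by
      intro v
      split_ifs
      · rfl
      · exact Finset.card_singleton _
    rw [Finset.prod_congr rfl fun v _ => h1 v, Finset.prod_ite_mem, Finset.univ_inter]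
  rw [hcard, Nat.cast_prod]
  rw [← Finset.prod_const]
  refine Finset.prod_le_prod (fun v _ => by linarith) fun v hv => ?_
  have hc : c ∈ (SS f v)ᶜ := by
    rw [Finset.mem_compl]
    intro h
    unfold SS at h
    obtain ⟨σ, -, h⟩ := Finset.mem_image.1 h
    exact hf v σ (h.trans (hI v hv).symm)
  have h2 : (((SS f v)ᶜ).erase c).card + 1 = av f v := by
    rw [Finset.card_erase_add_one hc, Finset.card_compl, Fintype.card_fin]
    rfl
  have h3 : ((((SS f v)ᶜ).erase c).card : ℝ) + 1 = (av f v : ℝ) := by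
    exact_mod_cast h2
  have h4 := hx v hv
  unfold xi at h4
  have hq0 : (0 : ℝ) < q := by
    have : (2 : ℝ) ≤ q := by exact_mod_cast hq
    linarith
  rw [not_lt, le_div_iff₀ hq0] at h4
  linarith

open scoped Classical in
theorem recol {d k q : ℕ} (hk : 2 ≤ k) (hq : 2 ≤ q) (a : ℝ) (ha : 0 < a) (ha1 : a ≤ 1 / 10)
    (hq2 : 1 ≤ (1 / 2 - a) * q) (c : Fin q) (I Y : Finset (Site d k)) :
    (((prps d k q).filter fun f => Xc c f \ Xs a c f = I ∧ Xs a c f = Y).card : ℝ) *
      ((1 / 2 - a) * q - 1) ^ I.card ≤ (((prps d k q).filter fun g => Xc c g = Y).card : ℝ) := by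
  classical
  have hF : ∀ f ∈ (prps d k q).filter fun f => Xc c f \ Xs a c f = I ∧ Xs a c f = Y,
      Prp f ∧ (∀ v ∈ I, f v = c ∧ ¬ xi f v < 1 / 2 - a) ∧ ∀ v, v ∉ I → (f v = c ↔ v ∈ Y) := by
    intro f hf
    obtain ⟨hp, hI, hY⟩ := Finset.mem_filter.1 hf
    unfold prps at hp
    refine ⟨(Finset.mem_filter.1 hp).2, fun v hv => ?_, fun v hv => ?_⟩
    · rw [← hI] at hv
      obtain ⟨h1, h2⟩ := Finset.mem_sdiff.1 hv
      have h3 : f v = c := (Finset.mem_filter.1 h1).2
      refine ⟨h3, fun h4 => h2 ?_⟩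
      exact Finset.mem_filter.2 ⟨Finset.mem_univ _, h3, h4⟩
    · constructor
      · intro h1
        by_contra h2
        apply hv
        rw [← hI]
        refine Finset.mem_sdiff.2 ⟨Finset.mem_filter.2 ⟨Finset.mem_univ _, h1⟩, ?_⟩
        rw [hY]
        exact h2
      · intro h1
        rw [← hY] at h1
        exact (Finset.mem_filter.1 h1).2.1
  have hdis : ∀ f ∈ (prps d k q).filter fun f => Xc c f \ Xs a c f = I ∧ Xs a c f = Y,
      ∀ f' ∈ (prps d k q).filter fun f => Xc c f \ Xs a c f = I ∧ Xs a c f = Y, f ≠ f' →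
      Disjoint (N2a_R c I f) (N2a_R c I f') := by
    intro f hf f' hf' hne
    rw [Finset.disjoint_left]
    intro g hg hg'
    apply hne
    funext v
    by_cases hv : v ∈ I
    · rw [((hF f hf).2.1 v hv).1, ((hF f' hf').2.1 v hv).1]
    · rw [← (N2a_mem hg).2 v hv, ← (N2a_mem hg').2 v hv]
  have hsub : ((prps d k q).filter fun f => Xc c f \ Xs a c f = I ∧ Xs a c f = Y).biUnion
      (N2a_R c I) ⊆ (prps d k q).filter fun g => Xc c g = Y := by
    intro g hg
    obtain ⟨f, hf, hg⟩ := Finset.mem_biUnion.1 hg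
    obtain ⟨hp, h1, h2⟩ := hF f hf
    have hgp : Prp g := N2a_prp hp (fun v hv => (h1 v hv).1) hg
    refine Finset.mem_filter.2 ⟨?_, ?_⟩
    · unfold prps
      exact Finset.mem_filter.2 ⟨Finset.mem_univ _, hgp⟩
    · have hIY : ∀ v ∈ I, v ∉ Y := by
        intro v hv hvY
        obtain ⟨-, hI, hY⟩ := Finset.mem_filter.1 hf
        rw [← hI] at hv
        rw [← hY] at hvY
        exact (Finset.mem_sdiff.1 hv).2 hvY
      ext v
      unfold Xc
      rw [Finset.mem_filter]
      by_cases hv : v ∈ I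
      · constructor
        · intro h
          exact absurd h.2 ((N2a_mem hg).1 v hv).1
        · intro h
          exact absurd h (hIY v hv)
      · rw [(N2a_mem hg).2 v hv]
        constructor
        · intro h
          exact (h2 v hv).1 h.2
        · intro h
          exact ⟨Finset.mem_univ _, (h2 v hv).2 h⟩
  have hle : (((prps d k q).filter fun f => Xc c f \ Xs a c f = I ∧ Xs a c f = Y).biUnion
      (N2a_R c I)).card ≤ ((prps d k q).filter fun g => Xc c g = Y).card :=
    Finset.card_le_card hsub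
  rw [Finset.card_biUnion hdis] at hle
  have hle' : (∑ f ∈ (prps d k q).filter fun f => Xc c f \ Xs a c f = I ∧ Xs a c f = Y,
      ((N2a_R c I f).card : ℝ)) ≤ (((prps d k q).filter fun g => Xc c g = Y).card : ℝ) := by
    exact_mod_cast hle
  refine le_trans ?_ hle'
  rw [← nsmul_eq_mul, ← Finset.sum_const]
  refine Finset.sum_le_sum fun f hf => ?_
  obtain ⟨hp, h1, h2⟩ := hF f hf
  exact N2a_card hq a hq2 c I f hp (fun v hv => (h1 v hv).1) fun v hv => (h1 v hv).2

end Pool.Agent.LIN
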