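import Pool.Agent.Lib_MP_2c424f_lin.L6

/-!
# H30 L7a: conditional means, and the rare events for `z`, `ζ`, `ξ` (6.3)(iii)

* `fm_zz`: for `v ∈ cls b`, given the class `b` the neighbours of `v` are independent and uniform on their available
  colours; `zz h v c = ∏_σ 1[h (v + sv σ) ≠ c]` (distinct neighbours for `k ≥ 2`), so by `fm_prod` (class `!b`)
  `fm (!b) (zz · v c) f = ∏_σ (1 - zz f (v+sv σ) c / av f (v+sv σ)) = zt f v c`.
* `zt h v c = zt f v c` and `PP (zz h · c) v = PP (zz f · c) v` for `h ∈ fib (!b) f`, `v ∈ cls b` (they depend on the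
  class `b`).
* `zt_nonneg`, `zt_le_one`: `zz f u c = 1` implies `1 ≤ av f u` (and `0/0 = 0`).
* `fm_zm`: by `PP_fib`, `fm_zz` it is `ζ m ≤ m exp (-(2d/q) m) ≤ q/(2ed) ≤ q/(5d)` (`y exp (-y) ≤ 1/e`, `Real.add_one_le_exp`).
* `zt_le`: `zt ≤ exp (-(2d/q) m)`, `m = PP (zz · c) v` (`1 - y ≤ exp (-y)`, `av ≤ q`), `0 ≤ zt ≤ 1`.
-/

set_option autoImplicit false

open Finset Filter

namespace Pool.Agent.LIN

open Pool.Agent.LO

variable {d k q : ℕ}

private theorem L7a_fac (f : Site d k → Fin q) (u : Site d k) (c : Fin q) :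
    0 ≤ 1 - zz f u c / (av f u : ℝ) ∧ 1 - zz f u c / (av f u : ℝ) ≤ 1 ∧
      1 - zz f u c / (av f u : ℝ) ≤ Real.exp (-(zz f u c / q)) := by
  have hq : 0 < q := lt_of_le_of_lt (Nat.zero_le _) c.isLt
  have hq' : (0 : ℝ) < q := by exact_mod_cast hq
  unfold zz
  split_ifs with h
  · simp
  · have hcard : (SS f u).card < q := by
      have h1 := Finset.card_lt_univ_of_notMem h
      rwa [Fintype.card_fin] at h1
    have hav : 1 ≤ av f u := by unfold av; omega
    have hav' : (1 : ℝ) ≤ av f u := by exact_mod_cast hav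
    have havq : (av f u : ℝ) ≤ q := by
      have : av f u ≤ q := Nat.sub_le _ _
      exact_mod_cast this
    have h1 : (1 : ℝ) / av f u ≤ 1 := by
      rw [div_le_one (by linarith)]; exact hav'
    have h2 : (0 : ℝ) ≤ 1 / av f u := by positivity
    refine ⟨by linarith, by linarith, ?_⟩
    have h3 : (1 : ℝ) / q ≤ 1 / av f u := one_div_le_one_div_of_le (by linarith) havq
    have h4 := Real.add_one_le_exp (-(1 / (q : ℝ)))
    linarith

theorem zt_nonneg (f : Site d k → Fin q) (v : Site d k) (c : Fin q) : 0 ≤ zt f v c :=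
  Finset.prod_nonneg fun _ _ => (L7a_fac f _ c).1

theorem zt_le_one (f : Site d k → Fin q) (v : Site d k) (c : Fin q) : zt f v c ≤ 1 :=
  Finset.prod_le_one (fun _ _ => (L7a_fac f _ c).1) fun _ _ => (L7a_fac f _ c).2.1

theorem zt_le (hd : 1 ≤ d) {f : Site d k → Fin q} (hf : Prp f) (v : Site d k) (c : Fin q) :
    zt f v c ≤ Real.exp (-(2 * d / q * PP (fun x => zz f x c) v)) := by
  have hd' : (0 : ℝ) < d := by exact_mod_cast hd
  have h1 : zt f v c ≤ ∏ σ : Stp d, Real.exp (-(zz f (v + sv σ) c / q)) :=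
    Finset.prod_le_prod (fun _ _ => (L7a_fac f _ c).1) fun _ _ => (L7a_fac f _ c).2.2
  refine h1.trans (le_of_eq ?_)
  rw [← Real.exp_sum]
  congr 1
  rw [Finset.sum_neg_distrib, ← Finset.sum_div]
  unfold PP
  field_simp

theorem zt_fib (hk : 2 ≤ k) (b : Bool) {f h : Site d k → Fin q} (hh : h ∈ fib (!b) f) (v : Site d k)
    (hv : v ∈ cls b d k) (c : Fin q) : zt h v c = zt f v c := by
  unfold zt
  refine Finset.prod_congr rfl fun σ _ => ?_
  have h1 : v + sv σ ∈ cls (!b) d k := by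
    rw [mem_cls_step (by omega), Bool.not_not]
    exact hv
  have h2 := fib_SS (by omega) (!b) hh _ h1
  unfold zz av
  rw [h2]

theorem PP_fib (hk : 2 ≤ k) (b : Bool) {f h : Site d k → Fin q} (hh : h ∈ fib (!b) f) (v : Site d k)
    (hv : v ∈ cls b d k) (c : Fin q) : PP (fun x => zz h x c) v = PP (fun x => zz f x c) v := by
  unfold PP
  congr 1
  refine Finset.sum_congr rfl fun σ _ => ?_
  have h1 : v + sv σ ∈ cls (!b) d k := by
    rw [mem_cls_step (by omega), Bool.not_not]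
    exact hv
  have h2 := fib_SS (by omega) (!b) hh _ h1
  simp only [zz]
  rw [h2]

end Pool.Agent.LIN
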