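import Pool.Agent.Lib_MP_2c424f_lin.L7a

/-!
# H30 L7c: conditional means, and the rare events for `z`, `ζ`, `ξ` (6.3)(iii)

* `fm_zz`: for `v ∈ cls b`, given the class `b` the neighbours of `v` are independent and uniform on their available
  colours; `zz h v c = ∏_σ 1[h (v + sv σ) ≠ c]` (distinct neighbours for `k ≥ 2`), so by `fm_prod` (class `!b`)
  `fm (!b) (zz · v c) f = ∏_σ (1 - zz f (v+sv σ) c / av f (v+sv σ)) = zt f v c`.
* `zt h v c = zt f v c` and `PP (zz h · c) v = PP (zz f · c) v` for `h ∈ fib (!b) f`, `v ∈ cls b` (they depend on the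
  class `b`).
* `zt_nonneg`, `zt_le_one`: `zz f u c = 1` implies `1 ≤ av f u` (and `0/0 = 0`).
* `fm_zm`: by `PP_fib`, `fm_zz` it is `ζ m ≤ m exp (-(2d/q) m) ≤ q/(2ed) ≤ q/(5d)` (`y exp (-y) ≤ 1/e`, `Real.add_one_le_exp`).
* `zt_le`: `zt ≤ exp (-(2d/q) m)`, `m = PP (zz · c) v` (`1 - y ≤ exp (-y)`, `av ≤ q`), `0 ≤ zt ≤ 1`.
-/

set_option autoImplicit false

open Finset Filter

namespace Pool.Agent.LIN

open Pool.Agent.LO

variable {d k q : ℕ}

private theorem L7c_step (hk : 2 ≤ k) (b : Bool) {v : Site d k} (hv : v ∈ cls b d k)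
    (σ : Stp d) : v + sv σ ∈ cls (!b) d k := by
  rw [mem_cls_step (by omega), Bool.not_not]
  exact hv

theorem fm_zz (hk : 2 ≤ k) (b : Bool) {f : Site d k → Fin q} (hf : Prp f) (v : Site d k)
    (hv : v ∈ cls b d k) (c : Fin q) : fm (!b) (fun h => zz h v c) f = zt f v c := by
  classical
  obtain ⟨U, hU⟩ : ∃ U : Finset (Site d k), U = univ.image fun σ : Stp d => v + sv σ := ⟨_, rfl⟩
  have hUc : U ⊆ cls (!b) d k := by
    intro x hx
    rw [hU, mem_image] at hx
    obtain ⟨σ, -, rfl⟩ := hx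
    exact L7c_step hk b hv σ
  have hinj : ∀ σ ∈ (univ : Finset (Stp d)), ∀ σ' ∈ (univ : Finset (Stp d)),
      v + (sv σ : Site d k) = v + sv σ' → σ = σ' := fun σ _ σ' _ h =>
    sv_inj hk (add_left_cancel h)
  have h1 : ∀ h : Site d k → Fin q, zz h v c = ∏ u ∈ U, (if h u = c then (0 : ℝ) else 1) := by
    intro h
    rw [hU, Finset.prod_image hinj]
    unfold zz SS
    by_cases hc : c ∈ univ.image fun σ : Stp d => h (v + sv σ)
    · rw [if_pos hc]
      obtain ⟨σ, -, hσ⟩ := mem_image.1 hc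
      symm
      apply Finset.prod_eq_zero (mem_univ σ)
      exact if_pos hσ
    · rw [if_neg hc]
      refine (Finset.prod_eq_one fun σ _ => if_neg fun hσ => hc ?_).symm
      exact mem_image.2 ⟨σ, mem_univ σ, hσ⟩
  have h2 : (fun h : Site d k → Fin q => zz h v c) =
      fun h => ∏ u ∈ U, (fun (_ : Site d k) (c' : Fin q) => if c' = c then (0 : ℝ) else 1) u (h u) := by
    funext h
    exact h1 h
  rw [h2]
  refine (fm_prod (by omega) (!b) hf U hUc
    (fun (_ : Site d k) (c' : Fin q) => if c' = c then (0 : ℝ) else 1)).trans ?_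
  rw [hU, Finset.prod_image hinj]
  unfold zt
  refine Finset.prod_congr rfl fun σ _ => ?_
  set u := v + sv σ with hu
  have hcard : ((SS f u)ᶜ.card : ℝ) = av f u := by
    rw [Finset.card_compl, Fintype.card_fin]
    rfl
  have h3 : (∑ c' ∈ (SS f u)ᶜ, (if c' = c then (0 : ℝ) else 1)) = av f u - zz f u c := by
    have h4 : ∀ c' ∈ (SS f u)ᶜ, (if c' = c then (0 : ℝ) else 1) =
        1 - (if c' = c then (1 : ℝ) else 0) := by
      intro c' _
      split_ifs <;> norm_num
    rw [Finset.sum_congr rfl h4, Finset.sum_sub_distrib, Finset.sum_const, nsmul_eq_mul, mul_one,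
      hcard, Finset.sum_ite_eq']
    congr 1
    unfold zz
    by_cases hc : c ∈ SS f u
    · rw [if_neg (by simpa using hc), if_pos hc]
    · rw [if_pos (by simpa using hc), if_neg hc]
  rw [h3]
  have hav : (av f u : ℝ) ≠ 0 := by
    have h5 : f u ∉ SS f u := by
      intro h6
      obtain ⟨τ, -, hτ⟩ := mem_image.1 h6
      exact hf u τ hτ
    have h7 := Finset.card_lt_univ_of_notMem h5
    rw [Fintype.card_fin] at h7
    have h8 : 1 ≤ av f u := by unfold av; omega
    have h9 : (1 : ℝ) ≤ av f u := by exact_mod_cast h8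
    linarith
  rw [sub_div, div_self hav]

/-- conditional mean of `z_v m_v` -/
theorem fm_zm (hd : 1 ≤ d) (hk : 2 ≤ k) (hq : 1 ≤ q) (b : Bool) {f : Site d k → Fin q} (hf : Prp f) (v : Site d k)
    (hv : v ∈ cls b d k) (c : Fin q) :
    fm (!b) (fun h => zz h v c * PP (fun x => zz h x c) v) f ≤ q / (5 * d) := by
  have hd' : (0 : ℝ) < d := by exact_mod_cast hd
  have hq' : (0 : ℝ) < q := by exact_mod_cast hq
  obtain ⟨m, hm⟩ : ∃ m, m = PP (fun x => zz f x c) v := ⟨_, rfl⟩
  have h1 : fm (!b) (fun h => zz h v c * PP (fun x => zz h x c) v) f =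
      fm (!b) (fun h => zz h v c) f * m := by
    unfold fm
    rw [div_mul_eq_mul_div, Finset.sum_mul]
    congr 1
    refine Finset.sum_congr rfl fun h hh => ?_
    show zz h v c * PP (fun x => zz h x c) v = zz h v c * m
    rw [PP_fib hk b hh v hv c, hm]
  rw [h1, fm_zz hk b hf v hv c]
  have hz : ∀ x, 0 ≤ zz f x c := fun x => by unfold zz; split_ifs <;> norm_num
  have hm0 : 0 ≤ m := by
    rw [hm]
    unfold PP
    exact div_nonneg (Finset.sum_nonneg fun σ _ => hz _) (by positivity)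
  have h2 := zt_le hd hf v c
  rw [← hm] at h2
  have h3 : zt f v c * m ≤ Real.exp (-(2 * d / q * m)) * m := mul_le_mul_of_nonneg_right h2 hm0
  refine h3.trans ?_
  -- `y exp (-y) ≤ 1 / e`
  obtain ⟨y, hy⟩ : ∃ y : ℝ, y = 2 * d / q * m := ⟨_, rfl⟩
  have h4 : y * Real.exp (-y) ≤ Real.exp (-1) := by
    have h5 := Real.add_one_le_exp (y - 1)
    have h6 : y ≤ Real.exp (y - 1) := by linarith
    calc y * Real.exp (-y) ≤ Real.exp (y - 1) * Real.exp (-y) :=
          mul_le_mul_of_nonneg_right h6 (Real.exp_pos _).le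
      _ = Real.exp (-1) := by rw [← Real.exp_add]; congr 1; ring
  have h5 : Real.exp (-1) ≤ 2 / 5 := by
    rw [Real.exp_neg, inv_eq_one_div, div_le_div_iff₀ (Real.exp_pos _) (by norm_num)]
    have := Real.exp_one_gt_d9
    linarith
  have h6 : Real.exp (-(2 * d / q * m)) * m = (y * Real.exp (-y)) * (q / (2 * d)) := by
    rw [hy]
    field_simp
  rw [h6]
  calc (y * Real.exp (-y)) * (q / (2 * d)) ≤ (2 / 5) * (q / (2 * d)) :=
        mul_le_mul_of_nonneg_right (h4.trans h5) (by positivity)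
    _ = q / (5 * d) := by field_simp

end Pool.Agent.LIN
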