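import Pool.Agent.Lib_MP_2c424f_lin.Defs
import Pool.Agent.Lib_MP_2c424f_lo.Lab

/-!
# H30 B1: labels with a constant tolerance

Copy of `Lib_MP_2c424f_lo/Lab.lean` with `labA δ`, `labB δ`, `badd δ` for `lab1`, `lab0`, `bad` and `δ ≤ 1/20` for `dl q`
(`lab_adj` uses `1/4 ≤ 2 δ` is false).  The private lemmas of `Lab.lean` have to be copied.
-/

set_option autoImplicit false

open Finset

namespace Pool.Agent.LIN

open Pool.Agent.LO

variable {d k q : ℕ}

private theorem LabB1_ite {P Q : Prop} (hP : Decidable P) (hQ : Decidable Q) (h : P ↔ Q) :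
    (@ite ℝ P hP 1 0) = (@ite ℝ Q hQ 1 0) := by
  by_cases hp : P
  · rw [if_pos hp, if_pos (h.1 hp)]
  · rw [if_neg hp, if_neg (fun hq => hp (h.2 hq))]

private theorem LabB1_val_loc (t : Blk d k) (f g : Site d (k + 1) → Fin q)
    (h : ∀ a b, f (pt t a b) = g (pt t a b)) (a b : Bt d) (σ : Stp d) (hσ : alw a b σ) :
    f (pt t a b + sv σ) = g (pt t a b + sv σ) := by
  obtain ⟨a', b', e⟩ := pt_step t a b σ hσ
  rw [e]
  exact h a' b'

private theorem LabB1_mb_loc (c : Fin q) (t : Blk d k) (f g : Site d (k + 1) → Fin q)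
    (h : ∀ a b, f (pt t a b) = g (pt t a b)) : mb f t c = mb g t c := by
  unfold mb
  congr 1
  funext a b
  unfold zb
  refine LabB1_ite _ _ ?_
  constructor
  · intro h1 σ hσ
    rw [← LabB1_val_loc t f g h a b σ hσ]
    exact h1 σ hσ
  · intro h1 σ hσ
    rw [LabB1_val_loc t f g h a b σ hσ]
    exact h1 σ hσ

private theorem LabB1_mj_loc (c : Fin q) (t : Blk d k) (j : Fin d) (f g : Site d (k + 1) → Fin q)
    (h : ∀ a b, f (pt t a b) = g (pt t a b)) : mj f t c j = mj g t c j := by
  unfold mj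
  congr 1
  funext a b
  unfold zj
  refine LabB1_ite _ _ ?_
  constructor
  · intro h1 σ hj hσ
    rw [← LabB1_val_loc t f g h a b σ hσ]
    exact h1 σ hj hσ
  · intro h1 σ hj hσ
    rw [LabB1_val_loc t f g h a b σ hσ]
    exact h1 σ hj hσ


/-! ### Reflections -/

/-- the reflected step -/
private def LabB1_S (j : Fin d) (σ : Stp d) : Stp d := (σ.1, if σ.1 = j then !σ.2 else σ.2)

private theorem LabB1_S_S (j : Fin d) (σ : Stp d) : LabB1_S j (LabB1_S j σ) = σ := by
  obtain ⟨i, c⟩ := σ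
  unfold LabB1_S
  by_cases h : i = j <;> simp [h]

private theorem LabB1_flp_self (a : Bt d) (j : Fin d) : flp a j j = !a j := by
  unfold flp
  exact Function.update_self _ _ _

private theorem LabB1_flp_ne (a : Bt d) (i j : Fin d) (h : i ≠ j) : flp a j i = a i := by
  unfold flp
  exact Function.update_of_ne h _ _

private theorem LabB1_flp_flp (a : Bt d) (j : Fin d) : flp (flp a j) j = a := by
  funext i
  by_cases h : i = j
  · subst h
    rw [LabB1_flp_self, LabB1_flp_self, Bool.not_not]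
  · rw [LabB1_flp_ne _ _ _ h, LabB1_flp_ne _ _ _ h]

private theorem LabB1_alw (j : Fin d) (a b : Bt d) (σ : Stp d) :
    alw (flp a j) (flp b j) (LabB1_S j σ) ↔ alw a b σ := by
  obtain ⟨i, c⟩ := σ
  unfold alw LabB1_S
  by_cases h : i = j
  · subst h
    simp only [if_true, LabB1_flp_self]
    cases c <;> cases a i <;> cases b i <;> simp
  · simp only [if_neg h, LabB1_flp_ne _ _ _ h]

private theorem LabB1_od (j : Fin d) (a b : Bt d) : od (flp a j) (flp b j) ↔ od a b := by
  unfold od
  have h : (univ.filter fun i => flp a j i ≠ flp b j i) = univ.filter fun i => a i ≠ b i := by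
    apply Finset.filter_congr
    intro i _
    by_cases hi : i = j
    · subst hi
      rw [LabB1_flp_self, LabB1_flp_self]
      cases a i <;> cases b i <;> simp
    · rw [LabB1_flp_ne _ _ _ hi, LabB1_flp_ne _ _ _ hi]
  rw [h]

private theorem LabB1_EB (j : Fin d) (F G : Bt d → Bt d → ℝ)
    (h : ∀ a b, F a b = G (flp a j) (flp b j)) : EB F = EB G := by
  classical
  unfold EB
  have hinv : Function.Involutive (fun a : Bt d => flp a j) := fun a => LabB1_flp_flp a j
  have e : ∀ H : Bt d → ℝ, ∑ a, H (flp a j) = ∑ a, H a := fun H =>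
    Equiv.sum_comp hinv.toPerm H
  congr 2
  rw [← e (fun a => ∑ b, if od a b then G a b else 0)]
  refine Finset.sum_congr rfl fun a _ => ?_
  rw [← e (fun b => if od (flp a j) b then G (flp a j) b else 0)]
  refine Finset.sum_congr rfl fun b _ => ?_
  rw [h a b]
  by_cases ho : od a b
  · rw [if_pos ho, if_pos ((LabB1_od j a b).2 ho)]
  · rw [if_neg ho, if_neg fun h' => ho ((LabB1_od j a b).1 h')]

private theorem LabB1_val_sym (j : Fin d) (α : ZMod (2 ^ k)) (t : Blk d k) (f : Site d (k + 1) → Fin q)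
    (a b : Bt d) (σ : Stp d) :
    f (rs j α (pt (rb j α t) a b + sv σ)) = f (pt t (flp a j) (flp b j) + sv (LabB1_S j σ)) := by
  obtain ⟨i, c⟩ := σ
  rw [rs_step, rs_pt, rb_rb]
  rfl

private theorem LabB1_mb_sym (c : Fin q) (j : Fin d) (α : ZMod (2 ^ k)) (t : Blk d k)
    (f : Site d (k + 1) → Fin q) : mb (fun x => f (rs j α x)) (rb j α t) c = mb f t c := by
  unfold mb
  refine LabB1_EB j _ _ fun a b => ?_
  unfold zb
  refine LabB1_ite _ _ ?_
  constructor
  · intro h σ hσ
    have h1 := h (LabB1_S j σ) ((LabB1_alw j a b _).1 (by rw [LabB1_S_S]; exact hσ))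
    have h2 : f (rs j α (pt (rb j α t) a b + sv (LabB1_S j σ))) ≠ c := h1
    rw [LabB1_val_sym j α t f, LabB1_S_S] at h2
    exact h2
  · intro h σ hσ
    show f (rs j α (pt (rb j α t) a b + sv σ)) ≠ c
    rw [LabB1_val_sym j α t f]
    exact h _ ((LabB1_alw j a b σ).2 hσ)

private theorem LabB1_mj_sym (c : Fin q) (j : Fin d) (α : ZMod (2 ^ k)) (t : Blk d k) (i : Fin d)
    (f : Site d (k + 1) → Fin q) : mj (fun x => f (rs j α x)) (rb j α t) c i = mj f t c i := by
  unfold mj
  refine LabB1_EB j _ _ fun a b => ?_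
  unfold zj
  refine LabB1_ite _ _ ?_
  constructor
  · intro h σ hi hσ
    have h1 := h (LabB1_S j σ) hi ((LabB1_alw j a b _).1 (by rw [LabB1_S_S]; exact hσ))
    have h2 : f (rs j α (pt (rb j α t) a b + sv (LabB1_S j σ))) ≠ c := h1
    rw [LabB1_val_sym j α t f, LabB1_S_S] at h2
    exact h2
  · intro h σ hi hσ
    show f (rs j α (pt (rb j α t) a b + sv σ)) ≠ c
    rw [LabB1_val_sym j α t f]
    exact h _ hi ((LabB1_alw j a b σ).2 hσ)


private theorem LabB1_zj01 (f : Site d (k + 1) → Fin q) (t : Blk d k) (a b : Bt d) (c : Fin q) (j : Fin d) :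
    0 ≤ zj f t a b c j ∧ zj f t a b c j ≤ 1 := by
  unfold zj
  split_ifs <;> norm_num

private theorem LabB1_nxt_pt (t : Blk d k) (j : Fin d) (a b : Bt d) (ha : a j = true) (hb : b j = true) :
    pt (nxt t j) (flp a j) (flp b j) = pt t a b := by
  funext i
  unfold pt
  rw [Pi.add_apply, Pi.add_apply, Pi.add_apply, Pi.add_apply]
  by_cases hi : i = j
  · subst hi
    have e1 : ∀ u : ZMod (2 ^ k), ((2 * (u + 1).val : ℕ) : ZMod (2 ^ (k + 1))) =
        ((2 * u.val : ℕ) : ZMod (2 ^ (k + 1))) + 2 := by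
      intro u
      have e2 : (((2 * (u + 1).val : ℕ)) : ZMod (2 ^ (k + 1))) = ((2 * u.val + 2 : ℕ) : ZMod (2 ^ (k + 1))) := by
        rw [ZMod.natCast_eq_natCast_iff]
        have h1 : (u + 1).val ≡ u.val + 1 [MOD 2 ^ k] := by
          rw [← ZMod.natCast_eq_natCast_iff]
          push_cast
          rw [ZMod.natCast_zmod_val, ZMod.natCast_zmod_val]
        have h2 : 2 * (u + 1).val ≡ 2 * (u.val + 1) [MOD 2 * 2 ^ k] := h1.mul_left' 2
        have h3 : 2 * 2 ^ k = 2 ^ (k + 1) := by rw [pow_succ, mul_comm]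
        rw [h3] at h2
        exact h2
      rw [e2]
      push_cast
      ring
    simp only [bas, bv, nxt, Function.update_self, LabB1_flp_self, ha, hb]
    rw [e1]
    simp
    ring
  · simp only [bas, bv, nxt, Function.update_of_ne hi, LabB1_flp_ne _ _ _ hi]

private theorem LabB1_face (f : Site d (k + 1) → Fin q) (t : Blk d k) (j : Fin d) (c : Fin q) (a b : Bt d)
    (ha : a j = true) (hb : b j = true) :
    zj f (nxt t j) (flp a j) (flp b j) c j = zj f t a b c j := by
  unfold zj
  refine LabB1_ite _ _ ?_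
  have e : ∀ σ : Stp d, σ.1 ≠ j → (alw (flp a j) (flp b j) σ ↔ alw a b σ) := by
    intro σ hσ
    have h1 := LabB1_alw j a b σ
    have h2 : LabB1_S j σ = σ := by
      unfold LabB1_S
      rw [if_neg hσ]
    rw [h2] at h1
    exact h1
  constructor
  · intro h σ hσ hal
    have h1 := h σ hσ ((e σ hσ).2 hal)
    rw [LabB1_nxt_pt t j a b ha hb] at h1
    exact h1
  · intro h σ hσ hal
    rw [LabB1_nxt_pt t j a b ha hb]
    exact h σ hσ ((e σ hσ).1 hal)


/-- a block with label `1` and a block with label `0` have no common face -/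
private theorem LabB1_key (hd : 2 ≤ d) (δ : ℝ) (hδ : δ ≤ 1 / 20) (c : Fin q) (f : Site d (k + 1) → Fin q)
    (j : Fin d) (t t' : Blk d k) (β : Bool) (h1 : labA δ f t c) (h0 : labB δ f t' c)
    (hf : ∀ a b : Bt d, a j = β → b j = β →
      zj f t' (flp a j) (flp b j) c j = zj f t a b c j) : False := by
  classical
  set χ : Bt d → Bt d → ℝ := fun a b => if a j = β ∧ b j = β then (1 : ℝ) else 0 with hχ
  have hχ01 : ∀ a b, 0 ≤ χ a b ∧ χ a b ≤ 1 := by
    intro a b
    simp only [hχ]
    split_ifs <;> norm_num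
  have hface : EB χ = 1 / 4 := card_od_face hd j β
  have hone := card_od (d := d) (by omega)
  have h2 : EB χ ≤ EB (fun a b => χ a b * zj f t a b c j + (1 + (-1) * zj f t a b c j)) := by
    refine EB_mono fun a b _ => ?_
    have := hχ01 a b
    have hz := LabB1_zj01 f t a b c j
    nlinarith
  rw [EB_add, EB_add, EB_mul, hone, hface] at h2
  have h3 : 1 - δ ≤ EB (fun a b => zj f t a b c j) := le_trans h1 (mb_le_mj f t c j)
  have h4 : EB (fun a b => χ a b * zj f t a b c j) ≤ δ := by
    have h5 : EB (fun a b => χ a b * zj f t a b c j) ≤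
        EB (fun a b => zj f t' (flp a j) (flp b j) c j) := by
      refine EB_mono fun a b _ => ?_
      simp only [hχ]
      by_cases hab : a j = β ∧ b j = β
      · rw [if_pos hab, one_mul, hf a b hab.1 hab.2]
      · rw [if_neg hab, zero_mul]
        exact (LabB1_zj01 f t' _ _ c j).1
    refine h5.trans ?_
    rw [LabB1_EB j (fun a b => zj f t' (flp a j) (flp b j) c j) (fun a b => zj f t' a b c j)
      fun a b => rfl]
    exact h0 j
  linarith

theorem badd_loc (δ : ℝ) (c : Fin q) (t : Blk d k) (f g : Site d (k + 1) → Fin q)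
    (h : ∀ a b, f (pt t a b) = g (pt t a b)) (hb : badd δ c t f) : badd δ c t g := by
  revert hb
  unfold badd labA labB
  rw [LabB1_mb_loc c t f g h]
  simp only [LabB1_mj_loc c t _ f g h]
  exact id

theorem badd_sym (δ : ℝ) (c : Fin q) (j : Fin d) (α : ZMod (2 ^ k)) (t : Blk d k) (f : Site d (k + 1) → Fin q)
    (hb : badd δ c t f) : badd δ c (rb j α t) (fun x => f (rs j α x)) := by
  revert hb
  unfold badd labA labB
  rw [LabB1_mb_sym c j α t f]
  simp only [LabB1_mj_sym c j α t _ f]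
  exact id

theorem labd_adj (hd : 2 ≤ d) (δ : ℝ) (hδ : δ ≤ 1 / 20) (c : Fin q) (f : Site d (k + 1) → Fin q) (t : Blk d k)
    (j : Fin d) (h1 : ¬ badd δ c t f) (h2 : ¬ badd δ c (nxt t j) f) :
    labA δ f t c ↔ labA δ f (nxt t j) c := by
  have g : ∀ s : Blk d k, ¬ badd δ c s f → ¬ labA δ f s c → labB δ f s c := by
    intro s hs h
    by_contra h'
    exact hs ⟨h, h'⟩
  constructor
  · intro h
    by_contra h'
    refine LabB1_key hd δ hδ c f j t (nxt t j) true h (g _ h2 h') ?_
    intro a b ha hb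
    exact LabB1_face f t j c a b ha hb
  · intro h
    by_contra h'
    refine LabB1_key hd δ hδ c f j (nxt t j) t false h (g _ h1 h') ?_
    intro a b ha hb
    have h3 := LabB1_face f t j c (flp a j) (flp b j) (by rw [LabB1_flp_self, ha]; rfl)
      (by rw [LabB1_flp_self, hb]; rfl)
    rw [LabB1_flp_flp, LabB1_flp_flp] at h3
    exact h3.symm

/-- a block which is neither bad nor labelled `1` has `mb ≤ δ` -/
theorem mb_le_of (hd : 1 ≤ d) (δ : ℝ) (c : Fin q) (f : Site d (k + 1) → Fin q) (t : Blk d k)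
    (h1 : ¬ badd δ c t f) (h2 : ¬ labA δ f t c) : mb f t c ≤ δ := by
  have h3 : labB δ f t c := by
    by_contra h
    exact h1 ⟨h2, h⟩
  exact (mb_le_mj f t c ⟨0, hd⟩).trans (h3 ⟨0, hd⟩)

end Pool.Agent.LIN
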