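import Pool.Agent.Lib_MP_2c424f_lin.B2b

/-!
# H30 B2: bad blocks are rare, labels agree

* `pbadd`: `chess` with `cn = cE (badd δ c)`, `rp` (`badd_loc`, `badd_sym`), `hfull` = `all_bad`:
  `NN d (k+1)/d^20 = (2^d/d^20) card (Blk d k)`.  (As in `Lib_MP_2c424f_lo/PBad.lean`.)
* `pdiffd`: `multi` (as in `Lib_MP_2c424f_lo/PDiff2.lean`): `4 · 4^d · exp (-(2^d/d^20)) ≤ 1/d^5` for large `d` (`Ev_d`).
-/
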