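import Pool.Agent.Lib_MP_2c424f_lin.D2
import Pool.Agent.Lib_MP_2c424f_lo.BSum
import Pool.Agent.Lib_MP_2c424f_lo.Cube

/-!
# H30 D5: some block is good

`e = δ/24`.  For a block `t`: `cut t = (∑_j ∑_{a,b} (|χ(pt (flp a j) b) - χ(pt a b)| + |χ(pt a (flp b j)) - χ(pt a b)|))/4^d`,
`χ = 1[L]`; `mis t`, `ddt t` = means over `(a,b)` of `1[lb ≠ L]`, `1[1/8 ≤ dd]` at `pt t a b`.  Sums over `t`:
`∑ cut = 2^d ∑_σ nS(L x ≠ L(x+σ))/4^d ≤ NN d k/d^3 ≤ e NN d k` (`sum_cut`, `NN d (k+1) = 2^d NN d k`),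
`∑ mis = nS(..)/2^d ≤ e NN d k`, same for `ddt` (`sum_pt` with `H x b` independent of `b`), `∑_t EB (Fb f c t) ≤ e NN d k`.  There
are `NN d k` blocks, so for some `t`: `cut t + mis t + ddt t + EB (Fb f c t) ≤ 4e`, all terms `≥ 0`.
`poincare`: the mean `P` of `χ` over the block has `P(1-P) ≤ (1/4) cut t ≤ e`, so `P ≤ 2e` or `1-P ≤ 2e`; for `G ≥ 0`:
`EB G ≤ 2 (mean of G over all (a,b))`.
* `P ≤ 2e`: at an odd point `1 - zz = lb ≤ χ + 1[lb ≠ L]` (`evn_pt`), `EB (1 - zz) ≤ 4e + 8e`, `zb ≥ zz`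
  (`mt_le_mb`, file `DSum`/`BSum`; or `pt_step`), so `mb ≥ 1 - 12e ≥ 1 - δ`: `labA`.
* `1-P ≤ 2e`: at an odd point `zz = 1 - lb ≤ (1-χ) + 1[lb ≠ L]`.  If `zz = 0`, `dd < 1/8` and `Fb = 0` then
  `m = PP zz > 7/8`, so for both `β` there is an allowed `σ` with `decide (2σ.1 < d) = β` and `f (pt + σ) = c`; for a
  direction `j` take `β ≠ decide (2j < d)`: `σ.1 ≠ j`, so `zj .. j = 0`.  Hence
  `zj ≤ zz + 1[1/8 ≤ dd] + Fb`, `mj ≤ 12e + 8e + 4e = δ`: `labB`.
-/

set_option autoImplicit false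

open Finset

namespace Pool.Agent.LIN

open Pool.Agent.LO

variable {d k q : ℕ}

/-- mean over the block -/
private noncomputable def d5mn (G : Bt d → Bt d → ℝ) : ℝ := (∑ a, ∑ b, G a b) / 4 ^ d

private theorem d5mn_nonneg {G : Bt d → Bt d → ℝ} (h : ∀ a b, 0 ≤ G a b) : 0 ≤ d5mn G :=
  div_nonneg (sum_nonneg fun a _ => sum_nonneg fun b _ => h a b) (by positivity)

private theorem d5EB_le {G : Bt d → Bt d → ℝ} (h : ∀ a b, 0 ≤ G a b) : EB G ≤ 2 * d5mn G := by
  classical
  unfold EB d5mn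
  rw [mul_div_assoc]
  refine mul_le_mul_of_nonneg_left ?_ (by norm_num)
  refine div_le_div_of_nonneg_right ?_ (by positivity)
  refine sum_le_sum fun a _ => sum_le_sum fun b _ => ?_
  split_ifs
  · exact le_rfl
  · exact h a b

private theorem d5EB_nonneg {G : Bt d → Bt d → ℝ} (h : ∀ a b, 0 ≤ G a b) : 0 ≤ EB G := by
  classical
  unfold EB
  refine div_nonneg (mul_nonneg (by norm_num) ?_) (by positivity)
  refine sum_nonneg fun a _ => sum_nonneg fun b _ => ?_
  split_ifs
  · exact h a b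
  · exact le_rfl

private theorem d5card_bt (d : ℕ) : ((univ : Finset (Bt d)).card : ℝ) = 2 ^ d := by
  rw [Finset.card_univ, Fintype.card_fun, Fintype.card_bool, Fintype.card_fin]
  push_cast
  rfl

private theorem d5four (d : ℕ) : (4 : ℝ) ^ d = 2 ^ d * 2 ^ d := by
  rw [← mul_pow]; norm_num

private theorem d5NN (d k : ℕ) : NN d (k + 1) = 2 ^ d * NN d k := by
  unfold NN
  rw [pow_succ, mul_pow, mul_comm]

private theorem d5NN_pos (d k : ℕ) : 0 < NN d k := by
  unfold NN
  positivity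

private theorem d5sum_mn (G : Site d (k + 1) → ℝ) :
    ∑ t : Blk d k, d5mn (fun a b => G (pt t a b)) = (∑ x, G x) / 2 ^ d := by
  have h := sum_pt (d := d) (k := k) (fun x _ => G x)
  have h2 : (2 : ℝ) ^ d ≠ 0 := by positivity
  unfold d5mn
  rw [← Finset.sum_div, h]
  simp only [Finset.sum_const, nsmul_eq_mul]
  rw [← Finset.mul_sum, d5card_bt, d5four]
  field_simp

private theorem d5nS (P : Site d k → Prop) [DecidablePred P] :
    nS P = ∑ x, if P x then (1 : ℝ) else 0 := by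
  classical
  unfold nS
  rw [Finset.sum_boole]
  congr 2
  ext x
  simp

private theorem d5ind (p : Prop) [Decidable p] : (0 : ℝ) ≤ if p then 1 else 0 := by
  split_ifs <;> norm_num

/-- the blocks: one with all statistics small -/
private theorem d5block (e : ℝ) (F1 F2 F3 F4 : Blk d k → ℝ) (h1 : ∑ t, F1 t ≤ e * NN d k)
    (h2 : ∑ t, F2 t ≤ e * NN d k) (h3 : ∑ t, F3 t ≤ e * NN d k) (h4 : ∑ t, F4 t ≤ e * NN d k) :
    ∃ t, F1 t + F2 t + F3 t + F4 t ≤ 4 * e := by
  by_contra hcon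
  push Not at hcon
  have hc : ((univ : Finset (Blk d k)).card : ℝ) = NN d k := by
    unfold NN
    rw [Finset.card_univ, Fintype.card_fun, ZMod.card, Fintype.card_fin]
    push_cast
    rfl
  have hne : (univ : Finset (Blk d k)).Nonempty := univ_nonempty
  have h5 : ∑ _t : Blk d k, (4 * e) < ∑ t, (F1 t + F2 t + F3 t + F4 t) :=
    Finset.sum_lt_sum_of_nonempty hne fun t _ => hcon t
  rw [Finset.sum_const, nsmul_eq_mul, hc] at h5
  simp only [Finset.sum_add_distrib] at h5
  nlinarith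

open scoped Classical in
private theorem d5zz_le_zb (f : Site d (k + 1) → Fin q) (t : Blk d k) (a b : Bt d) (c : Fin q) :
    zz f (pt t a b) c ≤ zb f t a b c := by
  unfold zz zb
  split_ifs with h1 h2 h2
  · norm_num
  · exact le_rfl
  · exact le_rfl
  · exfalso
    apply h2
    intro σ _ hc
    apply h1
    unfold SS
    rw [Finset.mem_image]
    exact ⟨σ, mem_univ _, hc⟩

open scoped Classical in
private theorem d5zj_le (f : Site d (k + 1) → Fin q) (t : Blk d k) (a b : Bt d) (c : Fin q)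
    (j : Fin d) :
    zj f t a b c j ≤ zz f (pt t a b) c + (if 1 / 8 ≤ dd f c (pt t a b) then (1 : ℝ) else 0) +
      Fb f c t a b := by
  have hF : 0 ≤ Fb f c t a b := by
    unfold Fb
    split_ifs <;> norm_num
  have hD : (0 : ℝ) ≤ if 1 / 8 ≤ dd f c (pt t a b) then (1 : ℝ) else 0 := d5ind _
  have hz : zz f (pt t a b) c = 0 ∨ zz f (pt t a b) c = 1 := by
    unfold zz
    split_ifs <;> simp
  have hj1 : zj f t a b c j ≤ 1 := by
    unfold zj
    split_ifs <;> norm_num
  rcases hz with hz | hz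
  swap
  · rw [hz]; linarith
  by_cases hd8 : 1 / 8 ≤ dd f c (pt t a b)
  · rw [if_pos hd8]; linarith
  by_cases hFb : Fb f c t a b = 1
  · rw [hFb]; linarith
  -- now `zj = 0`
  have hP : 7 / 8 ≤ PP (fun x => zz f x c) (pt t a b) := by
    push Not at hd8
    unfold dd at hd8
    rw [hz] at hd8
    have := (abs_lt.1 hd8).2
    linarith
  have hex : ¬ ∃ β : Bool, ∀ σ : Stp d, alw a b σ → (decide (2 * σ.1.val < d) = β) →
      f (pt t a b + sv σ) ≠ c := by
    intro hβ
    apply hFb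
    unfold Fb
    rw [if_pos ⟨hP, hβ⟩]
  push Not at hex
  obtain ⟨σ, hal, hdec, hfc⟩ := hex (!decide (2 * j.val < d))
  have hσj : σ.1 ≠ j := by
    intro h
    rw [h] at hdec
    cases hb : decide (2 * j.val < d) <;> rw [hb] at hdec <;> simp at hdec
  have hzj : zj f t a b c j = 0 := by
    unfold zj
    rw [if_neg]
    intro h
    exact h σ hσj hal hfc
  rw [hzj, hz]
  linarith

open scoped Classical in
theorem D5 (hd : 1 ≤ d) (hk : 1 ≤ k) (δ : ℝ) (hδ : 0 < δ) (hδ1 : δ ≤ 1 / 20) (hd3 : 1 / (d : ℝ) ^ 3 ≤ δ / 24)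
    (f : Site d (k + 1) → Fin q) (c : Fin q) (L : Site d (k + 1) → Bool)
    (h1 : ∑ σ : Stp d, nS (fun x => L x ≠ L (x + sv σ)) ≤ NN d (k + 1) / (d : ℝ) ^ 3)
    (h2 : nS (fun x => lb f c x ≠ if L x then (1 : ℝ) else 0) ≤ δ / 24 * NN d (k + 1))
    (h3 : nS (fun x => 1 / 8 ≤ dd f c x) ≤ δ / 24 * NN d (k + 1))
    (h4 : ∑ t : Blk d k, EB (Fb f c t) ≤ δ / 24 * NN d k) : ∃ t, ¬ badd δ c t f := by
  set e : ℝ := δ / 24 with he
  have hd3' : 1 / (d : ℝ) ^ 3 ≤ e := hd3
  set χ : Site d (k + 1) → ℝ := fun x => if L x then (1 : ℝ) else 0 with hχ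
  have hNN := d5NN_pos d k
  have h2d : (0 : ℝ) < 2 ^ d := by positivity
  have h2ne : (2 : ℝ) ^ d ≠ 0 := h2d.ne'
  -- the four statistics
  set cut : Blk d k → ℝ := fun t => (∑ j : Fin d, ∑ a, ∑ b,
    (|χ (pt t (flp a j) b) - χ (pt t a b)| + |χ (pt t a (flp b j)) - χ (pt t a b)|)) / 4 ^ d with hcut
  set M : Site d (k + 1) → ℝ :=
    fun x => if lb f c x ≠ if L x then (1 : ℝ) else 0 then (1 : ℝ) else 0 with hM
  set Dd : Site d (k + 1) → ℝ := fun x => if 1 / 8 ≤ dd f c x then (1 : ℝ) else 0 with hDd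
  have hM0 : ∀ x, 0 ≤ M x := fun x => d5ind _
  have hD0 : ∀ x, 0 ≤ Dd x := fun x => d5ind _
  have hcut0 : ∀ t, 0 ≤ cut t := fun t =>
    div_nonneg (sum_nonneg fun j _ => sum_nonneg fun a _ => sum_nonneg fun b _ =>
      add_nonneg (abs_nonneg _) (abs_nonneg _)) (by positivity)
  have hF0 : ∀ t a b, 0 ≤ Fb f c t a b := by
    intro t a b
    unfold Fb
    split_ifs <;> norm_num
  have s1 : ∑ t, cut t ≤ e * NN d k := by
    have e1 : ∑ t, cut t = (2 ^ d * ∑ σ : Stp d, nS (fun x => L x ≠ L (x + sv σ))) / 4 ^ d := by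
      rw [hcut, ← Finset.sum_div, Finset.sum_comm]
      congr 1
      rw [Finset.sum_congr rfl fun j _ => sum_cut j χ, ← Finset.mul_sum, Fintype.sum_prod_type]
      congr 1
      refine Finset.sum_congr rfl fun j _ => ?_
      rw [Fintype.sum_bool, d5nS, d5nS, ← Finset.sum_add_distrib]
      refine Finset.sum_congr rfl fun x _ => ?_
      have hx : ∀ y, |χ y - χ x| = if L x ≠ L y then (1 : ℝ) else 0 := by
        intro y
        rw [hχ]
        rcases hLx : L x with _ | _ <;> rcases hLy : L y with _ | _ <;> simp [hLx, hLy]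
      rw [hx, hx]
    have e2 : (2 ^ d * ∑ σ : Stp d, nS (fun x => L x ≠ L (x + sv σ))) / 4 ^ d ≤
        (2 ^ d * (NN d (k + 1) / (d : ℝ) ^ 3)) / 4 ^ d :=
      div_le_div_of_nonneg_right (mul_le_mul_of_nonneg_left h1 h2d.le) (by positivity)
    have e3 : (2 ^ d * (NN d (k + 1) / (d : ℝ) ^ 3)) / 4 ^ d = 1 / (d : ℝ) ^ 3 * NN d k := by
      rw [d5NN, d5four]
      field_simp
    rw [e1]
    refine e2.trans ?_
    rw [e3]
    exact mul_le_mul_of_nonneg_right hd3' hNN.le
  have s2 : ∑ t : Blk d k, d5mn (fun a b => M (pt t a b)) ≤ e * NN d k := by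
    rw [d5sum_mn, hM, ← d5nS, div_le_iff₀ h2d]
    refine h2.trans (le_of_eq ?_)
    rw [d5NN]
    ring
  have s3 : ∑ t : Blk d k, d5mn (fun a b => Dd (pt t a b)) ≤ e * NN d k := by
    rw [d5sum_mn, hDd, ← d5nS, div_le_iff₀ h2d]
    refine h3.trans (le_of_eq ?_)
    rw [d5NN]
    ring
  obtain ⟨t, ht⟩ := d5block e cut _ _ _ s1 s2 s3 h4
  have c1 := hcut0 t
  have c2 : 0 ≤ d5mn (fun a b => M (pt t a b)) := d5mn_nonneg fun a b => hM0 _
  have c3 : 0 ≤ d5mn (fun a b => Dd (pt t a b)) := d5mn_nonneg fun a b => hD0 _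
  have c4 : 0 ≤ EB (Fb f c t) := d5EB_nonneg fun a b => hF0 t a b
  have he0 : 0 < e := by rw [he]; linarith
  refine ⟨t, ?_⟩
  -- the mean of `χ`
  have hχ01 : ∀ x, χ x = 0 ∨ χ x = 1 := by
    intro x
    rw [hχ]
    cases L x <;> simp
  set P := d5mn (fun a b => χ (pt t a b)) with hP
  have hpo : P * (1 - P) ≤ 1 / 4 * cut t := by
    have h := poincare (fun a b => χ (pt t a b)) fun a b => hχ01 _
    exact h
  have hPe : P * (1 - P) ≤ e := by linarith
  have hone : d5mn (fun _ _ : Bt d => (1 : ℝ)) = 1 := by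
    unfold d5mn
    simp only [Finset.sum_const, nsmul_eq_mul, mul_one]
    rw [d5card_bt, d5four]
    field_simp
  have hP0 : 0 ≤ P := d5mn_nonneg fun a b => by
    rcases hχ01 (pt t a b) with h | h <;> rw [h] <;> norm_num
  have h1P : d5mn (fun a b => 1 - χ (pt t a b)) = 1 - P := by
    have h : d5mn (fun a b => 1 - χ (pt t a b)) = d5mn (fun _ _ : Bt d => (1 : ℝ)) - P := by
      rw [hP]
      unfold d5mn
      simp only [Finset.sum_sub_distrib, sub_div]
    rw [h, hone]
  have hP1 : 0 ≤ 1 - P := by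
    rw [← h1P]
    exact d5mn_nonneg fun a b => by
      rcases hχ01 (pt t a b) with h | h <;> rw [h] <;> norm_num
  -- odd points
  have hodd : ∀ a b, od a b → lb f c (pt t a b) = 1 - zz f (pt t a b) c := by
    intro a b hab
    unfold lb
    rw [if_neg]
    rw [evn_pt]
    exact not_not.2 hab
  have hMx : ∀ x, |lb f c x - χ x| ≤ M x := by
    intro x
    have hl : lb f c x = 0 ∨ lb f c x = 1 := by
      unfold lb zz
      split_ifs <;> simp
    by_cases h : lb f c x = χ x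
    · rw [h, sub_self, abs_zero]
      exact hM0 x
    · have hM1 : M x = 1 := by
        rw [hM]
        exact if_pos h
      rw [hM1]
      rcases hl with hl | hl <;> rcases hχ01 x with hx | hx <;> rw [hl, hx] <;> norm_num
  unfold badd
  rintro ⟨hA, hB⟩
  have hcase : P ≤ 2 * e ∨ 1 - P ≤ 2 * e := by
    rcases le_total P (1 / 2) with h | h
    · left; nlinarith
    · right; nlinarith
  rcases hcase with hc | hc
  · -- label A
    apply hA
    unfold labA
    have i1 : EB (fun a b => 1 - zz f (pt t a b) c) ≤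
        EB (fun a b => χ (pt t a b) + M (pt t a b)) := by
      refine EB_mono fun a b hab => ?_
      rw [← hodd a b hab]
      have := (abs_le.1 (hMx (pt t a b))).2
      linarith
    have i2 : EB (fun a b => χ (pt t a b)) ≤ 2 * P := d5EB_le fun a b => by
      rcases hχ01 (pt t a b) with h | h <;> rw [h] <;> norm_num
    have i3 : EB (fun a b => M (pt t a b)) ≤ 2 * d5mn (fun a b => M (pt t a b)) :=
      d5EB_le fun a b => hM0 _
    rw [EB_add] at i1
    have i4 : EB (fun a b => zz f (pt t a b) c) + EB (fun a b => 1 - zz f (pt t a b) c) = 1 := by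
      refine Eq.trans ?_ (card_od hd)
      rw [← EB_add]
      congr 1
      funext a b
      ring
    have i5 : EB (fun a b => zz f (pt t a b) c) ≤ mb f t c := by
      unfold mb
      exact EB_mono fun a b _ => d5zz_le_zb f t a b c
    linarith
  · -- label B
    apply hB
    intro j
    have i1 : mj f t c j ≤ EB (fun a b => ((1 - χ (pt t a b)) + M (pt t a b)) +
        (Dd (pt t a b) + Fb f c t a b)) := by
      unfold mj
      refine EB_mono fun a b hab => ?_
      refine (d5zj_le f t a b c j).trans ?_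
      have h5 := (abs_le.1 (hMx (pt t a b))).1
      rw [hodd a b hab] at h5
      have h6 : Dd (pt t a b) = if 1 / 8 ≤ dd f c (pt t a b) then (1 : ℝ) else 0 := rfl
      rw [← h6]
      linarith
    rw [EB_add, EB_add, EB_add] at i1
    have i2 : EB (fun a b => 1 - χ (pt t a b)) ≤ 2 * (1 - P) := by
      rw [← h1P]
      exact d5EB_le fun a b => by
        rcases hχ01 (pt t a b) with h | h <;> rw [h] <;> norm_num
    have i3 : EB (fun a b => M (pt t a b)) ≤ 2 * d5mn (fun a b => M (pt t a b)) :=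
      d5EB_le fun a b => hM0 _
    have i4 : EB (fun a b => Dd (pt t a b)) ≤ 2 * d5mn (fun a b => Dd (pt t a b)) :=
      d5EB_le fun a b => hD0 _
    have i5 : EB (fun a b => Fb f c t a b) = EB (Fb f c t) := rfl
    rw [i5] at i1
    linarith

end Pool.Agent.LIN
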