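import Pool.Agent.Lib_MP_2c424f_lin.L7
import Pool.Agent.Lib_MP_2c424f_lo.BSum

/-!
# H30 L8: colours seen inside the blocks (6.3)(iv)

`∑_t EB (Fb f c t) = (2/2^d) ∑_{v odd} g v f`, `g v f` = the proportion of the representations `(t,a,b)` of `v`
(`pt t a b = v`, `2^d` of them) with `Fb = 1` (`sum_pt` / `sum_EB` of `BSum`; `∑_t ∑_{a,b} = ∑_v ∑_{b}`).  `g` is `Loc false`:
given the odd sites, `PP (zz · c) v` is fixed, and `Fb` depends on the neighbours of `v`.
Conditional mean: if `m = PP (zz f · c) v ≥ 7/8`, at most `d/4` neighbours `u` of `v` have `zz f u c = 0`; for each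
`β` at least `(d-1)/2` steps `σ` are allowed (`alw a b σ`) with `decide (2σ.1 < d) = β` (one for every direction), so
at least `d/4 - 1` of them have `zz f u c = 1`, and by `fm_prod`
`P(no such neighbour has colour c) ≤ (1 - 1/q)^(d/4-1) ≤ exp (-(d/4-1)/q)`; two values of `β`:
`fm true (g v) f ≤ 2 exp (-(d/4-1)/q) ≤ ε/2` in the regime.  `rare_glob` (with `ε/4`, say).
-/

set_option autoImplicit false

open Finset Filter

namespace Pool.Agent.LIN

open Pool.Agent.LO

/-- the vector `a` with `pt t a b = x` -/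
private def L8_a {d k : ℕ} (x : Site d (k + 1)) (b : Bt d) : Bt d := fun j =>
  if Even (x j).val then b j else !b j

private theorem L8_a_pt {d k : ℕ} (t : Blk d k) (a b : Bt d) : L8_a (pt t a b) b = a := by
  funext j
  unfold L8_a
  by_cases h : a j = b j
  · rw [if_pos ((val_pt t a b j).2 h), h]
  · rw [if_neg fun h' => h ((val_pt t a b j).1 h')]
    cases h1 : a j <;> cases h2 : b j <;> simp_all

open scoped Classical in
private noncomputable def L8_F {d k q : ℕ} (c : Fin q) (x : Site d (k + 1)) (b : Bt d)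
    (f : Site d (k + 1) → Fin q) : ℝ :=
  if 7 / 8 ≤ PP (fun y => zz f y c) x ∧
    ∃ β : Bool, ∀ σ : Stp d, alw (L8_a x b) b σ → (decide (2 * σ.1.val < d) = β) →
      f (x + sv σ) ≠ c
  then 1 else 0

private theorem L8_Fb {d k q : ℕ} (f : Site d (k + 1) → Fin q) (c : Fin q) (t : Blk d k)
    (a b : Bt d) : Fb f c t a b = L8_F c (pt t a b) b f := by
  unfold Fb L8_F
  rw [L8_a_pt]

private noncomputable def L8_g {d k q : ℕ} (c : Fin q) (x : Site d (k + 1))
    (f : Site d (k + 1) → Fin q) : ℝ := (∑ b : Bt d, L8_F c x b f) / 2 ^ d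

private theorem L8_card_bt (d : ℕ) : ((univ : Finset (Bt d)).card : ℝ) = 2 ^ d := by
  rw [Finset.card_univ, Fintype.card_fun, Fintype.card_bool, Fintype.card_fin]
  push_cast
  rfl

private theorem L8_sum {d k q : ℕ} (f : Site d (k + 1) → Fin q) (c : Fin q) :
    ∑ t : Blk d k, EB (Fb f c t) = 2 / 2 ^ d * ∑ v ∈ ods d (k + 1), L8_g c v f := by
  classical
  have h4 : (4 : ℝ) ^ d = 2 ^ d * 2 ^ d := by
    rw [← mul_pow]; norm_num
  have h := sum_pt (d := d) (k := k) (fun x b => if ¬ evn x then L8_F c x b f else 0)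
  have hL : ∑ t : Blk d k, EB (Fb f c t) =
      2 / 4 ^ d * ∑ t : Blk d k, ∑ a, ∑ b,
        (if ¬ evn (pt t a b) then L8_F c (pt t a b) b f else 0) := by
    rw [mul_sum]
    refine sum_congr rfl fun t _ => ?_
    unfold EB
    rw [mul_div_right_comm]
    congr 1
    refine sum_congr rfl fun a _ => sum_congr rfl fun b _ => ?_
    by_cases hod : od a b
    · rw [if_pos hod, if_pos, L8_Fb]
      rw [evn_pt]
      exact not_not.mpr hod
    · rw [if_neg hod, if_neg]
      rw [evn_pt]
      exact not_not.mpr hod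
  rw [hL, h]
  have hR : ∑ x : Site d (k + 1), ∑ b : Bt d, (if ¬ evn x then L8_F c x b f else 0) =
      2 ^ d * ∑ v ∈ ods d (k + 1), L8_g c v f := by
    unfold ods
    rw [Finset.sum_filter, mul_sum]
    refine sum_congr rfl fun x _ => ?_
    by_cases hx : evn x
    · rw [if_neg (not_not.2 hx), mul_zero]
      exact Finset.sum_eq_zero fun b _ => if_neg (not_not.2 hx)
    · rw [if_pos hx]
      unfold L8_g
      rw [mul_div_cancel₀ _ (by positivity : (2 : ℝ) ^ d ≠ 0)]
      exact Finset.sum_congr rfl fun b _ => if_pos hx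
  rw [hR, h4]
  field_simp

private theorem L8_F_nonneg {d k q : ℕ} (c : Fin q) (x : Site d (k + 1)) (b : Bt d)
    (f : Site d (k + 1) → Fin q) : 0 ≤ L8_F c x b f := by
  unfold L8_F
  split_ifs <;> norm_num

private theorem L8_F_le {d k q : ℕ} (c : Fin q) (x : Site d (k + 1)) (b : Bt d)
    (f : Site d (k + 1) → Fin q) : L8_F c x b f ≤ 1 := by
  unfold L8_F
  split_ifs <;> norm_num

private theorem L8_avg {d : ℕ} (F : Bt d → ℝ) (E : ℝ) (hF : ∀ b, F b ≤ E) :
    (∑ b : Bt d, F b) / 2 ^ d ≤ E := by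
  rw [div_le_iff₀ (by positivity)]
  calc ∑ b : Bt d, F b ≤ ∑ _b : Bt d, E := Finset.sum_le_sum fun b _ => hF b
    _ = E * 2 ^ d := by rw [Finset.sum_const, nsmul_eq_mul, L8_card_bt, mul_comm]

private theorem L8_loc {d k q : ℕ} (c : Fin q) :
    Loc (d := d) (k := k + 1) (q := q) false (fun v f => L8_g c v f) := by
  refine ⟨fun v _ f => ⟨?_, ?_⟩, fun v hv f f' h1 h2 => ?_⟩
  · exact div_nonneg (Finset.sum_nonneg fun b _ => L8_F_nonneg c v b f) (by positivity)
  · exact L8_avg _ 1 fun b => L8_F_le c v b f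
  · have hv' : ¬ evn v := by
      unfold cls ods at hv
      simpa using hv
    have hz : ∀ σ : Stp d, zz f (v + sv σ) c = zz f' (v + sv σ) c := by
      intro σ
      have hS : SS f (v + sv σ) = SS f' (v + sv σ) := by
        unfold SS
        refine Finset.image_congr fun τ _ => ?_
        refine h1 _ ?_
        have h3 : evn (v + sv σ) := (evn_step (by omega) v σ).2 hv'
        have h4 : ¬ evn (v + sv σ + sv τ) := fun h5 =>
          (evn_step (by omega) (v + sv σ) τ).1 h5 h3
        unfold cls ods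
        simpa using h4
      unfold zz
      rw [hS]
    have hP : PP (fun y => zz f y c) v = PP (fun y => zz f' y c) v := by
      unfold PP
      simp only [hz]
    have hF : ∀ b : Bt d, L8_F c v b f = L8_F c v b f' := by
      intro b
      unfold L8_F
      rw [hP]
      have hp : (7 / 8 ≤ PP (fun y => zz f' y c) v ∧
          ∃ β : Bool, ∀ σ : Stp d, alw (L8_a v b) b σ → (decide (2 * σ.1.val < d) = β) →
            f (v + sv σ) ≠ c) ↔ (7 / 8 ≤ PP (fun y => zz f' y c) v ∧
          ∃ β : Bool, ∀ σ : Stp d, alw (L8_a v b) b σ → (decide (2 * σ.1.val < d) = β) →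
            f' (v + sv σ) ≠ c) :=
        and_congr Iff.rfl (exists_congr fun β => forall_congr' fun σ => by rw [h2 σ])
      split_ifs with h3 h4 h4
      · rfl
      · exact absurd (hp.1 h3) h4
      · exact absurd (hp.2 h4) h3
      · rfl
    change L8_g c v f = L8_g c v f'
    unfold L8_g
    simp only [hF]

/-- the allowed steps in one half of the directions -/
private noncomputable def L8_S {d : ℕ} (a b : Bt d) (β : Bool) : Finset (Stp d) := by
  classical
  exact univ.filter fun σ => alw a b σ ∧ decide (2 * σ.1.val < d) = β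

private theorem L8_mem_S {d : ℕ} (a b : Bt d) (β : Bool) (σ : Stp d) :
    σ ∈ L8_S a b β ↔ alw a b σ ∧ decide (2 * σ.1.val < d) = β := by
  unfold L8_S
  simp

private theorem L8_card_S {d : ℕ} (a b : Bt d) (β : Bool) : d / 2 ≤ (L8_S a b β).card := by
  have hlt : ∀ i : Fin (d / 2), i.val < d ∧ d - 1 - i.val < d := fun i => by
    have := i.isLt
    omega
  let j : Fin (d / 2) → Fin d := fun i =>
    if β then ⟨i.val, (hlt i).1⟩ else ⟨d - 1 - i.val, (hlt i).2⟩
  have hj : Function.Injective j := by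
    intro i i' h
    have h1 := i.isLt
    have h2 := i'.isLt
    have h0 : (j i).val = (j i').val := congrArg Fin.val h
    cases β with
    | true =>
      have h3 : i.val = i'.val := h0
      exact Fin.ext h3
    | false =>
      have h3 : d - 1 - i.val = d - 1 - i'.val := h0
      exact Fin.ext (by omega)
  have hβ : ∀ i, decide (2 * (j i).val < d) = β := by
    intro i
    have h1 := i.isLt
    cases β with
    | true =>
      have h3 : (j i).val = i.val := rfl
      rw [h3, decide_eq_true_iff]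
      omega
    | false =>
      have h3 : (j i).val = d - 1 - i.val := rfl
      rw [h3, decide_eq_false_iff_not]
      omega
  let F : Fin (d / 2) → Stp d := fun i => (j i, !(a (j i) && b (j i)))
  have hF : ∀ i ∈ (univ : Finset (Fin (d / 2))), F i ∈ L8_S a b β := by
    intro i _
    rw [L8_mem_S]
    refine ⟨?_, hβ i⟩
    unfold alw
    change if (!(a (j i) && b (j i))) = true then _ else _
    cases h1 : a (j i) <;> cases h2 : b (j i) <;> simp
  have h := Finset.card_le_card_of_injOn F hF fun i _ i' _ hii => hj (congrArg Prod.fst hii)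
  simpa using h

/-- the factor of one neighbour -/
private theorem L8_factor {d k q : ℕ} {f : Site d k → Fin q} (hf : Prp f) (u : Site d k)
    (c : Fin q) : (∑ x ∈ (SS f u)ᶜ, (if x = c then (0 : ℝ) else 1)) / (av f u : ℝ) ≤
      Real.exp (-(zz f u c / q)) := by
  classical
  have hav : (1 : ℝ) ≤ av f u := by exact_mod_cast av_pos hf u
  have hq : (av f u : ℝ) ≤ q := by
    unfold av
    exact_mod_cast Nat.sub_le _ _
  have hcard : (((SS f u)ᶜ).card : ℝ) = av f u := by
    rw [Finset.card_compl, Fintype.card_fin]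
    rfl
  have hsum : ∑ x ∈ (SS f u)ᶜ, (if x = c then (0 : ℝ) else 1) =
      av f u - zz f u c := by
    have h1 : ∑ x ∈ (SS f u)ᶜ, (if x = c then (0 : ℝ) else 1) =
        ∑ x ∈ (SS f u)ᶜ, (1 - if x = c then (1 : ℝ) else 0) := by
      refine Finset.sum_congr rfl fun x _ => ?_
      split_ifs <;> norm_num
    rw [h1, Finset.sum_sub_distrib, Finset.sum_const, nsmul_eq_mul, mul_one, hcard,
      Finset.sum_ite_eq']
    unfold zz
    by_cases hc : c ∈ SS f u
    · rw [if_neg (by simpa using hc), if_pos hc]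
    · rw [if_pos (by simpa using hc), if_neg hc]
  rw [hsum]
  have hz0 : 0 ≤ zz f u c := by
    unfold zz
    split_ifs <;> norm_num
  have h2 : zz f u c / q ≤ zz f u c / av f u :=
    div_le_div_of_nonneg_left hz0 (by linarith) hq
  have h3 : ((av f u : ℝ) - zz f u c) / av f u = 1 - zz f u c / av f u := by
    rw [sub_div, div_self (by linarith : (av f u : ℝ) ≠ 0)]
  rw [h3]
  have h4 := Real.add_one_le_exp (-(zz f u c / q))
  linarith

private theorem L8_half {d k q : ℕ} (hk : 2 ≤ k + 1) (hd : 1 ≤ d) (c : Fin q)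
    {f : Site d (k + 1) → Fin q} (hf : Prp f) (v : Site d (k + 1))
    (hv : v ∈ cls false d (k + 1)) (hm : 7 / 8 ≤ PP (fun y => zz f y c) v) (a b : Bt d)
    (β : Bool) :
    fm true (fun h => ∏ u ∈ (L8_S a b β).image (fun σ => v + sv σ),
      (if h u = c then (0 : ℝ) else 1)) f ≤ Real.exp (-(((d : ℝ) / 4 - 1) / q)) := by
  classical
  have hv' : ¬ evn v := by
    unfold cls ods at hv
    simpa using hv
  have hU : (L8_S a b β).image (fun σ => v + sv σ) ⊆ cls true d (k + 1) := by
    intro u hu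
    obtain ⟨σ, -, rfl⟩ := Finset.mem_image.1 hu
    have h3 : evn (v + sv σ) := (evn_step (by omega) v σ).2 hv'
    unfold cls evs
    simpa using h3
  rw [fm_prod (by omega) true hf _ hU (fun _ x => if x = c then (0 : ℝ) else 1)]
  have h1 : ∏ u ∈ (L8_S a b β).image (fun σ => v + sv σ),
      (∑ x ∈ (SS f u)ᶜ, (if x = c then (0 : ℝ) else 1)) / (av f u : ℝ) ≤
      ∏ u ∈ (L8_S a b β).image (fun σ => v + sv σ), Real.exp (-(zz f u c / q)) := by
    refine Finset.prod_le_prod (fun u _ => ?_) fun u _ => L8_factor hf u c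
    refine div_nonneg (Finset.sum_nonneg fun x _ => ?_) (Nat.cast_nonneg _)
    split_ifs <;> norm_num
  refine h1.trans ?_
  rw [← Real.exp_sum]
  refine Real.exp_le_exp.2 ?_
  have hinj : Set.InjOn (fun σ : Stp d => v + (sv σ : Site d (k + 1))) (L8_S a b β) := by
    intro σ _ τ _ h
    exact sv_inj hk (add_left_cancel h)
  rw [Finset.sum_image hinj, Finset.sum_neg_distrib, ← Finset.sum_div]
  refine neg_le_neg ?_
  refine div_le_div_of_nonneg_right ?_ (Nat.cast_nonneg _)
  -- the count
  have hd0 : (0 : ℝ) < 2 * d := by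
    have : (1 : ℝ) ≤ d := by exact_mod_cast hd
    linarith
  have h2 : 2 * (d : ℝ) * (7 / 8) ≤ ∑ σ : Stp d, zz f (v + sv σ) c := by
    unfold PP at hm
    rw [le_div_iff₀ hd0] at hm
    linarith
  have h3 : ((univ : Finset (Stp d)).card : ℝ) = 2 * d := by
    rw [Finset.card_univ, Fintype.card_prod, Fintype.card_fin, Fintype.card_bool]
    push_cast
    ring
  have h4 : ∑ σ : Stp d, (1 - zz f (v + sv σ) c) ≤ d / 4 := by
    rw [Finset.sum_sub_distrib, Finset.sum_const, nsmul_eq_mul, mul_one, h3]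
    linarith
  have h5 : ∑ σ ∈ L8_S a b β, (1 - zz f (v + sv σ) c) ≤ ∑ σ : Stp d, (1 - zz f (v + sv σ) c) := by
    refine Finset.sum_le_sum_of_subset_of_nonneg (Finset.subset_univ _) fun σ _ _ => ?_
    unfold zz
    split_ifs <;> norm_num
  rw [Finset.sum_sub_distrib, Finset.sum_const, nsmul_eq_mul, mul_one] at h5
  have h6 : ((d / 2 : ℕ) : ℝ) ≤ ((L8_S a b β).card : ℝ) := by
    exact_mod_cast L8_card_S a b β
  have h7 : (d : ℝ) ≤ 2 * ((d / 2 : ℕ) : ℝ) + 1 := by
    have : d ≤ 2 * (d / 2) + 1 := by omega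
    exact_mod_cast this
  linarith

private theorem L8_fm_mono {d k q : ℕ} (b : Bool) {G H : (Site d k → Fin q) → ℝ}
    {f : Site d k → Fin q} (h : ∀ g ∈ fib b f, G g ≤ H g) : fm b G f ≤ fm b H f := by
  unfold fm
  exact div_le_div_of_nonneg_right (Finset.sum_le_sum h) (Nat.cast_nonneg _)

private theorem L8_fm_add {d k q : ℕ} (b : Bool) (G H : (Site d k → Fin q) → ℝ)
    (f : Site d k → Fin q) : fm b (fun g => G g + H g) f = fm b G f + fm b H f := by
  unfold fm
  rw [Finset.sum_add_distrib, add_div]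

private theorem L8_fm_F {d k q : ℕ} (hk : 2 ≤ k + 1) (hd : 1 ≤ d) (c : Fin q)
    {f : Site d (k + 1) → Fin q} (hf : Prp f) (v : Site d (k + 1))
    (hv : v ∈ cls false d (k + 1)) (b : Bt d) :
    fm true (fun h => L8_F c v b h) f ≤ 2 * Real.exp (-(((d : ℝ) / 4 - 1) / q)) := by
  classical
  have hP : ∀ h ∈ fib true f, PP (fun y => zz h y c) v = PP (fun y => zz f y c) v :=
    fun h hh => PP_fib hk false (h := h) (f := f) hh v hv c
  by_cases hm : 7 / 8 ≤ PP (fun y => zz f y c) v
  · have h1 : ∀ h ∈ fib true f, L8_F c v b h ≤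
        (∏ u ∈ (L8_S (L8_a v b) b true).image (fun σ => v + sv σ),
          (if h u = c then (0 : ℝ) else 1)) +
        ∏ u ∈ (L8_S (L8_a v b) b false).image (fun σ => v + sv σ),
          (if h u = c then (0 : ℝ) else 1) := by
      intro h _
      have hpos : ∀ β : Bool, (0 : ℝ) ≤
          ∏ u ∈ (L8_S (L8_a v b) b β).image (fun σ => v + sv σ),
            (if h u = c then (0 : ℝ) else 1) := fun β =>
        Finset.prod_nonneg fun u _ => by split_ifs <;> norm_num
      unfold L8_F
      split_ifs with hc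
      · obtain ⟨-, β, hβ⟩ := hc
        have hone : ∏ u ∈ (L8_S (L8_a v b) b β).image (fun σ => v + sv σ),
            (if h u = c then (0 : ℝ) else 1) = 1 := by
          refine Finset.prod_eq_one fun u hu => ?_
          obtain ⟨σ, hσ, rfl⟩ := Finset.mem_image.1 hu
          rw [L8_mem_S] at hσ
          exact if_neg (hβ σ hσ.1 hσ.2)
        cases β with
        | true =>
          rw [hone]
          linarith [hpos false]
        | false =>
          rw [hone]
          linarith [hpos true]
      · linarith [hpos true, hpos false]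
    refine (L8_fm_mono true h1).trans ?_
    rw [L8_fm_add, two_mul]
    exact add_le_add (L8_half hk hd c hf v hv hm _ b true) (L8_half hk hd c hf v hv hm _ b false)
  · have h1 : ∀ h ∈ fib true f, L8_F c v b h ≤ 0 := by
      intro h hh
      unfold L8_F
      rw [if_neg]
      rintro ⟨h2, -⟩
      rw [hP h hh] at h2
      exact hm h2
    refine (L8_fm_mono true h1).trans ?_
    have h2 : fm true (fun _ : Site d (k + 1) → Fin q => (0 : ℝ)) f = 0 := by
      unfold fm
      rw [Finset.sum_const_zero, zero_div]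
    rw [h2]
    positivity

private theorem L8_fm {d k q : ℕ} (hk : 2 ≤ k + 1) (hd : 1 ≤ d) (c : Fin q)
    {f : Site d (k + 1) → Fin q} (hf : Prp f) (v : Site d (k + 1))
    (hv : v ∈ cls false d (k + 1)) :
    fm true (fun h => L8_g c v h) f ≤ 2 * Real.exp (-(((d : ℝ) / 4 - 1) / q)) := by
  have h1 : fm true (fun h => L8_g c v h) f =
      (∑ b : Bt d, fm true (fun h => L8_F c v b h) f) / 2 ^ d := by
    unfold fm L8_g
    rw [← Finset.sum_div, ← Finset.sum_div, Finset.sum_comm]
    ring
  rw [h1]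
  exact L8_avg _ _ fun b => L8_fm_F hk hd c hf v hv b

private theorem L8_NN (d k : ℕ) : NN d (k + 1) = 2 ^ d * NN d k := by
  unfold NN
  rw [pow_succ, mul_pow, mul_comm]

open scoped Classical in
theorem Fb_rare (ε : ℝ) (hε : 0 < ε) : Ev fun d k q => ∀ c : Fin q,
    (((prps d (k + 1) q).filter fun f => ε * NN d k ≤ ∑ t : Blk d k, EB (Fb f c t)).card : ℝ) ≤
      ZZ d (k + 1) q * Real.exp (-(NN d (k + 1) / (d : ℝ) ^ 18)) := by
  classical
  obtain ⟨L, hL0, hL⟩ : ∃ L : ℝ, 0 ≤ L ∧ 2 * Real.exp (-L) ≤ ε / 4 := by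
    refine ⟨max 0 (-Real.log (ε / 8)), le_max_left _ _, ?_⟩
    have h1 : Real.exp (-(max 0 (-Real.log (ε / 8)))) ≤ ε / 8 := by
      calc Real.exp (-(max 0 (-Real.log (ε / 8)))) ≤ Real.exp (Real.log (ε / 8)) := by
            refine Real.exp_le_exp.2 ?_
            have := le_max_right 0 (-Real.log (ε / 8))
            linarith
        _ = ε / 8 := Real.exp_log (by linarith)
    linarith
  refine (((rare_glob (ε / 4) (by linarith)).shift).and (Ev_large (4 * (L + 1)))).mono
    fun d k q hh c => ?_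
  obtain ⟨h1, h2, h3, h4, h5⟩ := hh
  have hq1 : (1 : ℝ) ≤ q := by linarith
  have hd1 : 1 ≤ d := by
    have : (1 : ℝ) ≤ d := by linarith
    exact_mod_cast this
  have hk1 : 1 ≤ k := by
    have : (1 : ℝ) ≤ k := by linarith
    exact_mod_cast this
  have hE : 2 * Real.exp (-(((d : ℝ) / 4 - 1) / q)) ≤ ε / 4 := by
    refine le_trans ?_ hL
    refine mul_le_mul_of_nonneg_left (Real.exp_le_exp.2 ?_) (by norm_num)
    refine neg_le_neg ?_
    rw [le_div_iff₀ (by linarith)]
    nlinarith
  have h6 := h1 false (fun v f => L8_g c v f) (L8_loc c)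
  have hN : 0 ≤ NN d (k + 1) := by
    unfold NN
    positivity
  refine le_trans ?_ (h6.trans ?_)
  · refine Nat.cast_le.2 (Finset.card_le_card fun f hf => ?_)
    rw [Finset.mem_filter] at hf ⊢
    obtain ⟨hf1, hf2⟩ := hf
    refine ⟨hf1, ?_⟩
    have hfp : Prp f := by
      unfold prps at hf1
      simpa using hf1
    have hcls : cls false d (k + 1) = ods d (k + 1) := by
      unfold cls
      simp
    have h7 : ε / 2 * NN d (k + 1) ≤ ∑ v ∈ ods d (k + 1), L8_g c v f := by
      rw [L8_sum, L8_NN] at *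
      have h8 : (0 : ℝ) < 2 ^ d := by positivity
      have h9 := mul_le_mul_of_nonneg_left hf2 (by positivity : (0 : ℝ) ≤ 2 ^ d / 2)
      have h10 : (2 : ℝ) ^ d / 2 * (2 / 2 ^ d * ∑ v ∈ ods d (k + 1), L8_g c v f) =
          ∑ v ∈ ods d (k + 1), L8_g c v f := by
        field_simp
      rw [h10] at h9
      calc ε / 2 * (2 ^ d * NN d k) = 2 ^ d / 2 * (ε * NN d k) := by ring
        _ ≤ _ := h9
    have h8 : ∑ v ∈ cls false d (k + 1), fm (!false) (fun f => L8_g c v f) f ≤
        NN d (k + 1) / 2 * (ε / 4) := by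
      calc ∑ v ∈ cls false d (k + 1), fm (!false) (fun f => L8_g c v f) f
          ≤ ∑ _v ∈ cls false d (k + 1), ε / 4 := by
            refine Finset.sum_le_sum fun v hv => ?_
            exact (L8_fm (by omega) hd1 c hfp v hv).trans hE
        _ = NN d (k + 1) / 2 * (ε / 4) := by
            rw [Finset.sum_const, nsmul_eq_mul, hcls, card_ods hd1 (by omega)]
    rw [Finset.sum_sub_distrib]
    rw [← hcls] at h7
    have h9 : 0 ≤ ε * NN d (k + 1) := by positivity
    change ε / 4 * NN d (k + 1) ≤ ∑ v ∈ cls false d (k + 1), L8_g c v f -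
      ∑ v ∈ cls false d (k + 1), fm (!false) (fun f => L8_g c v f) f
    linarith
  · refine mul_le_mul_of_nonneg_left (Real.exp_le_exp.2 (neg_le_neg ?_)) ?_
    · have hd1' : (1 : ℝ) ≤ d := by exact_mod_cast hd1
      refine div_le_div_of_nonneg_left hN (by positivity) ?_
      exact pow_le_pow_right₀ hd1' (by norm_num)
    · unfold ZZ
      positivity

end Pool.Agent.LIN
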