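import Pool.Agent.Lib_MP_2c424f_lin.Defs

/-!
# H30 EV: statements which hold eventually in the regime
-/

set_option autoImplicit false

open Finset Filter

namespace Pool.Agent.LIN

open Pool.Agent.LO

/-- `P d k q` holds in the regime `δ`, for some `δ > 0`, for all large `k` -/
def Ev (P : ℕ → ℕ → ℕ → Prop) : Prop :=
  ∃ δ : ℝ, 0 < δ ∧ ∀ d q : ℕ, Gd δ d q → ∀ᶠ k : ℕ in atTop, P d k q

theorem Gd.mono {δ δ' : ℝ} {d q : ℕ} (h : Gd δ d q) (hδ : δ ≤ δ') : Gd δ' d q := by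
  obtain ⟨h0, h1, h2, h3⟩ := h
  have hq : (0 : ℝ) ≤ q := Nat.cast_nonneg _
  refine ⟨by linarith, ?_, ?_, ?_⟩
  · exact (one_div_le_one_div_of_le h0 hδ).trans h1
  · exact h2.trans (mul_le_mul_of_nonneg_right hδ (Nat.cast_nonneg _))
  · filter_upwards [h3] with k hk
    refine hk.trans ?_
    have hN : 0 ≤ NN d k := by unfold NN; positivity
    have h4 : (1 + δ) / (q : ℝ) ≤ (1 + δ') / q := div_le_div_of_nonneg_right (by linarith) hq
    have := mul_le_mul_of_nonneg_right h4 hN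
    linarith

theorem Ev.mono {P Q : ℕ → ℕ → ℕ → Prop} (h : Ev P) (hPQ : ∀ d k q, P d k q → Q d k q) : Ev Q := by
  obtain ⟨δ, h0, h1⟩ := h
  refine ⟨δ, h0, fun d q hG => ?_⟩
  filter_upwards [h1 d q hG] with k hk
  exact hPQ d k q hk

theorem Ev.and {P Q : ℕ → ℕ → ℕ → Prop} (h : Ev P) (h' : Ev Q) : Ev fun d k q => P d k q ∧ Q d k q := by
  obtain ⟨δ, h0, h1⟩ := h
  obtain ⟨δ', h0', h1'⟩ := h'
  refine ⟨min δ δ', lt_min h0 h0', fun d q hG => ?_⟩
  filter_upwards [h1 d q (hG.mono (min_le_left _ _)), h1' d q (hG.mono (min_le_right _ _))] with k hk hk'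
  exact ⟨hk, hk'⟩

/-- shift of `k` -/
theorem Ev.shift {P : ℕ → ℕ → ℕ → Prop} (h : Ev P) : Ev fun d k q => P d (k + 1) q := by
  obtain ⟨δ, h0, h1⟩ := h
  exact ⟨δ, h0, fun d q hG => (tendsto_add_atTop_nat 1).eventually (h1 d q hG)⟩

/-- facts about the regime at the given `δ` may be used -/
theorem Ev_of {P : ℕ → ℕ → ℕ → Prop} (δ : ℝ) (hδ : 0 < δ)
    (h : ∀ d q : ℕ, Gd δ d q → ∀ᶠ k : ℕ in atTop, P d k q) : Ev P := ⟨δ, hδ, h⟩

/-- sizes -/
theorem Ev_large (M : ℝ) : Ev fun d k q => M ≤ q ∧ M * q ≤ d ∧ M ≤ d ∧ M ≤ k := by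
  set M' : ℝ := max M 1 with hM'
  have h1 : 1 ≤ M' := le_max_right _ _
  have h2 : M ≤ M' := le_max_left _ _
  have hp : 0 < M' := by linarith
  refine ⟨1 / M', by positivity, fun d q hG => ?_⟩
  obtain ⟨_, hq, hd, _⟩ := hG
  rw [one_div_one_div] at hq
  have hd' : M' * q ≤ d := by
    have h3 := mul_le_mul_of_nonneg_left hd hp.le
    have h4 : M' * (1 / M' * (d : ℝ)) = d := by
      field_simp
    linarith
  have hq0 : (0 : ℝ) ≤ q := Nat.cast_nonneg _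
  have h5 : (q : ℝ) ≤ M' * q := by nlinarith
  filter_upwards [eventually_ge_atTop ⌈M⌉₊] with k hk
  refine ⟨by linarith, ?_, by linarith, ?_⟩
  · have := mul_le_mul_of_nonneg_right h2 hq0
    linarith
  · exact (Nat.le_ceil M).trans (by exact_mod_cast hk)

/-- any property of all large `d` -/
theorem Ev_d {Q : ℕ → Prop} (h : ∀ᶠ d : ℕ in atTop, Q d) : Ev fun d _ _ => Q d := by
  obtain ⟨d₀, hd₀⟩ := eventually_atTop.1 h
  refine (Ev_large (d₀ : ℝ)).mono fun d k q hh => hd₀ d ?_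
  exact_mod_cast hh.2.2.1

/-- `2^k` is larger than any function of `d` and `q` -/
theorem Ev_pow (C : ℕ → ℕ → ℝ) : Ev fun d k q => C d q ≤ 2 ^ k := by
  refine ⟨1, one_pos, fun d q _ => ?_⟩
  have h := tendsto_pow_atTop_atTop_of_one_lt (one_lt_two : (1 : ℝ) < 2)
  exact h.eventually (eventually_ge_atTop (C d q))

/-- the number of sites is larger than any function of `d` and `q` -/
theorem Ev_NN (C : ℕ → ℕ → ℝ) : Ev fun d k q => C d q ≤ NN d k := by
  refine ((Ev_pow C).and (Ev_large 1)).mono fun d k q h => ?_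
  obtain ⟨h1, -, -, h2, -⟩ := h
  have hd : 1 ≤ d := by exact_mod_cast h2
  have h3 : (1 : ℝ) ≤ 2 ^ k := one_le_pow₀ (by norm_num)
  refine h1.trans ?_
  unfold NN
  calc (2 : ℝ) ^ k = ((2 : ℝ) ^ k) ^ 1 := (pow_one _).symm
    _ ≤ ((2 : ℝ) ^ k) ^ d := pow_le_pow_right₀ h3 hd

end Pool.Agent.LIN
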