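import Pool.Agent.Lib_MP_2c424f_lin.L1
import Pool.Agent.Lib_MP_2c424f_lin.Ev

/-!
# H30 L1b: rare exceptional sets

From `ldu` with `κ = 1/(2d^5)`, `η = N/d^19`; the exponent is
`-(N/(2d^5))/(2d)^12 · G/2 + N exp (-G/2) + N/d^19`, decreasing in `G` for `G ≥ d²`, `d` large (or: weaken the hypothesis
to `G = d²` first, `exp (-(G|A'|)) ≤ exp (-(d²|A'|))`), and for `G = d²` it is `≤ -2N/d^18` for large `d`
(`2^14 d^15 ≤ d^16`, `exp (-d²/2) ≤ d^{-19}`).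
* `rare_union`: if `A f ⊆ A1 f ∪ A2 f` and `N/d^5 ≤ |A f|` then `N/(2d^5) ≤ |A1 f|` or `≤ |A2 f|`;
  `2 exp (-2N/d^18) ≤ exp (-N/d^18)` as `N/d^18 ≥ 1 > log 2`.
-/

set_option autoImplicit false

open Finset Filter

namespace Pool.Agent.LIN

open Pool.Agent.LO

private theorem L1b_NN_pos (d k : ℕ) : 0 < NN d k := by
  unfold NN
  positivity

private theorem L1b_exp {d : ℕ} (hd : 2 ^ 10 * Nat.factorial 10 ≤ d) :
    Real.exp (-((d : ℝ) ^ 2 / 2)) ≤ 1 / (d : ℝ) ^ 19 := by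
  have hf : (2 : ℝ) ^ 10 * (Nat.factorial 10 : ℕ) ≤ d := by exact_mod_cast hd
  have hf0 : (0 : ℝ) < (Nat.factorial 10 : ℕ) := by exact_mod_cast Nat.factorial_pos 10
  have hd0 : (0 : ℝ) < d := lt_of_lt_of_le (by positivity) hf
  have h1 := Real.pow_div_factorial_le_exp ((d : ℝ) ^ 2 / 2) (by positivity) 10
  have h2 : (d : ℝ) ^ 19 ≤ Real.exp ((d : ℝ) ^ 2 / 2) := by
    refine le_trans ?_ h1
    rw [le_div_iff₀ hf0]
    have e1 : (d : ℝ) ^ 19 * (Nat.factorial 10 : ℕ) * 2 ^ 10 ≤ (d : ℝ) ^ 20 := by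
      calc (d : ℝ) ^ 19 * (Nat.factorial 10 : ℕ) * 2 ^ 10 =
            (d : ℝ) ^ 19 * (2 ^ 10 * (Nat.factorial 10 : ℕ)) := by ring
        _ ≤ (d : ℝ) ^ 19 * d := mul_le_mul_of_nonneg_left hf (by positivity)
        _ = (d : ℝ) ^ 20 := by ring
    have e2 : ((d : ℝ) ^ 2 / 2) ^ 10 = (d : ℝ) ^ 20 / 2 ^ 10 := by ring
    rw [e2, le_div_iff₀ (by positivity)]
    exact e1
  rw [Real.exp_neg, ← one_div]
  exact one_div_le_one_div_of_le (by positivity) h2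

private theorem L1b_num {d : ℕ} (hd : 2 ^ 10 * Nat.factorial 10 ≤ d) :
    2 / (d : ℝ) ^ 18 + Real.exp (-((d : ℝ) ^ 2 / 2)) + 1 / (d : ℝ) ^ 19 ≤
      1 / (2 * (d : ℝ) ^ 5) / (2 * (d : ℝ)) ^ 12 * ((d : ℝ) ^ 2 / 2) := by
  have h64 : (64 : ℝ) ≤ d := by
    have h1 : 1 ≤ Nat.factorial 10 := Nat.factorial_pos 10
    have : 64 ≤ d := by omega
    exact_mod_cast this
  have hd0 : (0 : ℝ) < d := by linarith
  have h1 := L1b_exp hd
  have h2 : 1 / (d : ℝ) ^ 19 ≤ 1 / (d : ℝ) ^ 18 :=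
    one_div_le_one_div_of_le (by positivity) (pow_le_pow_right₀ (by linarith) (by norm_num))
  have h3 : 1 / (2 * (d : ℝ) ^ 5) / (2 * (d : ℝ)) ^ 12 * ((d : ℝ) ^ 2 / 2) =
      1 / (d : ℝ) ^ 18 * ((d : ℝ) ^ 3 / 2 ^ 14) := by
    field_simp
  have h4 : (4 : ℝ) ≤ (d : ℝ) ^ 3 / 2 ^ 14 := by
    rw [le_div_iff₀ (by positivity)]
    calc (4 : ℝ) * 2 ^ 14 ≤ 64 ^ 3 := by norm_num
      _ ≤ (d : ℝ) ^ 3 := pow_le_pow_left₀ (by norm_num) h64 3
  rw [h3]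
  have h5 : 1 / (d : ℝ) ^ 18 * 4 ≤ 1 / (d : ℝ) ^ 18 * ((d : ℝ) ^ 3 / 2 ^ 14) :=
    mul_le_mul_of_nonneg_left h4 (by positivity)
  have h6 : 2 / (d : ℝ) ^ 18 = 1 / (d : ℝ) ^ 18 * 2 := by ring
  rw [h6]
  linarith

open scoped Classical in
theorem rare_half : ∀ᶠ d : ℕ in atTop, ∀ (k q : ℕ) (A : (Site d k → Fin q) → Finset (Site d k)) (G : ℝ),
    (d : ℝ) ^ 2 ≤ G →
    (∀ A' : Finset (Site d k), sep A' → (((prps d k q).filter fun f => A' ⊆ A f).card : ℝ) ≤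
      ZZ d k q * Real.exp (-(G * A'.card) + NN d k / (d : ℝ) ^ 19)) →
    (((prps d k q).filter fun f => NN d k / (2 * (d : ℝ) ^ 5) ≤ ((A f).card : ℝ)).card : ℝ) ≤
      ZZ d k q * Real.exp (-(2 * (NN d k / (d : ℝ) ^ 18))) := by
  filter_upwards [eventually_ge_atTop (2 ^ 10 * Nat.factorial 10)] with d hd k q A G hG h
  have hd1 : 1 ≤ d := by
    have h1 : 1 ≤ Nat.factorial 10 := Nat.factorial_pos 10
    omega
  have hZ : 0 ≤ ZZ d k q := by
    unfold ZZ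
    positivity
  have hN := L1b_NN_pos d k
  have h1 := ldu (prps d k q) A (ZZ d k q) ((d : ℝ) ^ 2) (NN d k / (d : ℝ) ^ 19)
    (1 / (2 * (d : ℝ) ^ 5)) hZ (by positivity) hd1 (fun A' hA' => (h A' hA').trans (by
      refine mul_le_mul_of_nonneg_left (Real.exp_le_exp.2 ?_) hZ
      have := mul_le_mul_of_nonneg_right hG (Nat.cast_nonneg (α := ℝ) A'.card)
      linarith))
  have e1 : 1 / (2 * (d : ℝ) ^ 5) * NN d k = NN d k / (2 * (d : ℝ) ^ 5) := by ring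
  rw [e1] at h1
  refine h1.trans (mul_le_mul_of_nonneg_left (Real.exp_le_exp.2 ?_) hZ)
  have h2 := mul_le_mul_of_nonneg_left (L1b_num hd) hN.le
  have e2 : NN d k / (2 * (d : ℝ) ^ 5) / (2 * (d : ℝ)) ^ 12 * ((d : ℝ) ^ 2 / 2) =
      NN d k * (1 / (2 * (d : ℝ) ^ 5) / (2 * (d : ℝ)) ^ 12 * ((d : ℝ) ^ 2 / 2)) := by ring
  have e3 : NN d k / (d : ℝ) ^ 19 = NN d k * (1 / (d : ℝ) ^ 19) := by ring
  have e4 : 2 * (NN d k / (d : ℝ) ^ 18) = NN d k * (2 / (d : ℝ) ^ 18) := by ring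
  rw [e2, e3, e4]
  rw [mul_add, mul_add] at h2
  linarith

open scoped Classical in
theorem rare_union {d k q : ℕ} (hd : 1 ≤ d) (h18 : (d : ℝ) ^ 18 ≤ NN d k)
    (A A1 A2 : (Site d k → Fin q) → Finset (Site d k)) (hA : ∀ f, A f ⊆ A1 f ∪ A2 f)
    (h1 : (((prps d k q).filter fun f => NN d k / (2 * (d : ℝ) ^ 5) ≤ ((A1 f).card : ℝ)).card : ℝ) ≤
      ZZ d k q * Real.exp (-(2 * (NN d k / (d : ℝ) ^ 18))))
    (h2 : (((prps d k q).filter fun f => NN d k / (2 * (d : ℝ) ^ 5) ≤ ((A2 f).card : ℝ)).card : ℝ) ≤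
      ZZ d k q * Real.exp (-(2 * (NN d k / (d : ℝ) ^ 18)))) :
    Rare d k q fun f => NN d k / (d : ℝ) ^ 5 ≤ ((A f).card : ℝ) := by
  have hd0 : (0 : ℝ) < d := by exact_mod_cast hd
  have hZ : 0 ≤ ZZ d k q := by
    unfold ZZ
    positivity
  have hsub : ((prps d k q).filter fun f => NN d k / (d : ℝ) ^ 5 ≤ ((A f).card : ℝ)) ⊆
      ((prps d k q).filter fun f => NN d k / (2 * (d : ℝ) ^ 5) ≤ ((A1 f).card : ℝ)) ∪
        ((prps d k q).filter fun f => NN d k / (2 * (d : ℝ) ^ 5) ≤ ((A2 f).card : ℝ)) := by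
    intro f hf
    rw [mem_filter] at hf
    rw [mem_union, mem_filter, mem_filter]
    by_contra hcon
    have c1 : ((A1 f).card : ℝ) < NN d k / (2 * (d : ℝ) ^ 5) := by
      by_contra h
      exact hcon (Or.inl ⟨hf.1, not_lt.1 h⟩)
    have c2 : ((A2 f).card : ℝ) < NN d k / (2 * (d : ℝ) ^ 5) := by
      by_contra h
      exact hcon (Or.inr ⟨hf.1, not_lt.1 h⟩)
    have c3 : ((A f).card : ℝ) ≤ (A1 f).card + (A2 f).card := by
      exact_mod_cast (card_le_card (hA f)).trans (card_union_le _ _)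
    have c4 : NN d k / (d : ℝ) ^ 5 = NN d k / (2 * (d : ℝ) ^ 5) + NN d k / (2 * (d : ℝ) ^ 5) := by
      field_simp
      ring
    linarith [hf.2]
  have h3 : (((prps d k q).filter fun f => NN d k / (d : ℝ) ^ 5 ≤ ((A f).card : ℝ)).card : ℝ) ≤
      2 * (ZZ d k q * Real.exp (-(2 * (NN d k / (d : ℝ) ^ 18)))) := by
    have h4 : (((prps d k q).filter fun f => NN d k / (d : ℝ) ^ 5 ≤ ((A f).card : ℝ)).card : ℝ) ≤
        ((prps d k q).filter fun f => NN d k / (2 * (d : ℝ) ^ 5) ≤ ((A1 f).card : ℝ)).card +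
        ((prps d k q).filter fun f => NN d k / (2 * (d : ℝ) ^ 5) ≤ ((A2 f).card : ℝ)).card := by
      exact_mod_cast (card_le_card hsub).trans (card_union_le _ _)
    linarith
  have h5 : 2 * Real.exp (-(2 * (NN d k / (d : ℝ) ^ 18))) ≤ Real.exp (-(NN d k / (d : ℝ) ^ 18)) := by
    have h6 : 1 ≤ NN d k / (d : ℝ) ^ 18 := by
      rw [le_div_iff₀ (by positivity)]
      linarith
    have h7 : (2 : ℝ) ≤ Real.exp (NN d k / (d : ℝ) ^ 18) := by
      have := Real.add_one_le_exp (NN d k / (d : ℝ) ^ 18)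
      linarith
    have h8 : Real.exp (-(NN d k / (d : ℝ) ^ 18)) =
        Real.exp (NN d k / (d : ℝ) ^ 18) * Real.exp (-(2 * (NN d k / (d : ℝ) ^ 18))) := by
      rw [← Real.exp_add]
      congr 1
      ring
    rw [h8]
    exact mul_le_mul_of_nonneg_right h7 (Real.exp_pos _).le
  unfold Rare
  refine h3.trans ?_
  have h9 := mul_le_mul_of_nonneg_left h5 hZ
  linarith

open scoped Classical in
theorem rare_of : ∀ᶠ d : ℕ in atTop, ∀ (k q : ℕ) (A : (Site d k → Fin q) → Finset (Site d k)) (G : ℝ),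
    (d : ℝ) ^ 2 ≤ G →
    (∀ A' : Finset (Site d k), sep A' → (((prps d k q).filter fun f => A' ⊆ A f).card : ℝ) ≤
      ZZ d k q * Real.exp (-(G * A'.card) + NN d k / (d : ℝ) ^ 19)) →
    Rare d k q fun f => NN d k / (d : ℝ) ^ 5 ≤ ((A f).card : ℝ) := by
  filter_upwards [rare_half, eventually_ge_atTop 1] with d hd hd1 k q A G hG h
  have h1 := hd k q A G hG h
  have hd0 : (0 : ℝ) < d := by exact_mod_cast hd1
  have hZ : 0 ≤ ZZ d k q := by
    unfold ZZ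
    positivity
  have hN := L1b_NN_pos d k
  have h0 : 0 ≤ NN d k / (d : ℝ) ^ 18 := by positivity
  unfold Rare
  have h2 : (((prps d k q).filter fun f => NN d k / (d : ℝ) ^ 5 ≤ ((A f).card : ℝ)).card : ℝ) ≤
      ((prps d k q).filter fun f => NN d k / (2 * (d : ℝ) ^ 5) ≤ ((A f).card : ℝ)).card := by
    have h3 : ((prps d k q).filter fun f => NN d k / (d : ℝ) ^ 5 ≤ ((A f).card : ℝ)) ⊆
        (prps d k q).filter fun f => NN d k / (2 * (d : ℝ) ^ 5) ≤ ((A f).card : ℝ) := by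
      intro f hf
      rw [mem_filter] at hf ⊢
      refine ⟨hf.1, le_trans ?_ hf.2⟩
      refine div_le_div_of_nonneg_left hN.le (by positivity) ?_
      have : 0 ≤ (d : ℝ) ^ 5 := by positivity
      linarith
    exact_mod_cast card_le_card h3
  refine h2.trans (h1.trans (mul_le_mul_of_nonneg_left (Real.exp_le_exp.2 ?_) hZ))
  linarith

end Pool.Agent.LIN
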