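import Pool.Agent.Lib_MP_2c424f_lin.N3b

/-!
# H30 N3: large deviations of the number of sites of colour `c`

* `Nc_tail`: `genfun` with `ε = b²/12`, `w = 1+b`: `P(N_c ≥ (1+b)N/q, |Xs| ≤ J) ≤ exp ((N/q)(b + ε - (1+b) log (1+b)))`,
  `(1+b) log (1+b) ≥ b + b²/3` on `[0,1]`; `w = 1-b`: `exp ((N/q)(-b + ε - (1-b) log (1-b)))`,
  `(1-b) log (1-b) ≥ -b + b²/2`; and `Xs_rare`.
* `Nc_tilt`: split `E exp (±(ρ/q) N_c)` at `N_c = (1 ± b/2) N/q`; `Nc_tail` for `b/2` gives the rate `ρ₀`; `ρ ≤ min ρ₀ 1`;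
  `N_c ≤ N`; the factor `2` is absorbed by `exp ((N/q)(ρ/q) b/2)` for large `k`.
-/
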