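import Pool.Agent.Lib_MP_2c424f_lin.L3
import Pool.Agent.Lib_MP_2c424f_lin.L1b
import Pool.Agent.Lib_MP_2c424f_lin.N3

/-!
# H30 L3b: local balance (6.2)

`b₀ = min (ε/4) (1/2)`, `ρ` from `Nc_tilt b₀`, `t = s ρ/(2dq)`, `s = ±1`.  `ecb_tilt` and `Nc_tilt`: for every `V`
`∑_f exp (t ∑_{v ∈ V}(1[f v=c]+1[f(v+e_i)=c])) ≤ ZZ exp ((2|V|/q)(t + b₀|t|) + err)`, `err ≤ N/d^19` for large `k`.
For `σ = (i, true)`: `A f = {x ∈ cls b : ε ≤ s (y x + y (x+e_i) - 2)}`, `A'` separated, `V = ⋃_{x ∈ A'} UU x`: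
`∑_{v ∈ V} (1[f v=c] + 1[f (v+e_i)=c]) = (T6/q) ∑_{x ∈ A'} (y x + y (x+e_i))` (`Av_eq`, translation of `UU`).
Markov: `G = |t| T6 (ε - 2b₀)/q ≥ ρ ε T6/(4 d q²) ≥ d²` for large `d` (`q ≤ d`, `T6 ≥ (2d/7)^6`).
The two signs: `rare_half` for each sign and `rare_union` (`Ev_NN` for `d^18 ≤ N`).
`σ = (i, false)`: the site `x - e_i` in the other class and `σ = (i, true)`.
-/

set_option autoImplicit false

open Finset Filter

namespace Pool.Agent.LIN

open Pool.Agent.LO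

open scoped Classical in
private theorem tilt_step {d k q : ℕ} (hd : 2 ≤ d) (hk : 2 ≤ k) (hq : 2 ≤ q) (t : ℝ) (c : Fin q) (σ : Stp d)
    (V : Finset (Site d k)) :
    Real.log (∑ f ∈ prps d k q, Real.exp (t * ∑ v ∈ V,
        ((if f v = c then (1 : ℝ) else 0) + (if f (v + sv σ) = c then (1 : ℝ) else 0)))) ≤
      (1 - V.card / (d * NN d k)) * Real.log (ZZ d k q) +
        V.card / (d * NN d k) * Real.log (∑ f ∈ prps d k q, Real.exp (2 * d * t * (Xc c f).card)) +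
        4 * 2 ^ d * (d : ℝ) ^ 2 * NN d k * Real.log q / 2 ^ k := by
  obtain ⟨i, β⟩ := σ
  cases β
  · have h := ecb_tilt hd hk hq t c i (V.image fun v => v + sv (i, false))
    have hinj : Set.InjOn (fun v : Site d k => v + sv (i, false)) V :=
      fun a _ b _ hab => add_right_cancel hab
    rw [card_image_of_injOn hinj] at h
    have hs : ∀ f : Site d k → Fin q, ∑ v ∈ V.image (fun v => v + sv (i, false)),
        ((if f v = c then (1 : ℝ) else 0) + (if f (v + sv (i, true)) = c then (1 : ℝ) else 0)) =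
        ∑ v ∈ V, ((if f v = c then (1 : ℝ) else 0) + (if f (v + sv (i, false)) = c then (1 : ℝ) else 0)) := by
      intro f
      rw [sum_image hinj]
      refine sum_congr rfl fun v _ => ?_
      have h0 : (sv (i, false) : Site d k) + sv (i, true) = 0 := sv_opp i false
      rw [add_assoc v, h0, add_zero, add_comm]
    simp only [hs] at h
    exact h
  · exact ecb_tilt hd hk hq t c i V

private theorem sum_UU {d k q : ℕ} (hd : 35 ≤ d) (hk : 2 ≤ k) (hq : 2 ≤ q) (c : Fin q) (σ : Stp d)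
    (f : Site d k → Fin q) (x : Site d k) :
    ∑ v ∈ UU x, ((if f v = c then (1 : ℝ) else 0) + (if f (v + sv σ) = c then (1 : ℝ) else 0)) =
      T6 d / q * (yv c f x + yv c f (x + sv σ)) := by
  have hT : (0 : ℝ) < T6 d := by
    have h1 := (T6_bounds hd).1
    have h2 : (0 : ℝ) < (2 * (d : ℝ) / 7) ^ 6 := by
      have : (35 : ℝ) ≤ d := by exact_mod_cast hd
      positivity
    linarith
  have hq0 : (0 : ℝ) < q := by
    have : (2 : ℝ) ≤ q := by exact_mod_cast hq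
    linarith
  rw [sum_add_distrib]
  unfold yv
  rw [← Av_transl _ (sv σ) x, Av_eq hk, Av_eq hk]
  field_simp

open scoped Classical in
private theorem key {d k q : ℕ} (hd : 35 ≤ d) (hk : 2 ≤ k) (hq : 2 ≤ q) (ρ b₀ ε s : ℝ) (hρ : 0 < ρ)
    (c : Fin q) (σ : Stp d) (hs : s = 1 ∨ s = -1) (hε : 2 * b₀ ≤ ε / 2)
    (H : ∑ f ∈ prps d k q, Real.exp (s * (ρ / q) * (Xc c f).card) ≤
      ZZ d k q * Real.exp (NN d k / q * (ρ / q) * (s + b₀)))
    (herr : 4 * 2 ^ d * (d : ℝ) ^ 2 * NN d k * Real.log q / 2 ^ k ≤ NN d k / (d : ℝ) ^ 19)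
    (A' : Finset (Site d k)) (hA : sep A') (A : (Site d k → Fin q) → Finset (Site d k))
    (hAf : ∀ f, ∀ x ∈ A f, ε ≤ s * (yv c f x + yv c f (x + sv σ) - 2)) :
    (((prps d k q).filter fun f => A' ⊆ A f).card : ℝ) ≤
      ZZ d k q * Real.exp (-(ρ * T6 d * ε / (4 * d * (q : ℝ) ^ 2) * A'.card) + NN d k / (d : ℝ) ^ 19) := by
  have hd0 : (0 : ℝ) < d := by
    have : (35 : ℝ) ≤ d := by exact_mod_cast hd
    linarith
  have hq0 : (0 : ℝ) < q := by
    have : (2 : ℝ) ≤ q := by exact_mod_cast hq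
    linarith
  have hT : (0 : ℝ) ≤ T6 d := Nat.cast_nonneg _
  have hN : 0 < NN d k := by unfold NN; positivity
  have hZ : 0 < ZZ d k q := ZZ_pos (by omega) hq
  have hne : (prps d k q).Nonempty := by
    rw [← card_pos]
    unfold ZZ at hZ
    exact_mod_cast hZ
  set V := A'.biUnion UU with hV
  have hdis : ∀ x ∈ A', ∀ y ∈ A', x ≠ y → Disjoint (UU x) (UU y) := hA
  have hVc : (V.card : ℝ) = T6 d * A'.card := by
    rw [hV, card_biUnion hdis]
    simp only [UU_card hk, sum_const, smul_eq_mul]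
    push_cast
    ring
  set t : ℝ := s * (ρ / (2 * d * q)) with ht
  have h2dt : 2 * (d : ℝ) * t = s * (ρ / q) := by
    rw [ht]
    field_simp
  set F : (Site d k → Fin q) → Site d k → ℝ := fun f v =>
    (if f v = c then (1 : ℝ) else 0) + (if f (v + sv σ) = c then (1 : ℝ) else 0) with hF
  set E0 : ℝ := ρ / (2 * d * q) * (T6 d / q) * A'.card * (2 * s + ε) with hE0
  -- lower bound on the event
  have hlow : ∀ f, A' ⊆ A f → E0 ≤ t * ∑ v ∈ V, F f v := by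
    intro f hf
    have h1 : ∑ v ∈ V, F f v = ∑ x ∈ A', T6 d / q * (yv c f x + yv c f (x + sv σ)) := by
      rw [hV, sum_biUnion hdis]
      exact sum_congr rfl fun x _ => sum_UU hd hk hq c σ f x
    rw [h1, ht, hE0]
    have h2 : ∑ x ∈ A', (T6 d / q : ℝ) * (2 * s + ε) ≤
        ∑ x ∈ A', T6 d / q * (s * (yv c f x + yv c f (x + sv σ))) := by
      refine sum_le_sum fun x hx => mul_le_mul_of_nonneg_left ?_ (by positivity)
      have := hAf f x (hf hx)
      linarith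
    rw [sum_const, nsmul_eq_mul] at h2
    have h3 : s * (ρ / (2 * d * q)) * ∑ x ∈ A', T6 d / q * (yv c f x + yv c f (x + sv σ)) =
        ρ / (2 * d * q) * ∑ x ∈ A', T6 d / q * (s * (yv c f x + yv c f (x + sv σ))) := by
      rw [mul_sum, mul_sum]
      refine sum_congr rfl fun x _ => by ring
    rw [h3]
    have h4 := mul_le_mul_of_nonneg_left h2 (by positivity : 0 ≤ ρ / (2 * (d : ℝ) * q))
    calc _ = ρ / (2 * d * q) * (A'.card * (T6 d / q * (2 * s + ε))) := by ring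
      _ ≤ _ := h4
  -- Markov
  set P := (prps d k q).filter fun f => A' ⊆ A f with hP
  have hmark : (P.card : ℝ) * Real.exp E0 ≤ ∑ f ∈ prps d k q, Real.exp (t * ∑ v ∈ V, F f v) := by
    calc (P.card : ℝ) * Real.exp E0 = ∑ f ∈ P, Real.exp E0 := by rw [sum_const, nsmul_eq_mul]
      _ ≤ ∑ f ∈ P, Real.exp (t * ∑ v ∈ V, F f v) := by
          refine sum_le_sum fun f hf => Real.exp_le_exp.2 (hlow f ?_)
          exact (mem_filter.1 hf).2
      _ ≤ _ := sum_le_sum_of_subset_of_nonneg (filter_subset _ _) fun f _ _ => (Real.exp_pos _).le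
  have hpos : 0 < ∑ f ∈ prps d k q, Real.exp (t * ∑ v ∈ V, F f v) :=
    sum_pos (fun f _ => Real.exp_pos _) hne
  have hecb := tilt_step (by omega) hk hq t c σ V
  rw [h2dt] at hecb
  have hX : 0 < ∑ f ∈ prps d k q, Real.exp (s * (ρ / q) * (Xc c f).card) :=
    sum_pos (fun f _ => Real.exp_pos _) hne
  have hlogX : Real.log (∑ f ∈ prps d k q, Real.exp (s * (ρ / q) * (Xc c f).card)) ≤
      Real.log (ZZ d k q) + NN d k / q * (ρ / q) * (s + b₀) := by
    have := Real.log_le_log hX H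
    rwa [Real.log_mul hZ.ne' (Real.exp_pos _).ne', Real.log_exp] at this
  have hVN : 0 ≤ (V.card : ℝ) / (d * NN d k) := by positivity
  have hB : Real.log (∑ f ∈ prps d k q, Real.exp (t * ∑ v ∈ V, F f v)) ≤
      Real.log (ZZ d k q) + (V.card : ℝ) / (d * NN d k) * (NN d k / q * (ρ / q) * (s + b₀)) +
        NN d k / (d : ℝ) ^ 19 := by
    have h1 := mul_le_mul_of_nonneg_left hlogX hVN
    have h2 : Real.log (∑ f ∈ prps d k q, Real.exp (t * ∑ v ∈ V, F f v)) ≤ _ := hecb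
    nlinarith [h1, h2, herr]
  have hB' : ∑ f ∈ prps d k q, Real.exp (t * ∑ v ∈ V, F f v) ≤
      ZZ d k q * Real.exp ((V.card : ℝ) / (d * NN d k) * (NN d k / q * (ρ / q) * (s + b₀)) +
        NN d k / (d : ℝ) ^ 19) := by
    rw [← Real.exp_log hpos]
    calc _ ≤ Real.exp (Real.log (ZZ d k q) + (V.card : ℝ) / (d * NN d k) * (NN d k / q * (ρ / q) * (s + b₀)) +
        NN d k / (d : ℝ) ^ 19) := Real.exp_le_exp.2 hB
      _ = _ := by rw [add_assoc, Real.exp_add, Real.exp_log hZ]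
  have h5 : (P.card : ℝ) ≤ ZZ d k q * Real.exp ((V.card : ℝ) / (d * NN d k) *
      (NN d k / q * (ρ / q) * (s + b₀)) + NN d k / (d : ℝ) ^ 19) * Real.exp (-E0) := by
    have h6 := mul_le_mul_of_nonneg_right (hmark.trans hB') (Real.exp_pos (-E0)).le
    rwa [mul_assoc, ← Real.exp_add, add_neg_cancel, Real.exp_zero, mul_one] at h6
  refine h5.trans ?_
  rw [mul_assoc, ← Real.exp_add]
  refine mul_le_mul_of_nonneg_left (Real.exp_le_exp.2 ?_) hZ.le
  have h7 : (V.card : ℝ) / (d * NN d k) * (NN d k / q * (ρ / q) * (s + b₀)) =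
      ρ * T6 d * A'.card / (2 * d * (q : ℝ) ^ 2) * (2 * (s + b₀)) := by
    rw [hVc]
    field_simp
  have h8 : E0 = ρ * T6 d * A'.card / (2 * d * (q : ℝ) ^ 2) * (2 * s + ε) := by
    rw [hE0]
    field_simp
  have h9 : ρ * T6 d * ε / (4 * d * (q : ℝ) ^ 2) * A'.card =
      ρ * T6 d * A'.card / (2 * d * (q : ℝ) ^ 2) * (ε / 2) := by
    field_simp
    ring
  rw [h7, h8, h9]
  have h10 : 0 ≤ ρ * T6 d * A'.card / (2 * d * (q : ℝ) ^ 2) := by positivity
  have h11 := mul_le_mul_of_nonneg_left hε h10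
  nlinarith [h11]

open scoped Classical in
theorem rare_balance (ε : ℝ) (hε : 0 < ε) : Ev fun d k q => ∀ (c : Fin q) (σ : Stp d) (b : Bool),
    Rare d k q fun f => NN d k / (d : ℝ) ^ 5 ≤
      (((cls b d k).filter fun x => ε ≤ |yv c f x + yv c f (x + sv σ) - 2|).card : ℝ) := by
  set b₀ : ℝ := min (ε / 4) (1 / 2) with hb₀
  have hb0 : 0 < b₀ := lt_min (by linarith) (by norm_num)
  obtain ⟨ρ, hρ, hρ1, hE⟩ := Nc_tilt b₀ hb0 (min_le_right _ _)
  have h1 := Ev_large (max 35 (4 * (7 / 2) ^ 6 / (ρ * ε)))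
  have h2 := Ev_pow (fun d q => 4 * 2 ^ d * (d : ℝ) ^ 21 * Real.log q)
  have h3 := Ev_NN (fun d _ => (d : ℝ) ^ 18)
  have h4 := Ev_d rare_half
  refine (((hE.and h1).and h2).and (h3.and h4)).mono fun d k q h => ?_
  obtain ⟨⟨⟨hE, hM⟩, hpow⟩, hNN, hrh⟩ := h
  obtain ⟨hMq, hMqd, hMd, hMk⟩ := hM
  have h35q : (35 : ℝ) ≤ q := (le_max_left _ _).trans hMq
  have h35d : (35 : ℝ) ≤ d := (le_max_left _ _).trans hMd
  have h35k : (35 : ℝ) ≤ k := (le_max_left _ _).trans hMk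
  have hd : 35 ≤ d := by exact_mod_cast h35d
  have hk : 35 ≤ k := by exact_mod_cast h35k
  have hq : 35 ≤ q := by exact_mod_cast h35q
  have hqd : (q : ℝ) ≤ d := by
    have h5 : (35 : ℝ) * q ≤ max 35 (4 * (7 / 2) ^ 6 / (ρ * ε)) * q :=
      mul_le_mul_of_nonneg_right (le_max_left _ _) (Nat.cast_nonneg _)
    linarith
  have hbig : 4 * (7 / 2) ^ 6 / (ρ * ε) ≤ (d : ℝ) := (le_max_right _ _).trans hMd
  have hd0 : (0 : ℝ) < d := by linarith
  have hq0 : (0 : ℝ) < q := by linarith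
  have hN : 0 < NN d k := by unfold NN; positivity
  have herr : 4 * 2 ^ d * (d : ℝ) ^ 2 * NN d k * Real.log q / 2 ^ k ≤ NN d k / (d : ℝ) ^ 19 := by
    rw [div_le_div_iff₀ (by positivity) (by positivity)]
    calc 4 * 2 ^ d * (d : ℝ) ^ 2 * NN d k * Real.log q * (d : ℝ) ^ 19 =
        NN d k * (4 * 2 ^ d * (d : ℝ) ^ 21 * Real.log q) := by ring
      _ ≤ NN d k * 2 ^ k := mul_le_mul_of_nonneg_left hpow hN.le
  have hG : (d : ℝ) ^ 2 ≤ ρ * T6 d * ε / (4 * d * (q : ℝ) ^ 2) := by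
    rw [le_div_iff₀ (by positivity)]
    have h5 := (T6_bounds hd).1
    have h6 : (d : ℝ) ^ 2 * (4 * d * (q : ℝ) ^ 2) ≤ 4 * (d : ℝ) ^ 5 := by
      have h7 : (q : ℝ) ^ 2 ≤ (d : ℝ) ^ 2 := pow_le_pow_left₀ hq0.le hqd 2
      calc (d : ℝ) ^ 2 * (4 * d * (q : ℝ) ^ 2) = 4 * (d : ℝ) ^ 3 * (q : ℝ) ^ 2 := by ring
        _ ≤ 4 * (d : ℝ) ^ 3 * (d : ℝ) ^ 2 := mul_le_mul_of_nonneg_left h7 (by positivity)
        _ = 4 * (d : ℝ) ^ 5 := by ring
    have h8 : 4 ≤ ρ * ε * (2 / 7) ^ 6 * (d : ℝ) := by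
      rw [div_le_iff₀ (by positivity)] at hbig
      have h9 := mul_le_mul_of_nonneg_left hbig (by positivity : (0 : ℝ) ≤ (2 / 7) ^ 6)
      calc (4 : ℝ) = (2 / 7) ^ 6 * (4 * (7 / 2) ^ 6) := by norm_num
        _ ≤ (2 / 7) ^ 6 * (d * (ρ * ε)) := h9
        _ = _ := by ring
    calc (d : ℝ) ^ 2 * (4 * d * (q : ℝ) ^ 2) ≤ 4 * (d : ℝ) ^ 5 := h6
      _ ≤ ρ * ε * (2 / 7) ^ 6 * (d : ℝ) * (d : ℝ) ^ 5 := mul_le_mul_of_nonneg_right h8 (by positivity)
      _ = ρ * ε * (2 * (d : ℝ) / 7) ^ 6 := by ring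
      _ ≤ ρ * ε * T6 d := mul_le_mul_of_nonneg_left h5 (by positivity)
      _ = ρ * T6 d * ε := by ring
  have h2b : 2 * b₀ ≤ ε / 2 := by
    have := min_le_left (ε / 4) (1 / 2)
    linarith
  intro c σ b
  have hhalf : ∀ s : ℝ, (s = 1 ∨ s = -1) →
      (((prps d k q).filter fun f => NN d k / (2 * (d : ℝ) ^ 5) ≤
        (((cls b d k).filter fun x => ε ≤ s * (yv c f x + yv c f (x + sv σ) - 2)).card : ℝ)).card : ℝ) ≤
      ZZ d k q * Real.exp (-(2 * (NN d k / (d : ℝ) ^ 18))) := by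
    intro s hs
    refine hrh k q (fun f => (cls b d k).filter fun x => ε ≤ s * (yv c f x + yv c f (x + sv σ) - 2))
      (ρ * T6 d * ε / (4 * d * (q : ℝ) ^ 2)) hG fun A' hA' => ?_
    exact key hd (by omega) (by omega) ρ b₀ ε s hρ c σ hs h2b (hE c s hs) herr A' hA'
      (fun f => (cls b d k).filter fun x => ε ≤ s * (yv c f x + yv c f (x + sv σ) - 2))
      fun f x hx => (mem_filter.1 hx).2
  refine rare_union (by omega) hNN
    (fun f => (cls b d k).filter fun x => ε ≤ |yv c f x + yv c f (x + sv σ) - 2|)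
    (fun f => (cls b d k).filter fun x => ε ≤ 1 * (yv c f x + yv c f (x + sv σ) - 2))
    (fun f => (cls b d k).filter fun x => ε ≤ (-1) * (yv c f x + yv c f (x + sv σ) - 2))
    ?_ (hhalf 1 (Or.inl rfl)) (hhalf (-1) (Or.inr rfl))
  intro f x hx
  rw [mem_filter] at hx
  rw [mem_union, mem_filter, mem_filter]
  rcases le_total 0 (yv c f x + yv c f (x + sv σ) - 2) with h | h
  · left
    refine ⟨hx.1, ?_⟩
    have := hx.2
    rw [abs_of_nonneg h] at this
    linarith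
  · right
    refine ⟨hx.1, ?_⟩
    have := hx.2
    rw [abs_of_nonpos h] at this
    linarith

end Pool.Agent.LIN
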