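import Pool.Agent.Lib_MP_2c424f_lin.L4
import Pool.Agent.Lib_MP_2c424f_lin.L1b

/-!
# H30 L6b: local density of a colour against its conditional probability (6.3)(ii)

Resample the class `b` itself: `f v`, `v ∈ cls b`, are independent with `P(f v = c) = zz f v c/av f v =: p_v`.
For `U ⊆ cls b`, `|θ| ≤ 1`: `E exp (θ ∑_{v∈U} (1[f v=c] - p_v)) = E ∏_{v ∈ U} (mean of exp (θ(1[f v = c] - p_v))) ≤ exp (θ²|U|)`
(`fib_sum`, `fm_prod` with `φ v a = exp (θ (1[a = c] - p_v))`, `exp y ≤ 1 + y + y²`).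
`A f = {x ∈ cls b : ε/q ≤ s Av(..) x}`, `U = ⋃_{x∈A'} UU x`: `P(A' ⊆ A f) ≤ exp (-(θ ε/q - θ²) T6 |A'|)`, `θ = ε/(2q)` (and
`≤ 1`): `G = ε²T6/(4q²) ≥ d²` for large `d`; `rare_half`, `rare_union` for the two signs.
-/

set_option autoImplicit false

open Finset Filter

namespace Pool.Agent.LIN

open Pool.Agent.LO

private theorem L6b_compl {d k q : ℕ} (f : Site d k → Fin q) (v : Site d k) :
    ((SS f v)ᶜ).card = av f v := by
  unfold av
  rw [Finset.card_compl, Fintype.card_fin]

private theorem L6b_pos {d k q : ℕ} {f : Site d k → Fin q} (hf : Prp f) (v : Site d k) :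
    1 ≤ av f v := by
  rw [← L6b_compl, Nat.one_le_iff_ne_zero, Finset.card_ne_zero]
  refine ⟨f v, ?_⟩
  rw [Finset.mem_compl]
  unfold SS
  rw [Finset.mem_image]
  rintro ⟨σ, -, h⟩
  exact hf v σ h

private theorem L6b_factor {d k q : ℕ} (c : Fin q) {f : Site d k → Fin q} (hf : Prp f)
    (v : Site d k) (t : ℝ) (ht : |t| ≤ 1) :
    (∑ a ∈ (SS f v)ᶜ, Real.exp (t * ((if a = c then (1 : ℝ) else 0) - zz f v c / (av f v : ℝ)))) /
      (av f v : ℝ) ≤ Real.exp (t ^ 2) := by
  have hn : (1 : ℝ) ≤ (av f v : ℝ) := by exact_mod_cast L6b_pos hf v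
  set n : ℝ := (av f v : ℝ) with hn'
  have hz0 : 0 ≤ zz f v c := by unfold zz; split_ifs <;> norm_num
  have hz1 : zz f v c ≤ 1 := by unfold zz; split_ifs <;> norm_num
  set p : ℝ := zz f v c / n with hp
  have hp0 : 0 ≤ p := by positivity
  have hp1 : p ≤ 1 := by
    rw [hp, div_le_one (by linarith)]
    linarith
  have hnp : n * p = zz f v c := by
    rw [hp]; field_simp
  rw [div_le_iff₀ (by linarith)]
  have h1 : ∀ a ∈ (SS f v)ᶜ, Real.exp (t * ((if a = c then (1 : ℝ) else 0) - p)) ≤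
      1 + t * ((if a = c then (1 : ℝ) else 0) - p) + t ^ 2 := by
    intro a _
    set w : ℝ := (if a = c then (1 : ℝ) else 0) - p with hw
    have hw1 : |w| ≤ 1 := by
      rw [hw, abs_le]
      split_ifs <;> constructor <;> linarith
    have h2 : |t * w| ≤ 1 := by
      rw [abs_mul]
      calc |t| * |w| ≤ 1 * 1 := mul_le_mul ht hw1 (abs_nonneg _) (by norm_num)
        _ = 1 := one_mul 1
    have h3 := (abs_le.1 (Real.abs_exp_sub_one_sub_id_le h2)).2
    have h4 : (t * w) ^ 2 ≤ t ^ 2 := by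
      rw [mul_pow]
      have : w ^ 2 ≤ 1 := by
        rw [← sq_abs]
        exact pow_le_one₀ (abs_nonneg _) hw1
      nlinarith [sq_nonneg t]
    linarith
  have hcard : (((SS f v)ᶜ).card : ℝ) = n := by rw [L6b_compl]
  have hind : ∑ a ∈ (SS f v)ᶜ, (if a = c then (1 : ℝ) else 0) = zz f v c := by
    rw [Finset.sum_ite_eq' (SS f v)ᶜ c]
    unfold zz
    simp only [Finset.mem_compl]
    by_cases hc : c ∈ SS f v
    · simp [hc]
    · simp [hc]
  calc ∑ a ∈ (SS f v)ᶜ, Real.exp (t * ((if a = c then (1 : ℝ) else 0) - p))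
      ≤ ∑ a ∈ (SS f v)ᶜ, (1 + t * ((if a = c then (1 : ℝ) else 0) - p) + t ^ 2) :=
        Finset.sum_le_sum h1
    _ = n + t * (zz f v c - n * p) + n * t ^ 2 := by
        rw [Finset.sum_add_distrib, Finset.sum_add_distrib, ← Finset.mul_sum,
          Finset.sum_sub_distrib, hind, Finset.sum_const, Finset.sum_const, Finset.sum_const,
          nsmul_eq_mul, nsmul_eq_mul, nsmul_eq_mul, hcard, mul_one]
    _ = n * (1 + t ^ 2) := by rw [hnp]; ring
    _ ≤ Real.exp (t ^ 2) * n := by
        rw [mul_comm]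
        refine mul_le_mul_of_nonneg_right ?_ (by linarith)
        have := Real.add_one_le_exp (t ^ 2)
        linarith

/-- exponential moments -/
private theorem L6b_moment {d k q : ℕ} (hk : 1 ≤ k) (b : Bool) (c : Fin q) (U : Finset (Site d k))
    (hU : U ⊆ cls b d k) (t : ℝ) (ht : |t| ≤ 1) :
    ∑ f ∈ prps d k q, ∏ v ∈ U, Real.exp (t * ((if f v = c then (1 : ℝ) else 0) -
      zz f v c / (av f v : ℝ))) ≤ ZZ d k q * Real.exp (t ^ 2 * U.card) := by
  classical
  rw [fib_sum hk b]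
  have h1 : ∀ f ∈ prps d k q, fm b (fun f => ∏ v ∈ U, Real.exp (t *
      ((if f v = c then (1 : ℝ) else 0) - zz f v c / (av f v : ℝ)))) f ≤
      Real.exp (t ^ 2 * U.card) := by
    intro f hf
    have hf' : Prp f := (mem_filter.1 hf).2
    have h2 : fm b (fun f => ∏ v ∈ U, Real.exp (t *
        ((if f v = c then (1 : ℝ) else 0) - zz f v c / (av f v : ℝ)))) f =
        fm b (fun h => ∏ v ∈ U, (fun (v : Site d k) (a : Fin q) => Real.exp (t *
        ((if a = c then (1 : ℝ) else 0) - zz f v c / (av f v : ℝ)))) v (h v)) f := by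
      unfold fm
      congr 1
      refine Finset.sum_congr rfl fun h hh => ?_
      refine Finset.prod_congr rfl fun v hv => ?_
      have h3 : SS h v = SS f v := fib_SS hk b hh v (hU hv)
      have h4 : zz h v c = zz f v c := by unfold zz; rw [h3]
      have h5 : av h v = av f v := by unfold av; rw [h3]
      simp only [h4, h5]
    rw [h2, fm_prod hk b hf' U hU (fun (v : Site d k) (a : Fin q) => Real.exp (t *
        ((if a = c then (1 : ℝ) else 0) - zz f v c / (av f v : ℝ))))]
    calc ∏ v ∈ U, (∑ a ∈ (SS f v)ᶜ, Real.exp (t * ((if a = c then (1 : ℝ) else 0) -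
          zz f v c / (av f v : ℝ)))) / (av f v : ℝ) ≤ ∏ _v ∈ U, Real.exp (t ^ 2) :=
          Finset.prod_le_prod (fun v _ => by positivity) fun v _ => L6b_factor c hf' v t ht
      _ = Real.exp (t ^ 2 * U.card) := by
          rw [Finset.prod_const, ← Real.exp_nat_mul, mul_comm]
  calc _ ≤ ∑ _f ∈ prps d k q, Real.exp (t ^ 2 * U.card) := Finset.sum_le_sum h1
    _ = _ := by
        rw [Finset.sum_const, nsmul_eq_mul]
        rfl

open scoped Classical in
private theorem L6b_key {d k q : ℕ} (hd : 35 ≤ d) (hk : 2 ≤ k) (b : Bool) (c : Fin q)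
    (θ s e : ℝ) (hs : |s| = 1) (hθ0 : 0 ≤ θ) (hθ1 : θ ≤ 1) (A' : Finset (Site d k))
    (hA' : sep A') :
    (((prps d k q).filter fun f => A' ⊆ (cls b d k).filter fun x =>
      e ≤ s * Av (fun v => (if f v = c then (1 : ℝ) else 0) - zz f v c / (av f v : ℝ)) x).card : ℝ) ≤
      ZZ d k q * Real.exp (-((θ * e - θ ^ 2) * T6 d * A'.card)) := by
  classical
  have hZ : 0 ≤ ZZ d k q := by unfold ZZ; positivity
  by_cases hcl : A' ⊆ cls b d k
  swap
  · have h0 : ((prps d k q).filter fun f => A' ⊆ (cls b d k).filter fun x =>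
        e ≤ s * Av (fun v => (if f v = c then (1 : ℝ) else 0) - zz f v c / (av f v : ℝ)) x) = ∅ := by
      rw [Finset.filter_eq_empty_iff]
      intro f _ h
      exact hcl (h.trans (Finset.filter_subset _ _))
    rw [h0, Finset.card_empty, Nat.cast_zero]
    positivity
  have hT : (0 : ℝ) < T6 d := by
    have h1 := (T6_bounds hd).1
    have h2 : (0 : ℝ) < (2 * (d : ℝ) / 7) ^ 6 := by
      have : (35 : ℝ) ≤ d := by exact_mod_cast hd
      positivity
    linarith
  set U : Finset (Site d k) := A'.biUnion UU with hU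
  have hdis : (A' : Set (Site d k)).PairwiseDisjoint UU := fun x hx y hy hxy => hA' x hx y hy hxy
  have hUc : (U.card : ℝ) = A'.card * T6 d := by
    rw [hU, Finset.card_biUnion hdis, Finset.sum_congr rfl fun x _ => UU_card hk x,
      Finset.sum_const, smul_eq_mul]
    push_cast
    ring
  have hUcl : U ⊆ cls b d k := by
    rw [hU]
    refine Finset.biUnion_subset.2 fun x hx => UU_cls (by omega) b (hcl hx)
  have ht : |θ * s| ≤ 1 := by
    rw [abs_mul, hs, mul_one, abs_of_nonneg hθ0]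
    exact hθ1
  have hmom := L6b_moment (q := q) (by omega) b c U hUcl (θ * s) ht
  have hs2 : s ^ 2 = 1 := by rw [← sq_abs, hs, one_pow]
  -- Markov
  have hM : (((prps d k q).filter fun f => A' ⊆ (cls b d k).filter fun x =>
      e ≤ s * Av (fun v => (if f v = c then (1 : ℝ) else 0) - zz f v c / (av f v : ℝ)) x).card : ℝ) ≤
      Real.exp (-(θ * e * T6 d * A'.card)) * ∑ f ∈ prps d k q, ∏ v ∈ U, Real.exp ((θ * s) *
        ((if f v = c then (1 : ℝ) else 0) - zz f v c / (av f v : ℝ))) := by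
    rw [Finset.card_eq_sum_ones, Nat.cast_sum, Nat.cast_one, Finset.mul_sum, Finset.sum_filter]
    refine Finset.sum_le_sum fun f _ => ?_
    by_cases hP : A' ⊆ (cls b d k).filter fun x =>
        e ≤ s * Av (fun v => (if f v = c then (1 : ℝ) else 0) - zz f v c / (av f v : ℝ)) x
    · rw [if_pos hP, ← Real.exp_sum, ← Real.exp_add, ← Finset.mul_sum]
      refine Real.one_le_exp ?_
      have h1 : ∑ v ∈ U, ((if f v = c then (1 : ℝ) else 0) - zz f v c / (av f v : ℝ)) =
          ∑ x ∈ A', T6 d * Av (fun v => (if f v = c then (1 : ℝ) else 0) -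
            zz f v c / (av f v : ℝ)) x := by
        rw [hU, Finset.sum_biUnion hdis]
        refine Finset.sum_congr rfl fun x _ => ?_
        rw [Av_eq hk]
        field_simp
      have h2 : (A'.card : ℝ) * (T6 d * e) ≤ s * ∑ v ∈ U, ((if f v = c then (1 : ℝ) else 0) -
          zz f v c / (av f v : ℝ)) := by
        rw [h1, Finset.mul_sum]
        calc (A'.card : ℝ) * (T6 d * e) = ∑ _x ∈ A', (T6 d * e : ℝ) := by
              rw [Finset.sum_const, nsmul_eq_mul]
          _ ≤ _ := by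
              refine Finset.sum_le_sum fun x hx => ?_
              have h3 := (Finset.mem_filter.1 (hP hx)).2
              calc (T6 d : ℝ) * e ≤ T6 d * (s * Av (fun v => (if f v = c then (1 : ℝ) else 0) -
                    zz f v c / (av f v : ℝ)) x) := mul_le_mul_of_nonneg_left h3 hT.le
                _ = _ := by ring
      have h4 := mul_le_mul_of_nonneg_left h2 hθ0
      nlinarith
    · rw [if_neg hP]
      positivity
  refine hM.trans ?_
  calc _ ≤ Real.exp (-(θ * e * T6 d * A'.card)) *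
        (ZZ d k q * Real.exp ((θ * s) ^ 2 * U.card)) :=
        mul_le_mul_of_nonneg_left hmom (Real.exp_pos _).le
    _ = ZZ d k q * (Real.exp (-(θ * e * T6 d * A'.card)) * Real.exp ((θ * s) ^ 2 * U.card)) := by
        ring
    _ = _ := by
        rw [← Real.exp_add, mul_pow, hs2, hUc]
        congr 2
        ring

open scoped Classical in
theorem rare_self (ε : ℝ) (hε : 0 < ε) : Ev fun d k q => ∀ (c : Fin q) (b : Bool),
    Rare d k q fun f => NN d k / (d : ℝ) ^ 5 ≤
      (((cls b d k).filter fun x =>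
        ε / q ≤ |Av (fun v => (if f v = c then (1 : ℝ) else 0) - zz f v c / (av f v : ℝ)) x|).card : ℝ) := by
  classical
  -- the constant
  set M : ℝ := max 35 (max (2 * (7 / 2) ^ 3 / ε) ε) with hM
  have hM1 : 35 ≤ M := le_max_left _ _
  have hM2 : 2 * (7 / 2) ^ 3 / ε ≤ M := (le_max_left _ _).trans (le_max_right _ _)
  have hM3 : ε ≤ M := (le_max_right _ _).trans (le_max_right _ _)
  refine (((Ev_d rare_half).and (Ev_large M)).and (Ev_NN fun d _ => (d : ℝ) ^ 18)).mono
    fun d k q hh => ?_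
  obtain ⟨⟨hhalf, hq, hqd, hd, hk⟩, hN⟩ := hh
  intro c b
  have hd35 : (35 : ℝ) ≤ d := by linarith
  have hd35' : 35 ≤ d := by exact_mod_cast hd35
  have hk2 : 2 ≤ k := by
    have : (2 : ℝ) ≤ k := by linarith
    exact_mod_cast this
  have hq1 : (1 : ℝ) ≤ q := by linarith
  have hqd' : (q : ℝ) ≤ d := by nlinarith
  set θ : ℝ := ε / (2 * q) with hθ
  have hθ0 : 0 ≤ θ := by positivity
  have hθ1 : θ ≤ 1 := by
    rw [hθ, div_le_one (by positivity)]
    linarith
  have hG : (d : ℝ) ^ 2 ≤ (θ * (ε / q) - θ ^ 2) * T6 d := by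
    have h1 := (T6_bounds hd35').1
    have h2 : θ * (ε / q) - θ ^ 2 = ε ^ 2 / (4 * q ^ 2) := by
      rw [hθ]; field_simp; ring
    rw [h2]
    have h3 : 2 * (7 / 2) ^ 3 ≤ ε * d := by
      rw [div_le_iff₀ hε] at hM2
      nlinarith
    have h4 : (d : ℝ) ^ 2 ≤ ε ^ 2 / (4 * d ^ 2) * (2 * (d : ℝ) / 7) ^ 6 := by
      have h5 : ε ^ 2 / (4 * (d : ℝ) ^ 2) * (2 * (d : ℝ) / 7) ^ 6 =
          (d : ℝ) ^ 2 * ((ε * d) / (2 * (7 / 2) ^ 3)) ^ 2 := by
        field_simp
        ring
      rw [h5]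
      have h6 : 1 ≤ (ε * d) / (2 * (7 / 2) ^ 3) := by
        rw [le_div_iff₀ (by norm_num)]
        linarith
      have h7 : 1 ≤ ((ε * d) / (2 * (7 / 2) ^ 3)) ^ 2 := one_le_pow₀ h6
      nlinarith [sq_nonneg (d : ℝ)]
    refine h4.trans ?_
    have h8 : ε ^ 2 / (4 * (d : ℝ) ^ 2) ≤ ε ^ 2 / (4 * (q : ℝ) ^ 2) := by
      apply div_le_div_of_nonneg_left (by positivity) (by positivity)
      nlinarith
    exact mul_le_mul h8 h1 (by positivity) (by positivity)
  have hN19 : 0 ≤ NN d k / (d : ℝ) ^ 19 := by unfold NN; positivity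
  have hZ : 0 ≤ ZZ d k q := by unfold ZZ; positivity
  have half : ∀ s : ℝ, |s| = 1 → (((prps d k q).filter fun f => NN d k / (2 * (d : ℝ) ^ 5) ≤
      (((cls b d k).filter fun x => ε / q ≤ s * Av (fun v => (if f v = c then (1 : ℝ) else 0) -
        zz f v c / (av f v : ℝ)) x).card : ℝ)).card : ℝ) ≤
      ZZ d k q * Real.exp (-(2 * (NN d k / (d : ℝ) ^ 18))) := by
    intro s hs
    refine hhalf k q (fun f => (cls b d k).filter fun x => ε / q ≤ s * Av (fun v =>
      (if f v = c then (1 : ℝ) else 0) - zz f v c / (av f v : ℝ)) x)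
      ((θ * (ε / q) - θ ^ 2) * T6 d) hG ?_
    intro A' hA'
    refine (L6b_key hd35' hk2 b c θ s (ε / q) hs hθ0 hθ1 A' hA').trans ?_
    refine mul_le_mul_of_nonneg_left ?_ hZ
    rw [Real.exp_le_exp]
    linarith
  refine rare_union (by omega) hN _ (fun f => (cls b d k).filter fun x => ε / q ≤ (1 : ℝ) *
      Av (fun v => (if f v = c then (1 : ℝ) else 0) - zz f v c / (av f v : ℝ)) x)
      (fun f => (cls b d k).filter fun x => ε / q ≤ (-1 : ℝ) *
      Av (fun v => (if f v = c then (1 : ℝ) else 0) - zz f v c / (av f v : ℝ)) x) ?_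
      (half 1 (by norm_num)) (half (-1) (by norm_num))
  intro f x hx
  obtain ⟨h1, h2⟩ := Finset.mem_filter.1 hx
  rw [Finset.mem_union, Finset.mem_filter, Finset.mem_filter]
  rcases le_abs.1 h2 with h3 | h3
  · left
    exact ⟨h1, by linarith⟩
  · right
    exact ⟨h1, by linarith⟩

end Pool.Agent.LIN
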