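import Pool.Agent.Lib_MP_2c424f_lin.L7f

/-!
# H30 L7b: the rare events for `z`, `ζ`, `ξ`

* `rare_z`: `rare_loc` with `g v f = zz f v c` and `g v f = 1 - zz f v c` (`fm_zz`), `rare_union`.
* `rare_d`: `g v f = |zz f v c - zt f v c|`; on the fibre `zt` is constant `= ζ` and `zz ∈ {0,1}` has mean `ζ`, so
  `fm = ζ(1-ζ) + (1-ζ)ζ`.
* `rare_x`: `g v f = (1/q) ∑_c zz f v c · PP (zz f · c) v`; `fm = (1/q) ∑_c ζ^c m^c ≤ q/(5d)`
  (`fm_zm`), `≤ ε/2` in the regime.  Pointwise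
  `xi f v + PP (xi f) v ≤ 1 + g v f` (`z + m ≤ 1 + z m`, `av_eq`, sum over `c`).  `rare_loc` with `ε/2`.
(The locality `Loc b g`: `zz f v c` depends on the neighbours of `v`; `zt`, `PP (zz ·)` at `v ∈ cls b` depend on the
class `b`.)
-/
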