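import Pool.Agent.Lib_MP_2c424f_lin.L2b
import Pool.Agent.Lib_MP_2c424f_lin.L3b
import Pool.Agent.Lib_MP_2c424f_lin.L6b
import Pool.Agent.Lib_MP_2c424f_lin.L7b

/-!
# H30 Lreg: almost all colourings are regular

If `¬ Reg e c f` then one of the sets in `rare_rainbow`, `rare_x`, `rare_balance` (`2d` steps), `rare_self`, `rare_z`,
`rare_d` (each for the two classes) has more than `N/d^5` elements (`nS` = sum over the two classes).  At most
`2(5 + 2d) ≤ 5d` rare events (for large `d`): `5d exp (-N/d^18) ≤ exp (-N/d^19)` for large `k`.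
-/

set_option autoImplicit false

open Finset Filter

namespace Pool.Agent.LIN

open Pool.Agent.LO

open scoped Classical in
private theorem lreg_split {d k : ℕ} (P : Site d k → Prop) (x : ℝ) (h : ¬ nS P ≤ 2 * x) :
    ∃ b : Bool, x ≤ (((cls b d k).filter P).card : ℝ) := by
  by_contra hcon
  push Not at hcon
  apply h
  have h1 := hcon true
  have h0 := hcon false
  have hs : univ.filter P = (cls true d k).filter P ∪ (cls false d k).filter P := by
    ext y
    simp only [cls, evs, ods, mem_filter, mem_univ, true_and, mem_union, if_true,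
      Bool.false_eq_true, if_false]
    tauto
  have h2 : nS P ≤ (((cls true d k).filter P).card : ℝ) + (((cls false d k).filter P).card : ℝ) := by
    unfold nS
    rw [hs]
    exact_mod_cast card_union_le _ _
  linarith

open scoped Classical in
theorem reg_rare (e : ℝ) (he : 0 < e) : Ev fun d k q => ∀ c : Fin q,
    (((prps d k q).filter fun f => ¬ Reg e c f).card : ℝ) ≤
      ZZ d k q * Real.exp (-(NN d k / (d : ℝ) ^ 19)) := by
  have H := (((((((rare_rainbow e he).and (rare_x e he)).and (rare_balance e he)).and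
    (rare_self e he)).and (rare_z e he)).and (rare_d e he)).and (Ev_large 10)).and
    (Ev_NN fun d _ => (d : ℝ) ^ 19 * Real.log (5 * d))
  refine H.mono fun d k q h c => ?_
  obtain ⟨⟨⟨⟨⟨⟨⟨h1, h2⟩, h3⟩, h4⟩, h5⟩, h6⟩, h7⟩, h8⟩ := h
  obtain ⟨-, -, hd10, -⟩ := h7
  have hd0 : (0 : ℝ) < d := by linarith
  set M : ℝ := ZZ d k q * Real.exp (-(NN d k / (d : ℝ) ^ 18)) with hM
  have hZ : 0 ≤ ZZ d k q := by unfold ZZ; positivity
  have hM0 : 0 ≤ M := by positivity
  -- the rare sets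
  set R1 : Bool → Finset (Site d k → Fin q) := fun b => (prps d k q).filter fun f =>
    NN d k / (d : ℝ) ^ 5 ≤
      (((cls b d k).filter fun x => 2 + e ≤ Av (fun v => (q : ℝ) / (av f v : ℝ)) x).card : ℝ) with hR1
  set R2 : Bool → Finset (Site d k → Fin q) := fun b => (prps d k q).filter fun f =>
    NN d k / (d : ℝ) ^ 5 ≤
      (((cls b d k).filter fun x => 1 + e ≤ Av (fun v => xi f v + PP (xi f) v) x).card : ℝ) with hR2
  set R3 : Bool → Stp d → Finset (Site d k → Fin q) := fun b σ => (prps d k q).filter fun f =>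
    NN d k / (d : ℝ) ^ 5 ≤
      (((cls b d k).filter fun x => e ≤ |yv c f x + yv c f (x + sv σ) - 2|).card : ℝ) with hR3
  set R4 : Bool → Finset (Site d k → Fin q) := fun b => (prps d k q).filter fun f =>
    NN d k / (d : ℝ) ^ 5 ≤
      (((cls b d k).filter fun x =>
        e / q ≤ |Av (fun v => (if f v = c then (1 : ℝ) else 0) - zz f v c / (av f v : ℝ)) x|).card : ℝ)
    with hR4
  set R5 : Bool → Finset (Site d k → Fin q) := fun b => (prps d k q).filter fun f =>
    NN d k / (d : ℝ) ^ 5 ≤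
      (((cls b d k).filter fun x => e ≤ |Av (fun v => zz f v c - zt f v c) x|).card : ℝ) with hR5
  set R6 : Bool → Finset (Site d k → Fin q) := fun b => (prps d k q).filter fun f =>
    NN d k / (d : ℝ) ^ 5 ≤
      (((cls b d k).filter fun x =>
        e ≤ Av (fun v => |zz f v c - zt f v c| - 2 * (zt f v c * (1 - zt f v c))) x).card : ℝ) with hR6
  have k1 : ∀ b, ((R1 b).card : ℝ) ≤ M := fun b => h1 b
  have k2 : ∀ b, ((R2 b).card : ℝ) ≤ M := fun b => h2 b
  have k3 : ∀ b σ, ((R3 b σ).card : ℝ) ≤ M := fun b σ => h3 c σ b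
  have k4 : ∀ b, ((R4 b).card : ℝ) ≤ M := fun b => h4 c b
  have k5 : ∀ b, ((R5 b).card : ℝ) ≤ M := fun b => h5 c b
  have k6 : ∀ b, ((R6 b).card : ℝ) ≤ M := fun b => h6 c b
  have hsub : ((prps d k q).filter fun f => ¬ Reg e c f) ⊆ univ.biUnion fun b : Bool =>
      ((((R1 b ∪ R2 b) ∪ (univ.biUnion fun σ => R3 b σ)) ∪ R4 b) ∪ R5 b) ∪ R6 b := by
    intro f hf
    rw [mem_filter] at hf
    obtain ⟨hfp, hr⟩ := hf
    by_contra hcon
    simp only [mem_biUnion, mem_univ, true_and, mem_union, not_exists, not_or] at hcon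
    apply hr
    refine ⟨?_, ?_, ?_, ?_, ?_, ?_⟩
    · by_contra hc
      obtain ⟨b, hb⟩ := lreg_split _ _ hc
      exact (hcon b).1.1.1.1.1 (mem_filter.2 ⟨hfp, hb⟩)
    · by_contra hc
      obtain ⟨b, hb⟩ := lreg_split _ _ hc
      exact (hcon b).1.1.1.1.2 (mem_filter.2 ⟨hfp, hb⟩)
    · intro σ
      by_contra hc
      obtain ⟨b, hb⟩ := lreg_split _ _ hc
      exact (hcon b).1.1.1.2 σ (mem_filter.2 ⟨hfp, hb⟩)
    · by_contra hc
      obtain ⟨b, hb⟩ := lreg_split _ _ hc
      exact (hcon b).1.1.2 (mem_filter.2 ⟨hfp, hb⟩)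
    · by_contra hc
      obtain ⟨b, hb⟩ := lreg_split _ _ hc
      exact (hcon b).1.2 (mem_filter.2 ⟨hfp, hb⟩)
    · by_contra hc
      obtain ⟨b, hb⟩ := lreg_split _ _ hc
      exact (hcon b).2 (mem_filter.2 ⟨hfp, hb⟩)
  have hb : ∀ b : Bool, ((((((R1 b ∪ R2 b) ∪ (univ.biUnion fun σ => R3 b σ)) ∪ R4 b) ∪ R5 b) ∪ R6 b).card : ℝ)
      ≤ (5 + 2 * d) * M := by
    intro b
    have e1 : ((R1 b ∪ R2 b).card : ℝ) ≤ (R1 b).card + (R2 b).card := by exact_mod_cast card_union_le _ _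
    have e2 : (((R1 b ∪ R2 b) ∪ (univ.biUnion fun σ => R3 b σ)).card : ℝ) ≤
        (R1 b ∪ R2 b).card + ((univ.biUnion fun σ => R3 b σ).card : ℝ) := by
      exact_mod_cast card_union_le _ _
    have e3 : ((univ.biUnion fun σ => R3 b σ).card : ℝ) ≤ 2 * d * M := by
      have : ((univ.biUnion fun σ => R3 b σ).card : ℝ) ≤ ∑ σ : Stp d, ((R3 b σ).card : ℝ) := by
        exact_mod_cast card_biUnion_le
      refine this.trans ((sum_le_sum fun σ _ => k3 b σ).trans ?_)
      rw [sum_const, card_univ, Fintype.card_prod, Fintype.card_fin, Fintype.card_bool, nsmul_eq_mul]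
      push_cast
      linarith
    have e4 : ((((R1 b ∪ R2 b) ∪ (univ.biUnion fun σ => R3 b σ)) ∪ R4 b).card : ℝ) ≤
        ((R1 b ∪ R2 b) ∪ (univ.biUnion fun σ => R3 b σ)).card + (R4 b).card := by
      exact_mod_cast card_union_le _ _
    have e5 : (((((R1 b ∪ R2 b) ∪ (univ.biUnion fun σ => R3 b σ)) ∪ R4 b) ∪ R5 b).card : ℝ) ≤
        (((R1 b ∪ R2 b) ∪ (univ.biUnion fun σ => R3 b σ)) ∪ R4 b).card + (R5 b).card := by
      exact_mod_cast card_union_le _ _
    have e6 : ((((((R1 b ∪ R2 b) ∪ (univ.biUnion fun σ => R3 b σ)) ∪ R4 b) ∪ R5 b) ∪ R6 b).card : ℝ) ≤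
        ((((R1 b ∪ R2 b) ∪ (univ.biUnion fun σ => R3 b σ)) ∪ R4 b) ∪ R5 b).card + (R6 b).card := by
      exact_mod_cast card_union_le _ _
    have := k1 b
    have := k2 b
    have := k4 b
    have := k5 b
    have := k6 b
    linarith
  have hcard : (((prps d k q).filter fun f => ¬ Reg e c f).card : ℝ) ≤ 5 * d * M := by
    have e1 : (((prps d k q).filter fun f => ¬ Reg e c f).card : ℝ) ≤
        ∑ b : Bool, ((((((R1 b ∪ R2 b) ∪ (univ.biUnion fun σ => R3 b σ)) ∪ R4 b) ∪ R5 b) ∪ R6 b).card : ℝ) := by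
      exact_mod_cast (card_le_card hsub).trans card_biUnion_le
    refine e1.trans ?_
    rw [Fintype.sum_bool]
    have := hb true
    have := hb false
    nlinarith
  refine hcard.trans ?_
  rw [hM]
  have hN : 0 ≤ NN d k := by unfold NN; positivity
  have h5d : (0 : ℝ) < 5 * d := by linarith
  have hexp : 5 * (d : ℝ) * Real.exp (-(NN d k / (d : ℝ) ^ 18)) ≤ Real.exp (-(NN d k / (d : ℝ) ^ 19)) := by
    have e1 : 5 * (d : ℝ) = Real.exp (Real.log (5 * d)) := (Real.exp_log h5d).symm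
    rw [e1, ← Real.exp_add]
    apply Real.exp_le_exp.2
    have e2 : Real.log (5 * d) ≤ NN d k / (d : ℝ) ^ 19 := by
      rw [le_div_iff₀ (by positivity)]
      linarith
    have e3 : NN d k / (d : ℝ) ^ 18 = d * (NN d k / (d : ℝ) ^ 19) := by
      field_simp
    have e4 : 0 ≤ NN d k / (d : ℝ) ^ 19 := by positivity
    rw [e3]
    nlinarith
  calc 5 * (d : ℝ) * (ZZ d k q * Real.exp (-(NN d k / (d : ℝ) ^ 18)))
      = ZZ d k q * (5 * (d : ℝ) * Real.exp (-(NN d k / (d : ℝ) ^ 18))) := by ring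
    _ ≤ ZZ d k q * Real.exp (-(NN d k / (d : ℝ) ^ 19)) := mul_le_mul_of_nonneg_left hexp hZ

end Pool.Agent.LIN
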