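import Pool.Agent.Lib_MP_2c424f_lin.D4
import Pool.Agent.Lib_MP_2c424f_lin.D5
import Pool.Agent.Lib_MP_2c424f_lin.L8
import Pool.Agent.Lib_MP_2c424f_lin.Lreg

/-!
# H30 D6: it is very unlikely that all blocks are bad

`D4 (δ/24)` gives `e1, M`; `reg_rare e1` shifted (`Ev.shift`), `Fb_rare (δ/24)`, `Ev_large`, `Ev_NN`.  If all blocks are
bad then `¬ Reg e1 c f` or `δ/24 NN d k < ∑ EB Fb` (`D5`; `Fb_rare` has `≤`); so the number is at most
`ZZ (exp (-N/d^19) + exp (-N/d^18)) ≤ ZZ exp (-N/d^20)`, `N = NN d (k+1)` large, `d ≥ 2`.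
-/

set_option autoImplicit false

open Finset Filter

namespace Pool.Agent.LIN

open Pool.Agent.LO

open scoped Classical in
theorem all_bad (δ : ℝ) (hδ : 0 < δ) (hδ1 : δ ≤ 1 / 20) : Ev fun d k q => ∀ c : Fin q,
    cE (badd (q := q) δ c) (univ : Finset (Blk d k)) ≤
      ZZ d (k + 1) q * Real.exp (-(NN d (k + 1) / (d : ℝ) ^ 20)) := by
  obtain ⟨e1, M, he1, hM, H⟩ := D4 (δ / 24) (by positivity)
  refine ((((reg_rare e1 he1).shift).and (Fb_rare (δ / 24) (by positivity))).and
    ((Ev_large (max M (24 / δ + 2))).and ((Ev_NN fun d _ => (d : ℝ) ^ 20).shift))).mono ?_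
  rintro d k q ⟨⟨h1, h2⟩, ⟨h3, h4, h5, h6⟩, h7⟩ c
  have hm1 : M ≤ max M (24 / δ + 2) := le_max_left _ _
  have hm2 : 24 / δ + 2 ≤ max M (24 / δ + 2) := le_max_right _ _
  have hδ24 : 0 ≤ 24 / δ := by positivity
  have hq1 : 1 ≤ q := by
    have : (1 : ℝ) ≤ q := by linarith
    exact_mod_cast this
  have hk1 : 1 ≤ k := by
    have : (1 : ℝ) ≤ k := by linarith
    exact_mod_cast this
  have hdR : 24 / δ + 2 ≤ d := by linarith
  have hd1 : 1 ≤ d := by
    have : (1 : ℝ) ≤ d := by linarith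
    exact_mod_cast this
  have hMq : M * q ≤ d := by
    refine le_trans (mul_le_mul_of_nonneg_right hm1 (by positivity)) h4
  have hd3 : 1 / (d : ℝ) ^ 3 ≤ δ / 24 := by
    have h8 : (d : ℝ) ≤ d ^ 3 := by
      calc (d : ℝ) = d ^ 1 := (pow_one _).symm
        _ ≤ d ^ 3 := pow_le_pow_right₀ (by linarith) (by norm_num)
    rw [div_le_iff₀ (by positivity)]
    have h9 : 24 / δ ≤ (d : ℝ) ^ 3 := by linarith
    rw [div_le_iff₀ hδ] at h9
    linarith
  set N : ℝ := NN d (k + 1) with hN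
  -- all blocks bad implies one of the two rare events
  have hsub : ((prps d (k + 1) q).filter fun f => ∀ t ∈ (univ : Finset (Blk d k)), badd δ c t f) ⊆
      ((prps d (k + 1) q).filter fun f => ¬ Reg e1 c f) ∪
      ((prps d (k + 1) q).filter fun f => δ / 24 * NN d k ≤ ∑ t : Blk d k, EB (Fb f c t)) := by
    intro f hf
    rw [mem_filter] at hf
    rw [mem_union, mem_filter, mem_filter]
    by_cases hR : Reg e1 c f
    · right
      refine ⟨hf.1, ?_⟩
      by_contra hcon
      have hp : Prp f := by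
        have := hf.1
        unfold prps at this
        exact (mem_filter.1 this).2
      obtain ⟨L, g1, g2, g3⟩ := H d (k + 1) q (by linarith) (by omega) hq1 hMq c f hp hR
      obtain ⟨t, ht⟩ := D5 hd1 hk1 δ hδ hδ1 hd3 f c L g1 g2 g3 (not_le.1 hcon).le
      exact ht (hf.2 t (mem_univ t))
    · left
      exact ⟨hf.1, hR⟩
  have hcard : cE (badd (q := q) δ c) (univ : Finset (Blk d k)) ≤
      ZZ d (k + 1) q * Real.exp (-(N / (d : ℝ) ^ 19)) + ZZ d (k + 1) q * Real.exp (-(N / (d : ℝ) ^ 18)) := by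
    unfold cE
    have h8 := (card_le_card hsub).trans (card_union_le _ _)
    have h9 := h1 c
    have h10 := h2 c
    calc ((((prps d (k + 1) q).filter fun f => ∀ t ∈ (univ : Finset (Blk d k)), badd δ c t f).card : ℕ) : ℝ)
        ≤ ((((prps d (k + 1) q).filter fun f => ¬ Reg e1 c f).card +
          ((prps d (k + 1) q).filter fun f => δ / 24 * NN d k ≤ ∑ t : Blk d k, EB (Fb f c t)).card : ℕ) : ℝ) := by
          exact_mod_cast h8
      _ ≤ _ := by
          push_cast
          exact add_le_add h9 h10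
  refine hcard.trans ?_
  rw [← mul_add]
  apply mul_le_mul_of_nonneg_left _ (by unfold ZZ; positivity)
  have hd0 : (0 : ℝ) < d := by linarith
  have hd2 : (2 : ℝ) ≤ d := by linarith
  set X : ℝ := N / (d : ℝ) ^ 20 with hX
  have hX1 : 1 ≤ X := by
    rw [hX, le_div_iff₀ (by positivity), one_mul]
    exact h7
  have e19 : N / (d : ℝ) ^ 19 = d * X := by
    rw [hX]
    field_simp
  have e18 : N / (d : ℝ) ^ 18 = d ^ 2 * X := by
    rw [hX]
    field_simp
  rw [e19, e18]
  have h8 : Real.exp (-((d : ℝ) * X)) ≤ Real.exp (-(2 * X)) := by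
    apply Real.exp_le_exp.2
    nlinarith
  have h9 : Real.exp (-((d : ℝ) ^ 2 * X)) ≤ Real.exp (-(2 * X)) := by
    apply Real.exp_le_exp.2
    have hdd : (2 : ℝ) ≤ (d : ℝ) ^ 2 := by nlinarith
    have := mul_le_mul_of_nonneg_right hdd (show 0 ≤ X by linarith)
    linarith
  have h10 : Real.exp (-(2 * X)) = Real.exp (-X) * Real.exp (-X) := by
    rw [← Real.exp_add]
    ring_nf
  have h11 : Real.exp (-X) ≤ 1 / 2 := by
    have h12 : Real.exp (-X) ≤ Real.exp (-1) := Real.exp_le_exp.2 (by linarith)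
    have h13 : Real.exp (-1) ≤ 1 / 2 := by
      rw [Real.exp_neg, ← one_div]
      apply one_div_le_one_div_of_le (by norm_num)
      have := Real.add_one_le_exp (1 : ℝ)
      linarith
    linarith
  have h14 : 0 < Real.exp (-X) := Real.exp_pos _
  nlinarith

end Pool.Agent.LIN
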