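import Pool.Agent.Lib_MP_2c424f_lin.B1
import Pool.Agent.Lib_MP_2c424f_lin.D6
import Pool.Agent.Lib_MP_2c424f_lo.Chess
import Pool.Agent.Lib_MP_2c424f_lo.RP
import Pool.Agent.Lib_MP_2c424f_lo.Multi

/-!
# H30 B2a: bad blocks are rare, labels agree

* `pbadd`: `chess` with `cn = cE (badd δ c)`, `rp` (`badd_loc`, `badd_sym`), `hfull` = `all_bad`:
  `NN d (k+1)/d^20 = (2^d/d^20) card (Blk d k)`.  (As in `Lib_MP_2c424f_lo/PBad.lean`.)
* `pdiffd`: `multi` (as in `Lib_MP_2c424f_lo/PDiff2.lean`): `4 · 4^d · exp (-(2^d/d^20)) ≤ 1/d^5` for large `d` (`Ev_d`).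
-/

set_option autoImplicit false

open Finset Filter

namespace Pool.Agent.LIN

open Pool.Agent.LO

theorem pbadd (δ : ℝ) (hδ : 0 < δ) (hδ1 : δ ≤ 1 / 20) : Ev fun d k q => ∀ (c : Fin q)
    (Γ : Finset (Blk d k)), cE (badd (q := q) δ c) Γ ≤
      ZZ d (k + 1) q * Real.exp (-(2 ^ d / (d : ℝ) ^ 20)) ^ Γ.card := by
  classical
  refine ((all_bad δ hδ hδ1).and (Ev_large 1)).mono fun d k q h => ?_
  obtain ⟨hab, -, -, -, hk⟩ := h
  have hk1 : 1 ≤ k := by exact_mod_cast hk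
  intro c
  have hfull : cE (badd (q := q) δ c) (univ : Finset (Blk d k)) ≤
      ZZ d (k + 1) q * Real.exp (-(2 ^ d / (d : ℝ) ^ 20)) ^ (Fintype.card (Blk d k)) := by
    refine le_trans (hab c) ?_
    have hZ : 0 ≤ ZZ d (k + 1) q := by unfold ZZ; positivity
    apply mul_le_mul_of_nonneg_left _ hZ
    rw [← Real.exp_nat_mul]
    apply Real.exp_le_exp.2
    have hc : (Fintype.card (Blk d k) : ℝ) = NN d k := card_site d k
    rw [hc]
    have hNk : NN d (k + 1) = NN d k * 2 ^ d := by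
      unfold NN
      rw [pow_succ, mul_pow]
    have : NN d k * -((2 : ℝ) ^ d / (d : ℝ) ^ 20) = -(NN d (k + 1) / (d : ℝ) ^ 20) := by
      rw [hNk]; ring
    rw [this]
  exact chess hk1 (cE (badd (q := q) δ c)) (ZZ d (k + 1) q) (Real.exp (-(2 ^ d / (d : ℝ) ^ 20)))
    (Real.exp_pos _)
    (by unfold ZZ; positivity) (fun Γ => by unfold cE; positivity)
    (fun j α Γ => rp hk1 (badd δ c) (fun t f g h hb => badd_loc δ c t f g h hb)
      (fun j α t f hb => badd_sym δ c j α t f hb) j α Γ)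
    (by
      unfold cE ZZ
      exact_mod_cast Finset.card_le_card (Finset.filter_subset _ _))
    hfull

end Pool.Agent.LIN
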