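import Pool.Agent.Lib_MP_2c424f_lin.B2a

/-!
# H30 B2b: bad blocks are rare, labels agree

* `pbadd`: `chess` with `cn = cE (badd δ c)`, `rp` (`badd_loc`, `badd_sym`), `hfull` = `all_bad`:
  `NN d (k+1)/d^20 = (2^d/d^20) card (Blk d k)`.  (As in `Lib_MP_2c424f_lo/PBad.lean`.)
* `pdiffd`: `multi` (as in `Lib_MP_2c424f_lo/PDiff2.lean`): `4 · 4^d · exp (-(2^d/d^20)) ≤ 1/d^5` for large `d` (`Ev_d`).
-/

set_option autoImplicit false

open Finset Filter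

namespace Pool.Agent.LIN

open Pool.Agent.LO

/-- for large `d` the base is tiny -/
private theorem B2b_small : ∀ᶠ d : ℕ in atTop,
    1 ≤ d ∧ 4 * (d : ℝ) ^ 5 * (4 ^ d * Real.exp (-((2 : ℝ) ^ d / (d : ℝ) ^ 20))) ≤ 1 := by
  have h1 : ∀ᶠ n : ℕ in Filter.atTop, (n : ℝ) ^ 21 / (2 : ℝ) ^ n < 1 / 3 :=
    (tendsto_pow_const_div_const_pow_of_one_lt 21 (by norm_num : (1 : ℝ) < 2)).eventually
      (gt_mem_nhds (by norm_num))
  have h2 : ∀ᶠ n : ℕ in Filter.atTop, (n : ℝ) ^ 5 / (5 : ℝ) ^ n < 1 / 4 :=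
    (tendsto_pow_const_div_const_pow_of_one_lt 5 (by norm_num : (1 : ℝ) < 5)).eventually
      (gt_mem_nhds (by norm_num))
  filter_upwards [h1, h2, eventually_ge_atTop 1] with d ha hb hd1
  refine ⟨hd1, ?_⟩
  have hdr : (0 : ℝ) < d := by exact_mod_cast hd1
  have h2p : (0 : ℝ) < 2 ^ d := by positivity
  have h5p : (0 : ℝ) < 5 ^ d := by positivity
  rw [div_lt_div_iff₀ h2p (by norm_num)] at ha
  rw [div_lt_div_iff₀ h5p (by norm_num)] at hb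
  have hx : 3 * (d : ℝ) ≤ 2 ^ d / (d : ℝ) ^ 20 := by
    rw [le_div_iff₀ (by positivity)]
    have e : 3 * (d : ℝ) * (d : ℝ) ^ 20 = (d : ℝ) ^ 21 * 3 := by ring
    rw [e]
    linarith
  have he : (20 : ℝ) ≤ Real.exp 3 := by
    have h := Real.exp_one_gt_d9
    have h3 : Real.exp 3 = Real.exp 1 ^ 3 := by
      rw [← Real.exp_nat_mul]; norm_num
    rw [h3]
    calc (20 : ℝ) ≤ 2.7182818283 ^ 3 := by norm_num
      _ ≤ Real.exp 1 ^ 3 := pow_le_pow_left₀ (by norm_num) h.le 3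
  have hexp : (20 : ℝ) ^ d ≤ Real.exp (2 ^ d / (d : ℝ) ^ 20) := by
    calc (20 : ℝ) ^ d ≤ Real.exp 3 ^ d := pow_le_pow_left₀ (by norm_num) he d
      _ = Real.exp (3 * d) := by rw [← Real.exp_nat_mul]; ring_nf
      _ ≤ _ := Real.exp_le_exp.2 hx
  have h20 : (20 : ℝ) ^ d = 4 ^ d * 5 ^ d := by rw [← mul_pow]; norm_num
  have hE : 0 < Real.exp (2 ^ d / (d : ℝ) ^ 20) := Real.exp_pos _
  rw [Real.exp_neg, ← mul_assoc, ← div_eq_mul_inv, div_le_one hE]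
  calc 4 * (d : ℝ) ^ 5 * 4 ^ d ≤ 5 ^ d * 4 ^ d := by
        apply mul_le_mul_of_nonneg_right _ (by positivity)
        linarith
    _ = 20 ^ d := by rw [h20]; ring
    _ ≤ _ := hexp

open scoped Classical in
theorem pdiffd (δ : ℝ) (hδ : 0 < δ) (hδ1 : δ ≤ 1 / 20) : Ev fun d k q => ∀ (c : Fin q) (t t' : Blk d k),
    (((prps d (k + 1) q).filter fun f => badd δ c t f ∨ ¬ (labA δ f t c ↔ labA δ f t' c)).card : ℝ) ≤
      ZZ d (k + 1) q * (1 / (d : ℝ) ^ 5) := by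
  refine (((pbadd δ hδ hδ1).and (Ev_d B2b_small)).and (Ev_large 3)).mono fun d k q h => ?_
  obtain ⟨⟨hB, -, hr⟩, -, -, hd3r, -⟩ := h
  have hd3 : 3 ≤ d := by exact_mod_cast hd3r
  intro c t t'
  have hrpos : 0 < Real.exp (-((2 : ℝ) ^ d / (d : ℝ) ^ 20)) := Real.exp_pos _
  have hle : 4 * (4 ^ d * Real.exp (-((2 : ℝ) ^ d / (d : ℝ) ^ 20))) ≤ 1 / (d : ℝ) ^ 5 := by
    rw [le_div_iff₀ (by positivity)]
    linarith
  have hhalf : 4 ^ d * Real.exp (-((2 : ℝ) ^ d / (d : ℝ) ^ 20)) ≤ 1 / 2 := by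
    have : 1 / (d : ℝ) ^ 5 ≤ 1 := by
      rw [div_le_one (by positivity)]
      exact one_le_pow₀ (by linarith)
    linarith
  have hm := multi (prps d (k + 1) q) hd3 (fun f t => badd δ c t f) (fun f t => labA δ f t c)
    (Real.exp (-((2 : ℝ) ^ d / (d : ℝ) ^ 20)))
    hrpos.le hhalf (fun Γ => by
      have := hB c Γ
      unfold cE ZZ at this
      exact this)
    (fun f _ s j _ hb1 hb2 => labd_adj (by omega) δ hδ1 c f s j hb1 hb2) t t'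
  refine hm.trans ?_
  unfold ZZ
  exact mul_le_mul_of_nonneg_left hle (Nat.cast_nonneg _)

end Pool.Agent.LIN
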