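import Pool.Agent.Lib_MP_2c424f_lin.B4b

/-!
# H30 B4: the labels determine the odd sites

The opposite representation of a point of a block: `a' i = if a i = b i then !(a i) else a i`, the same for `b'`, and
`t' i = t i + 1` if `a i = b i = true`, `t i - 1` if `a i = b i = false`, `t i` otherwise.  Then `pt t' a' b' = pt t a b`,
`(t,a,b) ↦ (t',a',b')` is an involution, `od a' b' ↔ od a b`, and every step `σ` is allowed for `(t,a,b)` or for
`(t',a',b')`.  So `1 - zz f (pt t a b) c ≤ (1 - zb f t a b c) + (1 - zb f t' a' b' c)`, and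
* `sum_mt`: `∑_t EB (1 - zz) ≤ 2 ∑_t (1 - mb f t c)`.
* `avg_lab`: `sum_EB`: the left side is `∑_t EB |zz - 1[labA t0]|`.  If `labA t0`: `≤ 2 ∑_t (1 - mb)`, and `1 - mb ≤ δ` if
  `labA t`, `≤ 1` otherwise.  If not: `zz ≤ zb`, `∑_t mb`, `mb ≤ δ` (`mb_le_of`) if `t` is not bad and not `labA`, `≤ 1`
  otherwise.
-/
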