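import Pool.Agent.Lib_MP_2c424f_lin.B1
import Pool.Agent.Lib_MP_2c424f_lo.BSum
import Pool.Agent.Lib_MP_2c424f_lo.Cube

/-!
# H30 B4a: the labels determine the odd sites

The opposite representation of a point of a block: `a' i = if a i = b i then !(a i) else a i`, the same for `b'`, and
`t' i = t i + 1` if `a i = b i = true`, `t i - 1` if `a i = b i = false`, `t i` otherwise.  Then `pt t' a' b' = pt t a b`,
`(t,a,b) ↦ (t',a',b')` is an involution, `od a' b' ↔ od a b`, and every step `σ` is allowed for `(t,a,b)` or for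
`(t',a',b')`.  So `1 - zz f (pt t a b) c ≤ (1 - zb f t a b c) + (1 - zb f t' a' b' c)`, and
* `sum_mt`: `∑_t EB (1 - zz) ≤ 2 ∑_t (1 - mb f t c)`.
* `avg_lab`: `sum_EB`: the left side is `∑_t EB |zz - 1[labA t0]|`.  If `labA t0`: `≤ 2 ∑_t (1 - mb)`, and `1 - mb ≤ δ` if
  `labA t`, `≤ 1` otherwise.  If not: `zz ≤ zb`, `∑_t mb`, `mb ≤ δ` (`mb_le_of`) if `t` is not bad and not `labA`, `≤ 1`
  otherwise.
-/

set_option autoImplicit false

open Finset

namespace Pool.Agent.LIN

open Pool.Agent.LO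

variable {d k q : ℕ}

/-! ### auxiliary: the opposite representation -/

private def b4a_a (a b : Bt d) : Bt d := fun i => if a i = b i then !(a i) else a i

private def b4a_t (a b : Bt d) (t : Blk d k) : Blk d k :=
  fun i => if a i = b i then (if a i = true then t i + 1 else t i - 1) else t i

private def b4a_dbl (s : ZMod (2 ^ k)) : ZMod (2 ^ (k + 1)) := ((2 * s.val : ℕ) : ZMod (2 ^ (k + 1)))

private theorem b4a_dbl_add (s : ZMod (2 ^ k)) : b4a_dbl (s + 1) = b4a_dbl s + 2 := by
  unfold b4a_dbl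
  have h1 : (2 : ZMod (2 ^ (k + 1))) = ((2 : ℕ) : ZMod (2 ^ (k + 1))) := by norm_num
  rw [h1, ← Nat.cast_add, ZMod.natCast_eq_natCast_iff]
  have h2 : s + 1 = ((s.val + 1 : ℕ) : ZMod (2 ^ k)) := by
    rw [Nat.cast_add, ZMod.natCast_zmod_val, Nat.cast_one]
  rw [h2, ZMod.val_natCast]
  have h3 : 2 * s.val + 2 = 2 * (s.val + 1) := by ring
  have h4 : 2 ^ (k + 1) = 2 * 2 ^ k := by ring
  rw [h3, h4]
  exact Nat.ModEq.mul_left' 2 (Nat.mod_modEq _ _)

private theorem b4a_dbl_sub (s : ZMod (2 ^ k)) : b4a_dbl (s - 1) = b4a_dbl s - 2 := by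
  have h := b4a_dbl_add (s - 1)
  rw [sub_add_cancel] at h
  rw [h]
  ring

private theorem b4a_pt (a b : Bt d) (t : Blk d k) :
    pt (b4a_t a b t) (b4a_a a b) (b4a_a b a) = pt t a b := by
  funext i
  have h1 : ∀ (t : Blk d k) (a b : Bt d), pt t a b i =
      b4a_dbl (t i) + (if a i = true then 1 else 0) + (if b i = true then 1 else 0) := by
    intro t a b
    rfl
  rw [h1, h1]
  unfold b4a_t b4a_a
  cases ha : a i <;> cases hb : b i
  · simp only [if_true, Bool.not_false, Bool.false_eq_true, if_false]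
    rw [b4a_dbl_sub]
    ring
  · simp only [Bool.false_eq_true, if_false, if_true, Bool.true_eq_false]
  · simp only [Bool.false_eq_true, if_false, if_true, Bool.true_eq_false]
  · simp only [if_true, Bool.not_true, Bool.false_eq_true, if_false]
    rw [b4a_dbl_add]
    ring

private theorem b4a_od (a b : Bt d) : od (b4a_a a b) (b4a_a b a) ↔ od a b := by
  unfold od
  have h : (univ.filter fun i => b4a_a a b i ≠ b4a_a b a i) = univ.filter fun i => a i ≠ b i := by
    refine Finset.filter_congr fun i _ => ?_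
    unfold b4a_a
    cases a i <;> cases b i <;> simp
  rw [h]

private theorem b4a_alw (a b : Bt d) (σ : Stp d) : alw a b σ ∨ alw (b4a_a a b) (b4a_a b a) σ := by
  obtain ⟨i, s⟩ := σ
  unfold alw b4a_a
  cases s <;> cases ha : a i <;> cases hb : b i <;> simp [ha, hb]

private theorem b4a_aa (a b : Bt d) : b4a_a (b4a_a a b) (b4a_a b a) = a := by
  funext i
  unfold b4a_a
  cases a i <;> cases b i <;> simp

private theorem b4a_tt (a b : Bt d) (t : Blk d k) :
    b4a_t (b4a_a a b) (b4a_a b a) (b4a_t a b t) = t := by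
  funext i
  unfold b4a_t b4a_a
  cases a i <;> cases b i <;> simp

/-- the involution -/
private def b4a_J (p : Blk d k × Bt d × Bt d) : Blk d k × Bt d × Bt d :=
  (b4a_t p.2.1 p.2.2 p.1, b4a_a p.2.1 p.2.2, b4a_a p.2.2 p.2.1)

private theorem b4a_inv : Function.Involutive (b4a_J (d := d) (k := k)) := by
  rintro ⟨t, a, b⟩
  unfold b4a_J
  simp only [b4a_aa, b4a_tt]

open scoped Classical in
private theorem b4a_sum (G : Blk d k → Bt d → Bt d → ℝ) :
    ∑ t : Blk d k, EB (G t) =
      2 / 4 ^ d * ∑ p : Blk d k × Bt d × Bt d, (if od p.2.1 p.2.2 then G p.1 p.2.1 p.2.2 else 0) := by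
  rw [Fintype.sum_prod_type, Finset.mul_sum]
  refine Finset.sum_congr rfl fun t _ => ?_
  rw [Fintype.sum_prod_type]
  unfold EB
  rw [mul_div_right_comm]

private theorem b4a_invol (G : Blk d k → Bt d → Bt d → ℝ) :
    ∑ t : Blk d k, EB (fun a b => G (b4a_t a b t) (b4a_a a b) (b4a_a b a)) = ∑ t : Blk d k, EB (G t) := by
  classical
  rw [b4a_sum, b4a_sum]
  congr 1
  rw [← Equiv.sum_comp (b4a_inv (d := d) (k := k)).toPerm
    (fun p : Blk d k × Bt d × Bt d => (if od p.2.1 p.2.2 then G p.1 p.2.1 p.2.2 else 0))]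
  refine Finset.sum_congr rfl fun p _ => ?_
  rw [Function.Involutive.coe_toPerm]
  have h : od (b4a_J p).2.1 (b4a_J p).2.2 ↔ od p.2.1 p.2.2 := b4a_od p.2.1 p.2.2
  by_cases hp : od p.2.1 p.2.2
  · rw [if_pos hp, if_pos (h.mpr hp)]
    rfl
  · rw [if_neg hp, if_neg (fun h' => hp (h.mp h'))]

private theorem b4a_zb01 (f : Site d (k + 1) → Fin q) (t : Blk d k) (a b : Bt d) (c : Fin q) :
    zb f t a b c ≤ 1 := by
  unfold zb
  split_ifs
  · exact le_refl _
  · exact zero_le_one

private theorem b4a_point (f : Site d (k + 1) → Fin q) (c : Fin q) (t : Blk d k) (a b : Bt d) :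
    1 - zz f (pt t a b) c ≤ (1 - zb f t a b c) +
      (1 - zb f (b4a_t a b t) (b4a_a a b) (b4a_a b a) c) := by
  have h1 := b4a_zb01 f t a b c
  have h2 := b4a_zb01 f (b4a_t a b t) (b4a_a a b) (b4a_a b a) c
  unfold zz
  split_ifs with h
  · unfold SS at h
    rw [mem_image] at h
    obtain ⟨σ, _, hσ⟩ := h
    rcases b4a_alw a b σ with h3 | h3
    · have h4 : zb f t a b c = 0 := by
        unfold zb
        rw [if_neg]
        intro h5
        exact h5 σ h3 hσ
      linarith
    · have h4 : zb f (b4a_t a b t) (b4a_a a b) (b4a_a b a) c = 0 := by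
        unfold zb
        rw [if_neg]
        intro h5
        refine h5 σ h3 ?_
        rw [b4a_pt]
        exact hσ
      linarith
  · linarith

theorem sum_mt (hd : 1 ≤ d) (hk : 1 ≤ k) (f : Site d (k + 1) → Fin q) (c : Fin q) :
    ∑ t : Blk d k, EB (fun a b => 1 - zz f (pt t a b) c) ≤ 2 * ∑ t : Blk d k, (1 - mb f t c) := by
  have h1 : ∀ t : Blk d k, 1 - mb f t c = EB (fun a b => 1 - zb f t a b c) := by
    intro t
    have h2 : (fun a b : Bt d => 1 - zb f t a b c) = fun a b => 1 + (-1) * zb f t a b c := by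
      funext a b
      ring
    rw [h2, EB_add, EB_mul, card_od hd]
    unfold mb
    ring
  have h3 : ∑ t : Blk d k, EB (fun a b => 1 - zb f (b4a_t a b t) (b4a_a a b) (b4a_a b a) c) =
      ∑ t : Blk d k, EB (fun a b => 1 - zb f t a b c) :=
    b4a_invol fun t a b => 1 - zb f t a b c
  rw [Finset.sum_congr rfl fun t _ => h1 t, two_mul]
  nth_rewrite 2 [← h3]
  rw [← Finset.sum_add_distrib]
  refine Finset.sum_le_sum fun t _ => ?_
  rw [← EB_add]
  exact EB_mono fun a b _ => b4a_point f c t a b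

end Pool.Agent.LIN
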