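import Pool.Agent.Lib_MP_2c424f_lin.B4a

/-!
# H30 B4b: the labels determine the odd sites

The opposite representation of a point of a block: `a' i = if a i = b i then !(a i) else a i`, the same for `b'`, and
`t' i = t i + 1` if `a i = b i = true`, `t i - 1` if `a i = b i = false`, `t i` otherwise.  Then `pt t' a' b' = pt t a b`,
`(t,a,b) ↦ (t',a',b')` is an involution, `od a' b' ↔ od a b`, and every step `σ` is allowed for `(t,a,b)` or for
`(t',a',b')`.  So `1 - zz f (pt t a b) c ≤ (1 - zb f t a b c) + (1 - zb f t' a' b' c)`, and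
* `sum_mt`: `∑_t EB (1 - zz) ≤ 2 ∑_t (1 - mb f t c)`.
* `avg_lab`: `sum_EB`: the left side is `∑_t EB |zz - 1[labA t0]|`.  If `labA t0`: `≤ 2 ∑_t (1 - mb)`, and `1 - mb ≤ δ` if
  `labA t`, `≤ 1` otherwise.  If not: `zz ≤ zb`, `∑_t mb`, `mb ≤ δ` (`mb_le_of`) if `t` is not bad and not `labA`, `≤ 1`
  otherwise.
-/

set_option autoImplicit false

open Finset

namespace Pool.Agent.LIN

open Pool.Agent.LO

variable {d k q : ℕ}

private theorem B4b_zz01 (f : Site d (k + 1) → Fin q) (v : Site d (k + 1)) (c : Fin q) :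
    0 ≤ zz f v c ∧ zz f v c ≤ 1 := by
  unfold zz
  split_ifs <;> norm_num

private theorem B4b_zb01 (f : Site d (k + 1) → Fin q) (t : Blk d k) (a b : Bt d) (c : Fin q) :
    0 ≤ zb f t a b c ∧ zb f t a b c ≤ 1 := by
  unfold zb
  split_ifs <;> norm_num

private theorem B4b_zz_le (f : Site d (k + 1) → Fin q) (t : Blk d k) (a b : Bt d) (c : Fin q) :
    zz f (pt t a b) c ≤ zb f t a b c := by
  by_cases h : c ∈ SS f (pt t a b)
  · have h1 : zz f (pt t a b) c = 0 := by
      unfold zz
      rw [if_pos h]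
    rw [h1]
    exact (B4b_zb01 f t a b c).1
  · have h1 : zb f t a b c = 1 := by
      unfold zb
      rw [if_pos]
      intro σ _ hc
      apply h
      unfold SS
      rw [Finset.mem_image]
      exact ⟨σ, Finset.mem_univ _, hc⟩
    rw [h1]
    exact (B4b_zz01 f _ c).2

private theorem B4b_mb01 (hd : 1 ≤ d) (f : Site d (k + 1) → Fin q) (t : Blk d k) (c : Fin q) :
    0 ≤ mb f t c ∧ mb f t c ≤ 1 := by
  have h0 : EB (fun _ _ : Bt d => (0 : ℝ)) = 0 := by
    unfold EB
    simp
  constructor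
  · rw [← h0]
    exact EB_mono fun a b _ => (B4b_zb01 f t a b c).1
  · rw [← card_od hd]
    exact EB_mono fun a b _ => (B4b_zb01 f t a b c).2

private theorem B4b_card : ∑ _t : Blk d k, (1 : ℝ) = NN d k := by
  unfold NN
  rw [Finset.sum_const, nsmul_eq_mul, mul_one, Finset.card_univ, Fintype.card_fun, ZMod.card,
    Fintype.card_fin]
  push_cast
  rfl

open scoped Classical in
theorem avg_lab (hd : 1 ≤ d) (hk : 1 ≤ k) (δ : ℝ) (hδ : 0 ≤ δ) (f : Site d (k + 1) → Fin q) (c : Fin q)
    (t0 : Blk d k) :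
    2 / 2 ^ d * ∑ v ∈ ods d (k + 1), |zz f v c - (if labA δ f t0 c then 1 else 0)| ≤
      2 * (δ * NN d k + ∑ t : Blk d k, if badd δ c t f ∨ ¬ (labA δ f t c ↔ labA δ f t0 c) then (1 : ℝ) else 0) := by
  rw [← sum_EB hd (fun v => |zz f v c - (if labA δ f t0 c then 1 else 0)|)]
  have hind : ∀ t : Blk d k,
      0 ≤ (if badd δ c t f ∨ ¬ (labA δ f t c ↔ labA δ f t0 c) then (1 : ℝ) else 0) := by
    intro t
    split_ifs <;> norm_num
  have hNN : δ * NN d k = ∑ _t : Blk d k, δ := by
    rw [← B4b_card, Finset.mul_sum, mul_one]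
  rw [hNN, ← Finset.sum_add_distrib]
  by_cases h0 : labA δ f t0 c
  · have h1 : ∑ t : Blk d k, EB (fun a b => |zz f (pt t a b) c - (if labA δ f t0 c then 1 else 0)|) =
        ∑ t : Blk d k, EB (fun a b => 1 - zz f (pt t a b) c) := by
      refine Finset.sum_congr rfl fun t _ => ?_
      congr 1
      funext a b
      rw [if_pos h0, abs_sub_comm, abs_of_nonneg]
      linarith [(B4b_zz01 f (pt t a b) c).2]
    rw [h1]
    refine (sum_mt hd hk f c).trans ?_
    refine mul_le_mul_of_nonneg_left ?_ (by norm_num)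
    refine Finset.sum_le_sum fun t _ => ?_
    by_cases ht : labA δ f t c
    · have h2 : 1 - δ ≤ mb f t c := ht
      have h3 := hind t
      linarith
    · rw [if_pos (Or.inr (fun h => ht (h.2 h0)))]
      have h3 := (B4b_mb01 hd f t c).1
      linarith
  · have h1 : ∑ t : Blk d k, EB (fun a b => |zz f (pt t a b) c - (if labA δ f t0 c then 1 else 0)|) ≤
        ∑ t : Blk d k, mb f t c := by
      refine Finset.sum_le_sum fun t _ => ?_
      unfold mb
      refine EB_mono fun a b _ => ?_
      rw [if_neg h0, sub_zero, abs_of_nonneg (B4b_zz01 f (pt t a b) c).1]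
      exact B4b_zz_le f t a b c
    refine h1.trans ?_
    rw [Finset.mul_sum]
    refine Finset.sum_le_sum fun t _ => ?_
    by_cases ht : badd δ c t f ∨ ¬ (labA δ f t c ↔ labA δ f t0 c)
    · rw [if_pos ht]
      have h3 := (B4b_mb01 hd f t c).2
      linarith
    · rw [if_neg ht]
      have h4 : ¬ badd δ c t f := fun h => ht (Or.inl h)
      have h5 : ¬ labA δ f t c := by
        intro h
        exact ht (Or.inr fun h6 => h0 (h6.1 h))
      have h6 := mb_le_of hd δ c f t h4 h5
      linarith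

end Pool.Agent.LIN
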