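import Pool.Agent.Lib_MP_2c424f_lin.B5b

/-!
# H30 B5: the global label

`Lg f c = 1` if `c` is available at at least half of the odd sites (`Bst` of `Lib_MP_2c424f_lo/Maj.lean`).
`maj_opt`: the majority minimises `∑ |zz - ℓ|` over `ℓ ∈ {0,1}`.
`lg_mean`: with `δ = min (1/20) (ε/8)`, `avg_lab` at any `t0`, `pdiffd` (sum over `t`): mean over the odd sites
`≤ 2 (δ + 1/d^5)`, `1/d^5 ≤ ε/8`; `Lg` is invariant under even translations (`Bst_transl`), `sum_transl`: every odd site
has the same mean (as `dvt_const`).  `card_ods`.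
-/
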