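import Pool.Agent.Lib_MP_2c424f_lin.B2
import Pool.Agent.Lib_MP_2c424f_lin.B4
import Pool.Agent.Lib_MP_2c424f_lo.Trans

/-!
# H30 B5a: the global label

`Lg f c = 1` if `c` is available at at least half of the odd sites (`Bst` of `Lib_MP_2c424f_lo/Maj.lean`).
`maj_opt`: the majority minimises `∑ |zz - ℓ|` over `ℓ ∈ {0,1}`.
`lg_mean`: with `δ = min (1/20) (ε/8)`, `avg_lab` at any `t0`, `pdiffd` (sum over `t`): mean over the odd sites
`≤ 2 (δ + 1/d^5)`, `1/d^5 ≤ ε/8`; `Lg` is invariant under even translations (`Bst_transl`), `sum_transl`: every odd site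
has the same mean (as `dvt_const`).  `card_ods`.
-/

set_option autoImplicit false

open Finset Filter

namespace Pool.Agent.LIN

open Pool.Agent.LO

open scoped Classical in
/-- the global label -/
noncomputable def Lg {d k q : ℕ} (f : Site d k → Fin q) (c : Fin q) : ℝ := if c ∈ Bst f then 1 else 0

theorem maj_opt {d k q : ℕ} (f : Site d k → Fin q) (c : Fin q) (l : ℝ) (hl : l = 0 ∨ l = 1) :
    ∑ v ∈ ods d k, |zz f v c - Lg f c| ≤ ∑ v ∈ ods d k, |zz f v c - l| := by
  classical
  set S : ℝ := ∑ v ∈ ods d k, zz f v c with hS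
  have h0 : ∑ v ∈ ods d k, |zz f v c - 0| = S := by
    refine Finset.sum_congr rfl fun v _ => ?_
    rcases zz_zero_or_one f v c with h | h <;> rw [h] <;> norm_num
  have h1 : ∑ v ∈ ods d k, |zz f v c - 1| = ((ods d k).card : ℝ) - S := by
    have h2 : ((ods d k).card : ℝ) = ∑ v ∈ ods d k, (1 : ℝ) := by
      rw [Finset.sum_const, nsmul_eq_mul, mul_one]
    rw [h2, hS, ← Finset.sum_sub_distrib]
    refine Finset.sum_congr rfl fun v _ => ?_
    rcases zz_zero_or_one f v c with h | h <;> rw [h] <;> norm_num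
  by_cases hc : c ∈ Bst f
  · have h3 := (mem_Bst f c).1 hc
    have h4 : Lg f c = 1 := by
      unfold Lg
      rw [if_pos hc]
    rw [h4, h1]
    rcases hl with rfl | rfl
    · rw [h0]
      linarith
    · rw [h1]
  · have h3 : ¬ ((ods d k).card : ℝ) ≤ 2 * ∑ v ∈ ods d k, zz f v c := fun h =>
      hc ((mem_Bst f c).2 h)
    rw [not_le] at h3
    have h4 : Lg f c = 0 := by
      unfold Lg
      rw [if_neg hc]
    rw [h4, h0]
    rcases hl with rfl | rfl
    · rw [h0]
    · rw [h1]
      linarith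

end Pool.Agent.LIN
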