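import Pool.Agent.Lib_MP_2c424f_lin.B5a

/-!
# H30 B5b: the global label

`Lg f c = 1` if `c` is available at at least half of the odd sites (`Bst` of `Lib_MP_2c424f_lo/Maj.lean`).
`maj_opt`: the majority minimises `∑ |zz - ℓ|` over `ℓ ∈ {0,1}`.
`lg_mean`: with `δ = min (1/20) (ε/8)`, `avg_lab` at any `t0`, `pdiffd` (sum over `t`): mean over the odd sites
`≤ 2 (δ + 1/d^5)`, `1/d^5 ≤ ε/8`; `Lg` is invariant under even translations (`Bst_transl`), `sum_transl`: every odd site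
has the same mean (as `dvt_const`).  `card_ods`.
-/

set_option autoImplicit false

open Finset Filter

namespace Pool.Agent.LIN

open Pool.Agent.LO

private theorem B5b_const {d k q : ℕ} (hk : 1 ≤ k) {x y : Site d k} (hx : ¬ evn x) (hy : ¬ evn y)
    (c : Fin q) :
    ∑ f ∈ prps d k q, |zz f x c - Lg f c| = ∑ f ∈ prps d k q, |zz f y c - Lg f c| := by
  have hτ := evn_sub_of_odd hk hx hy
  rw [← sum_transl (y - x) (fun f => |zz f x c - Lg f c|)]
  refine sum_congr rfl fun f _ => ?_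
  have h1 : zz (fun z => f (z + (y - x))) x c = zz f y c := by
    rw [zz_transl]
    congr 1
    abel
  have h2 : Lg (fun z => f (z + (y - x))) c = Lg f c := by
    unfold Lg
    rw [Bst_transl hk hτ]
  rw [h1, h2]

theorem lg_mean (ε : ℝ) (hε : 0 < ε) : Ev fun d k q => ∀ (c : Fin q) (v : Site d (k + 1)), ¬ evn v →
    ∑ f ∈ prps d (k + 1) q, |zz f v c - Lg f c| ≤ ε * ZZ d (k + 1) q := by
  classical
  have hδ : 0 < min (1 / 20 : ℝ) (ε / 8) := lt_min (by norm_num) (by positivity)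
  have hd5 : ∀ᶠ d : ℕ in atTop, 1 / (d : ℝ) ^ 5 ≤ ε / 8 := by
    have h1 : Tendsto (fun d : ℕ => 1 / (d : ℝ) ^ 5) atTop (nhds 0) := by
      refine tendsto_const_nhds.div_atTop ?_
      exact (tendsto_pow_atTop (by norm_num)).comp tendsto_natCast_atTop_atTop
    exact h1.eventually (eventually_le_nhds (by positivity))
  refine (((pdiffd _ hδ (min_le_left _ _)).and (Ev_d hd5)).and (Ev_large 1)).mono ?_
  rintro d k q ⟨⟨hP, hd5'⟩, -, -, hd1', hk1'⟩ c v hv
  have hd1 : 1 ≤ d := by exact_mod_cast hd1'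
  have hk1 : 1 ≤ k := by exact_mod_cast hk1'
  set δ := min (1 / 20 : ℝ) (ε / 8) with hδdef
  have hNN : (0 : ℝ) < NN d k := by unfold NN; positivity
  have hNN1 : NN d (k + 1) = 2 ^ d * NN d k := by
    unfold NN
    rw [pow_succ, mul_pow, mul_comm]
  set M := ∑ f ∈ prps d (k + 1) q, |zz f v c - Lg f c| with hM
  have ht0 : ∀ f ∈ prps d (k + 1) q, 2 / 2 ^ d * ∑ v ∈ ods d (k + 1), |zz f v c - Lg f c| ≤
      2 * (δ * NN d k + ∑ t : Blk d k,
        if badd δ c t f ∨ ¬ (labA δ f t c ↔ labA δ f (fun _ => 0) c) then (1 : ℝ) else 0) := by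
    intro f _
    refine le_trans ?_ (avg_lab hd1 hk1 δ hδ.le f c (fun _ => 0))
    refine mul_le_mul_of_nonneg_left ?_ (by positivity)
    refine maj_opt f c _ ?_
    by_cases h : labA δ f (fun _ => 0) c
    · exact Or.inr (if_pos h)
    · exact Or.inl (if_neg h)
  have hsum := sum_le_sum ht0
  rw [← mul_sum, sum_comm, sum_congr rfl (fun w hw => B5b_const (by omega)
    (by simpa [ods] using hw) hv c), sum_const, nsmul_eq_mul, card_ods hd1 (by omega), hNN1,
    ← mul_sum, sum_add_distrib, sum_const, nsmul_eq_mul, sum_comm] at hsum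
  have hcnt : ∑ t : Blk d k, ∑ f ∈ prps d (k + 1) q,
      (if badd δ c t f ∨ ¬ (labA δ f t c ↔ labA δ f (fun _ => 0) c) then (1 : ℝ) else 0) ≤
      NN d k * (ZZ d (k + 1) q * (1 / (d : ℝ) ^ 5)) := by
    have h1 : ∀ t ∈ (univ : Finset (Blk d k)), ∑ f ∈ prps d (k + 1) q,
        (if badd δ c t f ∨ ¬ (labA δ f t c ↔ labA δ f (fun _ => 0) c) then (1 : ℝ) else 0) ≤
        ZZ d (k + 1) q * (1 / (d : ℝ) ^ 5) := by
      intro t _
      rw [sum_boole]
      exact hP c t (fun _ => 0)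
    refine (sum_le_sum h1).trans ?_
    rw [sum_const, nsmul_eq_mul, card_univ]
    have h2 : ((Fintype.card (Blk d k) : ℕ) : ℝ) = NN d k := card_site d k
    rw [h2]
  have hZ : ((prps d (k + 1) q).card : ℝ) = ZZ d (k + 1) q := rfl
  rw [hZ] at hsum
  have hZ0 : 0 ≤ ZZ d (k + 1) q := Nat.cast_nonneg _
  have h2d : (0 : ℝ) < 2 ^ d := by positivity
  have e1 : 2 / 2 ^ d * (2 ^ d * NN d k / 2 * M) = NN d k * M := by
    field_simp
  rw [e1] at hsum
  have h3 : NN d k * M ≤ NN d k * (2 * (δ * ZZ d (k + 1) q + ZZ d (k + 1) q * (1 / (d : ℝ) ^ 5))) := by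
    refine hsum.trans ?_
    have : 2 * (ZZ d (k + 1) q * (δ * NN d k) + NN d k * (ZZ d (k + 1) q * (1 / (d : ℝ) ^ 5))) =
      NN d k * (2 * (δ * ZZ d (k + 1) q + ZZ d (k + 1) q * (1 / (d : ℝ) ^ 5))) := by ring
    rw [← this]
    linarith
  have h4 := le_of_mul_le_mul_left h3 hNN
  refine h4.trans ?_
  have h5 : δ * ZZ d (k + 1) q ≤ ε / 8 * ZZ d (k + 1) q :=
    mul_le_mul_of_nonneg_right (min_le_right _ _) hZ0
  have h6 : ZZ d (k + 1) q * (1 / (d : ℝ) ^ 5) ≤ ZZ d (k + 1) q * (ε / 8) :=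
    mul_le_mul_of_nonneg_left hd5' hZ0
  have h7 : 0 ≤ ε * ZZ d (k + 1) q := mul_nonneg hε.le hZ0
  linarith

end Pool.Agent.LIN
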