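import Pool.Agent.Lib_MP_2c424f_lin.B6d

/-!
# H30 B6: pointwise means

* `two_pt`: `x ≠ y` of the class `b`: given the other class `f x`, `f y` are independent and uniform on the available
  colours (`fib_sum`, `fm_prod` with `U = {x, y}`, `φ v a = 1[a = c]`, sum over `c`).
* `one_pt`: `x` of the class `b`, `y` of the class `!b`, not adjacent.  Resample `x` (`resample` of `MainA2`), or `fib_sum`
  with the class `b` (`f y` and `SS f x` fixed on the fibre): `∑ 1[f x = f y] = ∑ zz f x (f y)/av f x`.
* `xi_mean`: `mean_dev` and translation invariance (`sum_transl`, `av_transl`; both classes have the same mean):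
  `E (1-2ξ_x)² ≤ 2 (q log 2/(4d) + 1/q²)`, Cauchy-Schwarz (Jensen).
* `few_mean`: `Xs_mean` with `a = min (1/10) (ε/40)`, translation invariance: for each `x`
  `∑_f 1[ξ_x < 1/2 - a]/av f x ≤ 40 a ZZ/q`.
-/
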