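import Pool.Agent.Lib_MP_2c424f_lin.R3b

/-!
# H30 R3: sites of colour `c` with few available colours

* `Xs_rare`: for a class `b`, given the class `!b` the colours of the class `b` are independent and uniform on the
  available colours (`fib`, `fib_sum`), and `ξ`, `typs a b`, `BB a b` depend on the class `!b` only:
  `E[2^{|Xs ∩ cls b|}; typ] = E[∏_{v ∈ cls b, ξ_v < 1/2-a} (1 + z_v/x_v); typ] ≤ E[exp BB; typ] ≤ exp (5aN/q)`.
  So `P(|Xs ∩ cls b| > 15aN/q) ≤ exp ((5 - 15 log 2) a N/q) + exp (-a³N/2)`; both classes; `a³/2 ≥ 5a/q` (`q` large), and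
  the factors `2`, `4` are absorbed for large `k`.
* `Xs_mean`: Jensen and `1/x ≤ log (1+1/x)/log 2`: `E[BB; typ] ≤ 5aN/q`·(...); off `typ` use `1/x ≤ 1` and `typ_rare`:
  `(N/2) exp (-a³N/2) ≤ a N/q` for large `k`.  (`E[BB; typ] ≤ log E[exp (BB 1_typ)]`.)
-/
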