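import Pool.Agent.Lib_MP_2c424f_lin.L7
import Pool.Agent.Lib_MP_2c424f_lin.R3
import Pool.Agent.Lib_MP_2c424f_lin.Ev
import Pool.Agent.Lib_MP_2c424f_lo.Trans

/-!
# H30 B6a: pointwise means

* `two_pt`: `x ≠ y` of the class `b`: given the other class `f x`, `f y` are independent and uniform on the available
  colours (`fib_sum`, `fm_prod` with `U = {x, y}`, `φ v a = 1[a = c]`, sum over `c`).
* `one_pt`: `x` of the class `b`, `y` of the class `!b`, not adjacent.  Resample `x` (`resample` of `MainA2`), or `fib_sum`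
  with the class `b` (`f y` and `SS f x` fixed on the fibre): `∑ 1[f x = f y] = ∑ zz f x (f y)/av f x`.
* `xi_mean`: `mean_dev` and translation invariance (`sum_transl`, `av_transl`; both classes have the same mean):
  `E (1-2ξ_x)² ≤ 2 (q log 2/(4d) + 1/q²)`, Cauchy-Schwarz (Jensen).
* `few_mean`: `Xs_mean` with `a = min (1/10) (ε/40)`, translation invariance: for each `x`
  `∑_f 1[ξ_x < 1/2 - a]/av f x ≤ 40 a ZZ/q`.
-/

set_option autoImplicit false

open Finset Filter

namespace Pool.Agent.LIN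

open Pool.Agent.LO

private theorem B6a_mem_prps {d k q : ℕ} (f : Site d k → Fin q) : f ∈ prps d k q ↔ Prp f := by
  classical
  unfold prps
  rw [mem_filter]
  simp only [mem_univ, true_and]

private theorem B6a_step_ne {d k : ℕ} (hk : 1 ≤ k) (x : Site d k) (σ : Stp d) : x + sv σ ≠ x := by
  intro h
  have h1 := evn_step hk x σ
  rw [h] at h1
  by_cases hx : evn x
  · exact (h1.1 hx) hx
  · exact hx (h1.2 hx)

private theorem B6a_step_back {d k : ℕ} (x : Site d k) (σ : Stp d) :
    x + sv σ + sv (σ.1, !σ.2) = x := by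
  obtain ⟨j, b⟩ := σ
  rw [add_assoc, sv_opp, add_zero]

private theorem B6a_SS_update {d k q : ℕ} (hk : 1 ≤ k) (f : Site d k → Fin q) (x : Site d k)
    (c : Fin q) : SS (Function.update f x c) x = SS f x := by
  unfold SS
  have h : ∀ σ : Stp d, Function.update f x c (x + sv σ) = f (x + sv σ) := fun σ =>
    Function.update_of_ne (B6a_step_ne hk x σ) _ _
  simp only [h]

private theorem B6a_self {d k q : ℕ} {f : Site d k → Fin q} (hf : Prp f) (x : Site d k) :
    f x ∉ SS f x := by
  intro h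
  unfold SS at h
  rw [mem_image] at h
  obtain ⟨σ, _, h⟩ := h
  exact hf x σ h

private theorem B6a_Prp_update {d k q : ℕ} (hk : 1 ≤ k) {f : Site d k → Fin q} (hf : Prp f)
    (x : Site d k) (c : Fin q) (hc : c ∉ SS f x) : Prp (Function.update f x c) := by
  have hc' : ∀ σ : Stp d, f (x + sv σ) ≠ c := by
    intro σ h
    apply hc
    unfold SS
    rw [mem_image]
    exact ⟨σ, mem_univ _, h⟩
  intro z σ
  by_cases hz : z = x
  · subst hz
    rw [Function.update_self, Function.update_of_ne (B6a_step_ne hk z σ)]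
    exact hc' σ
  · rw [Function.update_of_ne hz]
    by_cases hz2 : z + sv σ = x
    · rw [hz2, Function.update_self]
      have h1 := B6a_step_back z σ
      rw [hz2] at h1
      have h2 := hc' (σ.1, !σ.2)
      rw [h1] at h2
      exact h2.symm
    · rw [Function.update_of_ne hz2]
      exact hf z σ

private theorem B6a_card {d k q : ℕ} (f : Site d k → Fin q) (x : Site d k) :
    (((SS f x)ᶜ).card : ℝ) = (av f x : ℝ) := by
  unfold av
  rw [card_compl, Fintype.card_fin]

private theorem B6a_zz {d k q : ℕ} (f : Site d k → Fin q) (x : Site d k) (c : Fin q) :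
    ∑ a ∈ (SS f x)ᶜ, (if a = c then (1 : ℝ) else 0) = zz f x c := by
  rw [sum_ite_eq' ((SS f x)ᶜ) c]
  unfold zz
  by_cases h : c ∈ SS f x
  · rw [if_pos h, if_neg (by rw [mem_compl]; exact not_not.2 h)]
  · rw [if_neg h, if_pos (mem_compl.2 h)]

private theorem B6a_fm_sum {d k q : ℕ} {ι : Type*} (s : Finset ι) (b : Bool)
    (G : ι → (Site d k → Fin q) → ℝ) (f : Site d k → Fin q) :
    fm b (fun h => ∑ c ∈ s, G c h) f = ∑ c ∈ s, fm b (G c) f := by
  unfold fm
  rw [sum_comm, sum_div]

private theorem B6a_filter {d k q : ℕ} (P : (Site d k → Fin q) → Prop) [DecidablePred P] :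
    (((prps d k q).filter P).card : ℝ) = ∑ f ∈ prps d k q, (if P f then (1 : ℝ) else 0) := by
  rw [card_filter, Nat.cast_sum]
  refine sum_congr rfl fun f _ => ?_
  split_ifs <;> simp

open scoped Classical in
theorem two_pt {d k q : ℕ} (hk : 2 ≤ k) (b : Bool) (x y : Site d k) (hx : x ∈ cls b d k) (hy : y ∈ cls b d k)
    (hxy : x ≠ y) : (((prps d k q).filter fun f => f x = f y).card : ℝ) =
      ∑ f ∈ prps d k q, ∑ c, zz f x c * zz f y c / ((av f x : ℝ) * (av f y : ℝ)) := by
  have hU : ({x, y} : Finset (Site d k)) ⊆ cls b d k := by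
    intro v hv
    rw [mem_insert, mem_singleton] at hv
    rcases hv with rfl | rfl
    · exact hx
    · exact hy
  rw [B6a_filter (fun f => f x = f y)]
  have h1 : ∀ f : Site d k → Fin q, (if f x = f y then (1 : ℝ) else 0) =
      ∑ c, ∏ v ∈ ({x, y} : Finset (Site d k)), (if f v = c then (1 : ℝ) else 0) := by
    intro f
    have h2 : ∀ c : Fin q, ∏ v ∈ ({x, y} : Finset (Site d k)), (if f v = c then (1 : ℝ) else 0) =
        if f x = c then (if f y = c then (1 : ℝ) else 0) else 0 := by
      intro c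
      rw [prod_pair hxy]
      split_ifs <;> simp
    simp only [h2]
    rw [sum_ite_eq univ (f x)]
    rw [if_pos (mem_univ _)]
    by_cases h : f x = f y
    · rw [if_pos h, if_pos h.symm]
    · rw [if_neg h, if_neg (Ne.symm h)]
  simp only [h1]
  rw [fib_sum (by omega) b]
  refine sum_congr rfl fun f hf => ?_
  rw [B6a_mem_prps] at hf
  rw [B6a_fm_sum univ b (fun (c : Fin q) (h : Site d k → Fin q) =>
    ∏ v ∈ ({x, y} : Finset (Site d k)), (if h v = c then (1 : ℝ) else 0)) f]
  refine sum_congr rfl fun c _ => ?_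
  rw [fm_prod (by omega) b hf _ hU (fun _ a => if a = c then (1 : ℝ) else 0), prod_pair hxy,
    B6a_zz, B6a_zz, div_mul_div_comm]

open scoped Classical in
theorem one_pt {d k q : ℕ} (hk : 2 ≤ k) (x y : Site d k) (hxy : x ≠ y) :
    (((prps d k q).filter fun f => f x = f y).card : ℝ) =
      ∑ f ∈ prps d k q, zz f x (f y) / (av f x : ℝ) := by
  have hk1 : 1 ≤ k := by omega
  -- left side
  have h1 : (((prps d k q).filter fun f => f x = f y).card : ℝ) =
      ∑ f ∈ prps d k q, ∑ c ∈ (SS f x)ᶜ, (if f x = f y then (1 : ℝ) / (av f x : ℝ) else 0) := by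
    rw [B6a_filter (fun f => f x = f y)]
    refine sum_congr rfl fun f hf => ?_
    rw [B6a_mem_prps] at hf
    rw [sum_const, nsmul_eq_mul, B6a_card]
    have hp : (0 : ℝ) < av f x := by exact_mod_cast av_pos hf x
    split_ifs
    · field_simp
    · simp
  -- right side
  have h2 : ∑ f ∈ prps d k q, zz f x (f y) / (av f x : ℝ) =
      ∑ f ∈ prps d k q, ∑ c ∈ (SS f x)ᶜ, (if c = f y then (1 : ℝ) / (av f x : ℝ) else 0) := by
    refine sum_congr rfl fun f _ => ?_
    rw [← B6a_zz, sum_div]
    refine sum_congr rfl fun c _ => ?_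
    split_ifs <;> simp
  rw [h1, h2, Finset.sum_sigma', Finset.sum_sigma']
  refine Finset.sum_bij' (fun p _ => ⟨Function.update p.1 x p.2, p.1 x⟩)
    (fun p _ => ⟨Function.update p.1 x p.2, p.1 x⟩) ?_ ?_ ?_ ?_ ?_
  · rintro ⟨f, c⟩ h
    rw [mem_sigma] at h ⊢
    obtain ⟨hf, hc⟩ := h
    simp only [B6a_mem_prps, mem_compl] at hf hc ⊢
    rw [B6a_SS_update hk1]
    exact ⟨B6a_Prp_update hk1 hf x c hc, B6a_self hf x⟩
  · rintro ⟨f, c⟩ h
    rw [mem_sigma] at h ⊢
    obtain ⟨hf, hc⟩ := h
    simp only [B6a_mem_prps, mem_compl] at hf hc ⊢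
    rw [B6a_SS_update hk1]
    exact ⟨B6a_Prp_update hk1 hf x c hc, B6a_self hf x⟩
  · rintro ⟨f, c⟩ _
    simp
  · rintro ⟨f, c⟩ _
    simp
  · rintro ⟨f, c⟩ _
    simp only
    have e1 : av (Function.update f x c) x = av f x := by
      unfold av
      rw [B6a_SS_update hk1]
    rw [e1, Function.update_of_ne (Ne.symm hxy)]

end Pool.Agent.LIN
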