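import Pool.Agent.Lib_MP_2c424f_lin.B6a

/-!
# H30 B6b: pointwise means

* `two_pt`: `x ≠ y` of the class `b`: given the other class `f x`, `f y` are independent and uniform on the available
  colours (`fib_sum`, `fm_prod` with `U = {x, y}`, `φ v a = 1[a = c]`, sum over `c`).
* `one_pt`: `x` of the class `b`, `y` of the class `!b`, not adjacent.  Resample `x` (`resample` of `MainA2`), or `fib_sum`
  with the class `b` (`f y` and `SS f x` fixed on the fibre): `∑ 1[f x = f y] = ∑ zz f x (f y)/av f x`.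
* `xi_mean`: `mean_dev` and translation invariance (`sum_transl`, `av_transl`; both classes have the same mean):
  `E (1-2ξ_x)² ≤ 2 (q log 2/(4d) + 1/q²)`, Cauchy-Schwarz (Jensen).
* `few_mean`: `Xs_mean` with `a = min (1/10) (ε/40)`, translation invariance: for each `x`
  `∑_f 1[ξ_x < 1/2 - a]/av f x ≤ 40 a ZZ/q`.
-/

set_option autoImplicit false

open Finset Filter

namespace Pool.Agent.LIN

open Pool.Agent.LO

private theorem B6b_step_ne {d k : ℕ} (hk : 1 ≤ k) (x : Site d k) (σ : Stp d) : x + sv σ ≠ x := by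
  intro h
  have h1 := evn_step hk x σ
  rw [h] at h1
  by_cases hx : evn x
  · exact (h1.1 hx) hx
  · exact hx (h1.2 hx)

private theorem B6b_step_back {d k : ℕ} (x : Site d k) (σ : Stp d) : x + sv σ + sv (σ.1, !σ.2) = x := by
  obtain ⟨j, b⟩ := σ
  rw [add_assoc, sv_opp, add_zero]

private theorem B6b_SS_update {d k q : ℕ} (hk : 1 ≤ k) (f : Site d k → Fin q) (x : Site d k) (c : Fin q) :
    SS (Function.update f x c) x = SS f x := by
  unfold SS
  have h : ∀ σ : Stp d, Function.update f x c (x + sv σ) = f (x + sv σ) := fun σ =>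
    Function.update_of_ne (B6b_step_ne hk x σ) _ _
  simp only [h]

private theorem B6b_mem_prps {d k q : ℕ} (f : Site d k → Fin q) : f ∈ prps d k q ↔ Prp f := by
  classical
  unfold prps
  rw [mem_filter]
  simp only [mem_univ, true_and]

private theorem B6b_self_notin_SS {d k q : ℕ} {f : Site d k → Fin q} (hf : Prp f) (x : Site d k) :
    f x ∉ SS f x := by
  intro h
  unfold SS at h
  rw [mem_image] at h
  obtain ⟨σ, _, h⟩ := h
  exact hf x σ h

private theorem B6b_Prp_update {d k q : ℕ} (hk : 1 ≤ k) {f : Site d k → Fin q} (hf : Prp f) (x : Site d k)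
    (c : Fin q) (hc : c ∉ SS f x) : Prp (Function.update f x c) := by
  have hc' : ∀ σ : Stp d, f (x + sv σ) ≠ c := by
    intro σ h
    apply hc
    unfold SS
    rw [mem_image]
    exact ⟨σ, mem_univ _, h⟩
  intro z σ
  by_cases hz : z = x
  · subst hz
    rw [Function.update_self, Function.update_of_ne (B6b_step_ne hk z σ)]
    exact hc' σ
  · rw [Function.update_of_ne hz]
    by_cases hz2 : z + sv σ = x
    · rw [hz2, Function.update_self]
      have h1 := B6b_step_back z σ
      rw [hz2] at h1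
      have h2 := hc' (σ.1, !σ.2)
      rw [h1] at h2
      exact h2.symm
    · rw [Function.update_of_ne hz2]
      exact hf z σ

private theorem B6b_resum {d k q : ℕ} (hk : 1 ≤ k) (y : Site d k)
    (Φ : (Site d k → Fin q) → Fin q → ℝ)
    (hΦ : ∀ f a c, Φ (Function.update f y a) c = Φ f c) :
    ∑ f ∈ prps d k q, Φ f (f y) =
      ∑ f ∈ prps d k q, (∑ c ∈ (SS f y)ᶜ, Φ f c) / (av f y : ℝ) := by
  classical
  have hcard : ∀ f : Site d k → Fin q, (((SS f y)ᶜ).card : ℝ) = (av f y : ℝ) := by
    intro f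
    unfold av
    rw [card_compl, Fintype.card_fin]
  have hav : ∀ (f : Site d k → Fin q) (c : Fin q), av (Function.update f y c) y = av f y := by
    intro f c
    unfold av
    rw [B6b_SS_update hk]
  -- left side
  have h1 : ∑ f ∈ prps d k q, Φ f (f y) =
      ∑ f ∈ prps d k q, ∑ c ∈ (SS f y)ᶜ, Φ f (f y) / (av f y : ℝ) := by
    refine sum_congr rfl fun f hf => ?_
    rw [B6b_mem_prps] at hf
    rw [sum_const, nsmul_eq_mul, hcard]
    have hp : (0 : ℝ) < av f y := by exact_mod_cast av_pos hf y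
    field_simp
  -- right side
  have h2 : ∑ f ∈ prps d k q, (∑ c ∈ (SS f y)ᶜ, Φ f c) / (av f y : ℝ) =
      ∑ f ∈ prps d k q, ∑ c ∈ (SS f y)ᶜ, Φ f c / (av f y : ℝ) := by
    refine sum_congr rfl fun f _ => ?_
    rw [sum_div]
  rw [h1, h2, Finset.sum_sigma', Finset.sum_sigma']
  refine Finset.sum_bij' (fun p _ => ⟨Function.update p.1 y p.2, p.1 y⟩)
    (fun p _ => ⟨Function.update p.1 y p.2, p.1 y⟩) ?_ ?_ ?_ ?_ ?_
  · rintro ⟨f, c⟩ h
    rw [mem_sigma] at h ⊢
    obtain ⟨hf, hc⟩ := h
    simp only [B6b_mem_prps, mem_compl] at hf hc ⊢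
    rw [B6b_SS_update hk]
    exact ⟨B6b_Prp_update hk hf y c hc, B6b_self_notin_SS hf y⟩
  · rintro ⟨f, c⟩ h
    rw [mem_sigma] at h ⊢
    obtain ⟨hf, hc⟩ := h
    simp only [B6b_mem_prps, mem_compl] at hf hc ⊢
    rw [B6b_SS_update hk]
    exact ⟨B6b_Prp_update hk hf y c hc, B6b_self_notin_SS hf y⟩
  · rintro ⟨f, c⟩ _
    simp
  · rintro ⟨f, c⟩ _
    simp
  · rintro ⟨f, c⟩ _
    simp only
    rw [hΦ, hav]

/-- resampling `y`, which is neither `x` nor a neighbour of `x` -/
theorem one_pt' {d k q : ℕ} (hk : 2 ≤ k) (x y : Site d k) (hxy : x ≠ y) (hn : ∀ σ : Stp d, x + sv σ ≠ y) :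
    ∑ f ∈ prps d k q, zz f x (f y) =
      ∑ f ∈ prps d k q, (∑ c, zz f x c * zz f y c) / (av f y : ℝ) := by
  classical
  have hS : ∀ (f : Site d k → Fin q) (a : Fin q), SS (Function.update f y a) x = SS f x := by
    intro f a
    unfold SS
    have h : ∀ σ : Stp d, Function.update f y a (x + sv σ) = f (x + sv σ) := fun σ =>
      Function.update_of_ne (hn σ) _ _
    simp only [h]
  rw [B6b_resum (by omega) y (fun f c => zz f x c)]
  · refine sum_congr rfl fun f _ => ?_
    congr 1
    have h1 : ∀ c : Fin q, zz f x c * zz f y c = if c ∉ SS f y then zz f x c else 0 := by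
      intro c
      by_cases hc : c ∈ SS f y
      · have h2 : zz f y c = 0 := by
          unfold zz
          rw [if_pos hc]
        rw [h2, if_neg (not_not.mpr hc), mul_zero]
      · have h2 : zz f y c = 1 := by
          unfold zz
          rw [if_neg hc]
        rw [h2, if_pos hc, mul_one]
    rw [sum_congr rfl fun c _ => h1 c, ← sum_filter]
    apply sum_congr _ fun _ _ => rfl
    ext c
    simp
  · intro f a c
    unfold zz
    rw [hS]

end Pool.Agent.LIN
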