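import Pool.Agent.Lib_MP_2c424f_lin.B6b

/-!
# H30 B6c: pointwise means

* `two_pt`: `x ≠ y` of the class `b`: given the other class `f x`, `f y` are independent and uniform on the available
  colours (`fib_sum`, `fm_prod` with `U = {x, y}`, `φ v a = 1[a = c]`, sum over `c`).
* `one_pt`: `x` of the class `b`, `y` of the class `!b`, not adjacent.  Resample `x` (`resample` of `MainA2`), or `fib_sum`
  with the class `b` (`f y` and `SS f x` fixed on the fibre): `∑ 1[f x = f y] = ∑ zz f x (f y)/av f x`.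
* `xi_mean`: `mean_dev` and translation invariance (`sum_transl`, `av_transl`; both classes have the same mean):
  `E (1-2ξ_x)² ≤ 2 (q log 2/(4d) + 1/q²)`, Cauchy-Schwarz (Jensen).
* `few_mean`: `Xs_mean` with `a = min (1/10) (ε/40)`, translation invariance: for each `x`
  `∑_f 1[ξ_x < 1/2 - a]/av f x ≤ 40 a ZZ/q`.
-/

set_option autoImplicit false

open Finset Filter

namespace Pool.Agent.LIN

open Pool.Agent.LO

private theorem B6c_const {d k q : ℕ} (x y : Site d k) :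
    ∑ f ∈ prps d k q, (1 - 2 * xi f x) ^ 2 = ∑ f ∈ prps d k q, (1 - 2 * xi f y) ^ 2 := by
  rw [← sum_transl (y - x) (fun f => (1 - 2 * xi f x) ^ 2)]
  refine sum_congr rfl fun f _ => ?_
  have h1 : av (fun z => f (z + (y - x))) x = av f y := by
    rw [av_transl]
    congr 1
    abel
  unfold xi
  rw [h1]

private theorem B6c_sq {d k q : ℕ} (hd : 1 ≤ d) (hk : 2 ≤ k) (hq : 2 ≤ q) (x : Site d k) :
    ∑ f ∈ prps d k q, (1 - 2 * xi f x) ^ 2 ≤
      ZZ d k q * (2 * (q * Real.log 2 / (4 * d) + 1 / (q : ℝ) ^ 2)) := by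
  have h := mean_dev (d := d) (k := k) (q := q) hd hk hq true
  rw [Finset.sum_comm] at h
  have h1 : ∑ v ∈ cls true d k, ∑ f ∈ prps d k q, (1 - 2 * xi f v) ^ 2 =
      NN d k / 2 * ∑ f ∈ prps d k q, (1 - 2 * xi f x) ^ 2 := by
    rw [Finset.sum_congr rfl fun v _ => B6c_const v x, Finset.sum_const, nsmul_eq_mul]
    simp only [cls, if_true]
    rw [card_evs hd (by omega)]
  rw [h1] at h
  have hN : 0 < NN d k := by unfold NN; positivity
  have h2 : NN d k / 2 * ∑ f ∈ prps d k q, (1 - 2 * xi f x) ^ 2 ≤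
      NN d k / 2 * (ZZ d k q * (2 * (q * Real.log 2 / (4 * d) + 1 / (q : ℝ) ^ 2))) := by
    refine h.trans (le_of_eq ?_)
    ring
  exact le_of_mul_le_mul_left h2 (by positivity)

theorem xi_mean (ε : ℝ) (hε : 0 < ε) : Ev fun d k q => ∀ x : Site d k,
    ∑ f ∈ prps d k q, |xi f x - 1 / 2| ≤ ε * ZZ d k q := by
  set M : ℝ := max 2 (1 / ε ^ 2) with hM
  have hM2 : 2 ≤ M := le_max_left _ _
  have hMe : 1 / ε ^ 2 ≤ M := le_max_right _ _
  refine (Ev_large M).mono fun d k q h x => ?_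
  obtain ⟨hMq, hMd, hMd', hMk⟩ := h
  have hd : 1 ≤ d := by
    have : (1 : ℝ) ≤ d := by linarith
    exact_mod_cast this
  have hk : 2 ≤ k := by
    have : (2 : ℝ) ≤ k := by linarith
    exact_mod_cast this
  have hq : 2 ≤ q := by
    have : (2 : ℝ) ≤ q := by linarith
    exact_mod_cast this
  have hsq := B6c_sq (d := d) (k := k) (q := q) hd hk hq x
  have hZ : 0 ≤ ZZ d k q := by unfold ZZ; positivity
  have hM0 : 0 < M := by linarith
  have hd0 : (0 : ℝ) < d := by exact_mod_cast hd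
  have hq0 : (0 : ℝ) < q := by linarith
  have hlog : Real.log 2 ≤ 1 := by
    have := Real.log_le_sub_one_of_pos (show (0 : ℝ) < 2 by norm_num)
    linarith
  have hlog0 : 0 ≤ Real.log 2 := Real.log_nonneg (by norm_num)
  have h1 : (q : ℝ) * Real.log 2 / (4 * d) ≤ 1 / (4 * M) := by
    rw [div_le_div_iff₀ (by positivity) (by positivity)]
    nlinarith [mul_le_mul_of_nonneg_left hlog (mul_nonneg hM0.le hq0.le)]
  have h2 : 1 / (q : ℝ) ^ 2 ≤ 1 / (2 * M) := by
    apply one_div_le_one_div_of_le (by positivity)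
    nlinarith
  have h3 : 1 / M ≤ ε ^ 2 := by
    have := one_div_le_one_div_of_le (by positivity) hMe
    rwa [one_div_one_div] at this
  have h4 : 2 * ((q : ℝ) * Real.log 2 / (4 * d) + 1 / (q : ℝ) ^ 2) ≤ 2 * ε ^ 2 := by
    have e1 : 1 / (4 * M) + 1 / (2 * M) = 3 / 4 * (1 / M) := by field_simp; norm_num
    have h5 : 0 < 1 / M := by positivity
    nlinarith
  have h5 : ∑ f ∈ prps d k q, (1 - 2 * xi f x) ^ 2 ≤ ZZ d k q * (2 * ε ^ 2) :=
    hsq.trans (mul_le_mul_of_nonneg_left h4 hZ)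
  have h6 : ∀ f ∈ prps d k q, |xi f x - 1 / 2| ≤ ε / 2 + (1 - 2 * xi f x) ^ 2 / (8 * ε) := by
    intro f _
    have e : (1 - 2 * xi f x) ^ 2 = 4 * |xi f x - 1 / 2| ^ 2 := by
      rw [sq_abs]; ring
    rw [e]
    have h7 : ε / 2 + 4 * |xi f x - 1 / 2| ^ 2 / (8 * ε) - |xi f x - 1 / 2| =
        (|xi f x - 1 / 2| - ε) ^ 2 / (2 * ε) := by
      field_simp
      ring
    have h8 : 0 ≤ (|xi f x - 1 / 2| - ε) ^ 2 / (2 * ε) := by positivity
    linarith
  calc ∑ f ∈ prps d k q, |xi f x - 1 / 2|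
      ≤ ∑ f ∈ prps d k q, (ε / 2 + (1 - 2 * xi f x) ^ 2 / (8 * ε)) := Finset.sum_le_sum h6
    _ = ZZ d k q * (ε / 2) + (∑ f ∈ prps d k q, (1 - 2 * xi f x) ^ 2) / (8 * ε) := by
        rw [Finset.sum_add_distrib, Finset.sum_const, nsmul_eq_mul, Finset.sum_div]
        rfl
    _ ≤ ZZ d k q * (ε / 2) + (ZZ d k q * (2 * ε ^ 2)) / (8 * ε) := by
        have := div_le_div_of_nonneg_right h5 (show 0 ≤ 8 * ε by positivity)
        linarith
    _ = ZZ d k q * ε * (3 / 4) := by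
        field_simp
        ring
    _ ≤ ε * ZZ d k q := by
        have := mul_nonneg hZ hε.le
        linarith

end Pool.Agent.LIN
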