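import Pool.Agent.Lib_MP_2c424f_lin.B6c

/-!
# H30 B6d: pointwise means

* `two_pt`: `x ≠ y` of the class `b`: given the other class `f x`, `f y` are independent and uniform on the available
  colours (`fib_sum`, `fm_prod` with `U = {x, y}`, `φ v a = 1[a = c]`, sum over `c`).
* `one_pt`: `x` of the class `b`, `y` of the class `!b`, not adjacent.  Resample `x` (`resample` of `MainA2`), or `fib_sum`
  with the class `b` (`f y` and `SS f x` fixed on the fibre): `∑ 1[f x = f y] = ∑ zz f x (f y)/av f x`.
* `xi_mean`: `mean_dev` and translation invariance (`sum_transl`, `av_transl`; both classes have the same mean):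
  `E (1-2ξ_x)² ≤ 2 (q log 2/(4d) + 1/q²)`, Cauchy-Schwarz (Jensen).
* `few_mean`: `Xs_mean` with `a = min (1/10) (ε/40)`, translation invariance: for each `x`
  `∑_f 1[ξ_x < 1/2 - a]/av f x ≤ 40 a ZZ/q`.
-/

set_option autoImplicit false

open Finset Filter

namespace Pool.Agent.LIN

open Pool.Agent.LO

open scoped Classical in
theorem few_mean (ε : ℝ) (hε : 0 < ε) : Ev fun d k q => ∀ x : Site d k,
    ∑ f ∈ prps d k q, (if xi f x < 1 / 4 then 1 / (av f x : ℝ) else 0) ≤ ε / q * ZZ d k q := by
  classical
  set a : ℝ := min (1 / 10) (ε / 40) with ha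
  have ha0 : 0 < a := lt_min (by norm_num) (by positivity)
  have ha1 : a ≤ 1 / 10 := min_le_left _ _
  have ha2 : a ≤ ε / 40 := min_le_right _ _
  refine ((Xs_mean a ha0 ha1).and ((Ev_large 1).and (Ev_NN fun _ _ => 1))).mono fun d k q hh => ?_
  obtain ⟨hX, ⟨hq, -, -, -⟩, hN⟩ := hh
  intro x
  have hZ : 0 ≤ ZZ d k q := by unfold ZZ; positivity
  have hNp : 0 < NN d k := by linarith
  have hqp : (0 : ℝ) < q := by linarith
  set F : Site d k → ℝ := fun v =>
    ∑ f ∈ prps d k q, (if xi f v < 1 / 2 - a then 1 / (av f v : ℝ) else 0) with hF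
  -- translation invariance
  have htr : ∀ v, F v = F x := by
    intro v
    have h1 := sum_transl (d := d) (k := k) (q := q) (x - v)
      (fun f => (if xi f v < 1 / 2 - a then 1 / (av f v : ℝ) else 0))
    have h2 : ∀ f : Site d k → Fin q, av (fun y => f (y + (x - v))) v = av f x := by
      intro f
      rw [av_transl]
      congr 1
      abel
    rw [hF]
    simp only
    refine h1.symm.trans (Finset.sum_congr rfl fun f _ => ?_)
    unfold xi
    rw [h2]
  have hsum : ∑ v, F v = NN d k * F x := by
    rw [Finset.sum_congr rfl fun v _ => htr v, Finset.sum_const, nsmul_eq_mul, Finset.card_univ,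
      card_site]
  have hsplit : ∑ v, F v = ∑ v ∈ cls true d k, F v + ∑ v ∈ cls false d k, F v := by
    have h3 := Finset.sum_filter_add_sum_filter_not (univ : Finset (Site d k)) (fun v => evn v) F
    rw [← h3]
    rfl
  have hb : ∀ b, ∑ v ∈ cls b d k, F v ≤ ZZ d k q * (20 * a * (NN d k / q)) := by
    intro b
    rw [hF, Finset.sum_comm]
    exact hX b
  have h4 : NN d k * F x ≤ NN d k * (ε / q * ZZ d k q) := by
    rw [← hsum, hsplit]
    calc _ ≤ ZZ d k q * (20 * a * (NN d k / q)) + ZZ d k q * (20 * a * (NN d k / q)) :=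
          add_le_add (hb true) (hb false)
      _ = (40 * a) * (ZZ d k q * (NN d k / q)) := by ring
      _ ≤ ε * (ZZ d k q * (NN d k / q)) :=
          mul_le_mul_of_nonneg_right (by linarith) (by positivity)
      _ = _ := by field_simp
  have h5 := le_of_mul_le_mul_left h4 hNp
  refine le_trans ?_ h5
  rw [hF]
  refine Finset.sum_le_sum fun f _ => ?_
  by_cases h6 : xi f x < 1 / 4
  · rw [if_pos h6, if_pos (by linarith)]
  · rw [if_neg h6]
    split_ifs <;> positivity

end Pool.Agent.LIN
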