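import Pool.Agent.Lib_MP_2c424f_lin.B7b

/-!
# H30 B7: the two-point function

* `same_odd`: `two_pt` (class `false`).  With `u = ξ_x`, `v = ξ_y`, `h = (1/q) ∑_c z_x z_y ∈ [0,1]`:
  `q ∑_c z_x z_y/(x_x x_y) = h/(uv) ≥ h (12 - 8u - 8v) ≥ 4h - 8|u-1/2| - 8|v-1/2|` (`uv ≤ s²`, `s = (u+v)/2`, `1/s² ≥ 12 - 16 s`),
  `h ≥ (1/q) ∑_c (z_x - |z_x - z_y|) ≥ u - (1/q) ∑_c (|z_x - Lg| + |z_y - Lg|)`, `u ≥ 1/2 - |u-1/2|`.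
  Means: `xi_mean (ε/40)`, `lg_mean (ε/32)`: `q P ≥ 2 - 12 (ε/40) - 8 (ε/40) - 8 (ε/32)`.
* `same`: translate even sites by a step (`sum_transl`).
* `opp`: `x` odd, `y` even (else exchange).  Adjacent: `0`.  Otherwise `one_pt`: `q P ≤ 4 E z_x(f y) + q E 1[ξ_x<1/4]/x_x`
  (`few_mean`), `one_pt'`: `E z_x(f y) = E ∑_c z_x z_y/x_y ≤ (4/q) ∑_c E z_x^c z_y^c + E 1[ξ_y<1/4]`,
  `1[ξ<1/4] ≤ 4|ξ-1/2|` (`xi_mean`); for every `c`: `E z_x z_y ≤ E |z_x - Lg| + E Lg z_y`,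
  `E Lg z_y ≤ E |Lg - m_y| + E m_y z_y`, `|Lg - m_y| ≤ (1/2d) ∑_σ |Lg - z_{y+σ}|` (`lg_mean`, `y + sv σ` odd), and
  `E m_y z_y ≤ q/(5d)` (`fib_sum`, `fm_zm`, class `true`).
-/
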