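import Pool.Agent.Lib_MP_2c424f_lin.B5
import Pool.Agent.Lib_MP_2c424f_lin.B6

/-!
# H30 B7a: the two-point function

* `same_odd`: `two_pt` (class `false`).  With `u = ξ_x`, `v = ξ_y`, `h = (1/q) ∑_c z_x z_y ∈ [0,1]`:
  `q ∑_c z_x z_y/(x_x x_y) = h/(uv) ≥ h (12 - 8u - 8v) ≥ 4h - 8|u-1/2| - 8|v-1/2|` (`uv ≤ s²`, `s = (u+v)/2`, `1/s² ≥ 12 - 16 s`),
  `h ≥ (1/q) ∑_c (z_x - |z_x - z_y|) ≥ u - (1/q) ∑_c (|z_x - Lg| + |z_y - Lg|)`, `u ≥ 1/2 - |u-1/2|`.
  Means: `xi_mean (ε/40)`, `lg_mean (ε/32)`: `q P ≥ 2 - 12 (ε/40) - 8 (ε/40) - 8 (ε/32)`.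
* `same`: translate even sites by a step (`sum_transl`).
* `opp`: `x` odd, `y` even (else exchange).  Adjacent: `0`.  Otherwise `one_pt`: `q P ≤ 4 E z_x(f y) + q E 1[ξ_x<1/4]/x_x`
  (`few_mean`), `one_pt'`: `E z_x(f y) = E ∑_c z_x z_y/x_y ≤ (4/q) ∑_c E z_x^c z_y^c + E 1[ξ_y<1/4]`,
  `1[ξ<1/4] ≤ 4|ξ-1/2|` (`xi_mean`); for every `c`: `E z_x z_y ≤ E |z_x - Lg| + E Lg z_y`,
  `E Lg z_y ≤ E |Lg - m_y| + E m_y z_y`, `|Lg - m_y| ≤ (1/2d) ∑_σ |Lg - z_{y+σ}|` (`lg_mean`, `y + sv σ` odd), and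
  `E m_y z_y ≤ q/(5d)` (`fib_sum`, `fm_zm`, class `true`).
-/

set_option autoImplicit false

open Finset Filter

namespace Pool.Agent.LIN

open Pool.Agent.LO

private theorem B7a_tan {u v : ℝ} (hu : 0 < u) (hv : 0 < v) :
    12 - 8 * u - 8 * v ≤ 1 / (u * v) := by
  rw [le_div_iff₀ (mul_pos hu hv)]
  by_cases h : 12 - 8 * u - 8 * v ≤ 0
  · have := mul_nonneg (sub_nonneg.2 h) (mul_pos hu hv).le
    nlinarith
  · rw [not_le] at h
    have h1 : u * v ≤ ((u + v) / 2) ^ 2 := by nlinarith [sq_nonneg (u - v)]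
    have h2 : (12 - 8 * u - 8 * v) * (u * v) ≤ (12 - 8 * u - 8 * v) * ((u + v) / 2) ^ 2 :=
      mul_le_mul_of_nonneg_left h1 h.le
    have h3 : 0 ≤ (u + v - 1) ^ 2 * (2 * (u + v) + 1) := by positivity
    nlinarith

private theorem B7a_zz {d k q : ℕ} (f : Site d k → Fin q) (x y : Site d k) (c : Fin q) :
    0 ≤ zz f x c * zz f y c ∧ zz f x c * zz f y c ≤ 1 ∧
      zz f x c - |zz f x c - zz f y c| ≤ zz f x c * zz f y c := by
  unfold zz
  split_ifs <;> norm_num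

private theorem B7a_pt {d k q : ℕ} (hq : 1 ≤ q) {f : Site d k → Fin q} (hf : Prp f)
    (x y : Site d k) (L : Fin q → ℝ) :
    2 - 12 * |xi f x - 1 / 2| - 8 * |xi f y - 1 / 2| -
      4 * ((∑ c, (|zz f x c - L c| + |zz f y c - L c|)) / q) ≤
        q * ∑ c, zz f x c * zz f y c / ((av f x : ℝ) * (av f y : ℝ)) := by
  have hq0 : (0 : ℝ) < q := by exact_mod_cast hq
  have hax : (0 : ℝ) < av f x := by exact_mod_cast av_pos hf x
  have hay : (0 : ℝ) < av f y := by exact_mod_cast av_pos hf y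
  have hu0 : 0 < xi f x := div_pos hax hq0
  have hv0 : 0 < xi f y := div_pos hay hq0
  have hu : (∑ c, zz f x c) / q = xi f x := by
    unfold xi
    rw [av_eq]
  have hux : (av f x : ℝ) = q * xi f x := by
    unfold xi
    field_simp
  have hvy : (av f y : ℝ) = q * xi f y := by
    unfold xi
    field_simp
  set u : ℝ := xi f x with hu'
  set v : ℝ := xi f y with hv'
  set h : ℝ := (∑ c, zz f x c * zz f y c) / q with hh
  set D : ℝ := (∑ c, (|zz f x c - L c| + |zz f y c - L c|)) / q with hD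
  have h0 : 0 ≤ h := div_nonneg (Finset.sum_nonneg fun c _ => (B7a_zz f x y c).1) hq0.le
  have h1 : h ≤ 1 := by
    rw [hh, div_le_one hq0]
    calc ∑ c, zz f x c * zz f y c ≤ ∑ _c : Fin q, (1 : ℝ) :=
          Finset.sum_le_sum fun c _ => (B7a_zz f x y c).2.1
      _ = q := by simp
  have h2 : u - D ≤ h := by
    rw [← hu, hD, hh, ← sub_div]
    refine div_le_div_of_nonneg_right ?_ hq0.le
    rw [← Finset.sum_sub_distrib]
    refine Finset.sum_le_sum fun c _ => ?_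
    have h3 := (B7a_zz f x y c).2.2
    have h4 : |zz f x c - zz f y c| ≤ |zz f x c - L c| + |zz f y c - L c| := by
      rw [abs_sub_comm (zz f y c) (L c)]
      exact abs_sub_le _ _ _
    linarith
  have h3 : (q : ℝ) * ∑ c, zz f x c * zz f y c / ((av f x : ℝ) * (av f y : ℝ)) =
      h * (1 / (u * v)) := by
    rw [← Finset.sum_div, hux, hvy, hh]
    field_simp
  rw [h3]
  have h4 := mul_le_mul_of_nonneg_left (B7a_tan hu0 hv0) h0
  refine le_trans ?_ h4
  have h5 : h * (u - 1 / 2) ≤ |u - 1 / 2| :=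
    (mul_le_mul_of_nonneg_left (le_abs_self _) h0).trans (mul_le_of_le_one_left (abs_nonneg _) h1)
  have h6 : h * (v - 1 / 2) ≤ |v - 1 / 2| :=
    (mul_le_mul_of_nonneg_left (le_abs_self _) h0).trans (mul_le_of_le_one_left (abs_nonneg _) h1)
  have h7 : -|u - 1 / 2| ≤ u - 1 / 2 := neg_abs_le _
  have h8 : h * (12 - 8 * u - 8 * v) = 4 * h - 8 * (h * (u - 1 / 2)) - 8 * (h * (v - 1 / 2)) := by
    ring
  rw [h8]
  linarith

open scoped Classical in
private theorem B7a_odd (ε : ℝ) {d k q : ℕ} (hk : 2 ≤ k) (hq : 1 ≤ q)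
    (hxi : ∀ x : Site d k, ∑ f ∈ prps d k q, |xi f x - 1 / 2| ≤ ε / 40 * ZZ d k q)
    (hlg : ∀ (c : Fin q) (v : Site d k), ¬ evn v →
      ∑ f ∈ prps d k q, |zz f v c - Lg f c| ≤ ε / 32 * ZZ d k q) (hε : 0 ≤ ε)
    (x y : Site d k) (hx : ¬ evn x) (hy : ¬ evn y) (hxy : x ≠ y) :
    (2 - ε) / q * ZZ d k q ≤ (((prps d k q).filter fun f => f x = f y).card : ℝ) := by
  have hq0 : (0 : ℝ) < q := by exact_mod_cast hq
  have hcls : ∀ v : Site d k, ¬ evn v → v ∈ cls false d k := fun v hv => by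
    unfold cls
    simp only [Bool.false_eq_true, if_false, ods, Finset.mem_filter, Finset.mem_univ, true_and]
    exact hv
  have hZ : 0 ≤ ZZ d k q := by
    unfold ZZ
    positivity
  rw [two_pt hk false x y (hcls x hx) (hcls y hy) hxy, div_mul_eq_mul_div, div_le_iff₀ hq0, mul_comm
    (∑ f ∈ prps d k q, _) (q : ℝ), Finset.mul_sum]
  have h1 : ∑ f ∈ prps d k q, (2 - 12 * |xi f x - 1 / 2| - 8 * |xi f y - 1 / 2| -
      4 * ((∑ c, (|zz f x c - Lg f c| + |zz f y c - Lg f c|)) / q)) ≤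
      ∑ f ∈ prps d k q, (q : ℝ) * ∑ c, zz f x c * zz f y c / ((av f x : ℝ) * (av f y : ℝ)) := by
    refine Finset.sum_le_sum fun f hf => ?_
    have hprp : Prp f := by
      unfold prps at hf
      exact (Finset.mem_filter.1 hf).2
    exact B7a_pt hq hprp x y (Lg f)
  refine le_trans ?_ h1
  rw [Finset.sum_sub_distrib, Finset.sum_sub_distrib, Finset.sum_sub_distrib, Finset.sum_const,
    ← Finset.mul_sum, ← Finset.mul_sum, ← Finset.mul_sum, ← Finset.sum_div, Finset.sum_comm,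
    nsmul_eq_mul]
  have h2 : ∑ c, ∑ f ∈ prps d k q, (|zz f x c - Lg f c| + |zz f y c - Lg f c|) ≤
      q * (2 * (ε / 32 * ZZ d k q)) := by
    calc ∑ c, ∑ f ∈ prps d k q, (|zz f x c - Lg f c| + |zz f y c - Lg f c|)
        ≤ ∑ _c : Fin q, 2 * (ε / 32 * ZZ d k q) := by
          refine Finset.sum_le_sum fun c _ => ?_
          rw [Finset.sum_add_distrib]
          have h3 := hlg c x hx
          have h4 := hlg c y hy
          linarith
      _ = q * (2 * (ε / 32 * ZZ d k q)) := by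
          rw [Finset.sum_const, Finset.card_univ, Fintype.card_fin, nsmul_eq_mul]
  have h3 : (∑ c, ∑ f ∈ prps d k q, (|zz f x c - Lg f c| + |zz f y c - Lg f c|)) / q ≤
      2 * (ε / 32 * ZZ d k q) := by
    rw [div_le_iff₀ hq0]
    linarith
  have h4 := hxi x
  have h5 := hxi y
  have h6 : ((prps d k q).card : ℝ) = ZZ d k q := rfl
  rw [h6]
  have h7 : 0 ≤ ε * ZZ d k q := mul_nonneg hε hZ
  linarith

open scoped Classical in
theorem same (ε : ℝ) (hε : 0 < ε) : Ev fun d k q => ∀ x y : Site d (k + 1), (evn x ↔ evn y) → x ≠ y →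
    (2 - ε) / q * ZZ d (k + 1) q ≤ (((prps d (k + 1) q).filter fun f => f x = f y).card : ℝ) := by
  refine (((xi_mean (ε / 40) (by positivity)).shift.and (lg_mean (ε / 32) (by positivity))).and
    (Ev_large 1)).mono ?_
  rintro d k q ⟨⟨h1, h2⟩, hq, -, hd, hk⟩ x y hxy hne
  have hq1 : 1 ≤ q := by exact_mod_cast hq
  have hd1 : 1 ≤ d := by exact_mod_cast hd
  have hk1 : 1 ≤ k := by exact_mod_cast hk
  by_cases hx : evn x
  · have hy : evn y := hxy.1 hx
    set τ : Site d (k + 1) := sv ((⟨0, hd1⟩, true) : Stp d) with hτ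
    have hx' : ¬ evn (x + τ) := by
      rw [hτ, evn_step (by omega)]
      exact not_not.2 hx
    have hy' : ¬ evn (y + τ) := by
      rw [hτ, evn_step (by omega)]
      exact not_not.2 hy
    have h3 := B7a_odd ε (by omega) hq1 h1 h2 hε.le (x + τ) (y + τ) hx' hy'
      (fun h => hne (add_right_cancel h))
    refine h3.trans_eq ?_
    rw [Finset.card_filter, Finset.card_filter]
    push_cast
    exact sum_transl τ (fun f => if f x = f y then (1 : ℝ) else 0)
  · have hy : ¬ evn y := fun h => hx (hxy.2 h)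
    exact B7a_odd ε (by omega) hq1 h1 h2 hε.le x y hx hy hne

end Pool.Agent.LIN
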