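import Pool.Agent.Lib_MP_2c424f_lin.B7a

/-!
# H30 B7b: the two-point function

* `same_odd`: `two_pt` (class `false`).  With `u = ξ_x`, `v = ξ_y`, `h = (1/q) ∑_c z_x z_y ∈ [0,1]`:
  `q ∑_c z_x z_y/(x_x x_y) = h/(uv) ≥ h (12 - 8u - 8v) ≥ 4h - 8|u-1/2| - 8|v-1/2|` (`uv ≤ s²`, `s = (u+v)/2`, `1/s² ≥ 12 - 16 s`),
  `h ≥ (1/q) ∑_c (z_x - |z_x - z_y|) ≥ u - (1/q) ∑_c (|z_x - Lg| + |z_y - Lg|)`, `u ≥ 1/2 - |u-1/2|`.
  Means: `xi_mean (ε/40)`, `lg_mean (ε/32)`: `q P ≥ 2 - 12 (ε/40) - 8 (ε/40) - 8 (ε/32)`.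
* `same`: translate even sites by a step (`sum_transl`).
* `opp`: `x` odd, `y` even (else exchange).  Adjacent: `0`.  Otherwise `one_pt`: `q P ≤ 4 E z_x(f y) + q E 1[ξ_x<1/4]/x_x`
  (`few_mean`), `one_pt'`: `E z_x(f y) = E ∑_c z_x z_y/x_y ≤ (4/q) ∑_c E z_x^c z_y^c + E 1[ξ_y<1/4]`,
  `1[ξ<1/4] ≤ 4|ξ-1/2|` (`xi_mean`); for every `c`: `E z_x z_y ≤ E |z_x - Lg| + E Lg z_y`,
  `E Lg z_y ≤ E |Lg - m_y| + E m_y z_y`, `|Lg - m_y| ≤ (1/2d) ∑_σ |Lg - z_{y+σ}|` (`lg_mean`, `y + sv σ` odd), and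
  `E m_y z_y ≤ q/(5d)` (`fib_sum`, `fm_zm`, class `true`).
-/

set_option autoImplicit false

open Finset Filter

namespace Pool.Agent.LIN

open Pool.Agent.LO

section aux
variable {d k q : ℕ}

private theorem B7b_mem {f : Site d k → Fin q} (hf : f ∈ prps d k q) : Prp f := by
  classical
  unfold prps at hf
  exact (mem_filter.1 hf).2

private theorem B7b_z01 (f : Site d k → Fin q) (v : Site d k) (c : Fin q) :
    0 ≤ zz f v c ∧ zz f v c ≤ 1 := by
  unfold zz
  split_ifs <;> norm_num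

private theorem B7b_L01 (f : Site d k → Fin q) (c : Fin q) : 0 ≤ Lg f c ∧ Lg f c ≤ 1 := by
  unfold Lg
  split_ifs <;> norm_num

private theorem B7b_PP (f : Site d k → Fin q) (hd : 1 ≤ d) (y : Site d k) (c : Fin q) :
    |Lg f c - PP (fun x => zz f x c) y| ≤
      (∑ σ : Stp d, |zz f (y + sv σ) c - Lg f c|) / (2 * d) := by
  have hd0 : (0 : ℝ) < 2 * d := by
    have : (1 : ℝ) ≤ d := by exact_mod_cast hd
    linarith
  have hcard : ((univ : Finset (Stp d)).card : ℝ) = 2 * d := by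
    have h : Fintype.card (Stp d) = d * 2 := by
      unfold Stp
      rw [Fintype.card_prod, Fintype.card_fin, Fintype.card_bool]
    rw [card_univ, h]
    push_cast
    ring
  have h1 : Lg f c - PP (fun x => zz f x c) y =
      (∑ σ : Stp d, (Lg f c - zz f (y + sv σ) c)) / (2 * d) := by
    unfold PP
    rw [sum_sub_distrib, sum_const, nsmul_eq_mul, hcard, sub_div,
      mul_div_cancel_left₀ _ hd0.ne']
  rw [h1, abs_div, abs_of_pos hd0]
  refine div_le_div_of_nonneg_right ?_ hd0.le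
  refine (abs_sum_le_sum_abs _ _).trans (le_of_eq (sum_congr rfl fun σ _ => ?_))
  exact abs_sub_comm _ _

/-- the mean of `z_x z_y` for one colour -/
private theorem B7b_color (hd : 1 ≤ d) (hk : 2 ≤ k) (hq : 1 ≤ q) (e : ℝ) (c : Fin q) (x y : Site d k)
    (hx : ¬ evn x) (hy : evn y)
    (hL : ∀ v : Site d k, ¬ evn v → ∑ f ∈ prps d k q, |zz f v c - Lg f c| ≤ e * ZZ d k q) :
    ∑ f ∈ prps d k q, zz f x c * zz f y c ≤ (2 * e + q / (5 * d)) * ZZ d k q := by
  classical
  have hd0 : (0 : ℝ) < 2 * d := by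
    have : (1 : ℝ) ≤ d := by exact_mod_cast hd
    linarith
  have hcard : ((univ : Finset (Stp d)).card : ℝ) = 2 * d := by
    have h : Fintype.card (Stp d) = d * 2 := by
      unfold Stp
      rw [Fintype.card_prod, Fintype.card_fin, Fintype.card_bool]
    rw [card_univ, h]
    push_cast
    ring
  have h1 : ∀ f ∈ prps d k q, zz f x c * zz f y c ≤ |zz f x c - Lg f c| +
      (∑ σ : Stp d, |zz f (y + sv σ) c - Lg f c|) / (2 * d) +
      zz f y c * PP (fun x => zz f x c) y := by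
    intro f _
    have hz := B7b_z01 f x c
    have hz' := B7b_z01 f y c
    have hl := B7b_L01 f c
    have h2 := B7b_PP f hd y c
    have h3 : |zz f x c - Lg f c| * zz f y c ≤ |zz f x c - Lg f c| :=
      mul_le_of_le_one_right (abs_nonneg _) hz'.2
    have h4 : |Lg f c - PP (fun x => zz f x c) y| * zz f y c ≤
        |Lg f c - PP (fun x => zz f x c) y| := mul_le_of_le_one_right (abs_nonneg _) hz'.2
    have h5 : (zz f x c - Lg f c) * zz f y c ≤ |zz f x c - Lg f c| * zz f y c :=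
      mul_le_mul_of_nonneg_right (le_abs_self _) hz'.1
    have h6 : (Lg f c - PP (fun x => zz f x c) y) * zz f y c ≤
        |Lg f c - PP (fun x => zz f x c) y| * zz f y c :=
      mul_le_mul_of_nonneg_right (le_abs_self _) hz'.1
    have h7 : zz f x c * zz f y c = (zz f x c - Lg f c) * zz f y c +
        (Lg f c - PP (fun x => zz f x c) y) * zz f y c + zz f y c * PP (fun x => zz f x c) y := by
      ring
    rw [h7]
    linarith
  refine (sum_le_sum h1).trans ?_
  rw [sum_add_distrib, sum_add_distrib]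
  have e1 := hL x hx
  have e2 : ∑ f ∈ prps d k q, (∑ σ : Stp d, |zz f (y + sv σ) c - Lg f c|) / (2 * d) ≤
      e * ZZ d k q := by
    rw [← sum_div, sum_comm, div_le_iff₀ hd0]
    have h8 : ∀ σ ∈ (univ : Finset (Stp d)),
        ∑ f ∈ prps d k q, |zz f (y + sv σ) c - Lg f c| ≤ e * ZZ d k q := by
      intro σ _
      exact hL _ fun h => ((evn_step (by omega) y σ).1 h) hy
    refine (sum_le_sum h8).trans ?_
    rw [sum_const, nsmul_eq_mul, hcard, mul_comm]
  have e3 : ∑ f ∈ prps d k q, zz f y c * PP (fun x => zz f x c) y ≤ q / (5 * d) * ZZ d k q := by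
    rw [fib_sum (by omega) (!true)]
    have hy' : y ∈ cls true d k := by
      unfold cls
      rw [if_pos rfl]
      unfold evs
      exact mem_filter.2 ⟨mem_univ _, hy⟩
    refine (sum_le_sum fun f hf => fm_zm hd hk hq true (B7b_mem hf) y hy' c).trans ?_
    rw [sum_const, nsmul_eq_mul, mul_comm]
    exact le_refl _
  linarith

open scoped Classical in
/-- the case `x` odd, `y` even -/
private theorem B7b_main (hd : 1 ≤ d) (hk : 2 ≤ k) (hq : 1 ≤ q) (e e1 e2 : ℝ)
    (x y : Site d k) (hx : ¬ evn x) (hy : evn y)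
    (hL : ∀ (c : Fin q) (v : Site d k), ¬ evn v →
      ∑ f ∈ prps d k q, |zz f v c - Lg f c| ≤ e * ZZ d k q)
    (hX : ∀ x : Site d k, ∑ f ∈ prps d k q, |xi f x - 1 / 2| ≤ e1 * ZZ d k q)
    (hF : ∀ x : Site d k, ∑ f ∈ prps d k q, (if xi f x < 1 / 4 then 1 / (av f x : ℝ) else 0) ≤
      e2 / q * ZZ d k q) (he : 0 ≤ e) (he1 : 0 ≤ e1) (he2 : 0 ≤ e2) :
    (((prps d k q).filter fun f => f x = f y).card : ℝ) ≤
      (16 * (2 * e + q / (5 * d)) + 16 * e1 + e2) / q * ZZ d k q := by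
  have hq0 : (0 : ℝ) < q := by exact_mod_cast hq
  have hZ : 0 ≤ ZZ d k q := Nat.cast_nonneg _
  by_cases hn : ∃ σ : Stp d, x + sv σ = y
  · obtain ⟨σ, rfl⟩ := hn
    have h0 : ((prps d k q).filter fun f => f x = f (x + sv σ)) = ∅ := by
      refine filter_eq_empty_iff.2 fun f hf h => ?_
      exact B7b_mem hf x σ h.symm
    rw [h0, card_empty, Nat.cast_zero]
    positivity
  push Not at hn
  have hxy : x ≠ y := by
    rintro rfl
    exact hx hy
  rw [one_pt hk x y hxy]
  -- the colour of `y` at `x`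
  have h1 : ∀ f ∈ prps d k q, zz f x (f y) / (av f x : ℝ) ≤
      4 / q * zz f x (f y) + (if xi f x < 1 / 4 then 1 / (av f x : ℝ) else 0) := by
    intro f hf
    have ha : (1 : ℝ) ≤ av f x := by exact_mod_cast av_pos (B7b_mem hf) x
    have ha0 : (0 : ℝ) < av f x := by linarith
    have hz := B7b_z01 f x (f y)
    by_cases h : xi f x < 1 / 4
    · rw [if_pos h]
      have h2 : zz f x (f y) / (av f x : ℝ) ≤ 1 / (av f x : ℝ) :=
        div_le_div_of_nonneg_right hz.2 ha0.le
      have h3 : 0 ≤ 4 / q * zz f x (f y) := mul_nonneg (by positivity) hz.1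
      linarith
    · rw [if_neg h, add_zero]
      unfold xi at h
      rw [not_lt, le_div_iff₀ hq0] at h
      rw [div_mul_eq_mul_div, div_le_div_iff₀ ha0 hq0]
      nlinarith [hz.1, mul_nonneg hz.1 (sub_nonneg.2 h)]
  have h2 : ∑ f ∈ prps d k q, zz f x (f y) / (av f x : ℝ) ≤
      4 / q * ∑ f ∈ prps d k q, zz f x (f y) + e2 / q * ZZ d k q := by
    refine (sum_le_sum h1).trans ?_
    rw [sum_add_distrib, ← mul_sum]
    have := hF x
    linarith
  refine h2.trans ?_
  -- resample `y`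
  have h3 : ∀ f ∈ prps d k q, (∑ c, zz f x c * zz f y c) / (av f y : ℝ) ≤
      4 / q * (∑ c, zz f x c * zz f y c) + 4 * |xi f y - 1 / 2| := by
    intro f hf
    have ha : (1 : ℝ) ≤ av f y := by exact_mod_cast av_pos (B7b_mem hf) y
    have ha0 : (0 : ℝ) < av f y := by linarith
    have hS0 : 0 ≤ ∑ c, zz f x c * zz f y c :=
      sum_nonneg fun c _ => mul_nonneg (B7b_z01 f x c).1 (B7b_z01 f y c).1
    by_cases h : xi f y < 1 / 4
    · have hS : ∑ c, zz f x c * zz f y c ≤ av f y := by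
        rw [av_eq]
        refine sum_le_sum fun c _ => ?_
        exact mul_le_of_le_one_left (B7b_z01 f y c).1 (B7b_z01 f x c).2
      have h4 : (∑ c, zz f x c * zz f y c) / (av f y : ℝ) ≤ 1 := (div_le_one ha0).2 hS
      have h5 : 1 ≤ 4 * |xi f y - 1 / 2| := by
        have := neg_abs_le (xi f y - 1 / 2)
        linarith
      have h6 : 0 ≤ 4 / q * (∑ c, zz f x c * zz f y c) := mul_nonneg (by positivity) hS0
      linarith
    · have h7 : (∑ c, zz f x c * zz f y c) / (av f y : ℝ) ≤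
          4 / q * (∑ c, zz f x c * zz f y c) := by
        unfold xi at h
        rw [not_lt, le_div_iff₀ hq0] at h
        rw [div_mul_eq_mul_div, div_le_div_iff₀ ha0 hq0]
        nlinarith [mul_nonneg hS0 (sub_nonneg.2 h)]
      have := abs_nonneg (xi f y - 1 / 2)
      linarith
  have h4 : ∑ f ∈ prps d k q, zz f x (f y) ≤
      (4 * (2 * e + q / (5 * d)) + 4 * e1) * ZZ d k q := by
    rw [one_pt' hk x y hxy hn]
    refine (sum_le_sum h3).trans ?_
    rw [sum_add_distrib, ← mul_sum, ← mul_sum, sum_comm]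
    have h5 : ∑ c : Fin q, ∑ f ∈ prps d k q, zz f x c * zz f y c ≤
        q * ((2 * e + q / (5 * d)) * ZZ d k q) := by
      refine (sum_le_sum fun c _ => B7b_color hd hk hq e c x y hx hy (hL c)).trans ?_
      rw [sum_const, nsmul_eq_mul, card_univ, Fintype.card_fin]
    have h6 := mul_le_mul_of_nonneg_left h5 (by positivity : (0 : ℝ) ≤ 4 / q)
    have h7 : 4 / q * (q * ((2 * e + q / (5 * d)) * ZZ d k q)) =
        4 * (2 * e + q / (5 * d)) * ZZ d k q := by
      field_simp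
    rw [h7] at h6
    have h8 := hX y
    linarith
  have h5 := mul_le_mul_of_nonneg_left h4 (by positivity : (0 : ℝ) ≤ 4 / q)
  have h6 : 4 / (q : ℝ) * ((4 * (2 * e + q / (5 * d)) + 4 * e1) * ZZ d k q) + e2 / q * ZZ d k q =
      (16 * (2 * e + q / (5 * d)) + 16 * e1 + e2) / q * ZZ d k q := by
    ring
  rw [← h6]
  linarith

end aux

open scoped Classical in
theorem opp (ε : ℝ) (hε : 0 < ε) : Ev fun d k q => ∀ x y : Site d (k + 1), ¬ (evn x ↔ evn y) →
    (((prps d (k + 1) q).filter fun f => f x = f y).card : ℝ) ≤ ε / q * ZZ d (k + 1) q := by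
  refine ((((lg_mean (ε / 128) (by positivity)).and (xi_mean (ε / 64) (by positivity)).shift).and
    (few_mean (ε / 4) (by positivity)).shift).and (Ev_large (max 1 (16 / ε)))).mono ?_
  rintro d k q ⟨⟨⟨hL, hX⟩, hF⟩, hM1, hM2, hM3, hM4⟩ x y hxy
  have hd : 1 ≤ d := by exact_mod_cast (le_max_left _ _).trans hM3
  have hk : 1 ≤ k := by exact_mod_cast (le_max_left _ _).trans hM4
  have hq : 1 ≤ q := by exact_mod_cast (le_max_left _ _).trans hM1
  have hq0 : (0 : ℝ) < q := by exact_mod_cast hq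
  have hd0 : (0 : ℝ) < d := by exact_mod_cast hd
  have hZ : 0 ≤ ZZ d (k + 1) q := Nat.cast_nonneg _
  have h1 : (q : ℝ) / (5 * d) ≤ ε / 80 := by
    have h2 : 16 / ε * q ≤ d := (mul_le_mul_of_nonneg_right (le_max_right _ _) hq0.le).trans hM2
    rw [div_mul_eq_mul_div, div_le_iff₀ hε] at h2
    rw [div_le_div_iff₀ (by positivity) (by norm_num)]
    nlinarith
  have h3 : (16 * (2 * (ε / 128) + q / (5 * d)) + 16 * (ε / 64) + ε / 4) / q * ZZ d (k + 1) q ≤
      ε / q * ZZ d (k + 1) q := by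
    refine mul_le_mul_of_nonneg_right (div_le_div_of_nonneg_right ?_ hq0.le) hZ
    linarith
  by_cases hx : evn x
  · have hy : ¬ evn y := fun h => hxy ⟨fun _ => h, fun _ => hx⟩
    have h4 := B7b_main hd (by omega) hq (ε / 128) (ε / 64) (ε / 4) y x hy hx hL hX hF
      (by positivity) (by positivity) (by positivity)
    have h5 : ((prps d (k + 1) q).filter fun f => f x = f y) =
        (prps d (k + 1) q).filter fun f => f y = f x := by
      refine filter_congr fun f _ => ?_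
      exact eq_comm
    rw [h5]
    exact h4.trans h3
  · have hy : evn y := by
      by_contra hy
      exact hxy ⟨fun h => absurd h hx, fun h => absurd h hy⟩
    exact (B7b_main hd (by omega) hq (ε / 128) (ε / 64) (ε / 4) x y hx hy hL hX hF
      (by positivity) (by positivity) (by positivity)).trans h3

end Pool.Agent.LIN
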