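import Pool.Agent.Lib_MP_2c424f_lin.L0

/-!
# H30 D0: counting lemmas for `nS`

`nS P` = number of sites with `P`.  Markov's inequality, translations, unions; `PP`, `AA` of an indicator.
`nS_PP`: `∑_x PP 1_P x = ∑_x 1_P x` (`sum_PP`), Markov.
`sum_lt`: for `0 ≤ F ≤ 1`: `∑ F ≤ e N + nS (e ≤ F)`.
-/

set_option autoImplicit false

open Finset

namespace Pool.Agent.LIN

open Pool.Agent.LO

variable {d k q : ℕ}

theorem nS_nonneg (P : Site d k → Prop) : 0 ≤ nS P := by
  unfold nS
  positivity

open scoped Classical in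
theorem nS_sum (P : Site d k → Prop) : nS P = ∑ x, if P x then (1 : ℝ) else 0 := by
  unfold nS
  rw [Finset.sum_boole]

theorem nS_le (P : Site d k → Prop) : nS P ≤ NN d k := by
  classical
  unfold nS
  rw [← card_site]
  exact_mod_cast Finset.card_le_univ _

theorem nS_mono {P Q : Site d k → Prop} (h : ∀ x, P x → Q x) : nS P ≤ nS Q := by
  classical
  unfold nS
  have h1 : (univ : Finset (Site d k)).filter P ⊆ univ.filter Q := by
    intro x hx
    rw [mem_filter] at hx ⊢
    exact ⟨hx.1, h x hx.2⟩
  exact_mod_cast Finset.card_le_card h1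

theorem nS_or (P Q : Site d k → Prop) : nS (fun x => P x ∨ Q x) ≤ nS P + nS Q := by
  classical
  rw [nS_sum, nS_sum, nS_sum, ← Finset.sum_add_distrib]
  refine Finset.sum_le_sum fun x _ => ?_
  by_cases h1 : P x <;> by_cases h2 : Q x <;> simp [h1, h2]

theorem nS_transl (τ : Site d k) (P : Site d k → Prop) : nS (fun x => P (x + τ)) = nS P := by
  classical
  rw [nS_sum, nS_sum]
  exact Equiv.sum_comp (Equiv.addRight τ) (fun x => if P x then (1 : ℝ) else 0)

/-- number of sites = sum over the two classes -/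
theorem nS_cls (P : Site d k → Prop) [DecidablePred P] :
    nS P = ((cls true d k).filter P).card + ((cls false d k).filter P).card := by
  classical
  unfold nS cls evs ods
  simp only [if_true, Bool.false_eq_true, if_false]
  rw [← Nat.cast_add]
  congr 1
  rw [Finset.filter_filter, Finset.filter_filter]
  have h := Finset.card_filter_add_card_filter_not (s := (univ : Finset (Site d k)).filter P) (fun x => evn x)
  rw [Finset.filter_filter, Finset.filter_filter] at h
  have h1 : (univ : Finset (Site d k)).filter (fun x => P x ∧ evn x) =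
      univ.filter (fun x => evn x ∧ P x) := by
    ext x
    simp [and_comm]
  have h2 : (univ : Finset (Site d k)).filter (fun x => P x ∧ ¬ evn x) =
      univ.filter (fun x => ¬ evn x ∧ P x) := by
    ext x
    simp [and_comm]
  rw [h1, h2] at h
  convert h.symm using 2
  congr

theorem nS_markov {F : Site d k → ℝ} (hF : ∀ x, 0 ≤ F x) (a : ℝ) :
    a * nS (fun x => a ≤ F x) ≤ ∑ x, F x := by
  classical
  rw [nS_sum, Finset.mul_sum]
  refine Finset.sum_le_sum fun x _ => ?_
  split_ifs with h
  · linarith
  · simpa using hF x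

theorem sum_lt {F : Site d k → ℝ} (hF : ∀ x, F x ≤ 1) (e : ℝ) (he : 0 ≤ e) :
    ∑ x, F x ≤ e * NN d k + nS (fun x => e ≤ F x) := by
  classical
  have h1 : e * NN d k = ∑ _x : Site d k, e := by
    rw [Finset.sum_const, Finset.card_univ, nsmul_eq_mul, card_site, mul_comm]
  rw [h1, nS_sum, ← Finset.sum_add_distrib]
  refine Finset.sum_le_sum fun x _ => ?_
  split_ifs with h
  · linarith [hF x]
  · linarith

open scoped Classical in
theorem nS_PP (hd : 1 ≤ d) (P : Site d k → Prop) (a : ℝ) :
    a * nS (fun x => a ≤ PP (fun y => if P y then (1 : ℝ) else 0) x) ≤ nS P := by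
  have h0 : ∀ x : Site d k, 0 ≤ PP (fun y => if P y then (1 : ℝ) else 0) x := by
    intro x
    unfold PP
    refine div_nonneg (Finset.sum_nonneg fun σ _ => ?_) (by positivity)
    by_cases h : P (x + sv σ) <;> simp [h]
  refine (nS_markov h0 a).trans ?_
  unfold PP
  rw [← Finset.sum_div, Finset.sum_comm]
  have h1 : ∀ σ : Stp d, ∑ x : Site d k, (if P (x + sv σ) then (1 : ℝ) else 0) = nS P := by
    intro σ
    rw [← nS_sum, nS_transl]
  simp only [h1]
  rw [Finset.sum_const, Finset.card_univ, nsmul_eq_mul, Fintype.card_prod, Fintype.card_fin, Fintype.card_bool]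
  have hd' : (0 : ℝ) < d := by exact_mod_cast hd
  push_cast
  rw [mul_comm (d : ℝ) 2, mul_div_assoc, mul_div_cancel₀]
  positivity

open scoped Classical in
/-- Markov for edges: `PE x σ` = the edge from `x` in the direction `σ` is exceptional -/
theorem nS_edge (hd : 1 ≤ d) (PE : Site d k → Stp d → Prop) (a B : ℝ) (hB : ∀ σ, nS (fun x => PE x σ) ≤ B) :
    a * nS (fun x => a ≤ (∑ σ : Stp d, if PE x σ then (1 : ℝ) else 0) / (2 * d)) ≤ B := by
  have h0 : ∀ x : Site d k, 0 ≤ (∑ σ : Stp d, if PE x σ then (1 : ℝ) else 0) / (2 * d) := by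
    intro x
    refine div_nonneg (Finset.sum_nonneg fun σ _ => ?_) (by positivity)
    split_ifs <;> norm_num
  refine (nS_markov h0 a).trans ?_
  rw [← Finset.sum_div, Finset.sum_comm]
  have h1 : ∀ σ : Stp d, ∑ x : Site d k, (if PE x σ then (1 : ℝ) else 0) ≤ B := by
    intro σ
    rw [← nS_sum]
    exact hB σ
  have h2 : ∑ σ : Stp d, ∑ x : Site d k, (if PE x σ then (1 : ℝ) else 0) ≤ (2 * d) * B := by
    refine (Finset.sum_le_sum fun σ _ => h1 σ).trans ?_
    rw [Finset.sum_const, Finset.card_univ, nsmul_eq_mul, Fintype.card_prod, Fintype.card_fin, Fintype.card_bool]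
    push_cast
    linarith
  have hd' : (0 : ℝ) < d := by exact_mod_cast hd
  rw [div_le_iff₀ (by positivity)]
  linarith

end Pool.Agent.LIN
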