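import Pool.Agent.Lib_MP_2c424f_lin.L7c

/-!
# H30 L7: conditional means, and the rare events for `z`, `ζ`, `ξ` (6.3)(iii)

* `fm_zz`: for `v ∈ cls b`, given the class `b` the neighbours of `v` are independent and uniform on their available
  colours; `zz h v c = ∏_σ 1[h (v + sv σ) ≠ c]` (distinct neighbours for `k ≥ 2`), so by `fm_prod` (class `!b`)
  `fm (!b) (zz · v c) f = ∏_σ (1 - zz f (v+sv σ) c / av f (v+sv σ)) = zt f v c`.
* `zt h v c = zt f v c` and `PP (zz h · c) v = PP (zz f · c) v` for `h ∈ fib (!b) f`, `v ∈ cls b` (they depend on the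
  class `b`).
* `zt_nonneg`, `zt_le_one`: `zz f u c = 1` implies `1 ≤ av f u` (and `0/0 = 0`).
* `fm_zm`: by `PP_fib`, `fm_zz` it is `ζ m ≤ m exp (-(2d/q) m) ≤ q/(2ed) ≤ q/(5d)` (`y exp (-y) ≤ 1/e`, `Real.add_one_le_exp`).
* `zt_le`: `zt ≤ exp (-(2d/q) m)`, `m = PP (zz · c) v` (`1 - y ≤ exp (-y)`, `av ≤ q`), `0 ≤ zt ≤ 1`.
-/
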