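import Pool.Agent.Lib_MP_2c424f_lin.D0
import Pool.Agent.Lib_MP_2c424f_lin.L7

/-!
# H30 D1a: most sites have about `q/2` available colours around them

`e1 = min (1/100) (e²/24)`, `a = e1`.  `ξ = av/q > 0`, `α = Av (1/ξ)`.  Exceptional sites: `E1 = {2 + e1 ≤ α}` (`h1`),
`E2 = {1 + e1 ≤ Av (ξ + Pξ)}` (`h2`), `E3 = {a ≤ PP 1_{E1}}` (`nS_PP`, `≤ |E1|/a`).  Off `E1`: `1 ≤ Av ξ · Av (1/ξ)`
(`Av_cs` with `√ξ`, `1/√ξ`), so `Av ξ ≥ 1/(2+e1) ≥ 1/2 - e1/4`.  Off `E3`: `Av (Pξ) = P (Av ξ) ≥ (1-a)(1/2 - e1/4) ≥ 1/2 - e1/4 - a/2`.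
Off `E1 ∪ E2 ∪ E3`: `Av ξ ≤ 1/2 + 5e1/4 + a/2`, `Av ((1-2ξ)²/ξ) = α - 4 + 4 Av ξ ≤ 6 e1 + 2a = 8 e1`, and by `Av_cs`
(`|1/ξ - 2| = (|1-2ξ|/√ξ)(1/√ξ)`) `Av |1/ξ - 2| ≤ √(8 e1 (2+e1)) < e`.  `C = 4 + 2/e1`.
`Reg.mono`: larger `e`, smaller sets.
-/

set_option autoImplicit false

open Finset

namespace Pool.Agent.LIN

open Pool.Agent.LO

theorem Reg.mono {d k q : ℕ} {e e' : ℝ} {c : Fin q} {f : Site d k → Fin q} (h : Reg e c f) (he : e ≤ e') :
    Reg e' c f := by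
  have hq : e / q ≤ e' / q := div_le_div_of_nonneg_right he (Nat.cast_nonneg q)
  refine ⟨?_, ?_, ?_, ?_, ?_, ?_⟩
  · exact (nS_mono fun x hx => by linarith).trans h.h1
  · exact (nS_mono fun x hx => by linarith).trans h.h2
  · exact fun σ => (nS_mono fun x hx => by linarith).trans (h.h3 σ)
  · exact (nS_mono fun x hx => by linarith).trans h.h4
  · exact (nS_mono fun x hx => by linarith).trans h.h5
  · exact (nS_mono fun x hx => by linarith).trans h.h6

/-- the pointwise estimate -/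
private theorem D1a_pt {d k : ℕ} (hd : 35 ≤ d) {e e1 : ℝ} (he : 0 < e) (h1 : 0 < e1) (h1a : e1 ≤ 1 / 100)
    (h1b : e1 ≤ e ^ 2 / 24) (u ξ : Site d k → ℝ) (hu : ∀ v, 0 < u v) (hξ : ∀ v, 0 < ξ v)
    (huξ : ∀ v, ξ v * u v = 1) (x : Site d k) (hx1 : Av u x < 2 + e1)
    (hx2 : Av (fun v => ξ v + PP ξ v) x < 1 + e1)
    (hx3 : PP (fun y => if 2 + e1 ≤ Av u y then (1 : ℝ) else 0) x < e1) :
    Av (fun v => |u v - 2|) x < e := by
  have hξ0 : ∀ y, 0 ≤ Av ξ y := by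
    intro y
    have := Av_mono (g := fun _ => (0 : ℝ)) (h := ξ) (fun v => (hξ v).le) y
    rwa [Av_const hd] at this
  have hu0 : ∀ y, 0 ≤ Av u y := by
    intro y
    have := Av_mono (g := fun _ => (0 : ℝ)) (h := u) (fun v => (hu v).le) y
    rwa [Av_const hd] at this
  -- Cauchy-Schwarz
  have hcs : ∀ y, 1 ≤ Av ξ y * Av u y := by
    intro y
    have h := Av_cs (fun v => Real.sqrt (ξ v)) (fun v => Real.sqrt (u v)) y
    have h2 : (fun v => Real.sqrt (ξ v) * Real.sqrt (u v)) = fun _ => (1 : ℝ) := by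
      funext v
      rw [← Real.sqrt_mul (hξ v).le, huξ, Real.sqrt_one]
    have h3 : (fun v => Real.sqrt (ξ v) ^ 2) = ξ := by
      funext v
      exact Real.sq_sqrt (hξ v).le
    have h4 : (fun v => Real.sqrt (u v) ^ 2) = u := by
      funext v
      exact Real.sq_sqrt (hu v).le
    rw [h2, h3, h4, Av_const hd] at h
    linarith
  have hlow : ∀ y, ¬ (2 + e1 ≤ Av u y) → 1 / 2 - e1 / 4 ≤ Av ξ y := by
    intro y hy
    push Not at hy
    by_contra hc
    push Not at hc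
    have h5 := hcs y
    have h6 : Av ξ y * Av u y ≤ Av ξ y * (2 + e1) := mul_le_mul_of_nonneg_left hy.le (hξ0 y)
    have h7 : Av ξ y * (2 + e1) < (1 / 2 - e1 / 4) * (2 + e1) :=
      mul_lt_mul_of_pos_right hc (by linarith)
    nlinarith
  -- `Av (P ξ)`
  have hP : 1 / 2 - e1 / 4 - e1 / 2 ≤ Av (PP ξ) x := by
    rw [Av_PP]
    have hb : ∀ y, (1 / 2 - e1 / 4) - (1 / 2) * (if 2 + e1 ≤ Av u y then (1 : ℝ) else 0) ≤ Av ξ y := by
      intro y
      by_cases hy : 2 + e1 ≤ Av u y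
      · rw [if_pos hy]
        have := hξ0 y
        linarith
      · rw [if_neg hy]
        have := hlow y hy
        linarith
    have hd' : (0 : ℝ) < 2 * d := by
      have : (35 : ℝ) ≤ d := by exact_mod_cast hd
      linarith
    have h8 : (1 / 2 - e1 / 4) - (1 / 2) * PP (fun y => if 2 + e1 ≤ Av u y then (1 : ℝ) else 0) x ≤
        PP (Av ξ) x := by
      unfold PP
      rw [le_div_iff₀ hd']
      have h9 : ((1 / 2 - e1 / 4) - (1 / 2) * ((∑ σ : Stp d, if 2 + e1 ≤ Av u (x + sv σ) then (1 : ℝ) else 0) /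
          (2 * d))) * (2 * d) = ∑ σ : Stp d, ((1 / 2 - e1 / 4) - (1 / 2) *
          (if 2 + e1 ≤ Av u (x + sv σ) then (1 : ℝ) else 0)) := by
        rw [Finset.sum_sub_distrib, ← Finset.mul_sum, Finset.sum_const, Finset.card_univ, nsmul_eq_mul,
          Fintype.card_prod, Fintype.card_fin, Fintype.card_bool]
        push_cast
        field_simp
      rw [h9]
      exact Finset.sum_le_sum fun σ _ => hb _
    linarith
  have hx2' : Av ξ x + Av (PP ξ) x < 1 + e1 := by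
    rw [← Av_add]
    exact hx2
  have hxi : Av ξ x ≤ 1 / 2 + 5 * e1 / 4 + e1 / 2 := by linarith
  -- second moment
  have hsec : Av (fun v => (|1 - 2 * ξ v| * Real.sqrt (u v)) ^ 2) x ≤ 8 * e1 := by
    have h10 : (fun v => (|1 - 2 * ξ v| * Real.sqrt (u v)) ^ 2) = fun v => (u v + (-4)) + 4 * ξ v := by
      funext v
      rw [mul_pow, sq_abs, Real.sq_sqrt (hu v).le]
      have := huξ v
      linear_combination (4 * ξ v - 4) * this
    rw [h10, Av_add (fun v => u v + (-4)) (fun v => 4 * ξ v), Av_add u (fun _ => (-4 : ℝ)), Av_const hd, Av_mul]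
    linarith
  have hcs2 := Av_cs (fun v => |1 - 2 * ξ v| * Real.sqrt (u v)) (fun v => Real.sqrt (u v)) x
  have h11 : (fun v => |1 - 2 * ξ v| * Real.sqrt (u v) * Real.sqrt (u v)) = fun v => |u v - 2| := by
    funext v
    rw [mul_assoc, Real.mul_self_sqrt (hu v).le]
    have h12 : u v - 2 = (1 - 2 * ξ v) * u v := by
      have := huξ v
      linear_combination 2 * this
    rw [h12, abs_mul, abs_of_pos (hu v)]
  have h13 : (fun v => Real.sqrt (u v) ^ 2) = u := by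
    funext v
    exact Real.sq_sqrt (hu v).le
  rw [h11, h13] at hcs2
  have h14 : Av (fun v => |u v - 2|) x ^ 2 < e ^ 2 := by
    refine lt_of_le_of_lt hcs2 ?_
    have h15 : Av (fun v => (|1 - 2 * ξ v| * Real.sqrt (u v)) ^ 2) x * Av u x ≤ 8 * e1 * (2 + e1) :=
      mul_le_mul hsec hx1.le (hu0 x) (by linarith)
    refine lt_of_le_of_lt h15 ?_
    have he2 : 0 < e ^ 2 := by positivity
    nlinarith
  exact lt_of_pow_lt_pow_left₀ 2 he.le h14

theorem D1a (e : ℝ) (he : 0 < e) : ∃ e1 C : ℝ, 0 < e1 ∧ 0 < C ∧ ∀ d k q : ℕ, 35 ≤ d → 2 ≤ k → 1 ≤ q →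
    ∀ (c : Fin q) (f : Site d k → Fin q), Prp f → Reg e1 c f →
    nS (fun x => e ≤ Av (fun v => |(q : ℝ) / (av f v : ℝ) - 2|) x) ≤ C * (NN d k / (d : ℝ) ^ 5) := by
  classical
  set e1 : ℝ := min (1 / 100) (e ^ 2 / 24) with he1
  have h1 : 0 < e1 := lt_min (by norm_num) (by positivity)
  have h1a : e1 ≤ 1 / 100 := min_le_left _ _
  have h1b : e1 ≤ e ^ 2 / 24 := min_le_right _ _
  refine ⟨e1, 4 + 2 / e1, h1, by positivity, ?_⟩
  intro d k q hd hk hq c f hf hR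
  set u : Site d k → ℝ := fun v => (q : ℝ) / (av f v : ℝ) with hu
  have hq' : (0 : ℝ) < q := by exact_mod_cast hq
  have hav : ∀ v, (0 : ℝ) < av f v := fun v => by
    have := av_pos hf v
    exact_mod_cast this
  have hup : ∀ v, 0 < u v := fun v => div_pos hq' (hav v)
  have hξp : ∀ v, 0 < xi f v := fun v => div_pos (hav v) hq'
  have huξ : ∀ v, xi f v * u v = 1 := by
    intro v
    have := (hav v).ne'
    simp only [hu, xi]
    field_simp
  set B : ℝ := NN d k / (d : ℝ) ^ 5 with hB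
  have hE1 : nS (fun x => 2 + e1 ≤ Av u x) ≤ 2 * B := hR.h1
  have hE2 : nS (fun x => 1 + e1 ≤ Av (fun v => xi f v + PP (xi f) v) x) ≤ 2 * B := hR.h2
  have hE3 := nS_PP (k := k) (by omega : 1 ≤ d) (fun y => 2 + e1 ≤ Av u y) e1
  have hE3' : nS (fun x => e1 ≤ PP (fun y => if 2 + e1 ≤ Av u y then (1 : ℝ) else 0) x) ≤ 2 * B / e1 := by
    rw [le_div_iff₀ h1, mul_comm]
    exact hE3.trans hE1
  have hsub : nS (fun x => e ≤ Av (fun v => |(q : ℝ) / (av f v : ℝ) - 2|) x) ≤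
      nS (fun x => (2 + e1 ≤ Av u x ∨ 1 + e1 ≤ Av (fun v => xi f v + PP (xi f) v) x) ∨
        e1 ≤ PP (fun y => if 2 + e1 ≤ Av u y then (1 : ℝ) else 0) x) := by
    refine nS_mono fun x hx => ?_
    by_contra hc
    push Not at hc
    have := D1a_pt hd he h1 h1a h1b u (xi f) hup hξp huξ x hc.1.1 hc.1.2 hc.2
    linarith
  refine hsub.trans ((nS_or _ _).trans ?_)
  have h2 := nS_or (d := d) (k := k) (fun x => 2 + e1 ≤ Av u x)
    (fun x => 1 + e1 ≤ Av (fun v => xi f v + PP (xi f) v) x)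
  have h3 : (4 + 2 / e1) * B = 2 * B + 2 * B + 2 * B / e1 := by ring
  rw [h3]
  linarith

end Pool.Agent.LIN
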