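import Pool.Agent.Lib_MP_2c424f_lin.D1b3

/-!
# H30 D1b: local density and local mean of `z`

* `D1b`: `h4`: off a small set `|yv - Av (q z/x)| < e1` (`yv = q Av 1[f=c]`), and
  `|Av (q z/x) - 2 Av z| ≤ Av |q/x - 2| < e/2` off the set of `D1a (e/2)` (`0 ≤ z ≤ 1`).
* `D1e`: `h3` (edge `x, x+σ`) and `D1b e` at `x` and at `x + sv σ` (`nS_transl`):
  `2 |Av z(x) + Av z(x+σ) - 1| ≤ |yv x + yv (x+σ) - 2| + |yv x - 2 Av z x| + |yv (x+σ) - 2 Av z (x+σ)|`.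
* `D1m`: mean over `σ`: `Av z x + Av (Pz) x - 1 = mean over σ of (Av z x + Av z (x+σ) - 1)` (`Av_PP`), each term is at
  most `1` in absolute value; `nS_edge` with `a = e/2`.
-/
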