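import Pool.Agent.Lib_MP_2c424f_lin.D1a

/-!
# H30 D1b1: local density and local mean of `z`

* `D1b`: `h4`: off a small set `|yv - Av (q z/x)| < e1` (`yv = q Av 1[f=c]`), and
  `|Av (q z/x) - 2 Av z| ≤ Av |q/x - 2| < e/2` off the set of `D1a (e/2)` (`0 ≤ z ≤ 1`).
* `D1e`: `h3` (edge `x, x+σ`) and `D1b e` at `x` and at `x + sv σ` (`nS_transl`):
  `2 |Av z(x) + Av z(x+σ) - 1| ≤ |yv x + yv (x+σ) - 2| + |yv x - 2 Av z x| + |yv (x+σ) - 2 Av z (x+σ)|`.
* `D1m`: mean over `σ`: `Av z x + Av (Pz) x - 1 = mean over σ of (Av z x + Av z (x+σ) - 1)` (`Av_PP`), each term is at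
  most `1` in absolute value; `nS_edge` with `a = e/2`.
-/

set_option autoImplicit false

open Finset

namespace Pool.Agent.LIN

open Pool.Agent.LO

private theorem D1b1_zz {d k q : ℕ} (f : Site d k → Fin q) (v : Site d k) (c : Fin q) :
    |zz f v c| ≤ 1 := by
  unfold zz
  split_ifs <;> norm_num

private theorem D1b1_pt {d k q : ℕ} (hq : 1 ≤ q) (c : Fin q) (f : Site d k → Fin q)
    (x : Site d k) : |yv c f x - 2 * Av (fun v => zz f v c) x| ≤
      q * |Av (fun v => (if f v = c then (1 : ℝ) else 0) - zz f v c / (av f v : ℝ)) x| +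
        Av (fun v => |(q : ℝ) / (av f v : ℝ) - 2|) x := by
  have hq0 : (0 : ℝ) < q := by exact_mod_cast hq
  have h1 : yv c f x - 2 * Av (fun v => zz f v c) x =
      q * Av (fun v => (if f v = c then (1 : ℝ) else 0) - zz f v c / (av f v : ℝ)) x +
        Av (fun v => zz f v c * ((q : ℝ) / (av f v : ℝ) - 2)) x := by
    unfold yv
    rw [← Av_mul, ← Av_mul, ← Av_mul, ← Av_add]
    have h2 : ∀ g h : Site d k → ℝ, Av g x - Av h x = Av (fun v => g v + (-1) * h v) x := by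
      intro g h
      rw [Av_add, Av_mul]
      ring
    rw [h2]
    congr 1
    funext v
    ring
  rw [h1]
  refine (abs_add_le _ _).trans ?_
  rw [abs_mul, abs_of_pos hq0]
  refine add_le_add le_rfl ?_
  refine (Av_abs _ _).trans (Av_mono (fun v => ?_) x)
  show |zz f v c * ((q : ℝ) / (av f v : ℝ) - 2)| ≤ |(q : ℝ) / (av f v : ℝ) - 2|
  rw [abs_mul]
  exact mul_le_of_le_one_left (abs_nonneg _) (D1b1_zz f v c)

theorem D1b (e : ℝ) (he : 0 < e) : ∃ e1 C : ℝ, 0 < e1 ∧ 0 < C ∧ ∀ d k q : ℕ, 35 ≤ d → 2 ≤ k → 1 ≤ q →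
    ∀ (c : Fin q) (f : Site d k → Fin q), Prp f → Reg e1 c f →
    nS (fun x => e ≤ |yv c f x - 2 * Av (fun v => zz f v c) x|) ≤ C * (NN d k / (d : ℝ) ^ 5) := by
  obtain ⟨e1, C, he1, hC, H⟩ := D1a (e / 2) (by positivity)
  refine ⟨min e1 (e / 2), 2 + C, lt_min he1 (by positivity), by positivity, ?_⟩
  intro d k q hd hk hq c f hf hreg
  have hq0 : (0 : ℝ) < q := by exact_mod_cast hq
  have h1 := H d k q hd hk hq c f hf (hreg.mono (min_le_left _ _))
  have h2 := (hreg.mono (min_le_right _ _)).h4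
  rw [add_mul]
  refine le_trans (le_trans (nS_mono fun x hx => ?_) (nS_or
    (fun x => e / 2 / q ≤ |Av (fun v => (if f v = c then (1 : ℝ) else 0) -
      zz f v c / (av f v : ℝ)) x|)
    (fun x => e / 2 ≤ Av (fun v => |(q : ℝ) / (av f v : ℝ) - 2|) x))) (add_le_add h2 h1)
  by_contra hcon
  rw [not_or, not_le, not_le] at hcon
  obtain ⟨h3, h4⟩ := hcon
  rw [lt_div_iff₀ hq0] at h3
  have h5 := D1b1_pt hq c f x
  rw [mul_comm] at h3
  linarith

end Pool.Agent.LIN
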