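import Pool.Agent.Lib_MP_2c424f_lin.D1b1

/-!
# H30 D1b2: local density and local mean of `z`

* `D1b`: `h4`: off a small set `|yv - Av (q z/x)| < e1` (`yv = q Av 1[f=c]`), and
  `|Av (q z/x) - 2 Av z| ≤ Av |q/x - 2| < e/2` off the set of `D1a (e/2)` (`0 ≤ z ≤ 1`).
* `D1e`: `h3` (edge `x, x+σ`) and `D1b e` at `x` and at `x + sv σ` (`nS_transl`):
  `2 |Av z(x) + Av z(x+σ) - 1| ≤ |yv x + yv (x+σ) - 2| + |yv x - 2 Av z x| + |yv (x+σ) - 2 Av z (x+σ)|`.
* `D1m`: mean over `σ`: `Av z x + Av (Pz) x - 1 = mean over σ of (Av z x + Av z (x+σ) - 1)` (`Av_PP`), each term is at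
  most `1` in absolute value; `nS_edge` with `a = e/2`.
-/

set_option autoImplicit false

open Finset

namespace Pool.Agent.LIN

open Pool.Agent.LO

theorem D1e (e : ℝ) (he : 0 < e) : ∃ e1 C : ℝ, 0 < e1 ∧ 0 < C ∧ ∀ d k q : ℕ, 35 ≤ d → 2 ≤ k → 1 ≤ q →
    ∀ (c : Fin q) (f : Site d k → Fin q), Prp f → Reg e1 c f → ∀ σ : Stp d,
    nS (fun x => e ≤ |Av (fun v => zz f v c) x + Av (fun v => zz f v c) (x + sv σ) - 1|) ≤
      C * (NN d k / (d : ℝ) ^ 5) := by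
  obtain ⟨e1, C, he1, hC, H⟩ := D1b (2 * e / 3) (by positivity)
  refine ⟨min e1 (2 * e / 3), 2 + (C + C), lt_min he1 (by positivity), by positivity, ?_⟩
  intro d k q hd hk hq c f hf hreg σ
  have h1 := H d k q hd hk hq c f hf (hreg.mono (min_le_left _ _))
  have h2 := (hreg.mono (min_le_right _ _)).h3 σ
  have h3 : nS (fun x => 2 * e / 3 ≤ |yv c f (x + sv σ) - 2 * Av (fun v => zz f v c) (x + sv σ)|) ≤
      C * (NN d k / (d : ℝ) ^ 5) := by
    have h := nS_transl (sv σ) (fun x => 2 * e / 3 ≤ |yv c f x - 2 * Av (fun v => zz f v c) x|)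
    exact h.le.trans h1
  rw [add_mul, add_mul]
  refine le_trans (le_trans (nS_mono fun x hx => ?_) (nS_or
    (fun x => 2 * e / 3 ≤ |yv c f x + yv c f (x + sv σ) - 2|)
    (fun x => 2 * e / 3 ≤ |yv c f x - 2 * Av (fun v => zz f v c) x| ∨
      2 * e / 3 ≤ |yv c f (x + sv σ) - 2 * Av (fun v => zz f v c) (x + sv σ)|)))
    (add_le_add h2 ((nS_or _ _).trans (add_le_add h1 h3)))
  by_contra hcon
  rw [not_or, not_or, not_le, not_le, not_le] at hcon
  obtain ⟨h4, h5, h6⟩ := hcon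
  rw [abs_lt] at h4 h5 h6
  rw [le_abs] at hx
  rcases hx with hx | hx <;> linarith [h4.1, h4.2, h5.1, h5.2, h6.1, h6.2]

end Pool.Agent.LIN
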