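import Pool.Agent.Lib_MP_2c424f_lin.D1b2

/-!
# H30 D1b3: local density and local mean of `z`

* `D1b`: `h4`: off a small set `|yv - Av (q z/x)| < e1` (`yv = q Av 1[f=c]`), and
  `|Av (q z/x) - 2 Av z| ≤ Av |q/x - 2| < e/2` off the set of `D1a (e/2)` (`0 ≤ z ≤ 1`).
* `D1e`: `h3` (edge `x, x+σ`) and `D1b e` at `x` and at `x + sv σ` (`nS_transl`):
  `2 |Av z(x) + Av z(x+σ) - 1| ≤ |yv x + yv (x+σ) - 2| + |yv x - 2 Av z x| + |yv (x+σ) - 2 Av z (x+σ)|`.
* `D1m`: mean over `σ`: `Av z x + Av (Pz) x - 1 = mean over σ of (Av z x + Av z (x+σ) - 1)` (`Av_PP`), each term is at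
  most `1` in absolute value; `nS_edge` with `a = e/2`.
-/

set_option autoImplicit false

open Finset

namespace Pool.Agent.LIN

open Pool.Agent.LO

private theorem D1b3_zz {d k q : ℕ} (f : Site d k → Fin q) (v : Site d k) (c : Fin q) :
    0 ≤ zz f v c ∧ zz f v c ≤ 1 := by
  unfold zz
  split_ifs <;> norm_num

private theorem D1b3_Av {d k q : ℕ} (hd : 35 ≤ d) (f : Site d k → Fin q) (x : Site d k)
    (c : Fin q) : 0 ≤ Av (fun v => zz f v c) x ∧ Av (fun v => zz f v c) x ≤ 1 := by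
  constructor
  · have h := Av_mono (g := fun _ => (0 : ℝ)) (fun v => (D1b3_zz f v c).1) x
    rwa [Av_const hd] at h
  · have h := Av_mono (h := fun _ => (1 : ℝ)) (fun v => (D1b3_zz f v c).2) x
    rwa [Av_const hd] at h

open scoped Classical in
private theorem D1b3_pt {d k q : ℕ} (hd : 35 ≤ d) (f : Site d k → Fin q) (x : Site d k)
    (c : Fin q) (a : ℝ) (ha : 0 ≤ a) :
    |Av (fun v => zz f v c) x + Av (PP fun v => zz f v c) x - 1| ≤
      a + (∑ σ : Stp d, if a ≤ |Av (fun v => zz f v c) x + Av (fun v => zz f v c) (x + sv σ) - 1|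
        then (1 : ℝ) else 0) / (2 * d) := by
  have hd1 : (35 : ℝ) ≤ d := by exact_mod_cast hd
  have hd0 : (0 : ℝ) < 2 * d := by linarith
  have hcard : ((univ : Finset (Stp d)).card : ℝ) = 2 * d := by
    rw [card_univ]
    simp [Stp, mul_comm]
  have h1 : Av (fun v => zz f v c) x + Av (PP fun v => zz f v c) x - 1 =
      (∑ σ : Stp d, (Av (fun v => zz f v c) x + Av (fun v => zz f v c) (x + sv σ) - 1)) /
        (2 * d) := by
    rw [Av_PP]
    unfold PP
    rw [sum_sub_distrib, sum_add_distrib, sum_const, sum_const, nsmul_eq_mul, nsmul_eq_mul, hcard]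
    field_simp
  rw [h1, abs_div, abs_of_pos hd0, div_le_iff₀ hd0, add_mul, div_mul_cancel₀ _ hd0.ne']
  refine (abs_sum_le_sum_abs _ _).trans ?_
  have h2 : ∀ σ ∈ (univ : Finset (Stp d)),
      |Av (fun v => zz f v c) x + Av (fun v => zz f v c) (x + sv σ) - 1| ≤
      a + (if a ≤ |Av (fun v => zz f v c) x + Av (fun v => zz f v c) (x + sv σ) - 1|
        then (1 : ℝ) else 0) := by
    intro σ _
    have h3 := D1b3_Av hd f x c
    have h4 := D1b3_Av hd f (x + sv σ) c
    split_ifs with h5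
    · have h6 : |Av (fun v => zz f v c) x + Av (fun v => zz f v c) (x + sv σ) - 1| ≤ 1 := by
        rw [abs_le]
        constructor <;> linarith
      linarith
    · rw [not_le] at h5
      linarith
  refine (sum_le_sum h2).trans (le_of_eq ?_)
  rw [sum_add_distrib, sum_const, nsmul_eq_mul, hcard]
  ring

theorem D1m (e : ℝ) (he : 0 < e) : ∃ e1 C : ℝ, 0 < e1 ∧ 0 < C ∧ ∀ d k q : ℕ, 35 ≤ d → 2 ≤ k → 1 ≤ q →
    ∀ (c : Fin q) (f : Site d k → Fin q), Prp f → Reg e1 c f →
    nS (fun x => e ≤ |Av (fun v => zz f v c) x + Av (PP fun v => zz f v c) x - 1|) ≤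
      C * (NN d k / (d : ℝ) ^ 5) := by
  classical
  obtain ⟨e1, C, he1, hC, H⟩ := D1e (e / 2) (by positivity)
  refine ⟨e1, C / (e / 2), he1, by positivity, ?_⟩
  intro d k q hd hk hq c f hf hreg
  have h1 := nS_edge (d := d) (k := k) (by omega) (fun x σ => e / 2 ≤
    |Av (fun v => zz f v c) x + Av (fun v => zz f v c) (x + sv σ) - 1|) (e / 2)
    (C * (NN d k / (d : ℝ) ^ 5)) (H d k q hd hk hq c f hf hreg)
  have h2 : nS (fun x => e ≤ |Av (fun v => zz f v c) x + Av (PP fun v => zz f v c) x - 1|) ≤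
      nS (fun x => e / 2 ≤ (∑ σ : Stp d, if e / 2 ≤
        |Av (fun v => zz f v c) x + Av (fun v => zz f v c) (x + sv σ) - 1|
        then (1 : ℝ) else 0) / (2 * d)) := by
    refine nS_mono fun x hx => ?_
    have h3 := D1b3_pt hd f x c (e / 2) (by positivity)
    linarith
  refine h2.trans ?_
  rw [div_mul_eq_mul_div, le_div_iff₀ (by positivity), mul_comm]
  exact h1

end Pool.Agent.LIN
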