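import Pool.Agent.Lib_MP_2c424f_lin.D1b

/-!
# H30 D1c: `dd = |1 - z - m|` is small around most sites

`m = PP z`, `ζ = zt`, `g = 1 - m - ζ`.  Pointwise (`zt_le`, convexity of `exp` on `[0,1]`)
`ζ ≤ exp (-(2d/q) m) ≤ 1 - m + exp (-2d/q)`, so `g ≥ -e2`, `e2 = exp (-2d/q) ≤ exp (-2M)`, hence `|g| ≤ g + 2 e2`.
Off the sets of `D1m e'` and `h5`: `Av g = (1 - Av z - Av Pz) + Av (z - ζ) ≤ e' + e1`, `Av |g| ≤ e' + e1 + 2 e2 =: e3`.
`ζ (1-ζ) = ζ (m + g) ≤ ζ m + |g| ≤ q/(2ed) + |g| ≤ q/(5d) + |g|` (`y exp (-y) ≤ 1/e`).  Off the set of `h6`: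
`Av |z-ζ| ≤ e1 + 2 Av (ζ(1-ζ)) ≤ e1 + 2q/(5d) + 2 e3`.  `dd = |g + ζ - z| ≤ |g| + |z-ζ|`, so
`Av dd ≤ e1 + 1/M + 3 e3 < e` for small `e1, e'` and large `M`.
-/

set_option autoImplicit false

open Finset

namespace Pool.Agent.LIN

open Pool.Agent.LO

private theorem D1c_PP {d k : ℕ} (hd : 1 ≤ d) {g : Site d k → ℝ} (h0 : ∀ v, 0 ≤ g v)
    (h1 : ∀ v, g v ≤ 1) (x : Site d k) : 0 ≤ PP g x ∧ PP g x ≤ 1 := by
  have hd0 : (0 : ℝ) < 2 * d := by
    have : (0 : ℝ) < d := by exact_mod_cast hd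
    linarith
  constructor
  · exact div_nonneg (Finset.sum_nonneg fun σ _ => h0 _) hd0.le
  · unfold PP
    rw [div_le_one hd0]
    calc ∑ σ : Stp d, g (x + sv σ) ≤ ∑ _σ : Stp d, (1 : ℝ) := Finset.sum_le_sum fun σ _ => h1 _
      _ = 2 * d := by
        rw [Finset.sum_const, Finset.card_univ, Fintype.card_prod, Fintype.card_fin,
          Fintype.card_bool, nsmul_eq_mul, mul_one]
        push_cast
        ring

private theorem D1c_zz {d k q : ℕ} (f : Site d k → Fin q) (v : Site d k) (c : Fin q) :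
    0 ≤ zz f v c ∧ zz f v c ≤ 1 := by
  unfold zz
  split_ifs <;> norm_num

private theorem D1c_pt {d k q : ℕ} (hd : 1 ≤ d) (hq : 1 ≤ q) (M : ℝ) (hM : 0 < M)
    (hMq : M * q ≤ d) (c : Fin q) (f : Site d k → Fin q) (hf : Prp f) (v : Site d k) :
    |1 - PP (fun x => zz f x c) v - zt f v c| ≤
        (1 - PP (fun x => zz f x c) v - zt f v c) + 1 / M ∧
      zt f v c * (1 - zt f v c) ≤ 1 / (2 * M) + |1 - PP (fun x => zz f x c) v - zt f v c| := by
  have hq0 : (0 : ℝ) < q := by exact_mod_cast hq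
  obtain ⟨hm0, hm1⟩ := D1c_PP (k := k) hd (fun v => (D1c_zz f v c).1) (fun v => (D1c_zz f v c).2) v
  have h1 := zt_le hd hf v c
  have h2 := zt_nonneg f v c
  have h3 := zt_le_one f v c
  set m : ℝ := PP (fun x => zz f x c) v with hm
  set ζ : ℝ := zt f v c with hζ
  set K : ℝ := 2 * d / q with hK
  have hK1 : 2 * M ≤ K := by
    rw [hK, le_div_iff₀ hq0]
    linarith
  have hK0 : 0 < K := by linarith
  have hconv : Real.exp (-(K * m)) ≤ (1 - m) + m * Real.exp (-K) := by
    have h4 := convexOn_exp.2 (Set.mem_univ (0 : ℝ)) (Set.mem_univ (-K)) (sub_nonneg.2 hm1) hm0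
      (by ring)
    simp only [smul_eq_mul, mul_zero, zero_add, Real.exp_zero, mul_one] at h4
    rwa [show m * -K = -(K * m) by ring] at h4
  have hexp : Real.exp (-K) ≤ 1 / (2 * M) := by
    rw [Real.exp_neg, ← one_div]
    refine one_div_le_one_div_of_le (by positivity) ?_
    have := Real.add_one_le_exp K
    linarith
  have hexp0 : 0 < Real.exp (-K) := Real.exp_pos _
  have hg : -(1 / (2 * M)) ≤ 1 - m - ζ := by
    have h5 : m * Real.exp (-K) ≤ Real.exp (-K) := mul_le_of_le_one_left hexp0.le hm1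
    linarith
  have h2M : 1 / M = 2 * (1 / (2 * M)) := by
    field_simp
  constructor
  · rw [abs_le]
    constructor
    · linarith
    · have : 0 < 1 / M := by positivity
      linarith
  · have h6 : ζ * m ≤ 1 / (2 * M) := by
      have h7 : ζ * m ≤ Real.exp (-(K * m)) * m := mul_le_mul_of_nonneg_right h1 hm0
      have h8 : Real.exp (-(K * m)) * m ≤ 1 / K := by
        rw [Real.exp_neg, le_div_iff₀ hK0, mul_assoc, mul_comm m K, inv_mul_le_iff₀ (Real.exp_pos _),
          mul_one]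
        have := Real.add_one_le_exp (K * m)
        linarith
      have h9 : 1 / K ≤ 1 / (2 * M) := one_div_le_one_div_of_le (by positivity) hK1
      linarith
    have h7 : ζ * (1 - ζ) = ζ * m + ζ * (1 - m - ζ) := by ring
    have h8 : ζ * (1 - m - ζ) ≤ |1 - m - ζ| := by
      calc ζ * (1 - m - ζ) ≤ ζ * |1 - m - ζ| := mul_le_mul_of_nonneg_left (le_abs_self _) h2
        _ ≤ |1 - m - ζ| := mul_le_of_le_one_left (abs_nonneg _) h3
    linarith

theorem D1c (e : ℝ) (he : 0 < e) : ∃ e1 C M : ℝ, 0 < e1 ∧ 0 < C ∧ 0 < M ∧ ∀ d k q : ℕ, 35 ≤ d → 2 ≤ k → 1 ≤ q →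
    M * q ≤ d → ∀ (c : Fin q) (f : Site d k → Fin q), Prp f → Reg e1 c f →
    nS (fun x => e ≤ Av (dd f c) x) ≤ C * (NN d k / (d : ℝ) ^ 5) := by
  obtain ⟨e1, C, he1, hC, H⟩ := D1m (e / 16) (by positivity)
  refine ⟨min e1 (e / 16), 2 + 2 + C, 16 / e, lt_min he1 (by positivity), by positivity,
    by positivity, ?_⟩
  intro d k q hd hk hq hMq c f hf hreg
  have hd1 : 1 ≤ d := by omega
  have h1 := H d k q hd hk hq c f hf (hreg.mono (min_le_left _ _))
  have h2 := (hreg.mono (min_le_right _ _)).h5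
  have h3 := (hreg.mono (min_le_right _ _)).h6
  rw [add_mul, add_mul]
  refine le_trans (le_trans (nS_mono fun x hx => ?_) ((nS_or
    (fun x => e / 16 ≤ |Av (fun v => zz f v c - zt f v c) x| ∨
      e / 16 ≤ Av (fun v => |zz f v c - zt f v c| - 2 * (zt f v c * (1 - zt f v c))) x)
    (fun x => e / 16 ≤ |Av (fun v => zz f v c) x + Av (PP fun v => zz f v c) x - 1|)).trans
      (add_le_add (nS_or _ _) le_rfl))) (add_le_add (add_le_add h2 h3) h1)
  by_contra hcon
  rw [not_or, not_or, not_le, not_le, not_le] at hcon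
  obtain ⟨⟨h4, h5⟩, h6⟩ := hcon
  apply absurd hx
  rw [not_le]
  have hpt := D1c_pt hd1 hq (16 / e) (by positivity) hMq c f hf
  set g : Site d k → ℝ := fun v => 1 - PP (fun x => zz f x c) v - zt f v c with hg
  have hM1 : 1 / (16 / e) = e / 16 := by
    field_simp
  have hM2 : 1 / (2 * (16 / e)) = e / 32 := by
    field_simp
    norm_num
  -- the mean of `g`
  have hAg : Av g x = Av (fun v => zz f v c - zt f v c) x -
      (Av (fun v => zz f v c) x + Av (PP fun v => zz f v c) x - 1) := by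
    have h7 : Av g x = Av (fun v => ((zz f v c - zt f v c) + (-1) * zz f v c) +
        ((-1) * PP (fun y => zz f y c) v + 1)) x := by
      congr 1
      funext v
      simp only [hg]
      ring
    rw [h7, Av_add, Av_add, Av_add, Av_mul, Av_mul, Av_const hd]
    ring
  have hAG : Av (fun v => |g v|) x ≤ Av g x + e / 16 := by
    have h7 : Av (fun v => |g v|) x ≤ Av (fun v => g v + e / 16) x :=
      Av_mono (fun v => by
        have := (hpt v).1
        rw [hM1] at this
        exact this) x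
    rwa [Av_add, Av_const hd] at h7
  have hAG' : Av (fun v => |g v|) x ≤ 3 * (e / 16) := by
    have h7 := (abs_lt.1 h4).2
    have h8 := (abs_lt.1 h6).1
    linarith
  have hAW : Av (fun v => |zz f v c - zt f v c|) x ≤ e / 16 + 2 * (e / 32 + Av (fun v => |g v|) x) := by
    have h7 : Av (fun v => |zz f v c - zt f v c|) x =
        Av (fun v => |zz f v c - zt f v c| - 2 * (zt f v c * (1 - zt f v c))) x +
          2 * Av (fun v => zt f v c * (1 - zt f v c)) x := by
      rw [← Av_mul, ← Av_add]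
      congr 1
      funext v
      ring
    have h8 : Av (fun v => zt f v c * (1 - zt f v c)) x ≤ Av (fun v => e / 32 + |g v|) x :=
      Av_mono (fun v => by
        have := (hpt v).2
        rw [hM2] at this
        exact this) x
    rw [Av_add, Av_const hd] at h8
    linarith
  have hdd : Av (dd f c) x ≤ Av (fun v => |g v| + |zz f v c - zt f v c|) x :=
    Av_mono (fun v => by
      unfold dd
      have h7 : 1 - zz f v c - PP (fun x => zz f x c) v = g v - (zz f v c - zt f v c) := by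
        simp only [hg]
        ring
      rw [h7]
      exact abs_sub _ _) x
  rw [Av_add] at hdd
  linarith

end Pool.Agent.LIN
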