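import Pool.Agent.Lib_MP_2c424f_lin.D2b

/-!
# H30 D2: the label is locally constant

`l = lb f c : Site → {0,1}`, `dd x = |l x - P l x|` (neighbours have the other parity), `k ≥ 1`.
* `lb_AA`: `|l x - AA j l x|` = proportion of the neighbours in the group `j` with another label
  `≤ (2d/|grp j|) |l x - P l x| ≤ 7 dd x`.
* `lb_Av`: telescoping `l - A0 A1 A2 A3 A4 A5 l = (l - A0 l) + A0 (l - A1 l) + A0 A1 (l - A2 l) + ...`, `AA_abs`.
* `Av_var`: with `p = Av l x`: `2p(1-p) = mean over s, s' of |l(x+s) - l(x+s')|`, and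
  `|l(x+s) - l(x+s')| ≤ |l(x+s) - l(x+s+s')| + |l(x+s') - l(x+s'+s)|`; for fixed `y = x+s`:
  `mean over s' of |l y - l(y+s')| = |l y - Av l y|` as `l ∈ {0,1}` (`Av_pi`).
* `SB_Av`: `Av` commutes with `AA j`; `sum_SB`: `sum_AA`.
-/
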