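import Pool.Agent.Lib_MP_2c424f_lin.D0
import Pool.Agent.Lib_MP_2c424f_lin.L7

/-!
# H30 D2a: the label is locally constant

`l = lb f c : Site → {0,1}`, `dd x = |l x - P l x|` (neighbours have the other parity), `k ≥ 1`.
* `lb_AA`: `|l x - AA j l x|` = proportion of the neighbours in the group `j` with another label
  `≤ (2d/|grp j|) |l x - P l x| ≤ 7 dd x`.
* `lb_Av`: telescoping `l - A0 A1 A2 A3 A4 A5 l = (l - A0 l) + A0 (l - A1 l) + A0 A1 (l - A2 l) + ...`, `AA_abs`.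
* `Av_var`: with `p = Av l x`: `2p(1-p) = mean over s, s' of |l(x+s) - l(x+s')|`, and
  `|l(x+s) - l(x+s')| ≤ |l(x+s) - l(x+s+s')| + |l(x+s') - l(x+s'+s)|`; for fixed `y = x+s`:
  `mean over s' of |l y - l(y+s')| = |l y - Av l y|` as `l ∈ {0,1}` (`Av_pi`).
* `SB_Av`: `Av` commutes with `AA j`; `sum_SB`: `sum_AA`.
-/

set_option autoImplicit false

open Finset

namespace Pool.Agent.LIN

open Pool.Agent.LO

variable {d k q : ℕ}

/-- sum of the partial averages -/
noncomputable def SB (g : Site d k → ℝ) (x : Site d k) : ℝ :=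
  g x + AA 0 g x + AA 0 (AA 1 g) x + AA 0 (AA 1 (AA 2 g)) x + AA 0 (AA 1 (AA 2 (AA 3 g))) x +
    AA 0 (AA 1 (AA 2 (AA 3 (AA 4 g)))) x

private theorem d2a_zz01 (f : Site d k → Fin q) (x : Site d k) (c : Fin q) : zz f x c = 0 ∨ zz f x c = 1 := by
  unfold zz
  split_ifs
  · exact Or.inl rfl
  · exact Or.inr rfl

private theorem d2a_card (d : ℕ) : ((univ : Finset (Stp d)).card : ℝ) = 2 * d := by
  rw [Finset.card_univ, Fintype.card_prod, Fintype.card_fin, Fintype.card_bool]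
  push_cast
  ring

private theorem d2a_PP_one (hd : 1 ≤ d) (g : Site d k → ℝ) (x : Site d k) :
    (∑ σ : Stp d, (1 - g (x + sv σ))) / (2 * d) = 1 - PP g x := by
  have h0 : (0 : ℝ) < d := by exact_mod_cast hd
  have h1 : (0 : ℝ) < 2 * (d : ℝ) := by linarith
  unfold PP
  rw [Finset.sum_sub_distrib, Finset.sum_const, nsmul_eq_mul, mul_one, d2a_card, sub_div, div_self h1.ne']

private theorem d2a_PP01 (g : Site d k → ℝ) (hg : ∀ x, 0 ≤ g x ∧ g x ≤ 1) (x : Site d k) :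
    0 ≤ PP g x ∧ PP g x ≤ 1 := by
  unfold PP
  constructor
  · exact div_nonneg (Finset.sum_nonneg fun σ _ => (hg _).1) (by positivity)
  · refine div_le_one_of_le₀ ?_ (by positivity)
    calc ∑ σ : Stp d, g (x + sv σ) ≤ ∑ _σ : Stp d, (1 : ℝ) := Finset.sum_le_sum fun σ _ => (hg _).2
      _ = 2 * d := by rw [Finset.sum_const, nsmul_eq_mul, mul_one, d2a_card]

theorem lb_01 (f : Site d k → Fin q) (c : Fin q) (x : Site d k) : lb f c x = 0 ∨ lb f c x = 1 := by
  classical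
  unfold lb
  split_ifs
  · exact d2a_zz01 f x c
  · rcases d2a_zz01 f x c with h | h
    · right; rw [h]; norm_num
    · left; rw [h]; norm_num

theorem dd_eq (hd : 1 ≤ d) (hk : 1 ≤ k) (f : Site d k → Fin q) (c : Fin q) (x : Site d k) :
    dd f c x = |lb f c x - PP (lb f c) x| := by
  classical
  unfold dd
  by_cases hx : evn x
  · have h1 : PP (lb f c) x = 1 - PP (fun y => zz f y c) x := by
      rw [← d2a_PP_one hd]
      unfold PP
      congr 1
      refine Finset.sum_congr rfl fun σ _ => ?_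
      unfold lb
      rw [if_neg]
      rw [evn_step hk]
      exact not_not.2 hx
    have h2 : lb f c x = zz f x c := by
      unfold lb
      rw [if_pos hx]
    rw [h1, h2, ← abs_neg]
    congr 1
    ring
  · have h1 : PP (lb f c) x = PP (fun y => zz f y c) x := by
      unfold PP
      congr 1
      refine Finset.sum_congr rfl fun σ _ => ?_
      unfold lb
      rw [if_pos]
      rw [evn_step hk]
      exact hx
    have h2 : lb f c x = 1 - zz f x c := by
      unfold lb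
      rw [if_neg hx]
    rw [h1, h2]

theorem dd_nonneg (f : Site d k → Fin q) (c : Fin q) (x : Site d k) : 0 ≤ dd f c x := by
  unfold dd
  exact abs_nonneg _

theorem dd_le_one (hd : 1 ≤ d) (f : Site d k → Fin q) (c : Fin q) (x : Site d k) : dd f c x ≤ 1 := by
  have h0 := hd
  unfold dd
  have h1 := d2a_PP01 (fun y => zz f y c) (fun y => by
    rcases d2a_zz01 f y c with h | h <;> rw [h] <;> norm_num) x
  rcases d2a_zz01 f x c with h | h <;> rw [h, abs_le] <;> constructor <;> linarith [h1.1, h1.2]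

theorem lb_AA (hd : 35 ≤ d) (hk : 1 ≤ k) (f : Site d k → Fin q) (c : Fin q) (j : Fin 6) (x : Site d k) :
    |lb f c x - AA j (lb f c) x| ≤ 7 * dd f c x := by
  have h0 : (35 : ℝ) ≤ d := by exact_mod_cast hd
  have hc := (grp_card hd j).1
  have hcpos : (0 : ℝ) < ((grp d j).card : ℝ) := by
    have : (0 : ℝ) < 2 * (d : ℝ) / 7 := by positivity
    linarith
  have h2d : (0 : ℝ) < 2 * (d : ℝ) := by linarith
  rw [dd_eq (by omega) hk]
  set l := lb f c with hl
  -- the two differences as averages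
  have e1 : l x - AA j l x = (∑ σ ∈ grp d j, (l x - l (x + sv σ))) / (grp d j).card := by
    unfold AA
    rw [Finset.sum_sub_distrib, Finset.sum_const, nsmul_eq_mul, sub_div, mul_div_cancel_left₀ _ hcpos.ne']
  have e2 : l x - PP l x = (∑ σ : Stp d, (l x - l (x + sv σ))) / (2 * d) := by
    unfold PP
    rw [Finset.sum_sub_distrib, Finset.sum_const, nsmul_eq_mul, d2a_card, sub_div, mul_div_cancel_left₀ _ h2d.ne']
  -- all the terms have the same sign
  have e3 : |∑ σ : Stp d, (l x - l (x + sv σ))| = ∑ σ : Stp d, |l x - l (x + sv σ)| := by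
    rcases lb_01 f c x with h | h
    · have h' : l x = 0 := h
      have h3 : ∀ σ : Stp d, l x - l (x + sv σ) = -|l x - l (x + sv σ)| := by
        intro σ
        rw [h']
        rcases lb_01 f c (x + sv σ) with h4 | h4
        · have h4' : l (x + sv σ) = 0 := h4
          rw [h4']; simp
        · have h4' : l (x + sv σ) = 1 := h4
          rw [h4']; simp
      rw [Finset.sum_congr rfl fun σ _ => h3 σ, Finset.sum_neg_distrib, abs_neg, abs_of_nonneg]
      exact Finset.sum_nonneg fun σ _ => abs_nonneg _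
    · have h' : l x = 1 := h
      have h3 : ∀ σ : Stp d, l x - l (x + sv σ) = |l x - l (x + sv σ)| := by
        intro σ
        rw [h']
        rcases lb_01 f c (x + sv σ) with h4 | h4
        · have h4' : l (x + sv σ) = 0 := h4
          rw [h4']; simp
        · have h4' : l (x + sv σ) = 1 := h4
          rw [h4']; simp
      rw [Finset.sum_congr rfl fun σ _ => h3 σ, abs_of_nonneg]
      exact Finset.sum_nonneg fun σ _ => abs_nonneg _
  rw [e1, e2, abs_div, abs_div, e3, abs_of_pos hcpos, abs_of_pos h2d]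
  have h5 : |∑ σ ∈ grp d j, (l x - l (x + sv σ))| ≤ ∑ σ : Stp d, |l x - l (x + sv σ)| := by
    refine (Finset.abs_sum_le_sum_abs _ _).trans ?_
    exact Finset.sum_le_sum_of_subset_of_nonneg (Finset.subset_univ _) fun _ _ _ => abs_nonneg _
  set S := ∑ σ : Stp d, |l x - l (x + sv σ)| with hS
  have hS0 : 0 ≤ S := Finset.sum_nonneg fun σ _ => abs_nonneg _
  rw [div_le_iff₀ hcpos]
  have h6 : 1 ≤ 7 * (((grp d j).card : ℝ) / (2 * d)) := by
    rw [mul_div_assoc'] 
    rw [le_div_iff₀ h2d]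
    linarith
  calc |∑ σ ∈ grp d j, (l x - l (x + sv σ))| ≤ S := h5
    _ = S * 1 := by ring
    _ ≤ S * (7 * (((grp d j).card : ℝ) / (2 * d))) := mul_le_mul_of_nonneg_left h6 hS0
    _ = 7 * (S / (2 * d)) * (grp d j).card := by ring

private theorem d2a_AA_sub (j : Fin 6) (g h : Site d k → ℝ) (x : Site d k) :
    AA j (fun v => g v - h v) x = AA j g x - AA j h x := by
  unfold AA
  rw [Finset.sum_sub_distrib, sub_div]

private theorem d2a_AA_le (j : Fin 6) (g h : Site d k → ℝ) (hgh : ∀ v, |g v| ≤ 7 * h v) (x : Site d k) :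
    |AA j g x| ≤ 7 * AA j h x := by
  refine (AA_abs j g x).trans ?_
  rw [← AA_mul]
  exact AA_mono j hgh x

theorem lb_Av (hd : 35 ≤ d) (hk : 1 ≤ k) (f : Site d k → Fin q) (c : Fin q) (x : Site d k) :
    |lb f c x - Av (lb f c) x| ≤ 7 * SB (dd f c) x := by
  set l := lb f c with hl
  set δ := dd f c with hδ
  have hb : ∀ (j : Fin 6) (v : Site d k), |l v - AA j l v| ≤ 7 * δ v := fun j v => lb_AA hd hk f c j v
  have t0 := hb 0 x
  have t1 := d2a_AA_le 0 (fun v => l v - AA 1 l v) δ (hb 1) x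
  have t2 := d2a_AA_le 0 (fun v => AA 1 (fun v => l v - AA 2 l v) v) (fun v => AA 1 δ v)
    (fun v => d2a_AA_le 1 (fun v => l v - AA 2 l v) δ (hb 2) v) x
  have t3 := d2a_AA_le 0 (fun v => AA 1 (AA 2 (fun v => l v - AA 3 l v)) v) (fun v => AA 1 (AA 2 δ) v)
    (fun v => d2a_AA_le 1 (AA 2 (fun v => l v - AA 3 l v)) (AA 2 δ)
      (fun v => d2a_AA_le 2 (fun v => l v - AA 3 l v) δ (hb 3) v) v) x
  have t4 := d2a_AA_le 0 (fun v => AA 1 (AA 2 (AA 3 (fun v => l v - AA 4 l v))) v)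
    (fun v => AA 1 (AA 2 (AA 3 δ)) v)
    (fun v => d2a_AA_le 1 (AA 2 (AA 3 (fun v => l v - AA 4 l v))) (AA 2 (AA 3 δ))
      (fun v => d2a_AA_le 2 (AA 3 (fun v => l v - AA 4 l v)) (AA 3 δ)
        (fun v => d2a_AA_le 3 (fun v => l v - AA 4 l v) δ (hb 4) v) v) v) x
  have t5 := d2a_AA_le 0 (fun v => AA 1 (AA 2 (AA 3 (AA 4 (fun v => l v - AA 5 l v)))) v)
    (fun v => AA 1 (AA 2 (AA 3 (AA 4 δ))) v)
    (fun v => d2a_AA_le 1 (AA 2 (AA 3 (AA 4 (fun v => l v - AA 5 l v)))) (AA 2 (AA 3 (AA 4 δ)))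
      (fun v => d2a_AA_le 2 (AA 3 (AA 4 (fun v => l v - AA 5 l v))) (AA 3 (AA 4 δ))
        (fun v => d2a_AA_le 3 (AA 4 (fun v => l v - AA 5 l v)) (AA 4 δ)
          (fun v => d2a_AA_le 4 (fun v => l v - AA 5 l v) δ (hb 5) v) v) v) v) x
  have s1 : ∀ (j i : Fin 6), AA j (fun v => l v - AA i l v) = fun v => AA j l v - AA j (AA i l) v := by
    intro j i
    funext v
    exact d2a_AA_sub j l (AA i l) v
  have s2 : ∀ (j : Fin 6) (g h : Site d k → ℝ), AA j (fun v => g v - h v) = fun v => AA j g v - AA j h v := by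
    intro j g h
    funext v
    exact d2a_AA_sub j g h v
  simp only [s1, s2] at t1 t2 t3 t4 t5
  have key : l x - Av l x = (l x - AA 0 l x) + (AA 0 l x - AA 0 (AA 1 l) x) +
      (AA 0 (AA 1 l) x - AA 0 (AA 1 (AA 2 l)) x) +
      (AA 0 (AA 1 (AA 2 l)) x - AA 0 (AA 1 (AA 2 (AA 3 l))) x) +
      (AA 0 (AA 1 (AA 2 (AA 3 l))) x - AA 0 (AA 1 (AA 2 (AA 3 (AA 4 l)))) x) +
      (AA 0 (AA 1 (AA 2 (AA 3 (AA 4 l)))) x - AA 0 (AA 1 (AA 2 (AA 3 (AA 4 (AA 5 l))))) x) := by
    unfold Av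
    ring
  rw [key]
  unfold SB
  rw [abs_le] at t0 t1 t2 t3 t4 t5 ⊢
  constructor
  · linarith [t0.1, t1.1, t2.1, t3.1, t4.1, t5.1]
  · linarith [t0.2, t1.2, t2.2, t3.2, t4.2, t5.2]

theorem SB_Av (g : Site d k → ℝ) (x : Site d k) : Av (SB g) x = SB (Av g) x := by
  have hA : ∀ (j : Fin 6) (h : Site d k → ℝ), Av (AA j h) = AA j (Av h) := by
    intro j h
    funext v
    exact Av_AA j h v
  have hS : SB g = fun v => g v + AA 0 g v + AA 0 (AA 1 g) v + AA 0 (AA 1 (AA 2 g)) v +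
      AA 0 (AA 1 (AA 2 (AA 3 g))) v + AA 0 (AA 1 (AA 2 (AA 3 (AA 4 g)))) v := rfl
  rw [hS]
  rw [Av_add (fun v => g v + AA 0 g v + AA 0 (AA 1 g) v + AA 0 (AA 1 (AA 2 g)) v +
      AA 0 (AA 1 (AA 2 (AA 3 g))) v) (AA 0 (AA 1 (AA 2 (AA 3 (AA 4 g)))))]
  rw [Av_add (fun v => g v + AA 0 g v + AA 0 (AA 1 g) v + AA 0 (AA 1 (AA 2 g)) v)
      (AA 0 (AA 1 (AA 2 (AA 3 g))))]
  rw [Av_add (fun v => g v + AA 0 g v + AA 0 (AA 1 g) v) (AA 0 (AA 1 (AA 2 g)))]
  rw [Av_add (fun v => g v + AA 0 g v) (AA 0 (AA 1 g))]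
  rw [Av_add g (AA 0 g)]
  simp only [hA]
  rfl

theorem sum_SB (hd : 35 ≤ d) (g : Site d k → ℝ) : ∑ x, SB g x = 6 * ∑ x, g x := by
  unfold SB
  simp only [Finset.sum_add_distrib, sum_AA hd]
  ring

end Pool.Agent.LIN
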