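import Pool.Agent.Lib_MP_2c424f_lin.D2a

/-!
# H30 D2b: the label is locally constant

`l = lb f c : Site → {0,1}`, `dd x = |l x - P l x|` (neighbours have the other parity), `k ≥ 1`.
* `lb_AA`: `|l x - AA j l x|` = proportion of the neighbours in the group `j` with another label
  `≤ (2d/|grp j|) |l x - P l x| ≤ 7 dd x`.
* `lb_Av`: telescoping `l - A0 A1 A2 A3 A4 A5 l = (l - A0 l) + A0 (l - A1 l) + A0 A1 (l - A2 l) + ...`, `AA_abs`.
* `Av_var`: with `p = Av l x`: `2p(1-p) = mean over s, s' of |l(x+s) - l(x+s')|`, and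
  `|l(x+s) - l(x+s')| ≤ |l(x+s) - l(x+s+s')| + |l(x+s') - l(x+s'+s)|`; for fixed `y = x+s`:
  `mean over s' of |l y - l(y+s')| = |l y - Av l y|` as `l ∈ {0,1}` (`Av_pi`).
* `SB_Av`: `Av` commutes with `AA j`; `sum_SB`: `sum_AA`.
-/

set_option autoImplicit false

open Finset

namespace Pool.Agent.LIN

open Pool.Agent.LO

variable {d k q : ℕ}

theorem Av_var (hd : 35 ≤ d) (l : Site d k → ℝ) (hl : ∀ x, l x = 0 ∨ l x = 1) (x : Site d k) :
    Av l x * (1 - Av l x) ≤ Av (fun y => |l y - Av l y|) x := by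
  classical
  have hT : (0 : ℝ) < (T6 d : ℝ) := by
    have h1 := (T6_bounds hd).1
    have h2 : (35 : ℝ) ≤ d := by exact_mod_cast hd
    have h3 : (0 : ℝ) < (2 * (d : ℝ) / 7) ^ 6 := by positivity
    linarith
  have hc : ((Fintype.piFinset fun j => grp d j).card : ℝ) = T6 d := by
    rw [Fintype.card_piFinset]
    rfl
  have hl0 : ∀ y, 0 ≤ l y := fun y => by rcases hl y with h | h <;> rw [h] <;> norm_num
  have hl1 : ∀ y, l y ≤ 1 := fun y => by rcases hl y with h | h <;> rw [h] <;> norm_num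
  -- one centre
  have h1 : ∀ y : Site d k, ∑ s ∈ Fintype.piFinset fun j => grp d j,
      |l y - l (y + ∑ j : Fin 6, sv (s j))| = T6 d * |l y - Av l y| := by
    intro y
    have e1 : T6 d * Av l y = ∑ s ∈ Fintype.piFinset fun j => grp d j,
        l (y + ∑ j : Fin 6, sv (s j)) := by
      rw [Av_pi, mul_div_cancel₀ _ hT.ne']
    have e2 : 0 ≤ T6 d * Av l y := by
      rw [e1]
      exact sum_nonneg fun s _ => hl0 _
    have e3 : T6 d * Av l y ≤ T6 d := by
      rw [e1, ← hc, card_eq_sum_ones]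
      push_cast
      exact sum_le_sum fun s _ => hl1 _
    rcases hl y with h | h
    · have e4 : T6 d * |l y - Av l y| = T6 d * Av l y := by
        have e5 : 0 ≤ Av l y := by
          by_contra hcon
          push Not at hcon
          have := mul_neg_of_pos_of_neg hT hcon
          linarith
        rw [h, zero_sub, abs_neg, abs_of_nonneg e5]
      rw [e4, e1]
      refine sum_congr rfl fun s _ => ?_
      rw [h, zero_sub, abs_neg, abs_of_nonneg (hl0 _)]
    · have e4 : T6 d * |l y - Av l y| = T6 d - T6 d * Av l y := by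
        have e5 : Av l y ≤ 1 := by
          by_contra hcon
          push Not at hcon
          have := mul_lt_mul_of_pos_left hcon hT
          linarith
        rw [h, abs_of_nonneg (by linarith)]
        ring
      rw [e4, e1, ← hc, card_eq_sum_ones]
      push_cast
      rw [← sum_sub_distrib]
      refine sum_congr rfl fun s _ => ?_
      rw [h, abs_of_nonneg (by linarith [hl1 (y + ∑ j : Fin 6, sv (s j))])]
  -- the double sum
  have h2 : ∑ s ∈ Fintype.piFinset fun j => grp d j, ∑ t ∈ Fintype.piFinset fun j => grp d j,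
      |l (x + ∑ j : Fin 6, sv (s j)) - l (x + ∑ j : Fin 6, sv (t j))| =
      2 * (T6 d * Av l x) * (T6 d - T6 d * Av l x) := by
    have e1 : T6 d * Av l x = ∑ s ∈ Fintype.piFinset fun j => grp d j,
        l (x + ∑ j : Fin 6, sv (s j)) := by
      rw [Av_pi, mul_div_cancel₀ _ hT.ne']
    have e2 : ∀ a b : Site d k, |l a - l b| = l a * (1 - l b) + l b * (1 - l a) := by
      intro a b
      rcases hl a with h | h <;> rcases hl b with h' | h' <;> rw [h, h'] <;> norm_num
    have e3 : (T6 d : ℝ) - T6 d * Av l x = ∑ s ∈ Fintype.piFinset fun j => grp d j,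
        (1 - l (x + ∑ j : Fin 6, sv (s j))) := by
      rw [e1, sum_sub_distrib, ← hc, card_eq_sum_ones]
      push_cast
      rfl
    have e4 : ∀ s t : Fin 6 → Stp d, |l (x + ∑ j : Fin 6, sv (s j)) - l (x + ∑ j : Fin 6, sv (t j))|
        = l (x + ∑ j : Fin 6, sv (s j)) * (1 - l (x + ∑ j : Fin 6, sv (t j))) +
          l (x + ∑ j : Fin 6, sv (t j)) * (1 - l (x + ∑ j : Fin 6, sv (s j))) := fun s t => e2 _ _
    have e5 : ∑ s ∈ Fintype.piFinset fun j => grp d j, ∑ t ∈ Fintype.piFinset fun j => grp d j,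
        |l (x + ∑ j : Fin 6, sv (s j)) - l (x + ∑ j : Fin 6, sv (t j))| =
        ∑ s ∈ Fintype.piFinset fun j => grp d j, ∑ t ∈ Fintype.piFinset fun j => grp d j,
          l (x + ∑ j : Fin 6, sv (s j)) * (1 - l (x + ∑ j : Fin 6, sv (t j))) +
        ∑ s ∈ Fintype.piFinset fun j => grp d j, ∑ t ∈ Fintype.piFinset fun j => grp d j,
          l (x + ∑ j : Fin 6, sv (t j)) * (1 - l (x + ∑ j : Fin 6, sv (s j))) := by
      rw [← sum_add_distrib]
      refine sum_congr rfl fun s _ => ?_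
      rw [← sum_add_distrib]
      exact sum_congr rfl fun t _ => e4 s t
    have e6 : ∑ s ∈ Fintype.piFinset fun j => grp d j, ∑ t ∈ Fintype.piFinset fun j => grp d j,
          l (x + ∑ j : Fin 6, sv (s j)) * (1 - l (x + ∑ j : Fin 6, sv (t j))) =
        (T6 d * Av l x) * (T6 d - T6 d * Av l x) := by
      rw [e3, e1, sum_mul_sum]
    have e7 : ∑ s ∈ Fintype.piFinset fun j => grp d j, ∑ t ∈ Fintype.piFinset fun j => grp d j,
          l (x + ∑ j : Fin 6, sv (t j)) * (1 - l (x + ∑ j : Fin 6, sv (s j))) =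
        (T6 d * Av l x) * (T6 d - T6 d * Av l x) := by
      rw [sum_comm, e6]
    rw [e5, e6, e7]
    ring
  -- the triangle inequality
  have h3 : ∑ s ∈ Fintype.piFinset fun j => grp d j, ∑ t ∈ Fintype.piFinset fun j => grp d j,
      |l (x + ∑ j : Fin 6, sv (s j)) - l (x + ∑ j : Fin 6, sv (t j))| ≤
      2 * ∑ s ∈ Fintype.piFinset fun j => grp d j,
        T6 d * |l (x + ∑ j : Fin 6, sv (s j)) - Av l (x + ∑ j : Fin 6, sv (s j))| := by
    have e1 : ∀ s t : Fin 6 → Stp d,
        |l (x + ∑ j : Fin 6, sv (s j)) - l (x + ∑ j : Fin 6, sv (t j))| ≤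
        |l (x + ∑ j : Fin 6, sv (s j)) - l (x + ∑ j : Fin 6, sv (s j) + ∑ j : Fin 6, sv (t j))| +
        |l (x + ∑ j : Fin 6, sv (t j)) - l (x + ∑ j : Fin 6, sv (t j) + ∑ j : Fin 6, sv (s j))| := by
      intro s t
      have e2 : x + ∑ j : Fin 6, sv (t j) + ∑ j : Fin 6, sv (s j) =
          x + ∑ j : Fin 6, sv (s j) + ∑ j : Fin 6, sv (t j) := by
        rw [add_right_comm]
      rw [e2]
      have e3 := abs_sub_le (l (x + ∑ j : Fin 6, sv (s j)))
        (l (x + ∑ j : Fin 6, sv (s j) + ∑ j : Fin 6, sv (t j))) (l (x + ∑ j : Fin 6, sv (t j)))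
      rw [abs_sub_comm (l (x + ∑ j : Fin 6, sv (s j) + ∑ j : Fin 6, sv (t j)))
        (l (x + ∑ j : Fin 6, sv (t j)))] at e3
      exact e3
    have e2 : ∑ s ∈ Fintype.piFinset fun j => grp d j, ∑ t ∈ Fintype.piFinset fun j => grp d j,
        |l (x + ∑ j : Fin 6, sv (s j)) - l (x + ∑ j : Fin 6, sv (t j))| ≤
        ∑ s ∈ Fintype.piFinset fun j => grp d j, ∑ t ∈ Fintype.piFinset fun j => grp d j,
          |l (x + ∑ j : Fin 6, sv (s j)) - l (x + ∑ j : Fin 6, sv (s j) + ∑ j : Fin 6, sv (t j))| +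
        ∑ s ∈ Fintype.piFinset fun j => grp d j, ∑ t ∈ Fintype.piFinset fun j => grp d j,
          |l (x + ∑ j : Fin 6, sv (t j)) - l (x + ∑ j : Fin 6, sv (t j) + ∑ j : Fin 6, sv (s j))| := by
      rw [← sum_add_distrib]
      refine sum_le_sum fun s _ => ?_
      rw [← sum_add_distrib]
      exact sum_le_sum fun t _ => e1 s t
    refine e2.trans (le_of_eq ?_)
    rw [sum_comm (f := fun s t : Fin 6 → Stp d =>
      |l (x + ∑ j : Fin 6, sv (t j)) - l (x + ∑ j : Fin 6, sv (t j) + ∑ j : Fin 6, sv (s j))|)]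
    rw [sum_congr rfl fun s _ => h1 (x + ∑ j : Fin 6, sv (s j))]
    ring
  rw [h2, ← mul_sum] at h3
  rw [Av_pi (fun y => |l y - Av l y|)]
  rw [le_div_iff₀ hT]
  have h4 : T6 d * (Av l x * (1 - Av l x) * T6 d) ≤
      T6 d * ∑ s ∈ Fintype.piFinset fun j => grp d j,
        |l (x + ∑ j : Fin 6, sv (s j)) - Av l (x + ∑ j : Fin 6, sv (s j))| := by
    linarith
  exact le_of_mul_le_mul_left h4 hT

end Pool.Agent.LIN
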