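import Pool.Agent.Lib_MP_2c424f_lin.D2

/-!
# H30 D3: consequences for `Av lb`

* `D3a`: `p = Av lb x`.  If `e ≤ p ≤ 1-e` (`e ≤ 1/2`) then `e/2 ≤ p(1-p) ≤ Av |lb - Av lb| x ≤ 7 SB (Av dd) x` (`Av_var`, `lb_Av`,
  `SB_Av`).  `Av dd ≤ e' + 1[e' ≤ Av dd]` with `e' = e/98`, so `SB (Av dd) ≤ 6e' + SB 1[..]` and `SB 1[..] ≥ e' `, whose number
  is at most `6 nS (e' ≤ Av dd)/e' = (588/e) nS (..)` (`sum_SB`, Markov).
* `D3b`: `∑ dd = ∑ Av dd ≤ e N + nS (e ≤ Av dd)` (`sum_Av`, `sum_lt`).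
* `D3c`: `∑ |lb - Av lb| ≤ 7 ∑ SB dd = 42 ∑ dd`.
-/

set_option autoImplicit false

open Finset

namespace Pool.Agent.LIN

open Pool.Agent.LO

variable {d k q : ℕ}

private theorem D3_mono {g h : Site d k → ℝ} (hgh : ∀ v, g v ≤ h v) (x : Site d k) :
    SB g x ≤ SB h x := by
  unfold SB
  have h4 : ∀ v, AA 4 g v ≤ AA 4 h v := AA_mono 4 hgh
  have h3 : ∀ v, AA 3 g v ≤ AA 3 h v := AA_mono 3 hgh
  have h2 : ∀ v, AA 2 g v ≤ AA 2 h v := AA_mono 2 hgh
  have h1 : ∀ v, AA 1 g v ≤ AA 1 h v := AA_mono 1 hgh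
  have e1 := AA_mono 0 h1 x
  have e2 := AA_mono 0 (AA_mono 1 h2) x
  have e3 := AA_mono 0 (AA_mono 1 (AA_mono 2 h3)) x
  have e4 := AA_mono 0 (AA_mono 1 (AA_mono 2 (AA_mono 3 h4))) x
  have e0 := AA_mono 0 hgh x
  have := hgh x
  linarith

private theorem D3_add (g h : Site d k → ℝ) (x : Site d k) :
    SB (fun v => g v + h v) x = SB g x + SB h x := by
  have hA : ∀ (j : Fin 6) (g h : Site d k → ℝ), AA j (fun v => g v + h v) =
      fun v => AA j g v + AA j h v := fun j g h => funext fun v => AA_add j g h v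
  unfold SB
  simp only [hA]
  ring

private theorem D3_const (hd : 35 ≤ d) (c : ℝ) (x : Site d k) :
    SB (fun _ => c) x = 6 * c := by
  have hA : ∀ (j : Fin 6), AA j (fun _ : Site d k => c) = fun _ => c :=
    fun j => funext fun v => AA_const hd j c v
  unfold SB
  simp only [hA]
  ring

theorem D3a (hd : 35 ≤ d) (hk : 1 ≤ k) (f : Site d k → Fin q) (c : Fin q) (e : ℝ) (he : 0 < e) (he1 : e ≤ 1 / 2) :
    nS (fun x => e ≤ Av (lb f c) x ∧ Av (lb f c) x ≤ 1 - e) ≤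
      588 / e * nS (fun x => e / 98 ≤ Av (dd f c) x) := by
  classical
  set l := lb f c with hl
  set g := Av (dd f c) with hg
  have hd1 : 1 ≤ d := by omega
  have hg0 : ∀ x, 0 ≤ g x := by
    intro x
    have h1 := Av_mono (g := fun _ => (0 : ℝ)) (h := dd f c) (fun v => dd_nonneg f c v) x
    rwa [Av_const hd] at h1
  have hg1 : ∀ x, g x ≤ 1 := by
    intro x
    have h1 := Av_mono (g := dd f c) (h := fun _ => (1 : ℝ)) (fun v => dd_le_one hd1 f c v) x
    rwa [Av_const hd] at h1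
  let I : Site d k → ℝ := fun y => if e / 98 ≤ g y then 1 else 0
  have hI0 : ∀ y, 0 ≤ I y := by
    intro y
    simp only [I]
    split_ifs <;> norm_num
  have hgI : ∀ y, g y ≤ e / 98 + I y := by
    intro y
    simp only [I]
    split_ifs with h
    · have := hg1 y
      have : 0 < e / 98 := by positivity
      linarith [hg1 y]
    · push Not at h
      linarith
  have hSB0 : ∀ x, 0 ≤ SB I x := by
    intro x
    have h1 := D3_mono (g := fun _ => (0 : ℝ)) (h := I) hI0 x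
    rw [D3_const hd] at h1
    linarith
  have key : ∀ x, (e ≤ Av l x ∧ Av l x ≤ 1 - e) → e / 98 ≤ SB I x := by
    rintro x ⟨h1, h2⟩
    have h3 : Av l x * (1 - Av l x) ≤ Av (fun y => |l y - Av l y|) x :=
      Av_var hd l (lb_01 f c) x
    have h4 : Av (fun y => |l y - Av l y|) x ≤ Av (fun y => 7 * SB (dd f c) y) x :=
      Av_mono (fun v => lb_Av hd hk f c v) x
    have h5 : Av (fun y => 7 * SB (dd f c) y) x = 7 * SB g x := by
      rw [Av_mul]
      congr 1
      exact SB_Av (dd f c) x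
    have h6 : SB g x ≤ 6 * (e / 98) + SB I x := by
      have h7 := D3_mono hgI x
      rw [D3_add (fun _ => e / 98) I x, D3_const hd] at h7
      exact h7
    have h8 : e / 2 ≤ Av l x * (1 - Av l x) := by nlinarith
    linarith
  have hM := nS_markov (F := SB I) hSB0 (e / 98)
  rw [sum_SB hd] at hM
  have hsum : ∑ x, I x = nS (fun x => e / 98 ≤ g x) := by
    rw [nS_sum]
  rw [hsum] at hM
  have hmono : nS (fun x => e ≤ Av l x ∧ Av l x ≤ 1 - e) ≤ nS (fun x => e / 98 ≤ SB I x) :=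
    nS_mono key
  have h9 : nS (fun x => e / 98 ≤ SB I x) ≤ 588 / e * nS (fun x => e / 98 ≤ g x) := by
    rw [div_mul_eq_mul_div, le_div_iff₀ he]
    linarith
  exact hmono.trans h9

theorem D3b (hd : 35 ≤ d) (f : Site d k → Fin q) (c : Fin q) (e : ℝ) (he : 0 ≤ e) :
    ∑ x, dd f c x ≤ e * NN d k + nS (fun x => e ≤ Av (dd f c) x) := by
  have hd1 : 1 ≤ d := by omega
  have hg1 : ∀ x, Av (dd f c) x ≤ 1 := by
    intro x
    have h1 := Av_mono (g := dd f c) (h := fun _ => (1 : ℝ)) (fun v => dd_le_one hd1 f c v) x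
    rwa [Av_const hd] at h1
  rw [← sum_Av hd]
  exact sum_lt hg1 e he

theorem D3c (hd : 35 ≤ d) (hk : 1 ≤ k) (f : Site d k → Fin q) (c : Fin q) :
    ∑ x, |lb f c x - Av (lb f c) x| ≤ 42 * ∑ x, dd f c x := by
  calc ∑ x, |lb f c x - Av (lb f c) x| ≤ ∑ x, 7 * SB (dd f c) x :=
        Finset.sum_le_sum fun x _ => lb_Av hd hk f c x
    _ = 42 * ∑ x, dd f c x := by
        rw [← Finset.mul_sum, sum_SB hd]
        ring

end Pool.Agent.LIN
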