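import Pool.Agent.Lib_MP_2c424f_lin.D1c
import Pool.Agent.Lib_MP_2c424f_lin.D3

/-!
# H30 D4: a slowly varying label

`L x = true` iff `1/2 < Av lb x`.
* edges: `Av lb x = Av z x` for even `x`, `= 1 - Av z x` for odd `x` (`Av` sees only the class of its centre,
  `Av_mono_cls` twice, or `UU_cls` with `Av_eq`), so `|Av lb x - Av lb (x+σ)| = |Av z x + Av z (x+σ) - 1|`.
  If `L x ≠ L (x+σ)` and this is `< 1/8` then `3/8 ≤ Av lb x ≤ 5/8`.  So
  `nS (L x ≠ L (x+σ)) ≤ [D1e (1/8)] + [D3a (3/8)] ≤ C N/d^5` (`D1c (3/784)` for `nS (e/98 ≤ Av dd)`, `e = 3/8`), the sum over the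
  `2d` steps is `≤ 2 C N/d^4 ≤ N/d^3`.
* `lb x ≠ L x` implies `|lb x - Av lb x| ≥ 1/2`: `nS ≤ 2 ∑ |lb - Av lb| ≤ 84 ∑ dd ≤ 84 (e' N + nS (e' ≤ Av dd))`
  (`D3b`, `D3c`, `D1c e'`), `e' = e/200`, `84 C/d^5 ≤ e/4` for `d ≥ M`.
* `nS (1/8 ≤ dd) ≤ 8 ∑ dd`.
-/

set_option autoImplicit false

open Finset

namespace Pool.Agent.LIN

open Pool.Agent.LO

private theorem D4_even {d k q : ℕ} (hk : 1 ≤ k) (f : Site d k → Fin q) (c : Fin q) (x : Site d k) (hx : evn x) :
    Av (lb f c) x = Av (fun v => zz f v c) x := by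
  have hx' : x ∈ cls true d k := by
    unfold cls evs
    simp [hx]
  have h : ∀ v ∈ cls true d k, lb f c v = zz f v c := by
    intro v hv
    unfold cls evs at hv
    simp only [if_true, mem_filter, mem_univ, true_and] at hv
    unfold lb
    rw [if_pos hv]
  exact le_antisymm (Av_mono_cls hk true (fun v hv => (h v hv).le) hx')
    (Av_mono_cls hk true (fun v hv => (h v hv).ge) hx')

private theorem D4_odd {d k q : ℕ} (hd : 35 ≤ d) (hk : 1 ≤ k) (f : Site d k → Fin q) (c : Fin q) (x : Site d k)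
    (hx : ¬ evn x) : Av (lb f c) x = 1 - Av (fun v => zz f v c) x := by
  have hx' : x ∈ cls false d k := by
    unfold cls ods
    simp [hx]
  have h : ∀ v ∈ cls false d k, lb f c v = 1 + (-1) * zz f v c := by
    intro v hv
    unfold cls ods at hv
    simp only [Bool.false_eq_true, if_false, mem_filter, mem_univ, true_and] at hv
    unfold lb
    rw [if_neg hv]
    ring
  have h1 : Av (lb f c) x = Av (fun v => 1 + (-1) * zz f v c) x :=
    le_antisymm (Av_mono_cls hk false (fun v hv => (h v hv).le) hx')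
      (Av_mono_cls hk false (fun v hv => (h v hv).ge) hx')
  rw [h1, Av_add (fun _ => (1 : ℝ)) (fun v => (-1) * zz f v c), Av_const hd, Av_mul]
  ring

private theorem D4_edge {d k q : ℕ} (hd : 35 ≤ d) (hk : 1 ≤ k) (f : Site d k → Fin q) (c : Fin q) (x : Site d k)
    (σ : Stp d) : |Av (lb f c) x - Av (lb f c) (x + sv σ)| =
      |Av (fun v => zz f v c) x + Av (fun v => zz f v c) (x + sv σ) - 1| := by
  by_cases hx : evn x
  · have hy : ¬ evn (x + sv σ) := fun h => (evn_step hk x σ).1 h hx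
    rw [D4_even hk f c x hx, D4_odd hd hk f c _ hy]
    congr 1
    ring
  · have hy : evn (x + sv σ) := (evn_step hk x σ).2 hx
    rw [D4_odd hd hk f c x hx, D4_even hk f c _ hy, ← abs_neg]
    congr 1
    ring

open scoped Classical in
theorem D4 (e : ℝ) (he : 0 < e) : ∃ e1 M : ℝ, 0 < e1 ∧ 0 < M ∧ ∀ d k q : ℕ, M ≤ d → 2 ≤ k → 1 ≤ q →
    M * q ≤ d → ∀ (c : Fin q) (f : Site d k → Fin q), Prp f → Reg e1 c f →
    ∃ L : Site d k → Bool, ∑ σ : Stp d, nS (fun x => L x ≠ L (x + sv σ)) ≤ NN d k / (d : ℝ) ^ 3 ∧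
      nS (fun x => lb f c x ≠ if L x then (1 : ℝ) else 0) ≤ e * NN d k ∧
      nS (fun x => 1 / 8 ≤ dd f c x) ≤ e * NN d k := by
  obtain ⟨a1, C1, ha1, hC1, H1⟩ := D1e (1 / 8) (by norm_num)
  obtain ⟨a2, C2, M2, ha2, hC2, hM2, H2⟩ := D1c (3 / 784) (by norm_num)
  obtain ⟨a3, C3, M3, ha3, hC3, hM3, H3⟩ := D1c (e / 200) (by positivity)
  refine ⟨min a1 (min a2 a3), 35 + M2 + M3 + 2 * (C1 + 1568 * C2) + 200 * C3 / e, by positivity, by positivity, ?_⟩
  intro d k q hd hk hq hMq c f hf hR
  have hCe : 0 ≤ 200 * C3 / e := by positivity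
  have hd35 : 35 ≤ d := by
    have : (35 : ℝ) ≤ d := by linarith
    exact_mod_cast this
  have hdR : (35 : ℝ) ≤ d := by exact_mod_cast hd35
  have hqR : (1 : ℝ) ≤ q := by exact_mod_cast hq
  have hk1 : 1 ≤ k := by omega
  have hNN : 0 ≤ NN d k := by unfold NN; positivity
  have hM2q : M2 * q ≤ d := by
    refine le_trans (mul_le_mul_of_nonneg_right ?_ (by linarith)) hMq
    linarith
  have hM3q : M3 * q ≤ d := by
    refine le_trans (mul_le_mul_of_nonneg_right ?_ (by linarith)) hMq
    linarith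
  have h1 := H1 d k q hd35 hk hq c f hf (hR.mono (min_le_left _ _))
  have h2 := H2 d k q hd35 hk hq hM2q c f hf (hR.mono ((min_le_right _ _).trans (min_le_left _ _)))
  have h3 := H3 d k q hd35 hk hq hM3q c f hf (hR.mono ((min_le_right _ _).trans (min_le_right _ _)))
  have hD0 : (0 : ℝ) < d := by linarith
  set κ : ℝ := NN d k / (d : ℝ) ^ 5 with hκ
  have hκ0 : 0 ≤ κ := by positivity
  have hκ5 : κ * d ^ 5 = NN d k := by
    rw [hκ]
    field_simp
  -- the sum of `dd`
  have hsum : ∑ x, dd f c x ≤ e / 100 * NN d k := by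
    have h4 := D3b hd35 f c (e / 200) (by positivity)
    have h5 : C3 * κ ≤ e / 200 * NN d k := by
      have h6 : 200 * C3 / e ≤ d := by linarith
      rw [div_le_iff₀ he] at h6
      have h7 : (d : ℝ) ≤ d ^ 5 := by
        calc (d : ℝ) = d ^ 1 := (pow_one _).symm
          _ ≤ d ^ 5 := pow_le_pow_right₀ (by linarith) (by norm_num)
      have h8 : κ * d ≤ NN d k := by
        rw [← hκ5]
        exact mul_le_mul_of_nonneg_left h7 hκ0
      have h9 : 200 * (C3 * κ) ≤ e * (κ * d) := by nlinarith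
      have h10 : e * (κ * d) ≤ e * NN d k := mul_le_mul_of_nonneg_left h8 he.le
      linarith
    linarith
  refine ⟨fun x => decide (1 / 2 < Av (lb f c) x), ?_, ?_, ?_⟩
  · have hone : ∀ σ : Stp d, nS (fun x : Site d k => (decide (1 / 2 < Av (lb f c) x) : Bool) ≠
        decide (1 / 2 < Av (lb f c) (x + sv σ))) ≤ (C1 + 1568 * C2) * κ := by
      intro σ
      have h4 : nS (fun x : Site d k => (decide (1 / 2 < Av (lb f c) x) : Bool) ≠
          decide (1 / 2 < Av (lb f c) (x + sv σ))) ≤
          nS (fun x : Site d k =>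
            1 / 8 ≤ |Av (fun v => zz f v c) x + Av (fun v => zz f v c) (x + sv σ) - 1| ∨
            (3 / 8 ≤ Av (lb f c) x ∧ Av (lb f c) x ≤ 1 - 3 / 8)) := by
        refine nS_mono fun x hx => ?_
        by_contra hcon
        rw [not_or, not_le, not_and, not_le, ← D4_edge hd35 hk1] at hcon
        obtain ⟨h5, h6⟩ := hcon
        rw [abs_lt] at h5
        apply hx
        rw [decide_eq_decide]
        constructor
        · intro h7
          by_contra h8
          have h9 : 3 / 8 ≤ Av (lb f c) x := by linarith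
          have := h6 h9
          linarith
        · intro h7
          by_contra h8
          have h9 : 3 / 8 ≤ Av (lb f c) x := by linarith
          have := h6 h9
          linarith
      refine h4.trans ((nS_or _ _).trans ?_)
      have h5 := h1 σ
      have h6 := D3a hd35 hk1 f c (3 / 8) (by norm_num) (by norm_num)
      have h7 : (3 / 8 : ℝ) / 98 = 3 / 784 := by norm_num
      have h8 : (588 : ℝ) / (3 / 8) = 1568 := by norm_num
      rw [h7, h8] at h6
      have h9 : 1568 * nS (fun x => 3 / 784 ≤ Av (dd f c) x) ≤ 1568 * (C2 * κ) := by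
        linarith
      linarith
    refine (sum_le_sum fun σ _ => hone σ).trans ?_
    rw [sum_const, card_univ, Fintype.card_prod, Fintype.card_fin, Fintype.card_bool, nsmul_eq_mul]
    rw [le_div_iff₀ (by positivity), ← hκ5]
    push_cast
    have h4 : 2 * (C1 + 1568 * C2) ≤ d := by linarith
    have h5 : 0 ≤ κ * (d : ℝ) ^ 4 := by positivity
    have h6 := mul_le_mul_of_nonneg_right h4 h5
    have e1 : (d : ℝ) * 2 * ((C1 + 1568 * C2) * κ) * d ^ 3 = 2 * (C1 + 1568 * C2) * (κ * d ^ 4) := by ring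
    have e2 : κ * (d : ℝ) ^ 5 = d * (κ * d ^ 4) := by ring
    rw [e1, e2]
    exact h6
  · have h4 : nS (fun x : Site d k => lb f c x ≠
        if (decide (1 / 2 < Av (lb f c) x) : Bool) then (1 : ℝ) else 0) ≤
        nS (fun x : Site d k => 1 / 2 ≤ |lb f c x - Av (lb f c) x|) := by
      refine nS_mono fun x hx => ?_
      by_cases h5 : 1 / 2 < Av (lb f c) x
      · rcases lb_01 f c x with h6 | h6
        · rw [h6, zero_sub, abs_neg]
          exact h5.le.trans (le_abs_self _)
        · exfalso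
          apply hx
          rw [h6, if_pos (decide_eq_true h5)]
      · rcases lb_01 f c x with h6 | h6
        · exfalso
          apply hx
          rw [h6, if_neg (fun h => h5 (of_decide_eq_true h))]
        · rw [h6]
          have h7 := not_lt.1 h5
          have h8 := le_abs_self (1 - Av (lb f c) x)
          linarith
    have h5 := nS_markov (F := fun x => |lb f c x - Av (lb f c) x|) (fun x => abs_nonneg _) (1 / 2)
    have h6 := D3c hd35 hk1 f c
    have h7 : nS (fun x : Site d k => 1 / 2 ≤ |lb f c x - Av (lb f c) x|) ≤ 84 * (e / 100 * NN d k) := by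
      linarith
    have h8 : 0 ≤ e * NN d k := by positivity
    refine h4.trans (h7.trans ?_)
    linarith
  · have h5 := nS_markov (F := fun x => dd f c x) (fun x => dd_nonneg f c x) (1 / 8)
    have h8 : 0 ≤ e * NN d k := by positivity
    linarith

end Pool.Agent.LIN
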