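import Pool.Agent.Lib_MP_2c424f_lo.Basic
import Pool.Agent.Lib_MP_2c424f_lo.Stat
import Pool.Agent.Lib_MP_2c424f_lo.Trans

/-!
# MP_2c424f_pr, linear regime: definitions

Paper proof: `/team-store/lin_proof.md`.  Notation of `Lib_MP_2c424f_lo`: `Site d k = (ℤ/2^k)^d`, steps
`Stp d`, `sv`, `evn`, `evs`, `ods`, `NN`, `Prp`, `prps`, `ZZ`, `SS`, `av`, `zz`.
-/

set_option autoImplicit false

open Finset

namespace Pool.Agent.LIN

open Pool.Agent.LO

/-! ## Parity classes, local means -/

/-- parity classes: `true` even sites, `false` odd sites -/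
noncomputable def cls (b : Bool) (d k : ℕ) : Finset (Site d k) := if b then evs d k else ods d k

section means
variable {d k q : ℕ}

/-- mean over the neighbours -/
noncomputable def PP (g : Site d k → ℝ) (x : Site d k) : ℝ := (∑ σ : Stp d, g (x + sv σ)) / (2 * d)

/-- the steps of group `j`: directions `≡ j mod 6` -/
def grp (d : ℕ) (j : Fin 6) : Finset (Stp d) := univ.filter fun σ => σ.1.val % 6 = j.val

/-- mean over the neighbours in the directions of group `j` -/
noncomputable def AA (j : Fin 6) (g : Site d k → ℝ) (x : Site d k) : ℝ :=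
  (∑ σ ∈ grp d j, g (x + sv σ)) / (grp d j).card

/-- mean over six steps, one from every group -/
noncomputable def Av (g : Site d k → ℝ) : Site d k → ℝ := AA 0 (AA 1 (AA 2 (AA 3 (AA 4 (AA 5 g)))))

/-- the six-step sphere of `x` -/
def UU (x : Site d k) : Finset (Site d k) :=
  (Fintype.piFinset fun j => grp d j).image fun s : Fin 6 → Stp d => x + ∑ j, sv (s j)

/-- number of points of the spheres -/
def T6 (d : ℕ) : ℕ := ∏ j, (grp d j).card

/-- separated sets of sites -/
def sep (A : Finset (Site d k)) : Prop := ∀ x ∈ A, ∀ y ∈ A, x ≠ y → Disjoint (UU x) (UU y)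

end means

/-! ## The regime -/

/-- the regime `δ`: `1/δ ≤ q ≤ δ d` and adding a colour to `q` colours gains only `(1+δ)/q` per site -/
def Gd (δ : ℝ) (d q : ℕ) : Prop :=
  0 < δ ∧ 1 / δ ≤ q ∧ (q : ℝ) ≤ δ * d ∧
    ∀ᶠ k : ℕ in Filter.atTop,
      Real.log (ZZ d k (q + 1)) ≤ Real.log (ZZ d k q) + (1 + δ) / q * NN d k

/-! ## Statistics of a colouring -/

section stats
variable {d k q : ℕ}

/-- proportion of colours available at `v` -/
noncomputable def xi (f : Site d k → Fin q) (v : Site d k) : ℝ := (av f v : ℝ) / q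

open scoped Classical in
/-- proper colourings typical on the class `b` -/
noncomputable def typs (a : ℝ) (b : Bool) (d k q : ℕ) : Finset (Site d k → Fin q) :=
  (prps d k q).filter fun f => ∑ v ∈ cls b d k, (1 - 2 * xi f v) ^ 2 ≤ a ^ 3 * NN d k

open scoped Classical in
/-- contribution of the sites with few colours -/
noncomputable def BB (a : ℝ) (b : Bool) (f : Site d k → Fin q) : ℝ :=
  ∑ v ∈ cls b d k, if xi f v < 1 / 2 - a then Real.log (1 + 1 / (av f v : ℝ)) else 0

/-- sites of colour `c` -/
def Xc (c : Fin q) (f : Site d k → Fin q) : Finset (Site d k) := univ.filter fun v => f v = c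

open scoped Classical in
/-- sites of colour `c` with few available colours -/
noncomputable def Xs (a : ℝ) (c : Fin q) (f : Site d k → Fin q) : Finset (Site d k) :=
  univ.filter fun v => f v = c ∧ xi f v < 1 / 2 - a

/-- independent sets -/
def Ind (I : Finset (Site d k)) : Prop := ∀ x ∈ I, ∀ σ : Stp d, x + sv σ ∉ I

/-- `∏_{u ~ v} (1 - z_u / x_u)` -/
noncomputable def zt (f : Site d k → Fin q) (v : Site d k) (c : Fin q) : ℝ :=
  ∏ σ : Stp d, (1 - zz f (v + sv σ) c / (av f (v + sv σ) : ℝ))

/-- `|1 - z_v - m_v|` -/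
noncomputable def dd (f : Site d k → Fin q) (c : Fin q) (v : Site d k) : ℝ :=
  |1 - zz f v c - PP (fun x => zz f x c) v|

/-- local density of the colour `c` times `q` -/
noncomputable def yv (c : Fin q) (f : Site d k → Fin q) (x : Site d k) : ℝ :=
  q * Av (fun v => if f v = c then (1 : ℝ) else 0) x

open scoped Classical in
/-- the label -/
noncomputable def lb (f : Site d k → Fin q) (c : Fin q) (x : Site d k) : ℝ :=
  if evn x then zz f x c else 1 - zz f x c

open scoped Classical in
/-- colourings which agree with `f` off the class `b` -/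
noncomputable def fib (b : Bool) (f : Site d k → Fin q) : Finset (Site d k → Fin q) :=
  Fintype.piFinset fun x => if x ∈ cls b d k then (SS f x)ᶜ else {f x}

/-- mean over the fibre -/
noncomputable def fm (b : Bool) (G : (Site d k → Fin q) → ℝ) (f : Site d k → Fin q) : ℝ :=
  (∑ h ∈ fib b f, G h) / (fib b f).card

open scoped Classical in
/-- rare sets of colourings -/
def Rare (d k q : ℕ) (P : (Site d k → Fin q) → Prop) : Prop :=
  (((prps d k q).filter P).card : ℝ) ≤ ZZ d k q * Real.exp (-(NN d k / (d : ℝ) ^ 18))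

open scoped Classical in
/-- number of sites with a property -/
noncomputable def nS (P : Site d k → Prop) : ℝ := ((univ.filter P).card : ℝ)

/-- the colouring `f` has few exceptional sites -/
structure Reg (e : ℝ) (c : Fin q) (f : Site d k → Fin q) : Prop where
  h1 : nS (fun x => 2 + e ≤ Av (fun v => (q : ℝ) / (av f v : ℝ)) x) ≤ 2 * (NN d k / (d : ℝ) ^ 5)
  h2 : nS (fun x => 1 + e ≤ Av (fun v => xi f v + PP (xi f) v) x) ≤ 2 * (NN d k / (d : ℝ) ^ 5)
  h3 : ∀ σ : Stp d, nS (fun x => e ≤ |yv c f x + yv c f (x + sv σ) - 2|) ≤ 2 * (NN d k / (d : ℝ) ^ 5)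
  h4 : nS (fun x => e / q ≤ |Av (fun v => (if f v = c then (1 : ℝ) else 0) - zz f v c / (av f v : ℝ)) x|) ≤
    2 * (NN d k / (d : ℝ) ^ 5)
  h5 : nS (fun x => e ≤ |Av (fun v => zz f v c - zt f v c) x|) ≤ 2 * (NN d k / (d : ℝ) ^ 5)
  h6 : nS (fun x => e ≤ Av (fun v => |zz f v c - zt f v c| - 2 * (zt f v c * (1 - zt f v c))) x) ≤
    2 * (NN d k / (d : ℝ) ^ 5)

end stats

/-! ## Blocks with a constant tolerance -/

section block
variable {d k q : ℕ}

/-- label `1` with tolerance `δ` -/
def labA (δ : ℝ) (f : Site d (k + 1) → Fin q) (t : Blk d k) (c : Fin q) : Prop := 1 - δ ≤ mb f t c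

/-- label `0` with tolerance `δ` -/
def labB (δ : ℝ) (f : Site d (k + 1) → Fin q) (t : Blk d k) (c : Fin q) : Prop := ∀ j, mj f t c j ≤ δ

/-- bad block -/
def badd (δ : ℝ) (c : Fin q) (t : Blk d k) (f : Site d (k + 1) → Fin q) : Prop :=
  ¬ labA δ f t c ∧ ¬ labB δ f t c

open scoped Classical in
/-- the point given by `t a b` has many neighbours where `c` is available, but for one half of the
directions no neighbour in the block has colour `c` -/
noncomputable def Fb (f : Site d (k + 1) → Fin q) (c : Fin q) (t : Blk d k) (a b : Bt d) : ℝ :=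
  if 7 / 8 ≤ PP (fun x => zz f x c) (pt t a b) ∧
    ∃ β : Bool, ∀ σ : Stp d, alw a b σ → (decide (2 * σ.1.val < d) = β) → f (pt t a b + sv σ) ≠ c
  then 1 else 0

end block

end Pool.Agent.LIN
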