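import Pool.Agent.Lib_MP_2c424f_lin.E2c

/-!
# H30 E2: rings and traces

`cyc`, `zig` are traces of matrix products: `∑_{a : ℤ/L → X} ∏_j A_j (a_j) (a_{j+1}) = Tr (A_0 ⋯ A_{L-1})`
(induction; index the matrices by `X` with `Matrix.of`), `zig r A = Tr ((A Aᵀ)^(2^r))` (it is the ring of length
`2^(r+1)` with `A` at the even and `Aᵀ` at the odd places).
* `ring_chess`: `E1.trace_holder`.
* `ring_chess2`: the ring `α_0 β_0 α_1 β_1 ...` with `B_0, C_0ᵀ, B_1, C_1ᵀ, ...`; `zig r Cᵀ = zig r C`.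
* `dbl`: `P = A_0 ⋯ A_{L-1}` has nonnegative entries: `(Tr P)² ≤ n ∑ P_aa² ≤ n Tr (P²)`.
* `zig_mono`: `G = (A Aᵀ)^(2^r)` is positive semidefinite, `Tr (G²) = ∑ G_ab² ≤ ∑ G_aa G_bb`.
* `zig_tr`, `zig_equiv`: `Tr ((A Aᵀ)^s) = Tr ((Aᵀ A)^s)`; relabelling.
The builder may split the work; `cyc_eq` and `zig_eq` below are the bridges.
-/
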