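import Pool.Agent.Lib_MP_2c424f_lin.E1

/-!
# H30 E2a: rings and traces

`cyc`, `zig` are traces of matrix products: `∑_{a : ℤ/L → X} ∏_j A_j (a_j) (a_{j+1}) = Tr (A_0 ⋯ A_{L-1})`
(induction; index the matrices by `X` with `Matrix.of`), `zig r A = Tr ((A Aᵀ)^(2^r))` (it is the ring of length
`2^(r+1)` with `A` at the even and `Aᵀ` at the odd places).
* `ring_chess`: `E1.trace_holder`.
* `ring_chess2`: the ring `α_0 β_0 α_1 β_1 ...` with `B_0, C_0ᵀ, B_1, C_1ᵀ, ...`; `zig r Cᵀ = zig r C`.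
* `dbl`: `P = A_0 ⋯ A_{L-1}` has nonnegative entries: `(Tr P)² ≤ n ∑ P_aa² ≤ n Tr (P²)`.
* `zig_mono`: `G = (A Aᵀ)^(2^r)` is positive semidefinite, `Tr (G²) = ∑ G_ab² ≤ ∑ G_aa G_bb`.
* `zig_tr`, `zig_equiv`: `Tr ((A Aᵀ)^s) = Tr ((Aᵀ A)^s)`; relabelling.
The builder may split the work; `cyc_eq` and `zig_eq` below are the bridges.
-/

set_option autoImplicit false

open Finset Matrix

namespace Pool.Agent.LIN

variable {X : Type*} [Fintype X]

/-- entries of a product of `n + 1` matrices -/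
private theorem e2a_entry [DecidableEq X] (n : ℕ) (M : Fin (n + 1) → Matrix X X ℝ) (x y : X) :
    (List.ofFn M).prod x y = ∑ b : Fin n → X, ∏ j : Fin (n + 1),
      M j ((Fin.cons x b : Fin (n + 1) → X) j) ((Fin.snoc b y : Fin (n + 1) → X) j) := by
  induction n generalizing x y with
  | zero =>
    simp only [List.ofFn_succ, List.ofFn_zero, List.prod_cons, List.prod_nil, mul_one,
      Finset.univ_unique, Finset.sum_singleton]
    rw [Fin.prod_univ_succ, Fin.prod_univ_zero, mul_one]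
    rfl
  | succ n ih =>
    rw [List.ofFn_succ, List.prod_cons, Matrix.mul_apply]
    have h1 : ∀ z : X, M 0 x z * (List.ofFn fun i : Fin (n + 1) => M i.succ).prod z y =
        ∑ b : Fin n → X, M 0 x z * ∏ j : Fin (n + 1),
          M j.succ ((Fin.cons z b : Fin (n + 1) → X) j) ((Fin.snoc b y : Fin (n + 1) → X) j) := by
      intro z
      rw [ih (fun i => M i.succ) z y, Finset.mul_sum]
    rw [Finset.sum_congr rfl fun z _ => h1 z, ← Fintype.sum_prod_type']
    refine Fintype.sum_equiv (Fin.consEquiv fun _ : Fin (n + 1) => X) _ _ fun q => ?_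
    obtain ⟨z, b⟩ := q
    have h2 : (Fin.snoc (Fin.cons z b : Fin (n + 1) → X) y : Fin (n + 2) → X) =
        Fin.cons z (Fin.snoc b y : Fin (n + 1) → X) :=
      (Fin.cons_snoc_eq_snoc_cons z b y).symm
    change M 0 x z * ∏ j : Fin (n + 1), M j.succ ((Fin.cons z b : Fin (n + 1) → X) j)
        ((Fin.snoc b y : Fin (n + 1) → X) j) =
      ∏ j : Fin (n + 2), M j ((Fin.cons x (Fin.cons z b : Fin (n + 1) → X) : Fin (n + 2) → X) j)
        ((Fin.snoc (Fin.cons z b : Fin (n + 1) → X) y : Fin (n + 2) → X) j)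
    rw [h2]
    conv_rhs => rw [Fin.prod_univ_succ]
    simp only [Fin.cons_zero, Fin.cons_succ]

private theorem e2a_cyc [DecidableEq X] (L : ℕ) [NeZero L] (A : ZMod L → X → X → ℝ) :
    (∑ a : ZMod L → X, ∏ j, A j (a j) (a (j + 1))) =
      ((List.ofFn fun j : Fin L => Matrix.of (A (j.val : ZMod L))).prod).trace := by
  cases L with
  | zero => exact absurd rfl (NeZero.ne 0)
  | succ n =>
    have hc : ∀ j : Fin (n + 1), ((j.val : ℕ) : ZMod (n + 1)) = j := fun j =>
      Fin.cast_val_eq_self j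
    simp only [hc]
    rw [Matrix.trace]
    simp only [Matrix.diag_apply]
    rw [Finset.sum_congr rfl fun x _ => e2a_entry n (fun j => Matrix.of (A j)) x x,
      ← Fintype.sum_prod_type']
    symm
    refine Fintype.sum_equiv (Fin.consEquiv fun _ : Fin (n + 1) => X) _ _ fun q => ?_
    obtain ⟨x, b⟩ := q
    simp only [Fin.consEquiv_apply, Matrix.of_apply]
    refine Finset.prod_congr rfl fun j _ => ?_
    congr 1
    refine Fin.lastCases ?_ (fun i => ?_) j
    · rw [Fin.snoc_last]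
      have h3 : (Fin.last n + 1 : Fin (n + 1)) = 0 := Fin.last_add_one n
      change x = (Fin.cons x b : Fin (n + 1) → X) (Fin.last n + 1)
      rw [h3]
      rfl
    · rw [Fin.snoc_castSucc]
      have h3 : (i.castSucc + 1 : Fin (n + 1)) = i.succ := by
        rw [Fin.coeSucc_eq_succ]
      change b i = (Fin.cons x b : Fin (n + 1) → X) (i.castSucc + 1)
      rw [h3]
      rfl

theorem cyc_eq [DecidableEq X] (r : ℕ) (A : ZMod (2 ^ r) → X → X → ℝ) :
    cyc r A = ((List.ofFn fun j : Fin (2 ^ r) => Matrix.of (A (j.val : ZMod (2 ^ r)))).prod).trace := by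
  exact e2a_cyc (2 ^ r) A

theorem zig_eq [DecidableEq X] (r : ℕ) (A : X → X → ℝ) :
    zig r A = ((Matrix.of A * (Matrix.of A)ᵀ) ^ (2 ^ r)).trace := by
  have h1 : zig r A = cyc r (fun _ a a' => (Matrix.of A * (Matrix.of A)ᵀ) a a') := by
    unfold zig cyc
    refine Finset.sum_congr rfl fun α _ => ?_
    have h2 := Finset.prod_univ_sum (fun _ : ZMod (2 ^ r) => (Finset.univ : Finset X))
      (fun i b => A (α i) b * A (α (i + 1)) b)
    rw [Fintype.piFinset_univ] at h2
    rw [← h2]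
    rfl
  rw [h1, cyc_eq]
  congr 1
  have h3 : (fun _ : Fin (2 ^ r) => (Matrix.of fun a a' =>
      (Matrix.of A * (Matrix.of A)ᵀ) a a' : Matrix X X ℝ)) =
      fun _ => Matrix.of A * (Matrix.of A)ᵀ := rfl
  rw [h3, List.ofFn_const, List.prod_replicate]

theorem zig_nonneg (r : ℕ) (A : X → X → ℝ) : 0 ≤ zig r A := by
  classical
  rw [zig_eq]
  have h1 : (Matrix.of A * (Matrix.of A)ᵀ).PosSemidef := by
    have h2 := Matrix.posSemidef_self_mul_conjTranspose (Matrix.of A)
    rwa [Matrix.conjTranspose_eq_transpose_of_trivial] at h2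
  exact (h1.pow _).trace_nonneg

private theorem e2a_pow {M : Type*} [Monoid M] (a b : M) (n : ℕ) :
    (a * b) ^ (n + 1) = a * ((b * a) ^ n * b) := by
  induction n with
  | zero => simp
  | succ n ih =>
    rw [pow_succ', ih, pow_succ' (b * a) n]
    simp only [mul_assoc]

theorem zig_tr (r : ℕ) (A : X → X → ℝ) : zig r (fun a b => A b a) = zig r A := by
  classical
  rw [zig_eq, zig_eq]
  have h0 : (Matrix.of fun a b => A b a) = (Matrix.of A)ᵀ := rfl
  rw [h0, Matrix.transpose_transpose]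
  obtain ⟨n, hn⟩ : ∃ n, 2 ^ r = n + 1 := ⟨2 ^ r - 1, by have := Nat.one_le_two_pow (n := r); omega⟩
  rw [hn, e2a_pow, Matrix.trace_mul_comm, Matrix.mul_assoc, ← pow_succ]

theorem zig_equiv {Y : Type*} [Fintype Y] (e e' : X ≃ Y) (r : ℕ) (A : Y → Y → ℝ) :
    zig r (fun a b => A (e a) (e' b)) = zig r A := by
  unfold zig
  refine Fintype.sum_equiv (Equiv.arrowCongr (Equiv.refl _) e) _ _ fun α => ?_
  refine Fintype.sum_equiv (Equiv.arrowCongr (Equiv.refl _) e') _ _ fun β => ?_
  rfl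

end Pool.Agent.LIN
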