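import Pool.Agent.Lib_MP_2c424f_lin.E2a

/-!
# H30 E2b: rings and traces

`cyc`, `zig` are traces of matrix products: `∑_{a : ℤ/L → X} ∏_j A_j (a_j) (a_{j+1}) = Tr (A_0 ⋯ A_{L-1})`
(induction; index the matrices by `X` with `Matrix.of`), `zig r A = Tr ((A Aᵀ)^(2^r))` (it is the ring of length
`2^(r+1)` with `A` at the even and `Aᵀ` at the odd places).
* `ring_chess`: `E1.trace_holder`.
* `ring_chess2`: the ring `α_0 β_0 α_1 β_1 ...` with `B_0, C_0ᵀ, B_1, C_1ᵀ, ...`; `zig r Cᵀ = zig r C`.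
* `dbl`: `P = A_0 ⋯ A_{L-1}` has nonnegative entries: `(Tr P)² ≤ n ∑ P_aa² ≤ n Tr (P²)`.
* `zig_mono`: `G = (A Aᵀ)^(2^r)` is positive semidefinite, `Tr (G²) = ∑ G_ab² ≤ ∑ G_aa G_bb`.
* `zig_tr`, `zig_equiv`: `Tr ((A Aᵀ)^s) = Tr ((Aᵀ A)^s)`; relabelling.
The builder may split the work; `cyc_eq` and `zig_eq` below are the bridges.
-/

set_option autoImplicit false

open Finset Matrix

namespace Pool.Agent.LIN

variable {X : Type*} [Fintype X]

private theorem prod_zmod_fin {M : Type*} [CommMonoid M] (n : ℕ) [NeZero n] (f : ZMod n → M) :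
    ∏ j : Fin n, f (j.val : ZMod n) = ∏ j, f j := by
  have hinj : Function.Injective (fun j : Fin n => ((j.val : ℕ) : ZMod n)) := by
    intro i j hij
    have h := congrArg ZMod.val hij
    simp only [ZMod.val_natCast, Nat.mod_eq_of_lt i.isLt, Nat.mod_eq_of_lt j.isLt] at h
    exact Fin.ext h
  have hcard : Fintype.card (Fin n) = Fintype.card (ZMod n) := by
    rw [Fintype.card_fin, ZMod.card]
  have hbij : Function.Bijective (fun j : Fin n => ((j.val : ℕ) : ZMod n)) :=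
    (Fintype.bijective_iff_injective_and_card _).2 ⟨hinj, hcard⟩
  exact Fintype.prod_bijective _ hbij _ _ fun _ => rfl

theorem ring_chess (r : ℕ) (A : ZMod (2 ^ (r + 1)) → X → X → ℝ) :
    |cyc (r + 1) A| ^ (2 ^ (r + 1)) ≤ ∏ j, zig r (A j) := by
  classical
  rw [cyc_eq]
  refine (trace_holder r fun j : Fin (2 ^ (r + 1)) =>
    Matrix.of (A (j.val : ZMod (2 ^ (r + 1))))).trans (le_of_eq ?_)
  rw [← prod_zmod_fin]
  exact Finset.prod_congr rfl fun j _ => (zig_eq r _).symm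

theorem ring_chess2 (r : ℕ) (B C : ZMod (2 ^ r) → X → X → ℝ) :
    |∑ α : ZMod (2 ^ r) → X, ∑ β : ZMod (2 ^ r) → X, ∏ i, B i (α i) (β i) * C i (α (i + 1)) (β i)| ^
      (2 ^ (r + 1)) ≤ ∏ i, zig r (B i) * zig r (C i) := by
  classical
  -- the alternating family of matrices
  let A : Fin (2 ^ r * 2) → Matrix X X ℝ := fun k =>
    if k.val % 2 = 0 then Matrix.of (B ((k.val / 2 : ℕ) : ZMod (2 ^ r)))
    else (Matrix.of (C ((k.val / 2 : ℕ) : ZMod (2 ^ r))))ᵀ
  have hA0 : ∀ (i : Fin (2 ^ r)) (h : i.val * 2 + (0 : Fin 2).val < 2 ^ r * 2),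
      A ⟨i.val * 2 + (0 : Fin 2).val, h⟩ = Matrix.of (B (i.val : ZMod (2 ^ r))) := by
    intro i h
    have h1 : (i.val * 2 + (0 : Fin 2).val) % 2 = 0 := by simp
    have h2 : (i.val * 2 + (0 : Fin 2).val) / 2 = i.val := by simp
    simp only [A, h1, h2, if_true]
  have hA1 : ∀ (i : Fin (2 ^ r)) (h : i.val * 2 + (1 : Fin 2).val < 2 ^ r * 2),
      A ⟨i.val * 2 + (1 : Fin 2).val, h⟩ = (Matrix.of (C (i.val : ZMod (2 ^ r))))ᵀ := by
    intro i h
    have h1 : ¬ (i.val * 2 + (1 : Fin 2).val) % 2 = 0 := by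
      have : (1 : Fin 2).val = 1 := rfl
      omega
    have h2 : (i.val * 2 + (1 : Fin 2).val) / 2 = i.val := by
      have : (1 : Fin 2).val = 1 := rfl
      omega
    simp only [A, h2]
    rw [if_neg h1]
  have hlist : (List.ofFn A).prod =
      (List.ofFn fun j : Fin (2 ^ r) =>
        Matrix.of (fun a a' => ∑ b, B (j.val : ZMod (2 ^ r)) a b * C (j.val : ZMod (2 ^ r)) a' b)).prod := by
    rw [List.ofFn_mul, List.prod_flatten, List.map_ofFn]
    congr 1
    congr 1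
    funext i
    have h2 : ∀ g : Fin 2 → Matrix X X ℝ, (List.ofFn g).prod = g 0 * g 1 := by
      intro g
      simp [List.ofFn_succ]
    simp only [Function.comp]
    rw [h2, hA0, hA1]
    ext a a'
    simp [Matrix.mul_apply]
  have hprod : ∏ k, ((A k * (A k)ᵀ) ^ (2 ^ r)).trace = ∏ i, zig r (B i) * zig r (C i) := by
    rw [← prod_zmod_fin]
    rw [← (finProdFinEquiv (m := 2 ^ r) (n := 2)).prod_comp, Fintype.prod_prod_type]
    refine Finset.prod_congr rfl fun i _ => ?_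
    rw [Fin.prod_univ_two]
    have e0 : A (finProdFinEquiv (i, 0)) = Matrix.of (B (i.val : ZMod (2 ^ r))) := by
      rw [← hA0 i (by have := i.isLt; have h0 : (0 : Fin 2).val = 0 := rfl; omega)]
      congr 1
      ext
      simp [finProdFinEquiv]
      ring
    have e1 : A (finProdFinEquiv (i, 1)) = (Matrix.of (C (i.val : ZMod (2 ^ r))))ᵀ := by
      rw [← hA1 i (by have := i.isLt; have h1 : (1 : Fin 2).val = 1 := rfl; omega)]
      congr 1
      ext
      simp [finProdFinEquiv]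
      ring
    rw [e0, e1, ← zig_eq, ← zig_tr r (C (i.val : ZMod (2 ^ r))), zig_eq r (fun a b => C (i.val : ZMod (2 ^ r)) b a)]
    rfl
  have hcyc : ∑ α : ZMod (2 ^ r) → X, ∑ β : ZMod (2 ^ r) → X,
      ∏ i, B i (α i) (β i) * C i (α (i + 1)) (β i) =
      cyc r fun i a a' => ∑ b, B i a b * C i a' b := by
    unfold cyc
    refine Finset.sum_congr rfl fun α _ => ?_
    rw [Finset.prod_univ_sum]
    rw [Fintype.piFinset_univ]
  have this : |(List.ofFn A).prod.trace| ^ (2 ^ (r + 1)) ≤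
      ∏ k, ((A k * (A k)ᵀ) ^ (2 ^ r)).trace := trace_holder r A
  rw [hlist, hprod] at this
  rw [hcyc, cyc_eq]
  exact this

end Pool.Agent.LIN
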