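import Pool.Agent.Lib_MP_2c424f_lin.E2b

/-!
# H30 E2c: rings and traces

`cyc`, `zig` are traces of matrix products: `∑_{a : ℤ/L → X} ∏_j A_j (a_j) (a_{j+1}) = Tr (A_0 ⋯ A_{L-1})`
(induction; index the matrices by `X` with `Matrix.of`), `zig r A = Tr ((A Aᵀ)^(2^r))` (it is the ring of length
`2^(r+1)` with `A` at the even and `Aᵀ` at the odd places).
* `ring_chess`: `E1.trace_holder`.
* `ring_chess2`: the ring `α_0 β_0 α_1 β_1 ...` with `B_0, C_0ᵀ, B_1, C_1ᵀ, ...`; `zig r Cᵀ = zig r C`.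
* `dbl`: `P = A_0 ⋯ A_{L-1}` has nonnegative entries: `(Tr P)² ≤ n ∑ P_aa² ≤ n Tr (P²)`.
* `zig_mono`: `G = (A Aᵀ)^(2^r)` is positive semidefinite, `Tr (G²) = ∑ G_ab² ≤ ∑ G_aa G_bb`.
* `zig_tr`, `zig_equiv`: `Tr ((A Aᵀ)^s) = Tr ((Aᵀ A)^s)`; relabelling.
The builder may split the work; `cyc_eq` and `zig_eq` below are the bridges.
-/

set_option autoImplicit false

open Finset Matrix

namespace Pool.Agent.LIN

variable {X : Type*} [Fintype X]

private theorem e2c_nonneg [DecidableEq X] (l : List (Matrix X X ℝ))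
    (h : ∀ M ∈ l, ∀ a b, 0 ≤ M a b) : ∀ a b, 0 ≤ l.prod a b := by
  induction l with
  | nil =>
    intro a b
    rw [List.prod_nil, Matrix.one_apply]
    split_ifs
    · exact zero_le_one
    · exact le_rfl
  | cons M l ih =>
    intro a b
    rw [List.prod_cons, Matrix.mul_apply]
    exact Finset.sum_nonneg fun c _ => mul_nonneg (h M List.mem_cons_self a c)
      (ih (fun M' hM' => h M' (List.mem_cons_of_mem _ hM')) c b)

private theorem e2c_double {α : Type*} (n m : ℕ) (h : m = n + n) (g : ℕ → α)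
    (hg : ∀ i, g (n + i) = g i) :
    (List.ofFn fun j : Fin m => g j.val) =
      (List.ofFn fun j : Fin n => g j.val) ++ (List.ofFn fun j : Fin n => g j.val) := by
  subst h
  rw [List.ofFn_add]
  congr 1
  congr 1
  funext j
  exact hg j.val

theorem dbl (r : ℕ) (A : ZMod (2 ^ r) → X → X → ℝ) (hA : ∀ j a b, 0 ≤ A j a b) :
    cyc r A ^ 2 ≤ Fintype.card X * cyc (r + 1) (fun s => A (rd r s)) := by
  classical
  rw [cyc_eq, cyc_eq]
  obtain ⟨P, hP⟩ : ∃ P, P =
    (List.ofFn fun j : Fin (2 ^ r) => Matrix.of (A (j.val : ZMod (2 ^ r)))).prod := ⟨_, rfl⟩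
  have h1 : (List.ofFn fun j : Fin (2 ^ (r + 1)) =>
      Matrix.of (A (rd r (j.val : ZMod (2 ^ (r + 1)))))).prod = P * P := by
    have h2 : (fun j : Fin (2 ^ (r + 1)) =>
        Matrix.of (A (rd r (j.val : ZMod (2 ^ (r + 1)))))) =
        fun j : Fin (2 ^ (r + 1)) => (fun i : ℕ => Matrix.of (A (i : ZMod (2 ^ r)))) j.val := by
      funext j
      rw [rd, ZMod.val_natCast, Nat.mod_eq_of_lt j.2]
    rw [h2, e2c_double (2 ^ r) (2 ^ (r + 1)) (by rw [pow_succ]; ring)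
      (fun i : ℕ => Matrix.of (A (i : ZMod (2 ^ r)))), List.prod_append, hP]
    intro i
    rw [Nat.cast_add, ZMod.natCast_self, zero_add]
  rw [h1, ← hP]
  have hP0 : ∀ a b, 0 ≤ P a b := by
    rw [hP]
    refine e2c_nonneg _ fun M hM => ?_
    rw [List.mem_ofFn] at hM
    obtain ⟨j, rfl⟩ := hM
    exact fun a b => hA _ a b
  have h3 : P.trace ^ 2 ≤ Fintype.card X * ∑ a, P a a ^ 2 := by
    have h4 := sq_sum_le_card_mul_sum_sq (s := (Finset.univ : Finset X)) (f := fun a => P a a)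
    rwa [Finset.card_univ] at h4
  refine h3.trans (mul_le_mul_of_nonneg_left ?_ (Nat.cast_nonneg _))
  rw [Matrix.trace]
  refine Finset.sum_le_sum fun a _ => ?_
  rw [Matrix.diag_apply, Matrix.mul_apply, sq]
  exact Finset.single_le_sum (f := fun b => P a b * P b a)
    (fun b _ => mul_nonneg (hP0 a b) (hP0 b a)) (Finset.mem_univ a)

private theorem e2c_sq [DecidableEq X] (A : Matrix X X ℝ) (m : ℕ) :
    ∃ K : Matrix X X ℝ, (A * Aᵀ) ^ m = K * Kᵀ := by
  have h1 : ∀ s : ℕ, ((A * Aᵀ) ^ s)ᵀ = (A * Aᵀ) ^ s := by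
    intro s
    rw [Matrix.transpose_pow, Matrix.transpose_mul, Matrix.transpose_transpose]
  rcases Nat.even_or_odd' m with ⟨s, rfl | rfl⟩
  · refine ⟨(A * Aᵀ) ^ s, ?_⟩
    rw [h1, ← pow_add]
    congr 1
    ring
  · refine ⟨(A * Aᵀ) ^ s * A, ?_⟩
    rw [Matrix.transpose_mul, h1, Matrix.mul_assoc, ← Matrix.mul_assoc A, ← pow_succ', ← pow_add]
    congr 1
    ring

theorem zig_mono (r : ℕ) (A : X → X → ℝ) : zig (r + 1) A ≤ zig r A ^ 2 := by
  classical
  rw [zig_eq, zig_eq]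
  obtain ⟨G, hG⟩ : ∃ G, G = (Matrix.of A * (Matrix.of A)ᵀ) ^ (2 ^ r) := ⟨_, rfl⟩
  have h3 : (Matrix.of A * (Matrix.of A)ᵀ) ^ (2 ^ (r + 1)) = G * G := by
    rw [hG, pow_succ, pow_mul, sq]
  obtain ⟨B, hB⟩ := e2c_sq (Matrix.of A) (2 ^ r)
  rw [h3, ← hG]
  rw [← hG] at hB
  have hGe : ∀ a b, G a b = ∑ c, B a c * B b c := by
    intro a b
    rw [hB, Matrix.mul_apply]
    rfl
  have hcs : ∀ a b, G a b * G b a ≤ G a a * G b b := by
    intro a b
    have h4 := Finset.sum_mul_sq_le_sq_mul_sq Finset.univ (fun c => B a c) (fun c => B b c)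
    rw [hGe a b, hGe b a, hGe a a, hGe b b]
    have h5 : ∑ c, B b c * B a c = ∑ c, B a c * B b c :=
      Finset.sum_congr rfl fun c _ => mul_comm _ _
    rw [h5, ← sq]
    refine h4.trans (le_of_eq ?_)
    simp only [sq]
  rw [Matrix.trace, sq, Matrix.trace, Finset.sum_mul_sum]
  refine Finset.sum_le_sum fun a _ => ?_
  rw [Matrix.diag_apply, Matrix.mul_apply]
  exact Finset.sum_le_sum fun b _ => hcs a b

end Pool.Agent.LIN
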