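import Pool.Agent.Lib_MP_2c424f_lin.E3b

/-!
# H30 E3: layers of the two-dimensional torus

* `Zg_cyc`: substitute `f (x,y) = g (x+y, y)` (bijection of `ℤ/2^k × ℤ/2^k`): with `s = x+y`, `z = y` the edge
  `(x,y) → (x+1,y)` goes from `(s,z)` to `(s+1,z)`, the edge `(x,y) → (x,y+1)` from `(s,z)` to `(s+1,z+1)`.
  Layers `s`, values of a layer `z ↦ g (s,z)`.
* `zig_layer`: `zig k` of a layer kernel is a sum over `α i z`, `β i z`; regroup by `z`: the ring
  `... β_z, α_z, β_{z+1}, ...` with kernels `bz k (H z)` between `α_z, β_z` and `bz k (V z)` between `α_z, β_{z+1}`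
  (`ring_chess2` after exchanging the roles of `α` and `β`, `zig_tr`).
-/
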