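import Pool.Agent.Lib_MP_2c424f_lin.E2

/-!
# H30 E3a: layers of the two-dimensional torus

* `Zg_cyc`: substitute `f (x,y) = g (x+y, y)` (bijection of `ℤ/2^k × ℤ/2^k`): with `s = x+y`, `z = y` the edge
  `(x,y) → (x+1,y)` goes from `(s,z)` to `(s+1,z)`, the edge `(x,y) → (x,y+1)` from `(s,z)` to `(s+1,z+1)`.
  Layers `s`, values of a layer `z ↦ g (s,z)`.
* `zig_layer`: `zig k` of a layer kernel is a sum over `α i z`, `β i z`; regroup by `z`: the ring
  `... β_z, α_z, β_{z+1}, ...` with kernels `bz k (H z)` between `α_z, β_z` and `bz k (V z)` between `α_z, β_{z+1}`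
  (`ring_chess2` after exchanging the roles of `α` and `β`, `zig_tr`).
-/

set_option autoImplicit false

open Finset

namespace Pool.Agent.LIN

variable {X : Type*} [Fintype X]

theorem Zg_cyc (k : ℕ) (Kh Kv : ZMod (2 ^ k) → ZMod (2 ^ k) → X → X → ℝ) :
    Zg k Kh Kv = cyc k (fun s (α β : ZMod (2 ^ k) → X) =>
      ∏ z, Kh (s - z) z (α z) (β z) * Kv (s - z) z (α z) (β (z + 1))) := by
  classical
  unfold Zg cyc
  let e : (ZMod (2 ^ k) × ZMod (2 ^ k)) ≃ (ZMod (2 ^ k) × ZMod (2 ^ k)) :=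
    { toFun := fun p => (p.1 + p.2, p.2)
      invFun := fun p => (p.1 - p.2, p.2)
      left_inv := fun p => by
        ext
        · show p.1 + p.2 - p.2 = p.1
          ring
        · rfl
      right_inv := fun p => by
        ext
        · show p.1 - p.2 + p.2 = p.1
          ring
        · rfl }
  let E : ((ZMod (2 ^ k) × ZMod (2 ^ k)) → X) ≃ (ZMod (2 ^ k) → ZMod (2 ^ k) → X) :=
    (Equiv.arrowCongr e (Equiv.refl X)).trans (Equiv.curry _ _ _)
  refine Fintype.sum_equiv E _ _ fun f => ?_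
  rw [← Fintype.prod_prod_type' (fun s z => Kh (s - z) z (E f s z) (E f (s + 1) z) *
    Kv (s - z) z (E f s z) (E f (s + 1) (z + 1)))]
  refine Fintype.prod_equiv e _ _ fun q => ?_
  obtain ⟨x, y⟩ := q
  show Kh x y (f (x, y)) (f (x + 1, y)) * Kv x y (f (x, y)) (f (x, y + 1)) =
    Kh (x + y - y) y (f (x + y - y, y)) (f (x + y + 1 - y, y)) *
      Kv (x + y - y) y (f (x + y - y, y)) (f (x + y + 1 - (y + 1), y + 1))
  have h1 : x + y - y = x := by ring
  have h2 : x + y + 1 - y = x + 1 := by ring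
  have h3 : x + y + 1 - (y + 1) = x := by ring
  rw [h1, h2, h3]

end Pool.Agent.LIN
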