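import Pool.Agent.Lib_MP_2c424f_lin.E3a

/-!
# H30 E3b: layers of the two-dimensional torus

* `Zg_cyc`: substitute `f (x,y) = g (x+y, y)` (bijection of `ℤ/2^k × ℤ/2^k`): with `s = x+y`, `z = y` the edge
  `(x,y) → (x+1,y)` goes from `(s,z)` to `(s+1,z)`, the edge `(x,y) → (x,y+1)` from `(s,z)` to `(s+1,z+1)`.
  Layers `s`, values of a layer `z ↦ g (s,z)`.
* `zig_layer`: `zig k` of a layer kernel is a sum over `α i z`, `β i z`; regroup by `z`: the ring
  `... β_z, α_z, β_{z+1}, ...` with kernels `bz k (H z)` between `α_z, β_z` and `bz k (V z)` between `α_z, β_{z+1}`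
  (`ring_chess2` after exchanging the roles of `α` and `β`, `zig_tr`).
-/

set_option autoImplicit false

open Finset

namespace Pool.Agent.LIN

variable {X : Type*} [Fintype X]

private theorem E3b_regroup (k : ℕ) (H V : ZMod (2 ^ k) → X → X → ℝ) :
    zig k (fun α β : ZMod (2 ^ k) → X => ∏ z, H z (α z) (β z) * V z (α z) (β (z + 1))) =
      ∑ α : ZMod (2 ^ k) → (ZMod (2 ^ k) → X), ∑ β : ZMod (2 ^ k) → (ZMod (2 ^ k) → X),
        ∏ z, bz k (H z) (β z) (α z) * bz k (V z) (β z) (α (z + 1)) := by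
  unfold zig
  rw [Finset.sum_comm]
  refine Fintype.sum_equiv (Equiv.piComm (fun _ _ => X)) _ _ fun β => ?_
  refine Fintype.sum_equiv (Equiv.piComm (fun _ _ => X)) _ _ fun α => ?_
  simp only [bz, Equiv.piComm_apply, Function.swap]
  simp_rw [← Finset.prod_mul_distrib]
  rw [Finset.prod_comm]
  refine Finset.prod_congr rfl fun z _ => Finset.prod_congr rfl fun i _ => ?_
  ring

theorem zig_layer (k : ℕ) (H V : ZMod (2 ^ k) → X → X → ℝ) :
    zig k (fun α β : ZMod (2 ^ k) → X => ∏ z, H z (α z) (β z) * V z (α z) (β (z + 1))) ^ (2 ^ (k + 1)) ≤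
      ∏ z, DD k (H z) * DD k (V z) := by
  have h := ring_chess2 k (fun z (a b : ZMod (2 ^ k) → X) => bz k (H z) b a)
    (fun z (a b : ZMod (2 ^ k) → X) => bz k (V z) b a)
  rw [E3b_regroup]
  refine (le_abs_self _).trans ?_
  rw [abs_pow]
  refine h.trans (le_of_eq ?_)
  refine Finset.prod_congr rfl fun z _ => ?_
  rw [zig_tr k (bz k (H z)), zig_tr k (bz k (V z))]
  rfl

end Pool.Agent.LIN
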