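import Pool.Agent.Lib_MP_2c424f_lin.E4d

/-!
# H30 E4: from the zigzag torus to the coordinate torus

`DD_le`: `DD (r+1) K ≤ Zh (r+1) K ^ 2`, `m = 2^(r+1)`.
`DD k K = ∑_{α, β : i, z} ∏ K(α_{i,z}, β_{i,z}) K(α_{i,z}, β_{i,z+1})`-type torus: unfolding `zig k (bz k K)` the sum
is over `α z i`, `β z i` (`z` = index of `zig`, `i` = index of `bz`) with the edges
`α z i ~ β z i`, `α z (i+1) ~ β z i`, `α (z+1) i ~ β z i`, `α (z+1) (i+1) ~ β z i`, first argument `α`.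
(1) Rows: put `a y i = α (i - y) i` and `b y i = β (i - y) i`, `y i : ℤ/m`
    (bijection `(z,i) ↔ (y,i)`, `z = i - y`).  Edges: `α z i ~ β z i`: `a y i ~ b y i`;
    `α z (i+1) ~ β z i`: `i+1-y' = z = i-y`, `y' = y+1`: `a (y+1) (i+1) ~ b y i`;
    `α (z+1) i ~ β z i`: `i-y' = i-y+1`, `y' = y-1`: `a (y-1) i ~ b y i`;
    `α (z+1) (i+1) ~ β z i`: `a y (i+1) ~ b y i`.
    So a ring in `y` with layers `(a_y, b_y) : (ℤ/m → X)²`, in-layer weight
    `V(a,b) = ∏_i K(a i, b i) K(a (i+1), b i)` and kernel between the layers `y`, `y+1`: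
    `∏_i K(a_{y+1} (i+1), b_y i) K(a_y i, b_{y+1} i)`; put `√V √V'` on both sides:
    `DD (r+1) K = cyc (r+1) (fun _ => R)`, so `ring_chess` gives `DD^m ≤ (zig r R)^m`, `DD ≤ zig r R`.
(2) `zig r R` is the coordinate torus with `x ∈ ℤ/2m`, `y ∈ ℤ/m` (rows `2j`: `(a_j, b_j)`, rows `2j+1`:
    `(a'_j, b'_j)`, `j : ℤ/2^r`): in-row `V`, and `K(a'_j (i+1), b_j i) K(a_j i, b'_j i)`,
    `K(a'_j (i+1), b_{j+1} i) K(a_{j+1} i, b'_j i)`.
    By columns: column `2i` = `(a_j i, b'_j i)_j`, column `2i+1` = `(a'_j (i+1), b_j i)_j` (first component: even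
    sites): in-column weights `W(p,q) = ∏_j K(p_j, q_j) K(p_{j+1}, q_j)` resp. `W'(p,q) = ∏_j K(p_j, q_j) K(p_j, q_{j+1})`,
    between the columns `2i` and `2i+1`: `∏_j K(p_j, q'_j) K(p'_j, q_j)`; between `2i+1` and `2i+2` the same function.
    So `zig r R = zig (r+1) N`, `N = √W √W' ∏ ...`, layers `(ℤ/2^r → X)²`.
(3) `zig_mono`: `zig (r+1) N ≤ (zig r N)²`.
(4) `zig r N = Zh (r+1) K`: split both coordinates of the torus of side `2^(r+1)` into even and odd values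
    (`x = 2i` or `2i+1`, `y = 2j` or `2j+1`).
`Zh_tr`: translate by `(1,0)`.
The builder may state (1), (2), (4) as separate lemmas.
-/
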