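import Pool.Agent.Lib_MP_2c424f_lin.E2

/-!
# H30 E4a: from the zigzag torus to the coordinate torus

`DD_le`: `DD (r+1) K ≤ Zh (r+1) K ^ 2`, `m = 2^(r+1)`.
`DD k K = ∑_{α, β : i, z} ∏ K(α_{i,z}, β_{i,z}) K(α_{i,z}, β_{i,z+1})`-type torus: unfolding `zig k (bz k K)` the sum
is over `α z i`, `β z i` (`z` = index of `zig`, `i` = index of `bz`) with the edges
`α z i ~ β z i`, `α z (i+1) ~ β z i`, `α (z+1) i ~ β z i`, `α (z+1) (i+1) ~ β z i`, first argument `α`.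
(1) Rows: put `a y i = α (i - y) i` and `b y i = β (i - y) i`, `y i : ℤ/m`
    (bijection `(z,i) ↔ (y,i)`, `z = i - y`).  Edges: `α z i ~ β z i`: `a y i ~ b y i`;
    `α z (i+1) ~ β z i`: `i+1-y' = z = i-y`, `y' = y+1`: `a (y+1) (i+1) ~ b y i`;
    `α (z+1) i ~ β z i`: `i-y' = i-y+1`, `y' = y-1`: `a (y-1) i ~ b y i`;
    `α (z+1) (i+1) ~ β z i`: `a y (i+1) ~ b y i`.
    So a ring in `y` with layers `(a_y, b_y) : (ℤ/m → X)²`, in-layer weight
    `V(a,b) = ∏_i K(a i, b i) K(a (i+1), b i)` and kernel between the layers `y`, `y+1`: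
    `∏_i K(a_{y+1} (i+1), b_y i) K(a_y i, b_{y+1} i)`; put `√V √V'` on both sides:
    `DD (r+1) K = cyc (r+1) (fun _ => R)`, so `ring_chess` gives `DD^m ≤ (zig r R)^m`, `DD ≤ zig r R`.
(2) `zig r R` is the coordinate torus with `x ∈ ℤ/2m`, `y ∈ ℤ/m` (rows `2j`: `(a_j, b_j)`, rows `2j+1`:
    `(a'_j, b'_j)`, `j : ℤ/2^r`): in-row `V`, and `K(a'_j (i+1), b_j i) K(a_j i, b'_j i)`,
    `K(a'_j (i+1), b_{j+1} i) K(a_{j+1} i, b'_j i)`.
    By columns: column `2i` = `(a_j i, b'_j i)_j`, column `2i+1` = `(a'_j (i+1), b_j i)_j` (first component: even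
    sites): in-column weights `W(p,q) = ∏_j K(p_j, q_j) K(p_{j+1}, q_j)` resp. `W'(p,q) = ∏_j K(p_j, q_j) K(p_j, q_{j+1})`,
    between the columns `2i` and `2i+1`: `∏_j K(p_j, q'_j) K(p'_j, q_j)`; between `2i+1` and `2i+2` the same function.
    So `zig r R = zig (r+1) N`, `N = √W √W' ∏ ...`, layers `(ℤ/2^r → X)²`.
(3) `zig_mono`: `zig (r+1) N ≤ (zig r N)²`.
(4) `zig r N = Zh (r+1) K`: split both coordinates of the torus of side `2^(r+1)` into even and odd values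
    (`x = 2i` or `2i+1`, `y = 2j` or `2j+1`).
`Zh_tr`: translate by `(1,0)`.
The builder may state (1), (2), (4) as separate lemmas.
-/

set_option autoImplicit false

open Finset

namespace Pool.Agent.LIN

variable {X : Type*} [Fintype X]

/-- layer kernel of the rows -/
noncomputable def Rr (k : ℕ) (K : X → X → ℝ) (u v : (ZMod (2 ^ k) → X) × (ZMod (2 ^ k) → X)) : ℝ :=
  Real.sqrt (bz k K u.1 u.2) * (∏ i, K (v.1 (i + 1)) (u.2 i) * K (u.1 i) (v.2 i)) *
    Real.sqrt (bz k K v.1 v.2)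

/-- column kernel; `u = (p, q)` an even column, `v = (p', q')` an odd column (first component: even sites) -/
noncomputable def Nn (r : ℕ) (K : X → X → ℝ) (u v : (ZMod (2 ^ r) → X) × (ZMod (2 ^ r) → X)) : ℝ :=
  Real.sqrt (∏ j, K (u.1 j) (u.2 j) * K (u.1 (j + 1)) (u.2 j)) * (∏ j, K (u.1 j) (v.2 j) * K (v.1 j) (u.2 j)) *
    Real.sqrt (∏ j, K (v.1 j) (v.2 j) * K (v.1 j) (v.2 (j + 1)))

private theorem E4a_reidx {n : ℕ} [NeZero n] (F : ZMod n → ZMod n → ℝ) :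
    ∏ z, ∏ i, F (i - z) i = ∏ y, ∏ i, F y i := by
  rw [prod_comm]
  conv_rhs => rw [prod_comm]
  refine prod_congr rfl fun i _ => ?_
  exact (Equiv.subLeft i).prod_comp fun y => F y i

private theorem E4a_shift {n : ℕ} [NeZero n] (f : ZMod n → ℝ) :
    ∏ y, f (y + 1) = ∏ y, f y :=
  Equiv.prod_comp (Equiv.addRight (1 : ZMod n)) f

/-- the change of coordinates -/
private def E4a_e (Y : Type*) (n : ℕ) : (ZMod n → ZMod n → Y) ≃ (ZMod n → ZMod n → Y) where
  toFun a z i := a (i - z) i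
  invFun a z i := a (i - z) i
  left_inv a := by
    funext z i
    simp only [sub_sub_cancel]
  right_inv a := by
    funext z i
    simp only [sub_sub_cancel]

private theorem E4a_left (k : ℕ) (K : X → X → ℝ) (a b : ZMod (2 ^ k) → ZMod (2 ^ k) → X) :
    ∏ z, bz k K (E4a_e X (2 ^ k) a z) (E4a_e X (2 ^ k) b z) *
      bz k K (E4a_e X (2 ^ k) a (z + 1)) (E4a_e X (2 ^ k) b z) =
    (∏ y, bz k K (a y) (b y)) *
      ∏ y, ∏ i, K (a (y + 1) (i + 1)) (b y i) * K (a y i) (b (y + 1) i) := by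
  have h1 : ∏ z, ∏ i, K (a (i - z) i) (b (i - z) i) = ∏ y, ∏ i, K (a y i) (b y i) :=
    E4a_reidx fun y i => K (a y i) (b y i)
  have h2 : ∏ z, ∏ i, K (a (i + 1 - z) (i + 1)) (b (i - z) i) =
      ∏ y, ∏ i, K (a (y + 1) (i + 1)) (b y i) := by
    rw [← E4a_reidx fun y i => K (a (y + 1) (i + 1)) (b y i)]
    refine prod_congr rfl fun z _ => prod_congr rfl fun i _ => ?_
    rw [show i + 1 - z = i - z + 1 by ring]
  have h3 : ∏ z, ∏ i, K (a (i - (z + 1)) i) (b (i - z) i) =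
      ∏ y, ∏ i, K (a y i) (b (y + 1) i) := by
    have h5 : ∏ z, ∏ i, K (a (i - (z + 1)) i) (b (i - z) i) =
        ∏ y, ∏ i, K (a (y - 1) i) (b y i) := by
      rw [← E4a_reidx fun y i => K (a (y - 1) i) (b y i)]
      refine prod_congr rfl fun z _ => prod_congr rfl fun i _ => ?_
      rw [show i - (z + 1) = i - z - 1 by ring]
    rw [h5, ← E4a_shift fun y => ∏ i, K (a (y - 1) i) (b y i)]
    refine prod_congr rfl fun z _ => prod_congr rfl fun i _ => ?_
    rw [add_sub_cancel_right]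
  have h4 : ∏ z, ∏ i, K (a (i + 1 - (z + 1)) (i + 1)) (b (i - z) i) =
      ∏ y, ∏ i, K (a y (i + 1)) (b y i) := by
    rw [← E4a_reidx fun y i => K (a y (i + 1)) (b y i)]
    refine prod_congr rfl fun z _ => prod_congr rfl fun i _ => ?_
    rw [show i + 1 - (z + 1) = i - z by ring]
  simp only [bz, E4a_e, Equiv.coe_fn_mk, prod_mul_distrib]
  rw [h1, h2, h3, h4]
  ring

private theorem E4a_right (k : ℕ) (K : X → X → ℝ) (hK : ∀ a b, 0 ≤ K a b)
    (a b : ZMod (2 ^ k) → ZMod (2 ^ k) → X) :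
    ∏ y, Rr k K (a y, b y) (a (y + 1), b (y + 1)) =
    (∏ y, bz k K (a y) (b y)) *
      ∏ y, ∏ i, K (a (y + 1) (i + 1)) (b y i) * K (a y i) (b (y + 1) i) := by
  have hb : ∀ a b, 0 ≤ bz k K a b := fun a b =>
    prod_nonneg fun i _ => mul_nonneg (hK _ _) (hK _ _)
  simp only [Rr]
  rw [prod_mul_distrib, prod_mul_distrib,
    E4a_shift fun y => Real.sqrt (bz k K (a y) (b y)), mul_right_comm, ← prod_mul_distrib]
  congr 1
  exact prod_congr rfl fun y _ => Real.mul_self_sqrt (hb _ _)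

theorem DD_rows (k : ℕ) (K : X → X → ℝ) (hK : ∀ a b, 0 ≤ K a b) :
    DD k K = cyc k (fun _ => Rr k K) := by
  unfold DD zig cyc
  rw [← (Equiv.arrowProdEquivProdArrow (ZMod (2 ^ k)) (fun _ => ZMod (2 ^ k) → X)
    (fun _ => ZMod (2 ^ k) → X)).symm.sum_comp, Fintype.sum_prod_type,
    ← (E4a_e X (2 ^ k)).sum_comp]
  refine sum_congr rfl fun a _ => ?_
  rw [← (E4a_e X (2 ^ k)).sum_comp]
  refine sum_congr rfl fun b _ => ?_
  rw [E4a_left]
  exact (E4a_right k K hK a b).symm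

end Pool.Agent.LIN
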