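import Pool.Agent.Lib_MP_2c424f_lin.E4a

/-!
# H30 E4b: from the zigzag torus to the coordinate torus

`DD_le`: `DD (r+1) K ≤ Zh (r+1) K ^ 2`, `m = 2^(r+1)`.
`DD k K = ∑_{α, β : i, z} ∏ K(α_{i,z}, β_{i,z}) K(α_{i,z}, β_{i,z+1})`-type torus: unfolding `zig k (bz k K)` the sum
is over `α z i`, `β z i` (`z` = index of `zig`, `i` = index of `bz`) with the edges
`α z i ~ β z i`, `α z (i+1) ~ β z i`, `α (z+1) i ~ β z i`, `α (z+1) (i+1) ~ β z i`, first argument `α`.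
(1) Rows: put `a y i = α (i - y) i` and `b y i = β (i - y) i`, `y i : ℤ/m`
    (bijection `(z,i) ↔ (y,i)`, `z = i - y`).  Edges: `α z i ~ β z i`: `a y i ~ b y i`;
    `α z (i+1) ~ β z i`: `i+1-y' = z = i-y`, `y' = y+1`: `a (y+1) (i+1) ~ b y i`;
    `α (z+1) i ~ β z i`: `i-y' = i-y+1`, `y' = y-1`: `a (y-1) i ~ b y i`;
    `α (z+1) (i+1) ~ β z i`: `a y (i+1) ~ b y i`.
    So a ring in `y` with layers `(a_y, b_y) : (ℤ/m → X)²`, in-layer weight
    `V(a,b) = ∏_i K(a i, b i) K(a (i+1), b i)` and kernel between the layers `y`, `y+1`: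
    `∏_i K(a_{y+1} (i+1), b_y i) K(a_y i, b_{y+1} i)`; put `√V √V'` on both sides:
    `DD (r+1) K = cyc (r+1) (fun _ => R)`, so `ring_chess` gives `DD^m ≤ (zig r R)^m`, `DD ≤ zig r R`.
(2) `zig r R` is the coordinate torus with `x ∈ ℤ/2m`, `y ∈ ℤ/m` (rows `2j`: `(a_j, b_j)`, rows `2j+1`:
    `(a'_j, b'_j)`, `j : ℤ/2^r`): in-row `V`, and `K(a'_j (i+1), b_j i) K(a_j i, b'_j i)`,
    `K(a'_j (i+1), b_{j+1} i) K(a_{j+1} i, b'_j i)`.
    By columns: column `2i` = `(a_j i, b'_j i)_j`, column `2i+1` = `(a'_j (i+1), b_j i)_j` (first component: even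
    sites): in-column weights `W(p,q) = ∏_j K(p_j, q_j) K(p_{j+1}, q_j)` resp. `W'(p,q) = ∏_j K(p_j, q_j) K(p_j, q_{j+1})`,
    between the columns `2i` and `2i+1`: `∏_j K(p_j, q'_j) K(p'_j, q_j)`; between `2i+1` and `2i+2` the same function.
    So `zig r R = zig (r+1) N`, `N = √W √W' ∏ ...`, layers `(ℤ/2^r → X)²`.
(3) `zig_mono`: `zig (r+1) N ≤ (zig r N)²`.
(4) `zig r N = Zh (r+1) K`: split both coordinates of the torus of side `2^(r+1)` into even and odd values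
    (`x = 2i` or `2i+1`, `y = 2j` or `2j+1`).
`Zh_tr`: translate by `(1,0)`.
The builder may state (1), (2), (4) as separate lemmas.
-/

set_option autoImplicit false

open Finset

namespace Pool.Agent.LIN

variable {X : Type*} [Fintype X]

private lemma zp {J : Type*} [Fintype J] [AddGroup J] [One J] (f g m n : J → ℝ) (hf : ∀ j, 0 ≤ f j)
    (hg : ∀ j, 0 ≤ g j) :
    (∏ j, (Real.sqrt (f j) * m j * Real.sqrt (g j)) * (Real.sqrt (f (j + 1)) * n j * Real.sqrt (g j))) =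
      (∏ j, f j) * (∏ j, g j) * ((∏ j, m j) * ∏ j, n j) := by
  have h1 : ∏ j, Real.sqrt (f (j + 1)) = ∏ j, Real.sqrt (f j) :=
    Equiv.prod_comp (Equiv.addRight (1 : J)) (fun j => Real.sqrt (f j))
  have h2 : (∏ j, Real.sqrt (f j)) * (∏ j, Real.sqrt (f j)) = ∏ j, f j := by
    rw [← Finset.prod_mul_distrib]
    exact Finset.prod_congr rfl fun j _ => Real.mul_self_sqrt (hf j)
  have h3 : (∏ j, Real.sqrt (g j)) * (∏ j, Real.sqrt (g j)) = ∏ j, g j := by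
    rw [← Finset.prod_mul_distrib]
    exact Finset.prod_congr rfl fun j _ => Real.mul_self_sqrt (hg j)
  simp only [Finset.prod_mul_distrib]
  rw [h1, ← h2, ← h3]
  ring

/-- rows to columns -/
private def rce {I J X : Type*} [AddGroup I] [One I] :
    ((J → (I → X) × (I → X)) × (J → (I → X) × (I → X))) ≃
      ((I → (J → X) × (J → X)) × (I → (J → X) × (J → X))) where
  toFun p := (fun i => (fun j => (p.1 j).1 i, fun j => (p.2 j).2 i),
    fun i => (fun j => (p.2 j).1 (i + 1), fun j => (p.1 j).2 i))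
  invFun q := (fun j => (fun i => (q.1 i).1 j, fun i => (q.2 i).2 j),
    fun j => (fun i => (q.2 (i - 1)).1 j, fun i => (q.1 i).2 j))
  left_inv p := by
    refine Prod.ext ?_ ?_
    · rfl
    · funext j
      refine Prod.ext ?_ ?_
      · funext i
        show (p.2 j).1 (i - 1 + 1) = (p.2 j).1 i
        rw [sub_add_cancel]
      · rfl
  right_inv q := by
    refine Prod.ext ?_ ?_
    · rfl
    · funext i
      refine Prod.ext ?_ ?_
      · funext j
        show (q.2 (i + 1 - 1)).1 j = (q.2 i).1 j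
        rw [add_sub_cancel_right]
      · rfl

private lemma bz_nonneg {k : ℕ} (K : X → X → ℝ) (hK : ∀ a b, 0 ≤ K a b) (a b : ZMod (2 ^ k) → X) :
    0 ≤ bz k K a b := by
  unfold bz
  exact Finset.prod_nonneg fun i _ => mul_nonneg (hK _ _) (hK _ _)

theorem rows_cols (r : ℕ) (K : X → X → ℝ) (hK : ∀ a b, 0 ≤ K a b) :
    zig r (Rr (r + 1) K) = zig (r + 1) (Nn r K) := by
  unfold zig
  rw [← Fintype.sum_prod_type', ← Fintype.sum_prod_type']
  refine Fintype.sum_equiv (rce (I := ZMod (2 ^ (r + 1))) (J := ZMod (2 ^ r)) (X := X)) _ _ ?_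
  rintro ⟨α, β⟩
  have hL : (∏ j, Rr (r + 1) K (α j) (β j) * Rr (r + 1) K (α (j + 1)) (β j)) =
      (∏ j, bz (r + 1) K (α j).1 (α j).2) * (∏ j, bz (r + 1) K (β j).1 (β j).2) *
        ((∏ j, ∏ i, K ((β j).1 (i + 1)) ((α j).2 i) * K ((α j).1 i) ((β j).2 i)) *
          ∏ j, ∏ i, K ((β j).1 (i + 1)) ((α (j + 1)).2 i) * K ((α (j + 1)).1 i) ((β j).2 i)) := by
    unfold Rr
    exact zp (fun j => bz (r + 1) K (α j).1 (α j).2) (fun j => bz (r + 1) K (β j).1 (β j).2) _ _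
      (fun j => bz_nonneg K hK _ _) (fun j => bz_nonneg K hK _ _)
  have hR : ∀ γ δ : ZMod (2 ^ (r + 1)) → (ZMod (2 ^ r) → X) × (ZMod (2 ^ r) → X),
      (∏ i, Nn r K (γ i) (δ i) * Nn r K (γ (i + 1)) (δ i)) =
      (∏ i, ∏ j, K ((γ i).1 j) ((γ i).2 j) * K ((γ i).1 (j + 1)) ((γ i).2 j)) *
        (∏ i, ∏ j, K ((δ i).1 j) ((δ i).2 j) * K ((δ i).1 j) ((δ i).2 (j + 1))) *
        ((∏ i, ∏ j, K ((γ i).1 j) ((δ i).2 j) * K ((δ i).1 j) ((γ i).2 j)) *
          ∏ i, ∏ j, K ((γ (i + 1)).1 j) ((δ i).2 j) * K ((δ i).1 j) ((γ (i + 1)).2 j)) := by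
    intro γ δ
    unfold Nn
    exact zp (fun i => ∏ j, K ((γ i).1 j) ((γ i).2 j) * K ((γ i).1 (j + 1)) ((γ i).2 j))
      (fun i => ∏ j, K ((δ i).1 j) ((δ i).2 j) * K ((δ i).1 j) ((δ i).2 (j + 1))) _ _
      (fun i => Finset.prod_nonneg fun j _ => mul_nonneg (hK _ _) (hK _ _))
      (fun i => Finset.prod_nonneg fun j _ => mul_nonneg (hK _ _) (hK _ _))
  refine hL.trans ((?_ : _ = _).trans (hR _ _).symm)
  simp only [bz, rce, Equiv.coe_fn_mk, Finset.prod_mul_distrib]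
  -- exchange the products of the left side
  have hs : ∀ F : ZMod (2 ^ r) → ZMod (2 ^ (r + 1)) → ℝ, (∏ j, ∏ i, F j i) = ∏ i, ∏ j, F j i :=
    fun F => Finset.prod_comm
  have h8 : (∏ j, ∏ i, K ((β j).1 i) ((β j).2 i)) = ∏ i, ∏ j, K ((β j).1 (i + 1)) ((β j).2 (i + 1)) := by
    rw [hs]
    exact (Equiv.prod_comp (Equiv.addRight (1 : ZMod (2 ^ (r + 1))))
      (fun i => ∏ j, K ((β j).1 i) ((β j).2 i))).symm
  rw [h8, hs fun j i => K ((α j).1 i) ((α j).2 i), hs fun j i => K ((α j).1 (i + 1)) ((α j).2 i),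
    hs fun j i => K ((β j).1 (i + 1)) ((β j).2 i), hs fun j i => K ((β j).1 (i + 1)) ((α j).2 i),
    hs fun j i => K ((α j).1 i) ((β j).2 i), hs fun j i => K ((β j).1 (i + 1)) ((α (j + 1)).2 i),
    hs fun j i => K ((α (j + 1)).1 i) ((β j).2 i)]
  ring

end Pool.Agent.LIN
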