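import Pool.Agent.Lib_MP_2c424f_lin.E4b

/-!
# H30 E4c: from the zigzag torus to the coordinate torus

`DD_le`: `DD (r+1) K ≤ Zh (r+1) K ^ 2`, `m = 2^(r+1)`.
`DD k K = ∑_{α, β : i, z} ∏ K(α_{i,z}, β_{i,z}) K(α_{i,z}, β_{i,z+1})`-type torus: unfolding `zig k (bz k K)` the sum
is over `α z i`, `β z i` (`z` = index of `zig`, `i` = index of `bz`) with the edges
`α z i ~ β z i`, `α z (i+1) ~ β z i`, `α (z+1) i ~ β z i`, `α (z+1) (i+1) ~ β z i`, first argument `α`.
(1) Rows: put `a y i = α (i - y) i` and `b y i = β (i - y) i`, `y i : ℤ/m`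
    (bijection `(z,i) ↔ (y,i)`, `z = i - y`).  Edges: `α z i ~ β z i`: `a y i ~ b y i`;
    `α z (i+1) ~ β z i`: `i+1-y' = z = i-y`, `y' = y+1`: `a (y+1) (i+1) ~ b y i`;
    `α (z+1) i ~ β z i`: `i-y' = i-y+1`, `y' = y-1`: `a (y-1) i ~ b y i`;
    `α (z+1) (i+1) ~ β z i`: `a y (i+1) ~ b y i`.
    So a ring in `y` with layers `(a_y, b_y) : (ℤ/m → X)²`, in-layer weight
    `V(a,b) = ∏_i K(a i, b i) K(a (i+1), b i)` and kernel between the layers `y`, `y+1`:
    `∏_i K(a_{y+1} (i+1), b_y i) K(a_y i, b_{y+1} i)`; put `√V √V'` on both sides: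
    `DD (r+1) K = cyc (r+1) (fun _ => R)`, so `ring_chess` gives `DD^m ≤ (zig r R)^m`, `DD ≤ zig r R`.
(2) `zig r R` is the coordinate torus with `x ∈ ℤ/2m`, `y ∈ ℤ/m` (rows `2j`: `(a_j, b_j)`, rows `2j+1`:
    `(a'_j, b'_j)`, `j : ℤ/2^r`): in-row `V`, and `K(a'_j (i+1), b_j i) K(a_j i, b'_j i)`,
    `K(a'_j (i+1), b_{j+1} i) K(a_{j+1} i, b'_j i)`.
    By columns: column `2i` = `(a_j i, b'_j i)_j`, column `2i+1` = `(a'_j (i+1), b_j i)_j` (first component: even
    sites): in-column weights `W(p,q) = ∏_j K(p_j, q_j) K(p_{j+1}, q_j)` resp. `W'(p,q) = ∏_j K(p_j, q_j) K(p_j, q_{j+1})`,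
    between the columns `2i` and `2i+1`: `∏_j K(p_j, q'_j) K(p'_j, q_j)`; between `2i+1` and `2i+2` the same function.
    So `zig r R = zig (r+1) N`, `N = √W √W' ∏ ...`, layers `(ℤ/2^r → X)²`.
(3) `zig_mono`: `zig (r+1) N ≤ (zig r N)²`.
(4) `zig r N = Zh (r+1) K`: split both coordinates of the torus of side `2^(r+1)` into even and odd values
    (`x = 2i` or `2i+1`, `y = 2j` or `2j+1`).
`Zh_tr`: translate by `(1,0)`.
The builder may state (1), (2), (4) as separate lemmas.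
-/

set_option autoImplicit false

open Finset

namespace Pool.Agent.LIN

variable {X : Type*} [Fintype X]

private theorem E4c_val (r : ℕ) (i : ZMod (2 ^ r)) :
    (((2 * i.val : ℕ) : ZMod (2 ^ (r + 1)))).val = 2 * i.val := by
  rw [ZMod.val_natCast, Nat.mod_eq_of_lt]
  have := ZMod.val_lt i
  rw [pow_succ]
  omega

private theorem E4c_val1 (r : ℕ) (i : ZMod (2 ^ r)) :
    (((2 * i.val : ℕ) : ZMod (2 ^ (r + 1))) + 1).val = 2 * i.val + 1 := by
  have h : ((2 * i.val : ℕ) : ZMod (2 ^ (r + 1))) + 1 = ((2 * i.val + 1 : ℕ) : ZMod (2 ^ (r + 1))) := by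
    push_cast
    ring
  rw [h, ZMod.val_natCast, Nat.mod_eq_of_lt]
  have := ZMod.val_lt i
  rw [pow_succ]
  omega

private theorem E4c_succ (r : ℕ) (i : ZMod (2 ^ r)) :
    ((2 * (i + 1).val : ℕ) : ZMod (2 ^ (r + 1))) = ((2 * i.val : ℕ) : ZMod (2 ^ (r + 1))) + 1 + 1 := by
  have h : ((2 * i.val : ℕ) : ZMod (2 ^ (r + 1))) + 1 + 1 =
      ((2 * (i.val + 1) : ℕ) : ZMod (2 ^ (r + 1))) := by
    push_cast
    ring
  rw [h, ZMod.natCast_eq_natCast_iff]
  have h1 : (i + 1).val ≡ i.val + 1 [MOD 2 ^ r] := by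
    rw [← ZMod.natCast_eq_natCast_iff]
    push_cast
    rw [ZMod.natCast_zmod_val, ZMod.natCast_zmod_val]
  have h2 := h1.mul_left' 2
  rwa [show 2 * 2 ^ r = 2 ^ (r + 1) by rw [pow_succ, mul_comm]] at h2

/-- `ℤ/2^(r+1)` as pairs of consecutive elements -/
private noncomputable def E4c_e (r : ℕ) : ZMod (2 ^ r) × Bool ≃ ZMod (2 ^ (r + 1)) :=
  Equiv.ofBijective (fun p => ((2 * p.1.val : ℕ) : ZMod (2 ^ (r + 1))) + if p.2 then 1 else 0) (by
    refine (Fintype.bijective_iff_injective_and_card _).2 ⟨?_, ?_⟩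
    · rintro ⟨i, b⟩ ⟨j, c⟩ h
      have h1 := congrArg ZMod.val h
      have hi := E4c_val r i
      have hj := E4c_val r j
      have hi1 := E4c_val1 r i
      have hj1 := E4c_val1 r j
      cases b <;> cases c
      · simp only [Bool.false_eq_true, if_false, add_zero] at h1
        rw [hi, hj] at h1
        rw [show i = j from ZMod.val_injective _ (by omega)]
      · simp only [Bool.false_eq_true, if_false, if_true, add_zero] at h1
        rw [hi, hj1] at h1
        omega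
      · simp only [Bool.false_eq_true, if_false, if_true, add_zero] at h1
        rw [hi1, hj] at h1
        omega
      · simp only [if_true] at h1
        rw [hi1, hj1] at h1
        rw [show i = j from ZMod.val_injective _ (by omega)]
    · rw [Fintype.card_prod, Fintype.card_bool, ZMod.card, ZMod.card, pow_succ])

private theorem E4c_e_false (r : ℕ) (i : ZMod (2 ^ r)) :
    E4c_e r (i, false) = ((2 * i.val : ℕ) : ZMod (2 ^ (r + 1))) := by
  rw [E4c_e, Equiv.ofBijective_apply]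
  simp

private theorem E4c_e_true (r : ℕ) (i : ZMod (2 ^ r)) :
    E4c_e r (i, true) = ((2 * i.val : ℕ) : ZMod (2 ^ (r + 1))) + 1 := by
  rw [E4c_e, Equiv.ofBijective_apply]
  simp

private theorem E4c_prod (r : ℕ) (g : ZMod (2 ^ (r + 1)) → ℝ) :
    ∏ x, g x = ∏ i : ZMod (2 ^ r), g ((2 * i.val : ℕ) : ZMod (2 ^ (r + 1))) *
      g (((2 * i.val : ℕ) : ZMod (2 ^ (r + 1))) + 1) := by
  rw [← Equiv.prod_comp (E4c_e r) g, Fintype.prod_prod_type]
  refine Finset.prod_congr rfl fun i _ => ?_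
  rw [Fintype.prod_bool, E4c_e_false, E4c_e_true, mul_comm]

/-- the two families of columns -/
private noncomputable def E4c_cols (r : ℕ) {X : Type*}
    (f : ZMod (2 ^ (r + 1)) × ZMod (2 ^ (r + 1)) → X) :
    (ZMod (2 ^ r) → (ZMod (2 ^ r) → X) × (ZMod (2 ^ r) → X)) ×
      (ZMod (2 ^ r) → (ZMod (2 ^ r) → X) × (ZMod (2 ^ r) → X)) :=
  (fun i => (fun j => f (E4c_e r (i, false), E4c_e r (j, false)),
    fun j => f (E4c_e r (i, false), E4c_e r (j, true))),
   fun i => (fun j => f (E4c_e r (i, true), E4c_e r (j, true)),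
    fun j => f (E4c_e r (i, true), E4c_e r (j, false))))

private theorem E4c_cols_bij (r : ℕ) {X : Type*} :
    Function.Bijective (E4c_cols r (X := X)) := by
  constructor
  · intro f g h
    funext p
    obtain ⟨x, y⟩ := p
    obtain ⟨⟨i, b⟩, rfl⟩ := (E4c_e r).surjective x
    obtain ⟨⟨j, c⟩, rfl⟩ := (E4c_e r).surjective y
    have h1 := congrFun (congrArg Prod.fst h) i
    have h2 := congrFun (congrArg Prod.snd h) i
    have h3 := congrFun (congrArg Prod.fst h1) j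
    have h4 := congrFun (congrArg Prod.snd h1) j
    have h5 := congrFun (congrArg Prod.fst h2) j
    have h6 := congrFun (congrArg Prod.snd h2) j
    cases b <;> cases c
    · exact h3
    · exact h4
    · exact h6
    · exact h5
  · rintro ⟨α, β⟩
    refine ⟨fun p => if ((E4c_e r).symm p.1).2 then
      (if ((E4c_e r).symm p.2).2 then (β ((E4c_e r).symm p.1).1).1 ((E4c_e r).symm p.2).1
        else (β ((E4c_e r).symm p.1).1).2 ((E4c_e r).symm p.2).1) else
      (if ((E4c_e r).symm p.2).2 then (α ((E4c_e r).symm p.1).1).2 ((E4c_e r).symm p.2).1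
        else (α ((E4c_e r).symm p.1).1).1 ((E4c_e r).symm p.2).1), ?_⟩
    simp [E4c_cols]

omit [Fintype X] in
private theorem E4c_ee (r : ℕ) (K : X → X → ℝ) (i j : ZMod (2 ^ r)) :
    ori (r + 1) K ((2 * i.val : ℕ) : ZMod (2 ^ (r + 1))) ((2 * j.val : ℕ) : ZMod (2 ^ (r + 1))) =
      K := by
  rw [ori, if_pos]
  rw [E4c_val, E4c_val]
  exact ⟨i.val + j.val, by ring⟩

omit [Fintype X] in
private theorem E4c_oo (r : ℕ) (K : X → X → ℝ) (i j : ZMod (2 ^ r)) :
    ori (r + 1) K (((2 * i.val : ℕ) : ZMod (2 ^ (r + 1))) + 1)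
      (((2 * j.val : ℕ) : ZMod (2 ^ (r + 1))) + 1) = K := by
  rw [ori, if_pos]
  rw [E4c_val1, E4c_val1]
  exact ⟨i.val + j.val + 1, by ring⟩

omit [Fintype X] in
private theorem E4c_eo (r : ℕ) (K : X → X → ℝ) (i j : ZMod (2 ^ r)) :
    ori (r + 1) K ((2 * i.val : ℕ) : ZMod (2 ^ (r + 1)))
      (((2 * j.val : ℕ) : ZMod (2 ^ (r + 1))) + 1) = fun a b => K b a := by
  rw [ori, if_neg]
  rw [E4c_val, E4c_val1, Nat.not_even_iff_odd]
  exact ⟨i.val + j.val, by ring⟩

omit [Fintype X] in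
private theorem E4c_oe (r : ℕ) (K : X → X → ℝ) (i j : ZMod (2 ^ r)) :
    ori (r + 1) K (((2 * i.val : ℕ) : ZMod (2 ^ (r + 1))) + 1)
      ((2 * j.val : ℕ) : ZMod (2 ^ (r + 1))) = fun a b => K b a := by
  rw [ori, if_neg]
  rw [E4c_val, E4c_val1, Nat.not_even_iff_odd]
  exact ⟨i.val + j.val, by ring⟩

/-- the square roots of a ring of layers -/
private theorem E4c_sqrt {U : Type*} (r : ℕ) (W W' : U → ℝ) (C : U → U → ℝ)
    (hW : ∀ u, 0 ≤ W u) (hW' : ∀ u, 0 ≤ W' u) (α β : ZMod (2 ^ r) → U) :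
    ∏ i, (Real.sqrt (W (α i)) * C (α i) (β i) * Real.sqrt (W' (β i))) *
      (Real.sqrt (W (α (i + 1))) * C (α (i + 1)) (β i) * Real.sqrt (W' (β i))) =
    ∏ i, W (α i) * W' (β i) * (C (α i) (β i) * C (α (i + 1)) (β i)) := by
  have h1 : ∏ i, Real.sqrt (W (α (i + 1))) = ∏ i, Real.sqrt (W (α i)) :=
    Equiv.prod_comp (Equiv.addRight (1 : ZMod (2 ^ r))) fun i => Real.sqrt (W (α i))
  calc ∏ i, (Real.sqrt (W (α i)) * C (α i) (β i) * Real.sqrt (W' (β i))) *
      (Real.sqrt (W (α (i + 1))) * C (α (i + 1)) (β i) * Real.sqrt (W' (β i)))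
      = ∏ i, Real.sqrt (W (α i)) * Real.sqrt (W (α (i + 1))) *
          (W' (β i) * (C (α i) (β i) * C (α (i + 1)) (β i))) := by
        refine Finset.prod_congr rfl fun i _ => ?_
        have h2 := Real.mul_self_sqrt (hW' (β i))
        calc _ = Real.sqrt (W (α i)) * Real.sqrt (W (α (i + 1))) *
              ((Real.sqrt (W' (β i)) * Real.sqrt (W' (β i))) *
                (C (α i) (β i) * C (α (i + 1)) (β i))) := by ring
          _ = _ := by rw [h2]
    _ = (∏ i, Real.sqrt (W (α i))) * (∏ i, Real.sqrt (W (α i))) *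
          ∏ i, (W' (β i) * (C (α i) (β i) * C (α (i + 1)) (β i))) := by
        rw [Finset.prod_mul_distrib, Finset.prod_mul_distrib, h1]
    _ = ∏ i, W (α i) * W' (β i) * (C (α i) (β i) * C (α (i + 1)) (β i)) := by
        rw [← Finset.prod_mul_distrib, ← Finset.prod_mul_distrib]
        refine Finset.prod_congr rfl fun i _ => ?_
        rw [Real.mul_self_sqrt (hW (α i)), mul_assoc]

theorem cols_Zh (r : ℕ) (K : X → X → ℝ) (hK : ∀ a b, 0 ≤ K a b) :
    zig r (Nn r K) = Zh (r + 1) K := by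
  have key : ∀ f : ZMod (2 ^ (r + 1)) × ZMod (2 ^ (r + 1)) → X,
      (∏ i, Nn r K ((E4c_cols r f).1 i) ((E4c_cols r f).2 i) *
        Nn r K ((E4c_cols r f).1 (i + 1)) ((E4c_cols r f).2 i)) =
      ∏ p : ZMod (2 ^ (r + 1)) × ZMod (2 ^ (r + 1)),
        ori (r + 1) K p.1 p.2 (f p) (f (p.1 + 1, p.2)) *
          ori (r + 1) K p.1 p.2 (f p) (f (p.1, p.2 + 1)) := by
    intro f
    have h1 := E4c_sqrt r
      (fun u : (ZMod (2 ^ r) → X) × (ZMod (2 ^ r) → X) =>
        ∏ j, K (u.1 j) (u.2 j) * K (u.1 (j + 1)) (u.2 j))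
      (fun v : (ZMod (2 ^ r) → X) × (ZMod (2 ^ r) → X) =>
        ∏ j, K (v.1 j) (v.2 j) * K (v.1 j) (v.2 (j + 1)))
      (fun u v => ∏ j, K (u.1 j) (v.2 j) * K (v.1 j) (u.2 j))
      (fun u => Finset.prod_nonneg fun j _ => mul_nonneg (hK _ _) (hK _ _))
      (fun u => Finset.prod_nonneg fun j _ => mul_nonneg (hK _ _) (hK _ _))
      (E4c_cols r f).1 (E4c_cols r f).2
    refine Eq.trans h1 ?_
    rw [Fintype.prod_prod_type, E4c_prod]
    refine Finset.prod_congr rfl fun i _ => ?_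
    rw [E4c_prod, E4c_prod, ← Finset.prod_mul_distrib, ← Finset.prod_mul_distrib,
      ← Finset.prod_mul_distrib, ← Finset.prod_mul_distrib]
    refine Finset.prod_congr rfl fun j _ => ?_
    simp only [E4c_cols, E4c_e_false, E4c_e_true, E4c_ee, E4c_oo, E4c_eo, E4c_oe, E4c_succ]
    ring
  rw [zig, Zh, Zg, ← Fintype.sum_prod_type']
  refine Eq.symm ?_
  rw [← (Equiv.ofBijective _ (E4c_cols_bij r (X := X))).sum_comp]
  refine Finset.sum_congr rfl fun f _ => ?_
  exact (key f).symm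

end Pool.Agent.LIN
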