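import Pool.Agent.Lib_MP_2c424f_lin.E4c

/-!
# H30 E4d: from the zigzag torus to the coordinate torus

`DD_le`: `DD (r+1) K ≤ Zh (r+1) K ^ 2`, `m = 2^(r+1)`.
`DD k K = ∑_{α, β : i, z} ∏ K(α_{i,z}, β_{i,z}) K(α_{i,z}, β_{i,z+1})`-type torus: unfolding `zig k (bz k K)` the sum
is over `α z i`, `β z i` (`z` = index of `zig`, `i` = index of `bz`) with the edges
`α z i ~ β z i`, `α z (i+1) ~ β z i`, `α (z+1) i ~ β z i`, `α (z+1) (i+1) ~ β z i`, first argument `α`.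
(1) Rows: put `a y i = α (i - y) i` and `b y i = β (i - y) i`, `y i : ℤ/m`
    (bijection `(z,i) ↔ (y,i)`, `z = i - y`).  Edges: `α z i ~ β z i`: `a y i ~ b y i`;
    `α z (i+1) ~ β z i`: `i+1-y' = z = i-y`, `y' = y+1`: `a (y+1) (i+1) ~ b y i`;
    `α (z+1) i ~ β z i`: `i-y' = i-y+1`, `y' = y-1`: `a (y-1) i ~ b y i`;
    `α (z+1) (i+1) ~ β z i`: `a y (i+1) ~ b y i`.
    So a ring in `y` with layers `(a_y, b_y) : (ℤ/m → X)²`, in-layer weight
    `V(a,b) = ∏_i K(a i, b i) K(a (i+1), b i)` and kernel between the layers `y`, `y+1`: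
    `∏_i K(a_{y+1} (i+1), b_y i) K(a_y i, b_{y+1} i)`; put `√V √V'` on both sides:
    `DD (r+1) K = cyc (r+1) (fun _ => R)`, so `ring_chess` gives `DD^m ≤ (zig r R)^m`, `DD ≤ zig r R`.
(2) `zig r R` is the coordinate torus with `x ∈ ℤ/2m`, `y ∈ ℤ/m` (rows `2j`: `(a_j, b_j)`, rows `2j+1`:
    `(a'_j, b'_j)`, `j : ℤ/2^r`): in-row `V`, and `K(a'_j (i+1), b_j i) K(a_j i, b'_j i)`,
    `K(a'_j (i+1), b_{j+1} i) K(a_{j+1} i, b'_j i)`.
    By columns: column `2i` = `(a_j i, b'_j i)_j`, column `2i+1` = `(a'_j (i+1), b_j i)_j` (first component: even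
    sites): in-column weights `W(p,q) = ∏_j K(p_j, q_j) K(p_{j+1}, q_j)` resp. `W'(p,q) = ∏_j K(p_j, q_j) K(p_j, q_{j+1})`,
    between the columns `2i` and `2i+1`: `∏_j K(p_j, q'_j) K(p'_j, q_j)`; between `2i+1` and `2i+2` the same function.
    So `zig r R = zig (r+1) N`, `N = √W √W' ∏ ...`, layers `(ℤ/2^r → X)²`.
(3) `zig_mono`: `zig (r+1) N ≤ (zig r N)²`.
(4) `zig r N = Zh (r+1) K`: split both coordinates of the torus of side `2^(r+1)` into even and odd values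
    (`x = 2i` or `2i+1`, `y = 2j` or `2j+1`).
`Zh_tr`: translate by `(1,0)`.
The builder may state (1), (2), (4) as separate lemmas.
-/

set_option autoImplicit false

open Finset

namespace Pool.Agent.LIN

variable {X : Type*} [Fintype X]

theorem DD_le (r : ℕ) (K : X → X → ℝ) (hK : ∀ a b, 0 ≤ K a b) :
    DD (r + 1) K ≤ Zh (r + 1) K ^ 2 := by
  have h1 := ring_chess r (fun _ : ZMod (2 ^ (r + 1)) => Rr (r + 1) K)
  rw [← DD_rows (r + 1) K hK, Finset.prod_const, Finset.card_univ, ZMod.card] at h1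
  have h2 : |DD (r + 1) K| ≤ zig r (Rr (r + 1) K) :=
    le_of_pow_le_pow_left₀ (by positivity) (zig_nonneg r _) h1
  calc DD (r + 1) K ≤ |DD (r + 1) K| := le_abs_self _
    _ ≤ zig r (Rr (r + 1) K) := h2
    _ = zig (r + 1) (Nn r K) := rows_cols r K hK
    _ ≤ zig r (Nn r K) ^ 2 := zig_mono r _
    _ = Zh (r + 1) K ^ 2 := by rw [cols_Zh r K hK]

private theorem E4d_parity (k : ℕ) (hk : 1 ≤ k) (x y : ZMod (2 ^ k)) :
    Even ((x + 1).val + y.val) ↔ ¬ Even (x.val + y.val) := by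
  have h2 : Even (2 ^ k) := (Nat.even_pow.2 ⟨even_two, by omega⟩)
  have hlt : x.val < 2 ^ k := ZMod.val_lt x
  have h1 : (1 : ZMod (2 ^ k)).val = 1 := by
    have : Fact (1 < 2 ^ k) := ⟨Nat.one_lt_two_pow (by omega)⟩
    exact ZMod.val_one _
  rw [ZMod.val_add, h1]
  rcases Nat.lt_or_ge (x.val + 1) (2 ^ k) with h | h
  · rw [Nat.mod_eq_of_lt h]
    rw [show x.val + 1 + y.val = (x.val + y.val) + 1 by ring, Nat.even_add_one]
  · have he : x.val + 1 = 2 ^ k := by omega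
    rw [he, Nat.mod_self, Nat.zero_add]
    rw [← he] at h2
    rw [Nat.even_add_one] at h2
    rw [Nat.even_add]
    tauto

private theorem E4d_ori (k : ℕ) (hk : 1 ≤ k) (K : X → X → ℝ) (x y : ZMod (2 ^ k)) :
    ori k K (x + 1) y = ori k (fun a b => K b a) x y := by
  unfold ori
  by_cases h : Even (x.val + y.val)
  · rw [if_pos h, if_neg (by rw [E4d_parity k hk]; exact not_not.2 h)]
  · rw [if_neg h, if_pos ((E4d_parity k hk x y).2 h)]

theorem Zh_tr (k : ℕ) (hk : 1 ≤ k) (K : X → X → ℝ) : Zh k (fun a b => K b a) = Zh k K := by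
  unfold Zh Zg
  let e : ZMod (2 ^ k) × ZMod (2 ^ k) ≃ ZMod (2 ^ k) × ZMod (2 ^ k) :=
    (Equiv.addRight (1 : ZMod (2 ^ k))).prodCongr (Equiv.refl _)
  refine Fintype.sum_equiv (Equiv.arrowCongr e (Equiv.refl X)) _ _ fun f => ?_
  refine Fintype.prod_equiv e _ _ fun p => ?_
  have e1 : ∀ p, (Equiv.arrowCongr e (Equiv.refl X)) f (e p) = f p := fun p => by
    simp [Equiv.arrowCongr]
  have e2 : ((e p).1 + 1, (e p).2) = e (p.1 + 1, p.2) := rfl
  have e3 : ((e p).1, (e p).2 + 1) = e (p.1, p.2 + 1) := rfl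
  rw [e2, e3, e1, e1, e1]
  have e4 : (e p).1 = p.1 + 1 := rfl
  have e5 : (e p).2 = p.2 := rfl
  rw [e4, e5, E4d_ori k hk K]

end Pool.Agent.LIN
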