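import Pool.Agent.Lib_MP_2c424f_lin.E3
import Pool.Agent.Lib_MP_2c424f_lin.E4

/-!
# H30 E5: the two-dimensional edge chessboard

`m = 2^k`, `Z = Zg k Kh Kv = cyc k A` (`Zg_cyc`, layers `ℤ/m → X`, so `card = |X|^m`).
`dbl`: `Z² ≤ |X|^m C`, `C = cyc (k+1) (A ∘ rd) ≥ 0`.  `ring_chess`: `C^(2m) ≤ (∏_{s : ℤ/m} zig k (A s))²`
(every value of `rd` is taken twice), so `C^m ≤ ∏_s zig k (A s)`.  `zig_layer`:
`zig k (A s)^(2m) ≤ ∏_z DD k (Kh (s-z) z) DD k (Kv (s-z) z)`, and `DD ≤ Zh²` (`DD_le`, `k = r+1`).  So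
`C^(2m²) ≤ ∏_{x,y} DD DD ≤ (∏ Zh Zh)²`, `C^(m²) ≤ ∏ Zh Zh`, `Z^(2m²) ≤ |X|^(m³) C^(m²)`.
-/

set_option autoImplicit false

open Finset

namespace Pool.Agent.LIN

variable {X : Type*} [Fintype X]

private theorem E5_range (N : ℕ) [NeZero N] (G : ℕ → ℝ) :
    ∏ s : ZMod N, G s.val = ∏ i ∈ Finset.range N, G i := by
  refine Finset.prod_nbij' (fun s : ZMod N => s.val) (fun i : ℕ => (i : ZMod N)) ?_ ?_ ?_ ?_ ?_
  · intro s _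
    exact Finset.mem_range.2 (ZMod.val_lt s)
  · intro i _
    exact Finset.mem_univ _
  · intro s _
    exact ZMod.natCast_zmod_val s
  · intro i hi
    rw [ZMod.val_natCast, Nat.mod_eq_of_lt (Finset.mem_range.1 hi)]
  · intro s _
    rfl

private theorem E5_rd (k : ℕ) (g : ZMod (2 ^ k) → ℝ) :
    ∏ j : ZMod (2 ^ (k + 1)), g (rd k j) = (∏ s, g s) ^ 2 := by
  have h1 : ∏ j : ZMod (2 ^ (k + 1)), g (rd k j) =
      ∏ i ∈ Finset.range (2 ^ (k + 1)), g (i : ZMod (2 ^ k)) :=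
    E5_range (2 ^ (k + 1)) fun i => g (i : ZMod (2 ^ k))
  have h2 : ∏ s, g s = ∏ i ∈ Finset.range (2 ^ k), g (i : ZMod (2 ^ k)) := by
    rw [← E5_range (2 ^ k) fun i => g (i : ZMod (2 ^ k))]
    refine Finset.prod_congr rfl fun s _ => ?_
    rw [ZMod.natCast_zmod_val]
  rw [h1, h2, show 2 ^ (k + 1) = 2 ^ k + 2 ^ k by rw [pow_succ]; ring, Finset.prod_range_add, sq]
  congr 1
  refine Finset.prod_congr rfl fun i _ => ?_
  rw [Nat.cast_add, ZMod.natCast_self, zero_add]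

private theorem E5_cyc_nonneg {U : Type*} [Fintype U] (r : ℕ) (A : ZMod (2 ^ r) → U → U → ℝ)
    (hA : ∀ j a b, 0 ≤ A j a b) : 0 ≤ cyc r A :=
  Finset.sum_nonneg fun _ _ => Finset.prod_nonneg fun _ _ => hA _ _ _

private theorem E5_ori_nonneg {U : Type*} (k : ℕ) (K : U → U → ℝ) (hK : ∀ a b, 0 ≤ K a b)
    (x y : ZMod (2 ^ k)) (a b : U) : 0 ≤ ori k K x y a b := by
  rw [ori]
  split_ifs
  · exact hK _ _
  · exact hK _ _

private theorem E5_Zh_nonneg (k : ℕ) (K : X → X → ℝ) (hK : ∀ a b, 0 ≤ K a b) : 0 ≤ Zh k K := by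
  rw [Zh, Zg]
  exact Finset.sum_nonneg fun f _ => Finset.prod_nonneg fun p _ =>
    mul_nonneg (E5_ori_nonneg k K hK _ _ _ _) (E5_ori_nonneg k K hK _ _ _ _)

theorem two_dim (k : ℕ) (hk : 1 ≤ k) (Kh Kv : ZMod (2 ^ k) → ZMod (2 ^ k) → X → X → ℝ)
    (h1 : ∀ x y a b, 0 ≤ Kh x y a b) (h2 : ∀ x y a b, 0 ≤ Kv x y a b) :
    Zg k Kh Kv ^ (2 * (2 ^ k) ^ 2) ≤
      (Fintype.card X : ℝ) ^ ((2 ^ k) ^ 3) * ∏ x, ∏ y, Zh k (Kh x y) * Zh k (Kv x y) := by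
  obtain ⟨A, hAdef⟩ : ∃ A : ZMod (2 ^ k) → (ZMod (2 ^ k) → X) → (ZMod (2 ^ k) → X) → ℝ,
      A = fun s (α β : ZMod (2 ^ k) → X) =>
        ∏ z, Kh (s - z) z (α z) (β z) * Kv (s - z) z (α z) (β (z + 1)) := ⟨_, rfl⟩
  have hA : ∀ s α β, 0 ≤ A s α β := by
    intro s α β
    rw [hAdef]
    exact Finset.prod_nonneg fun z _ => mul_nonneg (h1 _ _ _ _) (h2 _ _ _ _)
  have hZ : Zg k Kh Kv = cyc k A := by rw [Zg_cyc, hAdef]
  obtain ⟨C, hC⟩ : ∃ C, C = cyc (k + 1) (fun s => A (rd k s)) := ⟨_, rfl⟩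
  have hC0 : 0 ≤ C := by
    rw [hC]
    exact E5_cyc_nonneg _ _ fun j a b => hA _ _ _
  have hdbl : Zg k Kh Kv ^ 2 ≤ (Fintype.card X : ℝ) ^ (2 ^ k) * C := by
    have h3 := dbl k A hA
    rw [← hZ, ← hC] at h3
    have h4 : (Fintype.card (ZMod (2 ^ k) → X) : ℝ) = (Fintype.card X : ℝ) ^ (2 ^ k) := by
      rw [Fintype.card_fun, ZMod.card, Nat.cast_pow]
    rwa [h4] at h3
  -- the product of the layers
  obtain ⟨P, hP⟩ : ∃ P, P = ∏ s, zig k (A s) := ⟨_, rfl⟩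
  have hP0 : 0 ≤ P := by
    rw [hP]
    exact Finset.prod_nonneg fun s _ => zig_nonneg _ _
  have hCP : C ^ (2 ^ k) ≤ P := by
    have h3 := ring_chess k fun s => A (rd k s)
    rw [← hC, abs_of_nonneg hC0, E5_rd k fun s => zig k (A s), ← hP] at h3
    rw [pow_succ, pow_mul] at h3
    exact (pow_le_pow_iff_left₀ (pow_nonneg hC0 _) hP0 two_ne_zero).1 h3
  obtain ⟨Q, hQ⟩ : ∃ Q, Q = ∏ x, ∏ y, Zh k (Kh x y) * Zh k (Kv x y) := ⟨_, rfl⟩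
  have hZh : ∀ x y, 0 ≤ Zh k (Kh x y) := fun x y => E5_Zh_nonneg k _ (h1 x y)
  have hZv : ∀ x y, 0 ≤ Zh k (Kv x y) := fun x y => E5_Zh_nonneg k _ (h2 x y)
  have hQ0 : 0 ≤ Q := by
    rw [hQ]
    exact Finset.prod_nonneg fun x _ => Finset.prod_nonneg fun y _ => mul_nonneg (hZh _ _) (hZv _ _)
  have hDD : ∀ K : X → X → ℝ, (∀ a b, 0 ≤ K a b) → DD k K ≤ Zh k K ^ 2 := by
    obtain ⟨r, rfl⟩ : ∃ r, k = r + 1 := ⟨k - 1, by omega⟩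
    exact fun K hK => DD_le r K hK
  have hDD0 : ∀ K : X → X → ℝ, 0 ≤ DD k K := fun K => zig_nonneg _ _
  have hPQ : P ^ (2 ^ (k + 1)) ≤ Q ^ 2 := by
    have h3 : P ^ (2 ^ (k + 1)) ≤ ∏ s : ZMod (2 ^ k), ∏ z : ZMod (2 ^ k),
        (Zh k (Kh (s - z) z) * Zh k (Kv (s - z) z)) ^ 2 := by
      rw [hP, ← Finset.prod_pow]
      refine Finset.prod_le_prod (fun s _ => pow_nonneg (zig_nonneg _ _) _) fun s _ => ?_
      have h4 := zig_layer k (fun z => Kh (s - z) z) (fun z => Kv (s - z) z)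
      rw [hAdef]
      refine h4.trans (Finset.prod_le_prod (fun z _ => mul_nonneg (hDD0 _) (hDD0 _)) fun z _ => ?_)
      rw [mul_pow]
      exact mul_le_mul (hDD _ (h1 _ _)) (hDD _ (h2 _ _)) (hDD0 _) (sq_nonneg _)
    refine h3.trans (le_of_eq ?_)
    rw [hQ, Finset.prod_comm]
    have h5 : ∀ z : ZMod (2 ^ k), ∏ s : ZMod (2 ^ k),
        (Zh k (Kh (s - z) z) * Zh k (Kv (s - z) z)) ^ 2 =
        ∏ x : ZMod (2 ^ k), (Zh k (Kh x z) * Zh k (Kv x z)) ^ 2 := fun z =>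
      Equiv.prod_comp (Equiv.subRight z) fun x => (Zh k (Kh x z) * Zh k (Kv x z)) ^ 2
    rw [Finset.prod_congr rfl fun z _ => h5 z, Finset.prod_comm]
    simp only [Finset.prod_pow]
  have hCQ : C ^ ((2 ^ k) ^ 2) ≤ Q := by
    refine (pow_le_pow_iff_left₀ (pow_nonneg hC0 _) hQ0 two_ne_zero).1 ?_
    have h3 : (C ^ ((2 ^ k) ^ 2)) ^ 2 = (C ^ (2 ^ k)) ^ (2 ^ (k + 1)) := by
      rw [← pow_mul C, ← pow_mul C]
      congr 1
      ring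
    rw [h3]
    exact (pow_le_pow_left₀ (pow_nonneg hC0 _) hCP _).trans hPQ
  calc Zg k Kh Kv ^ (2 * (2 ^ k) ^ 2) = (Zg k Kh Kv ^ 2) ^ ((2 ^ k) ^ 2) :=
        pow_mul _ _ _
    _ ≤ ((Fintype.card X : ℝ) ^ (2 ^ k) * C) ^ ((2 ^ k) ^ 2) :=
        pow_le_pow_left₀ (sq_nonneg _) hdbl _
    _ = (Fintype.card X : ℝ) ^ ((2 ^ k) ^ 3) * C ^ ((2 ^ k) ^ 2) := by
        rw [mul_pow, ← pow_mul (Fintype.card X : ℝ)]
        congr 2
        ring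
    _ ≤ (Fintype.card X : ℝ) ^ ((2 ^ k) ^ 3) * Q :=
        mul_le_mul_of_nonneg_left hCQ (pow_nonneg (Nat.cast_nonneg _) _)
    _ = (Fintype.card X : ℝ) ^ ((2 ^ k) ^ 3) * ∏ x, ∏ y, Zh k (Kh x y) * Zh k (Kv x y) := by
        rw [hQ]

end Pool.Agent.LIN
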