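import Pool.Agent.Lib_MP_2c424f_lin.EDefs

/-!
# H30 E6: fibres over the plane `i j` (definitions)

A site is a plane position `(x,y)` and a fibre site `u` (`u i = u j = 0`): `stt i j x y u`.
Fat spins: `Yf i j d k → S`.  `Ph` = weight of the edges inside a fibre (directions `≠ i, j`); it is split into
fourth roots among the four plane edges at a plane position.
-/

set_option autoImplicit false

open Finset

namespace Pool.Agent.LIN

open Pool.Agent.LO

variable {d k : ℕ} {S Λ : Type*}

/-- fibre sites -/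
abbrev Yf (i j : Fin d) (k : ℕ) := {u : Site d k // u i = 0 ∧ u j = 0}

/-- the site over the plane position `(x,y)` -/
def stt (i j : Fin d) (x y : ZMod (2 ^ k)) (u : Site d k) : Site d k :=
  Function.update (Function.update u i x) j y

/-- step inside the fibre -/
def shf (i j : Fin d) (l : Fin d) (u : Yf i j k) : Yf i j k :=
  if h : l ≠ i ∧ l ≠ j then
    ⟨u.1 + sv (l, true), by
      constructor
      · simp [sv, Pi.single_apply, u.2.1, h.1.symm]
      · simp [sv, Pi.single_apply, u.2.2, h.2.symm]⟩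
  else u

open scoped Classical in
/-- a kernel, oriented by the parity of `x` -/
noncomputable def KO (K : S → S → ℝ) (x : Site d k) : S → S → ℝ :=
  if evn x then K else fun a b => K b a

/-- weight inside the fibre -/
noncomputable def Ph (K : Λ → S → S → ℝ) (w : Site d k → Fin d → Λ) (i j : Fin d) (x y : ZMod (2 ^ k))
    (a : Yf i j k → S) : ℝ :=
  ∏ u : Yf i j k, ∏ l ∈ univ.filter (fun l => l ≠ i ∧ l ≠ j),
    KO (K (w (stt i j x y u.1) l)) (stt i j x y u.1) (a u) (a (shf i j l u))

/-- kernel of the plane edge `(x,y) → (x+1,y)` -/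
noncomputable def KH (K : Λ → S → S → ℝ) (w : Site d k → Fin d → Λ) (i j : Fin d) (x y : ZMod (2 ^ k))
    (a b : Yf i j k → S) : ℝ :=
  Ph K w i j x y a ^ (1 / 4 : ℝ) * Ph K w i j (x + 1) y b ^ (1 / 4 : ℝ) *
    ∏ u : Yf i j k, KO (K (w (stt i j x y u.1) i)) (stt i j x y u.1) (a u) (b u)

/-- kernel of the plane edge `(x,y) → (x,y+1)` -/
noncomputable def KV (K : Λ → S → S → ℝ) (w : Site d k → Fin d → Λ) (i j : Fin d) (x y : ZMod (2 ^ k))
    (a b : Yf i j k → S) : ℝ :=
  Ph K w i j x y a ^ (1 / 4 : ℝ) * Ph K w i j x (y + 1) b ^ (1 / 4 : ℝ) *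
    ∏ u : Yf i j k, KO (K (w (stt i j x y u.1) j)) (stt i j x y u.1) (a u) (b u)

end Pool.Agent.LIN
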