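import Pool.Agent.Lib_MP_2c424f_lin.E6a2

/-!
# H30 E6a: the model on the torus as a two-dimensional model with fat spins

Bijection `(x,y,u) ↦ stt i j x y u`, `f ↦ (fun (x,y) u => f (stt x y u))`.  In `Zg` every plane position has four
edges, each with the factor `Ph^(1/4)`.  `stt (x+1) y u = stt x y u + e_i`, `stt x (y+1) u = stt x y u + e_j`,
`stt x y (shf l u) = stt x y u + e_l`; `K (w x l) (eE f x l) (eO f x l) = KO (K (w x l)) x (f x) (f (x + e_l))`.
`card_Yf`: `(2^k)^2 * card Yf = (2^k)^d`.
-/
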