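import Pool.Agent.Lib_MP_2c424f_lin.E6

/-!
# H30 E6a1: the model on the torus as a two-dimensional model with fat spins

Bijection `(x,y,u) ↦ stt i j x y u`, `f ↦ (fun (x,y) u => f (stt x y u))`.  In `Zg` every plane position has four
edges, each with the factor `Ph^(1/4)`.  `stt (x+1) y u = stt x y u + e_i`, `stt x (y+1) u = stt x y u + e_j`,
`stt x y (shf l u) = stt x y u + e_l`; `K (w x l) (eE f x l) (eO f x l) = KO (K (w x l)) x (f x) (f (x + e_l))`.
`card_Yf`: `(2^k)^2 * card Yf = (2^k)^d`.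
-/

set_option autoImplicit false

open Finset

namespace Pool.Agent.LIN

open Pool.Agent.LO

variable {d k : ℕ} {S Λ : Type*} [Fintype S]

private theorem E6a1_stt_i (i j : Fin d) (hij : i ≠ j) (x y : ZMod (2 ^ k)) (u : Site d k) :
    stt i j x y u i = x := by
  unfold stt
  rw [Function.update_of_ne hij, Function.update_self]

private theorem E6a1_stt_j (i j : Fin d) (x y : ZMod (2 ^ k)) (u : Site d k) :
    stt i j x y u j = y := by
  unfold stt
  rw [Function.update_self]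

private theorem E6a1_stt_l (i j l : Fin d) (hi : l ≠ i) (hj : l ≠ j) (x y : ZMod (2 ^ k))
    (u : Site d k) : stt i j x y u l = u l := by
  unfold stt
  rw [Function.update_of_ne hj, Function.update_of_ne hi]

/-- the bijection -/
private def E6a1_e (i j : Fin d) (hij : i ≠ j) :
    (ZMod (2 ^ k) × ZMod (2 ^ k)) × Yf i j k ≃ Site d k where
  toFun q := stt i j q.1.1 q.1.2 q.2.1
  invFun s := ((s i, s j), ⟨stt i j 0 0 s, E6a1_stt_i i j hij 0 0 s, E6a1_stt_j i j 0 0 s⟩)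
  left_inv := by
    rintro ⟨⟨x, y⟩, ⟨u, hu1, hu2⟩⟩
    refine Prod.ext (Prod.ext ?_ ?_) (Subtype.ext ?_)
    · exact E6a1_stt_i i j hij x y u
    · exact E6a1_stt_j i j x y u
    · funext l
      change stt i j 0 0 (stt i j x y u) l = u l
      by_cases hj : l = j
      · subst hj; rw [E6a1_stt_j, hu2]
      · by_cases hi : l = i
        · subst hi; rw [E6a1_stt_i l j hij, hu1]
        · rw [E6a1_stt_l i j l hi hj, E6a1_stt_l i j l hi hj]
  right_inv := by
    intro s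
    funext l
    change stt i j (s i) (s j) (stt i j 0 0 s) l = s l
    by_cases hj : l = j
    · subst hj; rw [E6a1_stt_j]
    · by_cases hi : l = i
      · subst hi; rw [E6a1_stt_i l j hij]
      · rw [E6a1_stt_l i j l hi hj, E6a1_stt_l i j l hi hj]

private theorem E6a1_add_i (i j : Fin d) (hij : i ≠ j) (x y : ZMod (2 ^ k)) (u : Site d k) :
    stt i j x y u + sv (i, true) = stt i j (x + 1) y u := by
  funext l
  rw [Pi.add_apply]
  unfold sv
  by_cases hi : l = i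
  · subst hi; rw [E6a1_stt_i l j hij, E6a1_stt_i l j hij]; simp
  · simp only [if_true]
    rw [Pi.single_eq_of_ne hi, add_zero]
    by_cases hj : l = j
    · subst hj; rw [E6a1_stt_j, E6a1_stt_j]
    · rw [E6a1_stt_l i j l hi hj, E6a1_stt_l i j l hi hj]

private theorem E6a1_add_j (i j : Fin d) (hij : i ≠ j) (x y : ZMod (2 ^ k)) (u : Site d k) :
    stt i j x y u + sv (j, true) = stt i j x (y + 1) u := by
  funext l
  rw [Pi.add_apply]
  unfold sv
  by_cases hj : l = j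
  · subst hj; rw [E6a1_stt_j, E6a1_stt_j]; simp
  · simp only [if_true]
    rw [Pi.single_eq_of_ne hj, add_zero]
    by_cases hi : l = i
    · subst hi; rw [E6a1_stt_i l j hij, E6a1_stt_i l j hij]
    · rw [E6a1_stt_l i j l hi hj, E6a1_stt_l i j l hi hj]

private theorem E6a1_add_l (i j : Fin d) (hij : i ≠ j) (l : Fin d) (h : l ≠ i ∧ l ≠ j)
    (x y : ZMod (2 ^ k)) (u : Yf i j k) :
    stt i j x y u.1 + sv (l, true) = stt i j x y (shf i j l u).1 := by
  funext m
  rw [Pi.add_apply]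
  unfold shf
  rw [dif_pos h]
  unfold sv
  simp only [if_true]
  by_cases hj : m = j
  · subst hj; rw [E6a1_stt_j, E6a1_stt_j, Pi.single_eq_of_ne h.2.symm, add_zero]
  · by_cases hi : m = i
    · subst hi; rw [E6a1_stt_i m j hij, E6a1_stt_i m j hij, Pi.single_eq_of_ne h.1.symm, add_zero]
    · rw [E6a1_stt_l i j m hi hj, E6a1_stt_l i j m hi hj, Pi.add_apply]

omit [Fintype S] in
private theorem E6a1_KO (K : Λ → S → S → ℝ) (w : Site d k → Fin d → Λ) (f : Site d k → S)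
    (x : Site d k) (l : Fin d) :
    K (w x l) (eE f x l) (eO f x l) = KO (K (w x l)) x (f x) (f (x + sv (l, true))) := by
  unfold eE eO KO
  by_cases h : evn x
  · rw [if_pos h, if_pos h, if_pos h]
  · rw [if_neg h, if_neg h, if_neg h]

omit [Fintype S] in
private theorem E6a1_KO_nonneg (K : S → S → ℝ) (hK : ∀ a b, 0 ≤ K a b) (x : Site d k) (a b : S) :
    0 ≤ KO K x a b := by
  unfold KO
  by_cases h : evn x
  · rw [if_pos h]; exact hK a b
  · rw [if_neg h]; exact hK b a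

omit [Fintype S] in
private theorem E6a1_Ph_nonneg (K : Λ → S → S → ℝ) (hK : ∀ l a b, 0 ≤ K l a b)
    (w : Site d k → Fin d → Λ) (i j : Fin d) (x y : ZMod (2 ^ k)) (a : Yf i j k → S) :
    0 ≤ Ph K w i j x y a :=
  prod_nonneg fun _ _ => prod_nonneg fun _ _ => E6a1_KO_nonneg _ (hK _) _ _ _

omit [Fintype S] in
/-- the weights agree -/
private theorem E6a1_weight (K : Λ → S → S → ℝ) (hK : ∀ l a b, 0 ≤ K l a b)
    (w : Site d k → Fin d → Λ) (i j : Fin d) (hij : i ≠ j) (f : Site d k → S) :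
    ∏ x, ∏ l, K (w x l) (eE f x l) (eO f x l) =
      ∏ p : ZMod (2 ^ k) × ZMod (2 ^ k),
        KH K w i j p.1 p.2 (fun u => f (stt i j p.1 p.2 u.1))
            (fun u => f (stt i j (p.1 + 1) p.2 u.1)) *
          KV K w i j p.1 p.2 (fun u => f (stt i j p.1 p.2 u.1))
            (fun u => f (stt i j p.1 (p.2 + 1) u.1)) := by
  classical
  set F : ZMod (2 ^ k) × ZMod (2 ^ k) → ℝ := fun p =>
    Ph K w i j p.1 p.2 (fun u => f (stt i j p.1 p.2 u.1)) with hF
  have hF0 : ∀ p, 0 ≤ F p := fun p => E6a1_Ph_nonneg K hK w i j p.1 p.2 _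
  set A : ZMod (2 ^ k) × ZMod (2 ^ k) → ℝ := fun p =>
    ∏ u : Yf i j k, KO (K (w (stt i j p.1 p.2 u.1) i)) (stt i j p.1 p.2 u.1)
      (f (stt i j p.1 p.2 u.1)) (f (stt i j (p.1 + 1) p.2 u.1)) with hA
  set B : ZMod (2 ^ k) × ZMod (2 ^ k) → ℝ := fun p =>
    ∏ u : Yf i j k, KO (K (w (stt i j p.1 p.2 u.1) j)) (stt i j p.1 p.2 u.1)
      (f (stt i j p.1 p.2 u.1)) (f (stt i j p.1 (p.2 + 1) u.1)) with hB
  -- left side
  have hL : ∏ x, ∏ l, K (w x l) (eE f x l) (eO f x l) = ∏ p, (A p * B p * F p) := by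
    rw [← (E6a1_e i j hij).prod_comp (fun x => ∏ l, K (w x l) (eE f x l) (eO f x l)),
      Fintype.prod_prod_type]
    refine prod_congr rfl fun p _ => ?_
    rw [hA, hB, hF]
    unfold Ph
    simp only
    rw [← prod_mul_distrib, ← prod_mul_distrib]
    refine prod_congr rfl fun u _ => ?_
    change ∏ l, K (w (stt i j p.1 p.2 u.1) l) (eE f (stt i j p.1 p.2 u.1) l)
      (eO f (stt i j p.1 p.2 u.1) l) = _
    set s := stt i j p.1 p.2 u.1 with hs
    rw [prod_congr rfl fun l _ => E6a1_KO K w f s l]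
    rw [← mul_prod_erase univ _ (mem_univ i)]
    have hj : j ∈ univ.erase i := mem_erase.2 ⟨hij.symm, mem_univ j⟩
    rw [← mul_prod_erase _ _ hj, ← mul_assoc]
    congr 1
    · rw [hs, E6a1_add_i i j hij, E6a1_add_j i j hij]
    · have he : (univ.erase i).erase j = univ.filter (fun l => l ≠ i ∧ l ≠ j) := by
        ext l
        simp only [mem_erase, mem_univ, and_true, mem_filter, true_and]
        tauto
      rw [he]
      refine prod_congr rfl fun l hl => ?_
      rw [mem_filter] at hl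
      rw [hs, E6a1_add_l i j hij l hl.2]
  have hR : ∏ p : ZMod (2 ^ k) × ZMod (2 ^ k),
        (KH K w i j p.1 p.2 (fun u => f (stt i j p.1 p.2 u.1))
            (fun u => f (stt i j (p.1 + 1) p.2 u.1)) *
          KV K w i j p.1 p.2 (fun u => f (stt i j p.1 p.2 u.1))
            (fun u => f (stt i j p.1 (p.2 + 1) u.1))) =
      ∏ p, ((F p ^ (1 / 4 : ℝ) * F (p.1 + 1, p.2) ^ (1 / 4 : ℝ) * A p) *
        (F p ^ (1 / 4 : ℝ) * F (p.1, p.2 + 1) ^ (1 / 4 : ℝ) * B p)) := rfl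
  rw [hL, hR]
  have h1 : ∏ p : ZMod (2 ^ k) × ZMod (2 ^ k), F (p.1 + 1, p.2) ^ (1 / 4 : ℝ) =
      ∏ p, F p ^ (1 / 4 : ℝ) :=
    ((Equiv.addRight (1 : ZMod (2 ^ k))).prodCongr (Equiv.refl _)).prod_comp
      (fun p : ZMod (2 ^ k) × ZMod (2 ^ k) => F p ^ (1 / 4 : ℝ))
  have h2 : ∏ p : ZMod (2 ^ k) × ZMod (2 ^ k), F (p.1, p.2 + 1) ^ (1 / 4 : ℝ) =
      ∏ p, F p ^ (1 / 4 : ℝ) :=
    ((Equiv.refl _).prodCongr (Equiv.addRight (1 : ZMod (2 ^ k)))).prod_comp
      (fun p : ZMod (2 ^ k) × ZMod (2 ^ k) => F p ^ (1 / 4 : ℝ))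
  have h3 : ∏ p, F p = (∏ p, F p ^ (1 / 4 : ℝ)) * (∏ p, F p ^ (1 / 4 : ℝ)) *
      ((∏ p, F p ^ (1 / 4 : ℝ)) * (∏ p, F p ^ (1 / 4 : ℝ))) := by
    rw [← prod_mul_distrib, ← prod_mul_distrib]
    refine prod_congr rfl fun p _ => ?_
    have h4 : F p = (F p ^ (1 / 4 : ℝ)) ^ (4 : ℕ) := by
      rw [← Real.rpow_natCast, ← Real.rpow_mul (hF0 p)]
      norm_num
    nth_rewrite 1 [h4]
    ring
  simp only [prod_mul_distrib]
  rw [h1, h2, h3]
  ring

theorem Zw_fib (K : Λ → S → S → ℝ) (hK : ∀ l a b, 0 ≤ K l a b) (w : Site d k → Fin d → Λ) (i j : Fin d)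
    (hij : i ≠ j) : Zw K w = Zg k (KH K w i j) (KV K w i j) := by
  classical
  unfold Zw Zg
  rw [sum_congr rfl fun f _ => E6a1_weight K hK w i j hij f]
  let E : (Site d k → S) ≃ (ZMod (2 ^ k) × ZMod (2 ^ k) → Yf i j k → S) :=
    ((E6a1_e i j hij).symm.arrowCongr (Equiv.refl S)).trans (Equiv.curry _ _ _)
  rw [← E.sum_comp]
  rfl

end Pool.Agent.LIN
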