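import Pool.Agent.Lib_MP_2c424f_lin.E6a1

/-!
# H30 E6a2: the model on the torus as a two-dimensional model with fat spins

Bijection `(x,y,u) ↦ stt i j x y u`, `f ↦ (fun (x,y) u => f (stt x y u))`.  In `Zg` every plane position has four
edges, each with the factor `Ph^(1/4)`.  `stt (x+1) y u = stt x y u + e_i`, `stt x (y+1) u = stt x y u + e_j`,
`stt x y (shf l u) = stt x y u + e_l`; `K (w x l) (eE f x l) (eO f x l) = KO (K (w x l)) x (f x) (f (x + e_l))`.
`card_Yf`: `(2^k)^2 * card Yf = (2^k)^d`.
-/

set_option autoImplicit false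

open Finset

namespace Pool.Agent.LIN

open Pool.Agent.LO

variable {d k : ℕ} {S Λ : Type*} [Fintype S]

/-- the bijection between triples and sites -/
private def e6a2_equiv (i j : Fin d) (hij : i ≠ j) :
    (ZMod (2 ^ k) × ZMod (2 ^ k)) × Yf i j k ≃ Site d k where
  toFun q := stt i j q.1.1 q.1.2 q.2.1
  invFun x := ((x i, x j), ⟨stt i j 0 0 x, by
    rw [stt]
    exact ⟨by rw [Function.update_of_ne hij, Function.update_self], by rw [Function.update_self]⟩⟩)
  left_inv := by
    rintro ⟨⟨a, b⟩, ⟨u, hu1, hu2⟩⟩
    refine Prod.ext (Prod.ext ?_ ?_) (Subtype.ext ?_)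
    · change stt i j a b u i = a
      rw [stt, Function.update_of_ne hij, Function.update_self]
    · change stt i j a b u j = b
      rw [stt, Function.update_self]
    · change stt i j 0 0 (stt i j a b u) = u
      funext l
      rcases eq_or_ne l j with rfl | hlj
      · rw [stt, Function.update_self, hu2]
      rcases eq_or_ne l i with rfl | hli
      · rw [stt, Function.update_of_ne hlj, Function.update_self, hu1]
      rw [stt, Function.update_of_ne hlj, Function.update_of_ne hli, stt,
        Function.update_of_ne hlj, Function.update_of_ne hli]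
  right_inv x := by
    change stt i j (x i) (x j) (stt i j 0 0 x) = x
    funext l
    rcases eq_or_ne l j with rfl | hlj
    · rw [stt, Function.update_self]
    rcases eq_or_ne l i with rfl | hli
    · rw [stt, Function.update_of_ne hlj, Function.update_self]
    rw [stt, Function.update_of_ne hlj, Function.update_of_ne hli, stt,
      Function.update_of_ne hlj, Function.update_of_ne hli]

theorem card_Yf (i j : Fin d) (hij : i ≠ j) :
    ((2 : ℝ) ^ k) ^ 2 * (Fintype.card (Yf i j k) : ℝ) = NN d k := by
  have h1 := Fintype.card_congr (e6a2_equiv (k := k) i j hij)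
  rw [Fintype.card_prod, Fintype.card_prod, ZMod.card] at h1
  have h2 : Fintype.card (Site d k) = (2 ^ k) ^ d := by
    rw [Fintype.card_fun, ZMod.card, Fintype.card_fin]
  rw [h2] at h1
  have h3 : (((2 ^ k * 2 ^ k * Fintype.card (Yf i j k) : ℕ)) : ℝ) = (((2 ^ k) ^ d : ℕ) : ℝ) := by
    rw [h1]
  rw [NN]
  push_cast at h3
  rw [sq]
  exact h3

end Pool.Agent.LIN
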