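import Pool.Agent.Lib_MP_2c424f_lin.E6a
import Pool.Agent.Lib_MP_2c424f_lin.E4

/-!
# H30 E6b: homogeneous plane kernels are foldings

`Zh k (KH K w i j x y) = Zw K (pf i j (stt i j x y 0) (i, true) w)`.
By `Zw_fib` for the labelling `w' = pf ...`, the right side is `Zg k (KH K w') (KV K w')`, and
for a plane position `(x',y')` of the same parity as `(x,y)`: `Ph K w' x' y' = Ph K w x y`, the neighbours have
`Ph K w' = Ph K w (x+1) y`, and both `KH K w' x' y'`, `KV K w' x' y'` are `KH K w x y`; for the other parity they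
are the transpose of `KH K w x y`.  (The parity of `stt x' y' u` is that of `stt x y u` iff `(x',y')` has the parity
of `(x,y)`.)  So it is `Zh k (KH K w x y)` if `x + y` is even and `Zh k` of the transpose if it is odd (`Zh_tr`).
Same for `KV` with the step `(j, true)`.
-/

set_option autoImplicit false

open Finset

namespace Pool.Agent.LIN

open Pool.Agent.LO

variable {d k : ℕ} {S Λ : Type*} [Fintype S]

private theorem E6b_stt_add (i j : Fin d) (x y : ZMod (2 ^ k)) (u : Yf i j k) :
    stt i j x y u.1 = stt i j x y 0 + u.1 := by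
  funext l
  unfold stt
  by_cases hj : l = j
  · subst hj
    simp [u.2.2]
  · by_cases hi : l = i
    · subst hi
      simp [Function.update_of_ne hj, u.2.1]
    · simp [Function.update_of_ne hj, Function.update_of_ne hi]

private theorem E6b_evn0 (i j : Fin d) (hij : i ≠ j) (x y : ZMod (2 ^ k)) :
    evn (stt i j x y (0 : Site d k)) ↔ Even (x.val + y.val) := by
  unfold evn
  have h : ∑ l, (stt i j x y (0 : Site d k) l).val = x.val + y.val := by
    rw [Finset.sum_eq_add i j hij]
    · simp [stt, Function.update_of_ne hij]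
    · rintro l - ⟨h1, h2⟩
      simp [stt, Function.update_of_ne h2, Function.update_of_ne h1]
    · intro h
      exact absurd (mem_univ _) h
    · intro h
      exact absurd (mem_univ _) h
  rw [h]

private theorem E6b_evn (hk : 1 ≤ k) (i j : Fin d) (hij : i ≠ j) (x y : ZMod (2 ^ k)) (u : Yf i j k) :
    evn (stt i j x y u.1) ↔ (Even (x.val + y.val) ↔ evn u.1) := by
  rw [E6b_stt_add, evn_add hk, E6b_evn0 i j hij]

private theorem E6b_step_i (i j : Fin d) (hij : i ≠ j) (x y : ZMod (2 ^ k)) (u : Site d k) :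
    stt i j x y u + sv (i, true) = stt i j (x + 1) y u := by
  funext l
  unfold stt sv
  by_cases hj : l = j
  · subst hj
    simp [hij]
  · by_cases hi : l = i
    · subst hi
      simp [Function.update_of_ne hj]
    · simp [Function.update_of_ne hj, Function.update_of_ne hi, Ne.symm hi, hi]

private theorem E6b_step_j (i j : Fin d) (hij : i ≠ j) (x y : ZMod (2 ^ k)) (u : Site d k) :
    stt i j x y u + sv (j, true) = stt i j x (y + 1) u := by
  funext l
  unfold stt sv
  by_cases hj : l = j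
  · subst hj
    simp
  · by_cases hi : l = i
    · subst hi
      simp [Function.update_of_ne hj, hj]
    · simp [Function.update_of_ne hj, Function.update_of_ne hi, hj]

private theorem E6b_par_i (hk : 1 ≤ k) (i j : Fin d) (hij : i ≠ j) (x y : ZMod (2 ^ k)) :
    Even ((x + 1).val + y.val) ↔ ¬ Even (x.val + y.val) := by
  rw [← E6b_evn0 i j hij, ← E6b_evn0 i j hij, ← E6b_step_i i j hij, evn_step hk]

private theorem E6b_par_j (hk : 1 ≤ k) (i j : Fin d) (hij : i ≠ j) (x y : ZMod (2 ^ k)) :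
    Even (x.val + (y + 1).val) ↔ ¬ Even (x.val + y.val) := by
  rw [← E6b_evn0 i j hij, ← E6b_evn0 i j hij, ← E6b_step_j i j hij, evn_step hk]

private theorem E6b_mrg (i j : Fin d) (hij : i ≠ j) (x y x' y' : ZMod (2 ^ k)) (u : Site d k) :
    mrg i j (stt i j x y 0) (stt i j x' y' u) = stt i j x y u := by
  funext l
  unfold mrg stt
  by_cases hj : l = j
  · subst hj
    simp
  · by_cases hi : l = i
    · subst hi
      simp [Function.update_of_ne hj]
    · simp [Function.update_of_ne hj, Function.update_of_ne hi, hi, hj]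

private theorem E6b_si (i j : Fin d) (hij : i ≠ j) (x y : ZMod (2 ^ k)) (u : Site d k) :
    stt i j x y u i = x := by
  simp [stt, Function.update_of_ne hij]

private theorem E6b_sj (i j : Fin d) (x y : ZMod (2 ^ k)) (u : Site d k) :
    stt i j x y u j = y := by
  simp [stt]

private theorem E6b_lab_pl (w : Site d k → Fin d → Λ) (i j : Fin d) (hij : i ≠ j)
    (x y x' y' : ZMod (2 ^ k)) (s l : Fin d) (hl : l = i ∨ l = j) (u : Site d k) :
    pf i j (stt i j x y 0) (s, true) w (stt i j x' y' u) l = w (stt i j x y u) s := by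
  unfold pf
  rw [if_pos hl, E6b_mrg i j hij]
  rfl

private theorem E6b_lab_same (w : Site d k → Fin d → Λ) (i j : Fin d) (hij : i ≠ j)
    (x y x' y' : ZMod (2 ^ k)) (s l : Fin d) (hl : ¬ (l = i ∨ l = j)) (u : Site d k)
    (he : Even (x'.val + y'.val + x.val + y.val)) :
    pf i j (stt i j x y 0) (s, true) w (stt i j x' y' u) l = w (stt i j x y u) l := by
  unfold pf fol
  rw [if_neg hl, E6b_mrg i j hij, E6b_si i j hij, E6b_sj, E6b_si i j hij, E6b_sj, if_pos he]

private theorem E6b_lab_opp (w : Site d k → Fin d → Λ) (i j : Fin d) (hij : i ≠ j)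
    (x y x' y' : ZMod (2 ^ k)) (s l : Fin d) (hl : ¬ (l = i ∨ l = j)) (u : Site d k)
    (he : ¬ Even (x'.val + y'.val + x.val + y.val)) :
    pf i j (stt i j x y 0) (s, true) w (stt i j x' y' u) l = w (stt i j x y u + sv (s, true)) l := by
  unfold pf fol
  rw [if_neg hl, E6b_mrg i j hij, E6b_si i j hij, E6b_sj, E6b_si i j hij, E6b_sj, if_neg he]

private theorem E6b_KO (K : S → S → ℝ) (x y : Site d k) (h : evn x ↔ evn y) : KO K x = KO K y := by
  unfold KO
  by_cases hy : evn y
  · rw [if_pos hy, if_pos (h.2 hy)]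
  · rw [if_neg hy, if_neg fun hx => hy (h.1 hx)]

private theorem E6b_KO' (K : S → S → ℝ) (x y : Site d k) (h : evn x ↔ ¬ evn y) (a b : S) :
    KO K x a b = KO K y b a := by
  unfold KO
  by_cases hy : evn y
  · rw [if_pos hy, if_neg fun hx => (h.1 hx) hy]
  · rw [if_neg hy, if_pos (h.2 hy)]

private theorem E6b_Ph_same (hk : 1 ≤ k) (K : Λ → S → S → ℝ) (w : Site d k → Fin d → Λ)
    (i j : Fin d) (hij : i ≠ j) (x y x' y' : ZMod (2 ^ k)) (s : Fin d)
    (he : Even (x'.val + y'.val) ↔ Even (x.val + y.val)) (a : Yf i j k → S) :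
    Ph K (pf i j (stt i j x y 0) (s, true) w) i j x' y' a = Ph K w i j x y a := by
  unfold Ph
  refine prod_congr rfl fun u _ => prod_congr rfl fun l hl => ?_
  have hl' : ¬ (l = i ∨ l = j) := by
    rw [mem_filter] at hl
    rintro (h | h)
    · exact hl.2.1 h
    · exact hl.2.2 h
  have he' : Even (x'.val + y'.val + x.val + y.val) := by
    rw [add_assoc, Nat.even_add]
    exact he
  rw [E6b_lab_same w i j hij x y x' y' s l hl' u.1 he',
    E6b_KO _ (stt i j x' y' u.1) (stt i j x y u.1) (by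
      rw [E6b_evn hk i j hij, E6b_evn hk i j hij, he])]

private theorem E6b_Ph_opp (hk : 1 ≤ k) (K : Λ → S → S → ℝ) (w : Site d k → Fin d → Λ)
    (i j : Fin d) (hij : i ≠ j) (x y x1 y1 x' y' : ZMod (2 ^ k)) (s : Fin d)
    (h1 : ∀ u : Site d k, stt i j x y u + sv (s, true) = stt i j x1 y1 u)
    (he : Even (x'.val + y'.val) ↔ ¬ Even (x.val + y.val)) (a : Yf i j k → S) :
    Ph K (pf i j (stt i j x y 0) (s, true) w) i j x' y' a = Ph K w i j x1 y1 a := by
  unfold Ph
  refine prod_congr rfl fun u _ => prod_congr rfl fun l hl => ?_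
  have hl' : ¬ (l = i ∨ l = j) := by
    rw [mem_filter] at hl
    rintro (h | h)
    · exact hl.2.1 h
    · exact hl.2.2 h
  have he' : ¬ Even (x'.val + y'.val + x.val + y.val) := by
    rw [add_assoc, Nat.even_add, he]
    tauto
  rw [E6b_lab_opp w i j hij x y x' y' s l hl' u.1 he', h1,
    E6b_KO _ (stt i j x' y' u.1) (stt i j x1 y1 u.1) (by
      rw [← h1, evn_step hk, E6b_evn hk i j hij, E6b_evn hk i j hij, he]
      tauto)]

private noncomputable def E6b_L (K : Λ → S → S → ℝ) (w : Site d k → Fin d → Λ) (i j : Fin d)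
    (x y x1 y1 : ZMod (2 ^ k)) (s : Fin d) (a b : Yf i j k → S) : ℝ :=
  Ph K w i j x y a ^ (1 / 4 : ℝ) * Ph K w i j x1 y1 b ^ (1 / 4 : ℝ) *
    ∏ u : Yf i j k, KO (K (w (stt i j x y u.1) s)) (stt i j x y u.1) (a u) (b u)

private theorem E6b_edge_same (hk : 1 ≤ k) (K : Λ → S → S → ℝ) (w : Site d k → Fin d → Λ)
    (i j : Fin d) (hij : i ≠ j) (x y x1 y1 x' y' x2 y2 : ZMod (2 ^ k)) (s l : Fin d)
    (hl : l = i ∨ l = j)
    (h1 : ∀ u : Site d k, stt i j x y u + sv (s, true) = stt i j x1 y1 u)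
    (h2 : Even (x2.val + y2.val) ↔ ¬ Even (x'.val + y'.val))
    (he : Even (x'.val + y'.val) ↔ Even (x.val + y.val)) :
    E6b_L K (pf i j (stt i j x y 0) (s, true) w) i j x' y' x2 y2 l = E6b_L K w i j x y x1 y1 s := by
  funext a b
  unfold E6b_L
  rw [E6b_Ph_same hk K w i j hij x y x' y' s he,
    E6b_Ph_opp hk K w i j hij x y x1 y1 x2 y2 s h1 (by rw [h2, he])]
  congr 1
  refine prod_congr rfl fun u _ => ?_
  rw [E6b_lab_pl w i j hij x y x' y' s l hl,
    E6b_KO _ (stt i j x' y' u.1) (stt i j x y u.1) (by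
      rw [E6b_evn hk i j hij, E6b_evn hk i j hij, he])]

private theorem E6b_edge_opp (hk : 1 ≤ k) (K : Λ → S → S → ℝ) (w : Site d k → Fin d → Λ)
    (i j : Fin d) (hij : i ≠ j) (x y x1 y1 x' y' x2 y2 : ZMod (2 ^ k)) (s l : Fin d)
    (hl : l = i ∨ l = j)
    (h1 : ∀ u : Site d k, stt i j x y u + sv (s, true) = stt i j x1 y1 u)
    (h2 : Even (x2.val + y2.val) ↔ ¬ Even (x'.val + y'.val))
    (he : Even (x'.val + y'.val) ↔ ¬ Even (x.val + y.val)) :
    E6b_L K (pf i j (stt i j x y 0) (s, true) w) i j x' y' x2 y2 l =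
      fun a b => E6b_L K w i j x y x1 y1 s b a := by
  funext a b
  unfold E6b_L
  rw [E6b_Ph_opp hk K w i j hij x y x1 y1 x' y' s h1 he,
    E6b_Ph_same hk K w i j hij x y x2 y2 s (by rw [h2, he, not_not])]
  rw [mul_comm (Ph K w i j x1 y1 a ^ (1 / 4 : ℝ))]
  congr 1
  refine prod_congr rfl fun u _ => ?_
  rw [E6b_lab_pl w i j hij x y x' y' s l hl,
    E6b_KO' _ (stt i j x' y' u.1) (stt i j x y u.1) (by
      rw [E6b_evn hk i j hij, E6b_evn hk i j hij, he]
      tauto)]

private theorem E6b_KH_eq (K : Λ → S → S → ℝ) (w : Site d k → Fin d → Λ) (i j : Fin d)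
    (x y : ZMod (2 ^ k)) : KH K w i j x y = E6b_L K w i j x y (x + 1) y i := rfl

private theorem E6b_KV_eq (K : Λ → S → S → ℝ) (w : Site d k → Fin d → Λ) (i j : Fin d)
    (x y : ZMod (2 ^ k)) : KV K w i j x y = E6b_L K w i j x y x (y + 1) j := rfl

private theorem E6b_main (hk : 1 ≤ k) (K : Λ → S → S → ℝ) (hK : ∀ l a b, 0 ≤ K l a b)
    (w : Site d k → Fin d → Λ) (i j : Fin d) (hij : i ≠ j) (x y x1 y1 : ZMod (2 ^ k)) (s : Fin d)
    (h1 : ∀ u : Site d k, stt i j x y u + sv (s, true) = stt i j x1 y1 u) :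
    Zh k (E6b_L K w i j x y x1 y1 s) = Zw K (pf i j (stt i j x y 0) (s, true) w) := by
  rw [Zw_fib K hK _ i j hij]
  by_cases hxy : Even (x.val + y.val)
  · have hH : KH K (pf i j (stt i j x y 0) (s, true) w) i j = ori k (E6b_L K w i j x y x1 y1 s) := by
      funext x' y'
      rw [E6b_KH_eq]
      unfold ori
      by_cases he : Even (x'.val + y'.val)
      · rw [if_pos he]
        exact E6b_edge_same hk K w i j hij x y x1 y1 x' y' (x' + 1) y' s i (Or.inl rfl) h1
          (E6b_par_i hk i j hij x' y') (by tauto)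
      · rw [if_neg he]
        exact E6b_edge_opp hk K w i j hij x y x1 y1 x' y' (x' + 1) y' s i (Or.inl rfl) h1
          (E6b_par_i hk i j hij x' y') (by tauto)
    have hV : KV K (pf i j (stt i j x y 0) (s, true) w) i j = ori k (E6b_L K w i j x y x1 y1 s) := by
      funext x' y'
      rw [E6b_KV_eq]
      unfold ori
      by_cases he : Even (x'.val + y'.val)
      · rw [if_pos he]
        exact E6b_edge_same hk K w i j hij x y x1 y1 x' y' x' (y' + 1) s j (Or.inr rfl) h1
          (E6b_par_j hk i j hij x' y') (by tauto)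
      · rw [if_neg he]
        exact E6b_edge_opp hk K w i j hij x y x1 y1 x' y' x' (y' + 1) s j (Or.inr rfl) h1
          (E6b_par_j hk i j hij x' y') (by tauto)
    rw [hH, hV]
    rfl
  · have hH : KH K (pf i j (stt i j x y 0) (s, true) w) i j =
        ori k (fun a b => E6b_L K w i j x y x1 y1 s b a) := by
      funext x' y'
      rw [E6b_KH_eq]
      unfold ori
      by_cases he : Even (x'.val + y'.val)
      · rw [if_pos he]
        exact E6b_edge_opp hk K w i j hij x y x1 y1 x' y' (x' + 1) y' s i (Or.inl rfl) h1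
          (E6b_par_i hk i j hij x' y') (by tauto)
      · rw [if_neg he]
        exact E6b_edge_same hk K w i j hij x y x1 y1 x' y' (x' + 1) y' s i (Or.inl rfl) h1
          (E6b_par_i hk i j hij x' y') (by tauto)
    have hV : KV K (pf i j (stt i j x y 0) (s, true) w) i j =
        ori k (fun a b => E6b_L K w i j x y x1 y1 s b a) := by
      funext x' y'
      rw [E6b_KV_eq]
      unfold ori
      by_cases he : Even (x'.val + y'.val)
      · rw [if_pos he]
        exact E6b_edge_opp hk K w i j hij x y x1 y1 x' y' x' (y' + 1) s j (Or.inr rfl) h1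
          (E6b_par_j hk i j hij x' y') (by tauto)
      · rw [if_neg he]
        exact E6b_edge_same hk K w i j hij x y x1 y1 x' y' x' (y' + 1) s j (Or.inr rfl) h1
          (E6b_par_j hk i j hij x' y') (by tauto)
    rw [hH, hV]
    exact (Zh_tr k hk (E6b_L K w i j x y x1 y1 s)).symm

theorem Zh_KH (hk : 1 ≤ k) (K : Λ → S → S → ℝ) (hK : ∀ l a b, 0 ≤ K l a b) (w : Site d k → Fin d → Λ)
    (i j : Fin d) (hij : i ≠ j) (x y : ZMod (2 ^ k)) :
    Zh k (KH K w i j x y) = Zw K (pf i j (stt i j x y 0) (i, true) w) := by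
  rw [E6b_KH_eq]
  exact E6b_main hk K hK w i j hij x y (x + 1) y i (E6b_step_i i j hij x y)

theorem Zh_KV (hk : 1 ≤ k) (K : Λ → S → S → ℝ) (hK : ∀ l a b, 0 ≤ K l a b) (w : Site d k → Fin d → Λ)
    (i j : Fin d) (hij : i ≠ j) (x y : ZMod (2 ^ k)) :
    Zh k (KV K w i j x y) = Zw K (pf i j (stt i j x y 0) (j, true) w) := by
  rw [E6b_KV_eq]
  exact E6b_main hk K hK w i j hij x y x (y + 1) j (E6b_step_j i j hij x y)

end Pool.Agent.LIN
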