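import Pool.Agent.Lib_MP_2c424f_lin.E5
import Pool.Agent.Lib_MP_2c424f_lin.E6b

/-!
# H30 E6c: the folding inequality

`two_dim` with `Zw_fib`, `Zh_KH`, `Zh_KV`; `|Yf → S| = |S|^(card Yf)`, `m² card Yf = N`; logarithm (all `Zw > 0`: the
configuration `a0` on the even, `b0` on the odd sites).  `pf i j p σ w` depends on `p i`, `p j` only (sum over `p`
= `card Yf *` sum over `(x,y)`), and `pf i j p (i, false) w = pf i j (p + sv (i, false)) (i, true) w`.
`(1/(2m²)) ∑_{x,y} (log Zh KH + log Zh KV) = (1/(4N)) ∑_p ∑_{σ ∈ pl i j} log Zw (pf i j p σ w)`;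
error `(m/2) card Yf log |S| = N log|S| / (2m)`.
-/

set_option autoImplicit false

open Finset

namespace Pool.Agent.LIN

open Pool.Agent.LO

variable {d k : ℕ} {S Λ : Type*} [Fintype S]

theorem Zw_pos (K : Λ → S → S → ℝ) (hK : ∀ l a b, 0 ≤ K l a b) (a0 b0 : S) (hp : ∀ l, 0 < K l a0 b0)
    (hk : 1 ≤ k) (w : Site d k → Fin d → Λ) : 0 < Zw K w := by
  classical
  unfold Zw
  refine Finset.sum_pos' (fun f _ => prod_nonneg fun x _ => prod_nonneg fun i _ => hK _ _ _)
    ⟨fun x => if evn x then a0 else b0, mem_univ _, ?_⟩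
  refine prod_pos fun x _ => prod_pos fun i _ => ?_
  have hs := evn_step hk x (i, true)
  have e1 : eE (fun x : Site d k => if evn x then a0 else b0) x i = a0 := by
    unfold eE
    by_cases hx : evn x
    · simp [hx]
    · simp only [hx, if_false]
      rw [if_pos (hs.2 hx)]
  have e2 : eO (fun x : Site d k => if evn x then a0 else b0) x i = b0 := by
    unfold eO
    by_cases hx : evn x
    · simp only [hx, if_true]
      rw [if_neg (fun h => hs.1 h hx)]
    · simp [hx]
  rw [e1, e2]
  exact hp _

/-- only the coordinates `i j` of `p` matter -/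
private theorem E6c_pf_congr (w : Site d k → Fin d → Λ) (i j : Fin d) (p p' : Site d k) (σ : Stp d)
    (hi : p i = p' i) (hj : p j = p' j) : pf i j p σ w = pf i j p' σ w := by
  have hm : ∀ x : Site d k, mrg i j p x = mrg i j p' x := by
    intro x
    funext l
    unfold mrg
    by_cases h : l = i ∨ l = j
    · rw [if_pos h, if_pos h]
      rcases h with h | h
      · rw [h, hi]
      · rw [h, hj]
    · rw [if_neg h, if_neg h]
  funext x l
  unfold pf fol
  rw [hm, hi, hj]

private theorem E6c_mrg_add (i j l : Fin d) (hl : l = i ∨ l = j) (p x : Site d k) (b : Bool) :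
    mrg i j (p + sv (l, b)) x = mrg i j p x + sv (l, b) := by
  funext t
  rw [Pi.add_apply]
  unfold mrg
  by_cases h : t = i ∨ t = j
  · rw [if_pos h, if_pos h, Pi.add_apply]
  · rw [if_neg h, if_neg h]
    have ht : t ≠ l := by
      rintro rfl
      exact h hl
    simp only [sv]
    rw [Pi.single_eq_of_ne ht, add_zero]

private theorem E6c_val_par (hk : 1 ≤ k) (a : ZMod (2 ^ k)) : Even (a + -1).val ↔ ¬ Even a.val := by
  have h2 : (2 : ℕ) ∣ 2 ^ k := dvd_pow_self 2 (by omega : k ≠ 0)
  let φ : ZMod (2 ^ k) →+* ZMod 2 := ZMod.castHom h2 (ZMod 2)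
  have h : ∀ c : ZMod (2 ^ k), Even c.val ↔ φ c = 0 := by
    intro c
    rw [← ZMod.natCast_eq_zero_iff_even]
    have h := map_natCast φ c.val
    rw [ZMod.natCast_zmod_val] at h
    rw [h]
  rw [h, h, map_add, map_neg, map_one]
  generalize φ a = c
  revert c
  decide

private theorem E6c_pf_false (hk : 1 ≤ k) (w : Site d k → Fin d → Λ) (i j l : Fin d) (hij : i ≠ j)
    (hl : l = i ∨ l = j) (p : Site d k) :
    pf i j p (l, false) w = pf i j (p + sv (l, false)) (l, true) w := by
  funext x t
  unfold pf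
  by_cases h : t = i ∨ t = j
  · rw [if_pos h, if_pos h]
    unfold WL
    simp only [Bool.false_eq_true, if_false, if_true]
    rw [E6c_mrg_add i j l hl]
  · rw [if_neg h, if_neg h]
    have key : fol i j p (l, false) x = fol i j (p + sv (l, false)) (l, true) x := by
      unfold fol
      rw [E6c_mrg_add i j l hl]
      have hback : mrg i j p x + sv (l, false) + sv (l, true) = mrg i j p x := by
        have h0 : (sv (l, false) : Site d k) + sv (l, true) = 0 := sv_opp l false
        rw [add_assoc, h0, add_zero]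
      rw [hback]
      have hpar : Even ((x i).val + (x j).val + ((p + (sv (l, false) : Site d k)) i).val +
          ((p + (sv (l, false) : Site d k)) j).val) ↔
          ¬ Even ((x i).val + (x j).val + (p i).val + (p j).val) := by
        rcases hl with hl | hl
        · subst hl
          have e1 : (p + (sv (l, false) : Site d k)) l = p l + -1 := by
            rw [Pi.add_apply]
            simp [sv]
          have e2 : (p + (sv (l, false) : Site d k)) j = p j := by
            rw [Pi.add_apply]
            simp only [sv]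
            rw [Pi.single_eq_of_ne hij.symm, add_zero]
          rw [e1, e2]
          have := E6c_val_par hk (p l)
          simp only [Nat.even_add] at *
          tauto
        · subst hl
          have e1 : (p + (sv (l, false) : Site d k)) l = p l + -1 := by
            rw [Pi.add_apply]
            simp [sv]
          have e2 : (p + (sv (l, false) : Site d k)) i = p i := by
            rw [Pi.add_apply]
            simp only [sv]
            rw [Pi.single_eq_of_ne hij, add_zero]
          rw [e1, e2]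
          have := E6c_val_par hk (p l)
          simp only [Nat.even_add] at *
          tauto
      by_cases hp : Even ((x i).val + (x j).val + (p i).val + (p j).val)
      · rw [if_pos hp, if_neg (fun hh => hpar.1 hh hp)]
      · rw [if_neg hp, if_pos (hpar.2 hp)]
    rw [key]

/-- sums over the plane -/
private theorem E6c_sum (i j : Fin d) (hij : i ≠ j) (F : ZMod (2 ^ k) → ZMod (2 ^ k) → ℝ) :
    ((2 : ℝ) ^ k) ^ 2 * ∑ p : Site d k, F (p i) (p j) = NN d k * ∑ x, ∑ y, F x y := by
  have h1 : ∀ x y : ZMod (2 ^ k), ∑ p : Site d k, F (p i + x) (p j + y) = ∑ p : Site d k, F (p i) (p j) := by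
    intro x y
    have := Equiv.sum_comp (Equiv.addRight (Pi.single i x + Pi.single j y : Site d k))
      (fun p : Site d k => F (p i) (p j))
    rw [← this]
    refine sum_congr rfl fun p _ => ?_
    simp only [Equiv.coe_addRight, Pi.add_apply, Pi.single_eq_same]
    rw [Pi.single_eq_of_ne hij, Pi.single_eq_of_ne hij.symm, add_zero, zero_add]
  have h2 : ∀ p : Site d k, ∑ x, ∑ y, F (p i + x) (p j + y) = ∑ x, ∑ y, F x y := by
    intro p
    have e1 := Equiv.sum_comp (Equiv.addLeft (p i)) (fun x => ∑ y, F x (p j + y))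
    simp only [Equiv.coe_addLeft] at e1
    rw [e1]
    refine sum_congr rfl fun x _ => ?_
    have e2 := Equiv.sum_comp (Equiv.addLeft (p j)) (fun y => F x y)
    simpa only [Equiv.coe_addLeft] using e2
  have h3 : ∑ x : ZMod (2 ^ k), ∑ y : ZMod (2 ^ k), ∑ p : Site d k, F (p i + x) (p j + y) =
      ∑ p : Site d k, ∑ x, ∑ y, F (p i + x) (p j + y) := by
    have e1 : ∀ x : ZMod (2 ^ k), ∑ y : ZMod (2 ^ k), ∑ p : Site d k, F (p i + x) (p j + y) =
        ∑ p : Site d k, ∑ y : ZMod (2 ^ k), F (p i + x) (p j + y) := fun x => sum_comm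
    rw [sum_congr rfl fun x _ => e1 x]
    exact sum_comm
  simp_rw [h1, h2] at h3
  rw [sum_const, sum_const, sum_const, card_univ, card_univ, ZMod.card, nsmul_eq_mul, nsmul_eq_mul,
    nsmul_eq_mul, card_site] at h3
  push_cast at h3
  linarith

theorem pf_ineq (hk : 2 ≤ k) (K : Λ → S → S → ℝ) (hK : ∀ l a b, 0 ≤ K l a b) (a0 b0 : S)
    (hp : ∀ l, 0 < K l a0 b0) (w : Site d k → Fin d → Λ) (i j : Fin d) (hij : i ≠ j) :
    Real.log (Zw K w) ≤ (∑ p, ∑ σ ∈ pl i j, Real.log (Zw K (pf i j p σ w))) / (4 * NN d k) +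
      NN d k * Real.log (Fintype.card S) / (2 * 2 ^ k) := by
  classical
  have hk1 : 1 ≤ k := by omega
  have hpos : ∀ w : Site d k → Fin d → Λ, 0 < Zw K w := Zw_pos K hK a0 b0 hp hk1
  have hN : 0 < NN d k := by unfold NN; positivity
  have hm : (0 : ℝ) < 2 ^ k := by positivity
  have _ : Nonempty S := ⟨a0⟩
  -- nonnegativity of the fat kernels
  have hPh : ∀ x y a, 0 ≤ Ph K w i j x y a := by
    intro x y a
    unfold Ph
    refine prod_nonneg fun u _ => prod_nonneg fun l _ => ?_
    unfold KO
    split_ifs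
    · exact hK _ _ _
    · exact hK _ _ _
  have hKO : ∀ (l : Λ) (x : Site d k) (a b : S), 0 ≤ KO (K l) x a b := by
    intro l x a b
    unfold KO
    split_ifs
    · exact hK _ _ _
    · exact hK _ _ _
  have h1 : ∀ x y a b, 0 ≤ KH K w i j x y a b := by
    intro x y a b
    unfold KH
    exact mul_nonneg (mul_nonneg (Real.rpow_nonneg (hPh _ _ _) _) (Real.rpow_nonneg (hPh _ _ _) _))
      (prod_nonneg fun u _ => hKO _ _ _ _)
  have h2 : ∀ x y a b, 0 ≤ KV K w i j x y a b := by
    intro x y a b
    unfold KV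
    exact mul_nonneg (mul_nonneg (Real.rpow_nonneg (hPh _ _ _) _) (Real.rpow_nonneg (hPh _ _ _) _))
      (prod_nonneg fun u _ => hKO _ _ _ _)
  have h3 := two_dim k hk1 (KH K w i j) (KV K w i j) h1 h2
  rw [← Zw_fib K hK w i j hij] at h3
  simp_rw [Zh_KH hk1 K hK w i j hij, Zh_KV hk1 K hK w i j hij] at h3
  -- logarithms
  set A : ZMod (2 ^ k) → ZMod (2 ^ k) → ℝ := fun x y => Zw K (pf i j (stt i j x y 0) (i, true) w) with hA
  set B : ZMod (2 ^ k) → ZMod (2 ^ k) → ℝ := fun x y => Zw K (pf i j (stt i j x y 0) (j, true) w) with hB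
  have hApos : ∀ x y, 0 < A x y := fun x y => hpos _
  have hBpos : ∀ x y, 0 < B x y := fun x y => hpos _
  have hXpos : (0 : ℝ) < Fintype.card (Yf i j k → S) := by
    exact_mod_cast Fintype.card_pos
  have hprod : 0 < ∏ x, ∏ y, A x y * B x y :=
    prod_pos fun x _ => prod_pos fun y _ => mul_pos (hApos x y) (hBpos x y)
  have h4 := Real.log_le_log (pow_pos (hpos w) _) h3
  rw [Real.log_pow, Real.log_mul (pow_pos hXpos _).ne' hprod.ne', Real.log_pow] at h4
  have h5 : Real.log (∏ x, ∏ y, A x y * B x y) = ∑ x, ∑ y, (Real.log (A x y) + Real.log (B x y)) := by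
    rw [Real.log_prod (fun x _ => (prod_pos fun y _ => mul_pos (hApos x y) (hBpos x y)).ne')]
    refine sum_congr rfl fun x _ => ?_
    rw [Real.log_prod (fun y _ => (mul_pos (hApos x y) (hBpos x y)).ne')]
    refine sum_congr rfl fun y _ => ?_
    rw [Real.log_mul (hApos x y).ne' (hBpos x y).ne']
  have h6 : Real.log (Fintype.card (Yf i j k → S) : ℝ) =
      (Fintype.card (Yf i j k) : ℝ) * Real.log (Fintype.card S) := by
    rw [Fintype.card_fun]
    push_cast
    rw [Real.log_pow]
  have h7 := card_Yf (k := k) i j hij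
  rw [h5, h6] at h4
  push_cast at h4
  -- sum over `p`
  have h8 : ∑ p : Site d k, ∑ σ ∈ pl i j, Real.log (Zw K (pf i j p σ w)) =
      2 * ∑ p : Site d k, (Real.log (A (p i) (p j)) + Real.log (B (p i) (p j))) := by
    have e0 : pl i j = ({(i, true), (i, false), (j, true), (j, false)} : Finset (Stp d)) := by
      ext ⟨l, b⟩
      simp only [pl, mem_filter, mem_univ, true_and, mem_insert, mem_singleton, Prod.mk.injEq]
      cases b <;> simp
    have e1 : ∀ p : Site d k, ∑ σ ∈ pl i j, Real.log (Zw K (pf i j p σ w)) =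
        Real.log (Zw K (pf i j p (i, true) w)) + Real.log (Zw K (pf i j p (i, false) w)) +
        (Real.log (Zw K (pf i j p (j, true) w)) + Real.log (Zw K (pf i j p (j, false) w))) := by
      intro p
      rw [e0, sum_insert (by simp [hij]), sum_insert (by simp [hij]), sum_insert (by simp),
        sum_singleton]
      ring
    have e2 : ∀ l : Fin d, (l = i ∨ l = j) → ∑ p : Site d k, Real.log (Zw K (pf i j p (l, false) w)) =
        ∑ p : Site d k, Real.log (Zw K (pf i j p (l, true) w)) := by
      intro l hl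
      have := Equiv.sum_comp (Equiv.addRight (sv (l, false) : Site d k))
        (fun p : Site d k => Real.log (Zw K (pf i j p (l, true) w)))
      rw [← this]
      refine sum_congr rfl fun p _ => ?_
      rw [E6c_pf_false hk1 w i j l hij hl]
      rfl
    have e3 : ∀ (l : Fin d) (p : Site d k), Real.log (Zw K (pf i j p (l, true) w)) =
        Real.log (Zw K (pf i j (stt i j (p i) (p j) 0) (l, true) w)) := by
      intro l p
      rw [E6c_pf_congr w i j p (stt i j (p i) (p j) 0) (l, true)]
      · unfold stt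
        rw [Function.update_of_ne hij, Function.update_self]
      · unfold stt
        rw [Function.update_self]
    simp_rw [e1]
    rw [sum_add_distrib, sum_add_distrib, sum_add_distrib, e2 i (Or.inl rfl), e2 j (Or.inr rfl),
      sum_add_distrib]
    have f1 : ∑ p : Site d k, Real.log (Zw K (pf i j p (i, true) w)) =
        ∑ p : Site d k, Real.log (A (p i) (p j)) := sum_congr rfl fun p _ => e3 i p
    have f2 : ∑ p : Site d k, Real.log (Zw K (pf i j p (j, true) w)) =
        ∑ p : Site d k, Real.log (B (p i) (p j)) := sum_congr rfl fun p _ => e3 j p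
    rw [f1, f2]
    ring
  have h9 := E6c_sum (d := d) (k := k) i j hij (fun x y => Real.log (A x y) + Real.log (B x y))
  rw [h8]
  set T : ℝ := ∑ p : Site d k, (Real.log (A (p i) (p j)) + Real.log (B (p i) (p j))) with hT
  set U : ℝ := ∑ x, ∑ y, (Real.log (A x y) + Real.log (B x y)) with hU
  set Y : ℝ := (Fintype.card (Yf i j k) : ℝ) with hY
  set L : ℝ := Real.log (Fintype.card S) with hL
  have hUT : U = ((2 : ℝ) ^ k) ^ 2 * T / NN d k := by
    rw [eq_div_iff hN.ne']
    linarith
  have h10 : 2 * ((2 : ℝ) ^ k) ^ 2 * Real.log (Zw K w) ≤ ((2 : ℝ) ^ k) ^ 3 * (Y * L) + U := h4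
  have h11 : Real.log (Zw K w) ≤ (((2 : ℝ) ^ k) ^ 3 * (Y * L) + U) / (2 * ((2 : ℝ) ^ k) ^ 2) := by
    rw [le_div_iff₀ (by positivity)]
    linarith
  refine h11.trans (le_of_eq ?_)
  rw [hUT, ← h7]
  have hYpos : 0 < Y := by
    have : 0 < ((2 : ℝ) ^ k) ^ 2 * Y := by rw [h7]; exact hN
    exact (mul_pos_iff_of_pos_left (by positivity)).1 this
  field_simp
  ring

end Pool.Agent.LIN
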