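import Pool.Agent.Lib_MP_2c424f_lin.EDefs

/-!
# H30 E7: folding preserves means

For fixed `p`, `σ ∈ pl i j` and fixed fibre part, half of the plane positions of `x` have the parity of `p`
(`fol x = mrg p x`), for the other half `fol x = mrg p x + sv σ`.
* `fol_sum`: `∑_p ∑_{σ ∈ pl i j} ∑_x H (fol i j p σ x) = 4 N ∑_x H x`.
* `pf_mean`: directions `l ≠ i, j`: `fol_sum`; `l ∈ {i, j}`:
  `∑_p ∑_σ ∑_x h (WL w (mrg p x) σ) = N ∑_x ∑_{σ ∈ pl i j} h (WL w x σ) = 2 N ∑_x (h (w x i) + h (w x j))`.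
-/

set_option autoImplicit false

open Finset

namespace Pool.Agent.LIN

open Pool.Agent.LO

variable {d k : ℕ} {Λ : Type*}

theorem E7_even (hk : 1 ≤ k) (a : ZMod (2 ^ k)) : Even (a + 1).val ↔ ¬ Even a.val := by
  have h2 : (2 : ℕ) ∣ 2 ^ k := dvd_pow_self 2 (by omega)
  have hm : (a + 1).val = (a.val + 1) % 2 ^ k := by
    have : a + 1 = ((a.val + 1 : ℕ) : ZMod (2 ^ k)) := by
      push_cast
      rw [ZMod.natCast_zmod_val]
    rw [this, ZMod.val_natCast]
  have h3 : (a.val + 1) % 2 ^ k % 2 = (a.val + 1) % 2 := Nat.mod_mod_of_dvd _ h2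
  rw [hm, Nat.even_iff, Nat.even_iff]
  omega

theorem E7_pl_eq (i j : Fin d) (hij : i ≠ j) :
    pl i j = {(i, true), (i, false), (j, true), (j, false)} := by
  ext ⟨a, b⟩
  simp only [pl, mem_filter, mem_univ, true_and, mem_insert, mem_singleton, Prod.mk.injEq]
  cases b <;> simp

theorem E7_pl_sum (i j : Fin d) (hij : i ≠ j) (F : Stp d → ℝ) :
    ∑ σ ∈ pl i j, F σ = F (i, true) + F (i, false) + F (j, true) + F (j, false) := by
  rw [E7_pl_eq i j hij, Finset.sum_insert, Finset.sum_insert, Finset.sum_insert, Finset.sum_singleton]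
  · ring
  · simp
  · simp [hij]
  · simp [hij]

/-- exchange of the plane coordinates -/
def E7_mrgE (i j : Fin d) : (Site d k × Site d k) ≃ (Site d k × Site d k) where
  toFun z := (mrg i j z.1 z.2, mrg i j z.2 z.1)
  invFun z := (mrg i j z.1 z.2, mrg i j z.2 z.1)
  left_inv z := by
    refine Prod.ext ?_ ?_ <;> funext l <;> simp only [mrg] <;> split_ifs <;> rfl
  right_inv z := by
    refine Prod.ext ?_ ?_ <;> funext l <;> simp only [mrg] <;> split_ifs <;> rfl

theorem E7_mrg_pair (i j : Fin d) (F : Site d k → Site d k → ℝ) :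
    ∑ p, ∑ x, F (mrg i j p x) (mrg i j x p) = ∑ p, ∑ x, F p x := by
  rw [← Fintype.sum_prod_type', ← Fintype.sum_prod_type']
  exact Fintype.sum_equiv (E7_mrgE i j) _ _ (fun z => rfl)

/-- half of the sites have a given parity in the plane -/
theorem E7_half (hk : 1 ≤ k) (i j : Fin d) (hij : i ≠ j) (n : ℕ) (A B : ℝ) :
    ∑ v : Site d k, (open scoped Classical in if Even ((v i).val + (v j).val + n) then A else B) =
      NN d k / 2 * (A + B) := by
  classical
  have h1 : ∑ v : Site d k, (if Even ((v i).val + (v j).val + n) then A else B) =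
      ∑ v : Site d k, (if Even ((v i).val + (v j).val + n) then B else A) := by
    rw [← Equiv.sum_comp (Equiv.addRight (sv (i, true) : Site d k))]
    refine Finset.sum_congr rfl fun v _ => ?_
    have e1 : (Equiv.addRight (sv (i, true) : Site d k) v) i = v i + 1 := by
      simp [sv]
    have e2 : (Equiv.addRight (sv (i, true) : Site d k) v) j = v j := by
      simp [sv, Pi.single_apply, hij.symm]
    rw [e1, e2]
    have h := E7_even hk (v i)
    by_cases hc : Even ((v i).val + (v j).val + n)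
    · rw [if_pos hc, if_neg]
      rw [add_assoc, Nat.even_add] at hc ⊢
      tauto
    · rw [if_neg hc, if_pos]
      rw [add_assoc, Nat.even_add] at hc ⊢
      tauto
  have h2 : ∑ v : Site d k, (if Even ((v i).val + (v j).val + n) then A else B) +
      ∑ v : Site d k, (if Even ((v i).val + (v j).val + n) then B else A) = NN d k * (A + B) := by
    rw [← Finset.sum_add_distrib, ← card_site, ← nsmul_eq_mul, ← Finset.card_univ, ← Finset.sum_const]
    refine Finset.sum_congr rfl fun v _ => ?_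
    split_ifs
    · rfl
    · exact add_comm _ _
  have h3 : ∑ v : Site d k, (if Even ((v i).val + (v j).val + n) then A else B) =
      NN d k / 2 * (A + B) := by linarith
  rw [← h3]

theorem E7_transl (a : Site d k) (H : Site d k → ℝ) : ∑ x, H (x + a) = ∑ x, H x :=
  Equiv.sum_comp (Equiv.addRight a) H

theorem E7_fol1 (hk : 1 ≤ k) (i j : Fin d) (hij : i ≠ j) (σ : Stp d) (H : Site d k → ℝ) :
    ∑ p, ∑ x, H (fol i j p σ x) = NN d k * ∑ x, H x := by
  classical
  obtain ⟨F, hF⟩ : ∃ F : Site d k → Site d k → ℝ, ∀ u v, F u v =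
      if Even ((v i).val + (v j).val + ((u i).val + (u j).val)) then H u else H (u + sv σ) :=
    ⟨_, fun _ _ => rfl⟩
  have h1 : ∀ p x, H (fol i j p σ x) = F (mrg i j p x) (mrg i j x p) := by
    intro p x
    have e1 : mrg i j x p i = x i := by simp [mrg]
    have e2 : mrg i j x p j = x j := by simp [mrg]
    have e3 : mrg i j p x i = p i := by simp [mrg]
    have e4 : mrg i j p x j = p j := by simp [mrg]
    rw [hF, e1, e2, e3, e4]
    unfold fol
    rw [← add_assoc]
    split_ifs <;> rfl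
  have h2 : ∀ u : Site d k, ∑ v : Site d k, F u v = NN d k / 2 * (H u + H (u + sv σ)) := by
    intro u
    have := E7_half hk i j hij ((u i).val + (u j).val) (H u) (H (u + sv σ))
    rw [← this]
    refine Finset.sum_congr rfl fun v _ => ?_
    rw [hF]
  have h3 : ∑ p, ∑ x, H (fol i j p σ x) = ∑ p, ∑ x, F (mrg i j p x) (mrg i j x p) :=
    Finset.sum_congr rfl fun p _ => Finset.sum_congr rfl fun x _ => h1 p x
  rw [h3, E7_mrg_pair i j F, Finset.sum_congr rfl fun u _ => h2 u, ← Finset.mul_sum,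
    Finset.sum_add_distrib, E7_transl]
  ring

theorem fol_sum (hk : 1 ≤ k) (i j : Fin d) (hij : i ≠ j) (H : Site d k → ℝ) :
    ∑ p, ∑ σ ∈ pl i j, ∑ x, H (fol i j p σ x) = 4 * NN d k * ∑ x, H x := by
  rw [Finset.sum_comm, Finset.sum_congr rfl fun σ _ => E7_fol1 hk i j hij σ H, E7_pl_sum i j hij]
  ring

theorem mrg_sum (i j : Fin d) (hij : i ≠ j) (H : Site d k → ℝ) :
    ∑ p, ∑ x, H (mrg i j p x) = NN d k * ∑ x, H x := by
  have h := E7_mrg_pair i j (fun u _ => H u) (k := k)
  rw [h]
  simp only [Finset.sum_const, Finset.card_univ, nsmul_eq_mul]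
  rw [card_site, ← Finset.mul_sum]

/-- labels in the plane at all the sites -/
theorem E7_WL (w : Site d k → Fin d → Λ) (h : Λ → ℝ) (σ : Stp d) :
    ∑ x, h (WL w x σ) = ∑ x, h (w x σ.1) := by
  obtain ⟨l, b⟩ := σ
  cases b
  · simp only [WL, Bool.false_eq_true, if_false]
    exact E7_transl (sv (l, false)) (fun x => h (w x l))
  · simp only [WL, if_true]

theorem pf_mean (hk : 1 ≤ k) (i j : Fin d) (hij : i ≠ j) (w : Site d k → Fin d → Λ) (h : Λ → ℝ) :
    ∑ p, ∑ σ ∈ pl i j, ∑ x, ∑ l, h (pf i j p σ w x l) = 4 * NN d k * ∑ x, ∑ l, h (w x l) := by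
  classical
  have key : ∀ l : Fin d, ∑ p, ∑ σ ∈ pl i j, ∑ x, h (pf i j p σ w x l) =
      if l = i ∨ l = j then NN d k * (2 * (∑ x, h (w x i) + ∑ x, h (w x j))) else
        4 * NN d k * ∑ x, h (w x l) := by
    intro l
    by_cases hl : l = i ∨ l = j
    · rw [if_pos hl]
      simp only [pf, if_pos hl]
      rw [Finset.sum_comm]
      rw [Finset.sum_congr rfl fun σ _ => mrg_sum i j hij (fun y => h (WL w y σ))]
      rw [E7_pl_sum i j hij]
      simp only [E7_WL]
      ring
    · rw [if_neg hl]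
      simp only [pf, if_neg hl]
      exact fol_sum hk i j hij (fun x => h (w x l))
  have hsw : ∑ p, ∑ σ ∈ pl i j, ∑ x, ∑ l, h (pf i j p σ w x l) =
      ∑ l, ∑ p, ∑ σ ∈ pl i j, ∑ x, h (pf i j p σ w x l) := by
    rw [Finset.sum_comm (s := (univ : Finset (Fin d)))]
    refine Finset.sum_congr rfl fun p _ => ?_
    rw [Finset.sum_comm (s := (univ : Finset (Fin d)))]
    refine Finset.sum_congr rfl fun σ _ => ?_
    rw [Finset.sum_comm]
  rw [hsw, Finset.sum_congr rfl fun l _ => key l]
  have hr : ∑ x, ∑ l, h (w x l) = ∑ l, ∑ x, h (w x l) := Finset.sum_comm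
  rw [hr, Finset.mul_sum]
  -- compare the two sums over the directions
  have hdec : ∀ G : Fin d → ℝ, ∑ l, G l = G i + G j + ∑ l ∈ (univ.erase i).erase j, G l := by
    intro G
    rw [← Finset.add_sum_erase univ G (mem_univ i),
      ← Finset.add_sum_erase (univ.erase i) G (mem_erase.mpr ⟨hij.symm, mem_univ j⟩), add_assoc]
  rw [hdec, hdec]
  have hrest : ∀ l ∈ (univ.erase i).erase j, (if l = i ∨ l = j then
      NN d k * (2 * (∑ x, h (w x i) + ∑ x, h (w x j))) else 4 * NN d k * ∑ x, h (w x l)) =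
        4 * NN d k * ∑ x, h (w x l) := by
    intro l hl
    rw [mem_erase, mem_erase] at hl
    rw [if_neg]
    rintro (h1 | h1)
    · exact hl.2.1 h1
    · exact hl.1 h1
  rw [Finset.sum_congr rfl hrest, if_pos (Or.inl rfl), if_pos (Or.inr rfl)]
  ring

end Pool.Agent.LIN
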