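import Pool.Agent.Lib_MP_2c424f_lin.EDefs

/-!
# H30 E7c: periodic labellings

* `pf_per`: `fol`, `mrg` only see the parity of `x i + x j` and the fibre coordinates.
* `dis_zero`: all edges at a site have the same label, the torus is connected.
* `dis_gap`: if `WL w x σ ≠ WL w x τ`, take `i = σ.1`, `j = τ.1` (any `j ≠ i` if they are equal); the same
  discrepancy occurs at the `N/2^d` sites `x + 2y`.
-/

set_option autoImplicit false

open Finset

namespace Pool.Agent.LIN

open Pool.Agent.LO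

variable {d k : ℕ} {Λ : Type*}

private theorem e7c_par (hk : 1 ≤ k) (a : ZMod (2 ^ k)) : Even ((a + 1 + 1).val) ↔ Even a.val := by
  obtain ⟨m, rfl⟩ : ∃ m, k = m + 1 := ⟨k - 1, by omega⟩
  have h0 : ((a.val : ℕ) : ZMod (2 ^ (m + 1))) = a := ZMod.natCast_zmod_val a
  have h : a + 1 + 1 = ((a.val + 2 : ℕ) : ZMod (2 ^ (m + 1))) := by
    push_cast
    rw [h0]
    ring
  rw [h, ZMod.val_natCast, Nat.even_iff, Nat.mod_mod_of_dvd _ (dvd_pow_self 2 (Nat.succ_ne_zero m)),
    Nat.even_iff]
  omega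

private theorem e7c_sv_self (j : Fin d) : (sv (j, true) : Site d k) j = 1 := by
  unfold sv
  simp

private theorem e7c_sv_ne {i j : Fin d} (h : i ≠ j) : (sv (j, true) : Site d k) i = 0 := by
  unfold sv
  simp [Pi.single_eq_of_ne h]

/-- parity of the coordinates after a double step -/
private theorem e7c_par2 (hk : 1 ≤ k) (x : Site d k) (i j : Fin d) :
    Even (((x + sv (j, true) + sv (j, true) : Site d k) i).val) ↔ Even ((x i).val) := by
  simp only [Pi.add_apply]
  by_cases h : i = j
  · subst h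
    rw [e7c_sv_self]
    exact e7c_par hk _
  · rw [e7c_sv_ne h, add_zero, add_zero]

private theorem e7c_mrg_in {i j j' : Fin d} (p x : Site d k) (h : j' = i ∨ j' = j) :
    mrg i j p (x + sv (j', true) + sv (j', true)) = mrg i j p x := by
  funext l
  unfold mrg
  split_ifs with hl
  · rfl
  · have : l ≠ j' := by
      rintro rfl
      exact hl h
    simp only [Pi.add_apply]
    rw [e7c_sv_ne this, add_zero, add_zero]

private theorem e7c_mrg_out {i j j' : Fin d} (p x : Site d k) (h : ¬ (j' = i ∨ j' = j)) :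
    mrg i j p (x + sv (j', true) + sv (j', true)) = mrg i j p x + sv (j', true) + sv (j', true) := by
  funext l
  simp only [Pi.add_apply]
  unfold mrg
  split_ifs with hl
  · have : l ≠ j' := by
      rintro rfl
      exact h hl
    rw [e7c_sv_ne this, add_zero, add_zero]
  · rfl

private theorem e7c_evn4 (hk : 1 ≤ k) (x : Site d k) (i j j' : Fin d) (m : ℕ) :
    Even (((x + sv (j', true) + sv (j', true) : Site d k) i).val +
        ((x + sv (j', true) + sv (j', true) : Site d k) j).val + m) ↔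
      Even ((x i).val + (x j).val + m) := by
  rw [Nat.even_add, Nat.even_add, Nat.even_add, Nat.even_add, e7c_par2 hk, e7c_par2 hk]

private theorem e7c_fol_in (hk : 1 ≤ k) {i j j' : Fin d} (p : Site d k) (σ : Stp d) (x : Site d k)
    (h : j' = i ∨ j' = j) : fol i j p σ (x + sv (j', true) + sv (j', true)) = fol i j p σ x := by
  classical
  unfold fol
  have h1 := e7c_evn4 hk x i j j' ((p i).val + (p j).val)
  rw [← add_assoc, ← add_assoc] at h1
  rw [e7c_mrg_in p x h]
  by_cases h2 : Even ((x i).val + (x j).val + (p i).val + (p j).val)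
  · rw [if_pos h2, if_pos (h1.2 h2)]
  · rw [if_neg h2, if_neg (fun h3 => h2 (h1.1 h3))]

private theorem e7c_fol_out (hk : 1 ≤ k) {i j j' : Fin d} (p : Site d k) (σ : Stp d) (x : Site d k)
    (h : ¬ (j' = i ∨ j' = j)) : fol i j p σ (x + sv (j', true) + sv (j', true)) =
      fol i j p σ x + sv (j', true) + sv (j', true) := by
  classical
  unfold fol
  have h1 := e7c_evn4 hk x i j j' ((p i).val + (p j).val)
  rw [← add_assoc, ← add_assoc] at h1
  rw [e7c_mrg_out p x h]
  by_cases h2 : Even ((x i).val + (x j).val + (p i).val + (p j).val)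
  · rw [if_pos h2, if_pos (h1.2 h2)]
  · rw [if_neg h2, if_neg (fun h3 => h2 (h1.1 h3))]
    abel

private theorem e7c_WL {w : Site d k → Fin d → Λ} {t : Site d k} (h : ∀ x l, w (x + t) l = w x l)
    (x : Site d k) (σ : Stp d) : WL w (x + t) σ = WL w x σ := by
  unfold WL
  rw [h, add_right_comm, h]

/-- the periods of `w` -/
private def e7cP (w : Site d k → Fin d → Λ) : AddSubmonoid (Site d k) where
  carrier := {t | ∀ x l, w (x + t) l = w x l}
  zero_mem' := by
    intro x l
    rw [add_zero]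
  add_mem' := by
    intro a b ha hb x l
    rw [← add_assoc, hb, ha]

private theorem e7c_ind (p : Prop) [Decidable p] : (0 : ℝ) ≤ if p then (0 : ℝ) else 1 := by
  split_ifs <;> norm_num

theorem pf_per (hk : 1 ≤ k) (i j : Fin d) (hij : i ≠ j) (p : Site d k) (σ : Stp d)
    (w : Site d k → Fin d → Λ) (I : Finset (Fin d)) (h : perD I w) :
    perD (I ∪ {i, j}) (pf i j p σ w) := by
  classical
  intro j' hj' x l
  by_cases hc : j' = i ∨ j' = j
  · unfold pf
    rw [e7c_mrg_in p x hc, e7c_fol_in hk p σ x hc]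
  · have hI : j' ∈ I := by
      rcases Finset.mem_union.1 hj' with h1 | h1
      · exact h1
      · exfalso
        apply hc
        simpa using h1
    have hper : ∀ y m, w (y + (sv (j', true) + sv (j', true))) m = w y m := by
      intro y m
      rw [← add_assoc]
      exact h j' hI y m
    unfold pf
    rw [e7c_mrg_out p x hc, e7c_fol_out hk p σ x hc]
    split_ifs with hl
    · rw [add_assoc]
      exact e7c_WL hper _ _
    · exact h j' hI _ _

theorem dis_nonneg (w : Site d k → Fin d → Λ) : 0 ≤ dis w := by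
  classical
  unfold dis
  exact sum_nonneg fun x _ => sum_nonneg fun σ _ => sum_nonneg fun τ _ => e7c_ind _

theorem dis_le (w : Site d k → Fin d → Λ) : dis w ≤ 4 * (d : ℝ) ^ 2 * NN d k := by
  classical
  unfold dis
  have h1 : ∀ x : Site d k, ∑ σ : Stp d, ∑ τ : Stp d, (if WL w x σ = WL w x τ then (0 : ℝ) else 1) ≤
      4 * (d : ℝ) ^ 2 := by
    intro x
    have h2 : ∑ σ : Stp d, ∑ τ : Stp d, (if WL w x σ = WL w x τ then (0 : ℝ) else 1) ≤
        ∑ _σ : Stp d, ∑ _τ : Stp d, (1 : ℝ) := by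
      refine sum_le_sum fun σ _ => sum_le_sum fun τ _ => ?_
      split_ifs <;> norm_num
    refine h2.trans (le_of_eq ?_)
    simp only [Finset.sum_const, nsmul_eq_mul, mul_one, Finset.card_univ, Fintype.card_prod,
      Fintype.card_fin, Fintype.card_bool]
    push_cast
    ring
  refine (sum_le_sum fun x _ => h1 x).trans (le_of_eq ?_)
  rw [Finset.sum_const, nsmul_eq_mul, Finset.card_univ, Fintype.card_fun, ZMod.card, Fintype.card_fin]
  unfold NN
  push_cast
  ring

theorem dis_zero (hd : 1 ≤ d) (w : Site d k → Fin d → Λ) (h : dis w = 0) (x y : Site d k) (l l' : Fin d) :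
    w x l = w y l' := by
  classical
  have key : ∀ x σ τ, WL w x σ = WL w x τ := by
    intro x σ τ
    by_contra hne
    unfold dis at h
    have n3 : ∀ x : Site d k, ∀ σ : Stp d, 0 ≤ ∑ τ : Stp d, (if WL w x σ = WL w x τ then (0 : ℝ) else 1) :=
      fun x σ => sum_nonneg fun τ _ => e7c_ind _
    have n2 : ∀ x : Site d k, 0 ≤ ∑ σ : Stp d, ∑ τ : Stp d,
        (if WL w x σ = WL w x τ then (0 : ℝ) else 1) := fun x => sum_nonneg fun σ _ => n3 x σ
    have g1 := (Finset.sum_eq_zero_iff_of_nonneg fun x _ => n2 x).1 h x (mem_univ _)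
    have g2 := (Finset.sum_eq_zero_iff_of_nonneg fun σ _ => n3 x σ).1 g1 σ (mem_univ _)
    have g3 := (Finset.sum_eq_zero_iff_of_nonneg fun τ _ => e7c_ind _).1 g2 τ (mem_univ _)
    rw [if_neg hne] at g3
    exact one_ne_zero g3
  set z : Fin d := ⟨0, hd⟩ with hz
  have k1 : ∀ x l, w x l = w x z := by
    intro x l
    have := key x (l, true) (z, true)
    simpa [WL] using this
  have k2 : ∀ x l, w (x + sv (l, false)) z = w x z := by
    intro x l
    have h1 := key x (l, false) (z, true)
    simp only [WL, if_true, Bool.false_eq_true, if_false] at h1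
    rw [← h1, k1 _ l]
  have k3 : ∀ x l, w (x + sv (l, true)) z = w x z := by
    intro x l
    have h1 := k2 (x + sv (l, true)) l
    have h2 : x + sv (l, true) + sv (l, false) = x := by
      have : (sv (l, true) : Site d k) + sv (l, false) = 0 := by
        unfold sv
        rw [← Pi.single_add]
        simp
      rw [add_assoc, this, add_zero]
    rw [h2] at h1
    exact h1.symm
  have k4 : ∀ t : Site d k, ∀ x m, w (x + t) m = w x m := by
    intro t
    have hmem : t ∈ e7cP w := by
      have hrep : t = ∑ l, (t l).val • (sv (l, true) : Site d k) := by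
        funext i
        rw [Finset.sum_apply, Finset.sum_eq_single i]
        · rw [Pi.smul_apply, e7c_sv_self, nsmul_eq_mul, mul_one, ZMod.natCast_zmod_val]
        · intro b _ hb
          rw [Pi.smul_apply, e7c_sv_ne hb.symm, smul_zero]
        · intro hi
          exact absurd (mem_univ _) hi
      rw [hrep]
      refine AddSubmonoid.sum_mem _ fun l _ => AddSubmonoid.nsmul_mem _ ?_ _
      intro x m
      rw [k1 _ m, k1 x m, k3]
    exact hmem
  have k5 := k4 (y - x) x z
  rw [add_sub_cancel] at k5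
  rw [k1 x l, k1 y l', k5]

theorem dis_gap (hd : 2 ≤ d) (hk : 1 ≤ k) (w : Site d k → Fin d → Λ) (hp : perD univ w) (h : dis w ≠ 0) :
    ∃ i j : Fin d, i ≠ j ∧ NN d k / 2 ^ d ≤ dis2 i j w := by
  classical
  obtain ⟨m, rfl⟩ : ∃ m, k = m + 1 := ⟨k - 1, by omega⟩
  -- a discrepancy
  have hex : ∃ x σ τ, WL w x σ ≠ WL w x τ := by
    by_contra hcon
    push Not at hcon
    apply h
    unfold dis
    refine Finset.sum_eq_zero fun x _ => Finset.sum_eq_zero fun σ _ => Finset.sum_eq_zero fun τ _ => ?_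
    rw [if_pos (hcon x σ τ)]
  obtain ⟨x, σ, τ, hne⟩ := hex
  have hj : ∃ j : Fin d, σ.1 ≠ j ∧ (τ.1 = σ.1 ∨ τ.1 = j) := by
    by_cases he : τ.1 = σ.1
    · by_cases h0 : σ.1 = ⟨0, by omega⟩
      · refine ⟨⟨1, by omega⟩, ?_, Or.inl he⟩
        rw [h0]
        intro hc
        simp at hc
      · exact ⟨⟨0, by omega⟩, h0, Or.inl he⟩
    · exact ⟨τ.1, fun hc => he hc.symm, Or.inr rfl⟩
  obtain ⟨j, hij, hτ⟩ := hj
  refine ⟨σ.1, j, hij, ?_⟩
  have hσpl : σ ∈ pl σ.1 j := by
    unfold pl
    simp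
  have hτpl : τ ∈ pl σ.1 j := by
    unfold pl
    simp [hτ]
  -- the sites
  set zt : (Fin d → Fin (2 ^ m)) → Site d (m + 1) :=
    fun u => ∑ l, (u l).val • ((sv (l, true) : Site d (m + 1)) + sv (l, true)) with hzt
  have hzi : ∀ u i, zt u i = ((2 * (u i).val : ℕ) : ZMod (2 ^ (m + 1))) := by
    intro u i
    rw [hzt]
    simp only
    rw [Finset.sum_apply, Finset.sum_eq_single i]
    · rw [Pi.smul_apply, Pi.add_apply, e7c_sv_self, nsmul_eq_mul]
      push_cast
      ring
    · intro b _ hb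
      rw [Pi.smul_apply, Pi.add_apply, e7c_sv_ne hb.symm, add_zero, smul_zero]
    · intro hi
      exact absurd (mem_univ _) hi
  have hper : ∀ u, ∀ y l, w (y + zt u) l = w y l := by
    intro u
    have hmem : zt u ∈ e7cP w := by
      rw [hzt]
      refine AddSubmonoid.sum_mem _ fun l _ => AddSubmonoid.nsmul_mem _ ?_ _
      intro y r
      rw [← add_assoc]
      exact hp l (mem_univ _) y r
    exact hmem
  have hinj : Function.Injective (fun u => x + zt u) := by
    intro u u' huu
    funext i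
    have h1 : zt u = zt u' := add_left_cancel huu
    have h2 := congrFun h1 i
    rw [hzi, hzi, ZMod.natCast_eq_natCast_iff'] at h2
    have b1 := (u i).isLt
    have b2 := (u' i).isLt
    have hp2 : 2 ^ (m + 1) = 2 * 2 ^ m := by ring
    rw [Nat.mod_eq_of_lt (by omega), Nat.mod_eq_of_lt (by omega)] at h2
    exact Fin.ext (by omega)
  set Z : Finset (Site d (m + 1)) := univ.image (fun u => x + zt u) with hZ
  have hcard : (Z.card : ℝ) = NN d (m + 1) / 2 ^ d := by
    rw [hZ, Finset.card_image_of_injective _ hinj, Finset.card_univ, Fintype.card_fun,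
      Fintype.card_fin, Fintype.card_fin]
    unfold NN
    rw [pow_succ (2 : ℝ) m, mul_pow]
    push_cast
    field_simp
  have hn3 : ∀ y : Site d (m + 1), ∀ σ' : Stp d,
      0 ≤ ∑ τ' ∈ pl σ.1 j, (if WL w y σ' = WL w y τ' then (0 : ℝ) else 1) :=
    fun y σ' => sum_nonneg fun τ' _ => e7c_ind _
  have hn2 : ∀ y : Site d (m + 1), 0 ≤ ∑ σ' ∈ pl σ.1 j, ∑ τ' ∈ pl σ.1 j,
      (if WL w y σ' = WL w y τ' then (0 : ℝ) else 1) := fun y => sum_nonneg fun σ' _ => hn3 y σ'
  have hone : ∀ y ∈ Z, (1 : ℝ) ≤ ∑ σ' ∈ pl σ.1 j, ∑ τ' ∈ pl σ.1 j,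
      (if WL w y σ' = WL w y τ' then (0 : ℝ) else 1) := by
    intro y hy
    rw [hZ, Finset.mem_image] at hy
    obtain ⟨u, _, rfl⟩ := hy
    have hd1 : WL w (x + zt u) σ ≠ WL w (x + zt u) τ := by
      rw [e7c_WL (hper u), e7c_WL (hper u)]
      exact hne
    have g1 := Finset.single_le_sum (f := fun σ' => ∑ τ' ∈ pl σ.1 j,
      (if WL w (x + zt u) σ' = WL w (x + zt u) τ' then (0 : ℝ) else 1))
      (fun σ' _ => hn3 (x + zt u) σ') hσpl
    have g2 := Finset.single_le_sum (f := fun τ' =>
      (if WL w (x + zt u) σ = WL w (x + zt u) τ' then (0 : ℝ) else 1))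
      (fun τ' _ => e7c_ind _) hτpl
    rw [if_neg hd1] at g2
    exact g2.trans g1
  rw [← hcard]
  unfold dis2
  calc (Z.card : ℝ) = ∑ _y ∈ Z, (1 : ℝ) := by rw [Finset.sum_const, nsmul_eq_mul, mul_one]
    _ ≤ ∑ y ∈ Z, ∑ σ' ∈ pl σ.1 j, ∑ τ' ∈ pl σ.1 j,
        (if WL w y σ' = WL w y τ' then (0 : ℝ) else 1) := Finset.sum_le_sum hone
    _ ≤ _ := Finset.sum_le_sum_of_subset_of_nonneg (Finset.subset_univ _) fun y _ _ => hn2 y

end Pool.Agent.LIN
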