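import Pool.Agent.Lib_MP_2c424f_lin.E6c
import Pool.Agent.Lib_MP_2c424f_lin.E7b
import Pool.Agent.Lib_MP_2c424f_lin.E7c
import Pool.Agent.Lib_MP_2c424f_lin.E8

/-!
# H30 E9: the edge chessboard inequality

`F w = log Zw K w - (∑_x ∑_l log Zw K (const (w x l))) / (d N)`, `ε' = N log|S| / (2·2^k)`.
`pf_ineq` and `pf_mean`: `F w ≤ (1/4N) ∑_p ∑_{σ ∈ pl i j} F (pf i j p σ w) + ε'`.
(1) periodisation: if `F ≤ C` on `perD (insert j I)` then `F ≤ C + ε'` on `perD I` (`pf_per`, any `i ≠ j`); so it is enough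
    to treat `perD univ` (cost `d ε'`).
(2) `potential` with `P = perD univ`, `D = dis`, `g = N/2^d`, index type `Site d k × {σ // σ ∈ pl i j}`
    (`card = 4N`): `F w ≤ ε' 2^d/N · dis w ≤ 4 d² 2^d ε'`.  `D w = 0`: `w` is constant (`dis_zero`), `F w = 0`.
-/

set_option autoImplicit false

open Finset

namespace Pool.Agent.LIN

open Pool.Agent.LO

variable {d k : ℕ} {S Λ : Type*} [Fintype S] [Fintype Λ]

private noncomputable def E9_F (K : Λ → S → S → ℝ) (w : Site d k → Fin d → Λ) : ℝ :=
  Real.log (Zw K w) -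
    (∑ x, ∑ l, Real.log (Zw K fun (_ : Site d k) (_ : Fin d) => w x l)) / (d * NN d k)

private theorem E9_pl (i j : Fin d) (hij : i ≠ j) : (pl i j).card = 4 := by
  classical
  have h : pl i j = ({i, j} : Finset (Fin d)) ×ˢ (univ : Finset Bool) := by
    ext σ
    simp [pl]
  rw [h, Finset.card_product, Finset.card_pair hij]
  rfl

private theorem E9_NN (d k : ℕ) : 0 < NN d k := by
  unfold NN
  positivity

omit [Fintype Λ] in
private theorem E9_step (hd : 2 ≤ d) (hk : 2 ≤ k) (K : Λ → S → S → ℝ)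
    (hK : ∀ l a b, 0 ≤ K l a b) (a0 b0 : S) (hp : ∀ l, 0 < K l a0 b0)
    (w : Site d k → Fin d → Λ) (i j : Fin d) (hij : i ≠ j) :
    E9_F K w ≤ (∑ p, ∑ σ ∈ pl i j, E9_F K (pf i j p σ w)) / (4 * NN d k) +
      NN d k * Real.log (Fintype.card S) / (2 * 2 ^ k) := by
  have hN := E9_NN d k
  have hd0 : (0 : ℝ) < d := by
    have : (2 : ℝ) ≤ d := by exact_mod_cast hd
    linarith
  have h1 := pf_ineq hk K hK a0 b0 hp w i j hij
  have h2 := pf_mean (by omega) i j hij w
    (fun a => Real.log (Zw K fun (_ : Site d k) (_ : Fin d) => a))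
  have h3 : ∑ p, ∑ σ ∈ pl i j, E9_F K (pf i j p σ w) =
      (∑ p, ∑ σ ∈ pl i j, Real.log (Zw K (pf i j p σ w))) -
        (∑ p, ∑ σ ∈ pl i j, ∑ x, ∑ l, Real.log
          (Zw K fun (_ : Site d k) (_ : Fin d) => pf i j p σ w x l)) / (d * NN d k) := by
    simp only [E9_F, Finset.sum_sub_distrib, Finset.sum_div]
  rw [h2] at h3
  rw [h3, sub_div]
  have h4 : 4 * NN d k * (∑ x, ∑ l, Real.log (Zw K fun (_ : Site d k) (_ : Fin d) => w x l)) /
      (d * NN d k) / (4 * NN d k) =
      (∑ x, ∑ l, Real.log (Zw K fun (_ : Site d k) (_ : Fin d) => w x l)) / (d * NN d k) := by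
    field_simp
  rw [h4]
  unfold E9_F
  linarith

omit [Fintype Λ] in
private theorem E9_avg (K : Λ → S → S → ℝ) (w : Site d k → Fin d → Λ) (i j : Fin d) (hij : i ≠ j)
    (C : ℝ) (hC : ∀ p, ∀ σ ∈ pl i j, E9_F K (pf i j p σ w) ≤ C) :
    (∑ p, ∑ σ ∈ pl i j, E9_F K (pf i j p σ w)) / (4 * NN d k) ≤ C := by
  have hN := E9_NN d k
  rw [div_le_iff₀ (by positivity)]
  calc ∑ p, ∑ σ ∈ pl i j, E9_F K (pf i j p σ w) ≤ ∑ _p : Site d k, ∑ _σ ∈ pl i j, C :=
        Finset.sum_le_sum fun p _ => Finset.sum_le_sum fun σ hσ => hC p σ hσ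
    _ = C * (4 * NN d k) := by
      simp only [Finset.sum_const, E9_pl i j hij, card_univ, nsmul_eq_mul]
      rw [card_site]
      push_cast
      ring

omit [Fintype Λ] in
private theorem E9_per (hd : 2 ≤ d) (hk : 2 ≤ k) (K : Λ → S → S → ℝ)
    (hK : ∀ l a b, 0 ≤ K l a b) (a0 b0 : S) (hp : ∀ l, 0 < K l a0 b0) (C : ℝ)
    (hC : ∀ w : Site d k → Fin d → Λ, perD univ w → E9_F K w ≤ C) (n : ℕ) :
    ∀ I : Finset (Fin d), d ≤ I.card + n → ∀ w : Site d k → Fin d → Λ, perD I w →
      E9_F K w ≤ C + n * (NN d k * Real.log (Fintype.card S) / (2 * 2 ^ k)) := by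
  classical
  have hN := E9_NN d k
  have he : 0 ≤ NN d k * Real.log (Fintype.card S) / (2 * 2 ^ k) := by
    have := Real.log_natCast_nonneg (Fintype.card S)
    positivity
  induction n with
  | zero =>
    intro I hI w hw
    have h1 : I = univ := by
      rw [← Finset.card_eq_iff_eq_univ, Fintype.card_fin]
      have h2 := Finset.card_le_univ I
      rw [Fintype.card_fin] at h2
      omega
    rw [h1] at hw
    have h2 := hC w hw
    rw [Nat.cast_zero, zero_mul, add_zero]
    exact h2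
  | succ n ih =>
    intro I hI w hw
    by_cases h1 : I = univ
    · rw [h1] at hw
      have h2 := hC w hw
      have h3 : 0 ≤ ((n + 1 : ℕ) : ℝ) *
          (NN d k * Real.log (Fintype.card S) / (2 * 2 ^ k)) := by positivity
      linarith
    · obtain ⟨j, hj⟩ : ∃ j, j ∉ I := by
        by_contra h2
        push Not at h2
        exact h1 (Finset.eq_univ_of_forall h2)
      obtain ⟨i, hij⟩ : ∃ i : Fin d, i ≠ j := by
        have : Nontrivial (Fin d) := Fin.nontrivial_iff_two_le.2 hd
        exact exists_ne j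
      have h2 := E9_step hd hk K hK a0 b0 hp w i j hij
      have h3 := E9_avg K w i j hij
        (C + n * (NN d k * Real.log (Fintype.card S) / (2 * 2 ^ k))) (by
          intro p σ _
          refine ih (I ∪ {i, j}) ?_ _ (pf_per (by omega) i j hij p σ w I hw)
          have h4 : I.card + 1 ≤ (I ∪ {i, j}).card := by
            rw [← Finset.card_insert_of_notMem hj]
            refine Finset.card_le_card ?_
            intro x hx
            rw [Finset.mem_insert] at hx
            rcases hx with rfl | hx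
            · simp
            · simp [hx]
          omega)
      push_cast
      linarith

theorem ecb (hd : 2 ≤ d) (hk : 2 ≤ k) (K : Λ → S → S → ℝ) (hK : ∀ l a b, 0 ≤ K l a b) (a0 b0 : S)
    (hp : ∀ l, 0 < K l a0 b0) (w : Site d k → Fin d → Λ) :
    Real.log (Zw K w) ≤ (∑ x, ∑ l, Real.log (Zw K fun (_ : Site d k) (_ : Fin d) => w x l)) / (d * NN d k) +
      4 * 2 ^ d * (d : ℝ) ^ 2 * NN d k * Real.log (Fintype.card S) / 2 ^ k := by
  classical
  have hN := E9_NN d k
  have hd2 : (2 : ℝ) ≤ d := by exact_mod_cast hd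
  have hd0 : (0 : ℝ) < d := by linarith
  set e : ℝ := NN d k * Real.log (Fintype.card S) / (2 * 2 ^ k) with he
  have he0 : 0 ≤ e := by
    have := Real.log_natCast_nonneg (Fintype.card S)
    rw [he]
    positivity
  have hg : 0 < NN d k / 2 ^ d := by positivity
  have hpot : ∀ w : Site d k → Fin d → Λ, perD univ w → E9_F K w ≤ 4 * 2 ^ d * (d : ℝ) ^ 2 * e := by
    intro w hw
    have h1 := potential (W := Site d k → Fin d → Λ) (fun w => perD univ w) (E9_F K) dis e
      (NN d k / 2 ^ d) he0 hg (fun w _ => dis_nonneg w) ?_ ?_ w hw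
    · have h2 := dis_le w
      have h3 : 0 ≤ e / (NN d k / 2 ^ d) := by positivity
      have h4 := mul_le_mul_of_nonneg_left h2 h3
      refine (h1.trans h4).trans (le_of_eq ?_)
      field_simp
    · intro w _ h0
      have hd' : 0 < d := by omega
      obtain ⟨a, ha⟩ : ∃ a : Λ, ∀ x l, w x l = a :=
        ⟨w 0 ⟨0, hd'⟩, fun x l => dis_zero (by omega) w h0 x 0 l ⟨0, hd'⟩⟩
      have hwa : w = fun _ _ => a := by
        funext x l
        exact ha x l
      unfold E9_F
      rw [hwa]
      simp only [Finset.sum_const, card_univ, Fintype.card_fin, nsmul_eq_mul]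
      rw [card_site]
      have h5 : NN d k * (d * Real.log (Zw K fun (_ : Site d k) (_ : Fin d) => a)) /
          (d * NN d k) = Real.log (Zw K fun (_ : Site d k) (_ : Fin d) => a) := by
        field_simp
      rw [h5, sub_self]
    · intro w hw h0
      obtain ⟨i, j, hij, hgap⟩ := dis_gap hd (by omega) w hw h0
      have hcard : (Fintype.card (Site d k × {σ : Stp d // σ ∈ pl i j}) : ℝ) = 4 * NN d k := by
        rw [Fintype.card_prod, Fintype.card_coe, E9_pl i j hij, Nat.cast_mul, card_site]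
        push_cast
        ring
      have hsum : ∀ G : (Site d k → Fin d → Λ) → ℝ,
          ∑ a : Site d k × {σ : Stp d // σ ∈ pl i j}, G (pf i j a.1 a.2.1 w) =
            ∑ p, ∑ σ ∈ pl i j, G (pf i j p σ w) := by
        intro G
        rw [Fintype.sum_prod_type]
        refine Finset.sum_congr rfl fun p _ => ?_
        exact Finset.sum_coe_sort (pl i j) fun σ => G (pf i j p σ w)
      have hne : Nonempty {σ : Stp d // σ ∈ pl i j} := ⟨⟨(i, true), by simp [pl]⟩⟩
      refine ⟨Site d k × {σ : Stp d // σ ∈ pl i j}, inferInstance, inferInstance,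
        fun a => pf i j a.1 a.2.1 w, fun a => ?_, ?_, ?_⟩
      · have h6 := pf_per (by omega) i j hij a.1 a.2.1 w univ hw
        have h7 : (univ ∪ {i, j} : Finset (Fin d)) = univ := by
          ext x
          simp
        rwa [h7] at h6
      · rw [hcard, hsum (E9_F K)]
        exact E9_step hd hk K hK a0 b0 hp w i j hij
      · rw [hcard, hsum dis, pf_dis (by omega) i j hij w]
        rw [mul_div_cancel_left₀ _ (show 4 * NN d k ≠ 0 by positivity)]
        linarith
  have hmain := E9_per hd hk K hK a0 b0 hp _ hpot d ∅ (by simp) w (by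
    intro j hj
    exact absurd hj (Finset.notMem_empty j))
  rw [← he] at hmain
  have h7 : (d : ℝ) ≤ 4 * 2 ^ d * (d : ℝ) ^ 2 := by
    have h8 : (1 : ℝ) ≤ 2 ^ d := one_le_pow₀ (by norm_num)
    nlinarith [mul_le_mul h8 (show (1 : ℝ) ≤ d by linarith) (by norm_num) (by positivity)]
  have h9 := mul_le_mul_of_nonneg_right h7 he0
  have h10 : 4 * 2 ^ d * (d : ℝ) ^ 2 * NN d k * Real.log (Fintype.card S) / 2 ^ k =
      2 * (4 * 2 ^ d * (d : ℝ) ^ 2 * e) := by
    rw [he]
    field_simp
  unfold E9_F at hmain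
  rw [h10]
  linarith

end Pool.Agent.LIN
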