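import Pool.Agent.Lib_MP_2c424f_lin.Defs

/-!
# Edge chessboard: definitions
-/

set_option autoImplicit false

open Finset

namespace Pool.Agent.LIN

open Pool.Agent.LO

/-! ## Rings -/

section ring
variable {X : Type*} [Fintype X]

/-- partition function of a ring of length `2^r` with kernels `A j` from layer `j` to layer `j+1` -/
noncomputable def cyc (r : ℕ) (A : ZMod (2 ^ r) → X → X → ℝ) : ℝ :=
  ∑ a : ZMod (2 ^ r) → X, ∏ j, A j (a j) (a (j + 1))

/-- ring of length `2^(r+1)` with the kernel `A` and its transpose in turn: `Tr (A Aᵀ)^(2^r)` -/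
noncomputable def zig (r : ℕ) (A : X → X → ℝ) : ℝ :=
  ∑ α : ZMod (2 ^ r) → X, ∑ β : ZMod (2 ^ r) → X, ∏ i, A (α i) (β i) * A (α (i + 1)) (β i)

/-- reduction `ℤ/2^(r+1) → ℤ/2^r` -/
def rd (r : ℕ) (s : ZMod (2 ^ (r + 1))) : ZMod (2 ^ r) := (s.val : ZMod (2 ^ r))

/-- two-dimensional torus of side `2^k` with oriented kernels: `Kh x y` on `(x,y) → (x+1,y)`,
`Kv x y` on `(x,y) → (x,y+1)` -/
noncomputable def Zg (k : ℕ) (Kh Kv : ZMod (2 ^ k) → ZMod (2 ^ k) → X → X → ℝ) : ℝ :=
  ∑ f : ZMod (2 ^ k) × ZMod (2 ^ k) → X, ∏ p : ZMod (2 ^ k) × ZMod (2 ^ k),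
    Kh p.1 p.2 (f p) (f (p.1 + 1, p.2)) * Kv p.1 p.2 (f p) (f (p.1, p.2 + 1))

open scoped Classical in
/-- orientation of a kernel: first argument at the site with even sum of coordinates -/
noncomputable def ori (k : ℕ) (K : X → X → ℝ) (x y : ZMod (2 ^ k)) : X → X → ℝ :=
  if Even (x.val + y.val) then K else fun a b => K b a

/-- homogeneous two-dimensional torus, `K (even site) (odd site)` -/
noncomputable def Zh (k : ℕ) (K : X → X → ℝ) : ℝ := Zg k (ori k K) (ori k K)

/-- kernel of a zigzag layer -/
noncomputable def bz (k : ℕ) (K : X → X → ℝ) (a b : ZMod (2 ^ k) → X) : ℝ :=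
  ∏ i, K (a i) (b i) * K (a (i + 1)) (b i)

/-- homogeneous zigzag torus -/
noncomputable def DD (k : ℕ) (K : X → X → ℝ) : ℝ := zig k (bz k K)

end ring

/-! ## Nearest-neighbour models on the torus -/

section model
variable {d k : ℕ} {S Λ : Type*}

open scoped Classical in
/-- value at the even end of the edge `{x, x + e_i}` -/
noncomputable def eE (f : Site d k → S) (x : Site d k) (i : Fin d) : S :=
  if evn x then f x else f (x + sv (i, true))

open scoped Classical in
/-- value at the odd end of the edge `{x, x + e_i}` -/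
noncomputable def eO (f : Site d k → S) (x : Site d k) (i : Fin d) : S :=
  if evn x then f (x + sv (i, true)) else f x

/-- partition function; the edge `{x, x + e_i}` has the kernel `K (w x i)` -/
noncomputable def Zw [Fintype S] (K : Λ → S → S → ℝ) (w : Site d k → Fin d → Λ) : ℝ :=
  ∑ f : Site d k → S, ∏ x, ∏ i, K (w x i) (eE f x i) (eO f x i)

/-- label of the edge from `x` in the direction of the step `σ` -/
def WL (w : Site d k → Fin d → Λ) (x : Site d k) (σ : Stp d) : Λ :=
  if σ.2 then w x σ.1 else w (x + sv σ) σ.1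

/-- steps in the plane `i j` -/
def pl (i j : Fin d) : Finset (Stp d) := univ.filter fun σ => σ.1 = i ∨ σ.1 = j

/-- `x` with the coordinates `i j` of `p` -/
def mrg (i j : Fin d) (p x : Site d k) : Site d k := fun l => if l = i ∨ l = j then p l else x l

open scoped Classical in
/-- folding of the plane `i j` onto the edge from `p` in the direction `σ` -/
noncomputable def fol (i j : Fin d) (p : Site d k) (σ : Stp d) (x : Site d k) : Site d k :=
  if Even ((x i).val + (x j).val + (p i).val + (p j).val) then mrg i j p x else mrg i j p x + sv σ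

open scoped Classical in
/-- the folded labelling -/
noncomputable def pf (i j : Fin d) (p : Site d k) (σ : Stp d) (w : Site d k → Fin d → Λ) :
    Site d k → Fin d → Λ :=
  fun x l => if l = i ∨ l = j then WL w (mrg i j p x) σ else w (fol i j p σ x) l

open scoped Classical in
/-- discrepancy of a labelling -/
noncomputable def dis (w : Site d k → Fin d → Λ) : ℝ :=
  ∑ x, ∑ σ : Stp d, ∑ τ : Stp d, if WL w x σ = WL w x τ then (0 : ℝ) else 1

open scoped Classical in
/-- discrepancy in the plane `i j` -/
noncomputable def dis2 (i j : Fin d) (w : Site d k → Fin d → Λ) : ℝ :=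
  ∑ x, ∑ σ ∈ pl i j, ∑ τ ∈ pl i j, if WL w x σ = WL w x τ then (0 : ℝ) else 1

/-- periodicity `2` in the directions of `I` -/
def perD (I : Finset (Fin d)) (w : Site d k → Fin d → Λ) : Prop :=
  ∀ j ∈ I, ∀ x l, w (x + sv (j, true) + sv (j, true)) l = w x l

end model

end Pool.Agent.LIN
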