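import Mathlib

/-!
# H30 F1: Finner's inequality (generalised Hölder) for a regular family

`V` = functions `g v`, each depends on the `k = card J` coordinates `Nb v j`; for every `j` the map `v ↦ Nb v j` is a
bijection `V → U`, so every coordinate `u` occurs in exactly `k` of the functions.
Proof: one coordinate at a time; replacing `G_v` by `T_u G_v (f) = (mean over s of G_v (update f u s)^k)^(1/k)`
increases the sum of the products (Hölder), keeps `∑ G_v^k`, and makes `G_v` independent of `u`.
-/

set_option autoImplicit false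

open Finset

namespace Pool.Agent.LIN

private theorem holder_fin {S V : Type*} [Fintype S] (W : Finset V) (k : ℕ) (hk : W.card = k) (hk0 : 0 < k)
    (F : V → S → ℝ) (hF : ∀ v s, 0 ≤ F v s) :
    ∑ s, ∏ v ∈ W, F v s ≤ ∏ v ∈ W, (∑ s, F v s ^ k) ^ ((1 : ℝ) / k) := by
  have hkR : (0 : ℝ) < k := by exact_mod_cast hk0
  have hnn : ∀ v, 0 ≤ ∑ s, F v s ^ k := fun v => Finset.sum_nonneg fun s _ => pow_nonneg (hF v s) _
  by_cases h0 : ∃ v ∈ W, ∑ s, F v s ^ k = 0
  · obtain ⟨v, hv, h0⟩ := h0
    have hz : ∀ s, F v s = 0 := by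
      intro s
      have := (Finset.sum_eq_zero_iff_of_nonneg (fun s _ => pow_nonneg (hF v s) k)).1 h0 s (mem_univ s)
      exact pow_eq_zero_iff (by omega) |>.1 this
    have : ∑ s, ∏ v ∈ W, F v s = 0 := by
      apply Finset.sum_eq_zero
      intro s _
      exact Finset.prod_eq_zero hv (hz s)
    rw [this]
    exact Finset.prod_nonneg fun v _ => Real.rpow_nonneg (hnn v) _
  · push Not at h0
    have hpos : ∀ v ∈ W, 0 < ∑ s, F v s ^ k := fun v hv => lt_of_le_of_ne (hnn v) (Ne.symm (h0 v hv))
    have hP : 0 < ∏ v ∈ W, (∑ s, F v s ^ k) ^ ((1 : ℝ) / k) :=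
      Finset.prod_pos fun v hv => Real.rpow_pos_of_pos (hpos v hv) _
    have key : ∀ s, ∏ v ∈ W, F v s ≤ (∏ v ∈ W, (∑ s, F v s ^ k) ^ ((1 : ℝ) / k)) *
        ∑ v ∈ W, (1 / (k : ℝ)) * (F v s ^ k / ∑ s, F v s ^ k) := by
      intro s
      have h := Real.geom_mean_le_arith_mean_weighted W (fun _ => (1 : ℝ) / k)
        (fun v => F v s ^ k / ∑ s, F v s ^ k) (fun _ _ => by positivity)
        (by rw [Finset.sum_const, hk, nsmul_eq_mul]; field_simp)
        (fun v _ => div_nonneg (pow_nonneg (hF v s) _) (hnn v))
      refine le_trans (le_of_eq ?_) (mul_le_mul_of_nonneg_left h hP.le)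
      rw [← Finset.prod_mul_distrib]
      apply Finset.prod_congr rfl
      intro v hv
      rw [Real.div_rpow (pow_nonneg (hF v s) _) (hnn v)]
      rw [mul_div_cancel₀]
      · rw [← Real.rpow_natCast, ← Real.rpow_mul (hF v s)]
        rw [mul_one_div_cancel hkR.ne', Real.rpow_one]
      · exact (Real.rpow_pos_of_pos (hpos v hv) _).ne'
    calc ∑ s, ∏ v ∈ W, F v s ≤ ∑ s, (∏ v ∈ W, (∑ s, F v s ^ k) ^ ((1 : ℝ) / k)) *
        ∑ v ∈ W, (1 / (k : ℝ)) * (F v s ^ k / ∑ s, F v s ^ k) := Finset.sum_le_sum fun s _ => key s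
      _ = (∏ v ∈ W, (∑ s, F v s ^ k) ^ ((1 : ℝ) / k)) *
        ∑ v ∈ W, (1 / (k : ℝ)) * ((∑ s, F v s ^ k) / ∑ s, F v s ^ k) := by
          rw [← Finset.mul_sum, Finset.sum_comm]
          congr 1
          apply Finset.sum_congr rfl
          intro v _
          rw [← Finset.mul_sum, Finset.sum_div]
      _ = ∏ v ∈ W, (∑ s, F v s ^ k) ^ ((1 : ℝ) / k) := by
          have : ∑ v ∈ W, (1 / (k : ℝ)) * ((∑ s, F v s ^ k) / ∑ s, F v s ^ k) = 1 := by
            rw [Finset.sum_congr rfl (fun v hv => by rw [div_self (hpos v hv).ne', mul_one])]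
            rw [Finset.sum_const, hk, nsmul_eq_mul]; field_simp
          rw [this, mul_one]

private theorem sum_update {U S : Type*} [Fintype U] [DecidableEq U] [Fintype S] (u : U) (Φ : (U → S) → ℝ) :
    ∑ f : U → S, ∑ s : S, Φ (Function.update f u s) = Fintype.card S * ∑ f : U → S, Φ f := by
  classical
  let e := Equiv.funSplitAt u S
  have h1 : ∀ f : U → S, ∀ s, Φ (Function.update f u s) = Φ (e.symm (s, (e f).2)) := by
    intro f s
    congr 1
  have h2 : ∑ f : U → S, ∑ s : S, Φ (Function.update f u s) =
      ∑ p : S × ({x // x ≠ u} → S), ∑ s : S, Φ (e.symm (s, p.2)) := by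
    rw [← Equiv.sum_comp e]
    exact Finset.sum_congr rfl fun f _ => Finset.sum_congr rfl fun s _ => h1 f s
  have h3 : ∑ f : U → S, Φ f = ∑ p : S × ({x // x ≠ u} → S), Φ (e.symm p) := by
    rw [← Equiv.sum_comp e]
    exact Finset.sum_congr rfl fun f _ => by rw [Equiv.symm_apply_apply]
  rw [h2, h3, Fintype.sum_prod_type, Fintype.sum_prod_type]
  simp only [Finset.sum_const, Finset.card_univ, nsmul_eq_mul]
  rw [Finset.sum_comm]

private theorem const_of_indep {U S : Type*} [Fintype U] [DecidableEq U] (H : (U → S) → ℝ)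
    (h : ∀ u f s, H (Function.update f u s) = H f) (f f' : U → S) : H f' = H f := by
  have : ∀ A : Finset U, H (A.piecewise f' f) = H f := by
    intro A
    induction A using Finset.induction_on with
    | empty => simp
    | insert a A ha ih => rw [Finset.piecewise_insert, h, ih]
  have h2 := this Finset.univ
  rwa [Finset.piecewise_univ] at h2

private theorem sum_comp_inj {U J S : Type*} [Fintype U] [DecidableEq U] [Fintype J] [DecidableEq J]
    [Fintype S] (i : J → U) (hi : Function.Injective i) (φ : (J → S) → ℝ) :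
    (Fintype.card S : ℝ) ^ (Fintype.card J) * ∑ f : U → S, φ (fun j => f (i j)) =
      (Fintype.card S : ℝ) ^ (Fintype.card U) * ∑ c : J → S, φ c := by
  classical
  let e := Equiv.piEquivPiSubtypeProd (fun x => x ∈ Set.range i) (fun _ : U => S)
  let e1 : J ≃ {x // x ∈ Set.range i} := Equiv.ofInjective i hi
  let e2 : ({x // x ∈ Set.range i} → S) ≃ (J → S) := Equiv.arrowCongr e1.symm (Equiv.refl S)
  have h1 : ∀ f : U → S, φ (fun j => f (i j)) = φ (e2 (e f).1) := by
    intro f; rfl
  have h2 : ∑ f : U → S, φ (fun j => f (i j)) =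
      ∑ p : ({x // x ∈ Set.range i} → S) × ({x // ¬ x ∈ Set.range i} → S), φ (e2 p.1) := by
    rw [← Equiv.sum_comp e]
    exact Finset.sum_congr rfl fun f _ => h1 f
  rw [h2, Fintype.sum_prod_type]
  simp only [Finset.sum_const, Finset.card_univ, nsmul_eq_mul]
  rw [← Finset.mul_sum, Equiv.sum_comp e2 φ, ← mul_assoc]
  congr 1
  rw [Fintype.card_fun]
  push_cast
  rw [← pow_add]
  congr 1
  have h3 : Fintype.card {x // x ∈ Set.range i} = Fintype.card J := Fintype.card_congr e1.symm
  have h4 := Fintype.card_subtype_compl (fun x => x ∈ Set.range i)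
  have h5 : Fintype.card {x // x ∈ Set.range i} ≤ Fintype.card U := Fintype.card_subtype_le _
  omega

theorem finner {U V J S : Type*} [Fintype U] [DecidableEq U] [Fintype V] [Fintype J] [DecidableEq J]
    [Nonempty J] [Fintype S] (Nb : V → J → U) (hb : ∀ j, Function.Bijective fun v => Nb v j)
    (hi : ∀ v, Function.Injective (Nb v)) (g : V → (J → S) → ℝ) (hg : ∀ v c, 0 ≤ g v c) :
    ∑ f : U → S, ∏ v, g v (fun j => f (Nb v j)) ≤
      ∏ v, (∑ c : J → S, g v c ^ (Fintype.card J)) ^ ((1 : ℝ) / Fintype.card J) := by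
  classical
  have hnn : 0 ≤ ∏ v, (∑ c : J → S, g v c ^ (Fintype.card J)) ^ ((1 : ℝ) / Fintype.card J) :=
    Finset.prod_nonneg fun v _ => Real.rpow_nonneg
      (Finset.sum_nonneg fun c _ => pow_nonneg (hg v c) _) _
  obtain ⟨j0⟩ := (inferInstance : Nonempty J)
  have hUV : Fintype.card V = Fintype.card U := Fintype.card_of_bijective (hb j0)
  have hk0 : 0 < Fintype.card J := Fintype.card_pos_iff.2 ⟨j0⟩
  have hkR : (0 : ℝ) < Fintype.card J := by exact_mod_cast hk0
  rcases isEmpty_or_nonempty (U → S) with hE | ⟨⟨f0⟩⟩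
  · rw [Finset.univ_eq_empty, Finset.sum_empty]; exact hnn
  rcases isEmpty_or_nonempty U with hUE | ⟨⟨u0⟩⟩
  · have hVE : IsEmpty V := by
      rw [← Fintype.card_eq_zero_iff, hUV, Fintype.card_eq_zero]
    simp
  have hSpos : (0 : ℝ) < Fintype.card S := by exact_mod_cast Fintype.card_pos_iff.2 ⟨f0 u0⟩
  set k := Fintype.card J with hk
  -- the functions
  set G : V → (U → S) → ℝ := fun v f => g v (fun j => f (Nb v j)) with hG
  have hstep : ∀ A : Finset U, ∃ H : V → (U → S) → ℝ, (∀ v f, 0 ≤ H v f) ∧
      (∀ v, ∑ f, H v f ^ k = ∑ f, G v f ^ k) ∧ (∑ f, ∏ v, G v f ≤ ∑ f, ∏ v, H v f) ∧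
      (∀ v u, (∀ j, Nb v j ≠ u) → ∀ f s, H v (Function.update f u s) = H v f) ∧
      (∀ v, ∀ u ∈ A, ∀ f s, H v (Function.update f u s) = H v f) := by
    intro A
    induction A using Finset.induction_on with
    | empty =>
      refine ⟨G, fun v f => hg v _, fun v => rfl, le_refl _, ?_, by simp⟩
      intro v u hu f s
      simp only [hG]
      congr 1
      funext j
      rw [Function.update_of_ne (hu j)]
    | insert u A hu ih =>
      obtain ⟨H, h1, h2, h3, h4, h5⟩ := ih
      let T : V → (U → S) → ℝ := fun v f =>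
        ((∑ s, H v (Function.update f u s) ^ k) / Fintype.card S) ^ ((1 : ℝ) / k)
      have hTnn : ∀ v f, 0 ≤ T v f := fun v f => Real.rpow_nonneg (div_nonneg
        (Finset.sum_nonneg fun s _ => pow_nonneg (h1 _ _) _) hSpos.le) _
      have hTpow : ∀ v f, T v f ^ k = (∑ s, H v (Function.update f u s) ^ k) / Fintype.card S := by
        intro v f
        rw [← Real.rpow_natCast, ← Real.rpow_mul (div_nonneg
          (Finset.sum_nonneg fun s _ => pow_nonneg (h1 _ _) _) hSpos.le), one_div_mul_cancel hkR.ne',
          Real.rpow_one]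
      have hTeq : ∀ v, (∀ f s, H v (Function.update f u s) = H v f) → ∀ f, T v f = H v f := by
        intro v hv f
        simp only [T]
        rw [Finset.sum_congr rfl (fun s _ => by rw [hv f s]), Finset.sum_const, Finset.card_univ,
          nsmul_eq_mul, mul_div_cancel_left₀ _ hSpos.ne', ← Real.rpow_natCast,
          ← Real.rpow_mul (h1 v f), mul_one_div_cancel hkR.ne', Real.rpow_one]
      have hTind : ∀ v w, (∀ f s, H v (Function.update f w s) = H v f) →
          ∀ f s, T v (Function.update f w s) = T v f := by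
        intro v w hw f s
        simp only [T]
        congr 2
        apply Finset.sum_congr rfl
        intro s' _
        by_cases hwu : w = u
        · subst hwu; rw [Function.update_idem]
        · rw [Function.update_comm hwu, hw]
      refine ⟨T, hTnn, ?_, ?_, ?_, ?_⟩
      · intro v
        rw [← h2 v]
        simp only [hTpow]
        rw [← Finset.sum_div, sum_update u (fun f => H v f ^ k), mul_div_cancel_left₀ _ hSpos.ne']
      · refine le_trans h3 ?_
        have e1 : ∑ f, ∏ v, H v f = ∑ f : U → S, (∑ s, ∏ v, H v (Function.update f u s)) / Fintype.card S := by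
          rw [← Finset.sum_div, sum_update u (fun f => ∏ v, H v f), mul_div_cancel_left₀ _ hSpos.ne']
        rw [e1]
        apply Finset.sum_le_sum
        intro f _
        set W : Finset V := Finset.univ.filter fun v => ∃ j, Nb v j = u with hW
        have hWc : W.card = k := by
          have : W = Finset.univ.image (fun j => (Equiv.ofBijective _ (hb j)).symm u) := by
            ext v
            simp only [hW, mem_filter, mem_univ, true_and, mem_image]
            constructor
            · rintro ⟨j, hj⟩
              refine ⟨j, ?_⟩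
              rw [Equiv.symm_apply_eq]
              simp [hj]
            · rintro ⟨j, hj⟩
              refine ⟨j, ?_⟩
              rw [Equiv.symm_apply_eq] at hj
              simpa using hj.symm
          rw [this, Finset.card_image_of_injective _ ?_, Finset.card_univ]
          intro j j' hjj
          have e2 : Nb ((Equiv.ofBijective _ (hb j)).symm u) j = u :=
            (Equiv.ofBijective _ (hb j)).apply_symm_apply u
          have e3 : Nb ((Equiv.ofBijective _ (hb j')).symm u) j' = u :=
            (Equiv.ofBijective _ (hb j')).apply_symm_apply u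
          dsimp only at hjj
          rw [← hjj] at e3
          exact hi _ (e2.trans e3.symm)
        have hsplit : ∀ K : V → ℝ, ∏ v, K v = (∏ v ∈ W, K v) * ∏ v ∈ Wᶜ, K v := fun K =>
          (Finset.prod_mul_prod_compl W K).symm
        have hc : ∀ s, ∏ v ∈ Wᶜ, H v (Function.update f u s) = ∏ v ∈ Wᶜ, H v f := by
          intro s
          apply Finset.prod_congr rfl
          intro v hv
          apply h4
          intro j hj
          simp only [hW, mem_compl, mem_filter, mem_univ, true_and, not_exists] at hv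
          exact hv j hj
        have hc2 : ∏ v ∈ Wᶜ, T v f = ∏ v ∈ Wᶜ, H v f := by
          apply Finset.prod_congr rfl
          intro v hv
          apply hTeq
          apply h4
          intro j hj
          simp only [hW, mem_compl, mem_filter, mem_univ, true_and, not_exists] at hv
          exact hv j hj
        rw [hsplit (fun v => T v f), hc2]
        rw [Finset.sum_congr rfl (fun s _ => by rw [hsplit (fun v => H v (Function.update f u s)), hc s]),
          ← Finset.sum_mul, mul_div_right_comm]
        apply mul_le_mul_of_nonneg_right _ (Finset.prod_nonneg fun v _ => h1 _ _)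
        rw [div_le_iff₀ hSpos]
        refine le_trans (holder_fin W k hWc hk0 (fun v s => H v (Function.update f u s)) (fun v s => h1 _ _))
          (le_of_eq ?_)
        have e4 : ∀ v, T v f = (∑ s, H v (Function.update f u s) ^ k) ^ ((1 : ℝ) / k) *
            ((Fintype.card S : ℝ) ^ ((1 : ℝ) / k))⁻¹ := by
          intro v
          simp only [T]
          rw [Real.div_rpow (Finset.sum_nonneg fun s _ => pow_nonneg (h1 _ _) _) hSpos.le,
            div_eq_mul_inv]
        rw [Finset.prod_congr rfl (fun v _ => e4 v), Finset.prod_mul_distrib, Finset.prod_const, hWc,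
          inv_pow, ← Real.rpow_natCast, ← Real.rpow_mul hSpos.le, one_div_mul_cancel hkR.ne',
          Real.rpow_one, mul_assoc, inv_mul_cancel₀ hSpos.ne', mul_one]
      · intro v w hw
        exact hTind v w (h4 v w hw)
      · intro v w hw f s
        rcases Finset.mem_insert.1 hw with rfl | hw
        · simp only [T]
          congr 2
          apply Finset.sum_congr rfl
          intro s' _
          rw [Function.update_idem]
        · exact hTind v w (h5 v w hw) f s
  obtain ⟨H, h1, h2, h3, -, h5⟩ := hstep Finset.univ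
  refine le_trans h3 ?_
  have hconst : ∀ v f, H v f = H v f0 := fun v f =>
    const_of_indep (H v) (fun u f s => h5 v u (mem_univ u) f s) f0 f
  have hc : ∀ v, H v f0 = (∑ c : J → S, g v c ^ k) ^ ((1 : ℝ) / k) * (Fintype.card S : ℝ)⁻¹ := by
    intro v
    have e1 := h2 v
    rw [Finset.sum_congr rfl (fun f _ => by rw [hconst v f]), Finset.sum_const, Finset.card_univ,
      nsmul_eq_mul, Fintype.card_fun] at e1
    have e2 := sum_comp_inj (Nb v) (hi v) (fun c => g v c ^ k)
    rw [← hk] at e2
    simp only [hG] at e1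
    rw [← e1] at e2
    push_cast at e2
    have hSU : (0 : ℝ) < (Fintype.card S : ℝ) ^ (Fintype.card U) := pow_pos hSpos _
    have e3 : (Fintype.card S : ℝ) ^ k * H v f0 ^ k = ∑ c : J → S, g v c ^ k := by
      have : (Fintype.card S : ℝ) ^ (Fintype.card U) * ((Fintype.card S : ℝ) ^ k * H v f0 ^ k) =
          (Fintype.card S : ℝ) ^ (Fintype.card U) * ∑ c : J → S, g v c ^ k := by
        rw [← e2]; ring
      exact mul_left_cancel₀ hSU.ne' this
    rw [← e3, ← mul_pow, ← Real.rpow_natCast, ← Real.rpow_mul (mul_nonneg hSpos.le (h1 _ _)),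
      mul_one_div_cancel hkR.ne', Real.rpow_one, mul_comm (Fintype.card S : ℝ), mul_assoc,
      mul_inv_cancel₀ hSpos.ne', mul_one]
  rw [Finset.sum_congr rfl (fun f _ => Finset.prod_congr rfl fun v _ => hconst v f), Finset.sum_const,
    Finset.card_univ, nsmul_eq_mul, Fintype.card_fun, Finset.prod_congr rfl (fun v _ => hc v),
    Finset.prod_mul_distrib, Finset.prod_const, Finset.card_univ, hUV]
  push_cast
  rw [inv_pow, mul_comm, mul_assoc, inv_mul_cancel₀ (pow_pos hSpos _).ne', mul_one]

end Pool.Agent.LIN
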