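import Pool.Agent.Lib_MP_2c424f_lin.F2b

/-!
# H30 F2: Finner's inequality on the torus, resummation of one class

* `cls` basics: a step changes the class, `card (cls b d k) = N/2`.
* `finner_cls`: `finner` with `U` = class `!b`, `V` = class `b`, `J = Stp d`, `Nb v σ = v + sv σ` (injective in `σ` for
  `k ≥ 2`, `sv_inj`); the sum over `f : Site d k → S` has the factor `|S|^(N/2)` from the class `b`.
* `resum`: given the colours on the class `!b`, the colours on the class `b` are chosen independently, `av f v`
  possibilities at `v`; on the right side the values on the class `b` are free (`q^(N/2)`).
  `av f v` depends only on the colours of the neighbours of `v`.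
-/
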