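import Pool.Agent.Lib_MP_2c424f_lin.F1
import Pool.Agent.Lib_MP_2c424f_lin.Defs

/-!
# H30 F2a: Finner's inequality on the torus, resummation of one class

* `cls` basics: a step changes the class, `card (cls b d k) = N/2`.
* `finner_cls`: `finner` with `U` = class `!b`, `V` = class `b`, `J = Stp d`, `Nb v σ = v + sv σ` (injective in `σ` for
  `k ≥ 2`, `sv_inj`); the sum over `f : Site d k → S` has the factor `|S|^(N/2)` from the class `b`.
* `resum`: given the colours on the class `!b`, the colours on the class `b` are chosen independently, `av f v`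
  possibilities at `v`; on the right side the values on the class `b` are free (`q^(N/2)`).
  `av f v` depends only on the colours of the neighbours of `v`.
-/

set_option autoImplicit false

open Finset

namespace Pool.Agent.LIN

open Pool.Agent.LO

variable {d k q : ℕ}

theorem mem_cls_step (hk : 1 ≤ k) (b : Bool) (x : Site d k) (σ : Stp d) :
    x + sv σ ∈ cls b d k ↔ x ∈ cls (!b) d k := by
  have h := evn_step hk x σ
  cases b
  · simp only [cls, Bool.false_eq_true, if_false, Bool.not_false, if_true, ods, evs, mem_filter,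
      mem_univ, true_and, h, not_not]
  · simp only [cls, Bool.not_true, Bool.false_eq_true, if_false, if_true, ods, evs, mem_filter,
      mem_univ, true_and, h]

theorem cls_not (b : Bool) (x : Site d k) : x ∈ cls (!b) d k ↔ x ∉ cls b d k := by
  cases b
  · simp only [cls, Bool.false_eq_true, if_false, Bool.not_false, if_true, ods, evs, mem_filter,
      mem_univ, true_and, not_not]
  · simp only [cls, Bool.not_true, Bool.false_eq_true, if_false, if_true, ods, evs, mem_filter,
      mem_univ, true_and]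

theorem card_cls (hd : 1 ≤ d) (hk : 1 ≤ k) (b : Bool) : ((cls b d k).card : ℝ) = NN d k / 2 := by
  cases b
  · simp only [cls, Bool.false_eq_true, if_false]
    exact card_ods hd hk
  · simp only [cls, if_true]
    exact card_evs hd hk

private theorem F2a_mem_SS (f : Site d k → Fin q) (v : Site d k) (c : Fin q) :
    c ∈ SS f v ↔ ∃ σ : Stp d, f (v + sv σ) = c := by
  simp only [SS, mem_image, mem_univ, true_and]

open scoped Classical in
/-- properness is tested on one class -/
private theorem F2a_prp (hk : 1 ≤ k) (b : Bool) (f : Site d k → Fin q) :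
    Prp f ↔ ∀ v ∈ cls b d k, f v ∉ SS f v := by
  constructor
  · intro hf v _ hv
    obtain ⟨σ, hσ⟩ := (F2a_mem_SS f v (f v)).1 hv
    exact hf v σ hσ
  · intro h x σ hx
    by_cases hb : x ∈ cls b d k
    · exact h x hb ((F2a_mem_SS f x (f x)).2 ⟨σ, hx⟩)
    · have h1 : x + sv σ ∈ cls b d k := (mem_cls_step hk b x σ).2 ((cls_not b x).2 hb)
      refine h _ h1 ((F2a_mem_SS f _ _).2 ⟨(σ.1, !σ.2), ?_⟩)
      rw [add_assoc, show (sv σ : Site d k) + sv (σ.1, !σ.2) = 0 from sv_opp σ.1 σ.2, add_zero, hx]

open scoped Classical in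
private theorem F2a_resum (hk : 1 ≤ k) (b : Bool) (φ : Site d k → ℕ → ℝ) :
    (q : ℝ) ^ (cls b d k).card * ∑ f : Site d k → Fin q,
        ∏ v ∈ cls b d k, (if f v ∉ SS f v then φ v (av f v) else 0) =
      ∑ f : Site d k → Fin q, ∏ v ∈ cls b d k, ((av f v : ℝ) * φ v (av f v)) := by
  set e := Equiv.piEquivPiSubtypeProd (fun x : Site d k => x ∈ cls b d k) (fun _ => Fin q) with he
  rw [← e.symm.sum_comp, ← e.symm.sum_comp, Fintype.sum_prod_type_right,
    Fintype.sum_prod_type_right, mul_sum]
  refine sum_congr rfl fun h _ => ?_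
  -- the colours seen from the class do not depend on the colours of the class
  have hSS : ∀ g g' : {x // x ∈ cls b d k} → Fin q, ∀ v ∈ cls b d k,
      SS (e.symm (g, h)) v = SS (e.symm (g', h)) v := by
    intro g g' v hv
    unfold SS
    refine image_congr ?_
    intro σ _
    have h1 : v + sv σ ∉ cls b d k := by
      rw [mem_cls_step hk, cls_not]
      exact not_not.2 hv
    simp only [he, Equiv.piEquivPiSubtypeProd_symm_apply, dif_neg h1]
  rcases isEmpty_or_nonempty ({x // x ∈ cls b d k} → Fin q) with hE | ⟨⟨g₀⟩⟩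
  · simp
  have hv : ∀ (g : {x // x ∈ cls b d k} → Fin q) (v : {x // x ∈ cls b d k}),
      e.symm (g, h) v.1 = g v := by
    intro g v
    simp only [he, Equiv.piEquivPiSubtypeProd_symm_apply, dif_pos v.2, Subtype.coe_eta]
  have hL : ∀ g : {x // x ∈ cls b d k} → Fin q,
      ∏ v ∈ cls b d k, (if e.symm (g, h) v ∉ SS (e.symm (g, h)) v
        then φ v (av (e.symm (g, h)) v) else 0) =
      ∏ v : {x // x ∈ cls b d k}, (if g v ∉ SS (e.symm (g₀, h)) v.1
        then φ v.1 (av (e.symm (g₀, h)) v.1) else 0) := by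
    intro g
    rw [← prod_coe_sort]
    refine prod_congr rfl fun v _ => ?_
    have h1 := hSS g g₀ v.1 v.2
    have h2 : av (e.symm (g, h)) v.1 = av (e.symm (g₀, h)) v.1 := by
      unfold av
      rw [h1]
    rw [h1, h2, hv g v]
  have hR : ∀ g : {x // x ∈ cls b d k} → Fin q,
      ∏ v ∈ cls b d k, ((av (e.symm (g, h)) v : ℝ) * φ v (av (e.symm (g, h)) v)) =
      ∏ v : {x // x ∈ cls b d k}, ((av (e.symm (g₀, h)) v.1 : ℝ) *
        φ v.1 (av (e.symm (g₀, h)) v.1)) := by
    intro g
    rw [← prod_coe_sort]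
    refine prod_congr rfl fun v _ => ?_
    have h2 : av (e.symm (g, h)) v.1 = av (e.symm (g₀, h)) v.1 := by
      unfold av
      rw [hSS g g₀ v.1 v.2]
    rw [h2]
  rw [sum_congr rfl fun g _ => hL g, sum_congr rfl fun g _ => hR g, sum_const, card_univ,
    Fintype.card_fun, Fintype.card_fin, Fintype.card_coe, nsmul_eq_mul, Nat.cast_pow]
  congr 1
  have h3 := prod_univ_sum (fun _ : {x // x ∈ cls b d k} => (univ : Finset (Fin q)))
    (fun v c => if c ∉ SS (e.symm (g₀, h)) v.1
        then φ v.1 (av (e.symm (g₀, h)) v.1) else 0)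
  rw [Fintype.piFinset_univ] at h3
  rw [← h3]
  refine prod_congr rfl fun v _ => ?_
  rw [← sum_filter, sum_const, nsmul_eq_mul]
  congr 1
  rw [filter_not, card_sdiff_of_subset (filter_subset _ _)]
  have h4 : (univ.filter fun c : Fin q => c ∈ SS (e.symm (g₀, h)) v.1) =
      SS (e.symm (g₀, h)) v.1 := by
    ext c
    simp
  rw [h4, card_univ, Fintype.card_fin]
  rfl

theorem resum (hk : 1 ≤ k) (b : Bool) (φ : Site d k → ℕ → ℝ) :
    (q : ℝ) ^ (cls b d k).card * ∑ f ∈ prps d k q, ∏ v ∈ cls b d k, φ v (av f v) =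
      ∑ f : Site d k → Fin q, ∏ v ∈ cls b d k, ((av f v : ℝ) * φ v (av f v)) := by
  classical
  rw [← F2a_resum hk b φ]
  congr 1
  unfold prps
  rw [sum_filter]
  refine sum_congr rfl fun f _ => ?_
  by_cases hf : Prp f
  · rw [if_pos hf]
    refine prod_congr rfl fun v hv => ?_
    rw [if_pos ((F2a_prp hk b f).1 hf v hv)]
  · rw [if_neg hf]
    rw [F2a_prp hk b f] at hf
    push Not at hf
    obtain ⟨v, hv, h1⟩ := hf
    symm
    refine prod_eq_zero hv ?_
    rw [if_neg (not_not.2 h1)]

end Pool.Agent.LIN
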