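import Pool.Agent.Lib_MP_2c424f_lin.F2a

/-!
# H30 F2b: Finner's inequality on the torus, resummation of one class

* `cls` basics: a step changes the class, `card (cls b d k) = N/2`.
* `finner_cls`: `finner` with `U` = class `!b`, `V` = class `b`, `J = Stp d`, `Nb v σ = v + sv σ` (injective in `σ` for
  `k ≥ 2`, `sv_inj`); the sum over `f : Site d k → S` has the factor `|S|^(N/2)` from the class `b`.
* `resum`: given the colours on the class `!b`, the colours on the class `b` are chosen independently, `av f v`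
  possibilities at `v`; on the right side the values on the class `b` are free (`q^(N/2)`).
  `av f v` depends only on the colours of the neighbours of `v`.
-/

set_option autoImplicit false

open Finset

namespace Pool.Agent.LIN

open Pool.Agent.LO

variable {d k q : ℕ}

theorem finner_cls (hd : 1 ≤ d) (hk : 2 ≤ k) {S : Type*} [Fintype S] (b : Bool) (g : (Stp d → S) → ℝ)
    (hg : ∀ c, 0 ≤ g c) :
    ∑ f : Site d k → S, ∏ v ∈ cls b d k, g (fun σ => f (v + sv σ)) ≤
      (Fintype.card S : ℝ) ^ (NN d k / 2) * (∑ c : Stp d → S, g c ^ (2 * d)) ^ (NN d k / (4 * d)) := by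
  classical
  have hk1 : 1 ≤ k := by omega
  have hnot : ∀ v ∈ cls b d k, ∀ σ : Stp d, v + sv σ ∉ cls b d k := by
    intro v hv σ
    rw [mem_cls_step hk1, cls_not]
    exact not_not.2 hv
  set e := Equiv.piEquivPiSubtypeProd (fun x : Site d k => x ∈ cls b d k) (fun _ => S) with he
  let Nb : {x : Site d k // x ∈ cls b d k} → Stp d → {x : Site d k // ¬ x ∈ cls b d k} :=
    fun v σ => ⟨v.1 + sv σ, hnot v.1 v.2 σ⟩
  have hb : ∀ σ, Function.Bijective fun v => Nb v σ := by
    intro σ
    constructor
    · intro v v' h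
      exact Subtype.ext (add_right_cancel (congrArg Subtype.val h))
    · rintro ⟨u, hu⟩
      have h0 : (sv (σ.1, !σ.2) : Site d k) + sv σ = 0 := by
        rw [add_comm]
        exact sv_opp σ.1 σ.2
      have h1 : u + sv (σ.1, !σ.2) ∈ cls b d k := (mem_cls_step hk1 b u _).2 ((cls_not b u).2 hu)
      refine ⟨⟨u + sv (σ.1, !σ.2), h1⟩, Subtype.ext ?_⟩
      change u + sv (σ.1, !σ.2) + sv σ = u
      rw [add_assoc, h0, add_zero]
  have hi : ∀ v, Function.Injective (Nb v) := by
    intro v σ σ' h
    exact sv_inj hk (add_left_cancel (congrArg Subtype.val h))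
  have : Nonempty (Stp d) := ⟨(⟨0, hd⟩, true)⟩
  have hF := finner Nb hb hi (fun _ => g) (fun _ => hg)
  have hJ : Fintype.card (Stp d) = 2 * d := by
    rw [show Fintype.card (Stp d) = Fintype.card (Fin d × Bool) from rfl, Fintype.card_prod,
      Fintype.card_fin, Fintype.card_bool, mul_comm]
  rw [hJ, prod_const, card_univ, Fintype.card_coe] at hF
  have hX : 0 ≤ ∑ c : Stp d → S, g c ^ (2 * d) := sum_nonneg fun c _ => pow_nonneg (hg c) _
  have hd0 : (0 : ℝ) < d := by exact_mod_cast hd
  have hpow : ((∑ c : Stp d → S, g c ^ (2 * d)) ^ ((1 : ℝ) / (2 * d : ℕ))) ^ (cls b d k).card =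
      (∑ c : Stp d → S, g c ^ (2 * d)) ^ (NN d k / (4 * d)) := by
    rw [← Real.rpow_natCast, ← Real.rpow_mul hX, card_cls hd hk1]
    congr 1
    push_cast
    field_simp
    ring
  rw [hpow] at hF
  have hS : (Fintype.card S : ℝ) ^ (NN d k / 2) =
      (Fintype.card S : ℝ) ^ (cls b d k).card := by
    rw [← card_cls hd hk1 b, Real.rpow_natCast]
  have hL : ∑ f : Site d k → S, ∏ v ∈ cls b d k, g (fun σ => f (v + sv σ)) =
      (Fintype.card S : ℝ) ^ (cls b d k).card *
        ∑ f : {x : Site d k // ¬ x ∈ cls b d k} → S,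
          ∏ v : {x : Site d k // x ∈ cls b d k}, g (fun σ => f (Nb v σ)) := by
    rw [← e.symm.sum_comp, Fintype.sum_prod_type]
    have h1 : ∀ (a : {x : Site d k // x ∈ cls b d k} → S)
        (h : {x : Site d k // ¬ x ∈ cls b d k} → S),
        ∏ v ∈ cls b d k, g (fun σ => e.symm (a, h) (v + sv σ)) =
          ∏ v : {x : Site d k // x ∈ cls b d k}, g (fun σ => h (Nb v σ)) := by
      intro a h
      rw [← prod_coe_sort]
      refine prod_congr rfl fun v _ => ?_
      congr 1
      funext σ
      simp only [he, Equiv.piEquivPiSubtypeProd_symm_apply, dif_neg (hnot v.1 v.2 σ)]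
      rfl
    rw [sum_congr rfl fun a _ => sum_congr rfl fun h _ => h1 a h, sum_const, card_univ,
      Fintype.card_fun, Fintype.card_coe, nsmul_eq_mul, Nat.cast_pow]
  rw [hL, hS]
  exact mul_le_mul_of_nonneg_left hF (pow_nonneg (Nat.cast_nonneg _) _)

end Pool.Agent.LIN
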