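import Pool.Agent.Lib_MP_2c424f_lin.F3d

/-!
# H30 F3: typicality and pressure

`WW b w = ∑_{g : class !b → [q]} ∏_{v ∈ cls b} (x_v + w)`, `x_v` = number of colours available at `v` (may be `0`); written
with free values on the class `b`, divided by `q^{N/2}`.  `WW b 0 = ZZ` (`resum` with `φ = 1`), `WW` is monotone in `w`,
`WW b 1 ≤ ZZ (q+1)` (last colour on the class `b` only).
* `typ_expw`: `finner_cls` with `g c = ((x + w)/q) exp ((1-2x/q)^2)`, `x = q - card (image c)`: with `A = image c`,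
  `t = 1 - 2|A|/q`: `∑_c (q g(c))^(2d) ≤ ∑_{A ⊆ [q]} (|A| (q-|A|+w) exp (t²))^(2d) ≤ 2^q ((q²/4)(1 + 4ew/q))^(2d)`, because
  `|A| (q-|A|+w) ≤ (q²/4)(1-t²) + q w`, `(1-t²) exp (t²) ≤ 1`, `exp (t²) ≤ e`.  So the left side is at most
  `(2^q (q²/4)^(2d) (1+4ew/q)^(2d))^(N/4d) ≤ exp (N (log (q/2) + q log 2/(4d) + 6w/q))` (the factors `q^(N/2)` cancel).
* `typ_exp0`: `w = 0` and `resum` with `φ _ x = exp ((1 - 2x/q)^2)`.  `pressure_le`: `exp ≥ 1`.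
* `pressure_ge`: odd sites coloured from `⌊q/2⌋` colours, even sites from the other `⌈q/2⌉`:
  `ZZ ≥ (⌊q/2⌋ ⌈q/2⌉)^(N/2) ≥ ((q²-1)/4)^(N/2)`, `log (1 - 1/q²) ≥ -2/q²` for `q ≥ 2`
  (`Lib_MP_2c424f_lo/Pbd.lean` has a lower bound of this kind).
-/
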