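import Pool.Agent.Lib_MP_2c424f_lin.F2

/-!
# H30 F3a: typicality and pressure

`WW b w = ∑_{g : class !b → [q]} ∏_{v ∈ cls b} (x_v + w)`, `x_v` = number of colours available at `v` (may be `0`); written
with free values on the class `b`, divided by `q^{N/2}`.  `WW b 0 = ZZ` (`resum` with `φ = 1`), `WW` is monotone in `w`,
`WW b 1 ≤ ZZ (q+1)` (last colour on the class `b` only).
* `typ_expw`: `finner_cls` with `g c = ((x + w)/q) exp ((1-2x/q)^2)`, `x = q - card (image c)`: with `A = image c`,
  `t = 1 - 2|A|/q`: `∑_c (q g(c))^(2d) ≤ ∑_{A ⊆ [q]} (|A| (q-|A|+w) exp (t²))^(2d) ≤ 2^q ((q²/4)(1 + 4ew/q))^(2d)`, because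
  `|A| (q-|A|+w) ≤ (q²/4)(1-t²) + q w`, `(1-t²) exp (t²) ≤ 1`, `exp (t²) ≤ e`.  So the left side is at most
  `(2^q (q²/4)^(2d) (1+4ew/q)^(2d))^(N/4d) ≤ exp (N (log (q/2) + q log 2/(4d) + 6w/q))` (the factors `q^(N/2)` cancel).
* `typ_exp0`: `w = 0` and `resum` with `φ _ x = exp ((1 - 2x/q)^2)`.  `pressure_le`: `exp ≥ 1`.
* `pressure_ge`: odd sites coloured from `⌊q/2⌋` colours, even sites from the other `⌈q/2⌉`:
  `ZZ ≥ (⌊q/2⌋ ⌈q/2⌉)^(N/2) ≥ ((q²-1)/4)^(N/2)`, `log (1 - 1/q²) ≥ -2/q²` for `q ≥ 2`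
  (`Lib_MP_2c424f_lo/Pbd.lean` has a lower bound of this kind).
-/

set_option autoImplicit false

open Finset

namespace Pool.Agent.LIN

open Pool.Agent.LO

variable {d k q : ℕ}

/-- partition function with an extra colour of weight `w` allowed on the class `b` -/
noncomputable def WW (d k q : ℕ) (b : Bool) (w : ℝ) : ℝ :=
  ∑ f : Site d k → Fin q, ∏ v ∈ cls b d k, (((av f v : ℝ) + w) / q)

theorem WW_zero (hk : 1 ≤ k) (hq : 1 ≤ q) (b : Bool) : WW d k q b 0 = ZZ d k q := by
  have hq0 : (0 : ℝ) < q := by exact_mod_cast hq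
  have h := resum (d := d) (k := k) (q := q) hk b (fun _ _ => 1)
  simp only [prod_const_one, sum_const, nsmul_eq_mul, mul_one] at h
  unfold WW ZZ
  have h2 : ∀ f : Site d k → Fin q, ∏ v ∈ cls b d k, (((av f v : ℝ) + 0) / q) =
      (∏ v ∈ cls b d k, (av f v : ℝ)) / (q : ℝ) ^ (cls b d k).card := by
    intro f
    rw [prod_div_distrib, prod_const]
    simp only [add_zero]
  rw [sum_congr rfl fun f _ => h2 f, ← sum_div, ← h]
  field_simp

theorem WW_mono (b : Bool) {w w' : ℝ} (hw : 0 ≤ w) (hw' : w ≤ w') : WW d k q b w ≤ WW d k q b w' := by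
  unfold WW
  refine sum_le_sum fun f _ => prod_le_prod (fun v _ => by positivity) fun v _ => ?_
  have : (av f v : ℝ) + w ≤ av f v + w' := by linarith
  exact div_le_div_of_nonneg_right this (Nat.cast_nonneg q)

/-- the colours allowed at `v` when the last of `q + 1` colours is used on the class `b` only -/
private noncomputable def F3a_al (b : Bool) (f : Site d k → Fin q) (v : Site d k) :
    Finset (Fin (q + 1)) :=
  if v ∈ cls b d k then insert (Fin.last q) ((SS f v)ᶜ.map Fin.castSuccEmb) else {(f v).castSucc}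

private theorem F3a_card (b : Bool) (f : Site d k → Fin q) (v : Site d k) :
    (F3a_al b f v).card = if v ∈ cls b d k then av f v + 1 else 1 := by
  unfold F3a_al
  split_ifs with h
  · rw [card_insert_of_notMem, card_map, card_compl, Fintype.card_fin]
    · rfl
    · intro h1
      rw [mem_map] at h1
      obtain ⟨c, -, hc⟩ := h1
      exact (Fin.castSucc_lt_last c).ne hc
  · rw [card_singleton]

private theorem F3a_prp (hk : 1 ≤ k) (b : Bool) (f : Site d k → Fin q) (s : Site d k → Fin (q + 1))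
    (hs : ∀ v, s v ∈ F3a_al b f v) : Prp s := by
  have key : ∀ x ∈ cls b d k, ∀ σ : Stp d, s (x + sv σ) ≠ s x := by
    intro x hx σ
    have hy : x + sv σ ∉ cls b d k := by
      rw [mem_cls_step hk, cls_not]
      exact not_not.2 hx
    have h1 := hs x
    have h2 := hs (x + sv σ)
    unfold F3a_al at h1 h2
    rw [if_pos hx, mem_insert, mem_map] at h1
    rw [if_neg hy, mem_singleton] at h2
    rw [h2]
    rcases h1 with h1 | ⟨c, hc, hc'⟩
    · rw [h1]
      exact (Fin.castSucc_lt_last _).ne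
    · intro h3
      rw [← hc'] at h3
      have h4 : f (x + sv σ) = c := Fin.castSucc_injective q h3
      rw [mem_compl] at hc
      apply hc
      unfold SS
      rw [mem_image]
      exact ⟨σ, mem_univ _, h4⟩
  intro x σ
  by_cases hx : x ∈ cls b d k
  · exact key x hx σ
  · have hy : x + sv σ ∈ cls b d k := by
      rw [mem_cls_step hk, cls_not]
      exact hx
    obtain ⟨j, β⟩ := σ
    have h1 := key _ hy (j, !β)
    rw [add_assoc, sv_opp, add_zero] at h1
    exact fun h => h1 h.symm

theorem WW_one (hk : 1 ≤ k) (hq : 1 ≤ q) (b : Bool) : WW d k q b 1 ≤ ZZ d k (q + 1) := by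
  classical
  have hq0 : (0 : ℝ) < q := by exact_mod_cast hq
  have h1 : ∑ f : Site d k → Fin q, ∏ v ∈ cls b d k, (av f v + 1) ≤
      q ^ (cls b d k).card * (prps d k (q + 1)).card := by
    have e1 : ∑ f : Site d k → Fin q, ∏ v ∈ cls b d k, (av f v + 1) =
        ((univ : Finset (Site d k → Fin q)).sigma fun f => Fintype.piFinset (F3a_al b f)).card := by
      rw [card_sigma]
      refine sum_congr rfl fun f _ => ?_
      rw [Fintype.card_piFinset, prod_congr rfl fun v _ => F3a_card b f v, prod_ite_mem, univ_inter]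
    have e2 : q ^ (cls b d k).card * (prps d k (q + 1)).card =
        ((univ : Finset (cls b d k → Fin q)) ×ˢ prps d k (q + 1)).card := by
      rw [card_product, card_univ, Fintype.card_fun, Fintype.card_fin, Fintype.card_coe]
    rw [e1, e2]
    refine card_le_card_of_injOn (fun z => (fun x => z.1 x, z.2)) ?_ ?_
    · rintro ⟨f, s⟩ hz
      rw [mem_coe, mem_sigma, Fintype.mem_piFinset] at hz
      rw [mem_coe, mem_product]
      refine ⟨mem_univ _, ?_⟩
      unfold prps
      rw [mem_filter]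
      exact ⟨mem_univ _, F3a_prp hk b f s hz.2⟩
    · rintro ⟨f, s⟩ hz ⟨f', s'⟩ hz' h
      rw [mem_coe, mem_sigma, Fintype.mem_piFinset] at hz hz'
      simp only [Prod.mk.injEq] at h
      obtain ⟨h2, rfl⟩ := h
      have h3 : f = f' := by
        funext x
        by_cases hx : x ∈ cls b d k
        · exact congrFun h2 ⟨x, hx⟩
        · have h4 := hz.2 x
          have h5 := hz'.2 x
          unfold F3a_al at h4 h5
          rw [if_neg hx, mem_singleton] at h4 h5
          exact Fin.castSucc_injective q (h4.symm.trans h5)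
      rw [h3]
  have h2 : (∑ f : Site d k → Fin q, ∏ v ∈ cls b d k, ((av f v : ℝ) + 1)) ≤
      (q : ℝ) ^ (cls b d k).card * ZZ d k (q + 1) := by
    unfold ZZ
    exact_mod_cast h1
  unfold WW
  have h3 : ∀ f : Site d k → Fin q, ∏ v ∈ cls b d k, (((av f v : ℝ) + 1) / q) =
      (∏ v ∈ cls b d k, ((av f v : ℝ) + 1)) / (q : ℝ) ^ (cls b d k).card := by
    intro f
    rw [prod_div_distrib, prod_const]
  rw [sum_congr rfl fun f _ => h3 f, ← sum_div, div_le_iff₀ (by positivity), mul_comm]
  exact h2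

end Pool.Agent.LIN
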