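import Pool.Agent.Lib_MP_2c424f_lin.F3a

/-!
# H30 F3b: typicality and pressure

`WW b w = ∑_{g : class !b → [q]} ∏_{v ∈ cls b} (x_v + w)`, `x_v` = number of colours available at `v` (may be `0`); written
with free values on the class `b`, divided by `q^{N/2}`.  `WW b 0 = ZZ` (`resum` with `φ = 1`), `WW` is monotone in `w`,
`WW b 1 ≤ ZZ (q+1)` (last colour on the class `b` only).
* `typ_expw`: `finner_cls` with `g c = ((x + w)/q) exp ((1-2x/q)^2)`, `x = q - card (image c)`: with `A = image c`,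
  `t = 1 - 2|A|/q`: `∑_c (q g(c))^(2d) ≤ ∑_{A ⊆ [q]} (|A| (q-|A|+w) exp (t²))^(2d) ≤ 2^q ((q²/4)(1 + 4ew/q))^(2d)`, because
  `|A| (q-|A|+w) ≤ (q²/4)(1-t²) + q w`, `(1-t²) exp (t²) ≤ 1`, `exp (t²) ≤ e`.  So the left side is at most
  `(2^q (q²/4)^(2d) (1+4ew/q)^(2d))^(N/4d) ≤ exp (N (log (q/2) + q log 2/(4d) + 6w/q))` (the factors `q^(N/2)` cancel).
* `typ_exp0`: `w = 0` and `resum` with `φ _ x = exp ((1 - 2x/q)^2)`.  `pressure_le`: `exp ≥ 1`.
* `pressure_ge`: odd sites coloured from `⌊q/2⌋` colours, even sites from the other `⌈q/2⌉`: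
  `ZZ ≥ (⌊q/2⌋ ⌈q/2⌉)^(N/2) ≥ ((q²-1)/4)^(N/2)`, `log (1 - 1/q²) ≥ -2/q²` for `q ≥ 2`
  (`Lib_MP_2c424f_lo/Pbd.lean` has a lower bound of this kind).
-/

set_option autoImplicit false

open Finset

namespace Pool.Agent.LIN

open Pool.Agent.LO

variable {d k q : ℕ}

private theorem F3b_card_image (A : Finset (Fin q)) :
    ((univ.filter fun c : Stp d → Fin q => univ.image c = A).card : ℝ) ≤ (A.card : ℝ) ^ (2 * d) := by
  have h1 : (univ.filter fun c : Stp d → Fin q => univ.image c = A) ⊆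
      Fintype.piFinset (fun _ : Stp d => A) := by
    intro c hc
    rw [mem_filter] at hc
    rw [Fintype.mem_piFinset]
    intro σ
    rw [← hc.2]
    exact mem_image_of_mem _ (mem_univ _)
  have h2 := card_le_card h1
  rw [Fintype.card_piFinset] at h2
  have h3 : ∏ _σ : Stp d, A.card = A.card ^ (2 * d) := by
    rw [prod_const]
    congr 1
    simp [Fintype.card_prod, mul_comm]
  rw [h3] at h2
  exact_mod_cast h2

private theorem F3b_pt (hq : 2 ≤ q) (a w : ℝ) (ha : 0 ≤ a) (haq : a ≤ q) (hw : 0 ≤ w) :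
    a * ((q - a + w) * Real.exp ((1 - 2 * ((q - a) / q)) ^ 2)) ≤
      (q : ℝ) ^ 2 / 4 * (1 + 4 * Real.exp 1 * w / q) := by
  have hq0 : (0 : ℝ) < q := by
    have : 0 < q := by omega
    exact_mod_cast this
  have hqne : (q : ℝ) ≠ 0 := hq0.ne'
  set s : ℝ := (1 - 2 * ((q - a) / q)) ^ 2 with hs
  have hsa : a * (q - a) = (q : ℝ) ^ 2 / 4 * (1 - s) := by
    rw [hs]
    field_simp
    ring
  have hs1 : s ≤ 1 := by
    have h0 : 0 ≤ a * (q - a) := mul_nonneg ha (by linarith)
    rw [hsa] at h0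
    by_contra hcon
    push Not at hcon
    have : (q : ℝ) ^ 2 / 4 * (1 - s) < 0 := mul_neg_of_pos_of_neg (by positivity) (by linarith)
    linarith
  have he1 : (1 - s) * Real.exp s ≤ 1 := by
    have h1 : 1 - s ≤ Real.exp (-s) := by
      have := Real.add_one_le_exp (-s)
      linarith
    calc (1 - s) * Real.exp s ≤ Real.exp (-s) * Real.exp s :=
          mul_le_mul_of_nonneg_right h1 (Real.exp_pos s).le
      _ = 1 := by rw [← Real.exp_add]; simp
  have he2 : Real.exp s ≤ Real.exp 1 := Real.exp_le_exp.mpr hs1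
  have h1 : a * ((q - a + w) * Real.exp s) =
      (q : ℝ) ^ 2 / 4 * ((1 - s) * Real.exp s) + a * w * Real.exp s := by
    calc a * ((q - a + w) * Real.exp s) = (a * (q - a)) * Real.exp s + a * w * Real.exp s := by ring
      _ = _ := by rw [hsa]; ring
  have h2 : a * w * Real.exp s ≤ q * w * Real.exp 1 := by
    apply mul_le_mul (mul_le_mul_of_nonneg_right haq hw) he2 (Real.exp_pos s).le
    positivity
  have h3 : (q : ℝ) ^ 2 / 4 * (1 + 4 * Real.exp 1 * w / q) = (q : ℝ) ^ 2 / 4 + q * w * Real.exp 1 := by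
    field_simp
  rw [h1, h3]
  have h4 : (q : ℝ) ^ 2 / 4 * ((1 - s) * Real.exp s) ≤ (q : ℝ) ^ 2 / 4 * 1 :=
    mul_le_mul_of_nonneg_left he1 (by positivity)
  linarith

/-- the local weight -/
private noncomputable def F3bg (d q : ℕ) (w : ℝ) (c : Stp d → Fin q) : ℝ :=
  ((((q - (univ.image c).card : ℕ) : ℝ) + w) / q) *
    Real.exp ((1 - 2 * ((((q - (univ.image c).card : ℕ) : ℝ)) / q)) ^ 2)

private theorem F3b_sum (hq : 2 ≤ q) (w : ℝ) (hw : 0 ≤ w) :
    ∑ c : Stp d → Fin q, F3bg d q w c ^ (2 * d) ≤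
      2 ^ q * ((q : ℝ) / 4 * (1 + 4 * Real.exp 1 * w / q)) ^ (2 * d) := by
  have hq0 : (0 : ℝ) < q := by
    have : 0 < q := by omega
    exact_mod_cast this
  have hqne : (q : ℝ) ≠ 0 := hq0.ne'
  -- group by the image
  have h1 : ∑ c : Stp d → Fin q, F3bg d q w c ^ (2 * d) =
      ∑ A : Finset (Fin q), ∑ c ∈ univ.filter (fun c : Stp d → Fin q => univ.image c = A),
        F3bg d q w c ^ (2 * d) := by
    rw [sum_fiberwise]
  rw [h1]
  have h2 : ∀ A : Finset (Fin q),
      ∑ c ∈ univ.filter (fun c : Stp d → Fin q => univ.image c = A), F3bg d q w c ^ (2 * d) ≤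
        ((q : ℝ) / 4 * (1 + 4 * Real.exp 1 * w / q)) ^ (2 * d) := by
    intro A
    have hAq : A.card ≤ q := by
      have := card_le_univ A
      simpa using this
    have hAqR : (A.card : ℝ) ≤ q := by exact_mod_cast hAq
    set x : ℝ := (q : ℝ) - A.card with hx
    have hx0 : 0 ≤ x := by rw [hx]; linarith
    set y : ℝ := ((x + w) / q) * Real.exp ((1 - 2 * (x / q)) ^ 2) with hy
    have hy0 : 0 ≤ y := by rw [hy]; positivity
    have h3 : ∑ c ∈ univ.filter (fun c : Stp d → Fin q => univ.image c = A), F3bg d q w c ^ (2 * d) =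
        ((univ.filter fun c : Stp d → Fin q => univ.image c = A).card : ℝ) * y ^ (2 * d) := by
      rw [← nsmul_eq_mul, ← sum_const]
      apply sum_congr rfl
      intro c hc
      rw [mem_filter] at hc
      unfold F3bg
      rw [hc.2, Nat.cast_sub hAq]
    rw [h3]
    calc ((univ.filter fun c : Stp d → Fin q => univ.image c = A).card : ℝ) * y ^ (2 * d)
        ≤ (A.card : ℝ) ^ (2 * d) * y ^ (2 * d) :=
          mul_le_mul_of_nonneg_right (F3b_card_image A) (by positivity)
      _ = ((A.card : ℝ) * y) ^ (2 * d) := (mul_pow _ _ _).symm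
      _ ≤ ((q : ℝ) / 4 * (1 + 4 * Real.exp 1 * w / q)) ^ (2 * d) := by
          apply pow_le_pow_left₀ (by positivity)
          have h4 := F3b_pt hq (A.card : ℝ) w (by positivity) hAqR hw
          have h5 : (A.card : ℝ) * y =
              ((A.card : ℝ) * ((q - A.card + w) * Real.exp ((1 - 2 * ((q - A.card) / q)) ^ 2))) / q := by
            rw [hy, hx]
            ring
          rw [h5, div_le_iff₀ hq0]
          calc _ ≤ _ := h4
            _ = _ := by ring
  calc ∑ A : Finset (Fin q), ∑ c ∈ univ.filter (fun c : Stp d → Fin q => univ.image c = A),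
        F3bg d q w c ^ (2 * d)
      ≤ ∑ _A : Finset (Fin q), ((q : ℝ) / 4 * (1 + 4 * Real.exp 1 * w / q)) ^ (2 * d) :=
        sum_le_sum fun A _ => h2 A
    _ = _ := by
        rw [sum_const, nsmul_eq_mul, card_univ, Fintype.card_finset, Fintype.card_fin]
        push_cast
        rfl

theorem typ_expw (hd : 1 ≤ d) (hk : 2 ≤ k) (hq : 2 ≤ q) (b : Bool) (w : ℝ) (hw : 0 ≤ w) (hw1 : w ≤ 1) :
    ∑ f : Site d k → Fin q, ∏ v ∈ cls b d k, ((((av f v : ℝ) + w) / q) * Real.exp ((1 - 2 * xi f v) ^ 2)) ≤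
      Real.exp (NN d k * (Real.log (q / 2) + q * Real.log 2 / (4 * d) + 6 * w / q)) := by
  have hq0 : (0 : ℝ) < q := by
    have : 0 < q := by omega
    exact_mod_cast this
  have hqne : (q : ℝ) ≠ 0 := hq0.ne'
  have hd0 : (0 : ℝ) < d := by
    have : 0 < d := by omega
    exact_mod_cast this
  have hN0 : 0 ≤ NN d k := by unfold NN; positivity
  have hg0 : ∀ c : Stp d → Fin q, 0 ≤ F3bg d q w c := by
    intro c
    unfold F3bg
    positivity
  have key := finner_cls hd hk b (F3bg d q w) hg0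
  have h1 : ∑ f : Site d k → Fin q,
      ∏ v ∈ cls b d k, ((((av f v : ℝ) + w) / q) * Real.exp ((1 - 2 * xi f v) ^ 2)) =
      ∑ f : Site d k → Fin q, ∏ v ∈ cls b d k, F3bg d q w (fun σ => f (v + sv σ)) := rfl
  rw [h1]
  refine key.trans ?_
  set u : ℝ := 1 + 4 * Real.exp 1 * w / q with hu
  have hu1 : 1 ≤ u := by
    rw [hu]
    have : 0 ≤ 4 * Real.exp 1 * w / q := by positivity
    linarith
  have hu0 : 0 < u := by linarith
  have hS0 : 0 ≤ ∑ c : Stp d → Fin q, F3bg d q w c ^ (2 * d) :=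
    sum_nonneg fun c _ => pow_nonneg (hg0 c) _
  have h2 : (∑ c : Stp d → Fin q, F3bg d q w c ^ (2 * d)) ^ (NN d k / (4 * d)) ≤
      (2 ^ q * ((q : ℝ) / 4 * u) ^ (2 * d)) ^ (NN d k / (4 * d)) :=
    Real.rpow_le_rpow hS0 (F3b_sum hq w hw) (by positivity)
  rw [Fintype.card_fin]
  have h3 : (q : ℝ) ^ (NN d k / 2) = Real.exp (Real.log q * (NN d k / 2)) := by
    rw [Real.rpow_def_of_pos hq0]
  have h4 : (2 ^ q * ((q : ℝ) / 4 * u) ^ (2 * d)) ^ (NN d k / (4 * d)) =
      Real.exp ((q * Real.log 2 + 2 * d * (Real.log q - Real.log 4 + Real.log u)) * (NN d k / (4 * d))) := by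
    rw [Real.rpow_def_of_pos (by positivity)]
    congr 2
    rw [Real.log_mul (by positivity) (by positivity), Real.log_pow, Real.log_pow,
      Real.log_mul (by positivity) hu0.ne', Real.log_div hqne (by norm_num)]
    push_cast
    ring
  calc (q : ℝ) ^ (NN d k / 2) * (∑ c : Stp d → Fin q, F3bg d q w c ^ (2 * d)) ^ (NN d k / (4 * d))
      ≤ (q : ℝ) ^ (NN d k / 2) * (2 ^ q * ((q : ℝ) / 4 * u) ^ (2 * d)) ^ (NN d k / (4 * d)) :=
        mul_le_mul_of_nonneg_left h2 (by positivity)
    _ = Real.exp (Real.log q * (NN d k / 2) +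
          (q * Real.log 2 + 2 * d * (Real.log q - Real.log 4 + Real.log u)) * (NN d k / (4 * d))) := by
        rw [h3, h4, ← Real.exp_add]
    _ ≤ _ := by
        apply Real.exp_le_exp.mpr
        have h5 : Real.log u ≤ 4 * Real.exp 1 * w / q := by
          have := Real.log_le_sub_one_of_pos hu0
          rw [hu] at this ⊢
          linarith
        have h6 : Real.exp 1 ≤ 3 := by
          have := Real.exp_one_lt_d9
          linarith
        have h7 : Real.log 4 = 2 * Real.log 2 := by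
          rw [show (4 : ℝ) = 2 ^ 2 by norm_num, Real.log_pow]
          push_cast
          ring
        have h8 : Real.log (q / 2) = Real.log q - Real.log 2 := Real.log_div hqne (by norm_num)
        have h9 : Real.log u ≤ 12 * w / q := by
          refine h5.trans ?_
          apply div_le_div_of_nonneg_right _ hq0.le
          nlinarith
        have h10 : Real.log q * (NN d k / 2) +
          (q * Real.log 2 + 2 * d * (Real.log q - Real.log 4 + Real.log u)) * (NN d k / (4 * d)) =
          NN d k * (Real.log (q / 2) + q * Real.log 2 / (4 * d)) + NN d k / 2 * Real.log u := by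
          rw [h7, h8]
          field_simp
          ring
        rw [h10]
        have h11 : NN d k / 2 * Real.log u ≤ NN d k / 2 * (12 * w / q) :=
          mul_le_mul_of_nonneg_left h9 (by positivity)
        have h12 : NN d k / 2 * (12 * w / q) = NN d k * (6 * w / q) := by ring
        rw [mul_add (NN d k) (_ + _)]
        linarith

end Pool.Agent.LIN
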