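import Pool.Agent.Lib_MP_2c424f_lin.F3b

/-!
# H30 F3c: typicality and pressure

`WW b w = ∑_{g : class !b → [q]} ∏_{v ∈ cls b} (x_v + w)`, `x_v` = number of colours available at `v` (may be `0`); written
with free values on the class `b`, divided by `q^{N/2}`.  `WW b 0 = ZZ` (`resum` with `φ = 1`), `WW` is monotone in `w`,
`WW b 1 ≤ ZZ (q+1)` (last colour on the class `b` only).
* `typ_expw`: `finner_cls` with `g c = ((x + w)/q) exp ((1-2x/q)^2)`, `x = q - card (image c)`: with `A = image c`,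
  `t = 1 - 2|A|/q`: `∑_c (q g(c))^(2d) ≤ ∑_{A ⊆ [q]} (|A| (q-|A|+w) exp (t²))^(2d) ≤ 2^q ((q²/4)(1 + 4ew/q))^(2d)`, because
  `|A| (q-|A|+w) ≤ (q²/4)(1-t²) + q w`, `(1-t²) exp (t²) ≤ 1`, `exp (t²) ≤ e`.  So the left side is at most
  `(2^q (q²/4)^(2d) (1+4ew/q)^(2d))^(N/4d) ≤ exp (N (log (q/2) + q log 2/(4d) + 6w/q))` (the factors `q^(N/2)` cancel).
* `typ_exp0`: `w = 0` and `resum` with `φ _ x = exp ((1 - 2x/q)^2)`.  `pressure_le`: `exp ≥ 1`.
* `pressure_ge`: odd sites coloured from `⌊q/2⌋` colours, even sites from the other `⌈q/2⌉`: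
  `ZZ ≥ (⌊q/2⌋ ⌈q/2⌉)^(N/2) ≥ ((q²-1)/4)^(N/2)`, `log (1 - 1/q²) ≥ -2/q²` for `q ≥ 2`
  (`Lib_MP_2c424f_lo/Pbd.lean` has a lower bound of this kind).
-/

set_option autoImplicit false

open Finset

namespace Pool.Agent.LIN

open Pool.Agent.LO

variable {d k q : ℕ}

theorem ZZ_pos (hk : 1 ≤ k) (hq : 2 ≤ q) : 0 < ZZ d k q := by
  classical
  unfold ZZ
  have h0 : (prps d k q).Nonempty := by
    refine ⟨fun x => if evn x then ⟨0, by omega⟩ else ⟨1, by omega⟩, ?_⟩
    unfold prps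
    rw [mem_filter]
    refine ⟨mem_univ _, fun x σ he => ?_⟩
    have h1 := evn_step hk x σ
    by_cases hx : evn x
    · have hx' : ¬ evn (x + sv σ) := by
        rw [h1]
        exact not_not.mpr hx
      simp only at he
      rw [if_neg hx', if_pos hx] at he
      have h2 := congrArg Fin.val he
      simp at h2
    · have hx' : evn (x + sv σ) := h1.mpr hx
      simp only at he
      rw [if_pos hx', if_neg hx] at he
      have h2 := congrArg Fin.val he
      simp at h2
  exact_mod_cast card_pos.mpr h0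

theorem pressure_ge (hd : 1 ≤ d) (hk : 2 ≤ k) (hq : 2 ≤ q) :
    NN d k * (Real.log (q / 2) - 1 / (q : ℝ) ^ 2) ≤ Real.log (ZZ d k q) := by
  have hk1 : 1 ≤ k := by omega
  have h1 := ZZ_ge (d := d) (k := k) (q := q) hd hk1 hq
  have hZ : 0 < ZZ d k q := ZZ_pos hk1 hq
  have h2 : NN d k / 2 * Real.log ((q1 q : ℝ) * q2 q) ≤ Real.log (ZZ d k q) := by
    rw [Real.le_log_iff_exp_le hZ]
    exact h1
  have hN : 0 ≤ NN d k := by unfold NN; positivity
  have hqR : (2 : ℝ) ≤ q := by exact_mod_cast hq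
  have hq0 : (0 : ℝ) < q := by linarith
  -- the product of the two halves
  have h3 : ((q : ℝ) ^ 2 - 1) / 4 ≤ (q1 q : ℝ) * q2 q := by
    rcases Nat.even_or_odd' q with ⟨m, hm | hm⟩
    · have e1 : q1 q = m := by unfold q1; omega
      have e2 : q2 q = m := by unfold q2; omega
      rw [e1, e2, hm]
      push_cast
      nlinarith
    · have e1 : q1 q = m := by unfold q1; omega
      have e2 : q2 q = m + 1 := by unfold q2; omega
      rw [e1, e2, hm]
      push_cast
      nlinarith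
  have h4 : (0 : ℝ) < ((q : ℝ) ^ 2 - 1) / 4 := by nlinarith
  have h5 : Real.log (((q : ℝ) ^ 2 - 1) / 4) ≤ Real.log ((q1 q : ℝ) * q2 q) :=
    Real.log_le_log h4 h3
  -- the logarithm
  set x : ℝ := 1 / (q : ℝ) ^ 2 with hx
  have hx0 : 0 < x := by positivity
  have hx4 : x ≤ 1 / 4 := by
    rw [hx]
    apply one_div_le_one_div_of_le (by norm_num)
    nlinarith
  have h6 : ((q : ℝ) ^ 2 - 1) / 4 = (q / 2) ^ 2 * (1 - x) := by
    rw [hx]
    field_simp
    ring
  have h7 : Real.log (((q : ℝ) ^ 2 - 1) / 4) = 2 * Real.log (q / 2) + Real.log (1 - x) := by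
    rw [h6, Real.log_mul (by positivity) (by linarith), Real.log_pow]
    push_cast
    ring
  have h8 : -(2 * x) ≤ Real.log (1 - x) := by
    have h9 := Real.one_sub_inv_le_log_of_pos (show 0 < 1 - x by linarith)
    have h10 : (1 - x)⁻¹ ≤ 1 + 2 * x := by
      rw [inv_le_comm₀ (by linarith) (by linarith)]
      rw [inv_le_iff_one_le_mul₀ (by linarith)]
      nlinarith
    linarith
  have h9 : 2 * (Real.log (q / 2) - x) ≤ Real.log ((q1 q : ℝ) * q2 q) := by linarith
  have h10 : NN d k / 2 * (2 * (Real.log (q / 2) - x)) ≤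
      NN d k / 2 * Real.log ((q1 q : ℝ) * q2 q) :=
    mul_le_mul_of_nonneg_left h9 (by linarith)
  have h11 : NN d k / 2 * (2 * (Real.log (q / 2) - x)) = NN d k * (Real.log (q / 2) - x) := by
    ring
  rw [h11] at h10
  exact h10.trans h2

end Pool.Agent.LIN
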