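import Pool.Agent.Lib_MP_2c424f_lin.F3c

/-!
# H30 F3d: typicality and pressure

`WW b w = ∑_{g : class !b → [q]} ∏_{v ∈ cls b} (x_v + w)`, `x_v` = number of colours available at `v` (may be `0`); written
with free values on the class `b`, divided by `q^{N/2}`.  `WW b 0 = ZZ` (`resum` with `φ = 1`), `WW` is monotone in `w`,
`WW b 1 ≤ ZZ (q+1)` (last colour on the class `b` only).
* `typ_expw`: `finner_cls` with `g c = ((x + w)/q) exp ((1-2x/q)^2)`, `x = q - card (image c)`: with `A = image c`,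
  `t = 1 - 2|A|/q`: `∑_c (q g(c))^(2d) ≤ ∑_{A ⊆ [q]} (|A| (q-|A|+w) exp (t²))^(2d) ≤ 2^q ((q²/4)(1 + 4ew/q))^(2d)`, because
  `|A| (q-|A|+w) ≤ (q²/4)(1-t²) + q w`, `(1-t²) exp (t²) ≤ 1`, `exp (t²) ≤ e`.  So the left side is at most
  `(2^q (q²/4)^(2d) (1+4ew/q)^(2d))^(N/4d) ≤ exp (N (log (q/2) + q log 2/(4d) + 6w/q))` (the factors `q^(N/2)` cancel).
* `typ_exp0`: `w = 0` and `resum` with `φ _ x = exp ((1 - 2x/q)^2)`.  `pressure_le`: `exp ≥ 1`.
* `pressure_ge`: odd sites coloured from `⌊q/2⌋` colours, even sites from the other `⌈q/2⌉`: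
  `ZZ ≥ (⌊q/2⌋ ⌈q/2⌉)^(N/2) ≥ ((q²-1)/4)^(N/2)`, `log (1 - 1/q²) ≥ -2/q²` for `q ≥ 2`
  (`Lib_MP_2c424f_lo/Pbd.lean` has a lower bound of this kind).
-/

set_option autoImplicit false

open Finset

namespace Pool.Agent.LIN

open Pool.Agent.LO

variable {d k q : ℕ}

theorem typ_exp0 (hd : 1 ≤ d) (hk : 2 ≤ k) (hq : 2 ≤ q) (b : Bool) :
    ∑ f ∈ prps d k q, Real.exp (∑ v ∈ cls b d k, (1 - 2 * xi f v) ^ 2) ≤
      Real.exp (NN d k * (Real.log (q / 2) + q * Real.log 2 / (4 * d))) := by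
  have hq0 : (0 : ℝ) < q := by
    have : 0 < q := by omega
    exact_mod_cast this
  have hqp : (0 : ℝ) < (q : ℝ) ^ (cls b d k).card := by positivity
  have h1 := resum (d := d) (k := k) (q := q) (by omega) b
    (fun _ x => Real.exp ((1 - 2 * ((x : ℝ) / q)) ^ 2))
  have h2 := typ_expw hd hk hq b 0 le_rfl zero_le_one
  have h3 : ∑ f ∈ prps d k q, Real.exp (∑ v ∈ cls b d k, (1 - 2 * xi f v) ^ 2) =
      ∑ f ∈ prps d k q, ∏ v ∈ cls b d k, Real.exp ((1 - 2 * ((av f v : ℝ) / q)) ^ 2) := by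
    apply sum_congr rfl
    intro f _
    rw [Real.exp_sum]
    rfl
  have h4 : ∑ f : Site d k → Fin q, ∏ v ∈ cls b d k,
      ((av f v : ℝ) * Real.exp ((1 - 2 * ((av f v : ℝ) / q)) ^ 2)) =
      (q : ℝ) ^ (cls b d k).card * ∑ f : Site d k → Fin q, ∏ v ∈ cls b d k,
        ((((av f v : ℝ) + 0) / q) * Real.exp ((1 - 2 * xi f v) ^ 2)) := by
    rw [mul_sum]
    apply sum_congr rfl
    intro f _
    rw [← prod_const, ← prod_mul_distrib]
    apply prod_congr rfl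
    intro v _
    unfold xi
    rw [add_zero]
    field_simp
  have h5 : ∑ f ∈ prps d k q, ∏ v ∈ cls b d k, Real.exp ((1 - 2 * ((av f v : ℝ) / q)) ^ 2) =
      ∑ f : Site d k → Fin q, ∏ v ∈ cls b d k,
        ((((av f v : ℝ) + 0) / q) * Real.exp ((1 - 2 * xi f v) ^ 2)) :=
    mul_left_cancel₀ hqp.ne' (h1.trans h4)
  rw [h3, h5]
  refine h2.trans (le_of_eq ?_)
  congr 2
  ring

theorem pressure_le (hd : 1 ≤ d) (hk : 2 ≤ k) (hq : 2 ≤ q) :
    Real.log (ZZ d k q) ≤ NN d k * (Real.log (q / 2) + q * Real.log 2 / (4 * d)) := by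
  have h0 : 0 < ZZ d k q := ZZ_pos (by omega) hq
  rw [← Real.log_exp (NN d k * (Real.log (q / 2) + q * Real.log 2 / (4 * d)))]
  apply Real.log_le_log h0
  refine le_trans ?_ (typ_exp0 hd hk hq true)
  unfold ZZ
  rw [card_eq_sum_ones]
  push_cast
  apply sum_le_sum
  intro f _
  apply Real.one_le_exp
  exact sum_nonneg fun v _ => sq_nonneg _

theorem typ_exp (hd : 1 ≤ d) (hk : 2 ≤ k) (hq : 2 ≤ q) (b : Bool) :
    ∑ f ∈ prps d k q, Real.exp (∑ v ∈ cls b d k, (1 - 2 * xi f v) ^ 2) ≤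
      ZZ d k q * Real.exp (NN d k * (q * Real.log 2 / (4 * d) + 1 / (q : ℝ) ^ 2)) := by
  have h0 : 0 < ZZ d k q := ZZ_pos (by omega) hq
  have h1 := pressure_ge hd hk hq
  refine (typ_exp0 hd hk hq b).trans ?_
  rw [← Real.exp_log h0, ← Real.exp_add]
  apply Real.exp_le_exp.mpr
  calc NN d k * (Real.log (q / 2) + q * Real.log 2 / (4 * d))
      = NN d k * (Real.log (q / 2) - 1 / (q : ℝ) ^ 2) +
          NN d k * (q * Real.log 2 / (4 * d) + 1 / (q : ℝ) ^ 2) := by ring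
    _ ≤ _ := by linarith

end Pool.Agent.LIN
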