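import Pool.Agent.Lib_MP_2c424f_lin.G1b

/-!
# H30 G1: the pressure has a limit

`glue`: split the proper colourings of the torus of side `m = 2^k` by their restriction `η` to the planes
`{x | ∃ i, x i = 0}` (at most `d m^(d-1)` sites, so at most `q^(d m^(d-1))` classes of sizes `g(η)`).
`2^d` colourings `f_τ` (`τ : Fin d → Bool`) of the same class give a proper colouring of the torus of side `2m`:
`f(X) = f_{τ}(X mod m)`, `τ_i = 1` iff `(X i).val ≥ m`; (an edge which leaves a tile ends at a site with a coordinate
`≡ 0 mod m`, where all `f_τ` agree), injective.  So `∑_η g(η)^(2^d) ≤ ZZ d (k+1) q`, and by the power mean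
`(∑_η g(η))^(2^d) ≤ (#η)^(2^d - 1) ∑_η g(η)^(2^d)`.
`plim`: `a_k = log ZZ / N - 2 C / 2^k` with `C = d log q` is nondecreasing for `k ≥ 2` and bounded (`pressure_le`).
-/
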