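import Pool.Agent.Lib_MP_2c424f_lin.F3

/-!
# H30 G1a: the pressure has a limit

`glue`: split the proper colourings of the torus of side `m = 2^k` by their restriction `η` to the planes
`{x | ∃ i, x i = 0}` (at most `d m^(d-1)` sites, so at most `q^(d m^(d-1))` classes of sizes `g(η)`).
`2^d` colourings `f_τ` (`τ : Fin d → Bool`) of the same class give a proper colouring of the torus of side `2m`:
`f(X) = f_{τ}(X mod m)`, `τ_i = 1` iff `(X i).val ≥ m`; (an edge which leaves a tile ends at a site with a coordinate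
`≡ 0 mod m`, where all `f_τ` agree), injective.  So `∑_η g(η)^(2^d) ≤ ZZ d (k+1) q`, and by the power mean
`(∑_η g(η))^(2^d) ≤ (#η)^(2^d - 1) ∑_η g(η)^(2^d)`.
`plim`: `a_k = log ZZ / N - 2 C / 2^k` with `C = d log q` is nondecreasing for `k ≥ 2` and bounded (`pressure_le`).
-/

set_option autoImplicit false

open Finset Filter

namespace Pool.Agent.LIN

open Pool.Agent.LO

variable {d k q : ℕ}

/-- reduction mod `2^k` -/
private def G1a_pi (k : ℕ) : ZMod (2 ^ (k + 1)) →+* ZMod (2 ^ k) :=
  ZMod.castHom (pow_dvd_pow 2 (Nat.le_succ k)) (ZMod (2 ^ k))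

private theorem G1a_pi_nat (k n : ℕ) : G1a_pi k (n : ZMod (2 ^ (k + 1))) = (n : ZMod (2 ^ k)) :=
  map_natCast _ _

/-- the tile of a site -/
private def G1a_tau (X : Site d (k + 1)) : Fin d → Bool := fun i => decide (2 ^ k ≤ (X i).val)

/-- the position in the tile -/
private def G1a_md (X : Site d (k + 1)) : Site d k := fun i => G1a_pi k (X i)

private theorem G1a_cross (a : ZMod (2 ^ (k + 1)))
    (h : decide (2 ^ k ≤ a.val) ≠ decide (2 ^ k ≤ (a + 1).val)) : G1a_pi k (a + 1) = 0 := by
  have ha : ((a.val : ℕ) : ZMod (2 ^ (k + 1))) = a := ZMod.natCast_zmod_val a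
  have hlt : a.val < 2 ^ (k + 1) := ZMod.val_lt a
  have h1 : a + 1 = ((a.val + 1 : ℕ) : ZMod (2 ^ (k + 1))) := by
    rw [Nat.cast_add, ha, Nat.cast_one]
  rcases Nat.lt_or_ge (a.val + 1) (2 ^ (k + 1)) with h2 | h2
  · have h3 : (a + 1).val = a.val + 1 := by
      rw [h1, ZMod.val_natCast_of_lt h2]
    rw [h3] at h
    have h4 : a.val + 1 = 2 ^ k := by
      by_contra hne
      apply h
      have : (2 ^ k ≤ a.val) ↔ (2 ^ k ≤ a.val + 1) := by omega
      exact decide_eq_decide.2 this
    rw [h1, G1a_pi_nat, h4, ZMod.natCast_self]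
  · have h3 : a.val + 1 = 2 ^ (k + 1) := by omega
    rw [h1, h3, ZMod.natCast_self, map_zero]

private theorem G1a_md_add (X : Site d (k + 1)) (σ : Stp d) :
    G1a_md (X + sv σ) = G1a_md X + sv σ := by
  obtain ⟨i, b⟩ := σ
  funext j
  have h1 : G1a_md (X + sv (i, b)) j = G1a_pi k (X j) + G1a_pi k ((sv (i, b) : Site d (k + 1)) j) :=
    map_add _ _ _
  rw [h1, Pi.add_apply]
  congr 1
  by_cases hj : j = i
  · subst hj
    simp only [sv, Pi.single_eq_same]
    cases b
    · rw [if_neg (by simp), if_neg (by simp), map_neg, map_one]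
    · rw [if_pos rfl, if_pos rfl, map_one]
  · simp only [sv, Pi.single_eq_of_ne hj, map_zero]

/-- a step upwards which leaves the tile ends at a plane -/
private theorem G1a_up (X : Site d (k + 1)) (i : Fin d)
    (h : G1a_tau X ≠ G1a_tau (X + sv (i, true))) : ∃ j, G1a_md (X + sv (i, true)) j = 0 := by
  refine ⟨i, ?_⟩
  have h1 : (X + (sv (i, true) : Site d (k + 1))) i = X i + 1 := by
    simp [sv]
  change G1a_pi k ((X + (sv (i, true) : Site d (k + 1))) i) = 0
  rw [h1]
  apply G1a_cross
  intro h2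
  apply h
  funext j
  unfold G1a_tau
  by_cases hj : j = i
  · subst hj
    rw [h1]
    exact h2
  · have h3 : (X + (sv (i, true) : Site d (k + 1))) j = X j := by
      simp [sv, Pi.single_eq_of_ne hj]
    rw [h3]

private theorem G1a_lift (τ : Fin d → Bool) (x : Site d k) :
    ∃ X : Site d (k + 1), G1a_tau X = τ ∧ G1a_md X = x := by
  refine ⟨fun i => (((x i).val + if τ i then 2 ^ k else 0 : ℕ) : ZMod (2 ^ (k + 1))), ?_, ?_⟩
  · funext i
    have h1 : (x i).val < 2 ^ k := ZMod.val_lt (x i)
    have h2 : (x i).val + (if τ i then 2 ^ k else 0) < 2 ^ (k + 1) := by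
      rw [pow_succ]
      split_ifs <;> omega
    change decide (2 ^ k ≤ ((((x i).val + if τ i then 2 ^ k else 0 : ℕ) :
      ZMod (2 ^ (k + 1)))).val) = τ i
    rw [ZMod.val_natCast_of_lt h2]
    cases h3 : τ i
    · simp only [Bool.false_eq_true, if_false, add_zero, decide_eq_false_iff_not, not_le]
      exact h1
    · simp
  · funext i
    change G1a_pi k ((((x i).val + if τ i then 2 ^ k else 0 : ℕ) : ZMod (2 ^ (k + 1)))) = x i
    rw [G1a_pi_nat, Nat.cast_add, ZMod.natCast_zmod_val]
    split_ifs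
    · rw [ZMod.natCast_self, add_zero]
    · rw [Nat.cast_zero, add_zero]

private theorem G1a_card_plane (i : Fin d) :
    ((univ : Finset (Site d k)).filter fun x => x i = 0).card = (2 ^ k) ^ (d - 1) := by
  classical
  have h1 : ((univ : Finset (Site d k)).filter fun x => x i = 0) =
      Fintype.piFinset fun j : Fin d => if j = i then ({0} : Finset (ZMod (2 ^ k))) else univ := by
    ext x
    rw [mem_filter, Fintype.mem_piFinset]
    constructor
    · rintro ⟨-, h⟩ j
      split_ifs with hj
      · rw [hj, h]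
        exact mem_singleton_self _
      · exact mem_univ _
    · intro h
      refine ⟨mem_univ _, ?_⟩
      have := h i
      rw [if_pos rfl] at this
      exact mem_singleton.1 this
  rw [h1, Fintype.card_piFinset, ← Finset.mul_prod_erase univ _ (mem_univ i), if_pos rfl,
    card_singleton, one_mul]
  have h2 : ∀ j ∈ univ.erase i, (if j = i then ({0} : Finset (ZMod (2 ^ k))) else univ).card =
      2 ^ k := by
    intro j hj
    rw [if_neg (Finset.ne_of_mem_erase hj), card_univ, ZMod.card]
  rw [Finset.prod_congr rfl h2, prod_const, card_erase_of_mem (mem_univ i), card_univ,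
    Fintype.card_fin]

theorem glue (hd : 1 ≤ d) (hk : 2 ≤ k) (hq : 2 ≤ q) :
    ZZ d k q ^ (2 ^ d) ≤ (q : ℝ) ^ (2 ^ d * d * (2 ^ k) ^ (d - 1)) * ZZ d (k + 1) q := by
  classical
  set Pl : Finset (Site d k) := univ.filter fun x => ∃ i, x i = 0 with hPl
  let res : (Site d k → Fin q) → (Pl → Fin q) := fun f x => f x.1
  let C : (Pl → Fin q) → Finset (Site d k → Fin q) := fun η =>
    (prps d k q).filter fun f => res f = η
  have hne : Nonempty (Pl → Fin q) := ⟨fun _ => ⟨0, by omega⟩⟩
  obtain ⟨η, -, hη⟩ := Finset.exists_max_image univ (fun η => (C η).card) univ_nonempty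
  have h1 : (prps d k q).card = ∑ η, (C η).card :=
    Finset.card_eq_sum_card_fiberwise (f := res) fun x _ => mem_univ _
  have h2 : (prps d k q).card ≤ Fintype.card (Pl → Fin q) * (C η).card := by
    rw [h1]
    have := Finset.sum_le_card_nsmul univ (fun η => (C η).card) ((C η).card)
      fun η' h => hη η' h
    rwa [card_univ, smul_eq_mul] at this
  -- the number of sites on the planes
  have h3 : Pl.card ≤ d * (2 ^ k) ^ (d - 1) := by
    have h4 : Pl ⊆ univ.biUnion fun i : Fin d =>
        (univ : Finset (Site d k)).filter fun x => x i = 0 := by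
      intro x hx
      obtain ⟨i, hi⟩ := (mem_filter.1 hx).2
      exact mem_biUnion.2 ⟨i, mem_univ _, mem_filter.2 ⟨mem_univ _, hi⟩⟩
    refine (card_le_card h4).trans (card_biUnion_le.trans ?_)
    rw [Finset.sum_congr rfl fun i _ => G1a_card_plane (k := k) i, sum_const, card_univ,
      Fintype.card_fin, smul_eq_mul]
  have h5 : (Fintype.card (Pl → Fin q) : ℝ) ≤ (q : ℝ) ^ (d * (2 ^ k) ^ (d - 1)) := by
    rw [Fintype.card_fun, Fintype.card_coe, Fintype.card_fin, Nat.cast_pow]
    exact pow_le_pow_right₀ (by exact_mod_cast (by omega : 1 ≤ q)) h3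
  -- gluing
  have h6 : (C η).card ^ (2 ^ d) ≤ (prps d (k + 1) q).card := by
    have h7 : (Fintype.piFinset fun _ : Fin d → Bool => C η).card = (C η).card ^ (2 ^ d) := by
      rw [Fintype.card_piFinset, Finset.prod_const, card_univ, Fintype.card_fun,
        Fintype.card_bool, Fintype.card_fin]
    rw [← h7]
    refine Finset.card_le_card_of_injOn
      (fun G (X : Site d (k + 1)) => G (G1a_tau X) (G1a_md X)) ?_ ?_
    · intro G hG
      have hG' : ∀ τ, G τ ∈ C η := Fintype.mem_piFinset.1 hG
      have hprp : ∀ τ, Prp (G τ) := fun τ => by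
        have := (mem_filter.1 (hG' τ)).1
        exact (mem_filter.1 this).2
      have hres : ∀ τ τ' (x : Site d k), (∃ i, x i = 0) → G τ x = G τ' x := by
        intro τ τ' x hx
        have hxP : x ∈ Pl := mem_filter.2 ⟨mem_univ _, hx⟩
        have e1 := congrFun (mem_filter.1 (hG' τ)).2 ⟨x, hxP⟩
        have e2 := congrFun (mem_filter.1 (hG' τ')).2 ⟨x, hxP⟩
        exact e1.trans e2.symm
      refine mem_filter.2 ⟨mem_univ _, ?_⟩
      rintro X ⟨i, b⟩
      change G (G1a_tau (X + sv (i, b))) (G1a_md (X + sv (i, b))) ≠ G (G1a_tau X) (G1a_md X)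
      cases b
      · -- a step downwards
        have hX : X + sv (i, false) + sv (i, true) = X := by
          rw [add_assoc, add_comm (sv (i, false))]
          have := sv_opp (k := k + 1) i true
          simp only [Bool.not_true] at this
          rw [this, add_zero]
        rw [G1a_md_add]
        by_cases ht : G1a_tau (X + sv (i, false)) = G1a_tau X
        · rw [ht]
          exact hprp _ _ _
        · have h8 := G1a_up (X + sv (i, false)) i (by rw [hX]; exact ht)
          rw [hX] at h8
          rw [hres (G1a_tau X) (G1a_tau (X + sv (i, false))) _ h8]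
          exact hprp _ _ _
      · by_cases ht : G1a_tau X = G1a_tau (X + sv (i, true))
        · rw [← ht, G1a_md_add]
          exact hprp _ _ _
        · have h8 := G1a_up X i ht
          rw [hres (G1a_tau (X + sv (i, true))) (G1a_tau X) _ h8, G1a_md_add]
          exact hprp _ _ _
    · intro G _ G' _ hGG
      funext τ x
      obtain ⟨X, hX1, hX2⟩ := G1a_lift τ x
      have := congrFun hGG X
      simp only [hX1, hX2] at this
      exact this
  -- conclusion
  have h9 : ZZ d k q ≤ (q : ℝ) ^ (d * (2 ^ k) ^ (d - 1)) * (C η).card := by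
    have h10 : ((prps d k q).card : ℝ) ≤ (Fintype.card (Pl → Fin q) : ℝ) * (C η).card := by
      exact_mod_cast h2
    exact h10.trans (mul_le_mul_of_nonneg_right h5 (Nat.cast_nonneg _))
  have h11 : (((C η).card : ℝ)) ^ (2 ^ d) ≤ ZZ d (k + 1) q := by
    have : (((C η).card ^ (2 ^ d) : ℕ) : ℝ) ≤ ((prps d (k + 1) q).card : ℝ) := by
      exact_mod_cast h6
    rw [Nat.cast_pow] at this
    exact this
  calc ZZ d k q ^ (2 ^ d) ≤ ((q : ℝ) ^ (d * (2 ^ k) ^ (d - 1)) * (C η).card) ^ (2 ^ d) :=
        pow_le_pow_left₀ (Nat.cast_nonneg _) h9 _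
    _ = (q : ℝ) ^ (2 ^ d * d * (2 ^ k) ^ (d - 1)) * ((C η).card : ℝ) ^ (2 ^ d) := by
        rw [mul_pow, ← pow_mul]
        congr 2
        ring
    _ ≤ (q : ℝ) ^ (2 ^ d * d * (2 ^ k) ^ (d - 1)) * ZZ d (k + 1) q :=
        mul_le_mul_of_nonneg_left h11 (by positivity)

end Pool.Agent.LIN
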