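import Pool.Agent.Lib_MP_2c424f_lin.G1a

/-!
# H30 G1b: the pressure has a limit

`glue`: split the proper colourings of the torus of side `m = 2^k` by their restriction `η` to the planes
`{x | ∃ i, x i = 0}` (at most `d m^(d-1)` sites, so at most `q^(d m^(d-1))` classes of sizes `g(η)`).
`2^d` colourings `f_τ` (`τ : Fin d → Bool`) of the same class give a proper colouring of the torus of side `2m`:
`f(X) = f_{τ}(X mod m)`, `τ_i = 1` iff `(X i).val ≥ m`; (an edge which leaves a tile ends at a site with a coordinate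
`≡ 0 mod m`, where all `f_τ` agree), injective.  So `∑_η g(η)^(2^d) ≤ ZZ d (k+1) q`, and by the power mean
`(∑_η g(η))^(2^d) ≤ (#η)^(2^d - 1) ∑_η g(η)^(2^d)`.
`plim`: `a_k = log ZZ / N - 2 C / 2^k` with `C = d log q` is nondecreasing for `k ≥ 2` and bounded (`pressure_le`).
-/

set_option autoImplicit false

open Finset Filter

namespace Pool.Agent.LIN

open Pool.Agent.LO

variable {d k q : ℕ}

theorem plim (hd : 1 ≤ d) (hq : 2 ≤ q) :
    ∃ L : ℝ, Tendsto (fun k => Real.log (ZZ d k q) / NN d k) atTop (nhds L) := by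
  have hq1 : (1 : ℝ) ≤ q := by exact_mod_cast (by omega : 1 ≤ q)
  have hlq : 0 ≤ Real.log q := Real.log_nonneg hq1
  have hNN : ∀ k, 0 < NN d k := fun k => by unfold NN; positivity
  have hstep : ∀ k, 2 ≤ k → Real.log (ZZ d k q) / NN d k ≤
      Real.log (ZZ d (k + 1) q) / NN d (k + 1) + d * Real.log q / 2 ^ k := by
    intro k hk
    have h1 := glue (q := q) hd hk hq
    have hZ1 : 0 < ZZ d k q := ZZ_pos (by omega) hq
    have hZ2 : 0 < ZZ d (k + 1) q := ZZ_pos (by omega) hq
    have h2 := Real.log_le_log (pow_pos hZ1 _) h1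
    rw [Real.log_pow, Real.log_mul (pow_pos (by linarith) _).ne' hZ2.ne', Real.log_pow] at h2
    push_cast at h2
    have h3 : NN d (k + 1) = 2 ^ d * NN d k := by
      unfold NN
      rw [pow_succ, mul_pow]; ring
    have h4 : NN d k = ((2 : ℝ) ^ k) ^ (d - 1) * 2 ^ k := by
      unfold NN
      rw [← pow_succ, Nat.sub_add_cancel hd]
    have h5 : (0 : ℝ) < 2 ^ k := by positivity
    have h6 : (0 : ℝ) < 2 ^ d := by positivity
    have h7 : (0 : ℝ) < ((2 : ℝ) ^ k) ^ (d - 1) := by positivity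
    rw [h3, h4, div_le_iff₀ (mul_pos h7 h5)]
    have h8 : (Real.log (ZZ d (k + 1) q) / (2 ^ d * (((2 : ℝ) ^ k) ^ (d - 1) * 2 ^ k)) +
        d * Real.log q / 2 ^ k) * (((2 : ℝ) ^ k) ^ (d - 1) * 2 ^ k) =
        (2 ^ d * d * ((2 : ℝ) ^ k) ^ (d - 1) * Real.log q + Real.log (ZZ d (k + 1) q)) /
          2 ^ d := by
      field_simp
      ring
    rw [h8, le_div_iff₀ h6]
    linarith
  have hmono : Monotone fun k : ℕ => Real.log (ZZ d (k + 2) q) / NN d (k + 2) -
      2 * (d * Real.log q) / 2 ^ (k + 2) := by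
    apply monotone_nat_of_le_succ
    intro k
    have h1 := hstep (k + 2) (by omega)
    have h2 : 2 * (d * Real.log q) / (2 : ℝ) ^ (k + 1 + 2) = d * Real.log q / 2 ^ (k + 2) := by
      rw [show k + 1 + 2 = (k + 2) + 1 by omega, pow_succ]
      field_simp
    have h3 : 2 * (d * Real.log q) / (2 : ℝ) ^ (k + 2) =
        d * Real.log q / 2 ^ (k + 2) + d * Real.log q / 2 ^ (k + 2) := by ring
    change _ - _ ≤ Real.log (ZZ d (k + 1 + 2) q) / NN d (k + 1 + 2) - _
    rw [h2, h3, show k + 1 + 2 = (k + 2) + 1 by omega]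
    linarith
  have hbdd : BddAbove (Set.range fun k : ℕ => Real.log (ZZ d (k + 2) q) / NN d (k + 2) -
      2 * (d * Real.log q) / 2 ^ (k + 2)) := by
    refine ⟨Real.log (q / 2) + q * Real.log 2 / (4 * d), ?_⟩
    rintro _ ⟨k, rfl⟩
    have h1 := pressure_le (k := k + 2) hd (by omega) hq
    have h2 : Real.log (ZZ d (k + 2) q) / NN d (k + 2) ≤
        Real.log (q / 2) + q * Real.log 2 / (4 * d) := by
      rw [div_le_iff₀ (hNN _), mul_comm]
      exact h1
    have h3 : 0 ≤ 2 * (d * Real.log q) / (2 : ℝ) ^ (k + 2) := by positivity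
    change _ - _ ≤ _
    linarith
  have hlim := tendsto_atTop_ciSup hmono hbdd
  have hzero : Tendsto (fun k : ℕ => 2 * (d * Real.log q) / (2 : ℝ) ^ (k + 2)) atTop (nhds 0) := by
    have h1 : Tendsto (fun k : ℕ => (2 : ℝ) ^ (k + 2)) atTop atTop :=
      (tendsto_pow_atTop_atTop_of_one_lt one_lt_two).comp (tendsto_add_atTop_nat 2)
    exact h1.const_div_atTop _
  have hsum := hlim.add hzero
  refine ⟨_, (tendsto_add_atTop_iff_nat 2).1 (hsum.congr fun k => ?_)⟩
  ring

end Pool.Agent.LIN
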