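import Pool.Agent.Lib_MP_2c424f_lin.F3

/-!
# H30 G3a: adding a colour

* `extra`: `resum` with `φ _ x = 1 + 1/x`: `≤ WW b 1 ≤ ZZ (q+1)` (for `x = 0` the term `x (1 + 1/x)` is `0 ≤ x + 1`).
* `mean_dev`: Jensen and `typ_exp`.
* `ratio_w`: let `⟨·⟩` be the mean with the weights `∏ ((x_v + w)/q)` (total mass `WW b w > 0`).
  `WW b 1/WW b w = ⟨∏ (x_v+1)/(x_v+w)⟩ ≥ exp ⟨∑ log ((x_v+1)/(x_v+w))⟩` (Jensen; for `w = 0` a configuration with some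
  `x_v = 0` has weight `0`: use `log` only on the support, or prove the case `w > 0` and let `w → 0`; or
  `∏ a_v ≥ W exp (⟨∑ ..⟩)` by the weighted inequality `y ≥ e^m (1 + log y - m)`).  `log ((x+1)/(x+w)) ≥ (1-w)/(x+1)` and
  `1/(x+1) ≥ 4/q - 4(x+1)/q²`, so with `n = N/2`, `ξ = x/q`:
  `∑ log ≥ (1-w) (4n/q - (4/q) ∑ ξ_v - 4n/q²)`, `⟨∑ (ξ_v - 1/2)⟩ ≤ (1/2) (n ⟨∑ (1-2ξ_v)²⟩)^(1/2)` and by Jensen, `typ_expw`,
  `WW b w ≥ ZZ` and `pressure_ge`: `⟨∑ (1-2ξ_v)²⟩ ≤ N (q log 2/(4d) + 6w/q + 1/q²) ≤ 7 δ N = 14 δ n`.  So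
  `⟨∑ log⟩ ≥ (1-w)(N/q)(1 - √(14δ) - 2/q)`.
* `ratio_ge`: `w = 0`.
-/

set_option autoImplicit false

open Finset

namespace Pool.Agent.LIN

open Pool.Agent.LO

variable {d k q : ℕ}

theorem extra (hk : 2 ≤ k) (hq : 2 ≤ q) (b : Bool) :
    ∑ f ∈ prps d k q, ∏ v ∈ cls b d k, (1 + 1 / (av f v : ℝ)) ≤ ZZ d k (q + 1) := by
  have hq0 : (0 : ℝ) < q := by
    have : 0 < q := by omega
    exact_mod_cast this
  refine le_trans ?_ (WW_one (d := d) (by omega : 1 ≤ k) (by omega : 1 ≤ q) b)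
  have h1 := resum (d := d) (q := q) (by omega : 1 ≤ k) b (fun _ x => 1 + 1 / (x : ℝ))
  have hpos : (0 : ℝ) < (q : ℝ) ^ (cls b d k).card := pow_pos hq0 _
  refine le_of_mul_le_mul_left ?_ hpos
  rw [h1]
  unfold WW
  rw [mul_sum]
  refine sum_le_sum fun f _ => ?_
  rw [← prod_const, ← prod_mul_distrib]
  refine prod_le_prod (fun v _ => by positivity) fun v _ => ?_
  rw [mul_div_cancel₀ _ hq0.ne']
  rcases Nat.eq_zero_or_pos (av f v) with h0 | h0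
  · rw [h0]
    norm_num
  · have h2 : (0 : ℝ) < av f v := by exact_mod_cast h0
    rw [mul_add, mul_one, mul_one_div_cancel h2.ne']

/-- mean square deviation on a class -/
theorem mean_dev (hd : 1 ≤ d) (hk : 2 ≤ k) (hq : 2 ≤ q) (b : Bool) :
    ∑ f ∈ prps d k q, ∑ v ∈ cls b d k, (1 - 2 * xi f v) ^ 2 ≤
      ZZ d k q * (NN d k * (q * Real.log 2 / (4 * d) + 1 / (q : ℝ) ^ 2)) := by
  have h1 := typ_exp hd hk hq b
  set m : ℝ := NN d k * (q * Real.log 2 / (4 * d) + 1 / (q : ℝ) ^ 2) with hm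
  have h2 : ∀ f : Site d k → Fin q,
      Real.exp m * (1 + ((∑ v ∈ cls b d k, (1 - 2 * xi f v) ^ 2) - m)) ≤
        Real.exp (∑ v ∈ cls b d k, (1 - 2 * xi f v) ^ 2) := by
    intro f
    have h3 := Real.add_one_le_exp ((∑ v ∈ cls b d k, (1 - 2 * xi f v) ^ 2) - m)
    calc Real.exp m * (1 + ((∑ v ∈ cls b d k, (1 - 2 * xi f v) ^ 2) - m))
        ≤ Real.exp m * Real.exp ((∑ v ∈ cls b d k, (1 - 2 * xi f v) ^ 2) - m) :=
          mul_le_mul_of_nonneg_left (by linarith) (Real.exp_pos m).le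
      _ = _ := by rw [← Real.exp_add]; congr 1; ring
  have h4 := (sum_le_sum fun f (_ : f ∈ prps d k q) => h2 f).trans h1
  rw [← mul_sum, sum_add_distrib, sum_sub_distrib, sum_const, sum_const, nsmul_eq_mul, nsmul_eq_mul,
    mul_comm (ZZ d k q) (Real.exp m)] at h4
  have h5 := le_of_mul_le_mul_left h4 (Real.exp_pos m)
  have h6 : ZZ d k q = ((prps d k q).card : ℝ) := rfl
  rw [h6] at h5 ⊢
  linarith

end Pool.Agent.LIN
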