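import Pool.Agent.Lib_MP_2c424f_lin.G1
import Pool.Agent.Lib_MP_2c424f_lin.G3
import Pool.Agent.Lib_MP_2c424f_lin.Ev

/-!
# H30 G5: most numbers of colours are good

`p(q) = lim log ZZ / N` (`plim`); `log (q/2) - 1/q² ≤ p(q) ≤ log (q/2) + q log 2/(4d)` (`pressure_ge`, `pressure_le`).  Let
`δ₁ > 0` be small (depending on `δ, η`), `2Q ≤ δ₁ d`, `Q ≥ 1/δ₁`.  For `q ∈ [Q, 2Q)`:
* `p(q+1) - p(q) ≥ (1/q)(1 - √(14δ₁) - 2/q)` (`ratio_ge`);
* if `Gd δ d q` fails then `log ZZ(q+1) > log ZZ(q) + (1+δ)/q N` for infinitely many `k`, so `p(q+1) - p(q) ≥ (1+δ)/q`.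
`∑_{q=Q}^{2Q-1} (p(q+1) - p(q)) = p(2Q) - p(Q) ≤ log 2 + 2 Q log 2/(4d) + 1/Q²`, `∑_{q=Q}^{2Q-1} 1/q ≥ log 2`
(`1/q ≥ log (1 + 1/q)`, telescoping).  So `#bad · δ/(2Q) ≤ √(14δ₁) + 2/Q + Q/(2d) + 1/Q²` and `#bad ≤ η Q` for small `δ₁`.
-/

set_option autoImplicit false

open Finset Filter

namespace Pool.Agent.LIN

open Pool.Agent.LO

private theorem G5_sum (p : ℕ → ℝ) (Q : ℕ) :
    ∑ q ∈ Finset.Ico Q (2 * Q), (p (q + 1) - p q) = p (2 * Q) - p Q := by
  rw [Finset.sum_Ico_eq_sum_range, show 2 * Q - Q = Q by omega, two_mul]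
  exact Finset.sum_range_sub (fun i => p (Q + i)) Q

private theorem G5_inv (Q : ℕ) (hQ : 1 ≤ Q) :
    Real.log 2 ≤ ∑ q ∈ Finset.Ico Q (2 * Q), 1 / (q : ℝ) ∧
      ∑ q ∈ Finset.Ico Q (2 * Q), 1 / (q : ℝ) ≤ 1 := by
  have hQ0 : (0 : ℝ) < Q := by exact_mod_cast hQ
  constructor
  · have h1 : Real.log 2 = ∑ q ∈ Finset.Ico Q (2 * Q), (Real.log ((q + 1 : ℕ) : ℝ) - Real.log q) := by
      rw [G5_sum (fun q : ℕ => Real.log (q : ℝ)) Q]
      push_cast
      rw [Real.log_mul two_ne_zero hQ0.ne']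
      ring
    rw [h1]
    refine Finset.sum_le_sum fun q hq => ?_
    have hq1 : Q ≤ q := (Finset.mem_Ico.1 hq).1
    have hq0 : (0 : ℝ) < q := hQ0.trans_le (by exact_mod_cast hq1)
    rw [← Real.log_div (by positivity) hq0.ne']
    refine (Real.log_le_sub_one_of_pos (by positivity)).trans_eq ?_
    push_cast
    field_simp
    ring
  · calc ∑ q ∈ Finset.Ico Q (2 * Q), 1 / (q : ℝ) ≤ ∑ q ∈ Finset.Ico Q (2 * Q), 1 / (Q : ℝ) := by
          refine Finset.sum_le_sum fun q hq => ?_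
          exact one_div_le_one_div_of_le hQ0 (by exact_mod_cast (Finset.mem_Ico.1 hq).1)
      _ = 1 := by
          rw [Finset.sum_const, Nat.card_Ico, show 2 * Q - Q = Q by omega, nsmul_eq_mul]
          field_simp

open scoped Classical in
theorem good (δ η : ℝ) (hδ : 0 < δ) (hη : 0 < η) : ∃ c C : ℝ, 0 < c ∧ 0 < C ∧ ∀ d Q : ℕ, C ≤ Q → (Q : ℝ) ≤ c * d →
    (((Finset.Ico Q (2 * Q)).filter fun q => ¬ Gd δ d q).card : ℝ) ≤ η * Q := by
  obtain ⟨ε, hε, hε'⟩ : ∃ ε : ℝ, 0 < ε ∧ 2 * ε = δ * η / 2 := ⟨δ * η / 4, by positivity, by ring⟩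
  obtain ⟨δ₁, h1, h2, h3, h4, h5⟩ : ∃ δ₁ : ℝ, 0 < δ₁ ∧ δ₁ ≤ 1 / 2 ∧ δ₁ ≤ δ ∧
      14 * δ₁ ≤ ε ^ 2 ∧ 4 * δ₁ ≤ ε := by
    refine ⟨min (min (1 / 2) δ) (min (ε ^ 2 / 14) (ε / 4)), by positivity, ?_, ?_, ?_, ?_⟩
    · exact (min_le_left _ _).trans (min_le_left _ _)
    · exact (min_le_left _ _).trans (min_le_right _ _)
    · have := (min_le_right (min (1 / 2) δ) (min (ε ^ 2 / 14) (ε / 4))).trans (min_le_left _ _)
      linarith
    · have := (min_le_right (min (1 / 2) δ) (min (ε ^ 2 / 14) (ε / 4))).trans (min_le_right _ _)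
      linarith
  have hsq : Real.sqrt (14 * δ₁) ≤ ε := by
    rw [show ε = Real.sqrt (ε ^ 2) from (Real.sqrt_sq hε.le).symm]
    exact Real.sqrt_le_sqrt h4
  refine ⟨δ₁ / 2, max (1 / δ₁) 2, by positivity, by positivity, fun d Q hC hQd => ?_⟩
  have hQ1 : 1 / δ₁ ≤ Q := (le_max_left _ _).trans hC
  have hQ2' : (2 : ℝ) ≤ Q := (le_max_right _ _).trans hC
  have hQ2 : 2 ≤ Q := by exact_mod_cast hQ2'
  have hQ0 : (0 : ℝ) < Q := by linarith
  have hd0 : (0 : ℝ) < d := by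
    by_contra hcon
    have h6 : (d : ℝ) = 0 := le_antisymm (not_lt.1 hcon) (Nat.cast_nonneg d)
    rw [h6, mul_zero] at hQd
    linarith
  have hd : 1 ≤ d := by exact_mod_cast hd0
  have h2Q : 2 * (Q : ℝ) ≤ δ₁ * d := by linarith
  have hinvQ : 1 / (Q : ℝ) ≤ δ₁ := by
    rw [div_le_iff₀ hQ0]
    rw [div_le_iff₀ h1] at hQ1
    linarith
  -- the pressure
  have hp : ∀ q : ℕ, ∃ L : ℝ, 2 ≤ q → Tendsto (fun k => Real.log (ZZ d k q) / NN d k) atTop (nhds L) := by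
    intro q
    by_cases hq : 2 ≤ q
    · obtain ⟨L, hL⟩ := plim (d := d) (q := q) hd hq
      exact ⟨L, fun _ => hL⟩
    · exact ⟨0, fun h => absurd h hq⟩
  choose p hp using hp
  have hN : ∀ k, 0 < NN d k := fun k => by unfold NN; positivity
  have hub : p (2 * Q) ≤ Real.log (Q : ℝ) + Q * Real.log 2 / (2 * d) := by
    refine le_of_tendsto (hp (2 * Q) (by omega)) ?_
    filter_upwards [eventually_ge_atTop 2] with k hk
    rw [div_le_iff₀ (hN k)]
    have h6 := pressure_le (d := d) (k := k) (q := 2 * Q) hd hk (by omega)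
    refine h6.trans_eq ?_
    push_cast
    rw [mul_div_cancel_left₀ _ two_ne_zero]
    ring
  have hlb : Real.log ((Q : ℝ) / 2) - 1 / (Q : ℝ) ^ 2 ≤ p Q := by
    refine ge_of_tendsto (hp Q hQ2) ?_
    filter_upwards [eventually_ge_atTop 2] with k hk
    rw [le_div_iff₀ (hN k)]
    have h6 := pressure_ge (d := d) (k := k) (q := Q) hd hk hQ2
    linarith
  have htot : p (2 * Q) - p Q ≤ Real.log 2 + 2 * δ₁ := by
    have h6 : Real.log ((Q : ℝ) / 2) = Real.log Q - Real.log 2 := Real.log_div hQ0.ne' two_ne_zero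
    have h7 : (Q : ℝ) * Real.log 2 / (2 * d) ≤ δ₁ := by
      rw [div_le_iff₀ (by positivity)]
      have h8 : Real.log 2 ≤ 1 := by
        have := Real.log_two_lt_d9
        linarith
      nlinarith
    have h8 : 1 / (Q : ℝ) ^ 2 ≤ δ₁ := by
      refine le_trans ?_ hinvQ
      exact one_div_le_one_div_of_le hQ0 (by nlinarith)
    linarith
  set s : ℝ := Real.sqrt (14 * δ₁) + 2 / Q with hs
  have hs0 : 0 ≤ s := by positivity
  -- one step
  have hstep : ∀ q ∈ Finset.Ico Q (2 * Q),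
      (1 - s) * (1 / (q : ℝ)) + (if ¬ Gd δ d q then δ / (2 * Q) else 0) ≤ p (q + 1) - p q := by
    intro q hq
    obtain ⟨hqQ, hqQ'⟩ := Finset.mem_Ico.1 hq
    have hqQr : (Q : ℝ) ≤ q := by exact_mod_cast hqQ
    have hqQr' : (q : ℝ) ≤ 2 * Q := by exact_mod_cast hqQ'.le
    have hq0 : (0 : ℝ) < q := hQ0.trans_le hqQr
    have hlim : Tendsto (fun k => Real.log (ZZ d k (q + 1)) / NN d k - Real.log (ZZ d k q) / NN d k)
        atTop (nhds (p (q + 1) - p q)) := (hp (q + 1) (by omega)).sub (hp q (by omega))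
    by_cases hG : Gd δ d q
    · rw [if_neg (not_not.2 hG), add_zero]
      refine ge_of_tendsto hlim ?_
      filter_upwards [eventually_ge_atTop 2] with k hk
      have h6 := ratio_ge (d := d) (k := k) (q := q) h1 h2 (hQ1.trans hqQr) (hqQr'.trans h2Q) hk
      rw [← sub_div, le_div_iff₀ (hN k)]
      have h7 : (1 - s) * (1 / (q : ℝ)) * NN d k ≤
          NN d k / q * (1 - Real.sqrt (14 * δ₁) - 2 / q) := by
        have h8 : (2 : ℝ) / q ≤ 2 / Q := div_le_div_of_nonneg_left (by norm_num) hQ0 hqQr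
        have h9 : 0 ≤ NN d k / q := div_nonneg (hN k).le hq0.le
        have h10 : (1 - s) * (1 / (q : ℝ)) * NN d k = NN d k / q * (1 - s) := by ring
        rw [h10]
        refine mul_le_mul_of_nonneg_left ?_ h9
        rw [hs]
        linarith
      linarith
    · rw [if_pos hG]
      have hfr : ¬ ∀ᶠ k : ℕ in atTop,
          Real.log (ZZ d k (q + 1)) ≤ Real.log (ZZ d k q) + (1 + δ) / q * NN d k := by
        intro hcon
        refine hG ⟨hδ, ?_, ?_, hcon⟩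
        · exact (one_div_le_one_div_of_le h1 h3).trans (hQ1.trans hqQr)
        · exact (hqQr'.trans h2Q).trans (mul_le_mul_of_nonneg_right h3 hd0.le)
      have h6 : (1 + δ) / q ≤ p (q + 1) - p q := by
        by_contra hcon
        rw [not_le] at hcon
        apply hfr
        filter_upwards [hlim.eventually_lt_const hcon] with k hk
        rw [← sub_div, div_lt_iff₀ (hN k)] at hk
        linarith
      have h7 : (1 - s) * (1 / (q : ℝ)) + δ / (2 * Q) ≤ (1 + δ) / q := by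
        have h8 : δ / (2 * Q) ≤ δ / q := div_le_div_of_nonneg_left hδ.le hq0 hqQr'
        have h9 : 0 ≤ s * (1 / (q : ℝ)) := by positivity
        have h10 : (1 + δ) / (q : ℝ) = 1 / q + δ / q := add_div _ _ _
        have h11 : (1 - s) * (1 / (q : ℝ)) = 1 / q - s * (1 / (q : ℝ)) := by ring
        linarith
      linarith
  have hsum := Finset.sum_le_sum hstep
  rw [G5_sum, Finset.sum_add_distrib, ← Finset.mul_sum, ← Finset.sum_filter, Finset.sum_const,
    nsmul_eq_mul] at hsum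
  obtain ⟨hi1, hi2⟩ := G5_inv Q (by omega)
  set I : ℝ := ∑ q ∈ Finset.Ico Q (2 * Q), 1 / (q : ℝ) with hI
  have h6 : s * I ≤ s := by
    calc s * I ≤ s * 1 := mul_le_mul_of_nonneg_left hi2 hs0
      _ = s := mul_one s
  have h7 : s ≤ ε + 2 * δ₁ := by
    have h8 : (2 : ℝ) / Q = 2 * (1 / Q) := by ring
    rw [hs, h8]
    linarith
  have h8 : (((Finset.Ico Q (2 * Q)).filter fun q => ¬ Gd δ d q).card : ℝ) * (δ / (2 * Q)) ≤
      2 * ε := by
    have h9 : (1 - s) * I = I - s * I := by ring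
    linarith
  rw [hε'] at h8
  have h9 : 0 < δ / (2 * (Q : ℝ)) := by positivity
  refine le_of_mul_le_mul_right (h8.trans_eq ?_) h9
  field_simp

end Pool.Agent.LIN
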