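import Pool.Agent.Lib_MP_2c424f_lin.L0b

/-!
# H30 L0: the six-step spheres

* `UU_inj`: for `k ≥ 2` the map `s ↦ x + ∑ sv (s j)` is injective on `∏_j grp d j`: the coordinates of the sum in the
  directions of group `j` are those of `sv (s j)` (`sv_inj`).  So `card (UU x) = T6 d` and
* `Av_pi`: unfold `Av`, iterated sums = sum over `Fintype.piFinset` (`Fin.consEquiv` / `Finset.sum_comm`, or prove it
  for `n` groups by induction).  `Av_eq`: `Av g x = (∑_{v ∈ UU x} g v)/T6 d`.
* `UU_cls`: six steps preserve the class.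
* sizes: `(grp d j).card = 2 #{i < d : i % 6 = j} ≥ (d-5)/3`, so `2d/7 ≤ card ≤ 2d` for `d ≥ 35`,
  `(2d/7)^6 ≤ T6 d ≤ (2d)^6`.
* linearity, monotonicity, translation: `Av` commutes with `PP`, `AA j`, translations.
* `sum_AA`: `∑_x AA j g x = ∑_x g x` (if the group is not empty), so `∑_x Av g x = ∑_x g x`.
-/
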