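import Pool.Agent.Lib_MP_2c424f_lin.F2

/-!
# H30 L0a: the six-step spheres

* `UU_inj`: for `k ≥ 2` the map `s ↦ x + ∑ sv (s j)` is injective on `∏_j grp d j`: the coordinates of the sum in the
  directions of group `j` are those of `sv (s j)` (`sv_inj`).  So `card (UU x) = T6 d` and
* `Av_pi`: unfold `Av`, iterated sums = sum over `Fintype.piFinset` (`Fin.consEquiv` / `Finset.sum_comm`, or prove it
  for `n` groups by induction).  `Av_eq`: `Av g x = (∑_{v ∈ UU x} g v)/T6 d`.
* `UU_cls`: six steps preserve the class.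
* sizes: `(grp d j).card = 2 #{i < d : i % 6 = j} ≥ (d-5)/3`, so `2d/7 ≤ card ≤ 2d` for `d ≥ 35`,
  `(2d/7)^6 ≤ T6 d ≤ (2d)^6`.
* linearity, monotonicity, translation: `Av` commutes with `PP`, `AA j`, translations.
* `sum_AA`: `∑_x AA j g x = ∑_x g x` (if the group is not empty), so `∑_x Av g x = ∑_x g x`.
-/

set_option autoImplicit false

open Finset

namespace Pool.Agent.LIN

open Pool.Agent.LO

variable {d k q : ℕ}

private theorem L0a_grp (j : Fin 6) :
    (grp d j).card = (univ.filter fun i : Fin d => i.val % 6 = j.val).card * 2 := by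
  have h : grp d j = (univ.filter fun i : Fin d => i.val % 6 = j.val) ×ˢ (univ : Finset Bool) := by
    ext σ
    simp [grp, mem_product]
  rw [h, card_product, card_univ, Fintype.card_bool]

private theorem L0a_count (hd : 35 ≤ d) (j : Fin 6) :
    (d - j.val + 5) / 6 ≤ (univ.filter fun i : Fin d => i.val % 6 = j.val).card := by
  have hj := j.isLt
  have hlt : ∀ a, a < (d - j.val + 5) / 6 → 6 * a + j.val < d := by
    intro a ha
    omega
  have h := card_le_card_of_injOn (s := range ((d - j.val + 5) / 6))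
    (t := univ.filter fun i : Fin d => i.val % 6 = j.val)
    (fun a => if h : 6 * a + j.val < d then (⟨6 * a + j.val, h⟩ : Fin d) else ⟨0, by omega⟩)
    (by
      intro a ha
      have h1 := hlt a (mem_range.1 (mem_coe.1 ha))
      simp only [coe_filter, mem_univ, true_and, Set.mem_ofPred_eq, dif_pos h1]
      omega)
    (by
      intro a ha b hb hab
      have h1 := hlt a (mem_range.1 (mem_coe.1 ha))
      have h2 := hlt b (mem_range.1 (mem_coe.1 hb))
      simp only [dif_pos h1, dif_pos h2, Fin.mk.injEq] at hab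
      omega)
  rwa [card_range] at h

private theorem L0a_cons {n : ℕ} {α : Type*} [DecidableEq α] (s : Fin (n + 1) → Finset α)
    (F : (Fin (n + 1) → α) → ℝ) :
    ∑ f ∈ Fintype.piFinset s, F f =
      ∑ a ∈ s 0, ∑ f ∈ Fintype.piFinset (fun j => s j.succ), F (Fin.cons a f) := by
  rw [← Finset.sum_product']
  refine Finset.sum_nbij' (fun f => (f 0, fun j => f j.succ)) (fun p => Fin.cons p.1 p.2)
    ?_ ?_ ?_ ?_ ?_
  · intro f hf
    rw [Fintype.mem_piFinset] at hf
    rw [mem_product, Fintype.mem_piFinset]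
    exact ⟨hf 0, fun j => hf j.succ⟩
  · rintro ⟨a, f⟩ hf
    rw [mem_product, Fintype.mem_piFinset] at hf
    rw [Fintype.mem_piFinset]
    intro j
    refine Fin.cases ?_ (fun i => ?_) j
    · simpa using hf.1
    · simpa using hf.2 i
  · intro f _
    exact Fin.cons_self_tail f
  · rintro ⟨a, f⟩ _
    simp
  · intro f _
    congr 1
    exact (Fin.cons_self_tail f).symm

private theorem L0a_sum6 {α : Type*} [DecidableEq α] (s : Fin 6 → Finset α)
    (F : (Fin 6 → α) → ℝ) :
    ∑ f ∈ Fintype.piFinset s, F f =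
      ∑ a0 ∈ s 0, ∑ a1 ∈ s 1, ∑ a2 ∈ s 2, ∑ a3 ∈ s 3, ∑ a4 ∈ s 4, ∑ a5 ∈ s 5,
        F ![a0, a1, a2, a3, a4, a5] := by
  rw [L0a_cons]
  refine sum_congr rfl fun a0 _ => ?_
  rw [L0a_cons]
  refine sum_congr rfl fun a1 _ => ?_
  rw [L0a_cons]
  refine sum_congr rfl fun a2 _ => ?_
  rw [L0a_cons]
  refine sum_congr rfl fun a3 _ => ?_
  rw [L0a_cons]
  refine sum_congr rfl fun a4 _ => ?_
  rw [L0a_cons]
  refine sum_congr rfl fun a5 _ => ?_
  rw [Fintype.piFinset_of_isEmpty, Fintype.sum_unique]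
  congr 1

private theorem L0a_at {s : Fin 6 → Stp d} (hs : ∀ j, s j ∈ grp d j) (j : Fin 6) (i : Fin d) :
    (sv (s j) : Site d k) i = if i.val % 6 = j.val then (∑ j', (sv (s j') : Site d k)) i else 0 := by
  have h0 : ∀ j' : Fin 6, i.val % 6 ≠ j'.val → (sv (s j') : Site d k) i = 0 := by
    intro j' h
    have h1 := hs j'
    simp only [grp, mem_filter, mem_univ, true_and] at h1
    unfold sv
    rw [Pi.single_eq_of_ne]
    rintro rfl
    exact h h1
  by_cases h : i.val % 6 = j.val
  · rw [if_pos h, Finset.sum_apply, Finset.sum_eq_single j]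
    · intro j' _ hj'
      apply h0
      intro h2
      exact hj' (Fin.ext (h2.symm.trans h))
    · intro h2
      exact absurd (mem_univ j) h2
  · rw [if_neg h, h0 j h]

private theorem L0a_inj (hk : 2 ≤ k) (x : Site d k) :
    Set.InjOn (fun s : Fin 6 → Stp d => x + ∑ j, (sv (s j) : Site d k))
      (Fintype.piFinset fun j => grp d j : Finset (Fin 6 → Stp d)) := by
  intro s hs t ht hst
  rw [mem_coe, Fintype.mem_piFinset] at hs ht
  have h1 : ∑ j, (sv (s j) : Site d k) = ∑ j, (sv (t j) : Site d k) := add_left_cancel hst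
  funext j
  apply sv_inj (d := d) hk
  funext i
  rw [L0a_at hs j i, L0a_at ht j i, h1]

theorem grp_card (hd : 35 ≤ d) (j : Fin 6) :
    2 * (d : ℝ) / 7 ≤ ((grp d j).card : ℝ) ∧ ((grp d j).card : ℝ) ≤ 2 * d := by
  have h1 := L0a_count hd j
  have hj := j.isLt
  have h2 : d ≤ 6 * (univ.filter fun i : Fin d => i.val % 6 = j.val).card + 5 := by omega
  have h2' : (d : ℝ) ≤ 6 * ((univ.filter fun i : Fin d => i.val % 6 = j.val).card : ℝ) + 5 := by
    exact_mod_cast h2
  have h3 : (univ.filter fun i : Fin d => i.val % 6 = j.val).card ≤ d := by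
    calc _ ≤ (univ : Finset (Fin d)).card := card_le_card (filter_subset _ _)
      _ = d := by rw [card_univ, Fintype.card_fin]
  have h3' : ((univ.filter fun i : Fin d => i.val % 6 = j.val).card : ℝ) ≤ d := by
    exact_mod_cast h3
  have hd' : (35 : ℝ) ≤ d := by exact_mod_cast hd
  rw [L0a_grp]
  push_cast
  constructor <;> linarith

theorem T6_bounds (hd : 35 ≤ d) : (2 * (d : ℝ) / 7) ^ 6 ≤ T6 d ∧ (T6 d : ℝ) ≤ (2 * (d : ℝ)) ^ 6 := by
  unfold T6
  push_cast
  have h6 : (univ : Finset (Fin 6)).card = 6 := by rw [card_univ, Fintype.card_fin]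
  constructor
  · calc (2 * (d : ℝ) / 7) ^ 6 = ∏ _j : Fin 6, (2 * (d : ℝ) / 7) := by rw [prod_const, h6]
      _ ≤ _ := prod_le_prod (fun _ _ => by positivity) fun j _ => (grp_card hd j).1
  · calc _ ≤ ∏ _j : Fin 6, (2 * (d : ℝ)) :=
          prod_le_prod (fun _ _ => by positivity) fun j _ => (grp_card hd j).2
      _ = _ := by rw [prod_const, h6]

theorem UU_card (hk : 2 ≤ k) (x : Site d k) : (UU x).card = T6 d := by
  unfold UU
  rw [card_image_of_injOn (L0a_inj hk x), Fintype.card_piFinset]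
  rfl

theorem Av_pi (g : Site d k → ℝ) (x : Site d k) :
    Av g x = (∑ s ∈ Fintype.piFinset fun j => grp d j, g (x + ∑ j : Fin 6, sv (s j))) / T6 d := by
  rw [L0a_sum6]
  have hT : (T6 d : ℝ) = (grp d 0).card * (grp d 1).card * (grp d 2).card * (grp d 3).card *
      (grp d 4).card * (grp d 5).card := by
    unfold T6
    push_cast
    rw [Fin.prod_univ_six]
  rw [hT]
  unfold Av AA
  simp only [Finset.sum_div]
  refine sum_congr rfl fun a0 _ => ?_
  refine sum_congr rfl fun a1 _ => ?_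
  refine sum_congr rfl fun a2 _ => ?_
  refine sum_congr rfl fun a3 _ => ?_
  refine sum_congr rfl fun a4 _ => ?_
  refine sum_congr rfl fun a5 _ => ?_
  rw [div_div, div_div, div_div, div_div, div_div, Fin.sum_univ_six]
  congr 1
  · congr 1
    simp only [Matrix.cons_val]
    abel
  · ring

theorem Av_eq (hk : 2 ≤ k) (g : Site d k → ℝ) (x : Site d k) : Av g x = (∑ v ∈ UU x, g v) / T6 d := by
  rw [Av_pi]
  unfold UU
  rw [sum_image (L0a_inj hk x)]

theorem UU_cls (hk : 1 ≤ k) (b : Bool) {x : Site d k} (hx : x ∈ cls b d k) : UU x ⊆ cls b d k := by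
  intro v hv
  unfold UU at hv
  rw [mem_image] at hv
  obtain ⟨s, _, rfl⟩ := hv
  rw [Fin.sum_univ_six, ← add_assoc, ← add_assoc, ← add_assoc, ← add_assoc, ← add_assoc]
  rw [mem_cls_step hk, mem_cls_step hk, mem_cls_step hk, mem_cls_step hk, mem_cls_step hk,
    mem_cls_step hk]
  simpa only [Bool.not_not] using hx

/-- `Av` sees only the class of the centre -/
theorem Av_mono_cls (hk : 1 ≤ k) (b : Bool) {g h : Site d k → ℝ} (hgh : ∀ v ∈ cls b d k, g v ≤ h v)
    {x : Site d k} (hx : x ∈ cls b d k) : Av g x ≤ Av h x := by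
  rw [Av_pi, Av_pi]
  refine div_le_div_of_nonneg_right (sum_le_sum fun s hs => ?_) (Nat.cast_nonneg _)
  exact hgh _ (UU_cls hk b hx (mem_image_of_mem _ hs))

end Pool.Agent.LIN
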