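import Pool.Agent.Lib_MP_2c424f_lin.L0a

/-!
# H30 L0b: the six-step spheres

* `UU_inj`: for `k ≥ 2` the map `s ↦ x + ∑ sv (s j)` is injective on `∏_j grp d j`: the coordinates of the sum in the
  directions of group `j` are those of `sv (s j)` (`sv_inj`).  So `card (UU x) = T6 d` and
* `Av_pi`: unfold `Av`, iterated sums = sum over `Fintype.piFinset` (`Fin.consEquiv` / `Finset.sum_comm`, or prove it
  for `n` groups by induction).  `Av_eq`: `Av g x = (∑_{v ∈ UU x} g v)/T6 d`.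
* `UU_cls`: six steps preserve the class.
* sizes: `(grp d j).card = 2 #{i < d : i % 6 = j} ≥ (d-5)/3`, so `2d/7 ≤ card ≤ 2d` for `d ≥ 35`,
  `(2d/7)^6 ≤ T6 d ≤ (2d)^6`.
* linearity, monotonicity, translation: `Av` commutes with `PP`, `AA j`, translations.
* `sum_AA`: `∑_x AA j g x = ∑_x g x` (if the group is not empty), so `∑_x Av g x = ∑_x g x`.
-/

set_option autoImplicit false

open Finset

namespace Pool.Agent.LIN

open Pool.Agent.LO

variable {d k q : ℕ}

private theorem L0b_card_pos (hd : 35 ≤ d) (j : Fin 6) : (0 : ℝ) < ((grp d j).card : ℝ) := by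
  have h1 := (grp_card hd j).1
  have h2 : (35 : ℝ) ≤ d := by exact_mod_cast hd
  linarith

private theorem L0b_T6_pos (hd : 35 ≤ d) : (0 : ℝ) < (T6 d : ℝ) := by
  have h1 := (T6_bounds hd).1
  have h2 : (35 : ℝ) ≤ d := by exact_mod_cast hd
  have h3 : (0 : ℝ) < (2 * (d : ℝ) / 7) ^ 6 := by positivity
  linarith

private theorem L0b_transl (g : Site d k → ℝ) (a : Site d k) : ∑ x, g (x + a) = ∑ x, g x :=
  Equiv.sum_comp (Equiv.addRight a) g

theorem AA_add (j : Fin 6) (g h : Site d k → ℝ) (x : Site d k) :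
    AA j (fun v => g v + h v) x = AA j g x + AA j h x := by
  unfold AA
  rw [sum_add_distrib, add_div]

theorem Av_add (g h : Site d k → ℝ) (x : Site d k) : Av (fun v => g v + h v) x = Av g x + Av h x := by
  rw [Av_pi, Av_pi, Av_pi, sum_add_distrib, add_div]

theorem Av_mul (c : ℝ) (g : Site d k → ℝ) (x : Site d k) : Av (fun v => c * g v) x = c * Av g x := by
  rw [Av_pi, Av_pi, ← mul_sum, mul_div_assoc]

theorem AA_mul (j : Fin 6) (c : ℝ) (g : Site d k → ℝ) (x : Site d k) :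
    AA j (fun v => c * g v) x = c * AA j g x := by
  unfold AA
  rw [← mul_sum, mul_div_assoc]

theorem AA_const (hd : 35 ≤ d) (j : Fin 6) (c : ℝ) (x : Site d k) : AA j (fun _ => c) x = c := by
  unfold AA
  rw [sum_const, nsmul_eq_mul, mul_div_cancel_left₀ _ (L0b_card_pos hd j).ne']

theorem AA_mono (j : Fin 6) {g h : Site d k → ℝ} (hgh : ∀ v, g v ≤ h v) (x : Site d k) :
    AA j g x ≤ AA j h x := by
  unfold AA
  exact div_le_div_of_nonneg_right (sum_le_sum fun σ _ => hgh _) (Nat.cast_nonneg _)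

theorem AA_abs (j : Fin 6) (g : Site d k → ℝ) (x : Site d k) : |AA j g x| ≤ AA j (fun v => |g v|) x := by
  unfold AA
  rw [abs_div, abs_of_nonneg (Nat.cast_nonneg (α := ℝ) (grp d j).card)]
  exact div_le_div_of_nonneg_right (abs_sum_le_sum_abs _ _) (Nat.cast_nonneg _)

theorem Av_abs (g : Site d k → ℝ) (x : Site d k) : |Av g x| ≤ Av (fun v => |g v|) x := by
  rw [Av_pi, Av_pi, abs_div, abs_of_nonneg (Nat.cast_nonneg (α := ℝ) (T6 d))]
  exact div_le_div_of_nonneg_right (abs_sum_le_sum_abs _ _) (Nat.cast_nonneg _)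

private theorem L0b_AA_const (hd : 35 ≤ d) (j : Fin 6) (c : ℝ) :
    AA j (fun _ : Site d k => c) = fun _ => c := funext fun x => AA_const hd j c x

theorem Av_const (hd : 35 ≤ d) (c : ℝ) (x : Site d k) : Av (fun _ => c) x = c := by
  unfold Av
  rw [L0b_AA_const hd, L0b_AA_const hd, L0b_AA_const hd, L0b_AA_const hd, L0b_AA_const hd,
    L0b_AA_const hd]

theorem Av_mono {g h : Site d k → ℝ} (hgh : ∀ v, g v ≤ h v) (x : Site d k) : Av g x ≤ Av h x := by
  rw [Av_pi, Av_pi]
  exact div_le_div_of_nonneg_right (sum_le_sum fun σ _ => hgh _) (Nat.cast_nonneg _)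

theorem Av_transl (g : Site d k → ℝ) (τ x : Site d k) : Av (fun v => g (v + τ)) x = Av g (x + τ) := by
  rw [Av_pi, Av_pi]
  congr 1
  refine sum_congr rfl fun s _ => ?_
  rw [add_right_comm]

theorem AA_comm (i j : Fin 6) (g : Site d k → ℝ) (x : Site d k) : AA i (AA j g) x = AA j (AA i g) x := by
  unfold AA
  rw [← sum_div, ← sum_div, sum_comm, div_div, div_div, mul_comm ((grp d j).card : ℝ)]
  congr 1
  refine sum_congr rfl fun s _ => sum_congr rfl fun t _ => ?_
  rw [add_right_comm]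

theorem Av_AA (j : Fin 6) (g : Site d k → ℝ) (x : Site d k) : Av (AA j g) x = AA j (Av g) x := by
  have h : Av g = fun y => (∑ s ∈ Fintype.piFinset fun j => grp d j,
      g (y + ∑ j : Fin 6, sv (s j))) / T6 d := funext fun y => Av_pi g y
  rw [Av_pi, h]
  unfold AA
  rw [← sum_div, ← sum_div, sum_comm, div_div, div_div, mul_comm ((grp d j).card : ℝ)]
  congr 1
  refine sum_congr rfl fun s _ => sum_congr rfl fun t _ => ?_
  rw [add_right_comm]

theorem Av_PP (g : Site d k → ℝ) (x : Site d k) : Av (PP g) x = PP (Av g) x := by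
  have h : Av g = fun y => (∑ s ∈ Fintype.piFinset fun j => grp d j,
      g (y + ∑ j : Fin 6, sv (s j))) / T6 d := funext fun y => Av_pi g y
  rw [Av_pi, h]
  unfold PP
  rw [← sum_div, ← sum_div, sum_comm, div_div, div_div, mul_comm (2 * (d : ℝ))]
  congr 1
  refine sum_congr rfl fun s _ => sum_congr rfl fun t _ => ?_
  rw [add_right_comm]

theorem sum_AA (hd : 35 ≤ d) (j : Fin 6) (g : Site d k → ℝ) : ∑ x, AA j g x = ∑ x, g x := by
  unfold AA
  rw [← sum_div, sum_comm]
  rw [sum_congr rfl fun σ _ => L0b_transl g (sv σ), sum_const, nsmul_eq_mul,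
    mul_div_cancel_left₀ _ (L0b_card_pos hd j).ne']

theorem sum_Av (hd : 35 ≤ d) (g : Site d k → ℝ) : ∑ x, Av g x = ∑ x, g x := by
  unfold Av
  rw [sum_AA hd, sum_AA hd, sum_AA hd, sum_AA hd, sum_AA hd, sum_AA hd]

theorem sum_PP (hd : 1 ≤ d) (g : Site d k → ℝ) : ∑ x, PP g x = ∑ x, g x := by
  unfold PP
  rw [← sum_div, sum_comm]
  have h1 : (2 * (d : ℝ)) ≠ 0 := by
    have : (1 : ℝ) ≤ d := by exact_mod_cast hd
    positivity
  have h2 : (Fintype.card (Stp d) : ℝ) = 2 * d := by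
    simp [Stp, mul_comm]
  rw [sum_congr rfl fun σ _ => L0b_transl g (sv σ), sum_const, nsmul_eq_mul, card_univ, h2,
    mul_div_cancel_left₀ _ h1]

/-- Cauchy-Schwarz for `Av` -/
theorem Av_cs (g h : Site d k → ℝ) (x : Site d k) :
    Av (fun v => g v * h v) x ^ 2 ≤ Av (fun v => g v ^ 2) x * Av (fun v => h v ^ 2) x := by
  rw [Av_pi, Av_pi, Av_pi, div_pow, div_mul_div_comm, sq (T6 d : ℝ)]
  exact div_le_div_of_nonneg_right (sum_mul_sq_le_sq_mul_sq _ _ _)
    (mul_nonneg (Nat.cast_nonneg _) (Nat.cast_nonneg _))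

end Pool.Agent.LIN
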