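import Pool.Agent.Lib_MP_2c424f_lin.L0

/-!
# H30 L1: union bound over separated sets

`A : colourings → sets of sites`.  A maximal separated subset `A'` of `A f` satisfies: every `x ∈ A f` has
`UU x ∩ UU y ≠ ∅` for some `y ∈ A'`, so `|A f| ≤ (2d)^12 |A'|` (`x = y + ∑ sv (s j) - ∑ sv (s' j)`, at most
`T6² ≤ (2d)^12` values).  Hence `{κ N ≤ |A f|} ⊆ ⋃_{A' sep, |A'| ≥ κN/(2d)^12} {A' ⊆ A f}`,
card `≤ ∑_{A'} Z exp (-G|A'| + η) ≤ Z exp (-(κN/(2d)^12) G/2 + η) ∑_{A'} exp (-G|A'|/2)` and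
`∑_{A'} y^|A'| = (1+y)^(card Site) ≤ exp (N y)`.
-/

set_option autoImplicit false

open Finset

namespace Pool.Agent.LIN

open Pool.Agent.LO

variable {d k q : ℕ}

open scoped Classical in
/-- sites related to `y` (or equal to it) -/
private noncomputable def WW1 (y : Site d k) : Finset (Site d k) :=
  (univ : Finset ((Fin 6 → Stp d) × (Fin 6 → Stp d))).image fun s =>
    y + ∑ j, sv (s.1 j) - ∑ j, sv (s.2 j)

open scoped Classical in
private theorem card_WW1 (y : Site d k) : ((WW1 y).card : ℝ) ≤ (2 * (d : ℝ)) ^ 12 := by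
  have h1 : (WW1 y).card ≤ (d * 2) ^ 6 * (d * 2) ^ 6 := by
    unfold WW1
    refine (card_image_le).trans ?_
    simp
  have h2 : ((WW1 y).card : ℝ) ≤ ((d : ℝ) * 2) ^ 6 * ((d : ℝ) * 2) ^ 6 := by exact_mod_cast h1
  calc ((WW1 y).card : ℝ) ≤ ((d : ℝ) * 2) ^ 6 * ((d : ℝ) * 2) ^ 6 := h2
    _ = (2 * (d : ℝ)) ^ 12 := by ring

open scoped Classical in
private theorem mem_WW1_self (hd : 1 ≤ d) (y : Site d k) : y ∈ WW1 y := by
  unfold WW1
  rw [mem_image]
  have : Nonempty (Fin 6 → Stp d) := ⟨fun _ => (⟨0, hd⟩, true)⟩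
  obtain ⟨s⟩ := this
  exact ⟨(s, s), mem_univ _, by simp⟩

open scoped Classical in
private theorem mem_WW1 (x y : Site d k) (h : ¬ Disjoint (UU x) (UU y)) : x ∈ WW1 y := by
  rw [Finset.not_disjoint_iff] at h
  obtain ⟨z, h1, h2⟩ := h
  unfold UU at h1 h2
  rw [mem_image] at h1 h2
  obtain ⟨s, _, hs⟩ := h1
  obtain ⟨t, _, ht⟩ := h2
  unfold WW1
  rw [mem_image]
  refine ⟨(t, s), mem_univ _, ?_⟩
  simp only
  rw [ht, ← hs]
  abel

open scoped Classical in
private theorem exists_sep (hd : 1 ≤ d) (B : Finset (Site d k)) :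
    ∃ A' : Finset (Site d k), sep A' ∧ A' ⊆ B ∧ ((B.card : ℝ) ≤ (2 * (d : ℝ)) ^ 12 * A'.card) := by
  let F : Finset (Finset (Site d k)) := B.powerset.filter sep
  have hF : F.Nonempty := ⟨∅, by simp [F, sep]⟩
  obtain ⟨A', hA', hmax⟩ := F.exists_max_image (fun s => s.card) hF
  have hA1 : A' ⊆ B := by
    have := (mem_filter.mp hA').1
    exact mem_powerset.mp this
  have hA2 : sep A' := (mem_filter.mp hA').2
  refine ⟨A', hA2, hA1, ?_⟩
  have hsub : B ⊆ A'.biUnion WW1 := by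
    intro x hx
    rw [mem_biUnion]
    by_cases hxA : x ∈ A'
    · exact ⟨x, hxA, mem_WW1_self hd x⟩
    · by_contra hcon
      push Not at hcon
      have hdis : ∀ y ∈ A', Disjoint (UU x) (UU y) := by
        intro y hy
        by_contra hnd
        exact hcon y hy (mem_WW1 x y hnd)
      have hsep : sep (insert x A') := by
        intro u hu v hv huv
        rw [mem_insert] at hu hv
        rcases hu with rfl | hu
        · rcases hv with rfl | hv
          · exact absurd rfl huv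
          · exact hdis v hv
        · rcases hv with rfl | hv
          · exact (hdis u hu).symm
          · exact hA2 u hu v hv huv
      have hmem : insert x A' ∈ F := by
        rw [mem_filter, mem_powerset]
        exact ⟨insert_subset hx hA1, hsep⟩
      have h1 := hmax _ hmem
      rw [card_insert_of_notMem hxA] at h1
      omega
  calc (B.card : ℝ) ≤ ((A'.biUnion WW1).card : ℝ) := by exact_mod_cast card_le_card hsub
    _ ≤ ∑ y ∈ A', ((WW1 y).card : ℝ) := by exact_mod_cast card_biUnion_le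
    _ ≤ ∑ _y ∈ A', (2 * (d : ℝ)) ^ 12 := sum_le_sum fun y _ => card_WW1 y
    _ = (2 * (d : ℝ)) ^ 12 * A'.card := by rw [sum_const, nsmul_eq_mul]; ring

open scoped Classical in
theorem ldu (P : Finset (Site d k → Fin q)) (A : (Site d k → Fin q) → Finset (Site d k)) (Z G η κ : ℝ)
    (hZ : 0 ≤ Z) (hG : 0 ≤ G) (hd : 1 ≤ d)
    (h : ∀ A' : Finset (Site d k), sep A' →
      ((P.filter fun f => A' ⊆ A f).card : ℝ) ≤ Z * Real.exp (-(G * A'.card) + η)) :
    ((P.filter fun f => κ * NN d k ≤ ((A f).card : ℝ)).card : ℝ) ≤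
      Z * Real.exp (-(κ * NN d k / (2 * (d : ℝ)) ^ 12 * (G / 2)) + NN d k * Real.exp (-(G / 2)) + η) := by
  have hd0 : (0 : ℝ) < (2 * (d : ℝ)) ^ 12 := by
    have : (0 : ℝ) < d := by exact_mod_cast hd
    positivity
  let K : ℝ := κ * NN d k / (2 * (d : ℝ)) ^ 12
  let S : Finset (Finset (Site d k)) :=
    (univ : Finset (Site d k)).powerset.filter fun A' => sep A' ∧ K ≤ (A'.card : ℝ)
  have hsub : (P.filter fun f => κ * NN d k ≤ ((A f).card : ℝ)) ⊆
      S.biUnion fun A' => P.filter fun f => A' ⊆ A f := by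
    intro f hf
    rw [mem_filter] at hf
    obtain ⟨A', h1, h2, h3⟩ := exists_sep hd (A f)
    rw [mem_biUnion]
    refine ⟨A', ?_, ?_⟩
    · rw [mem_filter]
      refine ⟨mem_powerset.mpr (subset_univ _), h1, ?_⟩
      show κ * NN d k / (2 * (d : ℝ)) ^ 12 ≤ (A'.card : ℝ)
      rw [div_le_iff₀ hd0]
      calc κ * NN d k ≤ ((A f).card : ℝ) := hf.2
        _ ≤ (2 * (d : ℝ)) ^ 12 * A'.card := h3
        _ = A'.card * (2 * (d : ℝ)) ^ 12 := by ring
    · rw [mem_filter]
      exact ⟨hf.1, h2⟩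
  have h1 : ((P.filter fun f => κ * NN d k ≤ ((A f).card : ℝ)).card : ℝ) ≤
      ∑ A' ∈ S, ((P.filter fun f => A' ⊆ A f).card : ℝ) := by
    calc ((P.filter fun f => κ * NN d k ≤ ((A f).card : ℝ)).card : ℝ)
        ≤ ((S.biUnion fun A' => P.filter fun f => A' ⊆ A f).card : ℝ) := by
          exact_mod_cast card_le_card hsub
      _ ≤ ∑ A' ∈ S, ((P.filter fun f => A' ⊆ A f).card : ℝ) := by exact_mod_cast card_biUnion_le
  have h2 : ∀ A' ∈ S, ((P.filter fun f => A' ⊆ A f).card : ℝ) ≤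
      Z * Real.exp (-(K * (G / 2)) + η) * Real.exp (-(G / 2)) ^ A'.card := by
    intro A' hA'
    have hA2 := (mem_filter.mp hA').2
    refine (h A' hA2.1).trans ?_
    rw [← Real.exp_nat_mul, mul_assoc, ← Real.exp_add]
    refine mul_le_mul_of_nonneg_left ?_ hZ
    apply Real.exp_le_exp.mpr
    have h3 : K * (G / 2) ≤ (A'.card : ℝ) * (G / 2) :=
      mul_le_mul_of_nonneg_right hA2.2 (by linarith)
    linarith
  have h3 : ∑ A' ∈ S, Real.exp (-(G / 2)) ^ A'.card ≤ Real.exp (NN d k * Real.exp (-(G / 2))) := by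
    have h4 : ∑ A' ∈ S, Real.exp (-(G / 2)) ^ A'.card ≤
        ∑ A' ∈ (univ : Finset (Site d k)).powerset, Real.exp (-(G / 2)) ^ A'.card :=
      sum_le_sum_of_subset_of_nonneg (filter_subset _ _) fun _ _ _ => by positivity
    have h5 := Finset.sum_pow_mul_eq_add_pow (Real.exp (-(G / 2))) (1 : ℝ) (univ : Finset (Site d k))
    simp only [one_pow, mul_one] at h5
    rw [h5] at h4
    refine h4.trans ?_
    calc (Real.exp (-(G / 2)) + 1) ^ (univ : Finset (Site d k)).card
        ≤ (Real.exp (Real.exp (-(G / 2)))) ^ (univ : Finset (Site d k)).card :=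
          pow_le_pow_left₀ (by positivity) (Real.add_one_le_exp _) _
      _ = Real.exp (NN d k * Real.exp (-(G / 2))) := by
          rw [← Real.exp_nat_mul, card_univ, card_site]
  calc ((P.filter fun f => κ * NN d k ≤ ((A f).card : ℝ)).card : ℝ)
      ≤ ∑ A' ∈ S, ((P.filter fun f => A' ⊆ A f).card : ℝ) := h1
    _ ≤ ∑ A' ∈ S, Z * Real.exp (-(K * (G / 2)) + η) * Real.exp (-(G / 2)) ^ A'.card := sum_le_sum h2
    _ = Z * Real.exp (-(K * (G / 2)) + η) * ∑ A' ∈ S, Real.exp (-(G / 2)) ^ A'.card := by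
        rw [mul_sum]
    _ ≤ Z * Real.exp (-(K * (G / 2)) + η) * Real.exp (NN d k * Real.exp (-(G / 2))) :=
        mul_le_mul_of_nonneg_left h3 (by positivity)
    _ = Z * Real.exp (-(κ * NN d k / (2 * (d : ℝ)) ^ 12 * (G / 2)) + NN d k * Real.exp (-(G / 2)) + η) := by
        rw [mul_assoc, ← Real.exp_add]
        congr 2
        ring

end Pool.Agent.LIN
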