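import Pool.Agent.Lib_MP_2c424f_lin.E9
import Pool.Agent.Lib_MP_2c424f_lin.F3

/-!
# H30 L2: edge chessboard for an extra colour on some sites

`S = Option (Fin q)` (`none` = extra colour), labels `Bool`.  For the class `b = false` (odd sites), `U ⊆ cls b`:
`K l a b' = 1[a ≠ none] 1[a ≠ b']` for `b' = some _`, and for `b' = none`: `0` if `l = false`, `w^(1/(2d)) 1[a ≠ none]` if
`l = true`; `w (x,l) = true` iff `x ∈ U` or `x + e_l ∈ U` (`2d|U|` edges; `U` in one class).
`Zw` of this labelling `= ∑_g ∏_{v ∈ cls b \ U} x_v ∏_{v ∈ U} (x_v + w) ≥ ∑_{f proper} ∏_{v ∈ U} (1 + w/av f v)` (sum over the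
colourings `g` of the other class; at `v ∈ U` one of the `x_v` available colours or `none` with the weight `w`),
`Zw (const false) = ZZ`, `Zw (const true) = WW d k q b w`.
For `b = true` exchange the two arguments of `K`.  `a0, b0` = two different colours.  (`w = 0`: `0^(1/(2d)) = 0`.)
-/

set_option autoImplicit false

open Finset

namespace Pool.Agent.LIN

open Pool.Agent.LO

variable {d k q : ℕ}

/-! ### auxiliary: sum over the values on a set `B` -/

private theorem l2_fib {X J S : Type*} [Fintype X] [DecidableEq X] [Fintype S] (B : Finset X)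
    (Nb : X → J → X) (hN : ∀ v ∈ B, ∀ j, Nb v j ∉ B) (Φ : X → (J → S) → S → ℝ) :
    ∑ F : X → S, ∏ v ∈ B, Φ v (fun j => F (Nb v j)) (F v) =
      ∑ G : {x // x ∉ B} → S, ∏ v : {x // x ∈ B},
        ∑ s, Φ v (fun j => G ⟨Nb v j, hN v v.2 j⟩) s := by
  classical
  rw [← (Equiv.piEquivPiSubtypeProd (fun x => x ∈ B) (fun _ => S)).symm.sum_comp,
    Fintype.sum_prod_type_right]
  refine Finset.sum_congr rfl fun G _ => ?_
  rw [Finset.prod_univ_sum, Fintype.piFinset_univ]
  refine Finset.sum_congr rfl fun H _ => ?_
  rw [← Finset.prod_coe_sort B]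
  refine Finset.prod_congr rfl fun v _ => ?_
  have h1 : (Equiv.piEquivPiSubtypeProd (fun x => x ∈ B) (fun _ => S)).symm (H, G) v = H v := by
    simp [Equiv.piEquivPiSubtypeProd]
  have h2 : ∀ j, (Equiv.piEquivPiSubtypeProd (fun x => x ∈ B) (fun _ => S)).symm (H, G) (Nb v j) =
      G ⟨Nb v j, hN v v.2 j⟩ := by
    intro j
    have := hN v v.2 j
    simp [Equiv.piEquivPiSubtypeProd, this]
  simp only [h1, h2]

/-! ### auxiliary: the kernels -/

/-- edge kernel: the value at the end off the class, the value at the end in the class -/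
private noncomputable def l2_kap (d : ℕ) {q : ℕ} (w : ℝ) (l : Bool) : Option (Fin q) → Option (Fin q) → ℝ
  | none, _ => 0
  | some c, some c' => if c = c' then 0 else 1
  | some _, none => if l then w ^ (((2 * d : ℕ) : ℝ)⁻¹) else 0

private noncomputable def l2_K (d : ℕ) {q : ℕ} (w : ℝ) (b l : Bool) (a s : Option (Fin q)) : ℝ :=
  if b then l2_kap d w l s a else l2_kap d w l a s

open scoped Classical in
/-- label of an edge -/
private noncomputable def l2_lab (T : Finset (Site d k)) (x : Site d k) (l : Fin d) : Bool :=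
  decide (x ∈ T ∨ x + sv (l, true) ∈ T)

private theorem l2_kap_nonneg (w : ℝ) (hw : 0 ≤ w) (l : Bool) (a s : Option (Fin q)) :
    0 ≤ l2_kap d w l a s := by
  cases a with
  | none => exact le_refl _
  | some c =>
    cases s with
    | none =>
      simp only [l2_kap]
      split_ifs
      · exact Real.rpow_nonneg hw _
      · exact le_refl _
    | some c' =>
      simp only [l2_kap]
      split_ifs
      · exact le_refl _
      · exact zero_le_one

private theorem l2_K_nonneg (w : ℝ) (hw : 0 ≤ w) (b l : Bool) (a s : Option (Fin q)) :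
    0 ≤ l2_K d w b l a s := by
  unfold l2_K
  split_ifs
  · exact l2_kap_nonneg w hw l _ _
  · exact l2_kap_nonneg w hw l _ _

/-- the sum over the value in the middle of a star -/
private theorem l2_star (hd : 1 ≤ d) (w : ℝ) (hw : 0 ≤ w) (l : Bool) (c : Stp d → Fin q) :
    ∑ s : Option (Fin q), ∏ σ : Stp d, l2_kap d w l (some (c σ)) s =
      ((q - (univ.image c).card : ℕ) : ℝ) + if l then w else 0 := by
  classical
  have hle : (univ.image c).card ≤ q := by
    have := Finset.card_le_univ (univ.image c)
    rwa [Fintype.card_fin] at this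
  rw [Fintype.sum_option, add_comm]
  congr 1
  · have h1 : ∀ c' : Fin q, ∏ σ : Stp d, l2_kap d w l (some (c σ)) (some c') =
        if c' ∈ univ.image c then 0 else 1 := by
      intro c'
      split_ifs with h
      · rw [mem_image] at h
        obtain ⟨σ, hσ, h⟩ := h
        refine Finset.prod_eq_zero hσ ?_
        simp only [l2_kap, h, if_true]
      · refine Finset.prod_eq_one fun σ _ => ?_
        simp only [l2_kap]
        rw [if_neg]
        intro h'
        exact h (by rw [← h']; exact mem_image_of_mem _ (mem_univ _))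
    rw [Finset.sum_congr rfl fun c' _ => h1 c']
    have h2 : ∀ c' : Fin q, (if c' ∈ univ.image c then (0 : ℝ) else 1) =
        1 - (if c' ∈ univ.image c then 1 else 0) := by
      intro c'
      split_ifs <;> norm_num
    rw [Finset.sum_congr rfl fun c' _ => h2 c', Finset.sum_sub_distrib, Finset.sum_const,
      Finset.card_univ, Fintype.card_fin, nsmul_eq_mul, mul_one, Nat.cast_sub hle, Finset.sum_boole]
    have h3 : (univ.filter fun c' => c' ∈ univ.image c) = univ.image c := by
      ext x
      rw [mem_filter]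
      exact ⟨fun h => h.2, fun h => ⟨mem_univ _, h⟩⟩
    rw [h3]
  · simp only [l2_kap]
    rw [Finset.prod_const, Finset.card_univ, Fintype.card_prod, Fintype.card_fin, Fintype.card_bool,
      mul_comm d 2]
    cases l
    · simp only [Bool.false_eq_true, if_false]
      exact zero_pow (by omega)
    · simp only [if_true]
      exact Real.rpow_inv_natCast_pow hw (by omega)

/-! ### auxiliary: reordering of the edges -/

private theorem l2_mem_true (x : Site d k) : x ∈ cls true d k ↔ evn x := by
  classical
  simp [cls, evs]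

private theorem l2_mem_false (x : Site d k) : x ∈ cls false d k ↔ ¬ evn x := by
  classical
  simp [cls, ods]

private theorem l2_in (w : ℝ) (b l : Bool) (F : Site d k → Option (Fin q)) (x : Site d k) (i : Fin d)
    (hx : x ∈ cls b d k) :
    l2_K d w b l (eE F x i) (eO F x i) = l2_kap d w l (F (x + sv (i, true))) (F x) := by
  classical
  cases b
  · rw [l2_mem_false] at hx
    simp only [l2_K, eE, eO, if_neg hx, Bool.false_eq_true, if_false]
  · rw [l2_mem_true] at hx
    simp only [l2_K, eE, eO, if_pos hx, if_true]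

private theorem l2_out (w : ℝ) (b l : Bool) (F : Site d k → Option (Fin q)) (x : Site d k) (i : Fin d)
    (hx : x ∉ cls b d k) :
    l2_K d w b l (eE F x i) (eO F x i) = l2_kap d w l (F x) (F (x + sv (i, true))) := by
  classical
  cases b
  · rw [l2_mem_false, not_not] at hx
    simp only [l2_K, eE, eO, if_pos hx, Bool.false_eq_true, if_false]
  · rw [l2_mem_true] at hx
    simp only [l2_K, eE, eO, if_neg hx, if_true]

private theorem l2_step (hk : 1 ≤ k) (b : Bool) (x : Site d k) (σ : Stp d) :
    x + sv σ ∈ cls b d k ↔ x ∉ cls b d k := by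
  rw [mem_cls_step hk, cls_not]

private theorem l2_back (i : Fin d) (x : Site d k) : x + sv (i, false) + sv (i, true) = x := by
  rw [add_assoc, add_comm (sv (i, false)) (sv (i, true))]
  have := sv_opp (k := k) i true
  simp only [Bool.not_true] at this
  rw [this, add_zero]

private theorem l2_back' (i : Fin d) (x : Site d k) : x + sv (i, true) + sv (i, false) = x := by
  rw [add_assoc]
  have := sv_opp (k := k) i true
  simp only [Bool.not_true] at this
  rw [this, add_zero]

private theorem l2_edges (hk : 1 ≤ k) (b : Bool) (T : Finset (Site d k)) (hT : T ⊆ cls b d k) (w : ℝ)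
    (F : Site d k → Option (Fin q)) :
    ∏ x, ∏ i, l2_K d w b (l2_lab T x i) (eE F x i) (eO F x i) =
      ∏ v ∈ cls b d k, ∏ σ : Stp d,
        l2_kap d w (l2_lab T v σ.1) (F (v + sv σ)) (F v) := by
  classical
  have hnT : ∀ v ∉ cls b d k, v ∉ T := fun v hv h => hv (hT h)
  rw [Finset.prod_comm, Finset.prod_comm (s := cls b d k), Fintype.prod_prod_type]
  refine Finset.prod_congr rfl fun i _ => ?_
  rw [Fintype.prod_bool, ← Finset.prod_mul_prod_compl (cls b d k)]
  congr 1
  · refine Finset.prod_congr rfl fun x hx => ?_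
    exact l2_in w b _ F x i hx
  · symm
    refine Finset.prod_bij' (fun v _ => v + sv (i, false)) (fun v _ => v + sv (i, true)) ?_ ?_ ?_ ?_ ?_
    · intro v hv
      rw [mem_compl, l2_step hk, not_not]
      exact hv
    · intro v hv
      rw [mem_compl] at hv
      rw [l2_step hk]
      exact hv
    · intro v _
      exact l2_back i v
    · intro v _
      exact l2_back' i v
    · intro v hv
      have hv' : v + sv (i, false) ∉ cls b d k := by
        rw [l2_step hk, not_not]
        exact hv
      have hv2 : v + sv (i, true) ∉ cls b d k := by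
        rw [l2_step hk, not_not]
        exact hv
      rw [l2_out w b _ F _ i hv', l2_back]
      have hl : l2_lab T (v + sv (i, false)) i = l2_lab T v i := by
        unfold l2_lab
        rw [l2_back]
        congr 1
        simp only [hnT _ hv', hnT _ hv2, false_or, or_false]
      rw [hl]

private theorem l2_lab_in (hk : 1 ≤ k) (b : Bool) (T : Finset (Site d k)) (hT : T ⊆ cls b d k)
    (v : Site d k) (hv : v ∈ cls b d k) (i : Fin d) : (l2_lab T v i = true) ↔ v ∈ T := by
  classical
  have hv2 : v + sv (i, true) ∉ cls b d k := by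
    rw [l2_step hk, not_not]
    exact hv
  unfold l2_lab
  rw [decide_eq_true_iff]
  constructor
  · rintro (h | h)
    · exact h
    · exact absurd (hT h) hv2
  · exact Or.inl

open scoped Classical in
/-- the model with the extra colour on `T` -/
private theorem l2_key (hd : 1 ≤ d) (hk : 1 ≤ k) (hq : 1 ≤ q) (w : ℝ) (hw : 0 ≤ w) (b : Bool)
    (T : Finset (Site d k)) (hT : T ⊆ cls b d k) :
    Zw (l2_K d (q := q) w b) (l2_lab T) =
      ∑ f : Site d k → Fin q, ∏ v ∈ cls b d k, (((av f v : ℝ) + if v ∈ T then w else 0) / q) := by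
  have hq0 : (q : ℝ) ≠ 0 := by
    have : q ≠ 0 := by omega
    exact_mod_cast this
  have hN : ∀ v ∈ cls b d k, ∀ σ : Stp d, v + sv σ ∉ cls b d k := by
    intro v hv σ
    rw [l2_step hk, not_not]
    exact hv
  have hL : Zw (l2_K d (q := q) w b) (l2_lab T) =
      ∑ F : Site d k → Option (Fin q), ∏ v ∈ cls b d k,
        (fun (v : Site d k) (c : Stp d → Option (Fin q)) (s : Option (Fin q)) =>
          ∏ σ : Stp d, l2_kap d w (l2_lab T v σ.1) (c σ) s) v (fun σ => F (v + sv σ)) (F v) := by
    unfold Zw
    exact Finset.sum_congr rfl fun F _ => l2_edges hk b T hT w F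
  have hR : ∑ f : Site d k → Fin q, ∏ v ∈ cls b d k, (((av f v : ℝ) + if v ∈ T then w else 0) / q) =
      ∑ F : Site d k → Fin q, ∏ v ∈ cls b d k,
        (fun (v : Site d k) (c : Stp d → Fin q) (_ : Fin q) =>
          (((q - (univ.image c).card : ℕ) : ℝ) + if v ∈ T then w else 0) / q) v
            (fun σ => F (v + sv σ)) (F v) := rfl
  rw [hL, hR]
  rw [l2_fib (cls b d k) (fun v (σ : Stp d) => v + sv σ) hN
      (fun (v : Site d k) (c : Stp d → Option (Fin q)) (s : Option (Fin q)) =>
        ∏ σ : Stp d, l2_kap d w (l2_lab T v σ.1) (c σ) s),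
    l2_fib (cls b d k) (fun v (σ : Stp d) => v + sv σ) hN
      (fun (v : Site d k) (c : Stp d → Fin q) (_ : Fin q) =>
        (((q - (univ.image c).card : ℕ) : ℝ) + if v ∈ T then w else 0) / q)]
  symm
  refine Fintype.sum_of_injective (fun (G : {x // x ∉ cls b d k} → Fin q) x => some (G x)) ?_ _ _ ?_ ?_
  · intro G G' h
    funext x
    exact Option.some.inj (congrFun h x)
  · intro G hG
    have h1 : ∃ x, G x = none := by
      by_contra hcon
      push Not at hcon
      apply hG
      refine ⟨fun x => (G x).get (Option.ne_none_iff_isSome.mp (hcon x)), ?_⟩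
      funext x
      simp
    obtain ⟨⟨x, hx⟩, hGx⟩ := h1
    have hv : x + sv ((⟨0, hd⟩ : Fin d), true) ∈ cls b d k := by
      rw [l2_step hk]
      exact hx
    refine Finset.prod_eq_zero (mem_univ ⟨x + sv ((⟨0, hd⟩ : Fin d), true), hv⟩) ?_
    refine Finset.sum_eq_zero fun s _ => ?_
    refine Finset.prod_eq_zero (mem_univ ((⟨0, hd⟩ : Fin d), false)) ?_
    have h2 : (⟨x + sv ((⟨0, hd⟩ : Fin d), true) + sv ((⟨0, hd⟩ : Fin d), false),
        hN _ hv _⟩ : {x // x ∉ cls b d k}) = ⟨x, hx⟩ := by
      apply Subtype.ext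
      exact l2_back' _ x
    have h3 : G ⟨x + sv ((⟨0, hd⟩ : Fin d), true) + sv ((⟨0, hd⟩ : Fin d), false), hN _ hv _⟩ = none := by
      rw [h2]
      exact hGx
    simp only []
    rw [h3]
    rfl
  · intro G
    refine Finset.prod_congr rfl fun v _ => ?_
    obtain ⟨v, hv⟩ := v
    rw [Finset.sum_const, Finset.card_univ, Fintype.card_fin, nsmul_eq_mul, mul_div_cancel₀ _ hq0]
    have h1 : ∀ σ : Stp d, l2_lab T v σ.1 = decide (v ∈ T) := by
      intro σ
      rw [Bool.eq_iff_iff, l2_lab_in hk b T hT v hv, decide_eq_true_iff]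
    simp only [h1]
    rw [l2_star hd w hw]
    simp only [decide_eq_true_eq]

/-! ### auxiliary: counting -/

private theorem l2_count (T : Finset (Site d k)) (hk : 1 ≤ k) (b : Bool) (hT : T ⊆ cls b d k)
    (LT LF : ℝ) :
    ∑ x, ∑ l, (if l2_lab T x l = true then LT else LF) =
      d * NN d k * LF + 2 * d * T.card * (LT - LF) := by
  classical
  have h1 : ∀ (x : Site d k) (l : Fin d), (if l2_lab T x l = true then LT else LF) =
      LF + ((if x ∈ T then 1 else 0) + (if x + sv (l, true) ∈ T then 1 else 0)) * (LT - LF) := by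
    intro x l
    unfold l2_lab
    simp only [decide_eq_true_iff]
    by_cases h : x ∈ T
    · have h2 : x + sv (l, true) ∉ T := by
        intro h3
        have := hT h3
        rw [l2_step hk] at this
        exact this (hT h)
      simp only [h, h2, true_or, if_true, if_false]
      ring
    · by_cases h2 : x + sv (l, true) ∈ T
      · simp only [h, h2, or_true, if_true, if_false]
        ring
      · simp only [h, h2, or_false, if_false]
        ring
  rw [Finset.sum_congr rfl fun x _ => Finset.sum_congr rfl fun l _ => h1 x l, Finset.sum_comm]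
  have h2 : ∀ l : Fin d, ∑ x : Site d k, (LF + ((if x ∈ T then (1 : ℝ) else 0) +
      (if x + sv (l, true) ∈ T then 1 else 0)) * (LT - LF)) = NN d k * LF + 2 * T.card * (LT - LF) := by
    intro l
    rw [Finset.sum_add_distrib, Finset.sum_const, Finset.card_univ, nsmul_eq_mul, card_site,
      ← Finset.sum_mul, Finset.sum_add_distrib]
    have h3 : ∑ x : Site d k, (if x + sv (l, true) ∈ T then (1 : ℝ) else 0) =
        ∑ x : Site d k, (if x ∈ T then (1 : ℝ) else 0) :=
      Equiv.sum_comp (Equiv.addRight (sv (l, true) : Site d k)) (fun x => if x ∈ T then (1 : ℝ) else 0)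
    rw [h3, Finset.sum_boole]
    have h4 : (univ.filter fun x => x ∈ T) = T := by
      ext x
      simp
    rw [h4]
    ring
  rw [Finset.sum_congr rfl fun l _ => h2 l, Finset.sum_const, Finset.card_univ, Fintype.card_fin,
    nsmul_eq_mul]
  ring

theorem ecb_extra (hd : 2 ≤ d) (hk : 2 ≤ k) (hq : 2 ≤ q) (w : ℝ) (hw : 0 ≤ w) (b : Bool)
    (U : Finset (Site d k)) (hU : U ⊆ cls b d k) :
    Real.log (∑ f ∈ prps d k q, ∏ v ∈ U, (1 + w / (av f v : ℝ))) ≤
      (1 - 2 * U.card / NN d k) * Real.log (ZZ d k q) +
        2 * U.card / NN d k * Real.log (WW d k q b w) +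
        4 * 2 ^ d * (d : ℝ) ^ 2 * NN d k * Real.log (q + 1) / 2 ^ k := by
  classical
  have hk1 : 1 ≤ k := by omega
  have hd1 : 1 ≤ d := by omega
  have hq1 : 1 ≤ q := by omega
  have hN0 : 0 < NN d k := by unfold NN; positivity
  have hd0 : (0 : ℝ) < d := by exact_mod_cast (by omega : 0 < d)
  have hq0 : (0 : ℝ) < q := by exact_mod_cast (by omega : 0 < q)
  -- constant labels
  have hfalse : Zw (l2_K d (q := q) w b) (fun (_ : Site d k) (_ : Fin d) => false) = ZZ d k q := by
    have h1 : (fun (_ : Site d k) (_ : Fin d) => false) = l2_lab (∅ : Finset (Site d k)) := by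
      funext x l
      unfold l2_lab
      simp
    rw [h1, l2_key hd1 hk1 hq1 w hw b ∅ (Finset.empty_subset _), ← WW_zero hk1 hq1 b]
    unfold WW
    refine Finset.sum_congr rfl fun f _ => Finset.prod_congr rfl fun v _ => ?_
    simp
  have htrue : Zw (l2_K d (q := q) w b) (fun (_ : Site d k) (_ : Fin d) => true) = WW d k q b w := by
    have h1 : (fun (_ : Site d k) (_ : Fin d) => true) = l2_lab (cls b d k) := by
      funext x l
      unfold l2_lab
      symm
      rw [decide_eq_true_iff, l2_step hk1]
      exact em _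
    rw [h1, l2_key hd1 hk1 hq1 w hw b _ (Finset.Subset.refl _)]
    unfold WW
    refine Finset.sum_congr rfl fun f _ => Finset.prod_congr rfl fun v hv => ?_
    rw [if_pos hv]
  -- the chessboard inequality
  have hecb := ecb hd hk (l2_K d (q := q) w b) (l2_K_nonneg w hw b) (some (⟨0, by omega⟩ : Fin q))
    (some (⟨1, by omega⟩ : Fin q)) (by
      intro l
      unfold l2_K
      split_ifs
      · simp [l2_kap]
      · simp [l2_kap]) (l2_lab U)
  have hcard : (Fintype.card (Option (Fin q)) : ℝ) = q + 1 := by
    rw [Fintype.card_option, Fintype.card_fin]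
    push_cast
    ring
  rw [hcard] at hecb
  have hsum : ∑ x, ∑ l, Real.log (Zw (l2_K d (q := q) w b) fun (_ : Site d k) (_ : Fin d) => l2_lab U x l) =
      d * NN d k * Real.log (ZZ d k q) +
        2 * d * U.card * (Real.log (WW d k q b w) - Real.log (ZZ d k q)) := by
    rw [← l2_count U hk1 b hU]
    refine Finset.sum_congr rfl fun x _ => Finset.sum_congr rfl fun l _ => ?_
    split_ifs with h
    · rw [h, htrue]
    · rw [Bool.not_eq_true] at h
      rw [h, hfalse]
  rw [hsum] at hecb
  have heq : (d * NN d k * Real.log (ZZ d k q) +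
        2 * d * U.card * (Real.log (WW d k q b w) - Real.log (ZZ d k q))) / (d * NN d k) =
      (1 - 2 * U.card / NN d k) * Real.log (ZZ d k q) +
        2 * U.card / NN d k * Real.log (WW d k q b w) := by
    field_simp
    ring
  rw [heq] at hecb
  refine le_trans ?_ hecb
  -- the left side
  have hZ := ZZ_pos (d := d) hk1 hq
  have hpos : 0 < ∑ f ∈ prps d k q, ∏ v ∈ U, (1 + w / (av f v : ℝ)) := by
    refine lt_of_lt_of_le hZ ?_
    unfold ZZ
    rw [Finset.card_eq_sum_ones, Nat.cast_sum]
    refine Finset.sum_le_sum fun f _ => ?_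
    rw [Nat.cast_one]
    calc (1 : ℝ) = ∏ v ∈ U, 1 := Finset.prod_const_one.symm
      _ ≤ ∏ v ∈ U, (1 + w / (av f v : ℝ)) := by
          refine Finset.prod_le_prod (fun v _ => zero_le_one) fun v _ => ?_
          have : 0 ≤ w / (av f v : ℝ) := div_nonneg hw (Nat.cast_nonneg _)
          linarith
  refine Real.log_le_log hpos ?_
  rw [l2_key hd1 hk1 hq1 w hw b U hU]
  have hres := resum (d := d) (q := q) hk1 b (fun v x => if v ∈ U then 1 + w / (x : ℝ) else 1)
  have h1 : ∀ f : Site d k → Fin q, ∏ v ∈ cls b d k, (if v ∈ U then 1 + w / (av f v : ℝ) else 1) =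
      ∏ v ∈ U, (1 + w / (av f v : ℝ)) := by
    intro f
    rw [Finset.prod_ite, Finset.prod_const_one, mul_one]
    refine Finset.prod_congr ?_ fun _ _ => rfl
    ext v
    rw [mem_filter]
    exact ⟨fun h => h.2, fun h => ⟨hU h, h⟩⟩
  rw [Finset.sum_congr rfl fun f _ => h1 f] at hres
  have hqp : (0 : ℝ) < (q : ℝ) ^ (cls b d k).card := pow_pos hq0 _
  rw [← mul_le_mul_iff_right₀ hqp, hres, Finset.mul_sum]
  refine Finset.sum_le_sum fun f _ => ?_
  rw [← Finset.prod_const, ← Finset.prod_mul_distrib]
  refine Finset.prod_le_prod (fun v _ => ?_) fun v _ => ?_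
  · split_ifs
    · have h2 : 0 ≤ w / (av f v : ℝ) := div_nonneg hw (Nat.cast_nonneg _)
      have h3 : (0 : ℝ) ≤ av f v := Nat.cast_nonneg _
      exact mul_nonneg h3 (by linarith)
    · have h3 : (0 : ℝ) ≤ av f v := Nat.cast_nonneg _
      exact mul_nonneg h3 zero_le_one
  · rw [mul_div_cancel₀ _ hq0.ne']
    split_ifs
    · rcases Nat.eq_zero_or_pos (av f v) with h0 | h0
      · rw [h0]
        simpa using hw
      · have h3 : (av f v : ℝ) ≠ 0 := by exact_mod_cast h0.ne'
        rw [mul_add, mul_one, mul_div_cancel₀ _ h3]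
    · rw [mul_one, add_zero]

end Pool.Agent.LIN
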