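import Pool.Agent.Lib_MP_2c424f_lin.G3
import Pool.Agent.Lib_MP_2c424f_lin.Ev

/-!
# H30 R2: extra colour with a small weight

`log WW(w) ≤ log WW(1) - (N/q)(1-w)(1 - √(14δ) - 2/q)` (`ratio_w`) and `log WW(1) ≤ log ZZ(q+1) ≤ log ZZ(q) + (1+δ) N/q`
(`WW_one`, `Gd`).  So `log WW(w) ≤ log ZZ + (N/q)(w + δ + √(14δ) + 2/q)`; take the regime parameter `δ` small
compared with `η` (use `Ev_of` with `Gd δ d q`; `q ≥ 1/δ`).
-/

set_option autoImplicit false

open Finset Filter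

namespace Pool.Agent.LIN

open Pool.Agent.LO

theorem extra_w (w η : ℝ) (hw : 0 ≤ w) (hw1 : w ≤ 1) (hη : 0 < η) : Ev fun d k q => ∀ b : Bool,
    WW d k q b w ≤ ZZ d k q * Real.exp (NN d k / q * (w + η)) := by
  set δ : ℝ := min (1 / 2) (min (η / 6) (η ^ 2 / 56)) with hδ
  have hδ0 : 0 < δ := by positivity
  have hδ1 : δ ≤ 1 / 2 := min_le_left _ _
  have hδ2 : δ ≤ η / 6 := (min_le_right _ _).trans (min_le_left _ _)
  have hδ3 : δ ≤ η ^ 2 / 56 := (min_le_right _ _).trans (min_le_right _ _)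
  refine Ev_of δ hδ0 fun d q hG => ?_
  obtain ⟨-, hq, hd, hZ⟩ := hG
  filter_upwards [hZ, eventually_ge_atTop 2] with k hZk hk b
  have hq2 : (2 : ℝ) ≤ q := by
    refine le_trans ?_ hq
    rw [le_div_iff₀ hδ0]
    linarith
  have hq0 : (0 : ℝ) < q := by linarith
  have hqn : 2 ≤ q := by exact_mod_cast hq2
  have hd0 : (0 : ℝ) < d := by
    have : 0 < δ * d := by linarith
    exact (pos_iff_pos_of_mul_pos this).1 hδ0
  have hdn : 1 ≤ d := by exact_mod_cast hd0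
  have hN0 : 0 < NN d k := by
    unfold NN
    positivity
  have h1 := ratio_w hδ0 hδ1 hq hd hk b w hw hw1
  have hZ0 : 0 < ZZ d k q := ZZ_pos (by omega) hqn
  have hW0 : 0 < WW d k q b w := by
    refine lt_of_lt_of_le hZ0 ?_
    rw [← WW_zero (by omega) (by omega) b]
    exact WW_mono b le_rfl hw
  have hW1 : 0 < WW d k q b 1 := lt_of_lt_of_le hW0 (WW_mono b hw hw1)
  have h2 : Real.log (WW d k q b 1) ≤ Real.log (ZZ d k (q + 1)) :=
    Real.log_le_log hW1 (WW_one (by omega) (by omega) b)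
  have hs : Real.sqrt (14 * δ) ≤ η / 2 := by
    rw [show η / 2 = Real.sqrt ((η / 2) ^ 2) from (Real.sqrt_sq (by positivity)).symm]
    exact Real.sqrt_le_sqrt (by nlinarith)
  have hs0 : 0 ≤ Real.sqrt (14 * δ) := Real.sqrt_nonneg _
  have h2q : 2 / (q : ℝ) ≤ 2 * δ := by
    rw [div_le_iff₀ hq0]
    rw [div_le_iff₀ hδ0] at hq
    linarith
  have h2q0 : 0 ≤ 2 / (q : ℝ) := by positivity
  have hNq : 0 ≤ NN d k / q := by positivity
  have h3 : (1 + δ) - (1 - w) * (1 - Real.sqrt (14 * δ) - 2 / q) ≤ w + η := by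
    nlinarith [mul_nonneg hw hs0, mul_nonneg hw h2q0]
  have h4 := mul_le_mul_of_nonneg_left h3 hNq
  have h5 : Real.log (WW d k q b w) ≤ Real.log (ZZ d k q) + NN d k / q * (w + η) := by
    have e : (1 + δ) / (q : ℝ) * NN d k = NN d k / q * (1 + δ) := by ring
    rw [e] at hZk
    have e2 : NN d k / q * ((1 + δ) - (1 - w) * (1 - Real.sqrt (14 * δ) - 2 / q)) =
      NN d k / q * (1 + δ) - NN d k / q * ((1 - w) * (1 - Real.sqrt (14 * δ) - 2 / q)) := by ring
    rw [e2] at h4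
    linarith
  rw [← Real.exp_log hZ0, ← Real.exp_add, ← Real.log_le_iff_le_exp hW0]
  exact h5

end Pool.Agent.LIN
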