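import Pool.Agent.Lib_MP_2c424f_lin.L2
import Pool.Agent.Lib_MP_2c424f_lin.L1b
import Pool.Agent.Lib_MP_2c424f_lin.R2

/-!
# H30 L2b: local rainbow control (6.1)

`w = ε/(4+2ε) < 1`, `η = wε/8`.  `ecb_extra` and `extra_w`: for `U ⊆ cls b`
`∑_f ∏_{v ∈ U}(1+w/x_v) ≤ ZZ exp ((2|U|/q)(w + η) + err)`, `err ≤ N/d^19` for large `k` (`Ev_pow`).
`A f = {x ∈ cls b : 2+ε ≤ Av (q/x) x}`, `A'` separated, `A' ⊆ A f` (if `A' ⊄ cls b` the set is empty),
`U = ⋃_{x ∈ A'} UU x` (disjoint, `|U| = T6 |A'|`):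
`∑_{v ∈ U} log (1+w/x_v) ≥ (1-w/2) w ∑_{v∈U} 1/x_v = (1-w/2) w (T6/q) ∑_{x ∈ A'} Av (q/x) x ≥ (1-w/2) w (T6/q)(2+ε)|A'|`
(`log (1+y) ≥ y - y²/2`, `x_v ≥ 1`).  Markov: `P(A' ⊆ A f) ≤ exp (-(T6/q)|A'| ((1-w/2)w(2+ε) - 2w - 2η) + err)` and
`(1-w/2)w(2+ε) - 2w - 2η = wε - w²(1+ε/2) - wε/4 = wε - wε/4 - wε/4 = wε/2`.  `G = w ε T6/(2q) ≥ d²` for large `d`
(`T6 ≥ (2d/7)^6`, `q ≤ d`).  Conclude with `rare_of`.
-/

set_option autoImplicit false

open Finset Filter

namespace Pool.Agent.LIN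

open Pool.Agent.LO

/-- `1 + y ≥ exp ((1 - w/2) y)` for `0 ≤ y ≤ w ≤ 2` -/
private theorem L2b_exp {w y : ℝ} (hy : 0 ≤ y) (hyw : y ≤ w) :
    Real.exp ((1 - w / 2) * y) ≤ 1 + y := by
  have h1 : (1 - w / 2) * y ≤ Real.log (1 + y) := by
    have h2 := Real.le_log_one_add_of_nonneg hy
    refine le_trans ?_ h2
    rw [le_div_iff₀ (by linarith)]
    nlinarith [mul_nonneg hy hy, mul_nonneg hy (sub_nonneg.2 hyw), mul_nonneg (mul_nonneg hy hy) (sub_nonneg.2 hyw), mul_nonneg (hy.trans hyw) hy, mul_nonneg (mul_nonneg (hy.trans hyw) hy) hy]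
  calc Real.exp ((1 - w / 2) * y) ≤ Real.exp (Real.log (1 + y)) := Real.exp_le_exp.2 h1
    _ = 1 + y := Real.exp_log (by linarith)

open scoped Classical in
private theorem L2b_main {d k q : ℕ} {ε w η : ℝ} (hε : 0 < ε) (hw : w = ε / (4 + 2 * ε)) (hη : η = w * ε / 8)
    (hd : 35 ≤ d) (hk : 2 ≤ k) (hq : 2 ≤ q) (b : Bool)
    (hWW : WW d k q b w ≤ ZZ d k q * Real.exp (NN d k / q * (w + η)))
    (herr : 4 * 2 ^ d * (d : ℝ) ^ 21 * Real.log (q + 1) ≤ 2 ^ k)
    (A' : Finset (Site d k)) (hsep : sep A') :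
    (((prps d k q).filter fun f =>
      A' ⊆ (cls b d k).filter fun x => 2 + ε ≤ Av (fun v => (q : ℝ) / (av f v : ℝ)) x).card : ℝ) ≤
      ZZ d k q * Real.exp (-(w * ε * T6 d / (2 * q) * A'.card) + NN d k / (d : ℝ) ^ 19) := by
  have hw0 : 0 < w := by rw [hw]; positivity
  have hw1 : w ≤ 1 := by
    rw [hw, div_le_one (by positivity)]
    linarith
  have hη0 : 0 < η := by rw [hη]; positivity
  have hZ : 0 < ZZ d k q := ZZ_pos (by omega) hq
  have hZ1 : 1 ≤ ZZ d k q := by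
    unfold ZZ at hZ ⊢
    exact_mod_cast Nat.one_le_iff_ne_zero.2 (by
      intro h0
      rw [h0] at hZ
      simp at hZ)
  have hN : 0 < NN d k := by unfold NN; positivity
  have hq0 : (0 : ℝ) < q := by
    have : (2 : ℝ) ≤ q := by exact_mod_cast hq
    linarith
  have hd0 : (0 : ℝ) < d := by
    have : (35 : ℝ) ≤ d := by exact_mod_cast hd
    linarith
  by_cases hA : A' ⊆ cls b d k
  swap
  · have h0 : ((prps d k q).filter fun f =>
      A' ⊆ (cls b d k).filter fun x => 2 + ε ≤ Av (fun v => (q : ℝ) / (av f v : ℝ)) x) = ∅ := by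
      refine filter_eq_empty_iff.2 fun f _ h => hA (h.trans (filter_subset _ _))
    rw [h0, card_empty, Nat.cast_zero]
    positivity
  set U : Finset (Site d k) := A'.biUnion UU with hU
  have hdisj : (A' : Set (Site d k)).PairwiseDisjoint UU := fun x hx y hy hxy => hsep x hx y hy hxy
  have hUc : (U.card : ℝ) = T6 d * A'.card := by
    rw [hU, card_biUnion hdisj, sum_congr rfl fun x _ => UU_card hk x, sum_const, smul_eq_mul]
    push_cast
    ring
  have hUb : U ⊆ cls b d k := by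
    rw [hU]
    exact biUnion_subset.2 fun x hx => UU_cls (by omega) b (hA hx)
  set X : ℝ := (1 - w / 2) * w * (T6 d / q) * (2 + ε) * A'.card with hX
  -- lower bound
  have hlow : ∀ f ∈ (prps d k q).filter fun f =>
      A' ⊆ (cls b d k).filter fun x => 2 + ε ≤ Av (fun v => (q : ℝ) / (av f v : ℝ)) x,
      Real.exp X ≤ ∏ v ∈ U, (1 + w / (av f v : ℝ)) := by
    intro f hf
    obtain ⟨hf1, hf2⟩ := mem_filter.1 hf
    have hprp : Prp f := by
      unfold prps at hf1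
      exact (mem_filter.1 hf1).2
    have hav : ∀ v, (1 : ℝ) ≤ av f v := fun v => by exact_mod_cast av_pos hprp v
    have h1 : ∀ v ∈ U, Real.exp ((1 - w / 2) * (w / (av f v : ℝ))) ≤ 1 + w / (av f v : ℝ) := by
      intro v _
      refine L2b_exp (div_nonneg hw0.le (by linarith [hav v])) ?_
      exact div_le_self hw0.le (hav v)
    refine le_trans ?_ (prod_le_prod (fun v _ => (Real.exp_pos _).le) h1)
    rw [← Real.exp_sum, Real.exp_le_exp]
    have h2 : ∑ v ∈ U, (1 - w / 2) * (w / (av f v : ℝ)) =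
        ∑ x ∈ A', (1 - w / 2) * w * (T6 d / q) * Av (fun v => (q : ℝ) / (av f v : ℝ)) x := by
      rw [hU, sum_biUnion hdisj]
      refine sum_congr rfl fun x _ => ?_
      have hT : (0 : ℝ) < T6 d := by
        have := (T6_bounds hd).1
        have h3 : (0 : ℝ) < (2 * (d : ℝ) / 7) ^ 6 := by positivity
        linarith
      rw [Av_eq hk]
      rw [mul_div_assoc', mul_comm _ (∑ v ∈ UU x, (q : ℝ) / (av f v : ℝ)), sum_mul, sum_div]
      refine sum_congr rfl fun v _ => ?_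
      have h3 : (av f v : ℝ) ≠ 0 := by
        have := hav v
        linarith
      field_simp
    rw [h2, hX]
    have h4 : ∀ x ∈ A', (1 - w / 2) * w * (T6 d / q) * (2 + ε) ≤
        (1 - w / 2) * w * (T6 d / q) * Av (fun v => (q : ℝ) / (av f v : ℝ)) x := by
      intro x hx
      refine mul_le_mul_of_nonneg_left (mem_filter.1 (hf2 hx)).2 ?_
      have : 0 ≤ 1 - w / 2 := by linarith
      positivity
    have h5 := sum_le_sum h4
    rw [sum_const, nsmul_eq_mul] at h5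
    linarith
  -- the chessboard
  have hecb := ecb_extra (d := d) (k := k) (q := q) (by omega) hk hq w hw0.le b U hUb
  have hsumpos : 0 < ∑ f ∈ prps d k q, ∏ v ∈ U, (1 + w / (av f v : ℝ)) := by
    refine sum_pos (fun f _ => prod_pos fun v _ => ?_) ?_
    · positivity
    · rw [← card_pos]
      unfold ZZ at hZ
      exact_mod_cast hZ
  have hlogZ : 0 ≤ Real.log (ZZ d k q) := Real.log_nonneg hZ1
  have hWlog : Real.log (WW d k q b w) ≤ Real.log (ZZ d k q) + NN d k / q * (w + η) := by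
    rcases le_or_gt (WW d k q b w) 0 with h0 | h0
    · have h00 : 0 ≤ WW d k q b w := by
        have h1 := WW_mono (d := d) (k := k) (q := q) b (w := 0) (w' := w) le_rfl hw0.le
        rw [WW_zero (by omega) (by omega)] at h1
        linarith
      have h01 : WW d k q b w = 0 := le_antisymm h0 h00
      rw [h01, Real.log_zero]
      positivity
    · have h1 := Real.log_le_log h0 hWW
      rwa [Real.log_mul hZ.ne' (Real.exp_pos _).ne', Real.log_exp] at h1
  have herr2 : 4 * 2 ^ d * (d : ℝ) ^ 2 * NN d k * Real.log (q + 1) / 2 ^ k ≤ NN d k / (d : ℝ) ^ 19 := by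
    rw [div_le_div_iff₀ (by positivity) (by positivity)]
    have h1 := mul_le_mul_of_nonneg_left herr hN.le
    calc 4 * 2 ^ d * (d : ℝ) ^ 2 * NN d k * Real.log (q + 1) * (d : ℝ) ^ 19
        = NN d k * (4 * 2 ^ d * (d : ℝ) ^ 21 * Real.log (q + 1)) := by ring
      _ ≤ NN d k * 2 ^ k := h1
  have hfrac : 0 ≤ 2 * (U.card : ℝ) / NN d k := by positivity
  have htot : Real.log (∑ f ∈ prps d k q, ∏ v ∈ U, (1 + w / (av f v : ℝ))) ≤
      Real.log (ZZ d k q) + 2 * (T6 d * A'.card) / q * (w + η) + NN d k / (d : ℝ) ^ 19 := by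
    have h1 := mul_le_mul_of_nonneg_left hWlog hfrac
    have h2 : 2 * (U.card : ℝ) / NN d k * (NN d k / q * (w + η)) =
        2 * (T6 d * A'.card) / q * (w + η) := by
      rw [hUc]
      field_simp
    rw [mul_add, h2] at h1
    have h3 : (1 - 2 * (U.card : ℝ) / NN d k) * Real.log (ZZ d k q) =
        Real.log (ZZ d k q) - 2 * (U.card : ℝ) / NN d k * Real.log (ZZ d k q) := by ring
    rw [h3] at hecb
    linarith
  have hsum : ∑ f ∈ prps d k q, ∏ v ∈ U, (1 + w / (av f v : ℝ)) ≤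
      ZZ d k q * Real.exp (2 * (T6 d * A'.card) / q * (w + η) + NN d k / (d : ℝ) ^ 19) := by
    rw [← Real.log_le_log_iff hsumpos (by positivity), Real.log_mul hZ.ne' (Real.exp_pos _).ne', Real.log_exp]
    linarith
  -- Markov
  have hmk : (((prps d k q).filter fun f =>
      A' ⊆ (cls b d k).filter fun x => 2 + ε ≤ Av (fun v => (q : ℝ) / (av f v : ℝ)) x).card : ℝ) * Real.exp X ≤
      ∑ f ∈ prps d k q, ∏ v ∈ U, (1 + w / (av f v : ℝ)) := by
    rw [← nsmul_eq_mul]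
    refine (card_nsmul_le_sum _ _ _ hlow).trans ?_
    refine sum_le_sum_of_subset_of_nonneg (filter_subset _ _) fun f _ _ => prod_nonneg fun v _ => ?_
    positivity
  have h6 := (le_div_iff₀ (Real.exp_pos X)).2 (hmk.trans hsum)
  refine h6.trans (le_of_eq ?_)
  rw [mul_div_assoc, ← Real.exp_sub]
  congr 2
  have h7 : (1 - w / 2) * w * (2 + ε) - 2 * (w + η) = w * ε / 2 := by
    rw [hη, hw]
    field_simp
    ring
  have h8 : 2 * (T6 d * A'.card) / q * (w + η) + NN d k / (d : ℝ) ^ 19 - X =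
      -((T6 d / q) * A'.card * ((1 - w / 2) * w * (2 + ε) - 2 * (w + η))) + NN d k / (d : ℝ) ^ 19 := by
    rw [hX]
    ring
  rw [h8, h7]
  ring

open scoped Classical in
theorem rare_rainbow (ε : ℝ) (hε : 0 < ε) : Ev fun d k q => ∀ b : Bool,
    Rare d k q fun f => NN d k / (d : ℝ) ^ 5 ≤
      (((cls b d k).filter fun x => 2 + ε ≤ Av (fun v => (q : ℝ) / (av f v : ℝ)) x).card : ℝ) := by
  set w : ℝ := ε / (4 + 2 * ε) with hw
  set η : ℝ := w * ε / 8 with hη
  have hw0 : 0 < w := by rw [hw]; positivity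
  have hw1 : w ≤ 1 := by
    rw [hw, div_le_one (by positivity)]
    linarith
  have hη0 : 0 < η := by rw [hη]; positivity
  set M : ℝ := max 35 (2 * 7 ^ 6 / (w * ε)) with hM
  refine ((((extra_w w η hw0.le hw1 hη0).and (Ev_large M)).and (Ev_d rare_of)).and
    (Ev_pow fun d q => 4 * 2 ^ d * (d : ℝ) ^ 21 * Real.log (q + 1))).mono ?_
  rintro d k q ⟨⟨⟨h1, hq, hqd, hd, hk⟩, h2⟩, h3⟩ b
  have hM35 : (35 : ℝ) ≤ M := le_max_left _ _
  have hM2 : 2 * 7 ^ 6 / (w * ε) ≤ M := le_max_right _ _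
  have hd35 : 35 ≤ d := by
    have : (35 : ℝ) ≤ d := hM35.trans hd
    exact_mod_cast this
  have hk2 : 2 ≤ k := by
    have : (2 : ℝ) ≤ k := by linarith
    exact_mod_cast this
  have hq2 : 2 ≤ q := by
    have : (2 : ℝ) ≤ q := by linarith
    exact_mod_cast this
  have hq0 : (0 : ℝ) < q := by linarith
  have hd0 : (0 : ℝ) < d := by linarith
  have hqd' : (q : ℝ) ≤ d := by
    have : (1 : ℝ) * q ≤ M * q := mul_le_mul_of_nonneg_right (by linarith) hq0.le
    linarith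
  refine h2 k q _ (w * ε * T6 d / (2 * q)) ?_ fun A' hA' => L2b_main hε hw hη hd35 hk2 hq2 b (h1 b) h3 A' hA'
  rw [le_div_iff₀ (by positivity)]
  have hT := (T6_bounds hd35).1
  have h4 : 2 * 7 ^ 6 ≤ w * ε * d := by
    have h5 : 2 * 7 ^ 6 / (w * ε) ≤ d := hM2.trans hd
    rw [div_le_iff₀ (by positivity)] at h5
    linarith
  have hd1 : (1 : ℝ) ≤ d := by linarith
  calc (d : ℝ) ^ 2 * (2 * q) ≤ (d : ℝ) ^ 2 * (2 * d) := by gcongr
    _ = 2 * (d : ℝ) ^ 3 := by ring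
    _ ≤ 2 * (d : ℝ) ^ 5 := by
        have : (d : ℝ) ^ 3 ≤ (d : ℝ) ^ 5 := pow_le_pow_right₀ hd1 (by norm_num)
        linarith
    _ ≤ w * ε * (2 * (d : ℝ) / 7) ^ 6 := by
        have h5 : w * ε * (2 * (d : ℝ) / 7) ^ 6 = (w * ε * d) * (d : ℝ) ^ 5 * (2 ^ 6 / 7 ^ 6) := by
          ring
        rw [h5]
        have h6 : 2 * 7 ^ 6 * (d : ℝ) ^ 5 ≤ (w * ε * d) * (d : ℝ) ^ 5 :=
          mul_le_mul_of_nonneg_right h4 (by positivity)
        have h7 := mul_le_mul_of_nonneg_right h6 (show (0 : ℝ) ≤ 2 ^ 6 / 7 ^ 6 by positivity)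
        refine le_trans ?_ h7
        have h8 : 0 ≤ (d : ℝ) ^ 5 := by positivity
        linarith
    _ ≤ w * ε * T6 d := mul_le_mul_of_nonneg_left hT (by positivity)

end Pool.Agent.LIN
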