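import Pool.Agent.Lib_MP_2c424f_lin.E9
import Pool.Agent.Lib_MP_2c424f_lin.F3

/-!
# H30 L3: edge chessboard for a tilt of one colour

`S = Fin q`, labels `Bool`, `K false a b = 1[a ≠ b]`, `K true a b = 1[a ≠ b] exp (t (1[a=c] + 1[b=c]))`,
`w (x,l) = true` iff `l = i` and `x ∈ V` (`|V|` edges of `dN`).
`Zw w = ∑_{f proper} exp (t ∑_{v ∈ V} (1[f v = c] + 1[f (v+e_i) = c]))`, `Zw (const true) = ∑_f exp (2dt |Xc c f|)`
(every site has `2d` edges).  `a0, b0` = two different colours.
-/

set_option autoImplicit false

open Finset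

namespace Pool.Agent.LIN

open Pool.Agent.LO

variable {d k q : ℕ}

/-- the tilted kernel -/
private noncomputable def kT (t : ℝ) (c : Fin q) (l : Bool) (a b : Fin q) : ℝ :=
  if a = b then 0 else
    if l then Real.exp (t * ((if a = c then (1 : ℝ) else 0) + (if b = c then (1 : ℝ) else 0))) else 1

private theorem kT_nonneg (t : ℝ) (c : Fin q) (l : Bool) (a b : Fin q) : 0 ≤ kT t c l a b := by
  unfold kT
  split_ifs <;> positivity

private theorem kT_symm (t : ℝ) (c : Fin q) (l : Bool) (a b : Fin q) : kT t c l a b = kT t c l b a := by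
  unfold kT
  by_cases h : a = b
  · rw [if_pos h, if_pos h.symm]
  · rw [if_neg h, if_neg (Ne.symm h), add_comm]

private theorem kT_pos (t : ℝ) (c : Fin q) (l : Bool) (a b : Fin q) (h : a ≠ b) : 0 < kT t c l a b := by
  unfold kT
  rw [if_neg h]
  split_ifs <;> positivity

private theorem kT_edge (t : ℝ) (c : Fin q) (l : Bool) (f : Site d k → Fin q) (x : Site d k) (i : Fin d) :
    kT t c l (eE f x i) (eO f x i) = kT t c l (f x) (f (x + sv (i, true))) := by
  unfold eE eO
  by_cases h : evn x
  · rw [if_pos h, if_pos h]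
  · rw [if_neg h, if_neg h, kT_symm]

private theorem Zw_kT (t : ℝ) (c : Fin q) (w : Site d k → Fin d → Bool) :
    Zw (kT t c) w = ∑ f ∈ prps d k q, Real.exp (t * ∑ x, ∑ i,
      if w x i then ((if f x = c then (1 : ℝ) else 0) + (if f (x + sv (i, true)) = c then (1 : ℝ) else 0))
        else 0) := by
  classical
  unfold Zw prps
  rw [Finset.sum_filter]
  refine Finset.sum_congr rfl fun f _ => ?_
  have h1 : ∏ x, ∏ i, kT t c (w x i) (eE f x i) (eO f x i) =
      ∏ x, ∏ i, kT t c (w x i) (f x) (f (x + sv (i, true))) :=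
    Finset.prod_congr rfl fun x _ => Finset.prod_congr rfl fun i _ => kT_edge t c (w x i) f x i
  rw [h1]
  by_cases hf : Prp f
  · rw [if_pos hf, Finset.mul_sum, Real.exp_sum]
    refine Finset.prod_congr rfl fun x _ => ?_
    rw [Finset.mul_sum, Real.exp_sum]
    refine Finset.prod_congr rfl fun i _ => ?_
    unfold kT
    rw [if_neg (fun h => hf x (i, true) h.symm)]
    by_cases hw : w x i = true
    · rw [if_pos hw, if_pos hw]
    · rw [if_neg hw, if_neg hw, mul_zero, Real.exp_zero]
  · rw [if_neg hf]
    unfold Prp at hf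
    push Not at hf
    obtain ⟨x, ⟨i, b⟩, hx⟩ := hf
    cases b
    · refine Finset.prod_eq_zero (Finset.mem_univ (x + sv (i, false))) ?_
      refine Finset.prod_eq_zero (Finset.mem_univ i) ?_
      have h2 : x + sv (i, false) + sv (i, true) = x := by
        have h3 := sv_opp (k := k) i false
        rw [Bool.not_false] at h3
        rw [add_assoc, h3, add_zero]
      rw [h2]
      unfold kT
      rw [if_pos hx]
    · refine Finset.prod_eq_zero (Finset.mem_univ x) ?_
      refine Finset.prod_eq_zero (Finset.mem_univ i) ?_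
      unfold kT
      rw [if_pos hx.symm]

private theorem sum_ind (c : Fin q) (f : Site d k → Fin q) :
    ∑ x, (if f x = c then (1 : ℝ) else 0) = ((Xc c f).card : ℝ) := by
  unfold Xc
  rw [Finset.sum_boole]

private theorem sum_ind_shift (c : Fin q) (f : Site d k → Fin q) (i : Fin d) :
    ∑ x, (if f (x + sv (i, true)) = c then (1 : ℝ) else 0) = ((Xc c f).card : ℝ) := by
  rw [← sum_ind c f]
  exact Fintype.sum_equiv (Equiv.addRight (sv (i, true) : Site d k)) _ _ (fun x => rfl)

private theorem Zw_true (t : ℝ) (c : Fin q) :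
    Zw (kT t c) (fun (_ : Site d k) (_ : Fin d) => true) =
      ∑ f ∈ prps d k q, Real.exp (2 * d * t * (Xc c f).card) := by
  rw [Zw_kT]
  refine Finset.sum_congr rfl fun f _ => ?_
  congr 1
  have h : ∑ x : Site d k, ∑ i : Fin d,
      (if (true : Bool) = true then ((if f x = c then (1 : ℝ) else 0) +
        (if f (x + sv (i, true)) = c then (1 : ℝ) else 0)) else 0) = 2 * d * (Xc c f).card := by
    rw [Finset.sum_comm]
    have h2 : ∀ i : Fin d, ∑ x : Site d k,
      (if (true : Bool) = true then ((if f x = c then (1 : ℝ) else 0) +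
        (if f (x + sv (i, true)) = c then (1 : ℝ) else 0)) else 0) = 2 * (Xc c f).card := by
      intro i
      simp only [if_true]
      rw [Finset.sum_add_distrib, sum_ind, sum_ind_shift]
      ring
    rw [Finset.sum_congr rfl fun i _ => h2 i]
    rw [Finset.sum_const, Finset.card_univ, Fintype.card_fin, nsmul_eq_mul]
    ring
  rw [h]
  ring

private theorem Zw_false (t : ℝ) (c : Fin q) :
    Zw (kT t c) (fun (_ : Site d k) (_ : Fin d) => false) = ZZ d k q := by
  rw [Zw_kT]
  unfold ZZ
  simp

theorem ecb_tilt (hd : 2 ≤ d) (hk : 2 ≤ k) (hq : 2 ≤ q) (t : ℝ) (c : Fin q) (i : Fin d)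
    (V : Finset (Site d k)) :
    Real.log (∑ f ∈ prps d k q, Real.exp (t * ∑ v ∈ V,
        ((if f v = c then (1 : ℝ) else 0) + (if f (v + sv (i, true)) = c then (1 : ℝ) else 0)))) ≤
      (1 - V.card / (d * NN d k)) * Real.log (ZZ d k q) +
        V.card / (d * NN d k) * Real.log (∑ f ∈ prps d k q, Real.exp (2 * d * t * (Xc c f).card)) +
        4 * 2 ^ d * (d : ℝ) ^ 2 * NN d k * Real.log q / 2 ^ k := by
  classical
  have hne : (⟨0, by omega⟩ : Fin q) ≠ ⟨1, by omega⟩ := by
    intro h
    simp at h
  have hE := ecb hd hk (kT t c) (kT_nonneg t c) ⟨0, by omega⟩ ⟨1, by omega⟩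
    (fun l => kT_pos t c l _ _ hne) (fun (x : Site d k) (l : Fin d) => decide (l = i ∧ x ∈ V))
  rw [Fintype.card_fin] at hE
  have h1 : Zw (kT t c) (fun (x : Site d k) (l : Fin d) => decide (l = i ∧ x ∈ V)) =
      ∑ f ∈ prps d k q, Real.exp (t * ∑ v ∈ V,
        ((if f v = c then (1 : ℝ) else 0) + (if f (v + sv (i, true)) = c then (1 : ℝ) else 0))) := by
    rw [Zw_kT]
    refine Finset.sum_congr rfl fun f _ => ?_
    congr 2
    have h2 : ∀ x : Site d k, ∑ l : Fin d, (if decide (l = i ∧ x ∈ V) = true then
        ((if f x = c then (1 : ℝ) else 0) + (if f (x + sv (l, true)) = c then (1 : ℝ) else 0)) else 0) =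
        if x ∈ V then ((if f x = c then (1 : ℝ) else 0) +
          (if f (x + sv (i, true)) = c then (1 : ℝ) else 0)) else 0 := by
      intro x
      rw [Finset.sum_eq_single i]
      · by_cases hx : x ∈ V
        · rw [if_pos hx, if_pos (by simp [hx])]
        · rw [if_neg hx, if_neg (by simp [hx])]
      · intro l _ hl
        rw [if_neg (by simp [hl])]
      · intro h
        exact absurd (Finset.mem_univ i) h
    rw [Finset.sum_congr rfl fun x _ => h2 x, ← Finset.sum_filter]
    congr 1
    ext x
    simp
  have h3 : ∑ x : Site d k, ∑ l : Fin d,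
      Real.log (Zw (kT t c) fun (_ : Site d k) (_ : Fin d) => decide (l = i ∧ x ∈ V)) =
      V.card * Real.log (∑ f ∈ prps d k q, Real.exp (2 * d * t * (Xc c f).card)) +
        (d * NN d k - V.card) * Real.log (ZZ d k q) := by
    have h4 : ∀ x : Site d k, ∑ l : Fin d,
        Real.log (Zw (kT t c) fun (_ : Site d k) (_ : Fin d) => decide (l = i ∧ x ∈ V)) =
        (if x ∈ V then (Real.log (∑ f ∈ prps d k q, Real.exp (2 * d * t * (Xc c f).card)) -
          Real.log (ZZ d k q)) else 0) + d * Real.log (ZZ d k q) := by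
      intro x
      have h5 : ∀ l : Fin d,
          Real.log (Zw (kT t c) fun (_ : Site d k) (_ : Fin d) => decide (l = i ∧ x ∈ V)) =
          (if l = i then (if x ∈ V then
            (Real.log (∑ f ∈ prps d k q, Real.exp (2 * d * t * (Xc c f).card)) -
            Real.log (ZZ d k q)) else 0) else 0) + Real.log (ZZ d k q) := by
        intro l
        by_cases hl : l = i
        · by_cases hx : x ∈ V
          · rw [if_pos hl, if_pos hx]
            have : decide (l = i ∧ x ∈ V) = true := by simp [hl, hx]
            rw [this, Zw_true]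
            ring
          · rw [if_pos hl, if_neg hx]
            have : decide (l = i ∧ x ∈ V) = false := by simp [hx]
            rw [this, Zw_false]
            ring
        · rw [if_neg hl]
          have : decide (l = i ∧ x ∈ V) = false := by simp [hl]
          rw [this, Zw_false]
          ring
      rw [Finset.sum_congr rfl fun l _ => h5 l, Finset.sum_add_distrib, Finset.sum_ite_eq' Finset.univ i,
        if_pos (Finset.mem_univ i), Finset.sum_const, Finset.card_univ, Fintype.card_fin, nsmul_eq_mul]
    rw [Finset.sum_congr rfl fun x _ => h4 x, Finset.sum_add_distrib, ← Finset.sum_filter,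
      Finset.sum_const, Finset.sum_const, Finset.card_univ, nsmul_eq_mul, nsmul_eq_mul, card_site]
    have h6 : (Finset.univ.filter fun x => x ∈ V) = V := by
      ext x
      simp
    rw [h6]
    ring
  rw [h1, h3] at hE
  have hdN : (0 : ℝ) < d * NN d k := by
    have : (0 : ℝ) < d := by
      have : 0 < d := by omega
      exact_mod_cast this
    unfold NN
    positivity
  refine hE.trans (le_of_eq ?_)
  have h7 : ((V.card : ℝ) * Real.log (∑ f ∈ prps d k q, Real.exp (2 * d * t * (Xc c f).card)) +
      (d * NN d k - V.card) * Real.log (ZZ d k q)) / (d * NN d k) =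
      (1 - V.card / (d * NN d k)) * Real.log (ZZ d k q) +
        V.card / (d * NN d k) * Real.log (∑ f ∈ prps d k q, Real.exp (2 * d * t * (Xc c f).card)) := by
    have hdN' := hdN.ne'
    generalize (d : ℝ) * NN d k = D at hdN'
    field_simp
    ring
  rw [h7]

end Pool.Agent.LIN
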