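import Pool.Agent.Lib_MP_2c424f_lin.L4b

/-!
# H30 L4: resampling one class

`fib b f` = colourings which agree with `f` off the class `b` and are proper around the sites of the class `b`.
* `h ∈ fib b f` for proper `f`: `h` is proper, `SS h x = SS f x` for `x ∈ cls b`, `fib b h = fib b f`.
* `fib_sum`: `∑_f G f = ∑_f fm b G f` (double counting: `∑_f ∑_{h ∈ fib f} G h / |fib f| = ∑_h G h |fib h|/|fib h|`).
* `fm_prod`: for `U ⊆ cls b` and functions `φ v` of the colour at `v`:
  mean over the fibre of `∏_{v ∈ U} φ v (h v)` is `∏_{v ∈ U} (∑_{c ∉ SS f v} φ v c)/av f v` (`Finset.prod_univ_sum`,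
  `Fintype.piFinset`).
-/
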