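import Pool.Agent.Lib_MP_2c424f_lin.F2

/-!
# H30 L4a: resampling one class

`fib b f` = colourings which agree with `f` off the class `b` and are proper around the sites of the class `b`.
* `h ∈ fib b f` for proper `f`: `h` is proper, `SS h x = SS f x` for `x ∈ cls b`, `fib b h = fib b f`.
* `fib_sum`: `∑_f G f = ∑_f fm b G f` (double counting: `∑_f ∑_{h ∈ fib f} G h / |fib f| = ∑_h G h |fib h|/|fib h|`).
* `fm_prod`: for `U ⊆ cls b` and functions `φ v` of the colour at `v`:
  mean over the fibre of `∏_{v ∈ U} φ v (h v)` is `∏_{v ∈ U} (∑_{c ∉ SS f v} φ v c)/av f v` (`Finset.prod_univ_sum`,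
  `Fintype.piFinset`).
-/

set_option autoImplicit false

open Finset

namespace Pool.Agent.LIN

open Pool.Agent.LO

variable {d k q : ℕ}

private theorem L4a_cls (b : Bool) (x : Site d k) :
    x ∈ cls b d k ↔ (if b then evn x else ¬ evn x) := by
  unfold cls
  cases b
  · simp [ods]
  · simp [evs]

private theorem L4a_nbr (hk : 1 ≤ k) (b : Bool) (x : Site d k) (σ : Stp d) :
    x + sv σ ∈ cls b d k ↔ x ∉ cls b d k := by
  rw [L4a_cls, L4a_cls]
  have h := evn_step hk x σ
  cases b
  · simp only [Bool.false_eq_true, if_false]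
    rw [h]
  · simp only [if_true]
    exact h

private theorem L4a_mem (b : Bool) (f h : Site d k → Fin q) :
    h ∈ fib b f ↔ (∀ x ∈ cls b d k, h x ∉ SS f x) ∧ ∀ x, x ∉ cls b d k → h x = f x := by
  unfold fib
  rw [Fintype.mem_piFinset]
  constructor
  · intro hh
    refine ⟨fun x hx => ?_, fun x hx => ?_⟩
    · have := hh x
      rw [if_pos hx, mem_compl] at this
      exact this
    · have := hh x
      rw [if_neg hx, mem_singleton] at this
      exact this
  · rintro ⟨h1, h2⟩ x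
    split_ifs with hx
    · exact mem_compl.2 (h1 x hx)
    · exact mem_singleton.2 (h2 x hx)

private theorem L4a_SS (f : Site d k → Fin q) (x : Site d k) (σ : Stp d) :
    f (x + sv σ) ∈ SS f x := mem_image_of_mem _ (mem_univ σ)

theorem fib_self (b : Bool) {f : Site d k → Fin q} (hf : Prp f) : f ∈ fib b f := by
  rw [L4a_mem]
  refine ⟨fun x _ hx => ?_, fun _ _ => rfl⟩
  obtain ⟨σ, -, hσ⟩ := mem_image.1 hx
  exact hf x σ hσ

theorem fib_prp (hk : 1 ≤ k) (b : Bool) {f h : Site d k → Fin q} (hf : Prp f) (hh : h ∈ fib b f) : Prp h := by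
  obtain ⟨h1, h2⟩ := (L4a_mem b f h).1 hh
  intro x σ
  by_cases hx : x ∈ cls b d k
  · have h3 : x + sv σ ∉ cls b d k := fun h4 => (L4a_nbr hk b x σ).1 h4 hx
    rw [h2 _ h3]
    intro h4
    exact h1 x hx (h4 ▸ L4a_SS f x σ)
  · have h3 : x + sv σ ∈ cls b d k := (L4a_nbr hk b x σ).2 hx
    rw [h2 x hx]
    intro h4
    obtain ⟨i, c⟩ := σ
    have h5 := L4a_SS f (x + sv (i, c)) (i, !c)
    rw [add_assoc, sv_opp, add_zero, ← h4] at h5
    exact h1 _ h3 h5

theorem fib_off (b : Bool) {f h : Site d k → Fin q} (hh : h ∈ fib b f) (x : Site d k) (hx : x ∉ cls b d k) :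
    h x = f x := by
  exact ((L4a_mem b f h).1 hh).2 x hx

theorem fib_SS (hk : 1 ≤ k) (b : Bool) {f h : Site d k → Fin q} (hh : h ∈ fib b f) (x : Site d k)
    (hx : x ∈ cls b d k) : SS h x = SS f x := by
  unfold SS
  refine image_congr fun σ _ => ?_
  exact fib_off b hh _ fun h4 => (L4a_nbr hk b x σ).1 h4 hx

theorem fib_eq (hk : 1 ≤ k) (b : Bool) {f h : Site d k → Fin q} (hh : h ∈ fib b f) : fib b h = fib b f := by
  unfold fib
  congr 1
  funext x
  split_ifs with hx
  · rw [fib_SS hk b hh x hx]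
  · rw [fib_off b hh x hx]

theorem fib_sum (hk : 1 ≤ k) (b : Bool) (G : (Site d k → Fin q) → ℝ) :
    ∑ f ∈ prps d k q, G f = ∑ f ∈ prps d k q, fm b G f := by
  classical
  unfold fm
  simp_rw [Finset.sum_div]
  have hmem : ∀ f h : Site d k → Fin q, f ∈ prps d k q ∧ h ∈ fib b f ↔
      f ∈ fib b h ∧ h ∈ prps d k q := by
    have hone : ∀ f h : Site d k → Fin q, f ∈ prps d k q → h ∈ fib b f →
        f ∈ fib b h ∧ h ∈ prps d k q := by
      intro f h hf hh
      have hf' : Prp f := (mem_filter.1 hf).2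
      refine ⟨?_, mem_filter.2 ⟨mem_univ _, fib_prp hk b hf' hh⟩⟩
      rw [fib_eq hk b hh]
      exact fib_self b hf'
    intro f h
    exact ⟨fun hh => hone f h hh.1 hh.2, fun hh => (hone h f hh.2 hh.1).symm⟩
  rw [Finset.sum_comm' (s' := fun h => fib b h) (t' := prps d k q) hmem]
  refine Finset.sum_congr rfl fun h hh => ?_
  have hh' : Prp h := (mem_filter.1 hh).2
  have h1 : ∀ f ∈ fib b h, G h / ((fib b f).card : ℝ) = G h / ((fib b h).card : ℝ) := by
    intro f hf
    rw [fib_eq hk b hf]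
  rw [Finset.sum_congr rfl h1, sum_const, nsmul_eq_mul]
  have h2 : ((fib b h).card : ℝ) ≠ 0 := by
    rw [Nat.cast_ne_zero]
    exact card_ne_zero_of_mem (fib_self b hh')
  field_simp

end Pool.Agent.LIN
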