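import Pool.Agent.Lib_MP_2c424f_lin.L4a

/-!
# H30 L4b: resampling one class

`fib b f` = colourings which agree with `f` off the class `b` and are proper around the sites of the class `b`.
* `h ∈ fib b f` for proper `f`: `h` is proper, `SS h x = SS f x` for `x ∈ cls b`, `fib b h = fib b f`.
* `fib_sum`: `∑_f G f = ∑_f fm b G f` (double counting: `∑_f ∑_{h ∈ fib f} G h / |fib f| = ∑_h G h |fib h|/|fib h|`).
* `fm_prod`: for `U ⊆ cls b` and functions `φ v` of the colour at `v`:
  mean over the fibre of `∏_{v ∈ U} φ v (h v)` is `∏_{v ∈ U} (∑_{c ∉ SS f v} φ v c)/av f v` (`Finset.prod_univ_sum`,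
  `Fintype.piFinset`).
-/

set_option autoImplicit false

open Finset

namespace Pool.Agent.LIN

open Pool.Agent.LO

variable {d k q : ℕ}

theorem fm_prod (hk : 1 ≤ k) (b : Bool) {f : Site d k → Fin q} (hf : Prp f) (U : Finset (Site d k))
    (hU : U ⊆ cls b d k) (φ : Site d k → Fin q → ℝ) :
    fm b (fun h => ∏ v ∈ U, φ v (h v)) f = ∏ v ∈ U, (∑ c ∈ (SS f v)ᶜ, φ v c) / (av f v : ℝ) := by
  classical
  have _ := hk
  set t : Site d k → Finset (Fin q) := fun x => if x ∈ cls b d k then (SS f x)ᶜ else {f x} with ht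
  have hfib : fib b f = Fintype.piFinset t := by
    rw [ht]
    unfold fib
    congr 1
  have hcard : ∀ x ∈ cls b d k, ((t x).card : ℝ) = av f x := by
    intro x hx
    simp only [ht, if_pos hx]
    rw [card_compl, Fintype.card_fin]
    rfl
  have hpos : ∀ x, ((t x).card : ℝ) ≠ 0 := by
    intro x
    by_cases hx : x ∈ cls b d k
    · rw [hcard x hx]
      have := av_pos hf x
      exact_mod_cast (by omega : av f x ≠ 0)
    · simp only [ht, if_neg hx, card_singleton, Nat.cast_one, ne_eq, one_ne_zero, not_false_eq_true]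
  unfold fm
  rw [hfib, Fintype.card_piFinset]
  have h1 : ∀ h : Site d k → Fin q, ∏ v ∈ U, φ v (h v) =
      ∏ v, (if v ∈ U then φ v (h v) else 1) := by
    intro h
    rw [prod_ite_mem, univ_inter]
  rw [sum_congr rfl fun h _ => h1 h,
    ← prod_univ_sum t (fun v c => if v ∈ U then φ v c else 1), Nat.cast_prod, ← prod_div_distrib]
  rw [← prod_subset (subset_univ U)]
  · refine prod_congr rfl fun v hv => ?_
    have hv' := hU hv
    rw [hcard v hv']
    simp only [ht, if_pos hv', if_pos hv]
  · intro x _ hx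
    simp only [if_neg hx, sum_const, nsmul_eq_mul, mul_one]
    exact div_self (hpos x)

end Pool.Agent.LIN
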