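import Pool.Agent.Lib_MP_2c424f_lin.L6d

/-!
# H30 L6: exceptional sites for functions of the neighbours (6.3)(i)

`g v f` (`v ∈ cls b`) depends on the colours of the class `b` and of the neighbours of `v` only (`Loc b g`).
* `loc_exp`: on a fibre `fib (!b) f` (a product over the sites of the class `!b`, L4) apply `mcdiarmid` to
  `F h = θ ∑_{v ∈ U} g v h`: changing the colour of `u ∈ cls (!b)` affects only `v ∈ U` adjacent to `u`: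
  `c u = θ #(U ∩ N(u)) ≤ 2dθ ≤ 1`, `∑ c u² ≤ 2dθ² ∑_u #(U ∩ N(u)) = 4d²θ²|U|`; `fm (!b) (g v)` is constant on the fibre
  (`fib_eq`), `fib_sum`.
* `rare_loc`: `θ = ε/(8d²)`, `U = ⋃_{x∈A'} UU x`, `|U| = T6|A'|`, `∑_{v∈U} (g v f - fm) = T6 ∑_{x ∈ A'} Av(..) x ≥ ε T6 |A'|`:
  `P(A' ⊆ A f) ≤ exp (-(ε²T6/(16d²))|A'|)`, `G = ε² T6/(16 d²) ≥ d²` for large `d`; `rare_half`.
* `rare_glob`: `U = cls b`: `P(∑_{cls b} (g - fm) ≥ εN) ≤ exp (-θεN + 4d²θ²N/2) ≤ exp (-ε²N/(16d²)) ≤ exp (-N/d^3)`.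
-/
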