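import Pool.Agent.Lib_MP_2c424f_lin.L4
import Pool.Agent.Lib_MP_2c424f_lin.L5
import Pool.Agent.Lib_MP_2c424f_lin.L1b

/-!
# H30 L6a: exceptional sites for functions of the neighbours (6.3)(i)

`g v f` (`v ∈ cls b`) depends on the colours of the class `b` and of the neighbours of `v` only (`Loc b g`).
* `loc_exp`: on a fibre `fib (!b) f` (a product over the sites of the class `!b`, L4) apply `mcdiarmid` to
  `F h = θ ∑_{v ∈ U} g v h`: changing the colour of `u ∈ cls (!b)` affects only `v ∈ U` adjacent to `u`: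
  `c u = θ #(U ∩ N(u)) ≤ 2dθ ≤ 1`, `∑ c u² ≤ 2dθ² ∑_u #(U ∩ N(u)) = 4d²θ²|U|`; `fm (!b) (g v)` is constant on the fibre
  (`fib_eq`), `fib_sum`.
* `rare_loc`: `θ = ε/(8d²)`, `U = ⋃_{x∈A'} UU x`, `|U| = T6|A'|`, `∑_{v∈U} (g v f - fm) = T6 ∑_{x ∈ A'} Av(..) x ≥ ε T6 |A'|`:
  `P(A' ⊆ A f) ≤ exp (-(ε²T6/(16d²))|A'|)`, `G = ε² T6/(16 d²) ≥ d²` for large `d`; `rare_half`.
* `rare_glob`: `U = cls b`: `P(∑_{cls b} (g - fm) ≥ εN) ≤ exp (-θεN + 4d²θ²N/2) ≤ exp (-ε²N/(16d²)) ≤ exp (-N/d^3)`.
-/

set_option autoImplicit false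

open Finset Filter

namespace Pool.Agent.LIN

open Pool.Agent.LO

/-- `g v` depends on the class `b` and the neighbours of `v` -/
def Loc {d k q : ℕ} (b : Bool) (g : Site d k → (Site d k → Fin q) → ℝ) : Prop :=
  (∀ v ∈ cls b d k, ∀ f, 0 ≤ g v f ∧ g v f ≤ 1) ∧
    ∀ v ∈ cls b d k, ∀ f f' : Site d k → Fin q, (∀ x ∈ cls b d k, f x = f' x) →
      (∀ σ : Stp d, f (v + sv σ) = f' (v + sv σ)) → g v f = g v f'

/-- number of steps from `i` into `U` -/
private noncomputable def L6a_cnt {d k : ℕ} (U : Finset (Site d k)) (i : Site d k) : ℝ :=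
  ∑ σ : Stp d, if i + sv σ ∈ U then (1 : ℝ) else 0

private theorem L6a_cnt_nonneg {d k : ℕ} (U : Finset (Site d k)) (i : Site d k) :
    0 ≤ L6a_cnt U i :=
  Finset.sum_nonneg fun σ _ => by split_ifs <;> norm_num

private theorem L6a_card {d : ℕ} : ((univ : Finset (Stp d)).card : ℝ) = 2 * d := by
  rw [Finset.card_univ, Fintype.card_prod, Fintype.card_fin, Fintype.card_bool]
  push_cast
  ring

private theorem L6a_cnt_le {d k : ℕ} (U : Finset (Site d k)) (i : Site d k) :
    L6a_cnt U i ≤ 2 * d := by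
  unfold L6a_cnt
  calc _ ≤ ∑ _σ : Stp d, (1 : ℝ) := Finset.sum_le_sum fun σ _ => by split_ifs <;> norm_num
    _ = 2 * d := by rw [Finset.sum_const, nsmul_eq_mul, mul_one, L6a_card]

private theorem L6a_cnt_sum {d k : ℕ} (U : Finset (Site d k)) :
    ∑ i : Site d k, L6a_cnt U i = 2 * d * U.card := by
  unfold L6a_cnt
  rw [Finset.sum_comm]
  have h1 : ∀ σ : Stp d, ∑ i : Site d k, (if i + sv σ ∈ U then (1 : ℝ) else 0) = U.card := by
    intro σ
    have h2 := Equiv.sum_comp (Equiv.addRight (sv σ : Site d k))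
      (fun i => if i ∈ U then (1 : ℝ) else 0)
    simp only [Equiv.coe_addRight] at h2
    refine h2.trans ?_
    rw [Finset.sum_ite_mem, Finset.univ_inter, Finset.sum_const, nsmul_eq_mul, mul_one]
  rw [Finset.sum_congr rfl fun σ _ => h1 σ, Finset.sum_const, nsmul_eq_mul, L6a_card]

/-- the neighbours of `i` in `U` -/
private theorem L6a_nbr {d k : ℕ} (U : Finset (Site d k)) (i : Site d k) (φ : Site d k → ℝ)
    (h1 : ∀ v ∈ U, |φ v| ≤ 1) (h0 : ∀ v ∈ U, (∀ σ : Stp d, v + sv σ ≠ i) → φ v = 0) :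
    |∑ v ∈ U, φ v| ≤ L6a_cnt U i := by
  classical
  have key : ∀ v ∈ U, |φ v| ≤ ∑ σ : Stp d, if i + sv σ = v then (1 : ℝ) else 0 := by
    intro v hv
    by_cases h : ∃ σ : Stp d, v + sv σ = i
    · obtain ⟨σ, hσ⟩ := h
      have h2 : i + sv (σ.1, !σ.2) = v := by
        have h3 := sv_opp (k := k) σ.1 σ.2
        rw [← hσ, add_assoc]
        have h4 : (sv σ : Site d k) = sv (σ.1, σ.2) := rfl
        rw [h4, h3, add_zero]
      refine (h1 v hv).trans ?_
      calc (1 : ℝ) = if i + sv (σ.1, !σ.2) = v then (1 : ℝ) else 0 := by rw [if_pos h2]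
        _ ≤ _ := Finset.single_le_sum (f := fun σ : Stp d => if i + sv σ = v then (1 : ℝ) else 0)
          (fun σ _ => by positivity) (Finset.mem_univ (σ.1, !σ.2))
    · push Not at h
      rw [h0 v hv h, abs_zero]
      exact Finset.sum_nonneg fun σ _ => by positivity
  calc |∑ v ∈ U, φ v| ≤ ∑ v ∈ U, |φ v| := Finset.abs_sum_le_sum_abs _ _
    _ ≤ ∑ v ∈ U, ∑ σ : Stp d, (if i + sv σ = v then (1 : ℝ) else 0) := Finset.sum_le_sum key
    _ = ∑ σ : Stp d, ∑ v ∈ U, (if i + sv σ = v then (1 : ℝ) else 0) := Finset.sum_comm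
    _ = L6a_cnt U i := by
      unfold L6a_cnt
      refine Finset.sum_congr rfl fun σ _ => ?_
      rw [Finset.sum_ite_eq]

theorem loc_exp {d k q : ℕ} (hd : 1 ≤ d) (hk : 2 ≤ k) (b : Bool) (g : Site d k → (Site d k → Fin q) → ℝ)
    (hg : Loc b g) (U : Finset (Site d k)) (hU : U ⊆ cls b d k) (θ : ℝ) (hθ : 0 ≤ θ) (hθ1 : 2 * d * θ ≤ 1) :
    ∑ f ∈ prps d k q, Real.exp (θ * ∑ v ∈ U, (g v f - fm (!b) (g v) f)) ≤
      ZZ d k q * Real.exp (4 * (d : ℝ) ^ 2 * θ ^ 2 * U.card) := by
  classical
  have hk1 : 1 ≤ k := by omega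
  rw [fib_sum hk1 (!b) (fun f => Real.exp (θ * ∑ v ∈ U, (g v f - fm (!b) (g v) f)))]
  have key : ∀ f ∈ prps d k q,
      fm (!b) (fun f => Real.exp (θ * ∑ v ∈ U, (g v f - fm (!b) (g v) f))) f ≤
      Real.exp (4 * (d : ℝ) ^ 2 * θ ^ 2 * U.card) := by
    intro f hf
    have hfp : Prp f := by
      unfold prps at hf
      exact (Finset.mem_filter.1 hf).2
    have hself := fib_self (!b) hfp
    set t : Site d k → Finset (Fin q) := fun x => if x ∈ cls (!b) d k then (SS f x)ᶜ else {f x}
      with ht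
    have hfib : fib (!b) f = Fintype.piFinset t := by
      unfold fib
      rw [ht]
    set c : Site d k → ℝ := fun i => if i ∈ cls (!b) d k then θ * L6a_cnt U i else 0 with hc
    set F : (Site d k → Fin q) → ℝ := fun h => θ * ∑ v ∈ U, (g v h - fm (!b) (g v) f) with hF
    have hc0 : ∀ i, 0 ≤ c i := by
      intro i
      rw [hc]
      dsimp only
      split_ifs
      · exact mul_nonneg hθ (L6a_cnt_nonneg U i)
      · exact le_rfl
    have hc1 : ∀ i, c i ≤ 1 := by
      intro i
      rw [hc]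
      dsimp only
      split_ifs
      · calc θ * L6a_cnt U i ≤ θ * (2 * d) := mul_le_mul_of_nonneg_left (L6a_cnt_le U i) hθ
          _ = 2 * d * θ := by ring
          _ ≤ 1 := hθ1
      · exact zero_le_one
    have htne : ∀ i, (t i).Nonempty := fun i =>
      ⟨f i, Fintype.mem_piFinset.1 (hfib ▸ hself) i⟩
    have hdiff : ∀ h ∈ Fintype.piFinset t, ∀ i, ∀ a ∈ t i,
        |F (Function.update h i a) - F h| ≤ c i := by
      intro h hh i a ha
      by_cases hi : i ∈ cls (!b) d k
      · have hib : i ∉ cls b d k := (cls_not b i).1 hi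
        have h1 : F (Function.update h i a) - F h =
            θ * ∑ v ∈ U, (g v (Function.update h i a) - g v h) := by
          rw [hF]
          dsimp only
          rw [← mul_sub, ← Finset.sum_sub_distrib]
          congr 1
          refine Finset.sum_congr rfl fun v _ => ?_
          ring
        have h2 : |∑ v ∈ U, (g v (Function.update h i a) - g v h)| ≤ L6a_cnt U i := by
          refine L6a_nbr U i _ (fun v hv => ?_) (fun v hv hn => ?_)
          · have e1 := hg.1 v (hU hv) (Function.update h i a)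
            have e2 := hg.1 v (hU hv) h
            rw [abs_le]
            constructor <;> linarith [e1.1, e1.2, e2.1, e2.2]
          · rw [sub_eq_zero]
            refine hg.2 v (hU hv) _ _ (fun x hx => ?_) (fun σ => ?_)
            · have hxi : x ≠ i := fun e => hib (e ▸ hx)
              rw [Function.update_of_ne hxi]
            · rw [Function.update_of_ne (hn σ)]
        rw [h1, abs_mul, abs_of_nonneg hθ, hc]
        dsimp only
        rw [if_pos hi]
        exact mul_le_mul_of_nonneg_left h2 hθ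
      · have hti : t i = {f i} := by
          rw [ht]
          dsimp only
          rw [if_neg hi]
        have h1 : a = f i := by
          rw [hti] at ha
          exact Finset.mem_singleton.1 ha
        have h2 : h i = f i := by
          have := Fintype.mem_piFinset.1 hh i
          rw [hti] at this
          exact Finset.mem_singleton.1 this
        have h3 : Function.update h i a = h := by
          rw [h1, ← h2, Function.update_eq_self]
        rw [h3, sub_self, abs_zero]
        exact hc0 i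
    have hmc := mcdiarmid t htne F c hc0 hc1 hdiff
    have hcard : 0 < ((Fintype.piFinset t).card : ℝ) := by
      rw [← hfib]
      exact_mod_cast Finset.card_pos.2 ⟨f, hself⟩
    have hmean : ∑ h ∈ Fintype.piFinset t, F h = 0 := by
      rw [hF]
      dsimp only
      rw [← Finset.mul_sum, Finset.sum_comm]
      refine mul_eq_zero_of_right _ (Finset.sum_eq_zero fun v _ => ?_)
      rw [Finset.sum_sub_distrib, Finset.sum_const, nsmul_eq_mul, ← hfib]
      unfold fm
      rw [← hfib] at hcard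
      rw [mul_div_cancel₀ _ hcard.ne', sub_self]
    have hc2 : ∑ i, c i ^ 2 ≤ 4 * (d : ℝ) ^ 2 * θ ^ 2 * U.card := by
      calc ∑ i, c i ^ 2 ≤ ∑ i : Site d k, θ ^ 2 * (2 * d) * L6a_cnt U i := by
            refine Finset.sum_le_sum fun i _ => ?_
            have e0 := L6a_cnt_nonneg U i
            have e1 := L6a_cnt_le U i
            rw [hc]
            dsimp only
            split_ifs
            · calc (θ * L6a_cnt U i) ^ 2 = θ ^ 2 * (L6a_cnt U i * L6a_cnt U i) := by ring
                _ ≤ θ ^ 2 * ((2 * d) * L6a_cnt U i) :=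
                    mul_le_mul_of_nonneg_left (mul_le_mul_of_nonneg_right e1 e0) (sq_nonneg θ)
                _ = θ ^ 2 * (2 * d) * L6a_cnt U i := by ring
            · have : 0 ≤ θ ^ 2 * (2 * d) * L6a_cnt U i := by positivity
              simpa using this
        _ = 4 * (d : ℝ) ^ 2 * θ ^ 2 * U.card := by
            rw [← Finset.mul_sum, L6a_cnt_sum]
            ring
    have hG : ∀ h ∈ fib (!b) f, Real.exp (θ * ∑ v ∈ U, (g v h - fm (!b) (g v) h)) =
        Real.exp (F h) := by
      intro h hh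
      have e : fib (!b) h = fib (!b) f := fib_eq hk1 (!b) hh
      rw [hF]
      dsimp only
      congr 2
      refine Finset.sum_congr rfl fun v _ => ?_
      congr 1
      unfold fm
      rw [e]
    unfold fm at hG ⊢
    rw [Finset.sum_congr rfl hG, hfib, div_le_iff₀ hcard]
    calc _ ≤ _ := hmc
      _ ≤ _ := by
        rw [hmean, zero_div, zero_add, mul_comm]
        exact mul_le_mul_of_nonneg_right (Real.exp_le_exp.2 hc2) hcard.le
  calc _ ≤ ∑ _f ∈ prps d k q, Real.exp (4 * (d : ℝ) ^ 2 * θ ^ 2 * U.card) :=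
        Finset.sum_le_sum key
    _ = _ := by
        rw [Finset.sum_const, nsmul_eq_mul]
        rfl

end Pool.Agent.LIN
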