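import Pool.Agent.Lib_MP_2c424f_lin.L6a

/-!
# H30 L6c: exceptional sites for functions of the neighbours (6.3)(i)

`g v f` (`v ∈ cls b`) depends on the colours of the class `b` and of the neighbours of `v` only (`Loc b g`).
* `loc_exp`: on a fibre `fib (!b) f` (a product over the sites of the class `!b`, L4) apply `mcdiarmid` to
  `F h = θ ∑_{v ∈ U} g v h`: changing the colour of `u ∈ cls (!b)` affects only `v ∈ U` adjacent to `u`:
  `c u = θ #(U ∩ N(u)) ≤ 2dθ ≤ 1`, `∑ c u² ≤ 2dθ² ∑_u #(U ∩ N(u)) = 4d²θ²|U|`; `fm (!b) (g v)` is constant on the fibre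
  (`fib_eq`), `fib_sum`.
* `rare_loc`: `θ = ε/(8d²)`, `U = ⋃_{x∈A'} UU x`, `|U| = T6|A'|`, `∑_{v∈U} (g v f - fm) = T6 ∑_{x ∈ A'} Av(..) x ≥ ε T6 |A'|`:
  `P(A' ⊆ A f) ≤ exp (-(ε²T6/(16d²))|A'|)`, `G = ε² T6/(16 d²) ≥ d²` for large `d`; `rare_half`.
* `rare_glob`: `U = cls b`: `P(∑_{cls b} (g - fm) ≥ εN) ≤ exp (-θεN + 4d²θ²N/2) ≤ exp (-ε²N/(16d²)) ≤ exp (-N/d^3)`.
-/

set_option autoImplicit false

open Finset Filter

namespace Pool.Agent.LIN

open Pool.Agent.LO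

open scoped Classical in
private theorem L6c_one {d k q : ℕ} (ε : ℝ) (hε : 0 < ε) (hd : 35 ≤ d) (hk : 2 ≤ k)
    (hθ1 : ε ≤ 4 * d) (b : Bool) (g : Site d k → (Site d k → Fin q) → ℝ) (hg : Loc b g)
    (A' : Finset (Site d k)) (hs : sep A') :
    (((prps d k q).filter fun f => A' ⊆
      (cls b d k).filter fun x => ε ≤ Av (fun v => g v f - fm (!b) (g v) f) x).card : ℝ) ≤
      ZZ d k q * Real.exp (-(ε ^ 2 * T6 d / (16 * (d : ℝ) ^ 2) * A'.card)) := by
  have hZ : 0 ≤ ZZ d k q := by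
    unfold ZZ
    positivity
  by_cases hc : A' ⊆ cls b d k
  swap
  · rw [Finset.filter_false_of_mem]
    · rw [Finset.card_empty, Nat.cast_zero]
      exact mul_nonneg hZ (Real.exp_pos _).le
    · intro f _ h
      exact hc (h.trans (Finset.filter_subset _ _))
  have hT := T6_bounds hd
  have hd0 : (0 : ℝ) < d := by
    have : (35 : ℝ) ≤ d := by exact_mod_cast hd
    linarith
  have hT0 : (0 : ℝ) < T6 d := lt_of_lt_of_le (by positivity) hT.1
  set U : Finset (Site d k) := A'.biUnion fun x => UU x with hU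
  have hdisj : ∀ x ∈ A', ∀ y ∈ A', x ≠ y → Disjoint (UU x) (UU y) := hs
  have hUc : U ⊆ cls b d k := by
    rw [hU, Finset.biUnion_subset]
    intro x hx
    exact UU_cls (by omega) b (hc hx)
  have hUcard : (U.card : ℝ) = T6 d * A'.card := by
    rw [hU, Finset.card_biUnion hdisj, Finset.sum_congr rfl fun x _ => UU_card hk x,
      Finset.sum_const, smul_eq_mul]
    push_cast
    ring
  set θ : ℝ := ε / (8 * (d : ℝ) ^ 2) with hθ
  have hθ0 : 0 ≤ θ := by rw [hθ]; positivity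
  have hθ2 : 2 * d * θ ≤ 1 := by
    have : 2 * d * θ = ε / (4 * d) := by
      rw [hθ]
      field_simp
      ring
    rw [this, div_le_one (by positivity)]
    exact hθ1
  have hL := loc_exp (by omega) hk b g hg U hUc θ hθ0 hθ2
  set P := (prps d k q).filter fun f => A' ⊆
      (cls b d k).filter fun x => ε ≤ Av (fun v => g v f - fm (!b) (g v) f) x with hP
  have hlow : (P.card : ℝ) * Real.exp (θ * (ε * T6 d * A'.card)) ≤
      ∑ f ∈ prps d k q, Real.exp (θ * ∑ v ∈ U, (g v f - fm (!b) (g v) f)) := by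
    calc (P.card : ℝ) * Real.exp (θ * (ε * T6 d * A'.card))
        = ∑ _f ∈ P, Real.exp (θ * (ε * T6 d * A'.card)) := by
          rw [Finset.sum_const, nsmul_eq_mul]
      _ ≤ ∑ f ∈ P, Real.exp (θ * ∑ v ∈ U, (g v f - fm (!b) (g v) f)) := by
          refine Finset.sum_le_sum fun f hf => ?_
          refine Real.exp_le_exp.2 (mul_le_mul_of_nonneg_left ?_ hθ0)
          rw [hU, Finset.sum_biUnion hdisj]
          have h1 : ∀ x ∈ A', ε * T6 d ≤ ∑ v ∈ UU x, (g v f - fm (!b) (g v) f) := by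
            intro x hx
            have h2 := (Finset.mem_filter.1 ((Finset.mem_filter.1 hf).2 hx)).2
            rw [Av_eq hk, le_div_iff₀ hT0] at h2
            exact h2
          calc ε * T6 d * A'.card = ∑ _x ∈ A', ε * T6 d := by
                rw [Finset.sum_const, nsmul_eq_mul]
                ring
            _ ≤ _ := Finset.sum_le_sum h1
      _ ≤ _ := Finset.sum_le_sum_of_subset_of_nonneg (Finset.filter_subset _ _)
          fun f _ _ => (Real.exp_pos _).le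
  have h3 := hlow.trans hL
  rw [hUcard] at h3
  have h4 : 4 * (d : ℝ) ^ 2 * θ ^ 2 * (T6 d * A'.card) =
      θ * (ε * T6 d * A'.card) + -(ε ^ 2 * T6 d / (16 * (d : ℝ) ^ 2) * A'.card) := by
    rw [hθ]
    field_simp
    ring
  rw [h4, Real.exp_add] at h3
  have h5 := Real.exp_pos (θ * (ε * T6 d * A'.card))
  have h6 : (P.card : ℝ) * Real.exp (θ * (ε * T6 d * A'.card)) ≤
      (ZZ d k q * Real.exp (-(ε ^ 2 * T6 d / (16 * (d : ℝ) ^ 2) * A'.card))) *
        Real.exp (θ * (ε * T6 d * A'.card)) := by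
    refine h3.trans (le_of_eq ?_)
    ring
  exact le_of_mul_le_mul_right h6 h5

/-- large `d` -/
private theorem L6c_large (ε : ℝ) (hε : 0 < ε) : ∀ᶠ d : ℕ in atTop, 35 ≤ d ∧ ε ≤ 4 * d ∧
    (d : ℝ) ^ 2 ≤ ε ^ 2 * T6 d / (16 * (d : ℝ) ^ 2) := by
  filter_upwards [eventually_ge_atTop (max 35 (⌈max ε (200 / ε)⌉₊))] with d hd
  have h35 : 35 ≤ d := (le_max_left _ _).trans hd
  have h2 : max ε (200 / ε) ≤ (d : ℝ) :=
    (Nat.le_ceil _).trans (by exact_mod_cast (le_max_right _ _).trans hd)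
  have h3 : ε ≤ d := (le_max_left _ _).trans h2
  have h4 : 200 / ε ≤ (d : ℝ) := (le_max_right _ _).trans h2
  have hd0 : (0 : ℝ) < d := by
    have : (35 : ℝ) ≤ d := by exact_mod_cast h35
    linarith
  refine ⟨h35, by linarith, ?_⟩
  have hT := (T6_bounds h35).1
  have h5 : 200 ≤ (d : ℝ) * ε := by
    rw [div_le_iff₀ hε] at h4
    exact h4
  rw [le_div_iff₀ (by positivity)]
  have h6 : (2 * (d : ℝ) / 7) ^ 6 = (d : ℝ) ^ 4 * ((d : ℝ) ^ 2 * (64 / 117649)) := by ring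
  have h7 : 40000 ≤ ((d : ℝ) * ε) ^ 2 := by nlinarith
  have hd4 : (0 : ℝ) < (d : ℝ) ^ 4 := by positivity
  calc (d : ℝ) ^ 2 * (16 * (d : ℝ) ^ 2) = (d : ℝ) ^ 4 * 16 := by ring
    _ ≤ (d : ℝ) ^ 4 * (((d : ℝ) * ε) ^ 2 * (64 / 117649)) := by
        refine mul_le_mul_of_nonneg_left ?_ hd4.le
        nlinarith
    _ = ε ^ 2 * (2 * (d : ℝ) / 7) ^ 6 := by rw [h6]; ring
    _ ≤ ε ^ 2 * T6 d := mul_le_mul_of_nonneg_left hT (by positivity)

open scoped Classical in
theorem rare_loc (ε : ℝ) (hε : 0 < ε) : Ev fun d k q => ∀ (b : Bool)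
    (g : Site d k → (Site d k → Fin q) → ℝ), Loc b g →
    (((prps d k q).filter fun f => NN d k / (2 * (d : ℝ) ^ 5) ≤
      (((cls b d k).filter fun x => ε ≤ Av (fun v => g v f - fm (!b) (g v) f) x).card : ℝ)).card : ℝ) ≤
      ZZ d k q * Real.exp (-(2 * (NN d k / (d : ℝ) ^ 18))) := by
  have h1 := (Ev_d ((L6c_large ε hε).and rare_half)).and (Ev_large 2)
  refine h1.mono fun d k q hh b g hg => ?_
  obtain ⟨⟨⟨h35, hθ1, hG⟩, hr⟩, -, -, -, hk2⟩ := hh
  have hk : 2 ≤ k := by exact_mod_cast hk2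
  refine hr k q (fun f => (cls b d k).filter fun x => ε ≤ Av (fun v => g v f - fm (!b) (g v) f) x)
    _ hG fun A' hs => ?_
  refine (L6c_one ε hε h35 hk hθ1 b g hg A' hs).trans ?_
  have hZ : 0 ≤ ZZ d k q := by
    unfold ZZ
    positivity
  refine mul_le_mul_of_nonneg_left (Real.exp_le_exp.2 ?_) hZ
  have : 0 ≤ NN d k / (d : ℝ) ^ 19 := by
    unfold NN
    positivity
  linarith

end Pool.Agent.LIN
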