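import Pool.Agent.Lib_MP_2c424f_lin.L6c

/-!
# H30 L6d: exceptional sites for functions of the neighbours (6.3)(i)

`g v f` (`v ∈ cls b`) depends on the colours of the class `b` and of the neighbours of `v` only (`Loc b g`).
* `loc_exp`: on a fibre `fib (!b) f` (a product over the sites of the class `!b`, L4) apply `mcdiarmid` to
  `F h = θ ∑_{v ∈ U} g v h`: changing the colour of `u ∈ cls (!b)` affects only `v ∈ U` adjacent to `u`:
  `c u = θ #(U ∩ N(u)) ≤ 2dθ ≤ 1`, `∑ c u² ≤ 2dθ² ∑_u #(U ∩ N(u)) = 4d²θ²|U|`; `fm (!b) (g v)` is constant on the fibre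
  (`fib_eq`), `fib_sum`.
* `rare_loc`: `θ = ε/(8d²)`, `U = ⋃_{x∈A'} UU x`, `|U| = T6|A'|`, `∑_{v∈U} (g v f - fm) = T6 ∑_{x ∈ A'} Av(..) x ≥ ε T6 |A'|`:
  `P(A' ⊆ A f) ≤ exp (-(ε²T6/(16d²))|A'|)`, `G = ε² T6/(16 d²) ≥ d²` for large `d`; `rare_half`.
* `rare_glob`: `U = cls b`: `P(∑_{cls b} (g - fm) ≥ εN) ≤ exp (-θεN + 4d²θ²N/2) ≤ exp (-ε²N/(16d²)) ≤ exp (-N/d^3)`.
-/

set_option autoImplicit false

open Finset Filter

namespace Pool.Agent.LIN

open Pool.Agent.LO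

open scoped Classical in
theorem rare_glob (ε : ℝ) (hε : 0 < ε) : Ev fun d k q => ∀ (b : Bool)
    (g : Site d k → (Site d k → Fin q) → ℝ), Loc b g →
    (((prps d k q).filter fun f => ε * NN d k ≤ ∑ v ∈ cls b d k, (g v f - fm (!b) (g v) f)).card : ℝ) ≤
      ZZ d k q * Real.exp (-(NN d k / (d : ℝ) ^ 3)) := by
  refine (Ev_large (2 + ε + 16 / ε ^ 2)).mono fun d k q hL b g hg => ?_
  obtain ⟨-, -, hd, hk⟩ := hL
  have h16 : 0 < 16 / ε ^ 2 := by positivity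
  have hd1 : (1 : ℝ) ≤ d := by linarith
  have hd1' : 1 ≤ d := by exact_mod_cast hd1
  have hk2 : 2 ≤ k := by
    have : (2 : ℝ) ≤ k := by linarith
    exact_mod_cast this
  have hd0 : (0 : ℝ) < d := by linarith
  have hN0 : 0 ≤ NN d k := by
    unfold NN
    positivity
  set θ : ℝ := ε / (8 * (d : ℝ) ^ 2) with hθ
  have hθ0 : 0 ≤ θ := by positivity
  have hθ1 : 2 * (d : ℝ) * θ ≤ 1 := by
    have e1 : 2 * (d : ℝ) * θ = ε / (4 * d) := by
      rw [hθ]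
      field_simp
      ring
    rw [e1, div_le_one (by positivity)]
    linarith
  have hmain := loc_exp hd1' hk2 b g hg (cls b d k) (Finset.Subset.refl _) θ hθ0 hθ1
  have hcard : ((cls b d k).card : ℝ) ≤ NN d k := by
    rw [← card_site]
    exact_mod_cast Finset.card_le_univ (cls b d k)
  set S := (prps d k q).filter fun f =>
    ε * NN d k ≤ ∑ v ∈ cls b d k, (g v f - fm (!b) (g v) f) with hS
  have hZ : 0 ≤ (ZZ d k q : ℝ) := Nat.cast_nonneg _
  have h1 : (S.card : ℝ) * Real.exp (θ * (ε * NN d k)) ≤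
      ZZ d k q * Real.exp (4 * (d : ℝ) ^ 2 * θ ^ 2 * NN d k) := by
    calc (S.card : ℝ) * Real.exp (θ * (ε * NN d k))
        = ∑ _f ∈ S, Real.exp (θ * (ε * NN d k)) := by rw [Finset.sum_const, nsmul_eq_mul]
      _ ≤ ∑ f ∈ S, Real.exp (θ * ∑ v ∈ cls b d k, (g v f - fm (!b) (g v) f)) := by
          refine Finset.sum_le_sum fun f hf => Real.exp_le_exp.2 ?_
          exact mul_le_mul_of_nonneg_left (Finset.mem_filter.1 hf).2 hθ0
      _ ≤ ∑ f ∈ prps d k q, Real.exp (θ * ∑ v ∈ cls b d k, (g v f - fm (!b) (g v) f)) :=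
          Finset.sum_le_sum_of_subset_of_nonneg (Finset.filter_subset _ _)
            fun f _ _ => (Real.exp_pos _).le
      _ ≤ ZZ d k q * Real.exp (4 * (d : ℝ) ^ 2 * θ ^ 2 * (cls b d k).card) := hmain
      _ ≤ ZZ d k q * Real.exp (4 * (d : ℝ) ^ 2 * θ ^ 2 * NN d k) := by
          refine mul_le_mul_of_nonneg_left (Real.exp_le_exp.2 ?_) hZ
          exact mul_le_mul_of_nonneg_left hcard (by positivity)
  have h2 : (S.card : ℝ) ≤ ZZ d k q *
      Real.exp (4 * (d : ℝ) ^ 2 * θ ^ 2 * NN d k - θ * (ε * NN d k)) := by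
    rw [Real.exp_sub, ← mul_div_assoc, le_div_iff₀ (Real.exp_pos _)]
    exact h1
  refine h2.trans (mul_le_mul_of_nonneg_left (Real.exp_le_exp.2 ?_) hZ)
  have h3 : 4 * (d : ℝ) ^ 2 * θ ^ 2 * NN d k - θ * (ε * NN d k) =
      -(NN d k * (ε ^ 2 / (16 * (d : ℝ) ^ 2))) := by
    rw [hθ]
    field_simp
    ring
  rw [h3, neg_le_neg_iff, div_eq_mul_inv]
  refine mul_le_mul_of_nonneg_left ?_ hN0
  have h4 : 16 ≤ d * ε ^ 2 := by
    have h5 : 16 / ε ^ 2 ≤ d := by linarith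
    rwa [div_le_iff₀ (by positivity)] at h5
  rw [inv_le_iff_one_le_mul₀ (by positivity)]
  have h6 : ε ^ 2 / (16 * (d : ℝ) ^ 2) * (d : ℝ) ^ 3 = d * ε ^ 2 / 16 := by
    field_simp
  rw [h6]
  linarith

end Pool.Agent.LIN
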