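import Pool.Agent.Lib_MP_2c424f_lin.L7

/-!
# H30 L7d: the rare events for `z`, `ζ`, `ξ`

* `rare_z`: `rare_loc` with `g v f = zz f v c` and `g v f = 1 - zz f v c` (`fm_zz`), `rare_union`.
* `rare_d`: `g v f = |zz f v c - zt f v c|`; on the fibre `zt` is constant `= ζ` and `zz ∈ {0,1}` has mean `ζ`, so
  `fm = ζ(1-ζ) + (1-ζ)ζ`.
* `rare_x`: `g v f = (1/q) ∑_c zz f v c · PP (zz f · c) v`; `fm = (1/q) ∑_c ζ^c m^c ≤ q/(5d)`
  (`fm_zm`), `≤ ε/2` in the regime.  Pointwise
  `xi f v + PP (xi f) v ≤ 1 + g v f` (`z + m ≤ 1 + z m`, `av_eq`, sum over `c`).  `rare_loc` with `ε/2`.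
(The locality `Loc b g`: `zz f v c` depends on the neighbours of `v`; `zt`, `PP (zz ·)` at `v ∈ cls b` depend on the
class `b`.)
-/

set_option autoImplicit false

open Finset Filter

namespace Pool.Agent.LIN

open Pool.Agent.LO

private theorem L7d_zz0 {d k q : ℕ} (f : Site d k → Fin q) (v : Site d k) (c : Fin q) : 0 ≤ zz f v c := by
  unfold zz; split_ifs <;> norm_num

private theorem L7d_zz1 {d k q : ℕ} (f : Site d k → Fin q) (v : Site d k) (c : Fin q) : zz f v c ≤ 1 := by
  unfold zz; split_ifs <;> norm_num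

private theorem L7d_loc {d k q : ℕ} {f f' : Site d k → Fin q} {v : Site d k} (c : Fin q)
    (h : ∀ σ : Stp d, f (v + sv σ) = f' (v + sv σ)) : zz f v c = zz f' v c := by
  have h1 : SS f v = SS f' v := by
    unfold SS
    exact Finset.image_congr fun σ _ => h σ
  unfold zz
  rw [h1]

private theorem L7d_fm {d k q : ℕ} (b : Bool) {f : Site d k → Fin q} (hf : Prp f)
    (G : (Site d k → Fin q) → ℝ) : fm b (fun h => 1 - G h) f = 1 - fm b G f := by
  have h0 : (0 : ℝ) < (fib b f).card := by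
    exact_mod_cast Finset.card_pos.2 ⟨f, fib_self b hf⟩
  unfold fm
  rw [Finset.sum_sub_distrib, sub_div, Finset.sum_const, nsmul_eq_mul, mul_one, div_self h0.ne']

open scoped Classical in
theorem rare_z (ε : ℝ) (hε : 0 < ε) : Ev fun d k q => ∀ (c : Fin q) (b : Bool),
    Rare d k q fun f => NN d k / (d : ℝ) ^ 5 ≤
      (((cls b d k).filter fun x => ε ≤ |Av (fun v => zz f v c - zt f v c) x|).card : ℝ) := by
  refine (((rare_loc ε hε).and (Ev_large 35)).and (Ev_NN fun d _ => (d : ℝ) ^ 18)).mono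
    fun d k q hh => ?_
  obtain ⟨⟨hloc, hq, hqd, hd, hk⟩, hN⟩ := hh
  intro c b
  have hd1 : 1 ≤ d := by
    have : (1 : ℝ) ≤ d := by linarith
    exact_mod_cast this
  have hk2 : 2 ≤ k := by
    have : (2 : ℝ) ≤ k := by linarith
    exact_mod_cast this
  have key : ∀ (s : ℝ) (g : Site d k → (Site d k → Fin q) → ℝ), Loc b g →
      (∀ f, Prp f → ∀ v ∈ cls b d k, s * (zz f v c - zt f v c) ≤ g v f - fm (!b) (g v) f) →
      (((prps d k q).filter fun f => NN d k / (2 * (d : ℝ) ^ 5) ≤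
        (((cls b d k).filter fun x => ε ≤ s * Av (fun v => zz f v c - zt f v c) x).card : ℝ)).card : ℝ) ≤
      ZZ d k q * Real.exp (-(2 * (NN d k / (d : ℝ) ^ 18))) := by
    intro s g hg h
    refine le_trans ?_ (hloc b g hg)
    refine Nat.cast_le.2 (Finset.card_le_card ?_)
    intro f hf
    rw [Finset.mem_filter] at hf ⊢
    refine ⟨hf.1, hf.2.trans ?_⟩
    have hf' : Prp f := (mem_filter.1 hf.1).2
    refine Nat.cast_le.2 (Finset.card_le_card ?_)
    intro x hx
    rw [Finset.mem_filter] at hx ⊢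
    refine ⟨hx.1, hx.2.trans ?_⟩
    rw [← Av_mul]
    exact Av_mono_cls (by omega) b (fun v hv => h f hf' v hv) hx.1
  have k1 := key 1 (fun v f => zz f v c) ⟨fun v _ f => ⟨L7d_zz0 f v c, L7d_zz1 f v c⟩,
    fun v _ f f' _ h => L7d_loc c h⟩ (fun f hf v hv => by
      have h1 : fm (!b) (fun h => zz h v c) f = zt f v c := fm_zz hk2 b hf v hv c
      show 1 * (zz f v c - zt f v c) ≤ zz f v c - fm (!b) (fun h => zz h v c) f
      rw [h1, one_mul])
  have k2 := key (-1) (fun v f => 1 - zz f v c)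
    ⟨fun v _ f => ⟨by have := L7d_zz1 f v c; linarith, by have := L7d_zz0 f v c; linarith⟩,
    fun v _ f f' _ h => by
      show 1 - zz f v c = 1 - zz f' v c
      rw [L7d_loc c h]⟩ (fun f hf v hv => by
      have h1 : fm (!b) (fun h => zz h v c) f = zt f v c := fm_zz hk2 b hf v hv c
      show (-1) * (zz f v c - zt f v c) ≤ (1 - zz f v c) - fm (!b) (fun h => 1 - zz h v c) f
      rw [L7d_fm (!b) hf, h1]
      linarith)
  refine rare_union hd1 hN _ (fun f => (cls b d k).filter fun x => ε ≤ (1 : ℝ) *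
      Av (fun v => zz f v c - zt f v c) x)
      (fun f => (cls b d k).filter fun x => ε ≤ (-1 : ℝ) *
      Av (fun v => zz f v c - zt f v c) x) ?_ k1 k2
  intro f x hx
  obtain ⟨h1, h2⟩ := Finset.mem_filter.1 hx
  rw [Finset.mem_union, Finset.mem_filter, Finset.mem_filter]
  rcases le_abs.1 h2 with h3 | h3
  · left
    exact ⟨h1, by linarith⟩
  · right
    exact ⟨h1, by linarith⟩

end Pool.Agent.LIN
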