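import Pool.Agent.Lib_MP_2c424f_lin.L7d

/-!
# H30 L7e: the rare events for `z`, `ζ`, `ξ`

* `rare_z`: `rare_loc` with `g v f = zz f v c` and `g v f = 1 - zz f v c` (`fm_zz`), `rare_union`.
* `rare_d`: `g v f = |zz f v c - zt f v c|`; on the fibre `zt` is constant `= ζ` and `zz ∈ {0,1}` has mean `ζ`, so
  `fm = ζ(1-ζ) + (1-ζ)ζ`.
* `rare_x`: `g v f = (1/q) ∑_c zz f v c · PP (zz f · c) v`; `fm = (1/q) ∑_c ζ^c m^c ≤ q/(5d)`
  (`fm_zm`), `≤ ε/2` in the regime.  Pointwise
  `xi f v + PP (xi f) v ≤ 1 + g v f` (`z + m ≤ 1 + z m`, `av_eq`, sum over `c`).  `rare_loc` with `ε/2`.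
(The locality `Loc b g`: `zz f v c` depends on the neighbours of `v`; `zt`, `PP (zz ·)` at `v ∈ cls b` depend on the
class `b`.)
-/

set_option autoImplicit false

open Finset Filter

namespace Pool.Agent.LIN

open Pool.Agent.LO

private theorem L7e_SS {d k q : ℕ} {f f' : Site d k → Fin q} {v : Site d k}
    (h : ∀ σ : Stp d, f (v + sv σ) = f' (v + sv σ)) : SS f v = SS f' v := by
  unfold SS
  congr 1
  funext σ
  exact h σ

private theorem L7e_zz {d k q : ℕ} {f f' : Site d k → Fin q} {v : Site d k}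
    (h : ∀ σ : Stp d, f (v + sv σ) = f' (v + sv σ)) (c : Fin q) : zz f v c = zz f' v c := by
  unfold zz
  rw [L7e_SS h]

private theorem L7e_zt {d k q : ℕ} (hk : 1 ≤ k) (b : Bool) {f f' : Site d k → Fin q} {v : Site d k}
    (hv : v ∈ cls b d k) (h : ∀ x ∈ cls b d k, f x = f' x) (c : Fin q) : zt f v c = zt f' v c := by
  unfold zt
  refine prod_congr rfl fun σ _ => ?_
  have hu : v + sv σ ∈ cls (!b) d k := by
    rw [mem_cls_step hk]
    simpa using hv
  have hn : ∀ τ : Stp d, f (v + sv σ + sv τ) = f' (v + sv σ + sv τ) := fun τ => by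
    refine h _ ?_
    rw [mem_cls_step hk]
    exact hu
  have h1 : av f (v + sv σ) = av f' (v + sv σ) := by
    unfold av
    rw [L7e_SS hn]
  rw [L7e_zz hn, h1]

private theorem L7e_zz01 {d k q : ℕ} (f : Site d k → Fin q) (v : Site d k) (c : Fin q) :
    zz f v c = 0 ∨ zz f v c = 1 := by
  unfold zz
  split_ifs
  · exact Or.inl rfl
  · exact Or.inr rfl

private theorem L7e_abs {z t : ℝ} (hz : z = 0 ∨ z = 1) (h0 : 0 ≤ t) (h1 : t ≤ 1) :
    |z - t| = t + (1 - 2 * t) * z := by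
  rcases hz with rfl | rfl
  · rw [zero_sub, abs_neg, abs_of_nonneg h0]
    ring
  · rw [abs_of_nonneg (by linarith)]
    ring

private theorem L7e_fm {d k q : ℕ} (hk : 2 ≤ k) (b : Bool) {f : Site d k → Fin q} (hf : Prp f)
    (v : Site d k) (hv : v ∈ cls b d k) (c : Fin q) :
    fm (!b) (fun h => |zz h v c - zt h v c|) f = 2 * (zt f v c * (1 - zt f v c)) := by
  have h1 := fm_zz hk b hf v hv c
  unfold fm at h1 ⊢
  have hcard : 0 < ((fib (!b) f).card : ℝ) := by
    have : 0 < (fib (!b) f).card := Finset.card_pos.2 ⟨f, fib_self (!b) hf⟩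
    exact_mod_cast this
  have h2 : ∀ h ∈ fib (!b) f, |zz h v c - zt h v c| = zt f v c + (1 - 2 * zt f v c) * zz h v c := by
    intro h hh
    rw [zt_fib hk b hh v hv c]
    exact L7e_abs (L7e_zz01 h v c) (zt_nonneg f v c) (zt_le_one f v c)
  simp only at h1
  rw [sum_congr rfl h2, sum_add_distrib, sum_const, nsmul_eq_mul, ← mul_sum, add_div,
    mul_div_assoc (1 - 2 * zt f v c), h1, mul_div_cancel_left₀ _ hcard.ne']
  ring

open scoped Classical in
theorem rare_d (ε : ℝ) (hε : 0 < ε) : Ev fun d k q => ∀ (c : Fin q) (b : Bool),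
    Rare d k q fun f => NN d k / (d : ℝ) ^ 5 ≤
      (((cls b d k).filter fun x =>
        ε ≤ Av (fun v => |zz f v c - zt f v c| - 2 * (zt f v c * (1 - zt f v c))) x).card : ℝ) := by
  refine ((rare_loc ε hε).and (Ev_large 2)).mono fun d k q hh => ?_
  intro c b
  obtain ⟨h1, -, -, -, hk⟩ := hh
  have hk2 : 2 ≤ k := by exact_mod_cast hk
  have hk1 : 1 ≤ k := by omega
  have hN : 0 ≤ NN d k := by
    unfold NN
    positivity
  have hL : Loc b (fun (v : Site d k) (f : Site d k → Fin q) => |zz f v c - zt f v c|) := by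
    refine ⟨fun v _ f => ⟨abs_nonneg _, ?_⟩, fun v hv f f' h2 h3 => ?_⟩
    · show |zz f v c - zt f v c| ≤ 1
      have a0 := zt_nonneg f v c
      have a1 := zt_le_one f v c
      rw [abs_le]
      rcases L7e_zz01 f v c with h | h <;> rw [h] <;> constructor <;> linarith
    · show |zz f v c - zt f v c| = |zz f' v c - zt f' v c|
      rw [L7e_zz h3, L7e_zt hk1 b hv h2]
  have h4 := h1 b _ hL
  have hN18 : 0 ≤ NN d k / (d : ℝ) ^ 18 := by positivity
  have hZ : 0 ≤ ZZ d k q := by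
    unfold ZZ
    positivity
  unfold Rare
  refine le_trans ?_ (h4.trans (mul_le_mul_of_nonneg_left (Real.exp_le_exp.2 (by linarith)) hZ))
  refine Nat.cast_le.2 (Finset.card_le_card fun f hf => ?_)
  rw [mem_filter] at hf ⊢
  refine ⟨hf.1, ?_⟩
  have hprp : Prp f := by
    have := hf.1
    unfold prps at this
    exact (mem_filter.1 this).2
  refine le_trans ?_ (hf.2.trans (Nat.cast_le.2 (Finset.card_le_card fun x hx => ?_)))
  · have : NN d k / (2 * (d : ℝ) ^ 5) = NN d k / (d : ℝ) ^ 5 / 2 := by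
      rw [div_div, mul_comm]
    rw [this]
    have h5 : 0 ≤ NN d k / (d : ℝ) ^ 5 := by positivity
    linarith
  · rw [mem_filter] at hx ⊢
    refine ⟨hx.1, hx.2.trans (Av_mono_cls hk1 b (fun v hv => ?_) hx.1)⟩
    show _ ≤ |zz f v c - zt f v c| - fm (!b) (fun h => |zz h v c - zt h v c|) f
    rw [L7e_fm hk2 b hprp v hv c]

end Pool.Agent.LIN
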