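import Pool.Agent.Lib_MP_2c424f_lin.L7e

/-!
# H30 L7f: the rare events for `z`, `ζ`, `ξ`

* `rare_z`: `rare_loc` with `g v f = zz f v c` and `g v f = 1 - zz f v c` (`fm_zz`), `rare_union`.
* `rare_d`: `g v f = |zz f v c - zt f v c|`; on the fibre `zt` is constant `= ζ` and `zz ∈ {0,1}` has mean `ζ`, so
  `fm = ζ(1-ζ) + (1-ζ)ζ`.
* `rare_x`: `g v f = (1/q) ∑_c zz f v c · PP (zz f · c) v`; `fm = (1/q) ∑_c ζ^c m^c ≤ q/(5d)`
  (`fm_zm`), `≤ ε/2` in the regime.  Pointwise
  `xi f v + PP (xi f) v ≤ 1 + g v f` (`z + m ≤ 1 + z m`, `av_eq`, sum over `c`).  `rare_loc` with `ε/2`.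
(The locality `Loc b g`: `zz f v c` depends on the neighbours of `v`; `zt`, `PP (zz ·)` at `v ∈ cls b` depend on the
class `b`.)
-/

set_option autoImplicit false

open Finset Filter

namespace Pool.Agent.LIN

open Pool.Agent.LO

private theorem L7f_zz {d k q : ℕ} {f f' : Site d k → Fin q} {v : Site d k}
    (h : ∀ σ : Stp d, f (v + sv σ) = f' (v + sv σ)) (c : Fin q) : zz f v c = zz f' v c := by
  unfold zz SS
  rw [show (fun σ : Stp d => f (v + sv σ)) = fun σ => f' (v + sv σ) from funext h]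

private theorem L7f_cls {d k : ℕ} (hk : 1 ≤ k) {b : Bool} {v : Site d k} (hv : v ∈ cls b d k)
    (σ τ : Stp d) : v + sv σ + sv τ ∈ cls b d k := by
  classical
  unfold cls at hv ⊢
  cases b
  · simp only [Bool.false_eq_true, if_false, ods, Finset.mem_filter, Finset.mem_univ,
      true_and] at hv ⊢
    rw [evn_step hk, evn_step hk]
    exact fun h => h hv
  · simp only [if_true, evs, Finset.mem_filter, Finset.mem_univ, true_and] at hv ⊢
    rw [evn_step hk, evn_step hk]
    exact not_not.2 hv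

private theorem L7f_z0 {d k q : ℕ} (f : Site d k → Fin q) (v : Site d k) (c : Fin q) :
    0 ≤ zz f v c := by
  unfold zz
  split_ifs <;> norm_num

private theorem L7f_z1 {d k q : ℕ} (f : Site d k → Fin q) (v : Site d k) (c : Fin q) :
    zz f v c ≤ 1 := by
  unfold zz
  split_ifs <;> norm_num

private noncomputable def L7f_g {d k q : ℕ} (v : Site d k) (f : Site d k → Fin q) : ℝ :=
  (∑ c, zz f v c * PP (fun x => zz f x c) v) / q

private theorem L7f_m0 {d k q : ℕ} (f : Site d k → Fin q) (v : Site d k) (c : Fin q) :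
    0 ≤ PP (fun x => zz f x c) v := mm_nonneg f v c

private theorem L7f_m1 {d k q : ℕ} (f : Site d k → Fin q) (v : Site d k) (c : Fin q) :
    PP (fun x => zz f x c) v ≤ 1 := mm_le_one f v c

private theorem L7f_loc {d k q : ℕ} (hk : 1 ≤ k) (hq : 1 ≤ q) (b : Bool) :
    Loc b (L7f_g : Site d k → (Site d k → Fin q) → ℝ) := by
  have hq0 : (0 : ℝ) < q := by exact_mod_cast hq
  constructor
  · intro v _ f
    constructor
    · exact div_nonneg (Finset.sum_nonneg fun c _ => mul_nonneg (L7f_z0 _ _ _) (L7f_m0 _ _ _))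
        hq0.le
    · unfold L7f_g
      rw [div_le_one hq0]
      calc ∑ c, zz f v c * PP (fun x => zz f x c) v ≤ ∑ _c : Fin q, (1 : ℝ) :=
            Finset.sum_le_sum fun c _ => mul_le_one₀ (L7f_z1 _ _ _) (L7f_m0 _ _ _) (L7f_m1 _ _ _)
        _ = q := by simp
  · intro v hv f f' h1 h2
    unfold L7f_g
    congr 1
    refine Finset.sum_congr rfl fun c _ => ?_
    rw [L7f_zz h2 c]
    congr 1
    unfold PP
    congr 1
    refine Finset.sum_congr rfl fun σ _ => ?_
    exact L7f_zz (fun τ => h1 _ (L7f_cls hk hv σ τ)) c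

private theorem L7f_fm {d k q : ℕ} (hd : 1 ≤ d) (hk : 2 ≤ k) (hq : 1 ≤ q) (b : Bool)
    {f : Site d k → Fin q} (hf : Prp f) (v : Site d k) (hv : v ∈ cls b d k) :
    fm (!b) (L7f_g v) f ≤ q / (5 * d) := by
  have hq0 : (0 : ℝ) < q := by exact_mod_cast hq
  have h1 : fm (!b) (L7f_g v) f =
      (∑ c, fm (!b) (fun h => zz h v c * PP (fun x => zz h x c) v) f) / q := by
    unfold fm L7f_g
    rw [← Finset.sum_div, ← Finset.sum_div, Finset.sum_comm, div_right_comm]
  rw [h1, div_le_iff₀ hq0]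
  calc ∑ c, fm (!b) (fun h => zz h v c * PP (fun x => zz h x c) v) f
      ≤ ∑ _c : Fin q, (q : ℝ) / (5 * d) := Finset.sum_le_sum fun c _ => fm_zm hd hk hq b hf v hv c
    _ = q / (5 * d) * q := by
      rw [Finset.sum_const, Finset.card_univ, Fintype.card_fin, nsmul_eq_mul, mul_comm]

private theorem L7f_pt {d k q : ℕ} (hq : 1 ≤ q) (f : Site d k → Fin q) (v : Site d k) :
    xi f v + PP (xi f) v ≤ 1 + L7f_g v f := by
  have hq0 : (0 : ℝ) < q := by exact_mod_cast hq
  have h1 : ∀ x, xi f x = (∑ c, zz f x c) / q := fun x => by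
    unfold xi
    rw [av_eq]
  have h2 : PP (xi f) v = (∑ c, PP (fun x => zz f x c) v) / q := by
    unfold PP
    simp only [h1]
    rw [← Finset.sum_div, ← Finset.sum_div, Finset.sum_comm, div_right_comm]
  have h3 : (1 : ℝ) = (∑ _c : Fin q, (1 : ℝ)) / q := by
    rw [Finset.sum_const, Finset.card_univ, Fintype.card_fin, nsmul_eq_mul, mul_one,
      div_self hq0.ne']
  rw [h1, h2, L7f_g, h3, ← add_div, ← add_div, ← Finset.sum_add_distrib, ← Finset.sum_add_distrib]
  refine div_le_div_of_nonneg_right (Finset.sum_le_sum fun c _ => ?_) hq0.le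
  have h4 := mul_nonneg (sub_nonneg.2 (L7f_z1 f v c)) (sub_nonneg.2 (L7f_m1 f v c))
  linarith

open scoped Classical in
theorem rare_x (ε : ℝ) (hε : 0 < ε) : Ev fun d k q => ∀ b : Bool,
    Rare d k q fun f => NN d k / (d : ℝ) ^ 5 ≤
      (((cls b d k).filter fun x => 1 + ε ≤ Av (fun v => xi f v + PP (xi f) v) x).card : ℝ) := by
  refine ((rare_loc (ε / 2) (by positivity)).and (Ev_large (max (1 / ε) 36))).mono ?_
  rintro d k q ⟨h1, hq, hqd, hd, hk⟩ b
  have hq36 : (36 : ℝ) ≤ q := (le_max_right _ _).trans hq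
  have hd36 : (36 : ℝ) ≤ d := (le_max_right _ _).trans hd
  have hk36 : (36 : ℝ) ≤ k := (le_max_right _ _).trans hk
  have hq1 : 1 ≤ q := by
    have : 36 ≤ q := by exact_mod_cast hq36
    omega
  have hd35 : 35 ≤ d := by
    have : 36 ≤ d := by exact_mod_cast hd36
    omega
  have hk2 : 2 ≤ k := by
    have : 36 ≤ k := by exact_mod_cast hk36
    omega
  have hd1 : 1 ≤ d := by omega
  have hk1 : 1 ≤ k := by omega
  have hq0 : (0 : ℝ) < q := by linarith
  have hd0 : (0 : ℝ) < d := by linarith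
  have hqε : (q : ℝ) / (5 * d) ≤ ε / 2 := by
    have h2 : 1 / ε * q ≤ d := (mul_le_mul_of_nonneg_right (le_max_left _ _) hq0.le).trans hqd
    rw [one_div, inv_mul_le_iff₀ hε] at h2
    rw [div_le_iff₀ (by positivity)]
    nlinarith
  have hN : 0 < NN d k := by
    unfold NN
    positivity
  have h2 := h1 b L7f_g (L7f_loc hk1 hq1 b)
  unfold Rare
  refine le_trans ?_ (h2.trans ?_)
  · refine Nat.cast_le.2 (Finset.card_le_card fun f hf => ?_)
    rw [Finset.mem_filter] at hf ⊢
    refine ⟨hf.1, ?_⟩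
    have hprp : Prp f := by
      have h3 := hf.1
      unfold prps at h3
      exact (Finset.mem_filter.1 h3).2
    have h3 : NN d k / (2 * (d : ℝ) ^ 5) ≤ NN d k / (d : ℝ) ^ 5 := by
      refine div_le_div_of_nonneg_left hN.le (by positivity) ?_
      have : (0 : ℝ) < (d : ℝ) ^ 5 := by positivity
      linarith
    refine h3.trans (hf.2.trans (Nat.cast_le.2 (Finset.card_le_card fun x hx => ?_)))
    rw [Finset.mem_filter] at hx ⊢
    refine ⟨hx.1, ?_⟩
    have h4 : Av (fun v => xi f v + PP (xi f) v) x ≤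
        Av (fun v => (L7f_g v f - fm (!b) (L7f_g v) f) + (1 + ε / 2)) x :=
      Av_mono_cls hk1 b (fun v hv => by
        have h5 := L7f_pt hq1 f v
        have h6 := L7f_fm hd1 hk2 hq1 b hprp v hv
        linarith) hx.1
    have h7 := Av_add (fun v => L7f_g v f - fm (!b) (L7f_g v) f) (fun _ => 1 + ε / 2) x
    rw [Av_const hd35] at h7
    have h5 := hx.2.trans (h4.trans_eq h7)
    linarith
  · refine mul_le_mul_of_nonneg_left (Real.exp_le_exp.2 ?_) ?_
    · have : 0 ≤ NN d k / (d : ℝ) ^ 18 := by positivity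
      linarith
    · unfold ZZ
      positivity

end Pool.Agent.LIN
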