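import Pool.Agent.Lib_MP_2c424f_lin.B7
import Pool.Agent.Lib_MP_2c424f_lin.G5

/-!
# H30 Main: order for most numbers of colours up to `c d`
-/

set_option autoImplicit false

open Finset Filter

namespace Pool.Agent.LIN

open Pool.Agent.LO

open scoped Classical in
/-- long-range order on the tori of side `2^(k+1)`, `k` large -/
def Ord (ε : ℝ) (d q : ℕ) : Prop := ∀ᶠ k : ℕ in atTop, ∀ x y : Site d (k + 1), x ≠ y →
  ((evn x ↔ evn y) → (2 - ε) / q * ZZ d (k + 1) q ≤ (((prps d (k + 1) q).filter fun f => f x = f y).card : ℝ)) ∧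
  (¬ (evn x ↔ evn y) → (((prps d (k + 1) q).filter fun f => f x = f y).card : ℝ) ≤ ε / q * ZZ d (k + 1) q)

theorem ord_ev (ε : ℝ) (hε : 0 < ε) : ∃ δ : ℝ, 0 < δ ∧ ∀ d q : ℕ, Gd δ d q → Ord ε d q := by
  obtain ⟨δ, hδ, h⟩ := (same ε hε).and (opp ε hε)
  refine ⟨δ, hδ, fun d q hG => ?_⟩
  filter_upwards [h d q hG] with k hk x y hxy
  exact ⟨fun hp => hk.1 x y hp hxy, fun hp => hk.2 x y hp⟩

open scoped Classical in
theorem main_most (ε η : ℝ) (hε : 0 < ε) (hη : 0 < η) : ∃ c C : ℝ, 0 < c ∧ 0 < C ∧ ∀ d Q : ℕ, C ≤ Q →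
    (Q : ℝ) ≤ c * d → (((Finset.Ico Q (2 * Q)).filter fun q => ¬ Ord ε d q).card : ℝ) ≤ η * Q := by
  obtain ⟨δ, hδ, h⟩ := ord_ev ε hε
  obtain ⟨c, C, hc, hC, hg⟩ := good δ η hδ hη
  refine ⟨c, C, hc, hC, fun d Q h1 h2 => le_trans ?_ (hg d Q h1 h2)⟩
  have hsub : ((Finset.Ico Q (2 * Q)).filter fun q => ¬ Ord ε d q) ⊆
      (Finset.Ico Q (2 * Q)).filter fun q => ¬ Gd δ d q := by
    intro q hq
    rw [mem_filter] at hq ⊢
    exact ⟨hq.1, fun hG => hq.2 (h d q hG)⟩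
  exact_mod_cast Finset.card_le_card hsub

/-- for every large `d` there is a number of colours `q ≥ c d` with long-range order -/
theorem main_lin (ε : ℝ) (hε : 0 < ε) : ∃ c : ℝ, 0 < c ∧ ∃ d₀ : ℕ, ∀ d : ℕ, d₀ ≤ d →
    ∃ q : ℕ, c * d ≤ q ∧ Ord ε d q := by
  classical
  obtain ⟨c, C, hc, hC, h⟩ := main_most ε (1 / 2) hε (by norm_num)
  refine ⟨c / 2, by positivity, ⌈(2 + C) * 2 / c⌉₊, fun d hd => ?_⟩
  have hd' : (2 + C) * 2 / c ≤ d := (Nat.le_ceil _).trans (by exact_mod_cast hd)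
  rw [div_le_iff₀ hc] at hd'
  set Q : ℕ := ⌊c * d⌋₊ with hQ
  have hcd : 0 ≤ c * (d : ℝ) := by positivity
  have h1 : (Q : ℝ) ≤ c * d := Nat.floor_le hcd
  have h2 : c * d - 1 < Q := by
    have := Nat.lt_floor_add_one (c * (d : ℝ))
    linarith
  have h3 : C ≤ Q := by nlinarith
  have h4 := h d Q h3 h1
  have hQpos : 0 < (Q : ℝ) := by linarith
  by_contra hcon
  push Not at hcon
  have h5 : (Finset.Ico Q (2 * Q)).filter (fun q => ¬ Ord ε d q) = Finset.Ico Q (2 * Q) := by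
    refine Finset.filter_true_of_mem fun q hq => hcon q ?_
    rw [Finset.mem_Ico] at hq
    have h6 : (Q : ℝ) ≤ q := by exact_mod_cast hq.1
    nlinarith
  rw [h5, Nat.card_Ico] at h4
  have h7 : ((2 * Q - Q : ℕ) : ℝ) = Q := by
    congr 1
    omega
  rw [h7] at h4
  linarith

end Pool.Agent.LIN
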