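import Pool.Agent.Lib_MP_2c424f_lin.E9
import Pool.Agent.Lib_MP_2c424f_lin.F3
import Pool.Agent.Lib_MP_2c424f_lin.Ev

/-!
# H30 N1: removal of a colour class

If `Y` is not independent the left side is `0`.  Otherwise `ecb` with `S` = `q-1` colours, labels `Bool`,
`K false a b = 1[a ≠ b]`, `K true = 1`, `w (x,l) = true` iff `x ∈ Y` or `x + e_l ∈ Y` (exactly `2d|Y|` edges):
`Zw K w = ∑_f 1[f proper on the edges off Y] ≥ (q-1)^|Y| #{g proper q-colouring : Xc c g = Y}` (recolour `Y`
arbitrarily with the other colours; `Fin q ∖ {c} ≃ Fin (q-1)`).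
`Zw (const false) = ZZ (q-1)`, `Zw (const true) = (q-1)^N`.  So
`log # ≤ (1 - 2|Y|/N) log ZZ(q-1) + 2|Y| log (q-1) - |Y| log (q-1) + err`, and
`log ZZ(q-1) ≥ N (log ((q-1)/2) - 1/(q-1)²)` (`pressure_ge`) gives
`log # ≤ log ZZ(q-1) + |Y| (log 4 - log (q-1) + 2/(q-1)²) + err`, `4/(q-1) exp (2/(q-1)²) ≤ 5/q` for large `q`,
`err = 4·2^d d² N log (q-1)/2^k ≤ ε N/q` for large `k` (`Ev_pow`).
-/

set_option autoImplicit false

open Finset Filter

namespace Pool.Agent.LIN

open Pool.Agent.LO

private noncomputable def N1_K (m : ℕ) : Bool → Fin m → Fin m → ℝ :=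
  fun l a b => if l = false ∧ a = b then 0 else 1

open scoped Classical in
private noncomputable def N1_w {d k : ℕ} (Y : Finset (Site d k)) : Site d k → Fin d → Bool :=
  fun x l => decide (x ∈ Y ∨ x + sv (l, true) ∈ Y)

open scoped Classical in
private theorem N1_Zw {d k m : ℕ} (w : Site d k → Fin d → Bool) :
    Zw (N1_K m) w = ((univ.filter fun f : Site d k → Fin m =>
      ∀ x i, w x i = false → f (x + sv (i, true)) ≠ f x).card : ℝ) := by
  unfold Zw
  rw [← Finset.sum_boole]
  refine Finset.sum_congr rfl fun f _ => ?_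
  have hE : ∀ x i, eE f x i = eO f x i ↔ f (x + sv (i, true)) = f x := by
    intro x i
    unfold eE eO
    split_ifs
    · exact eq_comm
    · exact Iff.rfl
  split_ifs with h
  · refine Finset.prod_eq_one fun x _ => Finset.prod_eq_one fun i _ => ?_
    unfold N1_K
    rw [if_neg]
    rintro ⟨h1, h2⟩
    exact h x i h1 ((hE x i).1 h2)
  · push Not at h
    obtain ⟨x, i, h1, h2⟩ := h
    refine Finset.prod_eq_zero (mem_univ x) (Finset.prod_eq_zero (mem_univ i) ?_)
    unfold N1_K
    rw [if_pos ⟨h1, (hE x i).2 h2⟩]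

private theorem N1_prp {d k m : ℕ} (f : Site d k → Fin m) :
    Prp f ↔ ∀ x i, f (x + sv (i, true)) ≠ f x := by
  constructor
  · intro h x i
    exact h x (i, true)
  · rintro h x ⟨i, b⟩
    cases b
    · have h1 := h (x + sv (i, false)) i
      have h2 : x + sv (i, false) + sv (i, true) = x := by
        rw [add_assoc]
        have h3 := sv_opp (d := d) (k := k) i false
        rw [Bool.not_false] at h3
        rw [h3, add_zero]
      rw [h2] at h1
      exact h1.symm
    · exact h x i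

private theorem N1_Zfalse {d k m : ℕ} :
    Zw (N1_K m) (fun (_ : Site d k) (_ : Fin d) => false) = ZZ d k m := by
  classical
  rw [N1_Zw]
  unfold ZZ prps
  congr 2
  ext f
  simp only [mem_filter, mem_univ, true_and, N1_prp, forall_const]

private theorem N1_Ztrue {d k m : ℕ} :
    Real.log (Zw (N1_K m) (fun (_ : Site d k) (_ : Fin d) => true)) = NN d k * Real.log m := by
  classical
  rw [N1_Zw]
  have h : (univ.filter fun f : Site d k → Fin m =>
      ∀ (x : Site d k) (i : Fin d), true = false → f (x + sv (i, true)) ≠ f x) = univ := by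
    refine Finset.filter_true_of_mem fun f _ x i h => ?_
    exact absurd h (by decide)
  rw [h, Finset.card_univ, Fintype.card_fun, Fintype.card_fin, Nat.cast_pow, Real.log_pow,
    card_site]

private theorem N1_ind {d k q : ℕ} {c : Fin q} {Y : Finset (Site d k)} {g : Site d k → Fin q}
    (hg : Prp g) (hY : Xc c g = Y) (x : Site d k) (σ : Stp d) (hx : x ∈ Y) : x + sv σ ∉ Y := by
  intro h
  rw [← hY] at hx h
  simp only [Xc, mem_filter, mem_univ, true_and] at hx h
  exact hg x σ (h.trans hx.symm)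

private theorem N1_sum {d k : ℕ} (Y : Finset (Site d k)) (hY : ∀ x ∈ Y, ∀ σ : Stp d, x + sv σ ∉ Y)
    (φ : Bool → ℝ) : ∑ x, ∑ l, φ (N1_w Y x l) =
      (d * NN d k) * φ false + 2 * d * Y.card * (φ true - φ false) := by
  classical
  have h1 : ∀ x l, φ (N1_w Y x l) = φ false + ((if x ∈ Y then 1 else 0) +
      (if x + sv (l, true) ∈ Y then 1 else 0)) * (φ true - φ false) := by
    intro x l
    unfold N1_w
    by_cases hx : x ∈ Y
    · have h2 := hY x hx (l, true)
      simp [hx, h2]
    · by_cases h2 : x + sv (l, true) ∈ Y <;> simp [hx, h2]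
  have h2 : ∑ x : Site d k, ∑ _l : Fin d, (if x ∈ Y then (1 : ℝ) else 0) = d * Y.card := by
    simp only [Finset.sum_const, card_univ, Fintype.card_fin, nsmul_eq_mul, ← Finset.mul_sum]
    rw [Finset.sum_boole, Finset.filter_mem_eq_inter, Finset.univ_inter]
  have h3 : ∑ x : Site d k, ∑ l : Fin d, (if x + sv (l, true) ∈ Y then (1 : ℝ) else 0) =
      d * Y.card := by
    rw [Finset.sum_comm]
    have h4 : ∀ l : Fin d, ∑ x : Site d k, (if x + sv (l, true) ∈ Y then (1 : ℝ) else 0) =
        Y.card := by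
      intro l
      refine (Fintype.sum_equiv (Equiv.addRight (sv (l, true) : Site d k))
        (fun x => if x + sv (l, true) ∈ Y then (1 : ℝ) else 0)
        (fun x => if x ∈ Y then (1 : ℝ) else 0) (fun x => rfl)).trans ?_
      rw [Finset.sum_boole, Finset.filter_mem_eq_inter, Finset.univ_inter]
    simp only [h4, Finset.sum_const, card_univ, Fintype.card_fin, nsmul_eq_mul]
  simp only [h1, Finset.sum_add_distrib, ← Finset.sum_mul]
  rw [h2, h3]
  simp only [Finset.sum_const, card_univ, Fintype.card_fin, nsmul_eq_mul]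
  rw [card_site]
  ring

open scoped Classical in
private theorem N1_count {d k m : ℕ} (hm : 1 ≤ m) (c : Fin (m + 1)) (Y : Finset (Site d k)) :
    (m : ℝ) ^ Y.card * (((prps d k (m + 1)).filter fun g => Xc c g = Y).card : ℝ) ≤
      Zw (N1_K m) (N1_w Y) := by
  rw [N1_Zw]
  let e : Fin m ≃ {x : Fin (m + 1) // x ≠ c} := finSuccAboveEquiv c
  let F : (Site d k → Fin (m + 1)) × (Y → Fin m) → (Site d k → Fin m) := fun p x =>
    if hx : x ∈ Y then p.2 ⟨x, hx⟩ else
      if hg : p.1 x = c then ⟨0, hm⟩ else e.symm ⟨p.1 x, hg⟩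
  have hnc : ∀ g : Site d k → Fin (m + 1), Xc c g = Y → ∀ x, x ∉ Y → g x ≠ c := by
    intro g hg x hx h
    apply hx
    rw [← hg]
    simp only [Xc, mem_filter, mem_univ, true_and]
    exact h
  have hcc : ∀ g : Site d k → Fin (m + 1), Xc c g = Y → ∀ x, x ∈ Y → g x = c := by
    intro g hg x hx
    rw [← hg] at hx
    simpa only [Xc, mem_filter, mem_univ, true_and] using hx
  have hF1 : ∀ p x (hx : x ∈ Y), F p x = p.2 ⟨x, hx⟩ := by
    intro p x hx
    exact dif_pos hx
  have hF2 : ∀ p x, x ∉ Y → ∀ hg : p.1 x ≠ c, F p x = e.symm ⟨p.1 x, hg⟩ := by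
    intro p x hx hg
    exact (dif_neg hx).trans (dif_neg hg)
  have hcard := Finset.card_le_card_of_injOn
    (s := ((prps d k (m + 1)).filter fun g => Xc c g = Y) ×ˢ (univ : Finset (Y → Fin m)))
    (t := univ.filter fun f : Site d k → Fin m =>
      ∀ x i, N1_w Y x i = false → f (x + sv (i, true)) ≠ f x) F ?_ ?_
  · rw [Finset.card_product, Finset.card_univ, Fintype.card_fun, Fintype.card_fin,
      Fintype.card_coe, mul_comm] at hcard
    exact_mod_cast hcard
  · rintro ⟨g, h⟩ hp
    simp only [Finset.coe_product, Finset.coe_filter, Finset.coe_univ, Set.mem_prod,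
      Set.mem_ofPred_eq, Set.mem_univ, and_true, prps, mem_filter, mem_univ, true_and] at hp
    obtain ⟨hg, hY⟩ := hp
    simp only [Finset.coe_filter, mem_univ, true_and, Set.mem_ofPred_eq]
    intro x i hw
    simp only [N1_w, decide_eq_false_iff_not, not_or] at hw
    rw [hF2 (g, h) x hw.1 (hnc g hY x hw.1), hF2 (g, h) _ hw.2 (hnc g hY _ hw.2)]
    intro heq
    have h1 := e.symm.injective heq
    exact hg x (i, true) (congrArg Subtype.val h1)
  · rintro ⟨g, h⟩ hp ⟨g', h'⟩ hp' heq
    simp only [Finset.coe_product, Finset.coe_filter, Finset.coe_univ, Set.mem_prod,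
      Set.mem_ofPred_eq, Set.mem_univ, and_true, prps, mem_filter, mem_univ, true_and] at hp hp'
    obtain ⟨-, hY⟩ := hp
    obtain ⟨-, hY'⟩ := hp'
    refine Prod.ext ?_ ?_
    · funext x
      by_cases hx : x ∈ Y
      · exact (hcc g hY x hx).trans (hcc g' hY' x hx).symm
      · have h1 := congrFun heq x
        rw [hF2 (g, h) x hx (hnc g hY x hx), hF2 (g', h') x hx (hnc g' hY' x hx)] at h1
        exact congrArg Subtype.val (e.symm.injective h1)
    · funext ⟨x, hx⟩
      have h1 := congrFun heq x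
      rw [hF1 (g, h) x hx, hF1 (g', h') x hx] at h1
      exact h1

private theorem N1_num (m : ℕ) (hm : 11 ≤ m) :
    2 * Real.log 2 - Real.log m + 2 / (m : ℝ) ^ 2 ≤ Real.log (5 / ((m + 1 : ℕ) : ℝ)) := by
  have hm' : (11 : ℝ) ≤ m := by exact_mod_cast hm
  have hm0 : (0 : ℝ) < m := by linarith
  have h1 : Real.log ((m + 1 : ℕ) : ℝ) ≤ Real.log m + 1 / m := by
    have h2 : ((m + 1 : ℕ) : ℝ) = m * (1 + 1 / m) := by
      push_cast
      field_simp
    rw [h2, Real.log_mul hm0.ne' (by positivity)]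
    have h3 := Real.log_le_sub_one_of_pos (show (0 : ℝ) < 1 + 1 / m by positivity)
    linarith
  have h4 : Real.log 5 = 2 * Real.log 2 + Real.log (5 / 4) := by
    have h5 : (5 : ℝ) = 2 * 2 * (5 / 4) := by norm_num
    conv_lhs => rw [h5]
    rw [Real.log_mul (by norm_num) (by norm_num), Real.log_mul (by norm_num) (by norm_num)]
    ring
  have h6 : (1 / 5 : ℝ) ≤ Real.log (5 / 4) := by
    have h7 := Real.one_sub_inv_le_log_of_pos (show (0 : ℝ) < 5 / 4 by norm_num)
    norm_num at h7 ⊢
    linarith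
  have h8 : 1 / (m : ℝ) ≤ 1 / 11 := one_div_le_one_div_of_le (by norm_num) hm'
  have h9 : 2 / (m : ℝ) ^ 2 ≤ 2 / 121 := by
    apply div_le_div_of_nonneg_left (by norm_num) (by norm_num)
    nlinarith
  rw [Real.log_div (by norm_num) (by positivity), h4]
  linarith

open scoped Classical in
private theorem N1_main {d k m : ℕ} (hd : 2 ≤ d) (hk : 2 ≤ k) (hm : 11 ≤ m) (c : Fin (m + 1))
    (Y : Finset (Site d k)) :
    (((prps d k (m + 1)).filter fun g => Xc c g = Y).card : ℝ) ≤
      (5 / ((m + 1 : ℕ) : ℝ)) ^ Y.card * ZZ d k m *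
        Real.exp (4 * 2 ^ d * (d : ℝ) ^ 2 * NN d k * Real.log m / 2 ^ k) := by
  set n : ℝ := (((prps d k (m + 1)).filter fun g => Xc c g = Y).card : ℝ) with hn
  have hZ : 0 < ZZ d k m := ZZ_pos (by omega) (by omega)
  have hm' : (11 : ℝ) ≤ m := by exact_mod_cast hm
  have hm0 : (0 : ℝ) < m := by linarith
  rcases Finset.eq_empty_or_nonempty ((prps d k (m + 1)).filter fun g => Xc c g = Y) with h0 | h0
  · rw [hn, h0, Finset.card_empty, Nat.cast_zero]
    positivity
  · obtain ⟨g, hg⟩ := h0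
    have hnpos : 0 < n := by
      rw [hn]
      exact_mod_cast Finset.card_pos.2 ⟨g, hg⟩
    simp only [prps, mem_filter, mem_univ, true_and] at hg
    have hind : ∀ x ∈ Y, ∀ σ : Stp d, x + sv σ ∉ Y := fun x hx σ => N1_ind hg.1 hg.2 x σ hx
    have hN : 0 < NN d k := by
      unfold NN
      positivity
    have hd0 : (0 : ℝ) < d := by
      have : (2 : ℝ) ≤ d := by exact_mod_cast hd
      linarith
    have h1 := N1_count (d := d) (k := k) (m := m) (by omega) c Y
    rw [← hn] at h1
    have hpos : 0 < (m : ℝ) ^ Y.card * n := by positivity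
    have h2 := Real.log_le_log hpos h1
    rw [Real.log_mul (by positivity) hnpos.ne', Real.log_pow] at h2
    have h3 := ecb (d := d) (k := k) hd hk (N1_K m) (by
      intro l a b
      unfold N1_K
      split_ifs <;> norm_num) (⟨0, by omega⟩ : Fin m) (⟨1, by omega⟩ : Fin m) (by
      intro l
      unfold N1_K
      rw [if_neg]
      · norm_num
      · rintro ⟨-, h⟩
        exact absurd (congrArg Fin.val h) (by norm_num)) (N1_w Y)
    rw [N1_sum Y hind (fun b => Real.log (Zw (N1_K m) fun (_ : Site d k) (_ : Fin d) => b)),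
      N1_Zfalse, N1_Ztrue, Fintype.card_fin] at h3
    have h4 : (d * NN d k * Real.log (ZZ d k m) + 2 * d * Y.card *
        (NN d k * Real.log m - Real.log (ZZ d k m))) / (d * NN d k) =
        Real.log (ZZ d k m) + 2 * Y.card * Real.log m -
          2 * Y.card * (Real.log (ZZ d k m) / NN d k) := by
      field_simp
      ring
    rw [h4] at h3
    have h5 := pressure_ge (d := d) (k := k) (q := m) (by omega) hk (by omega)
    have h6 : Real.log (m / 2) - 1 / (m : ℝ) ^ 2 ≤ Real.log (ZZ d k m) / NN d k := by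
      rw [le_div_iff₀ hN]
      linarith
    rw [Real.log_div hm0.ne' (by norm_num)] at h6
    have h7 := N1_num m hm
    have hY0 : (0 : ℝ) ≤ Y.card := Nat.cast_nonneg _
    have h8 := mul_le_mul_of_nonneg_left h6 hY0
    have h9 := mul_le_mul_of_nonneg_left h7 hY0
    have h10 : Real.log n ≤ Real.log (ZZ d k m) + Y.card * Real.log (5 / ((m + 1 : ℕ) : ℝ)) +
        4 * 2 ^ d * (d : ℝ) ^ 2 * NN d k * Real.log m / 2 ^ k := by
      have h11 : (Y.card : ℝ) * (2 / (m : ℝ) ^ 2) = 2 * (Y.card * (1 / (m : ℝ) ^ 2)) := by ring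
      nlinarith [h2, h3, h8, h9, h11]
    have h5m : (0 : ℝ) < 5 / ((m + 1 : ℕ) : ℝ) := by positivity
    calc n = Real.exp (Real.log n) := (Real.exp_log hnpos).symm
      _ ≤ Real.exp (Real.log (ZZ d k m) + Y.card * Real.log (5 / ((m + 1 : ℕ) : ℝ)) +
        4 * 2 ^ d * (d : ℝ) ^ 2 * NN d k * Real.log m / 2 ^ k) := Real.exp_le_exp.2 h10
      _ = _ := by
        rw [Real.exp_add, Real.exp_add, Real.exp_log hZ, ← Real.log_pow,
          Real.exp_log (pow_pos h5m _)]
        ring

open scoped Classical in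
theorem removal (ε : ℝ) (hε : 0 < ε) : Ev fun d k q => ∀ (c : Fin q) (Y : Finset (Site d k)),
    (((prps d k q).filter fun g => Xc c g = Y).card : ℝ) ≤
      (5 / (q : ℝ)) ^ Y.card * ZZ d k (q - 1) * Real.exp (ε * (NN d k / q)) := by
  refine ((Ev_pow fun d q => 4 * 2 ^ d * (d : ℝ) ^ 2 * Real.log ((q - 1 : ℕ) : ℝ) * q / ε).and
    (Ev_large 12)).mono ?_
  rintro d k q ⟨hC, hq, -, hd, hk⟩ c Y
  have hq' : 12 ≤ q := by exact_mod_cast hq
  have hd' : 12 ≤ d := by exact_mod_cast hd
  have hk' : 12 ≤ k := by exact_mod_cast hk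
  obtain ⟨m, rfl⟩ : ∃ m, q = m + 1 := ⟨q - 1, by omega⟩
  rw [Nat.add_sub_cancel] at hC ⊢
  have h1 := N1_main (d := d) (k := k) (m := m) (by omega) (by omega) (by omega) c Y
  refine h1.trans ?_
  have hZ : 0 < ZZ d k m := ZZ_pos (by omega) (by omega)
  refine mul_le_mul_of_nonneg_left (Real.exp_le_exp.2 ?_) (by positivity)
  have hN : 0 < NN d k := by
    unfold NN
    positivity
  have hq0 : (0 : ℝ) < ((m + 1 : ℕ) : ℝ) := by positivity
  rw [div_le_iff₀ (by positivity)] at hC
  rw [div_le_iff₀ (by positivity)]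
  have h2 := mul_le_mul_of_nonneg_right hC (div_nonneg hN.le hq0.le)
  have h3 : 4 * 2 ^ d * (d : ℝ) ^ 2 * Real.log m * ((m + 1 : ℕ) : ℝ) *
      (NN d k / ((m + 1 : ℕ) : ℝ)) = 4 * 2 ^ d * (d : ℝ) ^ 2 * NN d k * Real.log m := by
    field_simp
  rw [h3] at h2
  linarith

end Pool.Agent.LIN
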