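import Pool.Agent.Lib_MP_2c424f_lin.N2b

/-!
# H30 N2: generating function of the number of sites of colour `c`

`X = Xc c f = X' ∪ X''`, `X'' = Xs a c f`.  For fixed `I, Y` let `F(I,Y) = {f proper : X' = I, X'' = Y}`.
`recol`: `#F(I,Y) ((1/2-a)q - 1)^|I| ≤ #{g proper : Xc c g = Y}`: recolour the sites of `I` by available colours `≠ c`
(`av f v - 1 ≥ (1/2-a)q - 1` possibilities each, the sites of `I` are not adjacent and their neighbours are not in
`X`); `(f, recolouring) ↦ g` is injective for given `I, Y` (`f = c` on `I`), and `F(I,Y)` is empty unless `I` is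
independent.  Then (`0 ≤ w ≤ 2`, `J = 30aN/q`, `|Y| ≤ J`)
`∑ w^|X| ≤ [∑_{|Y| ≤ J} w^|Y| (5/q)^|Y|] ZZ(q-1) exp (εN/q) [∑_{I indep} (w/((1/2-a)q-1))^|I|]`;
first bracket `≤ a^(-J) (1 + 10a/q)^N ≤ exp ((N/q)(30 a log (1/a) + 10a))`; second (`hardcore`)
`≤ exp ((N/q)(q log 2/(4d) + w(1+3a)))`; `ZZ(q-1) ≤ ZZ(q) exp (-(N/q)(1 - √(14δ) - 3/q))` (`ratio_ge` for `q-1`).
The total exponent is `(N/q)(w - 1 + s)` with `s → 0` as `a → 0`, then the regime parameter `→ 0`.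
-/
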