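import Pool.Agent.Lib_MP_2c424f_lin.N2a

/-!
# H30 N2b: generating function of the number of sites of colour `c`

`X = Xc c f = X' ∪ X''`, `X'' = Xs a c f`.  For fixed `I, Y` let `F(I,Y) = {f proper : X' = I, X'' = Y}`.
`recol`: `#F(I,Y) ((1/2-a)q - 1)^|I| ≤ #{g proper : Xc c g = Y}`: recolour the sites of `I` by available colours `≠ c`
(`av f v - 1 ≥ (1/2-a)q - 1` possibilities each, the sites of `I` are not adjacent and their neighbours are not in
`X`); `(f, recolouring) ↦ g` is injective for given `I, Y` (`f = c` on `I`), and `F(I,Y)` is empty unless `I` is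
independent.  Then (`0 ≤ w ≤ 2`, `J = 30aN/q`, `|Y| ≤ J`)
`∑ w^|X| ≤ [∑_{|Y| ≤ J} w^|Y| (5/q)^|Y|] ZZ(q-1) exp (εN/q) [∑_{I indep} (w/((1/2-a)q-1))^|I|]`;
first bracket `≤ a^(-J) (1 + 10a/q)^N ≤ exp ((N/q)(30 a log (1/a) + 10a))`; second (`hardcore`)
`≤ exp ((N/q)(q log 2/(4d) + w(1+3a)))`; `ZZ(q-1) ≤ ZZ(q) exp (-(N/q)(1 - √(14δ) - 3/q))` (`ratio_ge` for `q-1`).
The total exponent is `(N/q)(w - 1 + s)` with `s → 0` as `a → 0`, then the regime parameter `→ 0`.
-/

set_option autoImplicit false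

open Finset Filter

namespace Pool.Agent.LIN

open Pool.Agent.LO

/-- generating function of the small sets -/
private theorem n2b_bracket {d k : ℕ} {a x J : ℝ} (ha : 0 < a) (ha1 : a ≤ 1) (hx : 0 ≤ x) :
    ∑ Y ∈ (univ : Finset (Finset (Site d k))).filter (fun Y => (Y.card : ℝ) ≤ J), x ^ Y.card ≤
      Real.exp (J * Real.log (1 / a) + NN d k * (a * x)) := by
  have h1 : ∀ Y ∈ (univ : Finset (Finset (Site d k))).filter (fun Y => (Y.card : ℝ) ≤ J),
      x ^ Y.card ≤ Real.exp (J * Real.log (1 / a)) * (a * x) ^ Y.card := by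
    intro Y hY
    have hY' : (Y.card : ℝ) ≤ J := (mem_filter.1 hY).2
    have hlog : 0 ≤ Real.log (1 / a) := Real.log_nonneg (by rw [le_div_iff₀ ha]; linarith)
    have h2 : 1 ≤ Real.exp (J * Real.log (1 / a)) * a ^ Y.card := by
      have h3 : a ^ Y.card = Real.exp (-((Y.card : ℝ) * Real.log (1 / a))) := by
        rw [one_div, Real.log_inv, mul_neg, neg_neg, mul_comm, Real.exp_mul, Real.exp_log ha,
          Real.rpow_natCast]
      rw [h3, ← Real.exp_add]
      apply Real.one_le_exp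
      nlinarith
    rw [mul_pow, ← mul_assoc]
    have h4 : 0 ≤ x ^ Y.card := pow_nonneg hx _
    nlinarith
  refine (sum_le_sum h1).trans ?_
  have h5 : ∑ Y ∈ (univ : Finset (Finset (Site d k))).filter (fun Y => (Y.card : ℝ) ≤ J),
      Real.exp (J * Real.log (1 / a)) * (a * x) ^ Y.card ≤
      ∑ Y : Finset (Site d k), Real.exp (J * Real.log (1 / a)) * (a * x) ^ Y.card := by
    refine sum_le_sum_of_subset_of_nonneg (filter_subset _ _) fun Y _ _ => ?_
    have := mul_nonneg ha.le hx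
    positivity
  refine h5.trans ?_
  rw [← mul_sum, Real.exp_add]
  refine mul_le_mul_of_nonneg_left ?_ (Real.exp_pos _).le
  have h6 : ∑ Y : Finset (Site d k), (a * x) ^ Y.card = (a * x + 1) ^ Fintype.card (Site d k) := by
    rw [← Fintype.sum_pow_mul_eq_add_pow]
    simp
  rw [h6, ← card_site d k, mul_comm (Fintype.card (Site d k) : ℝ), Real.exp_mul,
    Real.rpow_natCast]
  refine pow_le_pow_left₀ (by have := mul_nonneg ha.le hx; linarith) ?_ _
  exact Real.add_one_le_exp _

open scoped Classical in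
/-- the splitting of the sum -/
private theorem n2b_split {d k q : ℕ} (hk : 2 ≤ k) (hq : 2 ≤ q) (a : ℝ) (ha : 0 < a)
    (ha1 : a ≤ 1 / 10) (hq2 : 1 ≤ (1 / 2 - a) * q) (hq3 : 0 < (1 / 2 - a) * q - 1) (c : Fin q)
    (J w : ℝ) (hw : 0 ≤ w) :
    ∑ f ∈ (prps d k q).filter (fun f => ((Xs a c f).card : ℝ) ≤ J), w ^ (Xc c f).card ≤
      (∑ Y ∈ (univ : Finset (Finset (Site d k))).filter (fun Y => (Y.card : ℝ) ≤ J),
        w ^ Y.card * (((prps d k q).filter fun g => Xc c g = Y).card : ℝ)) *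
      ∑ I ∈ (univ : Finset (Finset (Site d k))).filter Ind, (w / ((1 / 2 - a) * q - 1)) ^ I.card := by
  set S := (prps d k q).filter (fun f => ((Xs a c f).card : ℝ) ≤ J) with hS
  set TY := (univ : Finset (Finset (Site d k))).filter (fun Y => (Y.card : ℝ) ≤ J) with hTY
  set TI := (univ : Finset (Finset (Site d k))).filter Ind with hTI
  set L : ℝ := (1 / 2 - a) * q - 1 with hL
  have hsub : ∀ f : Site d k → Fin q, Xs a c f ⊆ Xc c f := by
    intro f v hv
    unfold Xs at hv
    unfold Xc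
    exact mem_filter.2 ⟨mem_univ _, (mem_filter.1 hv).2.1⟩
  have hmap : ∀ f ∈ S, (fun f => (Xs a c f, Xc c f \ Xs a c f)) f ∈ TY ×ˢ TI := by
    intro f hf
    rw [hS, mem_filter] at hf
    have hprop : Prp f := by
      have := hf.1
      unfold prps at this
      exact (mem_filter.1 this).2
    rw [mem_product]
    refine ⟨mem_filter.2 ⟨mem_univ _, hf.2⟩, mem_filter.2 ⟨mem_univ _, ?_⟩⟩
    intro x hx σ hx2
    have h1 : f x = c := by
      have := (mem_sdiff.1 hx).1
      unfold Xc at this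
      exact (mem_filter.1 this).2
    have h2 : f (x + sv σ) = c := by
      have := (mem_sdiff.1 hx2).1
      unfold Xc at this
      exact (mem_filter.1 this).2
    exact hprop x σ (h2.trans h1.symm)
  rw [← sum_fiberwise_of_maps_to hmap, sum_product, sum_mul_sum]
  refine sum_le_sum fun Y _ => sum_le_sum fun I _ => ?_
  have h1 : ∀ f ∈ S.filter (fun f => (Xs a c f, Xc c f \ Xs a c f) = (Y, I)),
      w ^ (Xc c f).card = w ^ Y.card * w ^ I.card := by
    intro f hf
    have h2 := (mem_filter.1 hf).2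
    rw [Prod.mk.injEq] at h2
    rw [← h2.1, ← h2.2, ← pow_add]
    congr 1
    have := card_sdiff_add_card_eq_card (hsub f)
    omega
  rw [sum_congr rfl h1, sum_const, nsmul_eq_mul]
  have h3 : ((S.filter (fun f => (Xs a c f, Xc c f \ Xs a c f) = (Y, I))).card : ℝ) ≤
      (((prps d k q).filter fun f => Xc c f \ Xs a c f = I ∧ Xs a c f = Y).card : ℝ) := by
    norm_cast
    refine card_le_card fun f hf => ?_
    have h4 := mem_filter.1 hf
    have h5 := h4.2
    rw [Prod.mk.injEq] at h5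
    exact mem_filter.2 ⟨(mem_filter.1 h4.1).1, h5.2, h5.1⟩
  have h6 := recol (d := d) (k := k) hk hq a ha ha1 hq2 c I Y
  have h7 : ((S.filter (fun f => (Xs a c f, Xc c f \ Xs a c f) = (Y, I))).card : ℝ) ≤
      (((prps d k q).filter fun g => Xc c g = Y).card : ℝ) / L ^ I.card := by
    rw [le_div_iff₀ (pow_pos hq3 _)]
    exact (mul_le_mul_of_nonneg_right h3 (pow_pos hq3 _).le).trans h6
  calc ((S.filter (fun f => (Xs a c f, Xc c f \ Xs a c f) = (Y, I))).card : ℝ) *
        (w ^ Y.card * w ^ I.card)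
      ≤ (((prps d k q).filter fun g => Xc c g = Y).card : ℝ) / L ^ I.card *
        (w ^ Y.card * w ^ I.card) :=
        mul_le_mul_of_nonneg_right h7 (mul_nonneg (pow_nonneg hw _) (pow_nonneg hw _))
    _ = w ^ Y.card * (((prps d k q).filter fun g => Xc c g = Y).card : ℝ) *
        (w / L) ^ I.card := by
        rw [div_pow]; ring

/-- the number of proper colourings with one colour less -/
private theorem n2b_ratio {d k q : ℕ} {δ : ℝ} (hδ : 0 < δ) (hδ1 : δ ≤ 1 / 8)
    (hδ2 : Real.sqrt (28 * δ) ≤ 1 / 2) (h1 : 1 / δ ≤ q) (h2 : (q : ℝ) ≤ δ * d) (hk : 2 ≤ k)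
    (hZ : 0 < ZZ d k q) :
    ZZ d k (q - 1) ≤ ZZ d k q * Real.exp (-(NN d k / q * (1 - Real.sqrt (28 * δ) - 4 * δ))) := by
  have h8 : (8 : ℝ) ≤ 1 / δ := by rw [le_div_iff₀ hδ]; linarith
  have hq8 : (8 : ℝ) ≤ q := h8.trans h1
  have hq1 : 1 ≤ q := by
    have : (1 : ℝ) ≤ q := by linarith
    exact_mod_cast this
  have hN : 0 < NN d k := by unfold NN; positivity
  have hcast : ((q - 1 : ℕ) : ℝ) = q - 1 := by push_cast [hq1]; ring
  have hinv : 1 / (2 * δ) = (1 / δ) / 2 := by field_simp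
  have hr := ratio_ge (d := d) (k := k) (q := q - 1) (δ := 2 * δ) (by linarith) (by linarith)
    (by rw [hcast, hinv]; linarith) (by rw [hcast]; nlinarith) hk
  rw [Nat.sub_add_cancel hq1, hcast, show (14 : ℝ) * (2 * δ) = 28 * δ by ring] at hr
  have h3 : 2 / ((q : ℝ) - 1) ≤ 4 * δ := by
    have h4 : 1 ≤ δ * q := by
      rw [div_le_iff₀ hδ] at h1
      linarith
    rw [div_le_iff₀ (by linarith)]
    nlinarith
  have h5 : 0 ≤ 1 - Real.sqrt (28 * δ) - 4 * δ := by linarith
  have h6 : NN d k / q * (1 - Real.sqrt (28 * δ) - 4 * δ) ≤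
      NN d k / ((q : ℝ) - 1) * (1 - Real.sqrt (28 * δ) - 2 / ((q : ℝ) - 1)) := by
    have h7 : NN d k / q ≤ NN d k / ((q : ℝ) - 1) :=
      div_le_div_of_nonneg_left hN.le (by linarith) (by linarith)
    have h9 : 0 ≤ NN d k / ((q : ℝ) - 1) := div_nonneg hN.le (by linarith)
    exact mul_le_mul h7 (by linarith) h5 h9
  rcases lt_or_ge 0 (ZZ d k (q - 1)) with hpos | hneg
  · rw [← Real.exp_log hpos, ← Real.exp_log hZ, ← Real.exp_add]
    apply Real.exp_le_exp.2
    linarith
  · exact hneg.trans (by positivity)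

open scoped Classical in
theorem genfun (ε : ℝ) (hε : 0 < ε) : ∃ a : ℝ, 0 < a ∧ a ≤ 1 / 10 ∧ Ev fun d k q => ∀ (c : Fin q) (w : ℝ),
    0 ≤ w → w ≤ 2 →
    ∑ f ∈ (prps d k q).filter (fun f => ((Xs a c f).card : ℝ) ≤ 30 * a * (NN d k / q)), w ^ (Xc c f).card ≤
      ZZ d k q * Real.exp (NN d k / q * (w - 1 + ε)) := by
  set b : ℝ := min (ε / 152) (1 / 4) with hb
  have hb0 : 0 < b := lt_min (by linarith) (by norm_num)
  have hb1 : b ≤ ε / 152 := min_le_left _ _
  have hb2 : b ≤ 1 / 4 := min_le_right _ _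
  set a : ℝ := b ^ 2 with ha
  have ha0 : 0 < a := by positivity
  have hab : a ≤ b := by rw [ha]; nlinarith
  have ha1 : a ≤ 1 / 10 := by rw [ha]; nlinarith
  have halog : 30 * a * Real.log (1 / a) ≤ 60 * b := by
    have h1 : Real.log (1 / a) = 2 * Real.log (1 / b) := by
      rw [ha, one_div, one_div, Real.log_inv, Real.log_inv, Real.log_pow]
      push_cast
      ring
    have h2 : Real.log (1 / b) ≤ 1 / b := by
      have := Real.log_le_sub_one_of_pos (show (0 : ℝ) < 1 / b by positivity)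
      linarith
    rw [h1]
    have h3 : 30 * a * (2 * Real.log (1 / b)) ≤ 30 * a * (2 * (1 / b)) :=
      mul_le_mul_of_nonneg_left (by linarith) (by positivity)
    refine h3.trans (le_of_eq ?_)
    rw [ha]
    field_simp
    ring
  refine ⟨a, ha0, ha1, ?_⟩
  set δ : ℝ := min (min (1 / 8) (a / 7)) (min (ε / 32) (min ((ε / 8) ^ 2 / 28) (1 / 112))) with hδ
  have hδ0 : 0 < δ := by
    rw [hδ]
    refine lt_min (lt_min (by norm_num) (by linarith)) (lt_min (by linarith) (lt_min ?_ (by norm_num)))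
    positivity
  have hδ1 : δ ≤ 1 / 8 := (min_le_left _ _).trans (min_le_left _ _)
  have hδ2 : δ ≤ a / 7 := (min_le_left _ _).trans (min_le_right _ _)
  have hδ3 : δ ≤ ε / 32 := (min_le_right _ _).trans (min_le_left _ _)
  have hδ4 : δ ≤ (ε / 8) ^ 2 / 28 :=
    (min_le_right _ _).trans ((min_le_right _ _).trans (min_le_left _ _))
  have hδ5 : δ ≤ 1 / 112 :=
    (min_le_right _ _).trans ((min_le_right _ _).trans (min_le_right _ _))
  have hsq1 : Real.sqrt (28 * δ) ≤ ε / 8 := by
    rw [Real.sqrt_le_left (by linarith)]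
    linarith
  have hsq2 : Real.sqrt (28 * δ) ≤ 1 / 2 := by
    rw [Real.sqrt_le_left (by norm_num)]
    linarith
  have hfacts : Ev fun d k q => 2 ≤ k ∧ 1 / δ ≤ (q : ℝ) ∧ (q : ℝ) ≤ δ * d := by
    refine Ev_of δ hδ0 fun d q hG => ?_
    filter_upwards [eventually_ge_atTop 2] with k hk
    exact ⟨hk, hG.2.1, hG.2.2.1⟩
  refine ((removal (ε / 8) (by linarith)).and hfacts).mono fun d k q h => ?_
  obtain ⟨hrem, hk, h1, h2⟩ := h
  intro c w hw hw2
  have hN : 0 < NN d k := by unfold NN; positivity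
  have hqd : 1 ≤ δ * q := by
    rw [div_le_iff₀ hδ0] at h1
    linarith
  have hq8 : (8 : ℝ) ≤ q := by
    have h8 : (8 : ℝ) ≤ 1 / δ := by rw [le_div_iff₀ hδ0]; linarith
    exact h8.trans h1
  have haq : 7 ≤ a * q := by
    have : δ * q ≤ a / 7 * q := mul_le_mul_of_nonneg_right hδ2 (by linarith)
    linarith
  have hq2 : 2 ≤ q := by
    have : (2 : ℝ) ≤ q := by linarith
    exact_mod_cast this
  have hd1 : 1 ≤ d := by
    have h3 : (0 : ℝ) < d := by
      by_contra hcon
      have : δ * (d : ℝ) ≤ 0 := mul_nonpos_of_nonneg_of_nonpos hδ0.le (not_lt.1 hcon)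
      linarith
    exact_mod_cast h3
  have hd0 : (0 : ℝ) < d := by exact_mod_cast hd1
  have hq0 : (0 : ℝ) < q := by linarith
  have hq3 : 0 < (1 / 2 - a) * q - 1 := by nlinarith
  have hq4 : 1 ≤ (1 / 2 - a) * q := by linarith
  -- the trivial case
  rcases lt_or_ge 0 (ZZ d k q) with hZ | hZ
  swap
  · have hcard : (prps d k q).card = 0 := by
      have h3 : ((prps d k q).card : ℝ) ≤ 0 := hZ
      have h4 : ((prps d k q).card : ℝ) = 0 := le_antisymm h3 (Nat.cast_nonneg _)
      exact_mod_cast h4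
    rw [card_eq_zero.1 hcard, filter_empty, sum_empty]
    exact mul_nonneg (Nat.cast_nonneg _) (Real.exp_pos _).le
  set J : ℝ := 30 * a * (NN d k / q) with hJ
  set L : ℝ := (1 / 2 - a) * q - 1 with hL
  have hsplit := n2b_split (d := d) (k := k) hk hq2 a ha0 ha1 hq4 hq3 c J w hw
  -- first bracket
  have hB : ∑ Y ∈ (univ : Finset (Finset (Site d k))).filter (fun Y => (Y.card : ℝ) ≤ J),
      w ^ Y.card * (((prps d k q).filter fun g => Xc c g = Y).card : ℝ) ≤
      ZZ d k (q - 1) * Real.exp (ε / 8 * (NN d k / q)) *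
        Real.exp (J * Real.log (1 / a) + NN d k * (a * (10 / q))) := by
    have h3 : ∀ Y ∈ (univ : Finset (Finset (Site d k))).filter (fun Y => (Y.card : ℝ) ≤ J),
        w ^ Y.card * (((prps d k q).filter fun g => Xc c g = Y).card : ℝ) ≤
        ZZ d k (q - 1) * Real.exp (ε / 8 * (NN d k / q)) * (10 / (q : ℝ)) ^ Y.card := by
      intro Y _
      have h4 := hrem c Y
      have hZn : 0 ≤ ZZ d k (q - 1) := Nat.cast_nonneg _
      calc w ^ Y.card * (((prps d k q).filter fun g => Xc c g = Y).card : ℝ)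
          ≤ 2 ^ Y.card * ((5 / (q : ℝ)) ^ Y.card * ZZ d k (q - 1) *
            Real.exp (ε / 8 * (NN d k / q))) :=
            mul_le_mul (pow_le_pow_left₀ hw hw2 _) h4 (Nat.cast_nonneg _) (by positivity)
        _ = ZZ d k (q - 1) * Real.exp (ε / 8 * (NN d k / q)) * (2 ^ Y.card *
            (5 / (q : ℝ)) ^ Y.card) := by ring
        _ = ZZ d k (q - 1) * Real.exp (ε / 8 * (NN d k / q)) * (10 / (q : ℝ)) ^ Y.card := by
            rw [← mul_pow]
            congr 2
            ring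
    refine (sum_le_sum h3).trans ?_
    rw [← mul_sum]
    refine mul_le_mul_of_nonneg_left (n2b_bracket ha0 (by linarith) (by positivity)) ?_
    exact mul_nonneg (Nat.cast_nonneg _) (Real.exp_pos _).le
  have hI := hardcore (d := d) (k := k) hd1 hk (w / L) (div_nonneg hw hq3.le)
  have hratio := n2b_ratio (d := d) (k := k) (q := q) hδ0 hδ1 hsq2 h1 h2 hk hZ
  have hI0 : 0 ≤ ∑ I ∈ (univ : Finset (Finset (Site d k))).filter Ind, (w / L) ^ I.card :=
    sum_nonneg fun I _ => pow_nonneg (div_nonneg hw hq3.le) _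
  have hfin : ∑ f ∈ (prps d k q).filter (fun f => ((Xs a c f).card : ℝ) ≤ J), w ^ (Xc c f).card ≤
      ZZ d k q * Real.exp (-(NN d k / q * (1 - Real.sqrt (28 * δ) - 4 * δ))) *
        Real.exp (ε / 8 * (NN d k / q)) *
        Real.exp (J * Real.log (1 / a) + NN d k * (a * (10 / q))) *
        Real.exp (NN d k * (Real.log 2 / (4 * d) + w / L / 2)) := by
    refine hsplit.trans ?_
    have hB' := hB.trans (mul_le_mul_of_nonneg_right (mul_le_mul_of_nonneg_right hratio
      (Real.exp_pos (ε / 8 * (NN d k / q))).le) (Real.exp_pos _).le)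
    refine mul_le_mul hB' hI hI0 ?_
    positivity
  refine hfin.trans ?_
  rw [mul_assoc, mul_assoc, mul_assoc, ← Real.exp_add, ← Real.exp_add, ← Real.exp_add]
  refine mul_le_mul_of_nonneg_left (Real.exp_le_exp.2 ?_) hZ.le
  -- the exponents
  have hNq : 0 ≤ NN d k / q := by positivity
  have e1 : NN d k * (Real.log 2 / (4 * d)) ≤ NN d k / q * (ε / 8) := by
    have h3 : Real.log 2 ≤ 1 := by
      have := Real.log_le_sub_one_of_pos (show (0 : ℝ) < 2 by norm_num)
      linarith
    have h4 : Real.log 2 / (4 * d) ≤ 1 / q * (ε / 8) := by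
      rw [div_le_iff₀ (by positivity)]
      have h5 : (q : ℝ) ≤ ε / 32 * d := h2.trans (mul_le_mul_of_nonneg_right hδ3 hd0.le)
      have h6 : 1 / (q : ℝ) * (ε / 8) * (4 * d) = (16 * (ε / 32 * d)) / q := by
        field_simp
        ring
      rw [h6, le_div_iff₀ hq0]
      nlinarith
    calc NN d k * (Real.log 2 / (4 * d)) ≤ NN d k * (1 / q * (ε / 8)) :=
          mul_le_mul_of_nonneg_left h4 hN.le
      _ = NN d k / q * (ε / 8) := by ring
  have e2 : NN d k * (w / L / 2) ≤ NN d k / q * (w + 6 * a) := by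
    have h3 : w / L / 2 ≤ 1 / q * (w + 6 * a) := by
      rw [div_div, div_le_iff₀ (by positivity)]
      have h4 : 1 / (q : ℝ) * (w + 6 * a) * (L * 2) = (w + 6 * a) * (L * 2) / q := by ring
      rw [h4, le_div_iff₀ hq0]
      have h5 : L * 2 = q - 2 * (a * q) - 2 := by rw [hL]; ring
      rw [h5]
      have h6 : a * q * a ≤ a * q * (1 / 10) := mul_le_mul_of_nonneg_left ha1 (by linarith)
      have h7 : w * (a * q) ≤ 2 * (a * q) := mul_le_mul_of_nonneg_right hw2 (by linarith)
      nlinarith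
    calc NN d k * (w / L / 2) ≤ NN d k * (1 / q * (w + 6 * a)) :=
          mul_le_mul_of_nonneg_left h3 hN.le
      _ = NN d k / q * (w + 6 * a) := by ring
  have e3 : J * Real.log (1 / a) ≤ NN d k / q * (60 * b) := by
    have h3 : J * Real.log (1 / a) = NN d k / q * (30 * a * Real.log (1 / a)) := by
      rw [hJ]; ring
    rw [h3]
    exact mul_le_mul_of_nonneg_left halog hNq
  have e4 : NN d k * (a * (10 / q)) = NN d k / q * (10 * a) := by ring
  have e5 : NN d k * (Real.log 2 / (4 * d) + w / L / 2) =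
      NN d k * (Real.log 2 / (4 * d)) + NN d k * (w / L / 2) := by ring
  rw [e4, e5]
  have e6 : NN d k / q * (60 * b + 10 * a + (w + 6 * a) + ε / 8 + ε / 8 +
      (-(1 - Real.sqrt (28 * δ) - 4 * δ))) ≤ NN d k / q * (w - 1 + ε) := by
    refine mul_le_mul_of_nonneg_left ?_ hNq
    linarith
  have e7 : NN d k / q * (60 * b + 10 * a + (w + 6 * a) + ε / 8 + ε / 8 +
      (-(1 - Real.sqrt (28 * δ) - 4 * δ))) = NN d k / q * (60 * b) + NN d k / q * (10 * a) +
      NN d k / q * (w + 6 * a) + NN d k / q * (ε / 8) + ε / 8 * (NN d k / q) +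
      (-(NN d k / q * (1 - Real.sqrt (28 * δ) - 4 * δ))) := by ring
  linarith

end Pool.Agent.LIN
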