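import Pool.Agent.Lib_MP_2c424f_lin.N2
import Pool.Agent.Lib_MP_2c424f_lin.R3

/-!
# H30 N3a: large deviations of the number of sites of colour `c`

* `Nc_tail`: `genfun` with `ε = b²/12`, `w = 1+b`: `P(N_c ≥ (1+b)N/q, |Xs| ≤ J) ≤ exp ((N/q)(b + ε - (1+b) log (1+b)))`,
  `(1+b) log (1+b) ≥ b + b²/3` on `[0,1]`; `w = 1-b`: `exp ((N/q)(-b + ε - (1-b) log (1-b)))`,
  `(1-b) log (1-b) ≥ -b + b²/2`; and `Xs_rare`.
* `Nc_tilt`: split `E exp (±(ρ/q) N_c)` at `N_c = (1 ± b/2) N/q`; `Nc_tail` for `b/2` gives the rate `ρ₀`; `ρ ≤ min ρ₀ 1`;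
  `N_c ≤ N`; the factor `2` is absorbed by `exp ((N/q)(ρ/q) b/2)` for large `k`.
-/

set_option autoImplicit false

open Finset Filter

namespace Pool.Agent.LIN

open Pool.Agent.LO

private theorem n3a_log1 (b : ℝ) (hb : 0 < b) (hb1 : b ≤ 1 / 2) :
    b + b ^ 2 / 3 ≤ (1 + b) * Real.log (1 + b) := by
  have h1 := Real.le_log_one_add_of_nonneg hb.le
  have h2 : (1 + b) * (2 * b / (b + 2)) ≤ (1 + b) * Real.log (1 + b) :=
    mul_le_mul_of_nonneg_left h1 (by linarith)
  refine le_trans ?_ h2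
  rw [← mul_div_assoc, le_div_iff₀ (by linarith)]
  nlinarith [mul_nonneg (sq_nonneg b) (by linarith : (0 : ℝ) ≤ 1 - b)]

private theorem n3a_log2 (b : ℝ) (hb : 0 < b) (hb1 : b ≤ 1 / 2) :
    -b + b ^ 2 / 4 ≤ (1 - b) * Real.log (1 - b) := by
  have h1 := Real.abs_log_sub_add_sum_range_le (x := b) (by rw [abs_of_pos hb]; linarith) 2
  rw [abs_of_pos hb, Finset.sum_range_succ, Finset.sum_range_succ, Finset.sum_range_zero] at h1
  norm_num at h1
  have h2 := (abs_le.1 h1).1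
  have h3 : (1 - b) * (-(b ^ 3 / (1 - b))) = -b ^ 3 := by
    have : (1 - b) ≠ 0 := by linarith
    field_simp
  have h4 : (1 - b) * (-(b ^ 3 / (1 - b))) ≤ (1 - b) * (b + b ^ 2 / 2 + Real.log (1 - b)) :=
    mul_le_mul_of_nonneg_left h2 (by linarith)
  rw [h3] at h4
  nlinarith [mul_nonneg (sq_nonneg b) (by linarith : (0 : ℝ) ≤ 1 / 2 - b)]

private theorem n3a_pow (w : ℝ) (hw : 0 < w) (n : ℕ) : w ^ n = Real.exp (n * Real.log w) := by
  rw [Real.exp_nat_mul, Real.exp_log hw]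

/-- Markov's inequality -/
private theorem n3a_markov {α : Type*} (S T : Finset α) (hTS : T ⊆ S) (g : α → ℝ)
    (hg : ∀ f ∈ S, 0 ≤ g f) (t : ℝ) (ht : ∀ f ∈ T, Real.exp t ≤ g f) (E : ℝ)
    (hE : ∑ f ∈ S, g f ≤ E) : (T.card : ℝ) ≤ E * Real.exp (-t) := by
  have h1 : (T.card : ℝ) * Real.exp t ≤ E := by
    have h2 : T.card • Real.exp t ≤ ∑ f ∈ T, g f := Finset.card_nsmul_le_sum T g _ ht
    rw [nsmul_eq_mul] at h2
    exact h2.trans ((Finset.sum_le_sum_of_subset_of_nonneg hTS fun f hf _ => hg f hf).trans hE)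
  have h3 : (T.card : ℝ) = (T.card : ℝ) * Real.exp t * Real.exp (-t) := by
    rw [mul_assoc, ← Real.exp_add, add_neg_cancel, Real.exp_zero, mul_one]
  rw [h3]
  exact mul_le_mul_of_nonneg_right h1 (Real.exp_pos _).le

open scoped Classical in
theorem Nc_tail (b : ℝ) (hb : 0 < b) (hb1 : b ≤ 1 / 2) : ∃ ρ : ℝ, 0 < ρ ∧ Ev fun d k q => ∀ c : Fin q,
    (((prps d k q).filter fun f => b * (NN d k / q) ≤ |((Xc c f).card : ℝ) - NN d k / q|).card : ℝ) ≤
      ZZ d k q * Real.exp (-(ρ * (NN d k / q))) := by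
  obtain ⟨a, ha, ha1, hgen⟩ := genfun (b ^ 2 / 12) (by positivity)
  have hxs := Xs_rare a ha ha1
  obtain ⟨ρ, hρ⟩ : ∃ ρ : ℝ, ρ = min (b ^ 2 / 12) (2 * a) := ⟨_, rfl⟩
  have hρ0 : 0 < ρ := by
    rw [hρ]
    exact lt_min (by positivity) (by linarith)
  have hρ1 : ρ ≤ b ^ 2 / 12 := by
    rw [hρ]
    exact min_le_left _ _
  have hρ2 : ρ ≤ 2 * a := by
    rw [hρ]
    exact min_le_right _ _
  refine ⟨ρ, hρ0, (((hgen.and hxs).and (Ev_large 1)).and
    (Ev_NN fun _ q => 3 * (q : ℝ) / ρ)).mono fun d k q h c => ?_⟩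
  obtain ⟨⟨⟨hg, hx⟩, hq1, -⟩, hNN⟩ := h
  have hq : (0 : ℝ) < q := by linarith
  have hNpos : 0 < NN d k := by
    unfold NN
    positivity
  obtain ⟨M, hM⟩ : ∃ M : ℝ, M = NN d k / q := ⟨_, rfl⟩
  have hMpos : 0 < M := by
    rw [hM]
    exact div_pos hNpos hq
  have hρM : 3 ≤ ρ * M := by
    rw [div_le_iff₀ hρ0] at hNN
    rw [hM, ← mul_div_assoc, le_div_iff₀ hq]
    linarith
  have hZ0 : 0 ≤ ZZ d k q := by
    unfold ZZ
    exact Nat.cast_nonneg _
  rw [← hM]
  have hg1 := hg c (1 + b) (by linarith) (by linarith)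
  have hg2 := hg c (1 - b) (by linarith) (by linarith)
  have hx1 := hx c
  rw [← hM] at hg1 hg2 hx1
  obtain ⟨S, hS⟩ : ∃ S, S = (prps d k q).filter fun f => ((Xs a c f).card : ℝ) ≤ 30 * a * M :=
    ⟨_, rfl⟩
  rw [← hS] at hg1 hg2
  -- the three events
  have hsub : ((prps d k q).filter fun f => b * M ≤ |((Xc c f).card : ℝ) - M|) ⊆
      ((S.filter fun f => (1 + b) * M ≤ ((Xc c f).card : ℝ)) ∪
        (S.filter fun f => ((Xc c f).card : ℝ) ≤ (1 - b) * M)) ∪
        ((prps d k q).filter fun f => 30 * a * M < ((Xs a c f).card : ℝ)) := by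
    intro f hf
    rw [Finset.mem_filter] at hf
    by_cases hJ : ((Xs a c f).card : ℝ) ≤ 30 * a * M
    · have hfS : f ∈ S := by
        rw [hS, Finset.mem_filter]
        exact ⟨hf.1, hJ⟩
      rw [Finset.mem_union, Finset.mem_union, Finset.mem_filter, Finset.mem_filter]
      left
      rcases le_abs.1 hf.2 with h1 | h1
      · exact Or.inl ⟨hfS, by linarith⟩
      · exact Or.inr ⟨hfS, by linarith⟩
    · rw [Finset.mem_union, Finset.mem_filter (s := prps d k q)]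
      exact Or.inr ⟨hf.1, not_le.1 hJ⟩
  have hcard := (Finset.card_le_card hsub).trans ((Finset.card_union_le _ _).trans
    (Nat.add_le_add_right (Finset.card_union_le _ _) _))
  have hcard' : (((prps d k q).filter fun f => b * M ≤ |((Xc c f).card : ℝ) - M|).card : ℝ) ≤
      ((S.filter fun f => (1 + b) * M ≤ ((Xc c f).card : ℝ)).card : ℝ) +
        ((S.filter fun f => ((Xc c f).card : ℝ) ≤ (1 - b) * M).card : ℝ) +
        (((prps d k q).filter fun f => 30 * a * M < ((Xs a c f).card : ℝ)).card : ℝ) := by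
    exact_mod_cast hcard
  have hE : ∀ t : ℝ, t ≤ -(2 * (ρ * M)) → Real.exp t ≤ Real.exp (-(2 * (ρ * M))) := fun t ht =>
    Real.exp_le_exp.2 ht
  have h1 : ((S.filter fun f => (1 + b) * M ≤ ((Xc c f).card : ℝ)).card : ℝ) ≤
      ZZ d k q * Real.exp (-(2 * (ρ * M))) := by
    have h2 := n3a_markov S (S.filter fun f => (1 + b) * M ≤ ((Xc c f).card : ℝ))
      (Finset.filter_subset _ _) (fun f => (1 + b) ^ (Xc c f).card)
      (fun f _ => pow_nonneg (by linarith) _) ((1 + b) * M * Real.log (1 + b))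
      (fun f hf => by
        rw [Finset.mem_filter] at hf
        rw [n3a_pow _ (by linarith)]
        exact Real.exp_le_exp.2 (mul_le_mul_of_nonneg_right hf.2 (Real.log_nonneg (by linarith))))
      _ hg1
    refine h2.trans ?_
    rw [mul_assoc, ← Real.exp_add]
    refine mul_le_mul_of_nonneg_left (hE _ ?_) hZ0
    have h3 := mul_le_mul_of_nonneg_left (n3a_log1 b hb hb1) hMpos.le
    have h4 := mul_le_mul_of_nonneg_left hρ1 hMpos.le
    have h5 : 0 ≤ M * b ^ 2 := by positivity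
    nlinarith
  have h2 : ((S.filter fun f => ((Xc c f).card : ℝ) ≤ (1 - b) * M).card : ℝ) ≤
      ZZ d k q * Real.exp (-(2 * (ρ * M))) := by
    have h2 := n3a_markov S (S.filter fun f => ((Xc c f).card : ℝ) ≤ (1 - b) * M)
      (Finset.filter_subset _ _) (fun f => (1 - b) ^ (Xc c f).card)
      (fun f _ => pow_nonneg (by linarith) _) ((1 - b) * M * Real.log (1 - b))
      (fun f hf => by
        rw [Finset.mem_filter] at hf
        rw [n3a_pow _ (by linarith)]
        exact Real.exp_le_exp.2 (mul_le_mul_of_nonpos_right hf.2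
          (Real.log_nonpos (by linarith) (by linarith))))
      _ hg2
    refine h2.trans ?_
    rw [mul_assoc, ← Real.exp_add]
    refine mul_le_mul_of_nonneg_left (hE _ ?_) hZ0
    have h3 := mul_le_mul_of_nonneg_left (n3a_log2 b hb hb1) hMpos.le
    have h4 := mul_le_mul_of_nonneg_left hρ1 hMpos.le
    nlinarith
  have h3 : (((prps d k q).filter fun f => 30 * a * M < ((Xs a c f).card : ℝ)).card : ℝ) ≤
      ZZ d k q * Real.exp (-(2 * (ρ * M))) := by
    refine hx1.trans (mul_le_mul_of_nonneg_left (hE _ ?_) hZ0)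
    have h4 := mul_le_mul_of_nonneg_left hρ2 hMpos.le
    linarith
  have h4 : 3 * Real.exp (-(2 * (ρ * M))) ≤ Real.exp (-(ρ * M)) := by
    have h5 : Real.exp (-(2 * (ρ * M))) = Real.exp (-(ρ * M)) * Real.exp (-(ρ * M)) := by
      rw [← Real.exp_add]
      congr 1
      ring
    have h6 : 3 * Real.exp (-(ρ * M)) ≤ 1 := by
      have h7 : (3 : ℝ) ≤ Real.exp (ρ * M) := by
        have := Real.add_one_le_exp (ρ * M)
        linarith
      rw [Real.exp_neg, ← div_eq_mul_inv, div_le_one (Real.exp_pos _)]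
      exact h7
    rw [h5, ← mul_assoc]
    exact (mul_le_mul_of_nonneg_right h6 (Real.exp_pos _).le).trans (one_mul _).le
  calc (((prps d k q).filter fun f => b * M ≤ |((Xc c f).card : ℝ) - M|).card : ℝ)
      ≤ ZZ d k q * Real.exp (-(2 * (ρ * M))) + ZZ d k q * Real.exp (-(2 * (ρ * M))) +
        ZZ d k q * Real.exp (-(2 * (ρ * M))) := hcard'.trans (add_le_add (add_le_add h1 h2) h3)
    _ = ZZ d k q * (3 * Real.exp (-(2 * (ρ * M)))) := by ring
    _ ≤ ZZ d k q * Real.exp (-(ρ * M)) := mul_le_mul_of_nonneg_left h4 hZ0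

end Pool.Agent.LIN
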