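import Pool.Agent.Lib_MP_2c424f_lin.N3a

/-!
# H30 N3b: large deviations of the number of sites of colour `c`

* `Nc_tail`: `genfun` with `ε = b²/12`, `w = 1+b`: `P(N_c ≥ (1+b)N/q, |Xs| ≤ J) ≤ exp ((N/q)(b + ε - (1+b) log (1+b)))`,
  `(1+b) log (1+b) ≥ b + b²/3` on `[0,1]`; `w = 1-b`: `exp ((N/q)(-b + ε - (1-b) log (1-b)))`,
  `(1-b) log (1-b) ≥ -b + b²/2`; and `Xs_rare`.
* `Nc_tilt`: split `E exp (±(ρ/q) N_c)` at `N_c = (1 ± b/2) N/q`; `Nc_tail` for `b/2` gives the rate `ρ₀`; `ρ ≤ min ρ₀ 1`;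
  `N_c ≤ N`; the factor `2` is absorbed by `exp ((N/q)(ρ/q) b/2)` for large `k`.
-/

set_option autoImplicit false

open Finset Filter

namespace Pool.Agent.LIN

open Pool.Agent.LO

theorem Nc_tilt (b : ℝ) (hb : 0 < b) (hb1 : b ≤ 1 / 2) : ∃ ρ : ℝ, 0 < ρ ∧ ρ ≤ 1 ∧ Ev fun d k q =>
    ∀ (c : Fin q) (s : ℝ), (s = 1 ∨ s = -1) →
    ∑ f ∈ prps d k q, Real.exp (s * (ρ / q) * (Xc c f).card) ≤
      ZZ d k q * Real.exp (NN d k / q * (ρ / q) * (s + b)) := by
  classical
  obtain ⟨ρ₀, hρ₀, hev⟩ := Nc_tail (b / 2) (by linarith) (by linarith)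
  set ρ : ℝ := min ρ₀ 1 with hρ
  have hρ0 : 0 < ρ := lt_min hρ₀ one_pos
  have hρ1 : ρ ≤ 1 := min_le_right _ _
  have hρρ : ρ ≤ ρ₀ := min_le_left _ _
  refine ⟨ρ, hρ0, hρ1, ?_⟩
  refine ((hev.and (Ev_large 1)).and
    (Ev_NN fun _ q => 2 * (q : ℝ) ^ 2 / (ρ * b))).mono fun d k q h c s hs => ?_
  obtain ⟨⟨htail, hq1, -⟩, hNN⟩ := h
  have hq : (0 : ℝ) < q := by linarith
  have hNpos : 0 < NN d k := by
    unfold NN
    positivity
  set M : ℝ := NN d k / q with hM
  have hMpos : 0 < M := div_pos hNpos hq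
  set P : Finset (Site d k → Fin q) := prps d k q with hP
  set S2 : Finset (Site d k → Fin q) :=
    P.filter fun f => b / 2 * M ≤ |((Xc c f).card : ℝ) - M| with hS2
  set S1 : Finset (Site d k → Fin q) :=
    P.filter fun f => ¬ b / 2 * M ≤ |((Xc c f).card : ℝ) - M| with hS1
  have hZ0 : 0 ≤ ZZ d k q := by
    unfold ZZ
    exact Nat.cast_nonneg _
  have hsplit : ∑ f ∈ P, Real.exp (s * (ρ / q) * (Xc c f).card) =
      ∑ f ∈ S2, Real.exp (s * (ρ / q) * (Xc c f).card) +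
        ∑ f ∈ S1, Real.exp (s * (ρ / q) * (Xc c f).card) :=
    (Finset.sum_filter_add_sum_filter_not P _ _).symm
  have hrq : 0 < ρ / q := div_pos hρ0 hq
  have hrq1 : ρ / q ≤ ρ := div_le_self hρ0.le hq1
  set E : ℝ := Real.exp (M * (ρ / q) * (s + b / 2)) with hE
  have hE0 : 0 < E := Real.exp_pos _
  -- the typical part
  have h1 : ∑ f ∈ S1, Real.exp (s * (ρ / q) * (Xc c f).card) ≤ ZZ d k q * E := by
    have hle : ∀ f ∈ S1, Real.exp (s * (ρ / q) * (Xc c f).card) ≤ E := by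
      intro f hf
      rw [hS1, Finset.mem_filter, not_le] at hf
      have h3 := abs_lt.1 hf.2
      refine Real.exp_le_exp.2 ?_
      have h4 : s * ((Xc c f).card : ℝ) ≤ M * (s + b / 2) := by
        rcases hs with rfl | rfl
        · linarith [h3.2]
        · linarith [h3.1]
      calc s * (ρ / q) * ((Xc c f).card : ℝ) = ρ / q * (s * ((Xc c f).card : ℝ)) := by ring
        _ ≤ ρ / q * (M * (s + b / 2)) := mul_le_mul_of_nonneg_left h4 hrq.le
        _ = M * (ρ / q) * (s + b / 2) := by ring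
    refine (Finset.sum_le_card_nsmul _ _ _ hle).trans ?_
    rw [nsmul_eq_mul]
    refine mul_le_mul_of_nonneg_right ?_ hE0.le
    unfold ZZ
    exact_mod_cast Finset.card_le_card (Finset.filter_subset _ _)
  -- the atypical part
  have h2 : ∑ f ∈ S2, Real.exp (s * (ρ / q) * (Xc c f).card) ≤ ZZ d k q * E := by
    have hle : ∀ f ∈ S2, Real.exp (s * (ρ / q) * (Xc c f).card) ≤
        Real.exp (M * ρ₀ + M * (ρ / q) * (s + b / 2)) := by
      intro f _
      refine Real.exp_le_exp.2 ?_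
      have h5 : ((Xc c f).card : ℝ) ≤ NN d k := by
        rw [← card_site]
        exact_mod_cast Finset.card_le_univ _
      have h6 : (0 : ℝ) ≤ ((Xc c f).card : ℝ) := Nat.cast_nonneg _
      have h7 : NN d k = M * q := by
        rw [hM]
        field_simp
      rcases hs with rfl | rfl
      · have h8 : ρ / q * ((Xc c f).card : ℝ) ≤ ρ / q * (M * q) :=
          mul_le_mul_of_nonneg_left (h5.trans h7.le) hrq.le
        have h9 : ρ / q * (M * q) = M * ρ := by
          field_simp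
        have h10 : M * ρ ≤ M * ρ₀ := mul_le_mul_of_nonneg_left hρρ hMpos.le
        have h11 : 0 ≤ M * (ρ / q) * (1 + b / 2) :=
          mul_nonneg (mul_nonneg hMpos.le hrq.le) (by linarith)
        linarith
      · have h8 : 0 ≤ ρ / q * ((Xc c f).card : ℝ) := mul_nonneg hrq.le h6
        have h9 : M * (ρ / q) * (1 - b / 2) ≤ M * ρ₀ := by
          have h10 : M * (ρ / q) * (1 - b / 2) ≤ M * (ρ / q) * 1 :=
            mul_le_mul_of_nonneg_left (by linarith) (mul_nonneg hMpos.le hrq.le)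
          have h11 : M * (ρ / q) ≤ M * ρ₀ :=
            mul_le_mul_of_nonneg_left (hrq1.trans hρρ) hMpos.le
          linarith
        nlinarith
    refine (Finset.sum_le_card_nsmul _ _ _ hle).trans ?_
    rw [nsmul_eq_mul]
    have h12 : (S2.card : ℝ) ≤ ZZ d k q * Real.exp (-(ρ₀ * M)) := by
      have h13 := htail c
      exact h13
    refine (mul_le_mul_of_nonneg_right h12 (Real.exp_pos _).le).trans ?_
    rw [mul_assoc, ← Real.exp_add]
    refine mul_le_mul_of_nonneg_left ?_ hZ0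
    refine Real.exp_le_exp.2 ?_
    linarith
  -- the factor two
  have h3 : 2 * E ≤ Real.exp (M * (ρ / q) * (s + b)) := by
    have h4 : (1 : ℝ) ≤ M * (ρ / q) * (b / 2) := by
      have h5 : 2 * (q : ℝ) ^ 2 ≤ NN d k * (ρ * b) := by
        rwa [div_le_iff₀ (by positivity)] at hNN
      have h6 : M * (ρ / q) * (b / 2) = NN d k * (ρ * b) / (2 * (q : ℝ) ^ 2) := by
        rw [hM]
        field_simp
      rw [h6, le_div_iff₀ (by positivity), one_mul]
      exact h5
    have h7 : (2 : ℝ) ≤ Real.exp (M * (ρ / q) * (b / 2)) := by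
      have h8 := Real.add_one_le_exp (M * (ρ / q) * (b / 2))
      linarith
    calc 2 * E ≤ Real.exp (M * (ρ / q) * (b / 2)) * E := mul_le_mul_of_nonneg_right h7 hE0.le
      _ = Real.exp (M * (ρ / q) * (s + b)) := by
        rw [hE, ← Real.exp_add]
        congr 1
        ring
  rw [hsplit]
  calc ∑ f ∈ S2, Real.exp (s * (ρ / q) * (Xc c f).card) +
        ∑ f ∈ S1, Real.exp (s * (ρ / q) * (Xc c f).card)
      ≤ ZZ d k q * E + ZZ d k q * E := add_le_add h2 h1
    _ = ZZ d k q * (2 * E) := by ring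
    _ ≤ ZZ d k q * Real.exp (M * (ρ / q) * (s + b)) := mul_le_mul_of_nonneg_left h3 hZ0

end Pool.Agent.LIN
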