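import Pool.Agent.Lib_MP_2c424f_lin.R1b

/-!
# H30 R1: few sites with few colours, exponential moment

* `typ_rare`: Markov with `typ_exp`: `P(∑ (1-2ξ)² > a³N) ≤ exp (-a³N + N (q log 2/(4d) + 1/q²)) ≤ exp (-a³N/2)` if the
  regime parameter is small compared with `a³`.
* `BB_exp`: `E ∏_{v ∈ cls b} (1 + 1/x_v) ≤ ZZ (q+1)/ZZ q ≤ exp ((1+δ)N/q)` (`extra`, `Gd`).  On `typs a b` at most
  `a³N/(4a²) = aN/4` sites of the class have `|ξ - 1/2| > a`, so at least `(1 - a/2) N/2` have `|ξ - 1/2| ≤ a`, each with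
  `log (1+1/x) ≥ 1/(x+1) ≥ (2/q)(1-3a)` (`2/q ≤ a`).  So `∑_{cls b} log (1+1/x_v) ≥ BB a b f + (1-a/2)(1-3a) N/q` and
  `E[exp BB; typ] ≤ exp ((N/q)(1 + δ - (1-a/2)(1-3a))) ≤ exp (5aN/q)`, `δ ≤ a`.
-/
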