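import Pool.Agent.Lib_MP_2c424f_lin.G3
import Pool.Agent.Lib_MP_2c424f_lin.Ev

/-!
# H30 R1a: few sites with few colours, exponential moment

* `typ_rare`: Markov with `typ_exp`: `P(∑ (1-2ξ)² > a³N) ≤ exp (-a³N + N (q log 2/(4d) + 1/q²)) ≤ exp (-a³N/2)` if the
  regime parameter is small compared with `a³`.
* `BB_exp`: `E ∏_{v ∈ cls b} (1 + 1/x_v) ≤ ZZ (q+1)/ZZ q ≤ exp ((1+δ)N/q)` (`extra`, `Gd`).  On `typs a b` at most
  `a³N/(4a²) = aN/4` sites of the class have `|ξ - 1/2| > a`, so at least `(1 - a/2) N/2` have `|ξ - 1/2| ≤ a`, each with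
  `log (1+1/x) ≥ 1/(x+1) ≥ (2/q)(1-3a)` (`2/q ≤ a`).  So `∑_{cls b} log (1+1/x_v) ≥ BB a b f + (1-a/2)(1-3a) N/q` and
  `E[exp BB; typ] ≤ exp ((N/q)(1 + δ - (1-a/2)(1-3a))) ≤ exp (5aN/q)`, `δ ≤ a`.
-/

set_option autoImplicit false

open Finset Filter

namespace Pool.Agent.LIN

open Pool.Agent.LO

theorem typ_rare (a : ℝ) (ha : 0 < a) (ha1 : a ≤ 1 / 10) : Ev fun d k q => ∀ b : Bool,
    (((prps d k q) \ typs a b d k q).card : ℝ) ≤ ZZ d k q * Real.exp (-(a ^ 3 * NN d k / 2)) := by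
  classical
  have ha3 : 0 < a ^ 3 := by positivity
  have ha3' : a ^ 3 ≤ 1 / 1000 := by
    have h1 : a ^ 3 ≤ (1 / 10) ^ 3 := pow_le_pow_left₀ ha.le ha1 3
    norm_num at h1 ⊢
    exact h1
  refine Ev_of (a ^ 3 / 2) (by positivity) fun d q hG => ?_
  obtain ⟨-, hq, hd, -⟩ := hG
  have hq1 : (2000 : ℝ) ≤ q := by
    refine le_trans ?_ hq
    rw [le_div_iff₀ (by positivity)]
    linarith
  have hq0 : (0 : ℝ) < q := by linarith
  have hd1 : 1 ≤ d := by
    rcases Nat.eq_zero_or_pos d with h0 | h0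
    · rw [h0] at hd
      simp only [Nat.cast_zero, mul_zero] at hd
      linarith
    · exact h0
  have hd0 : (0 : ℝ) < d := by exact_mod_cast hd1
  have hq2 : 2 ≤ q := by
    have : (2 : ℝ) ≤ q := by linarith
    exact_mod_cast this
  have e1 : (q : ℝ) * Real.log 2 / (4 * d) ≤ a ^ 3 / 8 := by
    rw [div_le_iff₀ (by positivity)]
    have h1 : Real.log 2 ≤ 1 := by
      have := Real.log_two_lt_d9
      linarith
    have h2 : (q : ℝ) * Real.log 2 ≤ q * 1 := mul_le_mul_of_nonneg_left h1 hq0.le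
    calc (q : ℝ) * Real.log 2 ≤ q * 1 := h2
      _ ≤ a ^ 3 / 2 * d := by linarith
      _ = a ^ 3 / 8 * (4 * d) := by ring
  have e2 : 1 / (q : ℝ) ^ 2 ≤ a ^ 3 / 8 := by
    have h1 : 1 / (q : ℝ) ≤ a ^ 3 / 2 := by
      rw [div_le_iff₀ (by positivity : (0 : ℝ) < a ^ 3 / 2)] at hq
      rw [div_le_iff₀ hq0]
      linarith
    have h2 : 1 / (q : ℝ) ≤ 1 / 2000 := one_div_le_one_div_of_le (by norm_num) hq1
    have h3 : 1 / (q : ℝ) ^ 2 = 1 / (q : ℝ) * (1 / (q : ℝ)) := by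
      rw [sq, one_div_mul_one_div]
    rw [h3]
    have h4 : 0 ≤ 1 / (q : ℝ) := by positivity
    have h5 := mul_le_mul h1 h2 h4 (by positivity : 0 ≤ a ^ 3 / 2)
    linarith
  filter_upwards [eventually_ge_atTop 2] with k hk b
  have hNN : 0 ≤ NN d k := by unfold NN; positivity
  have hZ0 : 0 ≤ ZZ d k q := Nat.cast_nonneg _
  have h1 := typ_exp hd1 hk hq2 b
  have h2 : (((prps d k q) \ typs a b d k q).card : ℝ) * Real.exp (a ^ 3 * NN d k) ≤
      ∑ f ∈ prps d k q, Real.exp (∑ v ∈ cls b d k, (1 - 2 * xi f v) ^ 2) := by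
    calc (((prps d k q) \ typs a b d k q).card : ℝ) * Real.exp (a ^ 3 * NN d k)
        = ∑ _f ∈ (prps d k q) \ typs a b d k q, Real.exp (a ^ 3 * NN d k) := by
          rw [sum_const, nsmul_eq_mul]
      _ ≤ ∑ f ∈ (prps d k q) \ typs a b d k q,
          Real.exp (∑ v ∈ cls b d k, (1 - 2 * xi f v) ^ 2) := by
          refine sum_le_sum fun f hf => Real.exp_le_exp.2 ?_
          rw [Finset.mem_sdiff] at hf
          by_contra hcon
          apply hf.2
          unfold typs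
          rw [mem_filter]
          exact ⟨hf.1, (not_le.1 hcon).le⟩
      _ ≤ _ := sum_le_sum_of_subset_of_nonneg Finset.sdiff_subset fun _ _ _ => (Real.exp_pos _).le
  have h3 : NN d k * (q * Real.log 2 / (4 * d) + 1 / (q : ℝ) ^ 2) ≤ a ^ 3 * NN d k / 2 := by
    have := mul_le_mul_of_nonneg_left (add_le_add e1 e2) hNN
    have h4 : 0 ≤ a ^ 3 * NN d k := by positivity
    linarith
  have h4 : (((prps d k q) \ typs a b d k q).card : ℝ) * Real.exp (a ^ 3 * NN d k) ≤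
      ZZ d k q * Real.exp (a ^ 3 * NN d k / 2) :=
    h2.trans (h1.trans (mul_le_mul_of_nonneg_left (Real.exp_le_exp.2 h3) hZ0))
  have h5 : ZZ d k q * Real.exp (a ^ 3 * NN d k / 2) =
      ZZ d k q * Real.exp (-(a ^ 3 * NN d k / 2)) * Real.exp (a ^ 3 * NN d k) := by
    rw [mul_assoc, ← Real.exp_add]
    congr 2
    ring
  rw [h5] at h4
  exact le_of_mul_le_mul_right h4 (Real.exp_pos _)

end Pool.Agent.LIN
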