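import Pool.Agent.Lib_MP_2c424f_lin.R1a

/-!
# H30 R1b: few sites with few colours, exponential moment

* `typ_rare`: Markov with `typ_exp`: `P(∑ (1-2ξ)² > a³N) ≤ exp (-a³N + N (q log 2/(4d) + 1/q²)) ≤ exp (-a³N/2)` if the
  regime parameter is small compared with `a³`.
* `BB_exp`: `E ∏_{v ∈ cls b} (1 + 1/x_v) ≤ ZZ (q+1)/ZZ q ≤ exp ((1+δ)N/q)` (`extra`, `Gd`).  On `typs a b` at most
  `a³N/(4a²) = aN/4` sites of the class have `|ξ - 1/2| > a`, so at least `(1 - a/2) N/2` have `|ξ - 1/2| ≤ a`, each with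
  `log (1+1/x) ≥ 1/(x+1) ≥ (2/q)(1-3a)` (`2/q ≤ a`).  So `∑_{cls b} log (1+1/x_v) ≥ BB a b f + (1-a/2)(1-3a) N/q` and
  `E[exp BB; typ] ≤ exp ((N/q)(1 + δ - (1-a/2)(1-3a))) ≤ exp (5aN/q)`, `δ ≤ a`.
-/

set_option autoImplicit false

open Finset Filter

namespace Pool.Agent.LIN

open Pool.Agent.LO

private theorem R1b_cls (d k : ℕ) (hd : 1 ≤ d) (hk : 1 ≤ k) (b : Bool) :
    ((cls b d k).card : ℝ) = NN d k / 2 := by
  cases b
  · exact card_ods hd hk
  · exact card_evs hd hk

private theorem R1b_log {x : ℝ} (hx : 0 < x) : 1 / (x + 1) ≤ Real.log (1 + 1 / x) := by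
  have h1 := Real.one_sub_inv_le_log_of_pos (show (0 : ℝ) < 1 + 1 / x by positivity)
  have h2 : 1 - (1 + 1 / x)⁻¹ = 1 / (x + 1) := by
    field_simp
    ring
  rwa [h2] at h1

private theorem R1b_key {a : ℝ} (ha : 0 < a) (ha1 : a ≤ 1 / 10) {d k q : ℕ} (hd : 1 ≤ d)
    (hk : 1 ≤ k) (hq : 2 / a ≤ q) (b : Bool) (f : Site d k → Fin q) (hf : f ∈ typs a b d k q) :
    BB a b f + (1 - a / 2) * (1 - 3 * a) * (NN d k / q) ≤
      ∑ v ∈ cls b d k, Real.log (1 + 1 / (av f v : ℝ)) := by
  classical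
  unfold typs at hf
  rw [mem_filter] at hf
  obtain ⟨hfp, hft⟩ := hf
  unfold prps at hfp
  rw [mem_filter] at hfp
  have hprp : Prp f := hfp.2
  have hq0 : (0 : ℝ) < q := lt_of_lt_of_le (by positivity) hq
  have hav : ∀ v, (1 : ℝ) ≤ av f v := fun v => by exact_mod_cast av_pos hprp v
  have haq : 2 ≤ a * q := by
    rw [div_le_iff₀ ha] at hq
    linarith
  -- pointwise bound
  have hpt : ∀ v ∈ cls b d k,
      (if xi f v < 1 / 2 - a then Real.log (1 + 1 / (av f v : ℝ)) else 0) +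
        (if |xi f v - 1 / 2| ≤ a then 2 / (q : ℝ) * (1 - 3 * a) else 0) ≤
        Real.log (1 + 1 / (av f v : ℝ)) := by
    intro v _
    have hx := hav v
    have hx0 : (0 : ℝ) < av f v := by linarith
    by_cases h1 : xi f v < 1 / 2 - a
    · rw [if_pos h1, if_neg, add_zero]
      rw [not_le]
      have : a < -(xi f v - 1 / 2) := by linarith
      exact lt_of_lt_of_le this (neg_le_abs _)
    · rw [if_neg h1, zero_add]
      have hlog := R1b_log hx0
      by_cases h2 : |xi f v - 1 / 2| ≤ a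
      · rw [if_pos h2]
        refine le_trans ?_ hlog
        have h3 : xi f v ≤ 1 / 2 + a := by
          have := (abs_le.1 h2).2
          linarith
        unfold xi at h3
        rw [div_le_iff₀ hq0] at h3
        rw [div_mul_eq_mul_div, div_le_div_iff₀ hq0 (by linarith)]
        have h4 : 0 ≤ 1 - 3 * a := by linarith
        have h5 : 2 * (1 - 3 * a) * ((av f v : ℝ) + 1) ≤
            2 * (1 - 3 * a) * ((1 / 2 + a) * q + 1) := by
          refine mul_le_mul_of_nonneg_left (by linarith) (by linarith)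
        refine h5.trans ?_
        nlinarith [mul_le_mul_of_nonneg_left haq ha.le]
      · rw [if_neg h2]
        exact le_trans (by positivity) hlog
  have hsum := sum_le_sum hpt
  rw [sum_add_distrib] at hsum
  refine le_trans ?_ hsum
  have hBB : BB a b f = ∑ v ∈ cls b d k,
      if xi f v < 1 / 2 - a then Real.log (1 + 1 / (av f v : ℝ)) else 0 := by
    unfold BB
    exact sum_congr rfl fun v _ => by congr
  rw [hBB]
  refine add_le_add le_rfl ?_
  rw [← sum_filter, sum_const, nsmul_eq_mul]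
  -- counting
  have hcard : (((cls b d k).filter fun v => |xi f v - 1 / 2| ≤ a).card : ℝ) +
      (((cls b d k).filter fun v => ¬ |xi f v - 1 / 2| ≤ a).card : ℝ) = NN d k / 2 := by
    rw [← Nat.cast_add, Finset.card_filter_add_card_filter_not, R1b_cls d k hd hk b]
  have hbad : (((cls b d k).filter fun v => ¬ |xi f v - 1 / 2| ≤ a).card : ℝ) * (4 * a ^ 2) ≤
      a ^ 3 * NN d k := by
    refine le_trans ?_ hft
    rw [← nsmul_eq_mul, ← sum_const]
    refine le_trans (sum_le_sum (g := fun v => (1 - 2 * xi f v) ^ 2) ?_)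
      (sum_le_sum_of_subset_of_nonneg (filter_subset _ _) fun v _ _ => sq_nonneg _)
    intro v hv
    have h1 := (mem_filter.1 hv).2
    rw [not_le] at h1
    have h2 : (1 - 2 * xi f v) ^ 2 = 4 * |xi f v - 1 / 2| ^ 2 := by
      rw [sq_abs]
      ring
    show 4 * a ^ 2 ≤ (1 - 2 * xi f v) ^ 2
    rw [h2]
    have h3 : a ^ 2 ≤ |xi f v - 1 / 2| ^ 2 := pow_le_pow_left₀ ha.le h1.le 2
    linarith
  have hbad2 : (((cls b d k).filter fun v => ¬ |xi f v - 1 / 2| ≤ a).card : ℝ) ≤
      a * NN d k / 4 := by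
    have h1 : (((cls b d k).filter fun v => ¬ |xi f v - 1 / 2| ≤ a).card : ℝ) * (4 * a ^ 2) ≤
        a * NN d k / 4 * (4 * a ^ 2) := hbad.trans_eq (by ring)
    exact le_of_mul_le_mul_right h1 (by positivity)
  have hgood : (1 - a / 2) * (NN d k / 2) ≤
      (((cls b d k).filter fun v => |xi f v - 1 / 2| ≤ a).card : ℝ) := by linarith
  have h6 : 0 ≤ 2 / (q : ℝ) * (1 - 3 * a) := mul_nonneg (by positivity) (by linarith)
  calc (1 - a / 2) * (1 - 3 * a) * (NN d k / q)
      = (1 - a / 2) * (NN d k / 2) * (2 / (q : ℝ) * (1 - 3 * a)) := by ring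
    _ ≤ _ := mul_le_mul_of_nonneg_right hgood h6

theorem BB_exp (a : ℝ) (ha : 0 < a) (ha1 : a ≤ 1 / 10) : Ev fun d k q => ∀ b : Bool,
    ∑ f ∈ typs a b d k q, Real.exp (BB a b f) ≤ ZZ d k q * Real.exp (5 * a * (NN d k / q)) := by
  classical
  refine Ev_of (a / 2) (by positivity) fun d q hG => ?_
  obtain ⟨-, hq, hd, hZ⟩ := hG
  have hq' : 2 / a ≤ q := by
    have : 1 / (a / 2) = 2 / a := by field_simp
    rwa [this] at hq
  have hq0 : (0 : ℝ) < q := lt_of_lt_of_le (by positivity) hq'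
  have hq20 : (20 : ℝ) ≤ q := by
    refine le_trans ?_ hq'
    rw [le_div_iff₀ ha]
    linarith
  have hd1 : 1 ≤ d := by
    rcases Nat.eq_zero_or_pos d with h0 | h0
    · rw [h0] at hd
      simp only [Nat.cast_zero, mul_zero] at hd
      linarith
    · exact h0
  have hq2 : 2 ≤ q := by
    have : (2 : ℝ) ≤ q := by linarith
    exact_mod_cast this
  filter_upwards [hZ, eventually_ge_atTop 2] with k hk hk2
  intro b
  have hNN : 0 ≤ NN d k := by unfold NN; positivity
  have hZ0 : 0 ≤ ZZ d k q := Nat.cast_nonneg _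
  rcases hZ0.eq_or_lt with h0 | h0
  · have hemp : prps d k q = ∅ := by
      unfold ZZ at h0
      exact card_eq_zero.1 (by exact_mod_cast h0.symm)
    have hemp' : typs a b d k q = ∅ := by
      unfold typs
      rw [hemp, filter_empty]
    rw [hemp', sum_empty, ← h0, zero_mul]
  have hZ1 : ZZ d k (q + 1) ≤ ZZ d k q * Real.exp ((1 + a / 2) / q * NN d k) := by
    have h1 : 0 ≤ ZZ d k (q + 1) := Nat.cast_nonneg _
    rcases h1.eq_or_lt with h2 | h2
    · rw [← h2]
      positivity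
    · rw [← Real.log_le_log_iff h2 (by positivity), Real.log_mul h0.ne' (Real.exp_ne_zero _),
        Real.log_exp]
      exact hk
  have hpos : ∀ f ∈ prps d k q, ∀ v, (0 : ℝ) < 1 + 1 / (av f v : ℝ) := by
    intro f _ v
    have : (0 : ℝ) ≤ av f v := Nat.cast_nonneg _
    positivity
  set E := Real.exp (-((1 - a / 2) * (1 - 3 * a) * (NN d k / q))) with hE
  have hstep : ∀ f ∈ typs a b d k q, Real.exp (BB a b f) ≤
      E * ∏ v ∈ cls b d k, (1 + 1 / (av f v : ℝ)) := by
    intro f hf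
    have hfp : f ∈ prps d k q := by
      unfold typs at hf
      exact (mem_filter.1 hf).1
    have h1 := R1b_key ha ha1 hd1 (by omega) hq' b f hf
    have h2 : ∏ v ∈ cls b d k, (1 + 1 / (av f v : ℝ)) =
        Real.exp (∑ v ∈ cls b d k, Real.log (1 + 1 / (av f v : ℝ))) := by
      rw [Real.exp_sum]
      exact prod_congr rfl fun v _ => (Real.exp_log (hpos f hfp v)).symm
    rw [h2, hE, ← Real.exp_add]
    exact Real.exp_le_exp.2 (by linarith)
  calc ∑ f ∈ typs a b d k q, Real.exp (BB a b f)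
      ≤ ∑ f ∈ typs a b d k q, E * ∏ v ∈ cls b d k, (1 + 1 / (av f v : ℝ)) := sum_le_sum hstep
    _ ≤ ∑ f ∈ prps d k q, E * ∏ v ∈ cls b d k, (1 + 1 / (av f v : ℝ)) := by
        refine sum_le_sum_of_subset_of_nonneg ?_ fun f hf _ =>
          mul_nonneg (Real.exp_pos _).le (prod_nonneg fun v _ => (hpos f hf v).le)
        unfold typs
        exact filter_subset _ _
    _ = E * ∑ f ∈ prps d k q, ∏ v ∈ cls b d k, (1 + 1 / (av f v : ℝ)) := by rw [mul_sum]
    _ ≤ E * ZZ d k (q + 1) := mul_le_mul_of_nonneg_left (extra hk2 hq2 b) (Real.exp_pos _).le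
    _ ≤ E * (ZZ d k q * Real.exp ((1 + a / 2) / q * NN d k)) :=
        mul_le_mul_of_nonneg_left hZ1 (Real.exp_pos _).le
    _ = ZZ d k q * (E * Real.exp ((1 + a / 2) / q * NN d k)) := by ring
    _ ≤ ZZ d k q * Real.exp (5 * a * (NN d k / q)) := by
        refine mul_le_mul_of_nonneg_left ?_ hZ0
        rw [hE, ← Real.exp_add]
        refine Real.exp_le_exp.2 ?_
        have h7 : 0 ≤ NN d k / q := div_nonneg hNN hq0.le
        have h8 : (1 + a / 2) / (q : ℝ) * NN d k = (1 + a / 2) * (NN d k / q) := by ring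
        rw [h8]
        have h9 : -((1 - a / 2) * (1 - 3 * a)) + (1 + a / 2) ≤ 5 * a := by nlinarith
        have h10 := mul_le_mul_of_nonneg_right h9 h7
        linarith

end Pool.Agent.LIN
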