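import Pool.Agent.Lib_MP_2c424f_lin.R1
import Pool.Agent.Lib_MP_2c424f_lin.L4

/-!
# H30 R3a: sites of colour `c` with few available colours

* `Xs_rare`: for a class `b`, given the class `!b` the colours of the class `b` are independent and uniform on the
  available colours (`fib`, `fib_sum`), and `ξ`, `typs a b`, `BB a b` depend on the class `!b` only:
  `E[2^{|Xs ∩ cls b|}; typ] = E[∏_{v ∈ cls b, ξ_v < 1/2-a} (1 + z_v/x_v); typ] ≤ E[exp BB; typ] ≤ exp (5aN/q)`.
  So `P(|Xs ∩ cls b| > 15aN/q) ≤ exp ((5 - 15 log 2) a N/q) + exp (-a³N/2)`; both classes; `a³/2 ≥ 5a/q` (`q` large), and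
  the factors `2`, `4` are absorbed for large `k`.
* `Xs_mean`: Jensen and `1/x ≤ log (1+1/x)/log 2`: `E[BB; typ] ≤ 5aN/q`·(...); off `typ` use `1/x ≤ 1` and `typ_rare`:
  `(N/2) exp (-a³N/2) ≤ a N/q` for large `k`.  (`E[BB; typ] ≤ log E[exp (BB 1_typ)]`.)
-/

set_option autoImplicit false

open Finset Filter

namespace Pool.Agent.LIN

open Pool.Agent.LO

section loc
variable {d k q : ℕ}

open scoped Classical in
/-- sites of the class `b` with few colours -/
private noncomputable def R3a_W (a : ℝ) (b : Bool) (f : Site d k → Fin q) : Finset (Site d k) :=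
  (cls b d k).filter fun v => xi f v < 1 / 2 - a

open scoped Classical in
/-- number of those of colour `c` -/
private noncomputable def R3a_Y (a : ℝ) (b : Bool) (c : Fin q) (f : Site d k → Fin q) : ℕ :=
  ((R3a_W a b f).filter fun v => f v = c).card

private theorem R3a_av (hk : 1 ≤ k) (b : Bool) {f h : Site d k → Fin q} (hh : h ∈ fib b f)
    {v : Site d k} (hv : v ∈ cls b d k) : av h v = av f v := by
  unfold av
  rw [fib_SS hk b hh v hv]

private theorem R3a_xi (hk : 1 ≤ k) (b : Bool) {f h : Site d k → Fin q} (hh : h ∈ fib b f)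
    {v : Site d k} (hv : v ∈ cls b d k) : xi h v = xi f v := by
  unfold xi
  rw [R3a_av hk b hh hv]

private theorem R3a_Weq (hk : 1 ≤ k) (a : ℝ) (b : Bool) {f h : Site d k → Fin q}
    (hh : h ∈ fib b f) : R3a_W a b h = R3a_W a b f := by
  classical
  unfold R3a_W
  refine filter_congr fun v hv => ?_
  rw [R3a_xi hk b hh hv]

private theorem R3a_typ (hk : 1 ≤ k) (a : ℝ) (b : Bool) {f h : Site d k → Fin q} (hf : Prp f)
    (hh : h ∈ fib b f) : h ∈ typs a b d k q ↔ f ∈ typs a b d k q := by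
  classical
  have h1 : f ∈ prps d k q := mem_filter.2 ⟨mem_univ _, hf⟩
  have h2 : h ∈ prps d k q := mem_filter.2 ⟨mem_univ _, fib_prp hk b hf hh⟩
  unfold typs
  rw [mem_filter, mem_filter]
  have h3 : ∑ v ∈ cls b d k, (1 - 2 * xi h v) ^ 2 = ∑ v ∈ cls b d k, (1 - 2 * xi f v) ^ 2 :=
    sum_congr rfl fun v hv => by rw [R3a_xi hk b hh hv]
  rw [h3]
  exact ⟨fun h => ⟨h1, h.2⟩, fun h => ⟨h2, h.2⟩⟩

private theorem R3a_BB (a : ℝ) (b : Bool) {f : Site d k → Fin q} :
    Real.exp (BB a b f) = ∏ v ∈ R3a_W a b f, (1 + 1 / (av f v : ℝ)) := by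
  classical
  unfold BB R3a_W
  rw [← sum_filter, Real.exp_sum]
  refine prod_congr (by congr) fun v _ => ?_
  rw [Real.exp_log]
  have : (0 : ℝ) ≤ av f v := Nat.cast_nonneg _
  positivity

open scoped Classical in
private theorem R3a_fm (hk : 1 ≤ k) (a : ℝ) (b : Bool) (c : Fin q) {f : Site d k → Fin q}
    (hf : Prp f) :
    fm b (fun h => if h ∈ typs a b d k q then (2 : ℝ) ^ R3a_Y a b c h else 0) f ≤
      if f ∈ typs a b d k q then Real.exp (BB a b f) else 0 := by
  by_cases ht : f ∈ typs a b d k q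
  · rw [if_pos ht]
    have h1 : fm b (fun h => if h ∈ typs a b d k q then (2 : ℝ) ^ R3a_Y a b c h else 0) f =
        fm b (fun h => ∏ v ∈ R3a_W a b f, (fun (_ : Site d k) (c' : Fin q) =>
          if c' = c then (2 : ℝ) else 1) v (h v)) f := by
      unfold fm
      congr 1
      refine sum_congr rfl fun h hh => ?_
      show (if h ∈ typs a b d k q then (2 : ℝ) ^ R3a_Y a b c h else 0) =
        ∏ v ∈ R3a_W a b f, (if h v = c then (2 : ℝ) else 1)
      rw [if_pos ((R3a_typ hk a b hf hh).2 ht)]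
      unfold R3a_Y
      rw [R3a_Weq hk a b hh, prod_ite, prod_const, prod_const_one, mul_one]
    have hW : R3a_W a b f ⊆ cls b d k := filter_subset _ _
    have h1' := fm_prod hk b hf (R3a_W a b f) hW (fun (_ : Site d k) (c' : Fin q) =>
          if c' = c then (2 : ℝ) else 1)
    rw [h1, h1', R3a_BB]
    refine prod_le_prod ?_ ?_
    · intro v _
      refine div_nonneg (sum_nonneg fun c' _ => ?_) (Nat.cast_nonneg _)
      split_ifs <;> norm_num
    · intro v _
      have hav : (1 : ℝ) ≤ av f v := by exact_mod_cast av_pos hf v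
      have hcard : (((SS f v)ᶜ).card : ℝ) = av f v := by
        rw [card_compl, Fintype.card_fin]
        rfl
      rw [div_le_iff₀ (by linarith)]
      have h2 : ∑ c' ∈ (SS f v)ᶜ, (if c' = c then (2 : ℝ) else 1) ≤ (av f v : ℝ) + 1 := by
        have h3 : ∑ c' ∈ (SS f v)ᶜ, (if c' = c then (2 : ℝ) else 1) =
            ∑ c' ∈ (SS f v)ᶜ, ((1 : ℝ) + if c' = c then 1 else 0) :=
          sum_congr rfl fun c' _ => by split_ifs <;> norm_num
        rw [h3, sum_add_distrib, sum_const, nsmul_eq_mul, mul_one, hcard]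
        refine add_le_add le_rfl ?_
        rw [sum_ite_eq']
        split_ifs <;> norm_num
      refine h2.trans (le_of_eq ?_)
      field_simp
  · rw [if_neg ht]
    unfold fm
    rw [sum_eq_zero, zero_div]
    intro h hh
    rw [if_neg fun h' => ht ((R3a_typ hk a b hf hh).1 h')]

private theorem R3a_exp (hk : 1 ≤ k) (a : ℝ) (b : Bool) (c : Fin q) :
    ∑ f ∈ typs a b d k q, (2 : ℝ) ^ R3a_Y a b c f ≤ ∑ f ∈ typs a b d k q, Real.exp (BB a b f) := by
  classical
  have hsub : typs a b d k q ⊆ prps d k q := filter_subset _ _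
  have h1 : ∀ G : (Site d k → Fin q) → ℝ, ∑ f ∈ typs a b d k q, G f =
      ∑ f ∈ prps d k q, if f ∈ typs a b d k q then G f else 0 := by
    intro G
    rw [← sum_filter, filter_mem_eq_inter, inter_eq_right.2 hsub]
  rw [h1, h1, fib_sum hk b]
  refine sum_le_sum fun f hf => ?_
  exact R3a_fm hk a b c (mem_filter.1 hf).2

private theorem R3a_markov (a : ℝ) (b : Bool) (c : Fin q) (t : ℝ) :
    (((typs a b d k q).filter fun f => t < (R3a_Y a b c f : ℝ)).card : ℝ) *
      Real.exp (Real.log 2 * t) ≤ ∑ f ∈ typs a b d k q, (2 : ℝ) ^ R3a_Y a b c f := by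
  classical
  rw [← nsmul_eq_mul, ← sum_const]
  refine le_trans (sum_le_sum (g := fun f => (2 : ℝ) ^ R3a_Y a b c f) ?_)
    (sum_le_sum_of_subset_of_nonneg (filter_subset _ _) fun f _ _ => by positivity)
  intro f hf
  have h1 := (mem_filter.1 hf).2
  show Real.exp (Real.log 2 * t) ≤ (2 : ℝ) ^ R3a_Y a b c f
  rw [← Real.rpow_natCast, Real.rpow_def_of_pos (by norm_num)]
  refine Real.exp_le_exp.2 (mul_le_mul_of_nonneg_left h1.le (Real.log_nonneg (by norm_num)))

private theorem R3a_card (a : ℝ) (c : Fin q) (f : Site d k → Fin q) :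
    ((Xs a c f).card : ℝ) ≤ R3a_Y a true c f + R3a_Y a false c f := by
  classical
  rw [← Nat.cast_add]
  refine Nat.cast_le.2 ?_
  unfold R3a_Y
  refine le_trans (card_le_card ?_) (card_union_le _ _)
  intro v hv
  unfold Xs at hv
  obtain ⟨-, h1, h2⟩ := mem_filter.1 hv
  rw [mem_union]
  by_cases hb : v ∈ cls true d k
  · left
    exact mem_filter.2 ⟨mem_filter.2 ⟨hb, h2⟩, h1⟩
  · right
    exact mem_filter.2 ⟨mem_filter.2 ⟨(cls_not true v).2 hb, h2⟩, h1⟩

end loc

open scoped Classical in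
theorem Xs_rare (a : ℝ) (ha : 0 < a) (ha1 : a ≤ 1 / 10) : Ev fun d k q => ∀ c : Fin q,
    (((prps d k q).filter fun f => 30 * a * (NN d k / q) < ((Xs a c f).card : ℝ)).card : ℝ) ≤
      ZZ d k q * Real.exp (-(4 * a * (NN d k / q))) := by
  refine ((((BB_exp a ha ha1).and (typ_rare a ha ha1)).and
    (Ev_large (max (20 / a ^ 2) 1))).and (Ev_NN fun _ q => 2 * q / a)).mono fun d k q h => ?_
  obtain ⟨⟨⟨hB, hT⟩, hq, -, hd, hk⟩, hN⟩ := h
  intro c
  have hk1 : 1 ≤ k := by
    have : (1 : ℝ) ≤ k := (le_max_right _ _).trans hk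
    exact_mod_cast this
  have hq1 : (1 : ℝ) ≤ q := (le_max_right _ _).trans hq
  have hq2 : 20 / a ^ 2 ≤ q := (le_max_left _ _).trans hq
  have hq0 : (0 : ℝ) < q := by linarith
  have hZ0 : 0 ≤ ZZ d k q := Nat.cast_nonneg _
  set T := NN d k / q with hTdef
  have hT2 : 2 ≤ a * T := by
    rw [hTdef]
    rw [div_le_iff₀ ha] at hN
    rw [← mul_div_assoc, le_div_iff₀ hq0]
    linarith
  have hNT : NN d k = T * q := by
    rw [hTdef]
    field_simp
  -- one class
  have hone : ∀ b : Bool,
      (((prps d k q).filter fun f => 15 * a * T < (R3a_Y a b c f : ℝ)).card : ℝ) ≤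
        ZZ d k q * (2 * Real.exp (-(5 * a * T))) := by
    intro b
    have h1 := (R3a_markov (d := d) (k := k) a b c (15 * a * T)).trans
      ((R3a_exp hk1 a b c).trans (hB b))
    have h2 : (((typs a b d k q).filter fun f => 15 * a * T < (R3a_Y a b c f : ℝ)).card : ℝ) ≤
        ZZ d k q * Real.exp (-(5 * a * T)) := by
      have h3 : (((typs a b d k q).filter fun f => 15 * a * T < (R3a_Y a b c f : ℝ)).card : ℝ) ≤
          ZZ d k q * Real.exp (5 * a * T) * Real.exp (-(Real.log 2 * (15 * a * T))) := by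
        rw [Real.exp_neg, ← div_eq_mul_inv, le_div_iff₀ (Real.exp_pos _)]
        exact h1
      refine h3.trans ?_
      rw [mul_assoc, ← Real.exp_add]
      refine mul_le_mul_of_nonneg_left (Real.exp_le_exp.2 ?_) hZ0
      have h4 := Real.log_two_gt_d9
      have h5 : (0.68 : ℝ) * (15 * a * T) ≤ Real.log 2 * (15 * a * T) :=
        mul_le_mul_of_nonneg_right (by linarith) (by nlinarith)
      nlinarith
    have h6 : (((prps d k q) \ typs a b d k q).card : ℝ) ≤ ZZ d k q * Real.exp (-(5 * a * T)) := by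
      refine (hT b).trans (mul_le_mul_of_nonneg_left (Real.exp_le_exp.2 ?_) hZ0)
      rw [hNT]
      have h7 : 20 ≤ a ^ 2 * q := by
        rw [div_le_iff₀ (by positivity)] at hq2
        linarith
      have h8 : a ^ 3 * (T * q) = (a ^ 2 * q) * (a * T) := by ring
      have h9 : 20 * (a * T) ≤ (a ^ 2 * q) * (a * T) :=
        mul_le_mul_of_nonneg_right h7 (by linarith)
      rw [h8]
      nlinarith
    have h10 : (((prps d k q).filter fun f => 15 * a * T < (R3a_Y a b c f : ℝ)).card : ℝ) ≤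
        (((typs a b d k q).filter fun f => 15 * a * T < (R3a_Y a b c f : ℝ)).card : ℝ) +
          (((prps d k q) \ typs a b d k q).card : ℝ) := by
      rw [← Nat.cast_add]
      refine Nat.cast_le.2 (le_trans (card_le_card ?_) (card_union_le _ _))
      intro f hf
      obtain ⟨hf1, hf2⟩ := mem_filter.1 hf
      rw [mem_union]
      by_cases ht : f ∈ typs a b d k q
      · exact Or.inl (mem_filter.2 ⟨ht, hf2⟩)
      · exact Or.inr (mem_sdiff.2 ⟨hf1, ht⟩)
    linarith
  have hfin : (((prps d k q).filter fun f => 30 * a * T < ((Xs a c f).card : ℝ)).card : ℝ) ≤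
      (((prps d k q).filter fun f => 15 * a * T < (R3a_Y a true c f : ℝ)).card : ℝ) +
        (((prps d k q).filter fun f => 15 * a * T < (R3a_Y a false c f : ℝ)).card : ℝ) := by
    rw [← Nat.cast_add]
    refine Nat.cast_le.2 (le_trans (card_le_card ?_) (card_union_le _ _))
    intro f hf
    obtain ⟨hf1, hf2⟩ := mem_filter.1 hf
    rw [mem_union]
    have h3 := R3a_card a c f
    by_cases ht : 15 * a * T < (R3a_Y a true c f : ℝ)
    · exact Or.inl (mem_filter.2 ⟨hf1, ht⟩)
    · refine Or.inr (mem_filter.2 ⟨hf1, ?_⟩)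
      rw [not_lt] at ht
      linarith
  refine hfin.trans ((add_le_add (hone true) (hone false)).trans ?_)
  rw [← mul_add]
  refine mul_le_mul_of_nonneg_left ?_ hZ0
  have h11 : Real.exp (-(5 * a * T)) = Real.exp (-(a * T)) * Real.exp (-(4 * a * T)) := by
    rw [← Real.exp_add]
    congr 1
    ring
  have h12 : Real.exp (-(a * T)) ≤ 1 / 4 := by
    have h13 : (4 : ℝ) ≤ Real.exp 2 := by
      have h14 := Real.exp_one_gt_d9
      have h15 : Real.exp 2 = Real.exp 1 * Real.exp 1 := by
        rw [← Real.exp_add]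
        norm_num
      rw [h15]
      nlinarith
    have h16 : Real.exp (-(a * T)) ≤ Real.exp (-2) := Real.exp_le_exp.2 (by linarith)
    refine h16.trans ?_
    rw [Real.exp_neg, inv_eq_one_div]
    exact one_div_le_one_div_of_le (by norm_num) h13
  rw [h11]
  have h17 := Real.exp_pos (-(4 * a * T))
  nlinarith

end Pool.Agent.LIN
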