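import Pool.Agent.Lib_MP_2c424f_lin.R3a

/-!
# H30 R3b: sites of colour `c` with few available colours

* `Xs_rare`: for a class `b`, given the class `!b` the colours of the class `b` are independent and uniform on the
  available colours (`fib`, `fib_sum`), and `ξ`, `typs a b`, `BB a b` depend on the class `!b` only:
  `E[2^{|Xs ∩ cls b|}; typ] = E[∏_{v ∈ cls b, ξ_v < 1/2-a} (1 + z_v/x_v); typ] ≤ E[exp BB; typ] ≤ exp (5aN/q)`.
  So `P(|Xs ∩ cls b| > 15aN/q) ≤ exp ((5 - 15 log 2) a N/q) + exp (-a³N/2)`; both classes; `a³/2 ≥ 5a/q` (`q` large), and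
  the factors `2`, `4` are absorbed for large `k`.
* `Xs_mean`: Jensen and `1/x ≤ log (1+1/x)/log 2`: `E[BB; typ] ≤ 5aN/q`·(...); off `typ` use `1/x ≤ 1` and `typ_rare`:
  `(N/2) exp (-a³N/2) ≤ a N/q` for large `k`.  (`E[BB; typ] ≤ log E[exp (BB 1_typ)]`.)
-/

set_option autoImplicit false

open Finset Filter

namespace Pool.Agent.LIN

open Pool.Agent.LO

private theorem R3b_log {x : ℝ} (hx : 1 ≤ x) : 1 / x * Real.log 2 ≤ Real.log (1 + 1 / x) := by
  have hx0 : 0 < x := by linarith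
  have h1 : (1 + 1 : ℝ) ^ (1 / x) ≤ 1 + 1 / x * 1 :=
    rpow_one_add_le_one_add_mul_self (by norm_num) (by positivity) ((div_le_one hx0).2 hx)
  rw [mul_one] at h1
  have h2 := Real.log_le_log (by positivity) h1
  rw [Real.log_rpow (by norm_num)] at h2
  rwa [show (1 + 1 : ℝ) = 2 by norm_num] at h2

private theorem R3b_cls (d k : ℕ) (hd : 1 ≤ d) (hk : 1 ≤ k) (b : Bool) :
    ((cls b d k).card : ℝ) = NN d k / 2 := by
  cases b
  · exact card_ods hd hk
  · exact card_evs hd hk

open scoped Classical in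
theorem Xs_mean (a : ℝ) (ha : 0 < a) (ha1 : a ≤ 1 / 10) : Ev fun d k q => ∀ b : Bool,
    ∑ f ∈ prps d k q, ∑ v ∈ cls b d k, (if xi f v < 1 / 2 - a then 1 / (av f v : ℝ) else 0) ≤
      ZZ d k q * (20 * a * (NN d k / q)) := by
  obtain ⟨δ, hδ, h⟩ := (typ_rare a ha ha1).and (BB_exp a ha ha1)
  refine ⟨δ, hδ, fun d q hG => ?_⟩
  have hq := hG.2.1
  have hd := hG.2.2.1
  have hq0 : (0 : ℝ) < q := lt_of_lt_of_le (by positivity) hq
  have hdn : d ≠ 0 := by
    rintro rfl
    rw [Nat.cast_zero, mul_zero] at hd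
    linarith
  have hN : Tendsto (fun k => NN d k) atTop atTop := by
    unfold NN
    exact (tendsto_pow_atTop hdn).comp (tendsto_pow_atTop_atTop_of_one_lt one_lt_two)
  filter_upwards [h d q hG, hN.eventually_ge_atTop (q / a),
    hN.eventually_ge_atTop (2 * Real.log (q / a) / a ^ 3), eventually_ge_atTop 1] with k hk h1 h2 hk1
  intro b
  obtain ⟨ht, hB⟩ := hk
  specialize ht b
  specialize hB b
  obtain ⟨Y, hY⟩ : ∃ Y : (Site d k → Fin q) → ℝ, Y = fun f =>
    ∑ v ∈ cls b d k, (if xi f v < 1 / 2 - a then 1 / (av f v : ℝ) else 0) := ⟨_, rfl⟩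
  have hav : ∀ f ∈ prps d k q, ∀ v, (1 : ℝ) ≤ av f v := by
    intro f hf v
    unfold prps at hf
    exact_mod_cast av_pos (mem_filter.1 hf).2 v
  have hYB : ∀ f ∈ prps d k q, Y f * Real.log 2 ≤ BB a b f := by
    intro f hf
    rw [hY]
    unfold BB
    rw [sum_mul]
    refine sum_le_sum fun v _ => ?_
    split_ifs
    · exact R3b_log (hav f hf v)
    · rw [zero_mul]
  have hYN : ∀ f ∈ prps d k q, Y f ≤ NN d k := by
    intro f hf
    have h3 : Y f ≤ ∑ v ∈ cls b d k, (1 : ℝ) := by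
      rw [hY]
      refine sum_le_sum fun v _ => ?_
      split_ifs
      · have h4 := hav f hf v
        exact (div_le_one (by linarith)).2 h4
      · norm_num
    rw [sum_const, nsmul_eq_mul, mul_one, R3b_cls d k (by omega) hk1 b] at h3
    have h5 : 0 ≤ NN d k := by unfold NN; positivity
    linarith
  have hNN : 0 ≤ NN d k := by unfold NN; positivity
  have hZ0 : 0 ≤ ZZ d k q := Nat.cast_nonneg _
  have hsub : typs a b d k q ⊆ prps d k q := by
    unfold typs
    exact filter_subset _ _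
  have hT : ((typs a b d k q).card : ℝ) ≤ ZZ d k q := by
    unfold ZZ
    exact_mod_cast card_le_card hsub
  obtain ⟨ν, hν⟩ : ∃ ν, ν = a * (NN d k / q) := ⟨_, rfl⟩
  have hν1 : 1 ≤ ν := by
    rw [hν, ← mul_div_assoc, le_div_iff₀ hq0, one_mul, mul_comm]
    exact (div_le_iff₀ ha).1 h1
  -- the typical part
  have htyp : (∑ f ∈ typs a b d k q, Y f) * Real.log 2 ≤ ZZ d k q * (5 * ν) + ZZ d k q := by
    have h3 : ∀ f ∈ typs a b d k q, Y f * Real.log 2 ≤
        5 * ν + (Real.exp (-(5 * ν)) * Real.exp (BB a b f) - 1) := by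
      intro f hf
      refine (hYB f (hsub hf)).trans ?_
      have h4 := Real.add_one_le_exp (BB a b f - 5 * ν)
      rw [← Real.exp_add, show -(5 * ν) + BB a b f = BB a b f - 5 * ν by ring]
      linarith
    have h5 := sum_le_sum h3
    rw [← sum_mul, sum_add_distrib, sum_sub_distrib, sum_const, sum_const, nsmul_eq_mul,
      nsmul_eq_mul, mul_one, ← mul_sum (typs a b d k q) (fun f => Real.exp (BB a b f))] at h5
    have h6 : Real.exp (-(5 * ν)) * ∑ f ∈ typs a b d k q, Real.exp (BB a b f) ≤ ZZ d k q := by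
      have h7 := mul_le_mul_of_nonneg_left hB (Real.exp_pos (-(5 * ν))).le
      rw [show 5 * a * (NN d k / q) = 5 * ν by rw [hν]; ring] at h7
      have h8 : Real.exp (-(5 * ν)) * (ZZ d k q * Real.exp (5 * ν)) = ZZ d k q := by
        rw [mul_left_comm, ← Real.exp_add, neg_add_cancel, Real.exp_zero, mul_one]
      linarith
    have h9 : ((typs a b d k q).card : ℝ) * (5 * ν) ≤ ZZ d k q * (5 * ν) :=
      mul_le_mul_of_nonneg_right hT (by linarith)
    have h10 : (0 : ℝ) ≤ (typs a b d k q).card := Nat.cast_nonneg _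
    linarith
  -- the rest
  have hexp : NN d k * Real.exp (-(a ^ 3 * NN d k / 2)) ≤ ν := by
    have h3 : Real.exp (-(a ^ 3 * NN d k / 2)) ≤ a / q := by
      have h4 : Real.log (q / a) ≤ a ^ 3 * NN d k / 2 := by
        rw [div_le_iff₀ (by positivity)] at h2
        linarith
      have h5 : (0 : ℝ) < q / a := by positivity
      have h6 := Real.exp_le_exp.2 (neg_le_neg h4)
      rw [Real.exp_neg (Real.log (q / a)), Real.exp_log h5, inv_div] at h6
      exact h6
    rw [hν]
    have h7 := mul_le_mul_of_nonneg_left h3 hNN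
    refine h7.trans (le_of_eq ?_)
    ring
  have hrest : ∑ f ∈ prps d k q \ typs a b d k q, Y f ≤ ZZ d k q * ν := by
    have h3 : ∑ f ∈ prps d k q \ typs a b d k q, Y f ≤
        ∑ f ∈ prps d k q \ typs a b d k q, NN d k :=
      sum_le_sum fun f hf => hYN f (mem_sdiff.1 hf).1
    rw [sum_const, nsmul_eq_mul] at h3
    refine h3.trans ?_
    have h4 := mul_le_mul_of_nonneg_right ht hNN
    have h5 := mul_le_mul_of_nonneg_left hexp hZ0
    refine h4.trans (le_trans (le_of_eq ?_) h5)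
    ring
  have hsum := sum_sdiff hsub (f := Y)
  have hlog := Real.log_two_gt_d9
  have hYt : 0 ≤ ∑ f ∈ typs a b d k q, Y f := by
    refine sum_nonneg fun f _ => ?_
    rw [hY]
    refine sum_nonneg fun v _ => ?_
    split_ifs
    · positivity
    · exact le_rfl
  have hfin : ∑ f ∈ prps d k q, Y f ≤ ZZ d k q * (20 * ν) := by
    rw [← hsum]
    have h3 : (∑ f ∈ typs a b d k q, Y f) * (1 / 2) ≤ (∑ f ∈ typs a b d k q, Y f) * Real.log 2 :=
      mul_le_mul_of_nonneg_left (by linarith) hYt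
    have h4 : ZZ d k q ≤ ZZ d k q * ν := le_mul_of_one_le_right hZ0 hν1
    nlinarith
  rw [hY, hν] at hfin
  refine le_trans (le_of_eq ?_) (hfin.trans (le_of_eq (by ring)))
  rfl

end Pool.Agent.LIN
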